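import Pool.Agent.Lib.D7.Api

/-!
# MP_5dcbc3_ag: tools for the reductions
-/

namespace Pool.Agent.Lib.D8

open Matrix Pool.Agent.Lib.Q5dc Pool.Agent.Lib.D7

section General

variable {k n : Type*} [Field k] [Fintype n] [DecidableEq n] {ρ : ℕ → ℕ}

theorem cn3 {A B C : Matrix n n k} (hAB : A * B = B * A)
    (hAC : A * C = C * A) (hBC : B * C = C * B) (hA : IsNilpotent A) (hB : IsNilpotent B)
    (hC : IsNilpotent C) : CN ![A, B, C] := by
  refine ⟨?_, ?_⟩
  · intro i j
    fin_cases i <;> fin_cases j <;> simp [hAB, hAC, hBC]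
  · intro i
    fin_cases i <;> simp [hA, hB, hC]

theorem mem0 (A B C : Matrix n n k) : A ∈ adj ![A, B, C] := mem_adj ![A, B, C] 0

theorem mem1 (A B C : Matrix n n k) : B ∈ adj ![A, B, C] := mem_adj ![A, B, C] 1

theorem mem2 (A B C : Matrix n n k) : C ∈ adj ![A, B, C] := mem_adj ![A, B, C] 2

/-- if `ρ 3 = 0`, the products of three elements vanish -/
theorem mul3 [CharZero k] {T : Fin 3 → Matrix n n k} (hT : MaxR ρ T) (h3 : ρ 3 = 0)
    {X Y Z : Matrix n n k} (hX : X ∈ adj T) (hY : Y ∈ adj T) (hZ : Z ∈ adj T) :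
    X * Y * Z = 0 := by
  have cube : ∀ X ∈ adj T, X * X * X = 0 := by
    intro X hX
    have h := hT.pow_eq_zero hX h3
    rw [← h, pow_succ, pow_two]
  have c1 : Y * X = X * Y := hT.cn.comm hY hX
  have c2 : Z * X = X * Z := hT.cn.comm hZ hX
  have c3 : Z * Y = Y * Z := hT.cn.comm hZ hY
  have e1 := cube _ (add_mem (add_mem hX hY) hZ)
  have e2 := cube _ (add_mem hX hY)
  have e3 := cube _ (add_mem hX hZ)
  have e4 := cube _ (add_mem hY hZ)
  have e5 := cube _ hX
  have e6 := cube _ hY
  have e7 := cube _ hZ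
  have hYX : Y * X * Z = X * Y * Z := by rw [c1]
  have hXZY : X * Z * Y = X * Y * Z := by rw [mul_assoc, c3, ← mul_assoc]
  have hYZX : Y * Z * X = X * Y * Z := by rw [mul_assoc, c2, ← mul_assoc, c1]
  have hZXY : Z * X * Y = X * Y * Z := by rw [c2, hXZY]
  have hZYX : Z * Y * X = X * Y * Z := by rw [c3, hYZX]
  have e : (X + Y + Z) * (X + Y + Z) * (X + Y + Z) - (X + Y) * (X + Y) * (X + Y) -
      (X + Z) * (X + Z) * (X + Z) - (Y + Z) * (Y + Z) * (Y + Z) + X * X * X + Y * Y * Y +
      Z * Z * Z = X * Y * Z + X * Z * Y + Y * X * Z + Y * Z * X + Z * X * Y + Z * Y * X := by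
    noncomm_ring
  rw [e1, e2, e3, e4, e5, e6, e7, hYX, hXZY, hYZX, hZXY, hZYX] at e
  have e' : (6 : k) • (X * Y * Z) = 0 := by
    have : (6 : k) • (X * Y * Z) = X * Y * Z + X * Y * Z + X * Y * Z + X * Y * Z + X * Y * Z +
        X * Y * Z := by module
    rw [this, ← e]
    simp
  exact (smul_eq_zero.mp e').resolve_left (by norm_num)

theorem MaxR.change3 {A B C B' C' : Matrix n n k}
    (hT : MaxR ρ ![A, B, C]) (h1 : B' ∈ adj ![A, B, C]) (h2 : C' ∈ adj ![A, B, C])
    (h3 : B ∈ adj ![A, B', C']) (h4 : C ∈ adj ![A, B', C']) : MaxR ρ ![A, B', C'] := by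
  refine MaxR.change hT (hT.cn.of_adj fun i => ?_) fun i => ?_
  · fin_cases i
    exacts [mem0 A B C, h1, h2]
  · fin_cases i
    exacts [mem0 A B' C', h3, h4]

theorem MaxR.swap {A B C : Matrix n n k} (hT : MaxR ρ ![A, B, C]) : MaxR ρ ![A, C, B] :=
  MaxR.change3 hT (mem2 A B C) (mem1 A B C) (mem2 A C B) (mem1 A C B)

/-- linear changes of `B, C` and multiples of `A` and `A ^ 2` -/
theorem MaxR.lin {A B C : Matrix n n k} (hT : MaxR ρ ![A, B, C]) (a b c d x y z w : k)
    (h : a * d - b * c ≠ 0) :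
    MaxR ρ ![A, a • B + b • C + x • A + y • (A * A), c • B + d • C + z • A + w • (A * A)] := by
  have sm : ∀ {T : Fin 3 → Matrix n n k} {M : Matrix n n k} (s : k), M ∈ adj T →
      s • M ∈ adj T := fun s hM => SMulMemClass.smul_mem s hM
  have m0 := mem0 A B C
  have m1 := mem1 A B C
  have m2 := mem2 A B C
  have m00 := mul_mem m0 m0
  set B' := a • B + b • C + x • A + y • (A * A) with hB'
  set C' := c • B + d • C + z • A + w • (A * A) with hC'
  have n0 := mem0 A B' C'
  have n1 := mem1 A B' C'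
  have n2 := mem2 A B' C'
  have n00 := mul_mem n0 n0
  refine MaxR.change3 hT ?_ ?_ ?_ ?_
  · exact add_mem (add_mem (add_mem (sm a m1) (sm b m2)) (sm x m0)) (sm y m00)
  · exact add_mem (add_mem (add_mem (sm c m1) (sm d m2)) (sm z m0)) (sm w m00)
  · have e : B = (a * d - b * c)⁻¹ • (d • B' - b • C' - (d * x - b * z) • A -
        (d * y - b * w) • (A * A)) := by
      have e2 : d • B' - b • C' - (d * x - b * z) • A - (d * y - b * w) • (A * A) =
          (a * d - b * c) • B := by
        rw [hB', hC']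
        module
      rw [e2, inv_smul_smul₀ h]
    rw [e]
    exact sm _ (sub_mem (sub_mem (sub_mem (sm d n1) (sm b n2)) (sm _ n0)) (sm _ n00))
  · have e : C = (a * d - b * c)⁻¹ • (a • C' - c • B' - (a * z - c * x) • A -
        (a * w - c * y) • (A * A)) := by
      have e2 : a • C' - c • B' - (a * z - c * x) • A - (a * w - c * y) • (A * A) =
          (a * d - b * c) • C := by
        rw [hB', hC']
        module
      rw [e2, inv_smul_smul₀ h]
    rw [e]
    exact sm _ (sub_mem (sub_mem (sub_mem (sm a n2) (sm c n1)) (sm _ n0)) (sm _ n00))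

/-- deformation along a line, avoiding a finite set -/
theorem MaxR.line [Infinite k] {T : Fin 3 → Matrix n n k} (hT : MaxR ρ T)
    (D : Fin 3 → Matrix n n k) (h : ∀ s : k, CN (T + s • D)) {F : Set k} (hF : F.Finite) :
    ∃ s, s ∉ F ∧ MaxR ρ (T + s • D) := by
  obtain ⟨E', hE', h1⟩ := hT.deform (fun s => T + s • D) (PolyFam.line _ _)
    (by simp) Set.finite_empty (fun s _ => h s)
  obtain ⟨s, hs⟩ := (hE'.union hF).infinite_compl.nonempty
  rw [Set.mem_compl_iff, Set.mem_union, not_or] at hs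
  exact ⟨s, hs.2, h1 s hs.1⟩

theorem line3_eq (A B C A' B' C' : Matrix n n k) (s : k) :
    (![A, B, C] : Fin 3 → Matrix n n k) + s • ![A', B', C'] =
      ![A + s • A', B + s • B', C + s • C'] := by
  funext i
  fin_cases i <;> simp

/-- deformation along a line -/
theorem MaxR.line3 [Infinite k] {A B C : Matrix n n k} (hT : MaxR ρ ![A, B, C])
    (A' B' C' : Matrix n n k) (h : ∀ s : k, CN ![A + s • A', B + s • B', C + s • C'])
    {F : Set k} (hF : F.Finite) :
    ∃ s, s ∉ F ∧ MaxR ρ ![A + s • A', B + s • B', C + s • C'] := by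
  obtain ⟨s, hs, h1⟩ := MaxR.line hT ![A', B', C'] (fun s => by rw [line3_eq]; exact h s) hF
  rw [line3_eq] at h1
  exact ⟨s, hs, h1⟩

/-- deformation along a line, `A` fixed -/
theorem MaxR.line2 [Infinite k] {A B C : Matrix n n k} (hT : MaxR ρ ![A, B, C])
    (B' C' : Matrix n n k) (h : ∀ s : k, CN ![A, B + s • B', C + s • C'])
    {F : Set k} (hF : F.Finite) :
    ∃ s, s ∉ F ∧ MaxR ρ ![A, B + s • B', C + s • C'] := by
  obtain ⟨s, hs, h1⟩ := MaxR.line3 hT 0 B' C' (fun s => by simpa using h s) hF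
  exact ⟨s, hs, by simpa using h1⟩

/-- raising along a line: the power `i` of `a (A + s A') + b (B + s B') + c (C + s C')` has an
entry which is a nonzero function of `s` at infinitely many `s`, though `ρ i = 0` -/
theorem MaxR.raise0 [Infinite k] {A B C : Matrix n n k} (hT : MaxR ρ ![A, B, C])
    (A' B' C' : Matrix n n k) (h : ∀ s : k, CN ![A + s • A', B + s • B', C + s • C'])
    (i : ℕ) (hi : ρ i = 0) (a b c : k)
    (hx : {s : k | (a • (A + s • A') + b • (B + s • B') + c • (C + s • C')) ^ i ≠ 0}.Infinite) :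
    False := by
  obtain ⟨E', hE', h1⟩ := hT.deform (fun s => ![A, B, C] + s • ![A', B', C'])
    (PolyFam.line _ _) (by simp) Set.finite_empty (fun s _ => by
      show CN (![A, B, C] + s • ![A', B', C'])
      rw [line3_eq]; exact h s)
  obtain ⟨s, hs, hs'⟩ := (hx.sdiff hE').nonempty
  have h2 := h1 s hs'
  have h3 : MaxR ρ ![A + s • A', B + s • B', C + s • C'] := by
    rw [← line3_eq]
    exact h2
  refine hs (h3.pow_eq_zero ?_ hi)
  exact add_mem (add_mem (SMulMemClass.smul_mem a (mem0 _ _ _))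
    (SMulMemClass.smul_mem b (mem1 _ _ _))) (SMulMemClass.smul_mem c (mem2 _ _ _))

/-- a polynomial function of `s` with a nonzero coefficient has finitely many zeros -/
theorem finite_zeros (p : Polynomial k) (hp : p ≠ 0) :
    {s : k | p.eval s = 0}.Finite := by
  classical
  have h : {s : k | p.eval s = 0} ⊆ (p.roots.toFinset : Set k) := by
    intro s hs
    simpa [hp] using hs
  exact (Finset.finite_toSet _).subset h

/-- zeros of `a + b s + c s ^ 2`, not all coefficients zero -/
theorem finite_quad {a b c : k} (h : a ≠ 0 ∨ b ≠ 0 ∨ c ≠ 0) :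
    {s : k | a + b * s + c * s ^ 2 = 0}.Finite := by
  have hp : (Polynomial.C a + Polynomial.C b * Polynomial.X + Polynomial.C c * Polynomial.X ^ 2) ≠
      (0 : Polynomial k) := by
    intro h0
    have h1 := congrArg (fun p => Polynomial.coeff p 0) h0
    have h2 := congrArg (fun p => Polynomial.coeff p 1) h0
    have h3 := congrArg (fun p => Polynomial.coeff p 2) h0
    simp [Polynomial.coeff_X, Polynomial.coeff_X_pow] at h1 h2 h3
    rcases h with h | h | h
    · exact h h1
    · exact h h2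
    · exact h h3
  refine (finite_zeros _ hp).subset fun s hs => ?_
  simpa using hs

/-- 2 x 2 minors of matrices of rank at most 1 -/
theorem minor_zero {M : Matrix n n k} (h : M.rank ≤ 1) (i i' j j' : n) :
    M i j * M i' j' = M i j' * M i' j := by
  by_contra hne
  have h1 : 2 ≤ M.rank := by
    refine le_rank_of_minor M ![i, i'] ![j, j'] ?_
    rw [Matrix.det_fin_two]
    simpa [sub_eq_zero] using hne
  omega

end General

end Pool.Agent.Lib.D8
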