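import Pool.Agent.Lib.D7.Api

/-!
# MP_5dcbc3_ag: torus degenerations of curvilinear families

If a finite family of matrices `L c` consists of polynomials (without constant term) in one regular
nilpotent matrix, and `L c` does not raise the weight `w` by more than `e c`, then the parts of `L c`
which raise the weight by exactly `e c`, and all triples of linear combinations of these parts, are limits
of curvilinear triples.
-/

namespace Pool.Agent.Lib.D8

open Matrix Pool.Agent.Lib.Q5dc Pool.Agent.Lib.D7

variable {k : Type*} [Field k]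

/-- the three matrices can be multiplied by scalars -/
theorem cl_smul3 {ι : Type*} [Fintype ι] [DecidableEq ι] {T : Fin 3 → Matrix ι ι k}
    (h : Cl T) (r : Fin 3 → k) : Cl fun i => r i • T i :=
  cl_of_adj (fun i => SMulMemClass.smul_mem (r i) (mem_adj T i)) h

/-- matrix form -/
theorem cl_initial {ι κ : Type*} [Fintype ι] [DecidableEq ι] [Fintype κ] [Infinite k]
    (N : Matrix ι ι k) (hN : N ^ Fintype.card ι = 0) (hN' : N ^ (Fintype.card ι - 1) ≠ 0)
    (L : κ → Matrix ι ι k)
    (hL : ∀ c, ∃ p : Polynomial k, p.coeff 0 = 0 ∧ L c = Polynomial.aeval N p)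
    (e : κ → ℕ) (w : ι → ℕ) (hw : ∀ c a b, L c a b ≠ 0 → w a ≤ e c + w b)
    (lam : Fin 3 → κ → k) :
    Cl fun i => ∑ c, lam i c • Matrix.of fun a b => if w a = e c + w b then L c a b else 0 := by
  classical
  let P : Fin 3 → ι → ι → Polynomial k := fun i a b =>
    ∑ c, Polynomial.C (lam i c * L c a b) * Polynomial.X ^ (e c + w b - w a)
  have hP : ∀ s : k, (fun i => Matrix.of fun x y => (P i x y).eval s) =
      fun i => ∑ c, lam i c • Matrix.of fun a b => L c a b * s ^ (e c + w b - w a) := by
    intro s
    funext i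
    ext a b
    simp only [P, Matrix.of_apply, Polynomial.eval_finsetSum, Polynomial.eval_mul,
      Polynomial.eval_C, Polynomial.eval_pow, Polynomial.eval_X, Matrix.sum_apply,
      Matrix.smul_apply, smul_eq_mul, mul_assoc]
  have h0 : ∀ s : k, s ≠ 0 → Cl fun i => Matrix.of fun x y => (P i x y).eval s := by
    intro s hs
    rw [hP]
    refine Cl.of_curv ?_
    let g : Matrix ι ι k := Matrix.diagonal fun a => (s ^ w a)⁻¹
    let h : Matrix ι ι k := Matrix.diagonal fun a => s ^ w a
    have hg : g * h = 1 := by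
      simp only [g, h, Matrix.diagonal_mul_diagonal]
      rw [← Matrix.diagonal_one]
      congr 1
      funext a
      exact inv_mul_cancel₀ (pow_ne_zero _ hs)
    have hh : h * g = 1 := by
      simp only [g, h, Matrix.diagonal_mul_diagonal]
      rw [← Matrix.diagonal_one]
      congr 1
      funext a
      exact mul_inv_cancel₀ (pow_ne_zero _ hs)
    choose p hp hLp using hL
    refine ⟨g * N * h, ?_, ?_, fun i => ⟨∑ c, (lam i c * s ^ e c) • p c, ?_, ?_⟩⟩
    · rw [conj_pow' g h hg hh, hN, mul_zero, zero_mul]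
    · rw [conj_pow' g h hg hh]
      intro h1
      apply hN'
      have h2 : h * (g * N ^ (Fintype.card ι - 1) * h) * g = N ^ (Fintype.card ι - 1) := by
        calc h * (g * N ^ (Fintype.card ι - 1) * h) * g
            = (h * g) * N ^ (Fintype.card ι - 1) * (h * g) := by simp only [Matrix.mul_assoc]
          _ = _ := by rw [hh, one_mul, mul_one]
      rw [← h2, h1, mul_zero, zero_mul]
    · rw [Polynomial.finsetSum_coeff]
      refine Finset.sum_eq_zero fun c _ => ?_
      rw [Polynomial.coeff_smul, hp, smul_zero]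
    · rw [map_sum]
      refine Finset.sum_congr rfl fun c _ => ?_
      have h3 : Polynomial.aeval (g * N * h) (p c) = g * L c * h := by
        rw [hLp c]
        exact Polynomial.aeval_algHom_apply (conjHom g h hg hh) N (p c)
      rw [map_smul, h3, mul_smul]
      congr 1
      ext a b
      simp only [g, h, Matrix.of_apply, Matrix.smul_apply, smul_eq_mul, Matrix.mul_diagonal,
        Matrix.diagonal_mul]
      by_cases hz : L c a b = 0
      · rw [hz]; ring
      · have h4 : s ^ (e c + w b - w a) * s ^ w a = s ^ e c * s ^ w b := by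
          rw [← pow_add, ← pow_add, Nat.sub_add_cancel (hw c a b hz)]
        field_simp
        linear_combination h4
  have h1 := Cl.curve P ((Set.Infinite.mono (fun s hs => h0 s hs)
    (Set.Finite.infinite_compl (Set.finite_singleton (0 : k))))) 0
  rw [hP] at h1
  have h2 : (fun i => ∑ c, lam i c • Matrix.of fun a b => L c a b * (0 : k) ^ (e c + w b - w a)) =
      fun i => ∑ c, lam i c • Matrix.of fun a b => if w a = e c + w b then L c a b else 0 := by
    funext i
    refine Finset.sum_congr rfl fun c _ => ?_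
    congr 1
    ext a b
    simp only [Matrix.of_apply]
    by_cases hz : L c a b = 0
    · rw [hz]; simp
    · have h3 := hw c a b hz
      split_ifs with h4
      · rw [← h4, Nat.sub_self, pow_zero, mul_one]
      · rw [zero_pow (by omega), mul_zero]
  rwa [h2] at h1

/-- independence of the basis, endomorphism form of the assumption -/
theorem cl_of_arc {n ι κ V : Type*} [Fintype n] [DecidableEq n] [Fintype ι] [DecidableEq ι]
    [Fintype κ] [Infinite k] [AddCommGroup V] [Module k V]
    (b : Module.Basis ι k V) (N : Module.End k V) (hN : N ^ Fintype.card ι = 0)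
    (hN' : N ^ (Fintype.card ι - 1) ≠ 0)
    (L : κ → Module.End k V)
    (hL : ∀ c, ∃ p : Polynomial k, p.coeff 0 = 0 ∧ L c = Polynomial.aeval N p)
    (e : κ → ℕ) (w : ι → ℕ) (T : κ → ι → ι → k)
    (hT : ∀ c a j, T c a j ≠ 0 → w a = e c + w j)
    (hLT : ∀ c j, L c (b j) - ∑ a, T c a j • b a ∈
      Submodule.span k (b '' {a | w a < e c + w j}))
    (b' : Module.Basis ι k (n → k)) (X : κ → Matrix n n k)
    (hX : ∀ c j, X c *ᵥ b' j = ∑ a, T c a j • b' a)
    (lam : Fin 3 → κ → k) :
    Cl fun i => ∑ c, lam i c • X c := by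
  classical
  let φ : Module.End k V ≃ₐ[k] Matrix ι ι k := LinearMap.toMatrixAlgEquiv b
  -- coordinates
  have hco : ∀ c a j, φ (L c) a j = T c a j + b.repr (L c (b j) - ∑ a, T c a j • b a) a := by
    intro c a j
    have h1 : φ (L c) a j = b.repr (L c (b j)) a := LinearMap.toMatrixAlgEquiv_apply b (L c) a j
    have h2 : b.repr (∑ a, T c a j • b a) a = T c a j := by
      rw [map_sum, Finsupp.finsetSum_apply, Finset.sum_eq_single a]
      · simp
      · intro x _ hx
        simp [hx]
      · intro h; exact absurd (Finset.mem_univ a) h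
    rw [h1, map_sub, Finsupp.sub_apply, h2]
    ring
  have hsm : ∀ c a j, ¬ (w a < e c + w j) →
      b.repr (L c (b j) - ∑ a, T c a j • b a) a = 0 := by
    intro c a j ha
    have h1 := hLT c j
    rw [Module.Basis.mem_span_image] at h1
    by_contra h2
    exact ha (h1 (Finsupp.mem_support_iff.2 h2))
  have hcard : Fintype.card ι = Fintype.card n := by
    have h1 := Module.finrank_eq_card_basis b'
    rw [Module.finrank_fintype_fun_eq_card] at h1
    exact h1.symm
  have h1 := cl_initial (φ N) (by rw [← map_pow, hN, map_zero])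
    (by
      rw [← map_pow]
      intro h
      exact hN' (φ.injective (by rw [h, map_zero])))
    (fun c => φ (L c)) (fun c => by
      obtain ⟨p, hp, hLp⟩ := hL c
      exact ⟨p, hp, by rw [hLp]; exact (Polynomial.aeval_algHom_apply φ.toAlgHom N p).symm⟩)
    e w (by
      intro c a j h
      by_contra h2
      apply h
      show φ (L c) a j = 0
      rw [hco, hsm c a j (by omega), add_zero]
      by_contra h3
      have := hT c a j h3
      omega) lam
  have h2 : (fun i => ∑ c, lam i c • Matrix.of fun a b =>
      if w a = e c + w b then φ (L c) a b else 0) =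
      fun i => ∑ c, lam i c • (Matrix.of fun a b => T c a b : Matrix ι ι k) := by
    funext i
    refine Finset.sum_congr rfl fun c _ => ?_
    congr 1
    ext a j
    simp only [Matrix.of_apply]
    split_ifs with h4
    · rw [hco, hsm c a j (by omega), add_zero]
    · by_contra h5
      exact h4 (hT c a j (Ne.symm h5))
  rw [h2] at h1
  let ψ : Matrix ι ι k ≃ₐ[k] Matrix n n k :=
    (Matrix.toLinAlgEquiv b').trans (LinearMap.toMatrixAlgEquiv (Pi.basisFun k n))
  have h3 := Cl.mapEquiv ψ hcard h1
  have h4 : (fun i => ψ (∑ c, lam i c • (Matrix.of fun a b => T c a b : Matrix ι ι k))) =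
      fun i => ∑ c, lam i c • X c := by
    funext i
    rw [map_sum]
    refine Finset.sum_congr rfl fun c _ => ?_
    rw [map_smul]
    congr 1
    have h5 : Matrix.toLinAlgEquiv b' (Matrix.of fun a b => T c a b : Matrix ι ι k) =
        Matrix.toLin' (X c) := by
      refine b'.ext fun j => ?_
      rw [Matrix.toLinAlgEquiv_self, Matrix.toLin'_apply, hX]
      rfl
    show LinearMap.toMatrixAlgEquiv (Pi.basisFun k n) (Matrix.toLinAlgEquiv b' _) = X c
    rw [h5]
    have h6 : LinearMap.toMatrixAlgEquiv (Pi.basisFun k n) (Matrix.toLin' (X c)) =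
        LinearMap.toMatrix' (Matrix.toLin' (X c)) := rfl
    rw [h6, LinearMap.toMatrix'_toLin']
  rw [h4] at h3
  exact h3

/-- the pairs `(x, y)` such that `x` is a combination of the `b a` of weight `m` up to lower weight,
and `y` the same combination of the `b' a` -/
def Dm {ι V W : Type*} [AddCommGroup V] [Module k V] [AddCommGroup W] [Module k W]
    (b : ι → V) (b' : ι → W) (w : ι → ℕ) (m : ℕ) : Submodule k (V × W) :=
  Submodule.span k ({z | ∃ a, w a = m ∧ z = (b a, b' a)} ∪ {z | ∃ a, w a < m ∧ z = (b a, 0)})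

theorem Dm_eq {ι V W : Type*} [AddCommGroup V] [Module k V] [AddCommGroup W] [Module k W]
    (b : ι → V) (b' : ι → W) {w : ι → ℕ} {m : ℕ} {a : ι} (h : w a = m) :
    ((b a, b' a) : V × W) ∈ Dm (k := k) b b' w m :=
  Submodule.subset_span (Or.inl ⟨a, h, rfl⟩)

theorem Dm_lt {ι V W : Type*} [AddCommGroup V] [Module k V] [AddCommGroup W] [Module k W]
    (b : ι → V) (b' : ι → W) {w : ι → ℕ} {m : ℕ} {a : ι} (h : w a < m) :
    ((b a, 0) : V × W) ∈ Dm (k := k) b b' w m :=
  Submodule.subset_span (Or.inr ⟨a, h, rfl⟩)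

theorem Dm_exists {ι V W : Type*} [Fintype ι] [AddCommGroup V] [Module k V] [AddCommGroup W]
    [Module k W] (b : ι → V) (b' : ι → W) (w : ι → ℕ) (m : ℕ) {z : V × W}
    (hz : z ∈ Dm (k := k) b b' w m) :
    ∃ T : ι → k, (∀ a, T a ≠ 0 → w a = m) ∧
      z.1 - ∑ a, T a • b a ∈ Submodule.span k (b '' {a | w a < m}) ∧ z.2 = ∑ a, T a • b' a := by
  classical
  unfold Dm at hz
  induction hz using Submodule.span_induction with
  | mem z hz =>
    rcases hz with ⟨a, ha, rfl⟩ | ⟨a, ha, rfl⟩
    · refine ⟨Pi.single a 1, ?_, ?_, ?_⟩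
      · intro a' h
        by_cases h1 : a' = a
        · rw [h1]; exact ha
        · rw [Pi.single_eq_of_ne h1] at h; exact absurd rfl h
      · simp [Pi.single_apply]
      · simp [Pi.single_apply]
    · refine ⟨0, ?_, ?_, ?_⟩
      · intro a' h; exact absurd rfl h
      · simp only [Pi.zero_apply, zero_smul, Finset.sum_const_zero, sub_zero]
        exact Submodule.subset_span ⟨a, ha, rfl⟩
      · simp
  | zero =>
    refine ⟨0, ?_, ?_, ?_⟩
    · intro a' h; exact absurd rfl h
    · simp
    · simp
  | add x y _ _ hx hy =>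
    obtain ⟨T₁, h1, h2, h3⟩ := hx
    obtain ⟨T₂, h4, h5, h6⟩ := hy
    refine ⟨T₁ + T₂, ?_, ?_, ?_⟩
    · intro a ha
      by_cases h7 : T₁ a = 0
      · refine h4 a ?_
        intro h8
        exact ha (by rw [Pi.add_apply, h7, h8, add_zero])
      · exact h1 a h7
    · have h7 : (x + y).1 - ∑ a, (T₁ + T₂) a • b a =
          (x.1 - ∑ a, T₁ a • b a) + (y.1 - ∑ a, T₂ a • b a) := by
        simp only [Prod.fst_add, Pi.add_apply, add_smul, Finset.sum_add_distrib]
        abel
      rw [h7]
      exact add_mem h2 h5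
    · simp only [Prod.snd_add, h3, h6, Pi.add_apply, add_smul, Finset.sum_add_distrib]
  | smul r x _ hx =>
    obtain ⟨T₁, h1, h2, h3⟩ := hx
    refine ⟨r • T₁, ?_, ?_, ?_⟩
    · intro a ha
      refine h1 a ?_
      intro h4
      exact ha (by rw [Pi.smul_apply, h4, smul_zero])
    · have h7 : (r • x).1 - ∑ a, (r • T₁) a • b a = r • (x.1 - ∑ a, T₁ a • b a) := by
        simp only [Prod.smul_fst, Pi.smul_apply, smul_assoc, smul_sub, Finset.smul_sum]
      rw [h7]
      exact Submodule.smul_mem _ _ h2
    · simp only [Prod.smul_snd, h3, Pi.smul_apply, smul_assoc, Finset.smul_sum]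

/-- the most convenient form of the degeneration: `b`, `b'` are spanning families (hence bases) -/
theorem cl_deg {n ι κ V : Type*} [Fintype n] [DecidableEq n] [Fintype ι]
    [Fintype κ] [Infinite k] [AddCommGroup V] [Module k V]
    (N : Module.End k V) (hN : N ^ Fintype.card ι = 0)
    (hN' : N ^ (Fintype.card ι - 1) ≠ 0) (hV : Module.finrank k V = Fintype.card ι)
    (b : ι → V) (hb : ⊤ ≤ Submodule.span k (Set.range b))
    (hn : Fintype.card n = Fintype.card ι)
    (b' : ι → n → k) (hb' : ⊤ ≤ Submodule.span k (Set.range b'))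
    (L : κ → Module.End k V)
    (hL : ∀ c, ∃ p : Polynomial k, p.coeff 0 = 0 ∧ L c = Polynomial.aeval N p)
    (e : κ → ℕ) (w : ι → ℕ) (X : κ → Matrix n n k)
    (h : ∀ c j, (L c (b j), X c *ᵥ b' j) ∈ Dm (k := k) b b' w (e c + w j))
    (lam : Fin 3 → κ → k) :
    Cl fun i => ∑ c, lam i c • X c := by
  classical
  let B := basisOfTopLeSpanOfCardEqFinrank b hb hV.symm
  have hB : ∀ j, B j = b j := fun j => by
    simp only [B, coe_basisOfTopLeSpanOfCardEqFinrank]
  let B' := basisOfTopLeSpanOfCardEqFinrank b' hb' (by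
    rw [Module.finrank_fintype_fun_eq_card]; exact hn.symm)
  have hB' : ∀ j, B' j = b' j := fun j => by
    simp only [B', coe_basisOfTopLeSpanOfCardEqFinrank]
  choose T hT1 hT2 hT3 using fun c j => Dm_exists b b' w (e c + w j) (h c j)
  have hBf : (B : ι → V) = b := funext hB
  refine cl_of_arc B N hN hN' L hL e w (fun c a j => T c j a) (fun c a j ha => hT1 c j a ha)
    ?_ B' X ?_ lam
  · intro c j
    have := hT2 c j
    rw [hBf]
    exact this
  · intro c j
    have := hT3 c j
    simp only [hB']
    exact this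

end Pool.Agent.Lib.D8
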