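import Pool.Agent.Lib.D8.TwoA

/-!
# MP_5dcbc3_ag: commuting nilpotent pairs, one matrix having two Jordan blocks
-/

namespace Pool.Agent.Lib.D8

open Matrix Polynomial Pool.Agent.Lib.Q5dc Pool.Agent.Lib.D7

variable {k : Type*} [Field k] {N : ℕ}

/-- a commuting nilpotent triple is curvilinear if some polynomial in its matrices is regular -/
theorem cl_of_pow {T : Fin 3 → Matrix (Fin N) (Fin N) k} (hN : 0 < N) (hT : CN T)
    {M : Matrix (Fin N) (Fin N) k} (hM : M ∈ adj T) (h : M ^ (N - 1) ≠ 0) : Cl T := by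
  obtain ⟨G, hG, hG'⟩ := TSQ.comm_regular (d := N) hN M (hT.nilp hM) h
  choose c hc using fun i => hG' (T i) (hT.comm (mem_adj T i) hM) (hT.2 i)
  exact Cl.of_curv ((TSQ.curv_nf hN T).2 ⟨G, hG, c, hc⟩)

/-- limits along lines -/
theorem cl_of_line [Infinite k] {A B C D E : Matrix (Fin N) (Fin N) k} {F : Set k} (hF : F.Finite)
    (h : ∀ s ∉ F, Cl ![A, B + s • D, C + s • E]) : Cl ![A, B, C] := by
  by_contra h0
  have hl : ∀ s : k, ![A, B, C] + s • ![0, D, E] = ![A, B + s • D, C + s • E] := by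
    intro s
    funext i
    fin_cases i <;> simp
  have h1 := finite_cl (fun s => ![A, B, C] + s • ![0, D, E]) (PolyFam.line _ _) (by
    show ¬ Cl (![A, B, C] + (0 : k) • ![0, D, E])
    rwa [zero_smul, add_zero])
  obtain ⟨s, hs⟩ := (hF.union h1).exists_notMem
  simp only [Set.mem_union, not_or] at hs
  apply hs.2
  show Cl (![A, B, C] + s • ![0, D, E])
  rw [hl]
  exact h s hs.1

/-- generators of the maximal ideal: descending induction -/
theorem desc {M : Type*} [AddCommGroup M] [Module k M] (L : k[X] →ₗ[k] M) (e : ℕ)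
    (hL : ∀ p, L (X ^ e * p) = 0) (S : Submodule k M) (i₀ : ℕ)
    (h : ∀ i, i₀ ≤ i → ∃ p : k[X], p.coeff 0 ≠ 0 ∧ L (X ^ i * p) ∈ S) :
    ∀ i, i₀ ≤ i → ∀ p, L (X ^ i * p) ∈ S := by
  have key : ∀ m i, i₀ ≤ i → e ≤ i + m → ∀ p, L (X ^ i * p) ∈ S := by
    intro m
    induction m with
    | zero =>
      intro i _ he p
      obtain ⟨l, rfl⟩ : ∃ l, i = e + l := ⟨i - e, by omega⟩
      rw [pow_add, mul_assoc, hL]
      exact zero_mem _
    | succ m ih =>
      intro i hi he p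
      obtain ⟨q, hq0, hq⟩ := h i hi
      obtain ⟨σ, hσ⟩ : X ∣ p - C (p.coeff 0 / q.coeff 0) * q := by
        rw [X_dvd_iff, coeff_sub, coeff_C_mul, div_mul_cancel₀ _ hq0, sub_self]
      have h1 : X ^ i * p = (p.coeff 0 / q.coeff 0) • (X ^ i * q) + X ^ (i + 1) * σ := by
        rw [smul_eq_C_mul]
        linear_combination (X ^ i) * hσ
      rw [h1, map_add, map_smul]
      exact add_mem (Submodule.smul_mem _ _ hq) (ih (i + 1) (by omega) (by omega) σ)
  intro i hi p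
  exact key e i hi (by omega) p

/-- quadratic Hensel lemma -/
theorem hensel (g₂ g₁ g₀ : k[X]) (T₀ : k)
    (h0 : g₂.coeff 0 * T₀ ^ 2 + g₁.coeff 0 * T₀ + g₀.coeff 0 = 0)
    (h1 : 2 * g₂.coeff 0 * T₀ + g₁.coeff 0 ≠ 0) (M : ℕ) :
    ∃ ρ : k[X], ρ.coeff 0 = T₀ ∧ X ^ M ∣ g₂ * ρ ^ 2 + g₁ * ρ + g₀ := by
  have key : ∀ M : ℕ, ∃ ρ : k[X], ρ.coeff 0 = T₀ ∧ X ^ (M + 1) ∣ g₂ * ρ ^ 2 + g₁ * ρ + g₀ := by
    intro M
    induction M with
    | zero =>
      refine ⟨C T₀, coeff_C_zero, ?_⟩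
      rw [zero_add, pow_one, X_dvd_iff]
      simp only [coeff_add, mul_coeff_zero, ← C_pow, coeff_C_zero]
      exact h0
    | succ M ih =>
      obtain ⟨ρ, hρ, h, hh⟩ := ih
      refine ⟨ρ + C (-(h.coeff 0) / (2 * g₂.coeff 0 * T₀ + g₁.coeff 0)) * X ^ (M + 1), ?_, ?_⟩
      · rw [coeff_add, mul_coeff_zero, coeff_X_pow]
        simp [hρ]
      · set e := -(h.coeff 0) / (2 * g₂.coeff 0 * T₀ + g₁.coeff 0) with he
        have h2 : g₂ * (ρ + C e * X ^ (M + 1)) ^ 2 + g₁ * (ρ + C e * X ^ (M + 1)) + g₀ =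
            X ^ (M + 1) * (h + C e * (2 * g₂ * ρ + g₁) + g₂ * C e ^ 2 * X ^ (M + 1)) := by
          linear_combination hh
        rw [h2, pow_succ]
        refine mul_dvd_mul_left _ ?_
        rw [X_dvd_iff]
        simp only [coeff_add, mul_coeff_zero, coeff_X_pow, coeff_C_zero, hρ]
        have h3 : ((2 : k[X]).coeff 0 : k) = 2 := by
          have : (2 : k[X]) = C 2 := (map_ofNat C 2).symm
          rw [this, coeff_C_zero]
        rw [h3]
        have h4 : e * (2 * g₂.coeff 0 * T₀ + g₁.coeff 0) = -(h.coeff 0) := div_mul_cancel₀ _ h1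
        simp only [Nat.zero_ne_add_one, if_false, mul_zero, add_zero]
        linear_combination h4
  obtain ⟨ρ, h2, h3⟩ := key M
  exact ⟨ρ, h2, (pow_dvd_pow X (Nat.le_succ M)).trans h3⟩

namespace Two

variable {A : Matrix (Fin N) (Fin N) k} {v u : Fin N → k} {b δ : ℕ}

theorem pos (h : TwoB A v u b δ) : 0 < N := by
  have := h.hb
  have := h.card
  omega

theorem repA : Rep A v u A ((X : k[X]) • (1 : Matrix (Fin 2) (Fin 2) k[X])) := by
  have := Rep.aeval (A := A) (v := v) (u := u) X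
  rwa [aeval_X] at this

theorem Rep.apply_v {B : Matrix (Fin N) (Fin N) k} {P : Matrix (Fin 2) (Fin 2) k[X]}
    (hB : Rep A v u B P) : B *ᵥ v = pi A v u ![P 0 0, P 1 0] := by
  have h1 : pi A v u ![1, 0] = v := by simp [pi]
  have h2 := hB ![1, 0]
  rw [h1] at h2
  rw [h2]
  congr 1
  funext i
  fin_cases i <;> simp [Matrix.mulVec, dotProduct, Fin.sum_univ_two]

theorem comm_A (h : TwoB A v u b δ) {B : Matrix (Fin N) (Fin N) k}
    {P : Matrix (Fin 2) (Fin 2) k[X]} (hB : Rep A v u B P) : A * B = B * A := by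
  refine Rep.eq h (P := (X : k[X]) • P) ?_ ?_
  · have := repA.mul hB
    rwa [smul_mul_assoc, one_mul] at this
  · have := hB.mul repA
    rwa [mul_smul_comm, mul_one] at this

theorem nilp (h : TwoB A v u b δ) {B : Matrix (Fin N) (Fin N) k}
    {P P' : Matrix (Fin 2) (Fin 2) k[X]} (hB : Rep A v u B P) (hP : P * P = (X : k[X]) • P') :
    IsNilpotent B := by
  refine ⟨2 * (b + δ), ?_⟩
  have h1 := hB.pow (2 * (b + δ))
  rw [h1.eq_zero_iff h]
  have h2 : P ^ (2 * (b + δ)) = (X : k[X]) ^ (b + δ) • P' ^ (b + δ) := by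
    rw [pow_mul, pow_two, hP, _root_.smul_pow]
  rw [h2]
  have h3 : ∀ i j, ((X : k[X]) ^ (b + δ) • P' ^ (b + δ)) i j =
      X ^ (b + δ) * (P' ^ (b + δ)) i j := fun i j => rfl
  exact ⟨by rw [h3]; exact dvd_mul_right _ _, by rw [h3]; exact dvd_mul_right _ _,
    by rw [h3]; exact (pow_dvd_pow X (by omega)).trans (dvd_mul_right _ _),
    by rw [h3]; exact (pow_dvd_pow X (by omega)).trans (dvd_mul_right _ _)⟩

theorem nilp_A (h : TwoB A v u b δ) : IsNilpotent A :=
  nilp h repA (P' := (X : k[X]) • 1) (by rw [smul_mul_assoc, one_mul])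

/-- the commuting nilpotent triple -/
theorem cn3 (h : TwoB A v u b δ) {B C : Matrix (Fin N) (Fin N) k}
    (hAB : A * B = B * A) (hAC : A * C = C * A) (hBC : B * C = C * B) (hB : IsNilpotent B)
    (hC : IsNilpotent C) : CN ![A, B, C] := by
  refine ⟨fun i j => ?_, fun i => ?_⟩
  · fin_cases i <;> fin_cases j
    · rfl
    · exact hAB
    · exact hAC
    · exact hAB.symm
    · rfl
    · exact hBC
    · exact hAC.symm
    · exact hBC.symm
    · rfl
  · fin_cases i
    · exact nilp_A h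
    · exact hB
    · exact hC

/-- polynomials without constant term in `A` -/
theorem aeval_mem {n : Type*} [Fintype n] [DecidableEq n] {T : Fin 3 → Matrix n n k}
    {A : Matrix n n k} (hA : A ∈ adj T) (p : k[X]) (hp : X ∣ p) : aeval A p ∈ adj T := by
  obtain ⟨q, rfl⟩ := hp
  rw [mul_comm, map_mul, aeval_X, aeval_eq_sum_range, Finset.sum_mul]
  have key : ∀ i : ℕ, A ^ i * A ∈ adj T := by
    intro i
    induction i with
    | zero => rw [pow_zero, one_mul]; exact hA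
    | succ i ih => rw [pow_succ', mul_assoc]; exact mul_mem hA ih
  refine sum_mem fun i _ => ?_
  rw [smul_mul_assoc]
  exact SMulMemClass.smul_mem _ (key i)

/-- the node -/
theorem node [IsAlgClosed k] {d : ℕ} (h : TwoB A v u b (d + 2)) {B : Matrix (Fin N) (Fin N) k}
    {f c Q : k[X]} (hB : Rep A v u B !![0, X ^ (d + 2) * f; c, X * Q]) (hc : c.coeff 0 ≠ 0)
    (hf : f.coeff 0 ≠ 0) (hQ : Q.coeff 0 ≠ 0)
    (hdisc : d = 0 → (Q.coeff 0) ^ 2 + 4 * (f.coeff 0 * c.coeff 0) ≠ 0) : Cl ![A, B, 0] := by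
  -- the root
  obtain ⟨T₀, hT0, hT1⟩ : ∃ T₀ : k,
      (X ^ d : k[X]).coeff 0 * T₀ ^ 2 + (-Q).coeff 0 * T₀ + (-(f * c)).coeff 0 = 0 ∧
      2 * (X ^ d : k[X]).coeff 0 * T₀ + (-Q).coeff 0 ≠ 0 := by
    simp only [coeff_neg, mul_coeff_zero]
    rcases Nat.eq_zero_or_pos d with rfl | hd
    · have h1 : (X ^ 0 : k[X]).coeff 0 = 1 := by simp
      rw [h1]
      obtain ⟨T₀, hT⟩ := IsAlgClosed.exists_root
        (C 1 * X ^ 2 + C (-(Q.coeff 0)) * X + C (-(f.coeff 0 * c.coeff 0)) : k[X]) (by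
          rw [degree_quadratic (one_ne_zero)]
          norm_num)
      have hT' : T₀ ^ 2 - Q.coeff 0 * T₀ - f.coeff 0 * c.coeff 0 = 0 := by
        have := hT
        simp only [IsRoot.def, eval_add, eval_mul, eval_C, eval_pow, eval_X] at this
        linear_combination this
      refine ⟨T₀, by linear_combination hT', ?_⟩
      intro h2
      apply hdisc rfl
      linear_combination (2 * T₀ - Q.coeff 0) * h2 - 4 * hT'
    · have h1 : (X ^ d : k[X]).coeff 0 = 0 := by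
        rw [coeff_X_pow, if_neg (by omega)]
      rw [h1]
      refine ⟨-(f.coeff 0 * c.coeff 0) / Q.coeff 0, ?_, ?_⟩
      · field_simp
        ring
      · rw [mul_zero, zero_mul, zero_add]
        exact neg_ne_zero.2 hQ
  obtain ⟨ρ₂, hρ2, e, he⟩ := hensel (X ^ d) (-Q) (-(f * c)) T₀ hT0 hT1 b
  have hfc : f.coeff 0 * c.coeff 0 ≠ 0 := mul_ne_zero hf hc
  obtain ⟨ρ₁, hρ1⟩ : ∃ r : k[X], r = Q - X ^ d * ρ₂ := ⟨_, rfl⟩
  obtain ⟨ρ, hρ⟩ : ∃ r : k[X], r = ρ₁ - X ^ d * ρ₂ := ⟨_, rfl⟩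
  have hprod : ρ₁ * ρ₂ + f * c = -(X ^ b * e) := by
    rw [hρ1]; linear_combination -he
  have hb1 := h.hb
  have h12 : ρ₁.coeff 0 * ρ₂.coeff 0 = -(f.coeff 0 * c.coeff 0) := by
    have h1 := congrArg (fun p => p.coeff 0) hprod
    simp only [coeff_add, coeff_neg, mul_coeff_zero, coeff_X_pow] at h1
    rw [if_neg (by omega), zero_mul, neg_zero] at h1
    linear_combination h1
  have hρ10 : ρ₁.coeff 0 ≠ 0 := by
    intro h1
    rw [h1, zero_mul] at h12
    exact hfc (by linear_combination h12)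
  have hρ20 : ρ₂.coeff 0 ≠ 0 := by
    intro h1
    rw [h1, mul_zero] at h12
    exact hfc (by linear_combination h12)
  have hρ0 : ρ.coeff 0 ≠ 0 := by
    intro h1
    apply hT1
    rw [hρ, hρ1] at h1
    simp only [coeff_sub, mul_coeff_zero, hρ2, coeff_neg] at h1 ⊢
    linear_combination -h1
  -- the two matrices
  set P : Matrix (Fin 2) (Fin 2) k[X] := !![0, X ^ (d + 2) * f; c, X * Q] with hP
  obtain ⟨r₁, hr1⟩ : ∃ r : k[X], r = X * ρ₁ := ⟨_, rfl⟩
  obtain ⟨r₂, hr2⟩ : ∃ r : k[X], r = X ^ (d + 1) * ρ₂ := ⟨_, rfl⟩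
  have hsum : r₁ + r₂ = X * Q := by rw [hr1, hr2, hρ1]; ring
  have hdiff : r₁ - r₂ = X * ρ := by rw [hr1, hr2, hρ]; ring
  have hrr : r₁ * r₂ + X ^ (d + 2) * f * c = -(X ^ (b + (d + 2)) * e) := by
    rw [hr1, hr2]
    linear_combination (X ^ (d + 2)) * hprod
  set Xh : Matrix (Fin N) (Fin N) k := B - aeval A r₂ with hXh
  set Yh : Matrix (Fin N) (Fin N) k := B - aeval A r₁ with hYh
  have hX : Rep A v u Xh (P - r₂ • 1) := hB.sub (Rep.aeval r₂)
  have hY : Rep A v u Yh (P - r₁ • 1) := hB.sub (Rep.aeval r₁)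
  have hker : Ker b (d + 2) ((P - r₂ • 1) * (P - r₁ • 1)) := by
    refine ⟨?_, ?_, ?_, ?_⟩
    · have : ((P - r₂ • 1) * (P - r₁ • 1)) 0 0 = r₁ * r₂ + X ^ (d + 2) * f * c := by
        simp [hP, Matrix.mul_apply, Fin.sum_univ_two]; ring
      rw [this, hrr]
      exact (Dvd.intro _ rfl : _ ∣ _).neg_right
    · have : ((P - r₂ • 1) * (P - r₁ • 1)) 0 1 = X ^ (d + 2) * f * (X * Q - r₁ - r₂) := by
        simp [hP, Matrix.mul_apply, Fin.sum_univ_two]; ring
      rw [this, ← hsum]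
      simp
    · have : ((P - r₂ • 1) * (P - r₁ • 1)) 1 0 = c * (X * Q - r₁ - r₂) := by
        simp [hP, Matrix.mul_apply, Fin.sum_univ_two]; ring
      rw [this, ← hsum]
      simp
    · have : ((P - r₂ • 1) * (P - r₁ • 1)) 1 1 = c * (X ^ (d + 2) * f) +
          (X * Q - r₂) * (X * Q - r₁) := by
        simp [hP, Matrix.mul_apply, Fin.sum_univ_two]
      rw [this, ← hsum]
      have h2 : c * (X ^ (d + 2) * f) + (r₁ + r₂ - r₂) * (r₁ + r₂ - r₁) =
          r₁ * r₂ + X ^ (d + 2) * f * c := by ring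
      rw [h2, hrr]
      exact ((pow_dvd_pow X (by omega)).trans (Dvd.intro _ rfl : _ ∣ X ^ (b + (d + 2)) * e)).neg_right
  have hcomm' : (P - r₂ • 1) * (P - r₁ • 1) = (P - r₁ • 1) * (P - r₂ • 1) := by
    rw [sub_mul, sub_mul, mul_sub, mul_sub, mul_sub, mul_sub]
    simp only [smul_mul_assoc, mul_smul_comm, one_mul, mul_one]
    rw [smul_comm r₂ r₁]
    abel
  have hXY : Xh * Yh = 0 := (hX.mul hY).eq_zero_iff h |>.2 hker
  have hYX : Yh * Xh = 0 := (hY.mul hX).eq_zero_iff h |>.2 (by rw [← hcomm']; exact hker)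
  have gen : ∀ (U V : Matrix (Fin 2) (Fin 2) k[X]) (s : k[X]), V = U - s • 1 →
      U * U - s • U = U * V := by
    rintro U _ s rfl
    rw [mul_sub, mul_smul_comm, mul_one]
  have hXX : Xh * Xh = aeval A (X * ρ) * Xh := by
    refine ((hX.mul hX).eq_iff h (hX.polysmul (X * ρ))).2 ?_
    have : (P - r₂ • 1) * (P - r₂ • 1) - (X * ρ) • (P - r₂ • 1) =
        (P - r₂ • 1) * (P - r₁ • 1) := by
      rw [← hdiff]
      refine gen _ _ _ ?_
      rw [sub_smul]; abel
    rw [this]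
    exact hker
  have hYY : Yh * Yh = aeval A (-(X * ρ)) * Yh := by
    refine ((hY.mul hY).eq_iff h (hY.polysmul (-(X * ρ)))).2 ?_
    have : (P - r₁ • 1) * (P - r₁ • 1) - (-(X * ρ)) • (P - r₁ • 1) =
        (P - r₁ • 1) * (P - r₂ • 1) := by
      rw [← hdiff]
      refine gen _ _ _ ?_
      rw [neg_smul, sub_smul]; abel
    rw [this, ← hcomm']
    exact hker
  have hXpow : ∀ i : ℕ, Xh ^ (i + 1) = aeval A ((X * ρ) ^ i) * Xh := by
    intro i
    induction i with
    | zero => rw [pow_zero, map_one, one_mul, zero_add, pow_one]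
    | succ i ih => rw [pow_succ, ih, mul_assoc, hXX, ← mul_assoc, ← map_mul, ← pow_succ]
  have hYpow : ∀ i : ℕ, Yh ^ (i + 1) = aeval A ((-(X * ρ)) ^ i) * Yh := by
    intro i
    induction i with
    | zero => rw [pow_zero, map_one, one_mul, zero_add, pow_one]
    | succ i ih => rw [pow_succ, ih, mul_assoc, hYY, ← mul_assoc, ← map_mul, ← pow_succ]
  have hXv : ∀ i : ℕ, Xh ^ (i + 1) *ᵥ v = pi A v u ![-((X * ρ) ^ i * r₂), (X * ρ) ^ i * c] := by
    intro i
    rw [hXpow]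
    have h1 := (hX.polysmul ((X * ρ) ^ i)).apply_v
    rw [h1]
    congr 1
    funext j
    fin_cases j
    · simp [hP]
    · simp [hP]
  have hYv : ∀ i : ℕ, Yh ^ (i + 1) *ᵥ v =
      pi A v u ![-((-(X * ρ)) ^ i * r₁), (-(X * ρ)) ^ i * c] := by
    intro i
    rw [hYpow]
    have h1 := (hY.polysmul ((-(X * ρ)) ^ i)).apply_v
    rw [h1]
    congr 1
    funext j
    fin_cases j
    · simp [hP]
    · simp [hP]
  -- the top elements
  have htopl : ∀ (z : Fin 2 → k[X]) (g : k[X]), X ^ (b + (d + 2)) ∣ z 0 - X ^ (b + d + 1) * g →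
      X ^ b ∣ z 1 → pi A v u z = g.coeff 0 • pi A v u ![X ^ (b + d + 1), 0] := by
    intro z g h0 h1
    rw [← pi_csmul, ← sub_eq_zero, ← pi_sub, pi_eq_zero h]
    constructor
    · have h2 : X ^ (b + (d + 2)) ∣ X ^ (b + d + 1) * (g - C (g.coeff 0)) := by
        have h3 : b + (d + 2) = b + d + 1 + 1 := by omega
        rw [h3, pow_succ X (b + d + 1)]
        refine mul_dvd_mul_left _ ?_
        rw [X_dvd_iff, coeff_sub, coeff_C_zero, sub_self]
      have h4 := dvd_add h0 h2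
      have h5 : z 0 - X ^ (b + d + 1) * g + X ^ (b + d + 1) * (g - C (g.coeff 0)) =
          (z - g.coeff 0 • (![X ^ (b + d + 1), 0] : Fin 2 → k[X])) 0 := by
        show _ = z 0 - g.coeff 0 • X ^ (b + d + 1)
        rw [smul_eq_C_mul]
        ring
      rwa [h5] at h4
    · have h5 : (z - g.coeff 0 • (![X ^ (b + d + 1), 0] : Fin 2 → k[X])) 1 = z 1 := by
        show z 1 - g.coeff 0 • (0 : k[X]) = _
        rw [smul_zero, sub_zero]
      rw [h5]
      exact h1
  have hXtop : Xh ^ (b + 1) *ᵥ v = (-(ρ ^ b * ρ₂)).coeff 0 • pi A v u ![X ^ (b + d + 1), 0] := by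
    rw [hXv]
    refine htopl _ _ ?_ ?_
    · show X ^ (b + (d + 2)) ∣ -((X * ρ) ^ b * r₂) - X ^ (b + d + 1) * -(ρ ^ b * ρ₂)
      have : -((X * ρ) ^ b * r₂) - X ^ (b + d + 1) * -(ρ ^ b * ρ₂) = 0 := by
        rw [hr2]; ring
      rw [this]
      exact dvd_zero _
    · show X ^ b ∣ (X * ρ) ^ b * c
      rw [mul_pow, mul_assoc]
      exact dvd_mul_right _ _
  have hYtop : Yh ^ (b + d + 1) *ᵥ v =
      (-((-ρ) ^ (b + d) * ρ₁)).coeff 0 • pi A v u ![X ^ (b + d + 1), 0] := by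
    rw [hYv]
    refine htopl _ _ ?_ ?_
    · show X ^ (b + (d + 2)) ∣ -((-(X * ρ)) ^ (b + d) * r₁) - X ^ (b + d + 1) *
        -((-ρ) ^ (b + d) * ρ₁)
      have : -((-(X * ρ)) ^ (b + d) * r₁) - X ^ (b + d + 1) * -((-ρ) ^ (b + d) * ρ₁) = 0 := by
        rw [hr1]
        have h1 : -(X * ρ) = X * (-ρ) := by ring
        rw [h1, mul_pow]
        ring
      rw [this]
      exact dvd_zero _
    · show X ^ b ∣ (-(X * ρ)) ^ (b + d) * c
      have h1 : -(X * ρ) = X * (-ρ) := by ring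
      rw [h1, mul_pow, mul_assoc, pow_add, mul_assoc]
      exact dvd_mul_right _ _
  have hκ1 : (-((-ρ) ^ (b + d) * ρ₁)).coeff 0 ≠ 0 := by
    rw [coeff_neg, mul_coeff_zero, coeff_zero_eq_eval_zero ((-ρ) ^ (b + d)), eval_pow, eval_neg,
      ← coeff_zero_eq_eval_zero]
    exact neg_ne_zero.2 (mul_ne_zero (pow_ne_zero _ (neg_ne_zero.2 hρ0)) hρ10)
  have hκ2 : (-(ρ ^ b * ρ₂)).coeff 0 ≠ 0 := by
    rw [coeff_neg, mul_coeff_zero, coeff_zero_eq_eval_zero (ρ ^ b), eval_pow,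
      ← coeff_zero_eq_eval_zero]
    exact neg_ne_zero.2 (mul_ne_zero (pow_ne_zero _ hρ0) hρ20)
  -- the span
  set S : Submodule k (Fin N → k) := Submodule.span k ({v} ∪ {x | ∃ i, x = Yh ^ (i + 1) *ᵥ v} ∪
      {x | ∃ i, x = Xh ^ (i + 1) *ᵥ v}) with hS
  have hSv : v ∈ S := Submodule.subset_span (Or.inl (Or.inl rfl))
  have hSY : ∀ i, Yh ^ (i + 1) *ᵥ v ∈ S := fun i => Submodule.subset_span (Or.inl (Or.inr ⟨i, rfl⟩))
  have hSX : ∀ i, Xh ^ (i + 1) *ᵥ v ∈ S := fun i => Submodule.subset_span (Or.inr ⟨i, rfl⟩)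
  let L : (Fin N → k) → k[X] →ₗ[k] (Fin N → k) := fun w =>
    { toFun := fun p => aeval A p *ᵥ w
      map_add' := fun p q => by rw [map_add, Matrix.add_mulVec]
      map_smul' := fun r p => by rw [map_smul, Matrix.smul_mulVec]; rfl }
  have hLap : ∀ w p, L w p = aeval A p *ᵥ w := fun w p => rfl
  have hSv' : ∀ p : k[X], aeval A p *ᵥ v ∈ S := by
    have h1 := desc (L v) (b + (d + 2)) (fun p => by
      rw [hLap]; exact act_of_dvd h.hv (dvd_mul_right _ _)) S 0 (by
      intro i _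
      refine ⟨ρ ^ i, ?_, ?_⟩
      · rw [coeff_zero_eq_eval_zero, eval_pow, ← coeff_zero_eq_eval_zero]
        exact pow_ne_zero _ hρ0
      · rw [hLap]
        rcases Nat.eq_zero_or_pos i with rfl | hi
        · rw [pow_zero, pow_zero, mul_one, map_one, Matrix.one_mulVec]
          exact hSv
        · obtain ⟨j, rfl⟩ : ∃ j, i = j + 1 := ⟨i - 1, by omega⟩
          have h2 : aeval A (X ^ (j + 1) * ρ ^ (j + 1)) *ᵥ v =
              Xh ^ (j + 1) *ᵥ v - ((-1 : k) ^ j) • (Yh ^ (j + 1) *ᵥ v) := by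
            rw [hXv, hYv, ← pi_csmul, ← pi_sub]
            have h3 : aeval A (X ^ (j + 1) * ρ ^ (j + 1)) *ᵥ v =
                pi A v u ![X ^ (j + 1) * ρ ^ (j + 1), 0] := by
              simp [pi]
            rw [h3]
            congr 1
            have h4 : ((-1 : k) ^ j) • ((-(X * ρ)) ^ j : k[X]) = (X * ρ) ^ j := by
              rw [smul_eq_C_mul, map_pow, map_neg, map_one, ← mul_pow]
              ring
            funext l
            fin_cases l
            · show X ^ (j + 1) * ρ ^ (j + 1) = -((X * ρ) ^ j * r₂) -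
                ((-1 : k) ^ j) • -((-(X * ρ)) ^ j * r₁)
              rw [smul_neg, ← smul_mul_assoc, h4]
              linear_combination -(X * ρ) ^ j * hdiff
            · show (0 : k[X]) = (X * ρ) ^ j * c - ((-1 : k) ^ j) • ((-(X * ρ)) ^ j * c)
              rw [← smul_mul_assoc, h4, sub_self]
          rw [h2]
          exact sub_mem (hSX j) (Submodule.smul_mem _ _ (hSY j)))
    intro p
    have := h1 0 le_rfl p
    rwa [pow_zero, one_mul, hLap] at this
  have hSu' : ∀ p : k[X], aeval A p *ᵥ u ∈ S := by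
    have h1 := desc (L u) b (fun p => by
      rw [hLap]; exact act_of_dvd h.hu (dvd_mul_right _ _)) S 0 (by
      intro i _
      refine ⟨ρ ^ i * c, ?_, ?_⟩
      · rw [mul_coeff_zero, coeff_zero_eq_eval_zero (ρ ^ i), eval_pow, ← coeff_zero_eq_eval_zero]
        exact mul_ne_zero (pow_ne_zero _ hρ0) hc
      · rw [hLap]
        have h2 : aeval A (X ^ i * (ρ ^ i * c)) *ᵥ u =
            Xh ^ (i + 1) *ᵥ v + aeval A ((X * ρ) ^ i * r₂) *ᵥ v := by
          rw [hXv]
          show _ = aeval A (-((X * ρ) ^ i * r₂)) *ᵥ v + aeval A ((X * ρ) ^ i * c) *ᵥ u + _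
          rw [map_neg, Matrix.neg_mulVec]
          have h3 : X ^ i * (ρ ^ i * c) = (X * ρ) ^ i * c := by ring
          rw [h3]
          abel
        rw [h2]
        exact add_mem (hSX i) (hSv' _))
    intro p
    have := h1 0 le_rfl p
    rwa [pow_zero, one_mul, hLap] at this
  have hcl := cl_node Yh Xh v (p := b + d + 1) (q := b + 1) (by omega) (by omega)
    (by rw [Fintype.card_fin, h.card]; omega) hYX hXY
    (c := (-((-ρ) ^ (b + d) * ρ₁)).coeff 0 / (-(ρ ^ b * ρ₂)).coeff 0) (div_ne_zero hκ1 hκ2)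
    (by rw [hXtop, hYtop, smul_smul, div_mul_cancel₀ _ hκ2]) (by
      intro w _
      obtain ⟨z, rfl⟩ := h.span w
      exact add_mem (hSv' _) (hSu' _))
    ![![1, 0], ![0, 1], ![0, 0]]
  set T : Fin 3 → Matrix (Fin N) (Fin N) k := fun i =>
    (![![1, 0], ![0, 1], ![0, 0]] : Fin 3 → Fin 2 → k) i 0 • Yh +
      (![![1, 0], ![0, 1], ![0, 0]] : Fin 3 → Fin 2 → k) i 1 • Xh with hT
  have hTY : Yh ∈ adj T := by
    have h1 := mem_adj T 0
    have h2 : T 0 = Yh := by simp [hT]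
    rwa [h2] at h1
  have hTX : Xh ∈ adj T := by
    have h1 := mem_adj T 1
    have h2 : T 1 = Xh := by simp [hT]
    rwa [h2] at h1
  have hD : aeval A (X * ρ) ∈ adj T := by
    have h1 : aeval A (X * ρ) = Xh - Yh := by
      rw [hXh, hYh, ← hdiff, map_sub]
      abel
    rw [h1]
    exact sub_mem hTX hTY
  have hAall : ∀ p : k[X], aeval A (X ^ 1 * p) ∈ adj T := by
    have hA0 : ∀ p : k[X], (aeval A (X ^ (b + (d + 2)) * p) : Matrix (Fin N) (Fin N) k) = 0 := by
      intro p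
      refine (Rep.aeval (A := A) (v := v) (u := u) _).eq_zero_iff h |>.2 ?_
      refine ⟨?_, ?_, ?_, ?_⟩
      · simp
      · simp
      · simp
      · have h1 : ((X ^ (b + (d + 2)) * p) • (1 : Matrix (Fin 2) (Fin 2) k[X])) 1 1 =
            X ^ (b + (d + 2)) * p := by simp
        rw [h1]
        exact (pow_dvd_pow X (by omega)).trans (dvd_mul_right _ _)
    have h1 := desc ((aeval A : k[X] →ₐ[k] Matrix (Fin N) (Fin N) k).toLinearMap) (b + (d + 2)) hA0
      (adj T).toSubmodule 1 (by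
      intro i hi
      refine ⟨ρ ^ i, ?_, ?_⟩
      · rw [coeff_zero_eq_eval_zero, eval_pow, ← coeff_zero_eq_eval_zero]
        exact pow_ne_zero _ hρ0
      · show aeval A (X ^ i * ρ ^ i) ∈ adj T
        rw [← mul_pow, map_pow]
        obtain ⟨j, rfl⟩ : ∃ j, i = j + 1 := ⟨i - 1, by omega⟩
        clear hi
        induction j with
        | zero => rw [zero_add, pow_one]; exact hD
        | succ j ih => rw [pow_succ]; exact mul_mem ih hD)
    exact h1 1 le_rfl
  have hAT : A ∈ adj T := by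
    have := hAall 1
    rwa [mul_one, pow_one, aeval_X] at this
  refine cl_of_adj (T' := T) (fun i => ?_) hcl
  fin_cases i
  · exact hAT
  · show B ∈ adj T
    have h1 : B = Xh + aeval A r₂ := by rw [hXh]; abel
    rw [h1]
    refine add_mem hTX (aeval_mem hAT _ ?_)
    rw [hr2, pow_succ']
    exact (dvd_mul_right X _).mul_right _
  · exact zero_mem _

end Two

end Pool.Agent.Lib.D8
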