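import Pool.Agent.Lib.D8.TwoC

/-!
# MP_5dcbc3_ag: commuting nilpotent triples, one matrix having two Jordan blocks: choice of the
generators
-/

namespace Pool.Agent.Lib.D8

open Matrix Polynomial Pool.Agent.Lib.Q5dc Pool.Agent.Lib.D7

variable {k : Type*} [Field k] {N : ℕ}

namespace Two

variable {A : Matrix (Fin N) (Fin N) k} {v u : Fin N → k} {b δ : ℕ}

/-- value at 0 -/
noncomputable def ev (k : Type*) [Field k] :
    Matrix (Fin 2) (Fin 2) k[X] →+* Matrix (Fin 2) (Fin 2) k :=
  RingHom.mapMatrix (evalRingHom 0)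

theorem ev_apply (P : Matrix (Fin 2) (Fin 2) k[X]) (i j : Fin 2) :
    ev k P i j = (P i j).coeff 0 := by
  rw [coeff_zero_eq_eval_zero]
  rfl

theorem ev_zero_iff (P : Matrix (Fin 2) (Fin 2) k[X]) (i j : Fin 2) :
    ev k P i j = 0 ↔ X ∣ P i j := by
  rw [ev_apply, X_dvd_iff]

theorem ev_of_ker (hb : 1 ≤ b) {P : Matrix (Fin 2) (Fin 2) k[X]} (h : Ker b δ P) : ev k P = 0 := by
  obtain ⟨h1, h2, h3, h4⟩ := h
  have hX : ∀ e p, 1 ≤ e → (X : k[X]) ^ e ∣ p → X ∣ p := fun e p he hp =>
    (dvd_pow_self X (by omega)).trans hp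
  refine Matrix.ext fun i j => ?_
  show ev k P i j = 0
  rw [ev_zero_iff]
  fin_cases i <;> fin_cases j
  · exact hX _ _ (by omega) h1
  · exact hX _ _ (by omega) h2
  · exact hX _ _ hb h3
  · exact hX _ _ hb h4

theorem ev_sq (h : TwoB A v u b δ) {B : Matrix (Fin N) (Fin N) k}
    {P : Matrix (Fin 2) (Fin 2) k[X]} (hB : Rep A v u B P) (hn : IsNilpotent B) :
    ev k P * ev k P = 0 := by
  obtain ⟨e, he⟩ := hn
  have h1 := ((hB.pow e).eq_zero_iff h).1 he
  have h2 := ev_of_ker h.hb h1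
  rw [map_pow] at h2
  have h3 := pow_card_eq_zero (M := ev k P) ⟨e, h2⟩
  rw [Fintype.card_fin, pow_two] at h3
  exact h3

theorem ev_comm (h : TwoB A v u b δ) {B C : Matrix (Fin N) (Fin N) k}
    {P Q : Matrix (Fin 2) (Fin 2) k[X]} (hB : Rep A v u B P) (hC : Rep A v u C Q)
    (hBC : B * C = C * B) : ev k P * ev k Q = ev k Q * ev k P := by
  have h1 := ((hB.mul hC).eq_iff h (hC.mul hB)).1 hBC
  have h2 := ev_of_ker h.hb h1
  rw [map_sub, map_mul, map_mul, sub_eq_zero] at h2
  exact h2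

/-- a nilpotent 2 x 2 matrix with zero upper right entry is strictly lower triangular -/
theorem lt_of_sq {M : Matrix (Fin 2) (Fin 2) k} (h : M * M = 0) (h01 : M 0 1 = 0) :
    M 0 0 = 0 ∧ M 1 1 = 0 := by
  have h1 := congrFun (congrFun h 0) 0
  have h2 := congrFun (congrFun h 1) 1
  rw [Matrix.mul_apply, Fin.sum_univ_two, h01] at h1 h2
  simp at h1 h2
  exact ⟨h1, h2⟩

/-- simultaneous triangularisation of two commuting nilpotent 2 x 2 matrices -/
theorem exists_g {M M' : Matrix (Fin 2) (Fin 2) k} (h : M * M = 0) (h' : M' * M' = 0)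
    (hc : M * M' = M' * M) :
    ∃ g gi : Matrix (Fin 2) (Fin 2) k, g * gi = 1 ∧ gi * g = 1 ∧
      (gi * M * g) 0 1 = 0 ∧ (gi * M' * g) 0 1 = 0 := by
  -- it is enough to do it for `M 0 1 ≠ 0`
  have key : ∀ M M' : Matrix (Fin 2) (Fin 2) k, M * M = 0 → M' * M' = 0 → M * M' = M' * M →
      M 0 1 ≠ 0 → ∃ g gi : Matrix (Fin 2) (Fin 2) k, g * gi = 1 ∧ gi * g = 1 ∧
      (gi * M * g) 0 1 = 0 ∧ (gi * M' * g) 0 1 = 0 := by
    intro M M' h h' hc hne
    have e1 := congrFun (congrFun h 0) 0
    have e2 := congrFun (congrFun h 0) 1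
    have e3 := congrFun (congrFun h' 0) 0
    have e4 := congrFun (congrFun hc 0) 0
    have e5 := congrFun (congrFun hc 0) 1
    have e6 := congrFun (congrFun h' 0) 1
    have e7 := congrFun (congrFun h' 1) 1
    rw [Matrix.mul_apply, Fin.sum_univ_two] at e1 e2 e3 e6 e7
    rw [Matrix.mul_apply, Matrix.mul_apply, Fin.sum_univ_two, Fin.sum_univ_two] at e4 e5
    have z00 : (0 : Matrix (Fin 2) (Fin 2) k) 0 0 = 0 := rfl
    have z01 : (0 : Matrix (Fin 2) (Fin 2) k) 0 1 = 0 := rfl
    have z11 : (0 : Matrix (Fin 2) (Fin 2) k) 1 1 = 0 := rfl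
    rw [z00] at e1 e3
    rw [z01] at e2 e6
    rw [z11] at e7
    set x := M 0 0
    set y := M 0 1
    set z := M 1 0
    set w := M 1 1
    set x' := M' 0 0
    set y' := M' 0 1
    set z' := M' 1 0
    set w' := M' 1 1
    have hw : w = -x := by
      have : y * (x + w) = 0 := by linear_combination e2
      rcases mul_eq_zero.1 this with h1 | h1
      · exact absurd h1 hne
      · linear_combination h1
    have hw' : w' = -x' := by
      have h1 : (x' + w') * y' = 0 := by linear_combination e6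
      rcases mul_eq_zero.1 h1 with h2 | h2
      · linear_combination h2
      · rw [h2] at e3 e7 e5
        have h3 : x' = 0 := by
          have : x' * x' = 0 := by linear_combination e3
          simpa using this
        have h4 : w' = 0 := by
          have : w' * w' = 0 := by linear_combination e7
          simpa using this
        rw [h3, h4, neg_zero]
    have ht : x' + y' * (-x / y) = 0 := by
      field_simp
      rw [hw, hw'] at e5
      have h2 : (2 : k) * (x * y' - x' * y) = 0 := by linear_combination e5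
      by_cases h2' : (2 : k) = 0
      · -- characteristic two
        have h3 : (x' * y - x * y') ^ 2 = 0 := by
          have e1' : x * x = -(y * z) := by linear_combination e1
          have e3' : x' * x' = -(y' * z') := by linear_combination e3
          have e4' : y * z' = y' * z := by linear_combination e4
          linear_combination y ^ 2 * e3' + y' ^ 2 * e1' - (y * y') * e4' -
            (x * x' * y * y') * h2' - (y * y' * (y' * z)) * h2'
        have h4 := pow_eq_zero_iff (two_ne_zero) |>.1 h3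
        linear_combination h4
      · have h3 := (mul_eq_zero.1 h2).resolve_left h2'
        linear_combination -h3
    refine ⟨!![0, 1; 1, -x / y], !![x / y, 1; 1, 0], ?_, ?_, ?_, ?_⟩
    · ext i j
      fin_cases i <;> fin_cases j <;> simp [Matrix.mul_apply, Fin.sum_univ_two]
      ring
    · ext i j
      fin_cases i <;> fin_cases j <;> simp [Matrix.mul_apply, Fin.sum_univ_two]
      ring
    · have : (!![x / y, 1; 1, 0] * M * !![0, 1; 1, -x / y]) 0 1 =
          (x / y * x + z) + (x / y * y + w) * (-x / y) := by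
        simp [Matrix.mul_apply, Fin.sum_univ_two, Matrix.vecMul, dotProduct, x, y, z, w]
      rw [this, hw]
      field_simp
      linear_combination e1
    · have h1 : (!![x / y, 1; 1, 0] * M' * !![0, 1; 1, -x / y]) 0 1 =
          (x / y * x' + z') + (x / y * y' + w') * (-x / y) := by
        simp [Matrix.mul_apply, Fin.sum_univ_two, Matrix.vecMul, dotProduct, x', y', z', w']
      rw [h1, hw']
      have h2 : z' + (-x') * (-x / y) = 0 := by
        -- `M' (1, t) = 0`
        by_cases hy' : y' = 0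
        · rw [hy', zero_mul, add_zero] at ht
          rw [ht]
          rw [hy'] at e4
          have : z' * y = 0 := by linear_combination e4
          rcases mul_eq_zero.1 this with h3 | h3
          · rw [h3]; ring
          · exact absurd h3 hne
        · have h3 : y' * (z' + (-x') * (-x / y)) = 0 := by
            linear_combination e3 - x' * ht
          exact (mul_eq_zero.1 h3).resolve_left hy'
      linear_combination h2 + (x / y) * ht
  by_cases hM : M 0 1 = 0
  · by_cases hM' : M' 0 1 = 0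
    · refine ⟨1, 1, one_mul 1, one_mul 1, ?_, ?_⟩
      · rw [one_mul, mul_one]; exact hM
      · rw [one_mul, mul_one]; exact hM'
    · obtain ⟨g, gi, h1, h2, h3, h4⟩ := key M' M h' h hc.symm hM'
      exact ⟨g, gi, h1, h2, h4, h3⟩
  · exact key M M' h h' hc hM

/-- constant 2 x 2 matrices -/
noncomputable def cm (g : Matrix (Fin 2) (Fin 2) k) : Matrix (Fin 2) (Fin 2) k[X] := g.map C

theorem cm_mul (g h : Matrix (Fin 2) (Fin 2) k) : cm (g * h) = cm g * cm h :=
  Matrix.map_mul

theorem cm_one : cm (1 : Matrix (Fin 2) (Fin 2) k) = 1 :=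
  Matrix.map_one _ C.map_zero C.map_one

theorem ev_cm (g : Matrix (Fin 2) (Fin 2) k) : ev k (cm g) = g := by
  refine Matrix.ext fun i j => ?_
  rw [ev_apply]
  show (C (g i j)).coeff 0 = _
  rw [coeff_C_zero]

/-- good generators -/
theorem exists_gen (h : TwoB A v u b δ) {B C : Matrix (Fin N) (Fin N) k}
    (hAB : A * B = B * A) (hAC : A * C = C * A) (hBC : B * C = C * B) (hB : IsNilpotent B)
    (hC : IsNilpotent C) :
    ∃ v' u' P Q, TwoB A v' u' b δ ∧ Rep A v' u' B P ∧ Rep A v' u' C Q ∧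
      X ^ δ ∣ P 0 1 ∧ X ^ δ ∣ Q 0 1 ∧
      X ∣ P 0 0 ∧ X ∣ P 0 1 ∧ X ∣ P 1 1 ∧ X ∣ Q 0 0 ∧ X ∣ Q 0 1 ∧ X ∣ Q 1 1 := by
  obtain ⟨P, hP, hPd⟩ := rep_of_comm h hAB
  obtain ⟨Q, hQ, hQd⟩ := rep_of_comm h hAC
  have h1 := ev_sq h hP hB
  have h2 := ev_sq h hQ hC
  have h3 := ev_comm h hP hQ hBC
  rcases Nat.eq_zero_or_pos δ with rfl | hδ
  · obtain ⟨g, gi, hg1, hg2, hg3, hg4⟩ := exists_g h1 h2 h3
    have hc1 : cm g * cm gi = 1 := by rw [← cm_mul, hg1, cm_one]
    have hc2 : cm gi * cm g = 1 := by rw [← cm_mul, hg2, cm_one]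
    have hpi : ∀ z, pi A (pi A v u (cm g *ᵥ ![1, 0])) (pi A v u (cm g *ᵥ ![0, 1])) z =
        pi A v u (cm g *ᵥ z) := by
      intro z
      have e : z = z 0 • ![1, 0] + z 1 • ![0, 1] := by
        funext i
        fin_cases i <;> simp
      conv_rhs => rw [e]
      rw [Matrix.mulVec_add, Matrix.mulVec_smul, Matrix.mulVec_smul, pi_add, pi_smul, pi_smul]
      rfl
    have hT : TwoB A (pi A v u (cm g *ᵥ ![1, 0])) (pi A v u (cm g *ᵥ ![0, 1])) b 0 := by
      have hz : ∀ z, A ^ b *ᵥ pi A v u z = 0 := by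
        intro z
        have h4 : A ^ b *ᵥ pi A v u z = pi A v u ((X : k[X]) ^ b • z) := by
          rw [pi_smul, map_pow, aeval_X]
        rw [h4, pi_eq_zero h]
        exact ⟨dvd_mul_right _ _, dvd_mul_right _ _⟩
      refine ⟨h.hb, h.card, hz _, hz _, ?_⟩
      intro w
      obtain ⟨z, rfl⟩ := h.span w
      refine ⟨cm gi *ᵥ z, ?_⟩
      rw [hpi, Matrix.mulVec_mulVec, hc1, Matrix.one_mulVec]
    have hrep : ∀ (B : Matrix (Fin N) (Fin N) k) P, Rep A v u B P →
        Rep A (pi A v u (cm g *ᵥ ![1, 0])) (pi A v u (cm g *ᵥ ![0, 1])) B (cm gi * P * cm g) := by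
      intro B P hB z
      rw [hpi, hpi, hB, Matrix.mulVec_mulVec, Matrix.mulVec_mulVec]
      congr 2
      rw [← mul_assoc, ← mul_assoc, hc1, one_mul]
    have hev : ∀ P, ev k (cm gi * P * cm g) = gi * ev k P * g := by
      intro P
      rw [map_mul, map_mul, ev_cm, ev_cm]
    have hsq : ∀ M : Matrix (Fin 2) (Fin 2) k, M * M = 0 → (gi * M * g) * (gi * M * g) = 0 := by
      intro M hM
      calc (gi * M * g) * (gi * M * g) = gi * M * (g * gi) * M * g := by
            simp only [mul_assoc]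
        _ = gi * (M * M) * g := by rw [hg1]; simp only [mul_assoc, one_mul]
        _ = 0 := by rw [hM]; simp
    have l1 := lt_of_sq (hsq _ h1) hg3
    have l2 := lt_of_sq (hsq _ h2) hg4
    refine ⟨_, _, _, _, hT, hrep _ _ hP, hrep _ _ hQ, ?_, ?_, ?_, ?_, ?_, ?_, ?_, ?_⟩
    · rw [pow_zero]; exact one_dvd _
    · rw [pow_zero]; exact one_dvd _
    · rw [← ev_zero_iff, hev]; exact l1.1
    · rw [← ev_zero_iff, hev]; exact hg3
    · rw [← ev_zero_iff, hev]; exact l1.2
    · rw [← ev_zero_iff, hev]; exact l2.1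
    · rw [← ev_zero_iff, hev]; exact hg4
    · rw [← ev_zero_iff, hev]; exact l2.2
  · have hd : ∀ p : k[X], X ^ δ ∣ p → X ∣ p := fun p hp => (dvd_pow_self X (by omega)).trans hp
    have p01 := hd _ hPd
    have q01 := hd _ hQd
    have l1 := lt_of_sq h1 ((ev_zero_iff P 0 1).2 p01)
    have l2 := lt_of_sq h2 ((ev_zero_iff Q 0 1).2 q01)
    exact ⟨v, u, P, Q, h, hP, hQ, hPd, hQd, (ev_zero_iff P 0 0).1 l1.1, p01,
      (ev_zero_iff P 1 1).1 l1.2, (ev_zero_iff Q 0 0).1 l2.1, q01, (ev_zero_iff Q 1 1).1 l2.2⟩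

/-- the triple `(A, B, C)` may be replaced by `(A, B - f(A), C - g(A))` -/
theorem cl_sub {n : Type*} [Fintype n] [DecidableEq n] {A B C : Matrix n n k} {f g : k[X]}
    (hf : X ∣ f) (hg : X ∣ g) (h : Cl ![A, B - aeval A f, C - aeval A g]) : Cl ![A, B, C] := by
  have m0 : A ∈ adj ![A, B - aeval A f, C - aeval A g] := mem_adj ![A, B - aeval A f, C - aeval A g] 0
  have m1 : B - aeval A f ∈ adj ![A, B - aeval A f, C - aeval A g] :=
    mem_adj ![A, B - aeval A f, C - aeval A g] 1
  have m2 : C - aeval A g ∈ adj ![A, B - aeval A f, C - aeval A g] :=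
    mem_adj ![A, B - aeval A f, C - aeval A g] 2
  refine cl_of_adj (fun i => ?_) h
  fin_cases i
  · exact m0
  · have h1 := add_mem m1 (aeval_mem m0 f hf)
    rw [sub_add_cancel] at h1
    exact h1
  · have h1 := add_mem m2 (aeval_mem m0 g hg)
    rw [sub_add_cancel] at h1
    exact h1

theorem aeval_mul_mem {n : Type*} [Fintype n] [DecidableEq n] {T : Fin 3 → Matrix n n k}
    {A B : Matrix n n k} (hA : A ∈ adj T) (hB : B ∈ adj T) (q : k[X]) :
    aeval A q * B ∈ adj T := by
  have key : ∀ i : ℕ, A ^ i * B ∈ adj T := by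
    intro i
    induction i with
    | zero => rw [pow_zero, one_mul]; exact hB
    | succ i ih => rw [pow_succ', mul_assoc]; exact mul_mem hA ih
  rw [aeval_eq_sum_range, Finset.sum_mul]
  refine sum_mem fun i _ => ?_
  rw [smul_mul_assoc]
  exact SMulMemClass.smul_mem _ (key i)

/-- the triple `(A, B, C)` may be replaced by `(A, B, C - p(A) B)` -/
theorem cl_sub_mul {n : Type*} [Fintype n] [DecidableEq n] {A B C : Matrix n n k} (p : k[X])
    (h : Cl ![A, B, C - aeval A p * B]) : Cl ![A, B, C] := by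
  have m0 : A ∈ adj ![A, B, C - aeval A p * B] := mem_adj ![A, B, C - aeval A p * B] 0
  have m1 : B ∈ adj ![A, B, C - aeval A p * B] := mem_adj ![A, B, C - aeval A p * B] 1
  have m2 : C - aeval A p * B ∈ adj ![A, B, C - aeval A p * B] :=
    mem_adj ![A, B, C - aeval A p * B] 2
  refine cl_of_adj (fun i => ?_) h
  fin_cases i
  · exact m0
  · exact m1
  · have h1 := add_mem m2 (aeval_mul_mem m0 m1 p)
    rw [sub_add_cancel] at h1
    exact h1

/-- commuting nilpotent pairs are limits of curvilinear ones -/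
theorem cl_pair [IsAlgClosed k] [CharZero k] (h : TwoB A v u b δ)
    {B : Matrix (Fin N) (Fin N) k} (hAB : A * B = B * A) (hB : IsNilpotent B) :
    Cl ![A, B, 0] := by
  obtain ⟨v', u', P, Q, h', hP, -, hd, -, h00, h01, h11, -⟩ :=
    exists_gen h hAB (C := 0) (by simp) (by simp) hB IsNilpotent.zero
  refine cl_sub (f := P 0 0) (g := 0) h00 (dvd_zero _) ?_
  have e : (0 : Matrix (Fin N) (Fin N) k) - aeval A (0 : k[X]) = 0 := by simp
  rw [e]
  refine cl_planar h' (hP.sub (Rep.aeval (P 0 0))) ?_ ?_ ?_ ?_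
  · have : (P - (P 0 0) • (1 : Matrix (Fin 2) (Fin 2) k[X])) 0 1 = P 0 1 := by simp
    rw [this]; exact hd
  · simp
  · have : (P - (P 0 0) • (1 : Matrix (Fin 2) (Fin 2) k[X])) 0 1 = P 0 1 := by simp
    rw [this]; exact h01
  · have : (P - (P 0 0) • (1 : Matrix (Fin 2) (Fin 2) k[X])) 1 1 = P 1 1 - P 0 0 := by simp
    rw [this]; exact dvd_sub h11 h00

end Two

end Pool.Agent.Lib.D8
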