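import Mathlib

/-!
# MP_5dcbc3_ag: partial fractions in `k[t] / t^n`
-/

namespace Pool.Agent.Lib.D8

open Polynomial

variable {k : Type*} [Field k]

/-- in a commutative algebra, if `z₁ z₂` is a combination of `z₁, z₂`, then `z₁ z₂^j` is a combination
of `z₁` and the `z₂^i`, `1 ≤ i ≤ j` -/
theorem mul_pow_mem_span {R : Type*} [CommRing R] [Algebra k R] {z₁ z₂ : R} {a b : k}
    (h : z₁ * z₂ = a • z₁ + b • z₂) (j : ℕ) (hj : 1 ≤ j) :
    z₁ * z₂ ^ j ∈ Submodule.span k ({z₁} ∪ {x | ∃ i, 1 ≤ i ∧ i ≤ j ∧ x = z₂ ^ i}) := by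
  induction j, hj using Nat.le_induction with
  | base =>
    rw [pow_one, h]
    refine add_mem (Submodule.smul_mem _ _ (Submodule.subset_span (Or.inl rfl)))
      (Submodule.smul_mem _ _ (Submodule.subset_span (Or.inr ⟨1, le_rfl, le_rfl, (pow_one _).symm⟩)))
  | succ j hj ih =>
    have h1 : z₁ * z₂ ^ (j + 1) = LinearMap.mulRight k z₂ (z₁ * z₂ ^ j) := by
      rw [LinearMap.mulRight_apply, pow_succ, mul_assoc]
    rw [h1]
    have h2 : Submodule.span k ({z₁} ∪ {x | ∃ i, 1 ≤ i ∧ i ≤ j ∧ x = z₂ ^ i}) ≤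
        (Submodule.span k ({z₁} ∪ {x | ∃ i, 1 ≤ i ∧ i ≤ j + 1 ∧ x = z₂ ^ i})).comap
          (LinearMap.mulRight k z₂) := by
      refine Submodule.span_le.2 ?_
      rintro x (rfl | ⟨i, hi1, hi2, rfl⟩)
      · rw [SetLike.mem_coe, Submodule.mem_comap, LinearMap.mulRight_apply, h]
        refine add_mem (Submodule.smul_mem _ _ (Submodule.subset_span (Or.inl rfl)))
          (Submodule.smul_mem _ _ (Submodule.subset_span
            (Or.inr ⟨1, le_rfl, by omega, (pow_one _).symm⟩)))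
      · rw [SetLike.mem_coe, Submodule.mem_comap, LinearMap.mulRight_apply, ← pow_succ]
        exact Submodule.subset_span (Or.inr ⟨i + 1, by omega, by omega, rfl⟩)
    exact h2 ih

/-- powers of `1 - y` -/
theorem one_sub_pow_mem {R : Type*} [CommRing R] [Algebra k R] (y : R) (j : ℕ) :
    (1 - y) ^ j - ((-1 : k) ^ j) • y ^ j ∈
      Submodule.span k {x | ∃ i, i < j ∧ x = y ^ i} := by
  have h1 : (1 - y) ^ j = ∑ m ∈ Finset.range (j + 1), (-y) ^ m * 1 ^ (j - m) * (j.choose m : R) := by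
    rw [← add_pow]
    ring
  rw [h1, Finset.sum_range_succ]
  have h2 : (-y) ^ j * 1 ^ (j - j) * (j.choose j : R) = ((-1 : k) ^ j) • y ^ j := by
    rw [Nat.sub_self, Nat.choose_self, Nat.cast_one, Algebra.smul_def, map_pow, map_neg, map_one,
      ← mul_pow]
    ring
  rw [h2, add_sub_cancel_right]
  refine Submodule.sum_mem _ fun m hm => ?_
  have h3 : (-y) ^ m * 1 ^ (j - m) * (j.choose m : R) = ((-1 : k) ^ m * (j.choose m : k)) • y ^ m := by
    rw [Algebra.smul_def, map_mul, map_pow, map_neg, map_one, map_natCast]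
    have : (-y) ^ m = (-1) ^ m * y ^ m := by rw [← mul_pow]; ring
    rw [this]
    ring
  rw [h3]
  exact Submodule.smul_mem _ _ (Submodule.subset_span ⟨m, Finset.mem_range.1 hm, rfl⟩)

/-- the polynomial identity behind the relation -/
theorem pfrac {α : Type*} [Fintype α] [DecidableEq α] (n p : ℕ) (q : α → ℕ) (τ : α → k)
    (hτ : Function.Injective τ) (hτ0 : ∀ a, τ a ≠ 0) (hq : ∀ a, 1 ≤ q a) (hp : 1 ≤ p)
    (hn : n = p + ∑ a, q a) :
    ∃ (Q : k[X]) (r : (a : α) → Fin (q a) → k), Q.Monic ∧ Q.natDegree = p ∧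
      (∀ a, r a ⟨0, hq a⟩ ≠ 0) ∧
      (X : k[X]) ^ n = Q * ∏ a, (X + C (τ a)) ^ q a +
        ∑ a, ∑ j : Fin (q a), C (r a j) * (X + C (τ a)) ^ (j : ℕ) *
          ∏ b ∈ Finset.univ.erase a, (X + C (τ b)) ^ q b := by
  obtain ⟨Q, r, hr, hf⟩ := eq_quo_mul_prod_pow_add_sum_rem_mul_prod_pow (R := k)
    (s := (Finset.univ : Finset α)) ((X : k[X]) ^ n) (g := fun a => X + C (τ a))
    (fun a _ => monic_X_add_C _) (by
      intro a _ b _ hab
      have h1 : X + C (τ a) = X - C (-τ a) := by simp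
      have h2 : X + C (τ b) = X - C (-τ b) := by simp
      show IsCoprime (X + C (τ a)) (X + C (τ b))
      rw [h1, h2]
      refine isCoprime_X_sub_C_of_isUnit_sub ?_
      refine isUnit_iff_ne_zero.2 ?_
      intro h3
      exact hab (hτ (by linear_combination -h3))) q
  have hrc : ∀ a j, r a j = C ((r a j).coeff 0) := by
    intro a j
    refine eq_C_of_degree_le_zero ?_
    have h1 := hr a (Finset.mem_univ a) j
    rw [degree_X_add_C] at h1
    exact Order.lt_succ_iff.1 h1
  refine ⟨Q, fun a j => (r a j).coeff 0, ?_⟩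
  have hf' : (X : k[X]) ^ n = Q * ∏ a, (X + C (τ a)) ^ q a +
        ∑ a, ∑ j : Fin (q a), C ((r a j).coeff 0) * (X + C (τ a)) ^ (j : ℕ) *
          ∏ b ∈ Finset.univ.erase a, (X + C (τ b)) ^ q b := by
    refine hf.trans (congrArg (fun z => Q * ∏ a, (X + C (τ a)) ^ q a + z) ?_)
    refine Finset.sum_congr rfl fun a _ => Finset.sum_congr rfl fun j _ => ?_
    rw [← hrc a j]
  set G : k[X] := ∏ a, (X + C (τ a)) ^ q a with hG
  have hGm : G.Monic := monic_prod_of_monic _ _ fun a _ => (monic_X_add_C _).pow _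
  have hGd : G.natDegree = ∑ a, q a := by
    rw [hG, natDegree_prod_of_monic _ _ fun a _ => (monic_X_add_C _).pow _]
    refine Finset.sum_congr rfl fun a _ => ?_
    rw [(monic_X_add_C _).natDegree_pow, natDegree_X_add_C, mul_one]
  set S : k[X] := ∑ a, ∑ j : Fin (q a), C ((r a j).coeff 0) * (X + C (τ a)) ^ (j : ℕ) *
          ∏ b ∈ Finset.univ.erase a, (X + C (τ b)) ^ q b with hS
  have hSd : S.degree < (n : WithBot ℕ) := by
    rw [hS]
    refine (degree_sum_le _ _).trans_lt ((Finset.sup_lt_iff (WithBot.bot_lt_coe n)).2 ?_)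
    intro a _
    refine (degree_sum_le _ _).trans_lt ((Finset.sup_lt_iff (WithBot.bot_lt_coe n)).2 ?_)
    intro j _
    have h1 : (C ((r a j).coeff 0) * (X + C (τ a)) ^ (j : ℕ) *
          ∏ b ∈ Finset.univ.erase a, (X + C (τ b)) ^ q b).natDegree ≤
        (j : ℕ) + ∑ b ∈ Finset.univ.erase a, q b := by
      refine natDegree_mul_le.trans ?_
      refine Nat.add_le_add ?_ ?_
      · refine (natDegree_C_mul_le _ _).trans ?_
        rw [(monic_X_add_C _).natDegree_pow, natDegree_X_add_C, mul_one]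
      · rw [natDegree_prod_of_monic _ _ fun a _ => (monic_X_add_C _).pow _]
        refine Finset.sum_le_sum fun b _ => ?_
        rw [(monic_X_add_C _).natDegree_pow, natDegree_X_add_C, mul_one]
    refine degree_le_natDegree.trans_lt ?_
    have h2 : (j : ℕ) + ∑ b ∈ Finset.univ.erase a, q b < n := by
      rw [hn, ← Finset.add_sum_erase _ _ (Finset.mem_univ a)]
      have := j.isLt
      omega
    exact WithBot.coe_lt_coe.2 (lt_of_le_of_lt h1 h2)
  have hQG : Q * G = X ^ n - S := by rw [hf']; ring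
  have hQGm : (Q * G).Monic := by
    rw [hQG]
    have h5 : (X ^ n - S).leadingCoeff = (X ^ n : k[X]).leadingCoeff :=
      leadingCoeff_sub_of_degree_lt (by rwa [degree_X_pow])
    show (X ^ n - S).leadingCoeff = 1
    rw [h5]
    exact monic_X_pow n
  have hQm : Q.Monic := hGm.of_mul_monic_right hQGm
  refine ⟨hQm, ?_, ?_, hf'⟩
  · have h1 : (Q * G).natDegree = n := by
      rw [hQG]
      have h2 : (X ^ n - S).degree = (n : WithBot ℕ) := by
        rw [degree_sub_eq_left_of_degree_lt (by rwa [degree_X_pow]), degree_X_pow]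
      exact natDegree_eq_of_degree_eq_some h2
    rw [hQm.natDegree_mul hGm, hGd] at h1
    omega
  · intro a h0
    have h0' : (r a ⟨0, hq a⟩).coeff 0 = 0 := h0
    have h1 := congrArg (eval (-τ a)) hf'
    have h2 : eval (-τ a) G = 0 := by
      rw [hG, eval_prod]
      refine Finset.prod_eq_zero (Finset.mem_univ a) ?_
      rw [eval_pow]
      simp only [eval_add, eval_X, eval_C, neg_add_cancel]
      exact zero_pow (by have := hq a; omega)
    have h3 : eval (-τ a) S = 0 := by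
      rw [hS, eval_finsetSum]
      refine Finset.sum_eq_zero fun b _ => ?_
      rw [eval_finsetSum]
      refine Finset.sum_eq_zero fun j _ => ?_
      rw [eval_mul, eval_mul, eval_C]
      by_cases hab : b = a
      · subst hab
        by_cases hj : (j : ℕ) = 0
        · have h4 : j = ⟨0, hq b⟩ := Fin.ext hj
          rw [h4, h0', zero_mul, zero_mul]
        · rw [eval_pow]
          simp only [eval_add, eval_X, eval_C, neg_add_cancel]
          rw [zero_pow hj, mul_zero, zero_mul]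
      · rw [eval_prod]
        have h4 : ∏ c ∈ Finset.univ.erase b, eval (-τ a) ((X + C (τ c)) ^ q c) = 0 := by
          refine Finset.prod_eq_zero (Finset.mem_erase.2 ⟨fun h => hab h.symm, Finset.mem_univ a⟩) ?_
          rw [eval_pow]
          simp only [eval_add, eval_X, eval_C, neg_add_cancel]
          exact zero_pow (by have := hq a; omega)
        rw [h4, mul_zero]
    rw [eval_add, eval_mul, h2, h3, mul_zero, add_zero, eval_pow, eval_X] at h1
    exact pow_ne_zero n (neg_ne_zero.2 (hτ0 a)) h1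

/-- the elements `t / (t + τ a)` of `k[t] / t^n` -/
theorem exists_arc {α : Type*} [Fintype α] [DecidableEq α] (n p : ℕ) (q : α → ℕ) (τ : α → k)
    (hτ : Function.Injective τ) (hτ0 : ∀ a, τ a ≠ 0) (hq : ∀ a, 1 ≤ q a) (hp : 1 ≤ p)
    (hn : n = p + ∑ a, q a) :
    ∃ (y : α → AdjoinRoot (X ^ n : k[X])) (β : α → k), (∀ a, β a ≠ 0) ∧
      (∀ a, ∃ U : k[X], y a = AdjoinRoot.mk _ (X * U)) ∧
      (∀ a, AdjoinRoot.root (X ^ n : k[X]) * y a =
        AdjoinRoot.root (X ^ n : k[X]) - τ a • y a) ∧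
      (∀ a b, a ≠ b → (τ a - τ b) • (y a * y b) = τ a • y a - τ b • y b) ∧
      (AdjoinRoot.root (X ^ n : k[X]) ^ p - ∑ a, β a • y a ^ q a ∈
        Submodule.span k ({x | ∃ i, i < p ∧ x = AdjoinRoot.root (X ^ n : k[X]) ^ i} ∪
          {x | ∃ a j, 1 ≤ j ∧ j < q a ∧ x = y a ^ j})) ∧
      Submodule.span k ({x | ∃ i, i < p ∧ x = AdjoinRoot.root (X ^ n : k[X]) ^ i} ∪
          {x | ∃ a j, 1 ≤ j ∧ j ≤ q a ∧ x = y a ^ j}) = ⊤ := by
  obtain ⟨Q, r, hQm, hQd, hr0, hid⟩ := pfrac n p q τ hτ hτ0 hq hp hn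
  set t : AdjoinRoot (X ^ n : k[X]) := AdjoinRoot.root (X ^ n : k[X]) with ht
  have htn : t ^ n = 0 := by
    have h1 : AdjoinRoot.mk (X ^ n : k[X]) (X ^ n) = 0 := AdjoinRoot.mk_self
    rwa [map_pow, AdjoinRoot.mk_X] at h1
  have hun : ∀ a, ∃ u, (t + algebraMap k _ (τ a)) * u = 1 := by
    intro a
    have h1 : IsUnit (algebraMap k (AdjoinRoot (X ^ n : k[X])) (τ a)) :=
      (isUnit_iff_ne_zero.2 (hτ0 a)).map _
    have h2 : IsUnit (t + algebraMap k (AdjoinRoot (X ^ n : k[X])) (τ a)) := by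
      refine IsNilpotent.isUnit_add_right_of_commute ⟨n, htn⟩ h1 (Commute.all _ _)
    exact h2.exists_right_inv
  choose u hu using hun
  have hmk : ∀ f : k[X], AdjoinRoot.mk (X ^ n : k[X]) f = aeval t f := by
    intro f
    exact (AdjoinRoot.aeval_eq f).symm
  have hU : ∀ a, ∃ U : k[X], u a = AdjoinRoot.mk _ U := by
    intro a
    obtain ⟨U, hU⟩ := AdjoinRoot.mk_surjective (u a)
    exact ⟨U, hU.symm⟩
  have htu : ∀ a, t * u a = 1 - τ a • u a := by
    intro a
    rw [Algebra.smul_def]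
    linear_combination hu a
  have hyu : ∀ a, t * u a = 1 - τ a • u a := htu
  -- the relation
  have hup : ∀ a, (t + algebraMap k _ (τ a)) ^ q a * u a ^ q a = 1 := by
    intro a
    rw [← mul_pow, hu, one_pow]
  have hupj : ∀ a (j : Fin (q a)), (t + algebraMap k _ (τ a)) ^ (j : ℕ) * u a ^ q a =
      u a ^ (q a - j) := by
    intro a j
    have h1 : q a = (j : ℕ) + (q a - j) := by have := j.isLt; omega
    calc (t + algebraMap k _ (τ a)) ^ (j : ℕ) * u a ^ q a
        = (t + algebraMap k _ (τ a)) ^ (j : ℕ) * u a ^ ((j : ℕ) + (q a - j)) := by rw [← h1]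
      _ = ((t + algebraMap k _ (τ a)) * u a) ^ (j : ℕ) * u a ^ (q a - j) := by
          rw [pow_add, mul_pow]; ring
      _ = _ := by rw [hu, one_pow, one_mul]
  have hrel : aeval t Q + ∑ a, ∑ j : Fin (q a), r a j • u a ^ (q a - j) = 0 := by
    have h1 := congrArg (aeval t) hid
    have h2 : ∀ a, aeval t (X + C (τ a)) = t + algebraMap k _ (τ a) := by
      intro a
      rw [map_add, aeval_X, aeval_C]
    rw [map_pow, aeval_X, htn, map_add, map_mul, map_prod] at h1
    simp only [map_sum, map_mul, map_prod, map_pow, h2, aeval_C] at h1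
    have h3 := congrArg (fun z => z * ∏ a, u a ^ q a) h1
    simp only [zero_mul, add_mul, Finset.sum_mul] at h3
    rw [h3]
    congr 1
    · rw [mul_assoc, ← Finset.prod_mul_distrib, Finset.prod_congr rfl fun a _ => hup a,
        Finset.prod_const_one, mul_one]
    · refine Finset.sum_congr rfl fun a _ => Finset.sum_congr rfl fun j _ => ?_
      rw [← Finset.mul_prod_erase _ (fun a => u a ^ q a) (Finset.mem_univ a)]
      have h4 : (∏ b ∈ Finset.univ.erase a, (t + algebraMap k _ (τ b)) ^ q b) *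
          ∏ b ∈ Finset.univ.erase a, u b ^ q b = 1 := by
        rw [← Finset.prod_mul_distrib, Finset.prod_congr rfl fun a _ => hup a,
          Finset.prod_const_one]
      rw [← hupj a j, Algebra.smul_def]
      calc algebraMap k _ (r a j) * ((t + algebraMap k _ (τ a)) ^ (j : ℕ) * u a ^ q a)
          = algebraMap k _ (r a j) * ((t + algebraMap k _ (τ a)) ^ (j : ℕ) * u a ^ q a) *
            ((∏ b ∈ Finset.univ.erase a, (t + algebraMap k _ (τ b)) ^ q b) *
            ∏ b ∈ Finset.univ.erase a, u b ^ q b) := by rw [h4, mul_one]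
        _ = _ := by ring
  let y : α → AdjoinRoot (X ^ n : k[X]) := fun a => t * u a
  have hy : ∀ a, y a = t * u a := fun a => rfl
  have hy1 : ∀ a, u a = (τ a)⁻¹ • (1 - y a) := by
    intro a
    rw [hy, htu, sub_sub_cancel, smul_smul, inv_mul_cancel₀ (hτ0 a), one_smul]
  have hty : ∀ a, t * y a = t - τ a • y a := by
    intro a
    rw [hy]
    have := htu a
    rw [Algebra.smul_def] at this ⊢
    linear_combination t * this
  set A : Submodule k (AdjoinRoot (X ^ n : k[X])) :=
    Submodule.span k ({x | ∃ i, i < p ∧ x = t ^ i} ∪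
          {x | ∃ a j, 1 ≤ j ∧ j < q a ∧ x = y a ^ j}) with hA
  set B : Submodule k (AdjoinRoot (X ^ n : k[X])) :=
    Submodule.span k ({x | ∃ i, i < p ∧ x = t ^ i} ∪
          {x | ∃ a j, 1 ≤ j ∧ j ≤ q a ∧ x = y a ^ j}) with hB
  have hAt : ∀ i, i < p → t ^ i ∈ A := fun i hi => Submodule.subset_span (Or.inl ⟨i, hi, rfl⟩)
  have h1A : (1 : AdjoinRoot (X ^ n : k[X])) ∈ A := by
    have := hAt 0 (by omega)
    rwa [pow_zero] at this
  have hAy : ∀ a j, j < q a → y a ^ j ∈ A := by
    intro a j hj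
    rcases Nat.eq_zero_or_pos j with rfl | hj0
    · rw [pow_zero]; exact h1A
    · exact Submodule.subset_span (Or.inr ⟨a, j, hj0, hj, rfl⟩)
  have hAu : ∀ a j, j < q a → u a ^ j ∈ A := by
    intro a j hj
    rw [hy1, _root_.smul_pow]
    refine Submodule.smul_mem _ _ ?_
    have h1 := one_sub_pow_mem (k := k) (y a) j
    have h2 : Submodule.span k {x | ∃ i, i < j ∧ x = y a ^ i} ≤ A := by
      refine Submodule.span_le.2 ?_
      rintro x ⟨i, hi, rfl⟩
      exact hAy a i (by omega)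
    have h3 := add_mem (h2 h1) (Submodule.smul_mem A ((-1) ^ j) (hAy a j hj))
    rwa [sub_add_cancel] at h3
  have hAuq : ∀ a, u a ^ q a - ((τ a)⁻¹ ^ q a * (-1) ^ q a) • y a ^ q a ∈ A := by
    intro a
    have h1 := one_sub_pow_mem (k := k) (y a) (q a)
    have h2 : Submodule.span k {x | ∃ i, i < q a ∧ x = y a ^ i} ≤ A := by
      refine Submodule.span_le.2 ?_
      rintro x ⟨i, hi, rfl⟩
      exact hAy a i hi
    have h3 := Submodule.smul_mem A ((τ a)⁻¹ ^ q a) (h2 h1)
    have h4 : u a ^ q a - ((τ a)⁻¹ ^ q a * (-1) ^ q a) • y a ^ q a =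
        ((τ a)⁻¹ ^ q a) • ((1 - y a) ^ q a - ((-1 : k) ^ q a) • y a ^ q a) := by
      rw [smul_sub, smul_smul, ← _root_.smul_pow, ← hy1]
    rw [h4]
    exact h3
  let β : α → k := fun a => -(r a ⟨0, hq a⟩ * ((τ a)⁻¹ ^ q a * (-1) ^ q a))
  have hβ : ∀ a, β a ≠ 0 := by
    intro a
    refine neg_ne_zero.2 (mul_ne_zero (hr0 a) (mul_ne_zero (pow_ne_zero _ (inv_ne_zero (hτ0 a)))
      (pow_ne_zero _ (neg_ne_zero.2 one_ne_zero))))
  have hQt : aeval t Q - t ^ p ∈ A := by
    rw [aeval_eq_sum_range, hQd, Finset.sum_range_succ]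
    have h1 : Q.coeff p = 1 := by
      have := hQm.coeff_natDegree
      rwa [hQd] at this
    rw [h1, one_smul, add_sub_cancel_right]
    exact Submodule.sum_mem _ fun i hi =>
      Submodule.smul_mem _ _ (hAt i (Finset.mem_range.1 hi))
  have hrelA : t ^ p - ∑ a, β a • y a ^ q a ∈ A := by
    have h1 : t ^ p - ∑ a, β a • y a ^ q a =
        -(aeval t Q - t ^ p) - ∑ a, ((∑ j : Fin (q a), r a j • u a ^ (q a - j)) + β a • y a ^ q a) := by
      rw [Finset.sum_add_distrib]
      linear_combination hrel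
    rw [h1]
    refine sub_mem (neg_mem hQt) (Submodule.sum_mem _ fun a _ => ?_)
    have h2 : ∑ j : Fin (q a), r a j • u a ^ (q a - j) =
        r a ⟨0, hq a⟩ • u a ^ q a + ∑ j ∈ Finset.univ.erase (⟨0, hq a⟩ : Fin (q a)),
          r a j • u a ^ (q a - j) := by
      rw [← Finset.add_sum_erase _ _ (Finset.mem_univ (⟨0, hq a⟩ : Fin (q a)))]
      rfl
    rw [h2]
    have h3 : r a ⟨0, hq a⟩ • u a ^ q a + ∑ j ∈ Finset.univ.erase (⟨0, hq a⟩ : Fin (q a)),
          r a j • u a ^ (q a - j) + β a • y a ^ q a =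
        r a ⟨0, hq a⟩ • (u a ^ q a - ((τ a)⁻¹ ^ q a * (-1) ^ q a) • y a ^ q a) +
          ∑ j ∈ Finset.univ.erase (⟨0, hq a⟩ : Fin (q a)), r a j • u a ^ (q a - j) := by
      have h4 : β a • y a ^ q a =
          -(r a ⟨0, hq a⟩ • ((τ a)⁻¹ ^ q a * (-1) ^ q a) • y a ^ q a) := by
        rw [smul_smul, ← neg_smul]
      rw [h4, smul_sub]
      abel
    rw [h3]
    refine add_mem (Submodule.smul_mem _ _ (hAuq a)) (Submodule.sum_mem _ fun j hj => ?_)
    refine Submodule.smul_mem _ _ (hAu a _ ?_)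
    have h5 : (j : ℕ) ≠ 0 := fun h => (Finset.mem_erase.1 hj).1 (Fin.ext h)
    have := j.isLt
    omega
  have hAB : A ≤ B := by
    refine Submodule.span_mono (Set.union_subset_union le_rfl ?_)
    rintro x ⟨a, j, h1, h2, rfl⟩
    exact ⟨a, j, h1, by omega, rfl⟩
  have hBt : ∀ i, i ≤ p → t ^ i ∈ B := by
    intro i hi
    rcases Nat.lt_or_ge i p with h | h
    · exact hAB (hAt i h)
    · have h1 : i = p := by omega
      subst h1
      have h2 : ∑ a, β a • y a ^ q a ∈ B := Submodule.sum_mem _ fun a _ =>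
        Submodule.smul_mem _ _ (Submodule.subset_span (Or.inr ⟨a, q a, hq a, le_rfl, rfl⟩))
      have h3 := add_mem (hAB hrelA) h2
      rwa [sub_add_cancel] at h3
  have hBmul : B ≤ B.comap (LinearMap.mulLeft k t) := by
    refine Submodule.span_le.2 ?_
    rintro x (⟨i, hi, rfl⟩ | ⟨a, j, hj1, hj2, rfl⟩)
    · rw [SetLike.mem_coe, Submodule.mem_comap, LinearMap.mulLeft_apply, ← pow_succ']
      exact hBt (i + 1) (by omega)
    · rw [SetLike.mem_coe, Submodule.mem_comap, LinearMap.mulLeft_apply]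
      have h1 := mul_pow_mem_span (k := k) (z₁ := t) (z₂ := y a) (a := 1) (b := -τ a)
        (by rw [hty, one_smul, neg_smul, sub_eq_add_neg]) j hj1
      have h2 : Submodule.span k ({t} ∪ {x | ∃ i, 1 ≤ i ∧ i ≤ j ∧ x = y a ^ i}) ≤ B := by
        refine Submodule.span_le.2 ?_
        rintro x (rfl | ⟨i, hi1, hi2, rfl⟩)
        · have := hBt 1 hp
          rwa [pow_one] at this
        · exact Submodule.subset_span (Or.inr ⟨a, i, hi1, by omega, rfl⟩)
      exact h2 h1
  have hBtop : B = ⊤ := by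
    refine eq_top_iff.2 fun x _ => ?_
    obtain ⟨f, rfl⟩ := AdjoinRoot.mk_surjective x
    rw [hmk]
    have h1 : ∀ i : ℕ, t ^ i ∈ B := by
      intro i
      induction i with
      | zero => rw [pow_zero]; exact hAB h1A
      | succ i ih =>
        have := hBmul ih
        rwa [Submodule.mem_comap, LinearMap.mulLeft_apply, ← pow_succ'] at this
    rw [aeval_eq_sum_range]
    exact Submodule.sum_mem _ fun i _ => Submodule.smul_mem _ _ (h1 i)
  refine ⟨y, β, hβ, ?_, hty, ?_, hrelA, hBtop⟩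
  · intro a
    obtain ⟨U, hU⟩ := hU a
    exact ⟨U, by rw [hy, map_mul, ← hU, AdjoinRoot.mk_X]⟩
  · intro a b hab
    have h1 : τ a - τ b ≠ 0 := fun h => hab (hτ (sub_eq_zero.1 h))
    have e1 := hty a
    have e2 := hty b
    have e3 := htu a
    have e4 := htu b
    simp only [Algebra.smul_def, map_sub] at e1 e2 e3 e4 ⊢
    rw [hy, hy] at *
    linear_combination (algebraMap k _ (τ a) * t * u a) * e4 - (algebraMap k _ (τ b) * t * u b) * e3

end Pool.Agent.Lib.D8
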