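import Pool.Agent.Lib.D8.Degen
import Pool.Agent.Lib.D8.Arc

/-!
# MP_5dcbc3_ag: modules on several axes are limits of curvilinear ones
-/

namespace Pool.Agent.Lib.D8

open Matrix Pool.Agent.Lib.Q5dc Pool.Agent.Lib.D7

variable {k : Type*} [Field k]

namespace AxesAux

/-- mulVec of powers -/
theorem pow_mulVec {n : Type*} [Fintype n] [DecidableEq n] (X : Matrix n n k) (i : ℕ) (v : n → k) :
    X *ᵥ (X ^ i *ᵥ v) = X ^ (i + 1) *ᵥ v := by
  rw [Matrix.mulVec_mulVec, ← pow_succ']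

theorem mul_pow_mulVec {n : Type*} [Fintype n] [DecidableEq n] {X Y : Matrix n n k}
    (h : X * Y = 0) (i : ℕ) (v : n → k) : X *ᵥ (Y ^ (i + 1) *ᵥ v) = 0 := by
  rw [Matrix.mulVec_mulVec, pow_succ', ← mul_assoc, h, zero_mul, Matrix.zero_mulVec]

/-- the core statement: normalised coefficients -/
theorem core {n α γ : Type*} [Fintype n] [DecidableEq n] [Fintype α] [DecidableEq α] [Fintype γ]
    [DecidableEq γ] [Infinite k]
    (p : ℕ) (hp : 2 ≤ p) (q : α → ℕ) (hq : ∀ a, 1 ≤ q a) (τ : α → k) (σ : γ → k)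
    (hinj : Function.Injective (Sum.elim τ σ)) (hτ0 : ∀ a, τ a ≠ 0) (hσ0 : ∀ g, σ g ≠ 0)
    (hn : Fintype.card n = p + (∑ a, q a) + Fintype.card γ) :
    ∃ β : α → k, (∀ a, β a ≠ 0) ∧
      ∀ (X : Matrix n n k) (Y : α → Matrix n n k) (v : n → k) (E : γ → n → k),
      (∀ a, X * Y a = 0) → (∀ a, Y a * X = 0) → (∀ a b, a ≠ b → Y a * Y b = 0) →
      (X ^ p *ᵥ v = ∑ a, β a • (Y a ^ q a *ᵥ v)) →
      (∀ g, X *ᵥ E g = X *ᵥ v) →
      (∀ a g, Y a *ᵥ E g = (τ a / (τ a - σ g)) • (Y a *ᵥ v)) →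
      (⊤ ≤ Submodule.span k ({v} ∪ Set.range E ∪ {x | ∃ i, x = X ^ (i + 1) *ᵥ v} ∪
        {x | ∃ a i, x = Y a ^ (i + 1) *ᵥ v})) →
      ∀ lam : Fin 3 → Option α → k, Cl fun i => lam i none • X + ∑ a, lam i (some a) • Y a := by
  classical
  set m : ℕ := Fintype.card n with hm
  let q' : α ⊕ γ → ℕ := Sum.elim q fun _ => 1
  have hq' : ∀ c, 1 ≤ q' c := by
    rintro (a | g)
    · exact hq a
    · exact le_rfl
  have hτ' : ∀ c, Sum.elim τ σ c ≠ 0 := by
    rintro (a | g)
    · exact hτ0 a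
    · exact hσ0 g
  obtain ⟨y, β, hβ, hyU, hty, hyy, hrel, hspan⟩ := exists_arc m p q' (Sum.elim τ σ) hinj hτ' hq'
    (by omega) (by
      rw [Fintype.sum_sum_type]
      simp only [q', Sum.elim_inl, Sum.elim_inr, Finset.sum_const, Finset.card_univ, smul_eq_mul,
        mul_one]
      omega)
  set t : AdjoinRoot (Polynomial.X ^ m : Polynomial k) := AdjoinRoot.root _ with ht
  refine ⟨fun a => β (Sum.inl a), fun a => hβ _, ?_⟩
  intro X Y v E hXY hYX hYY hXp hXE hYE hsp lam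
  -- the index type
  let ι := (Unit ⊕ γ) ⊕ (Fin (p - 1) ⊕ (Σ a, Fin (q a)))
  let b : ι → AdjoinRoot (Polynomial.X ^ m : Polynomial k) :=
    Sum.elim (Sum.elim (fun _ => 1) fun g => y (Sum.inr g))
      (Sum.elim (fun i => t ^ ((i : ℕ) + 1)) fun c => y (Sum.inl c.1) ^ ((c.2 : ℕ) + 1))
  let b' : ι → n → k :=
    Sum.elim (Sum.elim (fun _ => v) fun g => E g)
      (Sum.elim (fun i => X ^ ((i : ℕ) + 1) *ᵥ v) fun c => Y c.1 ^ ((c.2 : ℕ) + 1) *ᵥ v)
  let ex : ℕ := ∏ a, q a
  let ea : α → ℕ := fun a => p * ∏ c ∈ Finset.univ.erase a, q c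
  have hex : 0 < ex := Finset.prod_pos fun a _ => hq a
  have hea : ∀ a, 0 < ea a := fun a => Nat.mul_pos (by omega) (Finset.prod_pos fun a _ => hq a)
  have hE : ∀ a, q a * ea a = p * ex := by
    intro a
    show q a * (p * ∏ c ∈ Finset.univ.erase a, q c) = p * ∏ a, q a
    rw [← Finset.mul_prod_erase _ _ (Finset.mem_univ a)]
    ring
  let w : ι → ℕ :=
    Sum.elim (Sum.elim (fun _ => 0) fun _ => 0)
      (Sum.elim (fun i => ((i : ℕ) + 1) * ex) fun c => ((c.2 : ℕ) + 1) * ea c.1)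
  have hcard : Fintype.card ι = m := by
    show Fintype.card ((Unit ⊕ γ) ⊕ (Fin (p - 1) ⊕ (Σ a, Fin (q a)))) = m
    rw [Fintype.card_sum, Fintype.card_sum, Fintype.card_sum, Fintype.card_sigma, Fintype.card_fin,
      Fintype.card_unit]
    simp only [Fintype.card_fin]
    omega
  have hm1 : 1 ≤ m := by omega
  -- the ring
  have hXm : (Polynomial.X ^ m : Polynomial k).Monic := Polynomial.monic_X_pow m
  have hfr : Module.finrank k (AdjoinRoot (Polynomial.X ^ m : Polynomial k)) = m := by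
    rw [(AdjoinRoot.powerBasis' hXm).finrank, AdjoinRoot.powerBasis'_dim, Polynomial.natDegree_X_pow]
  have htm : t ^ m = 0 := by
    have h1 : AdjoinRoot.mk (Polynomial.X ^ m : Polynomial k) (Polynomial.X ^ m) = 0 :=
      AdjoinRoot.mk_self
    rwa [map_pow, AdjoinRoot.mk_X] at h1
  have htm' : t ^ (m - 1) ≠ 0 := by
    intro h
    have h1 : AdjoinRoot.mk (Polynomial.X ^ m : Polynomial k) (Polynomial.X ^ (m - 1)) = 0 := by
      rw [map_pow, AdjoinRoot.mk_X]; exact h
    rw [AdjoinRoot.mk_eq_zero] at h1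
    have h2 := Polynomial.degree_le_of_dvd h1 (pow_ne_zero _ Polynomial.X_ne_zero)
    rw [Polynomial.degree_X_pow, Polynomial.degree_X_pow] at h2
    have h3 : m ≤ m - 1 := by exact_mod_cast h2
    omega
  let μ : AdjoinRoot (Polynomial.X ^ m : Polynomial k) →ₐ[k]
      Module.End k (AdjoinRoot (Polynomial.X ^ m : Polynomial k)) := Algebra.lmul k _
  have hμ : ∀ x y, μ x y = x * y := fun x y => rfl
  have hμi : Function.Injective μ := by
    intro x x' h
    have := congrArg (fun f => f 1) h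
    simpa [hμ] using this
  let L : Option α → Module.End k (AdjoinRoot (Polynomial.X ^ m : Polynomial k)) := fun c =>
    Option.elim c (μ t) fun a => μ (y (Sum.inl a))
  let X' : Option α → Matrix n n k := fun c => Option.elim c X Y
  let e : Option α → ℕ := fun c => Option.elim c ex ea
  -- low elements
  set D : ℕ → Submodule k (AdjoinRoot (Polynomial.X ^ m : Polynomial k) × (n → k)) :=
    fun s => Dm (k := k) b b' w s with hD
  let Low : ℕ → Submodule k (AdjoinRoot (Polynomial.X ^ m : Polynomial k)) := fun s =>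
    (D s).comap (LinearMap.inl k _ _)
  have hLow : ∀ s x, x ∈ Low s → ((x, 0) : _ × (n → k)) ∈ D s := fun s x hx => hx
  have low1 : ∀ s, 0 < s → (1 : AdjoinRoot (Polynomial.X ^ m : Polynomial k)) ∈ Low s := by
    intro s hs
    exact Dm_lt b b' (w := w) (a := Sum.inl (Sum.inl ())) hs
  have lowg : ∀ s g, 0 < s → y (Sum.inr g) ∈ Low s := by
    intro s g hs
    exact Dm_lt b b' (w := w) (a := Sum.inl (Sum.inr g)) hs
  have lowt : ∀ s i, 1 ≤ i → i < p → i * ex < s → t ^ i ∈ Low s := by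
    intro s i h1 h2 h3
    have h4 := Dm_lt (k := k) b b' (w := w) (m := s)
      (a := Sum.inr (Sum.inl (⟨i - 1, by omega⟩ : Fin (p - 1))))
      (by
        show (i - 1 + 1) * ex < s
        rwa [Nat.sub_add_cancel h1])
    have h5 : b (Sum.inr (Sum.inl (⟨i - 1, by omega⟩ : Fin (p - 1)))) = t ^ i := by
      show t ^ (i - 1 + 1) = t ^ i
      rw [Nat.sub_add_cancel h1]
    rw [h5] at h4
    exact h4
  have lowy : ∀ s a j, 1 ≤ j → j ≤ q a → j * ea a < s → y (Sum.inl a) ^ j ∈ Low s := by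
    intro s a j h1 h2 h3
    have h4 := Dm_lt (k := k) b b' (w := w) (m := s)
      (a := Sum.inr (Sum.inr ⟨a, (⟨j - 1, by omega⟩ : Fin (q a))⟩))
      (by
        show (j - 1 + 1) * ea a < s
        rwa [Nat.sub_add_cancel h1])
    have h5 : b (Sum.inr (Sum.inr ⟨a, (⟨j - 1, by omega⟩ : Fin (q a))⟩)) = y (Sum.inl a) ^ j := by
      show y (Sum.inl a) ^ (j - 1 + 1) = _
      rw [Nat.sub_add_cancel h1]
    rw [h5] at h4
    exact h4
  have eqt : ∀ i, 1 ≤ i → i < p → ((t ^ i, X ^ i *ᵥ v) : _ × (n → k)) ∈ D (i * ex) := by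
    intro i h1 h2
    have h4 := Dm_eq (k := k) b b' (w := w) (m := i * ex)
      (a := Sum.inr (Sum.inl (⟨i - 1, by omega⟩ : Fin (p - 1))))
      (by
        show (i - 1 + 1) * ex = i * ex
        rw [Nat.sub_add_cancel h1])
    have h5 : b (Sum.inr (Sum.inl (⟨i - 1, by omega⟩ : Fin (p - 1)))) = t ^ i := by
      show t ^ (i - 1 + 1) = t ^ i
      rw [Nat.sub_add_cancel h1]
    have h6 : b' (Sum.inr (Sum.inl (⟨i - 1, by omega⟩ : Fin (p - 1)))) = X ^ i *ᵥ v := by
      show X ^ (i - 1 + 1) *ᵥ v = X ^ i *ᵥ v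
      rw [Nat.sub_add_cancel h1]
    rw [h5, h6] at h4
    exact h4
  have eqy : ∀ a j, 1 ≤ j → j ≤ q a →
      ((y (Sum.inl a) ^ j, Y a ^ j *ᵥ v) : _ × (n → k)) ∈ D (j * ea a) := by
    intro a j h1 h2
    have h4 := Dm_eq (k := k) b b' (w := w) (m := j * ea a)
      (a := Sum.inr (Sum.inr ⟨a, (⟨j - 1, by omega⟩ : Fin (q a))⟩))
      (by
        show (j - 1 + 1) * ea a = j * ea a
        rw [Nat.sub_add_cancel h1])
    have h5 : b (Sum.inr (Sum.inr ⟨a, (⟨j - 1, by omega⟩ : Fin (q a))⟩)) = y (Sum.inl a) ^ j := by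
      show y (Sum.inl a) ^ (j - 1 + 1) = _
      rw [Nat.sub_add_cancel h1]
    have h6 : b' (Sum.inr (Sum.inr ⟨a, (⟨j - 1, by omega⟩ : Fin (q a))⟩)) = Y a ^ j *ᵥ v := by
      show Y a ^ (j - 1 + 1) *ᵥ v = _
      rw [Nat.sub_add_cancel h1]
    rw [h5, h6] at h4
    exact h4
  have lowall : ∀ s x, p * ex < s → x ∈ Low s := by
    intro s x hs
    have h1 : (⊤ : Submodule k _) ≤ Low s := by
      rw [← hspan]
      refine Submodule.span_le.2 ?_
      rintro x (⟨i, hi, rfl⟩ | ⟨c, j, hj1, hj2, rfl⟩)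
      · rcases Nat.eq_zero_or_pos i with rfl | hi0
        · rw [pow_zero]; exact low1 s (by omega)
        · refine lowt s i hi0 hi (lt_of_le_of_lt (Nat.mul_le_mul_right _ hi.le) hs)
      · rcases c with a | g
        · refine lowy s a j hj1 hj2 ?_
          calc j * ea a ≤ q a * ea a := Nat.mul_le_mul_right _ hj2
            _ = p * ex := hE a
            _ < s := hs
        · have h2 : j = 1 := le_antisymm hj2 hj1
          rw [h2, pow_one]
          exact lowg s g (by omega)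
    exact h1 trivial
  -- products of an axis element with the powers of another one
  have lowprod : ∀ s (z₁ z₂ : AdjoinRoot (Polynomial.X ^ m : Polynomial k)) (a b : k) (j : ℕ),
      1 ≤ j → z₁ * z₂ = a • z₁ + b • z₂ → z₁ ∈ Low s → (∀ i, 1 ≤ i → i ≤ j → z₂ ^ i ∈ Low s) →
      z₁ * z₂ ^ j ∈ Low s := by
    intro s z₁ z₂ a b j hj h h1 h2
    have h3 := mul_pow_mem_span (k := k) h j hj
    have h4 : Submodule.span k ({z₁} ∪ {x | ∃ i, 1 ≤ i ∧ i ≤ j ∧ x = z₂ ^ i}) ≤ Low s := by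
      refine Submodule.span_le.2 ?_
      rintro x (rfl | ⟨i, hi1, hi2, rfl⟩)
      · exact h1
      · exact h2 i hi1 hi2
    exact h4 h3
  have htop : ∀ s, s = p * ex → ((t ^ p, X ^ p *ᵥ v) : _ × (n → k)) ∈ D s := by
    rintro s rfl
    have h1 : t ^ p - ∑ a, β (Sum.inl a) • y (Sum.inl a) ^ q a ∈ Low (p * ex) := by
      have hpos : 0 < p * ex := Nat.mul_pos (by omega) hex
      have h2 : Submodule.span k ({x | ∃ i, i < p ∧ x = t ^ i} ∪
          {x | ∃ a j, 1 ≤ j ∧ j < q' a ∧ x = y a ^ j}) ≤ Low (p * ex) := by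
        refine Submodule.span_le.2 ?_
        rintro x (⟨i, hi, rfl⟩ | ⟨c, j, hj1, hj2, rfl⟩)
        · rcases Nat.eq_zero_or_pos i with rfl | hi0
          · rw [pow_zero]; exact low1 _ hpos
          · exact lowt _ i hi0 hi (Nat.mul_lt_mul_of_pos_right hi hex)
        · rcases c with a | g
          · refine lowy _ a j hj1 (le_of_lt hj2) ?_
            rw [← hE a]
            exact Nat.mul_lt_mul_of_pos_right hj2 (hea a)
          · exact absurd hj2 (not_lt.2 hj1)
      have h3 := h2 hrel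
      rw [Fintype.sum_sum_type] at h3
      simp only [q', Sum.elim_inl, Sum.elim_inr, pow_one] at h3
      have h4 : ∑ g, β (Sum.inr g) • y (Sum.inr g) ∈ Low (p * ex) :=
        Submodule.sum_mem _ fun g _ => Submodule.smul_mem _ _ (lowg _ g hpos)
      have h5 := add_mem h3 h4
      have h6 : t ^ p - (∑ a, β (Sum.inl a) • y (Sum.inl a) ^ q a +
          ∑ g, β (Sum.inr g) • y (Sum.inr g)) + ∑ g, β (Sum.inr g) • y (Sum.inr g) =
          t ^ p - ∑ a, β (Sum.inl a) • y (Sum.inl a) ^ q a := by abel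
      rwa [h6] at h5
    have h2 : ∑ a, β (Sum.inl a) • ((y (Sum.inl a) ^ q a, Y a ^ q a *ᵥ v) : _ × (n → k)) ∈
        D (p * ex) := by
      refine Submodule.sum_mem _ fun a _ => Submodule.smul_mem _ _ ?_
      have := eqy a (q a) (hq a) le_rfl
      rwa [hE a] at this
    have h3 := add_mem (hLow _ _ h1) h2
    have h4 : ((t ^ p - ∑ a, β (Sum.inl a) • y (Sum.inl a) ^ q a, 0) : _ × (n → k)) +
        ∑ a, β (Sum.inl a) • ((y (Sum.inl a) ^ q a, Y a ^ q a *ᵥ v) : _ × (n → k)) =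
        (t ^ p, X ^ p *ᵥ v) := by
      refine Prod.ext ?_ ?_
      · rw [Prod.fst_add, Prod.fst_sum]
        simp only [Prod.smul_fst]
        exact sub_add_cancel _ _
      · rw [Prod.snd_add, Prod.snd_sum]
        simp only [Prod.smul_snd]
        rw [zero_add, hXp]
    rw [h4] at h3
    exact h3
  -- the power `q a + 1`
  have hYtop : ∀ a, Y a ^ (q a + 1) *ᵥ v = 0 := by
    intro a
    have h1 : Y a *ᵥ (X ^ p *ᵥ v) = 0 := by
      obtain ⟨p', rfl⟩ : ∃ p', p = p' + 1 := ⟨p - 1, by omega⟩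
      exact mul_pow_mulVec (hYX a) p' v
    rw [hXp, Matrix.mulVec_sum, Finset.sum_eq_single a] at h1
    · rw [Matrix.mulVec_smul, pow_mulVec] at h1
      exact (smul_eq_zero.1 h1).resolve_left (hβ _)
    · intro c _ hc
      obtain ⟨q₀, hq₀⟩ : ∃ q₀, q c = q₀ + 1 := ⟨q c - 1, by have := hq c; omega⟩
      rw [Matrix.mulVec_smul, hq₀, mul_pow_mulVec (hYY a c hc.symm), smul_zero]
    · intro h; exact absurd (Finset.mem_univ a) h
  have hYtop' : ∀ a j, q a < j → Y a ^ j *ᵥ v = 0 := by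
    intro a j hj
    obtain ⟨l, rfl⟩ : ∃ l, j = l + (q a + 1) := ⟨j - (q a + 1), by omega⟩
    rw [pow_add, ← Matrix.mulVec_mulVec, hYtop, Matrix.mulVec_zero]
  have hXtop' : ∀ j, p < j → X ^ j *ᵥ v = 0 := by
    intro j hj
    obtain ⟨l, rfl⟩ : ∃ l, j = l + (1 + p) := ⟨j - (1 + p), by omega⟩
    rw [pow_add, pow_add, pow_one, ← Matrix.mulVec_mulVec, ← Matrix.mulVec_mulVec, hXp,
      Matrix.mulVec_sum, Finset.sum_eq_zero, Matrix.mulVec_zero]
    intro c _
    obtain ⟨q₀, hq₀⟩ : ∃ q₀, q c = q₀ + 1 := ⟨q c - 1, by have := hq c; omega⟩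
    rw [Matrix.mulVec_smul, hq₀, mul_pow_mulVec (hXY c), smul_zero]
  -- apply the degeneration
  have key := cl_deg (κ := Option α) (n := n) (μ t)
    (by rw [hcard, ← map_pow, htm, map_zero])
    (by
      rw [hcard, ← map_pow]
      intro h
      exact htm' (hμi (by rw [h, map_zero]))) (by rw [hfr, hcard]) b ?_ (by rw [hcard]) b' ?_ L ?_
    e w X' ?_ lam
  · have h1 : (fun i => ∑ c, lam i c • X' c) =
        fun i => lam i none • X + ∑ a, lam i (some a) • Y a := by
      funext i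
      rw [Fintype.sum_option]
      rfl
    rw [h1] at key
    exact key
  · rw [← hspan]
    refine Submodule.span_le.2 ?_
    rintro x (⟨i, hi, rfl⟩ | ⟨c, j, hj1, hj2, rfl⟩)
    · rcases Nat.eq_zero_or_pos i with rfl | hi0
      · rw [pow_zero]
        exact Submodule.subset_span ⟨Sum.inl (Sum.inl ()), rfl⟩
      · refine Submodule.subset_span ⟨Sum.inr (Sum.inl (⟨i - 1, by omega⟩ : Fin (p - 1))), ?_⟩
        show t ^ (i - 1 + 1) = t ^ i
        rw [Nat.sub_add_cancel hi0]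
    · rcases c with a | g
      · have hj2' : j ≤ q a := hj2
        refine Submodule.subset_span
          ⟨Sum.inr (Sum.inr ⟨a, (⟨j - 1, by omega⟩ : Fin (q a))⟩), ?_⟩
        show y (Sum.inl a) ^ (j - 1 + 1) = _
        rw [Nat.sub_add_cancel hj1]
      · have h2 : j = 1 := le_antisymm hj2 hj1
        rw [h2, pow_one]
        exact Submodule.subset_span ⟨Sum.inl (Sum.inr g), rfl⟩
  · refine hsp.trans (Submodule.span_le.2 ?_)
    have hy' : ∀ a j, 1 ≤ j → j ≤ q a →
        Y a ^ j *ᵥ v ∈ Submodule.span k (Set.range b') := by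
      intro a j hj1 hj2
      refine Submodule.subset_span
        ⟨Sum.inr (Sum.inr ⟨a, (⟨j - 1, by omega⟩ : Fin (q a))⟩), ?_⟩
      show Y a ^ (j - 1 + 1) *ᵥ v = _
      rw [Nat.sub_add_cancel hj1]
    rintro x (((rfl | ⟨g, rfl⟩) | ⟨i, rfl⟩) | ⟨a, j, rfl⟩)
    · exact Submodule.subset_span ⟨Sum.inl (Sum.inl ()), rfl⟩
    · exact Submodule.subset_span ⟨Sum.inl (Sum.inr g), rfl⟩
    · rcases lt_trichotomy (i + 1) p with h | h | h
      · exact Submodule.subset_span ⟨Sum.inr (Sum.inl (⟨i, by omega⟩ : Fin (p - 1))), rfl⟩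
      · rw [h, hXp]
        exact Submodule.sum_mem _ fun a _ => Submodule.smul_mem _ _ (hy' a (q a) (hq a) le_rfl)
      · rw [hXtop' _ h]; exact zero_mem _
    · rcases Nat.lt_or_ge (q a) (j + 1) with h | h
      · rw [hYtop' a _ h]; exact zero_mem _
      · exact hy' a (j + 1) (by omega) h
  · rintro (_ | a)
    · exact ⟨Polynomial.X, Polynomial.coeff_X_zero, by rw [Polynomial.aeval_X]; rfl⟩
    · obtain ⟨U, hU⟩ := hyU (Sum.inl a)
      refine ⟨Polynomial.X * U, by rw [Polynomial.mul_coeff_zero, Polynomial.coeff_X_zero, zero_mul],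
        ?_⟩
      show μ (y (Sum.inl a)) = _
      rw [hU, Polynomial.aeval_algHom_apply]
      congr 1
      exact (AdjoinRoot.aeval_eq _).symm
  · rintro (_ | a) ((⟨⟩ | g) | (i | ⟨a', j⟩))
    · -- X v
      show (μ t 1, X *ᵥ v) ∈ D (ex + 0)
      have := eqt 1 le_rfl (by omega)
      rw [pow_one, pow_one, one_mul] at this
      rw [hμ, mul_one, add_zero]
      exact this
    · -- X E
      show (μ t (y (Sum.inr g)), X *ᵥ E g) ∈ D (ex + 0)
      have h1 := eqt 1 le_rfl (by omega)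
      rw [pow_one, pow_one, one_mul] at h1
      have h2 := hLow _ _ (lowg ex g hex)
      have h3 := sub_mem h1 (Submodule.smul_mem _ (σ g) h2)
      rw [hμ, hty, hXE, add_zero]
      have h4 : ((t, X *ᵥ v) : _ × (n → k)) - σ g • ((y (Sum.inr g), 0) : _ × (n → k)) =
          (t - Sum.elim τ σ (Sum.inr g) • y (Sum.inr g), X *ᵥ v) := by
        refine Prod.ext ?_ ?_
        · rfl
        · simp
      rw [h4] at h3
      exact h3
    · -- X X^i
      show (μ t (t ^ ((i : ℕ) + 1)), X *ᵥ (X ^ ((i : ℕ) + 1) *ᵥ v)) ∈ D (ex + ((i : ℕ) + 1) * ex)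
      rw [hμ, ← pow_succ', pow_mulVec]
      have h1 : ex + ((i : ℕ) + 1) * ex = ((i : ℕ) + 1 + 1) * ex := by ring
      rw [h1]
      rcases Nat.lt_or_ge ((i : ℕ) + 1 + 1) p with h | h
      · exact eqt _ (by omega) h
      · have h2 : (i : ℕ) + 1 + 1 = p := by have := i.isLt; omega
        rw [h2]
        exact htop _ rfl
    · -- X Y^j
      show (μ t (y (Sum.inl a') ^ ((j : ℕ) + 1)), X *ᵥ (Y a' ^ ((j : ℕ) + 1) *ᵥ v)) ∈
        D (ex + ((j : ℕ) + 1) * ea a')
      rw [hμ, mul_pow_mulVec (hXY a')]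
      refine hLow _ _ (lowprod _ t (y (Sum.inl a')) 1 (-τ a') _ (by omega) ?_ ?_ ?_)
      · rw [hty, one_smul, neg_smul, sub_eq_add_neg]
        rfl
      · have := lowt (ex + ((j : ℕ) + 1) * ea a') 1 le_rfl (by omega) (by
          have := Nat.mul_pos (Nat.succ_pos (j : ℕ)) (hea a')
          rw [one_mul]
          exact Nat.lt_add_of_pos_right this)
        rwa [pow_one] at this
      · intro i hi1 hi2
        refine lowy _ a' i hi1 (by have := j.isLt; omega) ?_
        have := Nat.mul_le_mul_right (ea a') hi2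
        omega
    · -- Y v
      show (μ (y (Sum.inl a)) 1, Y a *ᵥ v) ∈ D (ea a + 0)
      have := eqy a 1 le_rfl (hq a)
      rw [pow_one, pow_one, one_mul] at this
      rw [hμ, mul_one, add_zero]
      exact this
    · -- Y E
      show (μ (y (Sum.inl a)) (y (Sum.inr g)), Y a *ᵥ E g) ∈ D (ea a + 0)
      have hd : τ a - σ g ≠ 0 := by
        intro h
        have : Sum.elim τ σ (Sum.inl a) = Sum.elim τ σ (Sum.inr g) := sub_eq_zero.1 h
        exact absurd (hinj this) (by simp)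
      have h1 := eqy a 1 le_rfl (hq a)
      rw [pow_one, pow_one, one_mul] at h1
      have h2 := hLow _ _ (lowg (ea a) g (hea a))
      have h3 := sub_mem (Submodule.smul_mem _ (τ a / (τ a - σ g)) h1)
        (Submodule.smul_mem _ (σ g / (τ a - σ g)) h2)
      rw [hμ, hYE, add_zero]
      have h4 : y (Sum.inl a) * y (Sum.inr g) =
          (τ a / (τ a - σ g)) • y (Sum.inl a) - (σ g / (τ a - σ g)) • y (Sum.inr g) := by
        have h5 := hyy (Sum.inl a) (Sum.inr g) (by simp)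
        have h6 : (τ a - σ g) • (y (Sum.inl a) * y (Sum.inr g)) =
            τ a • y (Sum.inl a) - σ g • y (Sum.inr g) := h5
        have h7 := congrArg (fun z => (τ a - σ g)⁻¹ • z) h6
        simp only [smul_smul, inv_mul_cancel₀ hd, one_smul, smul_sub] at h7
        rw [h7, div_eq_inv_mul, div_eq_inv_mul]
      rw [h4]
      have h8 : (τ a / (τ a - σ g)) • ((y (Sum.inl a), Y a *ᵥ v) : _ × (n → k)) -
          (σ g / (τ a - σ g)) • ((y (Sum.inr g), 0) : _ × (n → k)) =
          ((τ a / (τ a - σ g)) • y (Sum.inl a) - (σ g / (τ a - σ g)) • y (Sum.inr g),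
            (τ a / (τ a - σ g)) • (Y a *ᵥ v)) := by
        refine Prod.ext ?_ ?_
        · rfl
        · simp
      rw [h8] at h3
      exact h3
    · -- Y X^i
      show (μ (y (Sum.inl a)) (t ^ ((i : ℕ) + 1)), Y a *ᵥ (X ^ ((i : ℕ) + 1) *ᵥ v)) ∈
        D (ea a + ((i : ℕ) + 1) * ex)
      rw [hμ, mul_pow_mulVec (hYX a)]
      refine hLow _ _ (lowprod _ (y (Sum.inl a)) t (-τ a) 1 _ (by omega) ?_ ?_ ?_)
      · rw [mul_comm, hty, one_smul, neg_smul, sub_eq_add_neg, add_comm]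
        rfl
      · have := lowy (ea a + ((i : ℕ) + 1) * ex) a 1 le_rfl (hq a) (by
          have := Nat.mul_pos (Nat.succ_pos (i : ℕ)) hex
          rw [one_mul]
          exact Nat.lt_add_of_pos_right this)
        rwa [pow_one] at this
      · intro l hl1 hl2
        refine lowt _ l hl1 (by have := i.isLt; omega) ?_
        have := Nat.mul_le_mul_right ex hl2
        have := hea a
        omega
    · -- Y Y^j
      show (μ (y (Sum.inl a)) (y (Sum.inl a') ^ ((j : ℕ) + 1)), Y a *ᵥ (Y a' ^ ((j : ℕ) + 1) *ᵥ v)) ∈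
        D (ea a + ((j : ℕ) + 1) * ea a')
      rw [hμ]
      by_cases haa : a = a'
      · subst haa
        rw [← pow_succ', pow_mulVec]
        have h1 : ea a + ((j : ℕ) + 1) * ea a = ((j : ℕ) + 1 + 1) * ea a := by ring
        rw [h1]
        rcases Nat.lt_or_ge ((j : ℕ) + 1) (q a) with h | h
        · exact eqy a _ (by omega) h
        · rw [hYtop' a _ (by omega)]
          refine hLow _ _ (lowall _ _ ?_)
          rw [← hE a]
          exact Nat.mul_lt_mul_of_pos_right (by omega) (hea a)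
      · rw [mul_pow_mulVec (hYY a a' haa)]
        have hd : τ a - τ a' ≠ 0 := by
          intro h
          have : Sum.elim τ σ (Sum.inl a) = Sum.elim τ σ (Sum.inl a') := sub_eq_zero.1 h
          exact haa (Sum.inl_injective (hinj this))
        refine hLow _ _ (lowprod _ (y (Sum.inl a)) (y (Sum.inl a')) (τ a / (τ a - τ a'))
          (-(τ a' / (τ a - τ a'))) _ (by omega) ?_ ?_ ?_)
        · have h5 := hyy (Sum.inl a) (Sum.inl a') (by simpa using haa)
          have h6 : (τ a - τ a') • (y (Sum.inl a) * y (Sum.inl a')) =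
              τ a • y (Sum.inl a) - τ a' • y (Sum.inl a') := h5
          have h7 := congrArg (fun z => (τ a - τ a')⁻¹ • z) h6
          simp only [smul_smul, inv_mul_cancel₀ hd, one_smul, smul_sub] at h7
          rw [h7, div_eq_inv_mul, div_eq_inv_mul, neg_smul, sub_eq_add_neg]
        · have := lowy (ea a + ((j : ℕ) + 1) * ea a') a 1 le_rfl (hq a) (by
            have := Nat.mul_pos (Nat.succ_pos (j : ℕ)) (hea a')
            rw [one_mul]
            exact Nat.lt_add_of_pos_right this)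
          rwa [pow_one] at this
        · intro l hl1 hl2
          refine lowy _ a' l hl1 (by have := j.isLt; omega) ?_
          have := Nat.mul_le_mul_right (ea a') hl2
          have := hea a
          omega

/-- `Y a` may be multiplied by scalars -/
theorem scale {n α γ : Type*} [Fintype n] [DecidableEq n] [Fintype α] [DecidableEq α] [Fintype γ]
    [DecidableEq γ] [IsAlgClosed k] [Infinite k]
    (p : ℕ) (hp : 2 ≤ p) (q : α → ℕ) (hq : ∀ a, 1 ≤ q a) (τ : α → k) (σ : γ → k)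
    (hinj : Function.Injective (Sum.elim τ σ)) (hτ0 : ∀ a, τ a ≠ 0) (hσ0 : ∀ g, σ g ≠ 0)
    (hn : Fintype.card n = p + (∑ a, q a) + Fintype.card γ)
    (c : α → k) (hc : ∀ a, c a ≠ 0) (X : Matrix n n k) (Y : α → Matrix n n k) (v : n → k)
    (E : γ → n → k)
    (hXY : ∀ a, X * Y a = 0) (hYX : ∀ a, Y a * X = 0) (hYY : ∀ a b, a ≠ b → Y a * Y b = 0)
    (hXp : X ^ p *ᵥ v = ∑ a, c a • (Y a ^ q a *ᵥ v))
    (hXE : ∀ g, X *ᵥ E g = X *ᵥ v)
    (hYE : ∀ a g, Y a *ᵥ E g = (τ a / (τ a - σ g)) • (Y a *ᵥ v))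
    (hsp : ⊤ ≤ Submodule.span k ({v} ∪ Set.range E ∪ {x | ∃ i, x = X ^ (i + 1) *ᵥ v} ∪
        {x | ∃ a i, x = Y a ^ (i + 1) *ᵥ v}))
    (lam : Fin 3 → Option α → k) :
    Cl fun i => lam i none • X + ∑ a, lam i (some a) • Y a := by
  obtain ⟨β, hβ, hcore⟩ := core (n := n) p hp q hq τ σ hinj hτ0 hσ0 hn
  have hroot : ∀ a, ∃ μ : k, μ ^ q a = c a / β a := fun a =>
    IsAlgClosed.exists_pow_nat_eq _ (hq a)
  choose μ hμ using hroot
  have hμ0 : ∀ a, μ a ≠ 0 := by
    intro a h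
    have h1 := hμ a
    rw [h, zero_pow (by have := hq a; omega)] at h1
    exact div_ne_zero (hc a) (hβ a) h1.symm
  have h1 := hcore X (fun a => μ a • Y a) v E (fun a => by rw [mul_smul_comm, hXY, smul_zero])
    (fun a => by rw [smul_mul_assoc, hYX, smul_zero])
    (fun a b hab => by rw [smul_mul_smul_comm, hYY a b hab, smul_zero])
    (by
      rw [hXp]
      refine Finset.sum_congr rfl fun a _ => ?_
      rw [smul_pow, Matrix.smul_mulVec, smul_smul, hμ, mul_div_cancel₀ _ (hβ a)])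
    hXE (fun a g => by rw [Matrix.smul_mulVec, hYE, Matrix.smul_mulVec, smul_comm])
    (by
      refine hsp.trans (Submodule.span_le.2 ?_)
      rintro x (hx | ⟨a, i, rfl⟩)
      · exact Submodule.subset_span (Or.inl hx)
      · have h2 : Y a ^ (i + 1) *ᵥ v = ((μ a)⁻¹ ^ (i + 1)) • ((μ a • Y a) ^ (i + 1) *ᵥ v) := by
          rw [smul_pow, Matrix.smul_mulVec, smul_smul, ← mul_pow, inv_mul_cancel₀ (hμ0 a), one_pow,
            one_smul]
        rw [h2]
        exact Submodule.smul_mem _ _ (Submodule.subset_span (Or.inr ⟨a, i, rfl⟩)))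
    (fun i c => Option.elim c (lam i none) fun a => lam i (some a) * (μ a)⁻¹)
  have h2 : (fun i : Fin 3 => (Option.elim (none : Option α) (lam i none)
        fun a => lam i (some a) * (μ a)⁻¹) • X +
      ∑ a, (Option.elim (some a) (lam i none) fun a => lam i (some a) * (μ a)⁻¹) • μ a • Y a) =
      fun i => lam i none • X + ∑ a, lam i (some a) • Y a := by
    funext i
    simp only [Option.elim]
    congr 1
    refine Finset.sum_congr rfl fun a _ => ?_
    rw [smul_smul, mul_assoc, inv_mul_cancel₀ (hμ0 a), mul_one]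
  rw [h2] at h1
  exact h1

/-- distinct nonzero elements -/
theorem exists_inj (α : Type*) [Fintype α] [Infinite k] :
    ∃ τ : α → k, Function.Injective τ ∧ ∀ a, τ a ≠ 0 := by
  have h1 : Infinite {x : k // x ≠ 0} := by
    have : Set.Infinite {x : k | x ≠ 0} :=
      Set.Finite.infinite_compl (Set.finite_singleton (0 : k))
    exact this.to_subtype
  obtain ⟨f⟩ : Nonempty (α ↪ {x : k // x ≠ 0}) := by
    have h2 : Nonempty (α ↪ ℕ) := ⟨(Fintype.equivFin α).toEmbedding.trans Fin.valEmbedding⟩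
    obtain ⟨g⟩ := h2
    exact ⟨g.trans (Infinite.natEmbedding _)⟩
  exact ⟨fun a => (f a : k), fun a b h => f.injective (Subtype.ext h), fun a => (f a).2⟩

end AxesAux

/-- cyclic modules on several axes: `X Y_a = 0`, `Y_a Y_b = 0`, `X^p v = ∑ c_a Y_a^(q_a) v` with all
`c_a ≠ 0` -/
theorem cl_axes {n α : Type*} [Fintype n] [DecidableEq n] [Fintype α] [DecidableEq α]
    [IsAlgClosed k]
    (p : ℕ) (hp : 2 ≤ p) (q : α → ℕ) (hq : ∀ a, 1 ≤ q a)
    (hn : Fintype.card n = p + ∑ a, q a)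
    (c : α → k) (hc : ∀ a, c a ≠ 0) (X : Matrix n n k) (Y : α → Matrix n n k) (v : n → k)
    (hXY : ∀ a, X * Y a = 0) (hYX : ∀ a, Y a * X = 0) (hYY : ∀ a b, a ≠ b → Y a * Y b = 0)
    (hXp : X ^ p *ᵥ v = ∑ a, c a • (Y a ^ q a *ᵥ v))
    (hsp : ⊤ ≤ Submodule.span k ({v} ∪ {x | ∃ i, x = X ^ (i + 1) *ᵥ v} ∪
        {x | ∃ a i, x = Y a ^ (i + 1) *ᵥ v}))
    (lam : Fin 3 → Option α → k) :
    Cl fun i => lam i none • X + ∑ a, lam i (some a) • Y a := by
  obtain ⟨τ, hτ, hτ0⟩ := AxesAux.exists_inj (k := k) α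
  refine AxesAux.scale (γ := Empty) p hp q hq τ Empty.elim ?_ hτ0 (fun g => g.elim)
    (by rw [hn]; simp) c hc X Y v Empty.elim hXY hYX hYY hXp (fun g => g.elim)
    (fun a g => g.elim) ?_ lam
  · rintro (a | a) (b | b) h
    · rw [hτ h]
    · exact b.elim
    · exact a.elim
    · exact a.elim
  · refine hsp.trans (Submodule.span_mono ?_)
    refine Set.union_subset_union (Set.union_subset_union ?_ le_rfl) le_rfl
    exact Set.subset_union_left

/-- modules on several axes with two generators `v`, `u`: moreover `X u = l₀ X v`,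
`Y_a u = l_a Y_a v` with distinct `l₀, l_a` -/
theorem cl_axes_two {n α : Type*} [Fintype n] [DecidableEq n] [Fintype α] [DecidableEq α]
    [IsAlgClosed k]
    (p : ℕ) (hp : 2 ≤ p) (q : α → ℕ) (hq : ∀ a, 1 ≤ q a)
    (hn : Fintype.card n = p + (∑ a, q a) + 1)
    (c : α → k) (hc : ∀ a, c a ≠ 0) (X : Matrix n n k) (Y : α → Matrix n n k) (v u : n → k)
    (hXY : ∀ a, X * Y a = 0) (hYX : ∀ a, Y a * X = 0) (hYY : ∀ a b, a ≠ b → Y a * Y b = 0)
    (hXp : X ^ p *ᵥ v = ∑ a, c a • (Y a ^ q a *ᵥ v))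
    (l₀ : k) (l : α → k) (hl : Function.Injective l) (hl₀ : ∀ a, l a ≠ l₀)
    (hXu : X *ᵥ u = l₀ • (X *ᵥ v)) (hYu : ∀ a, Y a *ᵥ u = l a • (Y a *ᵥ v))
    (hsp : ⊤ ≤ Submodule.span k ({v} ∪ {u} ∪ {x | ∃ i, x = X ^ (i + 1) *ᵥ v} ∪
        {x | ∃ a i, x = Y a ^ (i + 1) *ᵥ v}))
    (lam : Fin 3 → Option α → k) :
    Cl fun i => lam i none • X + ∑ a, lam i (some a) • Y a := by
  have hfin : (Set.range (fun a => -(l a - l₀)⁻¹) ∪ {0}).Finite :=
    (Set.finite_range _).union (Set.finite_singleton 0)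
  obtain ⟨r, hr⟩ := hfin.exists_notMem
  simp only [Set.mem_union, Set.mem_singleton_iff, not_or, Set.mem_range, not_exists] at hr
  obtain ⟨hr1, hr0⟩ := hr
  have hd : ∀ a, l a - l₀ ≠ 0 := fun a => sub_ne_zero.2 (hl₀ a)
  have hrd : ∀ a, 1 + r * (l a - l₀) ≠ 0 := by
    intro a h
    apply hr1 a
    have := hd a
    field_simp
    linear_combination -h
  refine AxesAux.scale (γ := Unit) p hp q hq (fun a => 1 + (r * (l a - l₀))⁻¹) (fun _ => 1)
    ?_ ?_ (fun _ => one_ne_zero) (by rw [hn, Fintype.card_unit]) c hc X Y v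
    (fun _ => (1 - r * l₀) • v + r • u) hXY hYX hYY hXp ?_ ?_ ?_ lam
  · rintro (a | a) (b | b) h
    · have h1 : (r * (l a - l₀))⁻¹ = (r * (l b - l₀))⁻¹ := add_left_cancel h
      have h2 := inv_injective h1
      have h3 : l a = l b := by
        have := mul_left_cancel₀ hr0 h2
        linear_combination this
      rw [hl h3]
    · have h1 : (1 : k) + (r * (l a - l₀))⁻¹ = 1 := h
      exact absurd (by linear_combination h1) (inv_ne_zero (mul_ne_zero hr0 (hd a)))
    · have h1 : (1 : k) = 1 + (r * (l b - l₀))⁻¹ := h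
      exact absurd (by linear_combination -h1) (inv_ne_zero (mul_ne_zero hr0 (hd b)))
    · rfl
  · intro a h
    apply hrd a
    have h1 := mul_ne_zero hr0 (hd a)
    have h3 : r * (l a - l₀) * (1 + (r * (l a - l₀))⁻¹) = 0 := by
      have h4 : (1 : k) + (r * (l a - l₀))⁻¹ = 0 := h
      rw [h4, mul_zero]
    rw [mul_add, mul_one, mul_inv_cancel₀ h1] at h3
    linear_combination h3
  · intro _
    rw [Matrix.mulVec_add, Matrix.mulVec_smul, Matrix.mulVec_smul, hXu, smul_smul, ← add_smul]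
    rw [sub_add_cancel, one_smul]
  · intro a _
    rw [Matrix.mulVec_add, Matrix.mulVec_smul, Matrix.mulVec_smul, hYu, smul_smul, ← add_smul]
    congr 1
    have h1 := mul_ne_zero hr0 (hd a)
    have h2 : (1 : k) + (r * (l a - l₀))⁻¹ - 1 ≠ 0 := by
      rw [add_sub_cancel_left]
      exact inv_ne_zero h1
    rw [eq_div_iff h2, add_sub_cancel_left]
    have h5 : 1 - r * l₀ + r * l a = 1 + r * (l a - l₀) := by ring
    rw [h5, add_mul, one_mul, mul_inv_cancel₀ h1, add_comm]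
  · refine hsp.trans (Submodule.span_le.2 ?_)
    have hv : v ∈ Submodule.span k ({v} ∪ Set.range (fun _ : Unit => (1 - r * l₀) • v + r • u) ∪
        {x | ∃ i, x = X ^ (i + 1) *ᵥ v} ∪ {x | ∃ a i, x = Y a ^ (i + 1) *ᵥ v}) :=
      Submodule.subset_span (Or.inl (Or.inl (Or.inl rfl)))
    rintro x (((rfl | rfl) | hx) | hx)
    · exact hv
    · have h1 : (1 - r * l₀) • v + r • x ∈ Submodule.span k ({v} ∪
          Set.range (fun _ : Unit => (1 - r * l₀) • v + r • x) ∪
          {x | ∃ i, x = X ^ (i + 1) *ᵥ v} ∪ {x | ∃ a i, x = Y a ^ (i + 1) *ᵥ v}) :=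
        Submodule.subset_span (Or.inl (Or.inl (Or.inr ⟨(), rfl⟩)))
      have h2 := Submodule.smul_mem _ r⁻¹ (sub_mem h1 (Submodule.smul_mem _ (1 - r * l₀) hv))
      rw [add_sub_cancel_left, smul_smul, inv_mul_cancel₀ hr0, one_smul] at h2
      exact h2
    · exact Submodule.subset_span (Or.inl (Or.inr hx))
    · exact Submodule.subset_span (Or.inr hx)

/-- three axes, cyclic module (algebra `XY = XZ = YZ = 0`, `X^p = a Y^q + b Z^r`) -/
theorem cl_axes3 {n : Type*} [Fintype n] [DecidableEq n] [IsAlgClosed k]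
    (X Y Z : Matrix n n k) (v : n → k) {p q r : ℕ} (hp : 2 ≤ p) (hq : 1 ≤ q) (hr : 1 ≤ r)
    (hn : Fintype.card n = p + q + r)
    (hXY : X * Y = 0) (hYX : Y * X = 0) (hXZ : X * Z = 0) (hZX : Z * X = 0) (hYZ : Y * Z = 0)
    (hZY : Z * Y = 0) {a b : k} (ha : a ≠ 0) (hb : b ≠ 0)
    (hXp : X ^ p *ᵥ v = a • (Y ^ q *ᵥ v) + b • (Z ^ r *ᵥ v))
    (hsp : ⊤ ≤ Submodule.span k ({v} ∪ {x | ∃ i, x = X ^ (i + 1) *ᵥ v} ∪
      {x | ∃ i, x = Y ^ (i + 1) *ᵥ v} ∪ {x | ∃ i, x = Z ^ (i + 1) *ᵥ v}))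
    (lam : Fin 3 → Fin 3 → k) :
    Cl fun i => lam i 0 • X + lam i 1 • Y + lam i 2 • Z := by
  have h1 := cl_axes (α := Fin 2) p hp ![q, r] (by
      intro a; fin_cases a
      · exact hq
      · exact hr) (by rw [hn, Fin.sum_univ_two]; simp [add_assoc]) ![a, b] (by
      intro c; fin_cases c
      · exact ha
      · exact hb) X ![Y, Z] v (by
      intro a; fin_cases a
      · exact hXY
      · exact hXZ) (by
      intro a; fin_cases a
      · exact hYX
      · exact hZX) (by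
      intro a b hab
      fin_cases a <;> fin_cases b
      · exact absurd rfl hab
      · exact hYZ
      · exact hZY
      · exact absurd rfl hab) (by rw [hXp, Fin.sum_univ_two]; rfl) (by
      refine hsp.trans (Submodule.span_mono ?_)
      rintro x ((hx | ⟨i, rfl⟩) | ⟨i, rfl⟩)
      · exact Or.inl hx
      · exact Or.inr ⟨0, i, rfl⟩
      · exact Or.inr ⟨1, i, rfl⟩)
    (fun i c => Option.elim c (lam i 0) ![lam i 1, lam i 2])
  have h2 : (fun i : Fin 3 => (Option.elim (none : Option (Fin 2)) (lam i 0)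
      ![lam i 1, lam i 2]) • X +
      ∑ a : Fin 2, (Option.elim (some a) (lam i 0) ![lam i 1, lam i 2]) •
        (![Y, Z] : Fin 2 → Matrix n n k) a) = fun i => lam i 0 • X + lam i 1 • Y + lam i 2 • Z := by
    funext i
    rw [Fin.sum_univ_two]
    simp [add_assoc]
  rw [h2] at h1
  exact h1

/-- two axes, cyclic module (algebra `XY = 0`, `X^p = c Y^q`) -/
theorem cl_node {n : Type*} [Fintype n] [DecidableEq n] [IsAlgClosed k]
    (X Y : Matrix n n k) (v : n → k) {p q : ℕ} (hp : 2 ≤ p) (hq : 1 ≤ q)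
    (hn : Fintype.card n = p + q) (hXY : X * Y = 0) (hYX : Y * X = 0) {c : k} (hc : c ≠ 0)
    (hXp : X ^ p *ᵥ v = c • (Y ^ q *ᵥ v))
    (hsp : ⊤ ≤ Submodule.span k ({v} ∪ {x | ∃ i, x = X ^ (i + 1) *ᵥ v} ∪
      {x | ∃ i, x = Y ^ (i + 1) *ᵥ v}))
    (lam : Fin 3 → Fin 2 → k) :
    Cl fun i => lam i 0 • X + lam i 1 • Y := by
  have h1 := cl_axes (α := Unit) p hp (fun _ => q) (fun _ => hq) (by rw [hn]; simp)
    (fun _ => c) (fun _ => hc) X (fun _ => Y) v (fun _ => hXY) (fun _ => hYX)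
    (fun a b hab => absurd rfl hab) (by rw [hXp]; simp) (by
      refine hsp.trans (Submodule.span_mono ?_)
      rintro x (hx | ⟨i, rfl⟩)
      · exact Or.inl hx
      · exact Or.inr ⟨(), i, rfl⟩)
    (fun i c => Option.elim c (lam i 0) fun _ => lam i 1)
  have h2 : (fun i : Fin 3 => (Option.elim (none : Option Unit) (lam i 0)
      fun _ => lam i 1) • X +
      ∑ a : Unit, (Option.elim (some a) (lam i 0) fun _ => lam i 1) • Y) =
      fun i => lam i 0 • X + lam i 1 • Y := by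
    funext i
    simp
  rw [h2] at h1
  exact h1

/-- three axes, two generators `v`, `u` with `X u = l₀ X v`, `Y u = l₁ Y v`, `Z u = l₂ Z v` -/
theorem cl_axes3_two {n : Type*} [Fintype n] [DecidableEq n] [IsAlgClosed k]
    (X Y Z : Matrix n n k) (v u : n → k) {p q r : ℕ} (hp : 2 ≤ p) (hq : 1 ≤ q) (hr : 1 ≤ r)
    (hn : Fintype.card n = p + q + r + 1)
    (hXY : X * Y = 0) (hYX : Y * X = 0) (hXZ : X * Z = 0) (hZX : Z * X = 0) (hYZ : Y * Z = 0)
    (hZY : Z * Y = 0) {a b : k} (ha : a ≠ 0) (hb : b ≠ 0)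
    (hXp : X ^ p *ᵥ v = a • (Y ^ q *ᵥ v) + b • (Z ^ r *ᵥ v))
    {l₀ l₁ l₂ : k} (h01 : l₁ ≠ l₀) (h02 : l₂ ≠ l₀) (h12 : l₁ ≠ l₂)
    (hXu : X *ᵥ u = l₀ • (X *ᵥ v)) (hYu : Y *ᵥ u = l₁ • (Y *ᵥ v)) (hZu : Z *ᵥ u = l₂ • (Z *ᵥ v))
    (hsp : ⊤ ≤ Submodule.span k ({v} ∪ {u} ∪ {x | ∃ i, x = X ^ (i + 1) *ᵥ v} ∪
      {x | ∃ i, x = Y ^ (i + 1) *ᵥ v} ∪ {x | ∃ i, x = Z ^ (i + 1) *ᵥ v}))
    (lam : Fin 3 → Fin 3 → k) :
    Cl fun i => lam i 0 • X + lam i 1 • Y + lam i 2 • Z := by
  have h1 := cl_axes_two (α := Fin 2) p hp ![q, r] (by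
      intro a; fin_cases a
      · exact hq
      · exact hr) (by rw [hn, Fin.sum_univ_two]; simp [add_assoc]) ![a, b] (by
      intro c; fin_cases c
      · exact ha
      · exact hb) X ![Y, Z] v u (by
      intro a; fin_cases a
      · exact hXY
      · exact hXZ) (by
      intro a; fin_cases a
      · exact hYX
      · exact hZX) (by
      intro a b hab
      fin_cases a <;> fin_cases b
      · exact absurd rfl hab
      · exact hYZ
      · exact hZY
      · exact absurd rfl hab) (by rw [hXp, Fin.sum_univ_two]; rfl) l₀ ![l₁, l₂] (by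
      intro a b hab
      fin_cases a <;> fin_cases b
      · rfl
      · exact absurd hab h12
      · exact absurd hab.symm h12
      · rfl) (by
      intro a; fin_cases a
      · exact h01
      · exact h02) hXu (by
      intro a; fin_cases a
      · exact hYu
      · exact hZu) (by
      refine hsp.trans (Submodule.span_mono ?_)
      rintro x ((hx | ⟨i, rfl⟩) | ⟨i, rfl⟩)
      · exact Or.inl hx
      · exact Or.inr ⟨0, i, rfl⟩
      · exact Or.inr ⟨1, i, rfl⟩)
    (fun i c => Option.elim c (lam i 0) ![lam i 1, lam i 2])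
  have h2 : (fun i : Fin 3 => (Option.elim (none : Option (Fin 2)) (lam i 0)
      ![lam i 1, lam i 2]) • X +
      ∑ a : Fin 2, (Option.elim (some a) (lam i 0) ![lam i 1, lam i 2]) •
        (![Y, Z] : Fin 2 → Matrix n n k) a) = fun i => lam i 0 • X + lam i 1 • Y + lam i 2 • Z := by
    funext i
    rw [Fin.sum_univ_two]
    simp [add_assoc]
  rw [h2] at h1
  exact h1

end Pool.Agent.Lib.D8
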