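import Pool.Agent.Lib.D8.Two
import Pool.Agent.Lib.P166ae0.JordanBasis

/-!
# MP_5dcbc3_ag: commuting nilpotent triples such that some polynomial in the three matrices has
corank at most 2 are limits of curvilinear triples; all sizes
-/

namespace Pool.Agent.Lib.D8

open Matrix Polynomial Pool.Agent.Lib.Q5dc Pool.Agent.Lib.D7

variable {k : Type*} [Field k] {N : ℕ}

namespace CorankAux

/-- a nilpotent matrix of corank at most 2 is regular or has two Jordan blocks -/
theorem cases_corank {M : Matrix (Fin N) (Fin N) k} (hN : 0 < N) (hM : IsNilpotent M)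
    (hr : N ≤ M.rank + 2) :
    M ^ (N - 1) ≠ 0 ∨ ∃ v u b δ, Two.TwoB M v u b δ := by
  classical
  obtain ⟨p, hp⟩ := hM
  set D : (Fin N → k) →ₗ[k] (Fin N → k) := Matrix.toLin' M with hD
  have hDp : D ^ p = 0 := by
    have h1 : D ^ p = Matrix.toLin' (M ^ p) := by
      rw [hD]
      exact (map_pow (Matrix.toLinAlgEquiv' : Matrix (Fin N) (Fin N) k ≃ₐ[k] _) M p).symm
    rw [h1, hp, map_zero]
  obtain ⟨r, m, b, hm, hb⟩ := Pool.Agent.P166ae0.exists_jordan_basis D p hDp
  have hcard : ∑ a, m a = N := by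
    have h1 := Module.finrank_eq_card_basis b
    rw [Module.finrank_fin_fun, Fintype.card_sigma] at h1
    simp only [Fintype.card_fin] at h1
    exact h1.symm
  -- the number of blocks
  have hr2 : r ≤ 2 := by
    let f : Fin r → LinearMap.ker D := fun a => ⟨b ⟨a, ⟨m a - 1, by have := (hm a).1; omega⟩⟩, by
      rw [LinearMap.mem_ker, hb, dif_neg]
      show ¬ (m a - 1 + 1 < m a)
      omega⟩
    have hf : LinearIndependent k f := by
      have h1 : LinearIndependent k (fun a : Fin r => (f a : Fin N → k)) := by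
        refine b.linearIndependent.comp (fun a : Fin r => (⟨a, ⟨m a - 1, by
          have := (hm a).1; omega⟩⟩ : Σ a : Fin r, Fin (m a))) ?_
        intro a a' h
        exact congrArg Sigma.fst h
      exact LinearIndependent.of_comp (LinearMap.ker D).subtype h1
    have h1 := hf.fintype_card_le_finrank
    rw [Fintype.card_fin] at h1
    have h2 := LinearMap.finrank_range_add_finrank_ker D
    rw [Module.finrank_fin_fun] at h2
    have h3 : Module.finrank k (LinearMap.range D) = M.rank := rfl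
    rw [h3] at h2
    omega
  have hMD : ∀ w, M *ᵥ w = D w := fun w => (Matrix.toLin'_apply M w).symm
  -- powers
  have hpow : ∀ (a : Fin r) (i : ℕ) (hi : i < m a),
      M ^ i *ᵥ b ⟨a, ⟨0, (hm a).1⟩⟩ = b ⟨a, ⟨i, hi⟩⟩ := by
    intro a i
    induction i with
    | zero => intro hi; rw [pow_zero, Matrix.one_mulVec]
    | succ i ih =>
      intro hi
      rw [pow_succ', ← Matrix.mulVec_mulVec, ih (by omega), hMD, hb, dif_pos hi]
  have hend : ∀ a : Fin r, M ^ m a *ᵥ b ⟨a, ⟨0, (hm a).1⟩⟩ = 0 := by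
    intro a
    have h1 : M ^ m a = M * M ^ (m a - 1) := by
      rw [← pow_succ']
      congr 1
      have := (hm a).1
      omega
    rw [h1, ← Matrix.mulVec_mulVec, hpow a (m a - 1) (by have := (hm a).1; omega), hMD, hb,
      dif_neg]
    show ¬ (m a - 1 + 1 < m a)
    omega
  have hmk : ∀ a₀ a₁ : Fin r, a₀ ≠ a₁ → (∀ a, a = a₀ ∨ a = a₁) → m a₁ ≤ m a₀ →
      ∃ v u b δ, Two.TwoB M v u b δ := by
    intro a₀ a₁ hne hall hle
    obtain ⟨δ, hδ⟩ : ∃ δ, m a₀ = m a₁ + δ := ⟨m a₀ - m a₁, by omega⟩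
    refine ⟨b ⟨a₀, ⟨0, (hm a₀).1⟩⟩, b ⟨a₁, ⟨0, (hm a₁).1⟩⟩, m a₁, δ, (hm a₁).1, ?_, ?_, hend a₁, ?_⟩
    · have h1 : (Finset.univ : Finset (Fin r)) = {a₀, a₁} := by
        ext a
        simp only [Finset.mem_univ, Finset.mem_insert, Finset.mem_singleton, true_iff]
        exact hall a
      rw [← hcard, h1, Finset.sum_pair hne, hδ]
    · rw [← hδ]
      exact hend a₀
    · intro w
      let S : Submodule k (Fin N → k) :=
        { carrier := {w | ∃ z, w = Two.pi M (b ⟨a₀, ⟨0, (hm a₀).1⟩⟩) (b ⟨a₁, ⟨0, (hm a₁).1⟩⟩) z}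
          zero_mem' := ⟨0, Two.pi_zero.symm⟩
          add_mem' := by
            rintro _ _ ⟨z, rfl⟩ ⟨z', rfl⟩
            exact ⟨z + z', (Two.pi_add z z').symm⟩
          smul_mem' := by
            rintro r _ ⟨z, rfl⟩
            exact ⟨r • z, (Two.pi_csmul r z).symm⟩ }
      have hbS : ∀ x, b x ∈ S := by
        rintro ⟨a, i⟩
        rcases hall a with rfl | rfl
        · refine ⟨![X ^ (i : ℕ), 0], ?_⟩
          simp only [Two.pi, Matrix.cons_val_zero, Matrix.cons_val_one, map_pow, aeval_X, map_zero,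
            Matrix.zero_mulVec, add_zero]
          rw [hpow a i i.2]
        · refine ⟨![0, X ^ (i : ℕ)], ?_⟩
          simp only [Two.pi, Matrix.cons_val_zero, Matrix.cons_val_one, map_pow, aeval_X, map_zero,
            Matrix.zero_mulVec, zero_add]
          rw [hpow a i i.2]
      have h2 : (⊤ : Submodule k (Fin N → k)) ≤ S := by
        rw [← b.span_eq]
        refine Submodule.span_le.2 ?_
        rintro _ ⟨x, rfl⟩
        exact hbS x
      exact h2 trivial
  have hr0 : r ≠ 0 := by
    rintro rfl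
    rw [Finset.univ_eq_empty, Finset.sum_empty] at hcard
    omega
  rcases Nat.lt_or_ge r 2 with h1 | h1
  · -- one block
    left
    obtain rfl : r = 1 := by omega
    intro h0
    have h2 : m 0 = N := by rw [← hcard, Fin.sum_univ_one]
    have h3 := hpow 0 (m 0 - 1) (by have := (hm 0).1; omega)
    have h4 : M ^ (m 0 - 1) = 0 := by rw [h2]; exact h0
    rw [h4, Matrix.zero_mulVec] at h3
    exact b.ne_zero _ h3.symm
  · right
    obtain rfl : r = 2 := by omega
    have hall : ∀ a : Fin 2, a = 0 ∨ a = 1 := by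
      intro a
      fin_cases a
      · exact Or.inl rfl
      · exact Or.inr rfl
    rcases le_total (m 1) (m 0) with h2 | h2
    · exact hmk 0 1 (by decide) hall h2
    · exact hmk 1 0 (by decide) (fun a => (hall a).symm) h2

end CorankAux

/-- a triple whose first matrix has corank at most 2 -/
theorem cl_corank_zero [IsAlgClosed k] [CharZero k] {T : Fin 3 → Matrix (Fin N) (Fin N) k}
    (hN : 0 < N) (hT : CN T) (hr : N ≤ (T 0).rank + 2) : Cl T := by
  rcases CorankAux.cases_corank hN (hT.2 0) hr with h | ⟨v, u, b, δ, h⟩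
  · exact cl_of_pow hN hT (mem_adj T 0) h
  · have h1 := Two.cl_two h (hT.1 0 1) (hT.1 0 2) (hT.1 1 2) (hT.2 1) (hT.2 2)
    have h2 : ![T 0, T 1, T 2] = T := by
      funext i
      fin_cases i <;> rfl
    rwa [h2] at h1

/-- a commuting nilpotent triple such that some polynomial in its matrices has corank at most 2
is a limit of curvilinear triples -/
theorem cl_corank [IsAlgClosed k] [CharZero k] {T : Fin 3 → Matrix (Fin N) (Fin N) k}
    (hN : 0 < N) (hT : CN T) {M : Matrix (Fin N) (Fin N) k} (hM : M ∈ adj T)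
    (hr : N ≤ M.rank + 2) : Cl T := by
  obtain ⟨y, hy⟩ := mem_adj_lin hM
  have hf1 := rank_semicont (fun s => M + s • T 0) (isPoly_line M (T 0)) 0
  obtain ⟨s, hs⟩ := (hf1.union (Set.finite_singleton (-y 0))).exists_notMem
  simp only [Set.mem_union, not_or, Set.mem_singleton_iff, Set.mem_ofPred_eq, not_lt, zero_smul,
    add_zero] at hs
  obtain ⟨h1, h2⟩ := hs
  have hy0 : y 0 + s ≠ 0 := fun h3 => h2 (by linear_combination h3)
  have hA : M + s • T 0 ∈ adj T := add_mem hM (SMulMemClass.smul_mem s (mem_adj T 0))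
  let T' : Fin 3 → Matrix (Fin N) (Fin N) k := ![M + s • T 0, T 1, T 2]
  have hT'mem : ∀ i, T' i ∈ adj T := by
    intro i
    fin_cases i
    · exact hA
    · exact mem_adj T 1
    · exact mem_adj T 2
  have hback : ∀ i, T i ∈ adj T' := by
    refine adj_nak hT hT'mem fun i => ?_
    fin_cases i
    · refine ⟨(y 0 + s)⁻¹ • (T' 0 - y 1 • T' 1 - y 2 • T' 2), ?_, ?_⟩
      · exact SMulMemClass.smul_mem _ (sub_mem (sub_mem (mem_adj T' 0)
          (SMulMemClass.smul_mem _ (mem_adj T' 1))) (SMulMemClass.smul_mem _ (mem_adj T' 2)))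
      · have h3 : T 0 - (y 0 + s)⁻¹ • (T' 0 - y 1 • T' 1 - y 2 • T' 2) =
            (-(y 0 + s)⁻¹) • (M - ∑ j, y j • T j) := by
          have h4 : T' 0 = M + s • T 0 := rfl
          have h5 : T' 1 = T 1 := rfl
          have h6 : T' 2 = T 2 := rfl
          rw [h4, h5, h6, Fin.sum_univ_three]
          have h7 : T 0 = (y 0 + s)⁻¹ • (y 0 + s) • T 0 := by
            rw [smul_smul, inv_mul_cancel₀ hy0, one_smul]
          conv_lhs =>
            lhs
            rw [h7]
          module
        have h9 := Submodule.smul_mem _ (-(y 0 + s)⁻¹) hy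
        rw [← h3] at h9
        exact h9
    · exact ⟨T' 1, mem_adj T' 1, by
        have : T 1 - T' 1 = 0 := sub_self _
        show T 1 - T' 1 ∈ _
        rw [this]; exact zero_mem _⟩
    · exact ⟨T' 2, mem_adj T' 2, by
        have : T 2 - T' 2 = 0 := sub_self _
        show T 2 - T' 2 ∈ _
        rw [this]; exact zero_mem _⟩
  have hcn' : CN T' := hT.of_adj hT'mem
  refine cl_of_adj hback (cl_corank_zero hN hcn' ?_)
  exact hr.trans (Nat.add_le_add_right h1 2)

/-- all polynomials in the matrices of a bad triple have corank at least 3 -/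
theorem MaxR.corank [IsAlgClosed k] [CharZero k] {ρ : ℕ → ℕ} {T : Fin 3 → Matrix (Fin N) (Fin N) k}
    (hT : MaxR ρ T) (hN : 0 < N) {M : Matrix (Fin N) (Fin N) k} (hM : M ∈ adj T) :
    M.rank + 3 ≤ N := by
  by_contra h
  exact hT.ncl (cl_corank hN hT.cn hM (by omega))

end Pool.Agent.Lib.D8
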