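import Pool.Agent.Lib.D7.Defs
import Pool.Agent.Lib.D7.DefsS

/-!
# MP_5dcbc3_ag: commuting nilpotent triples of 8 x 8 matrices: Jordan matrices, matrices commuting with them

The Jordan matrices of hook type are `D7.JhN k 8 a`, `a = 6, 5, 4, 3`.
-/

namespace Pool.Agent.Lib.D8

/-- Jordan matrix of type `(8)` -/
def J8 (k : Type*) [Field k] : Matrix (Fin 8) (Fin 8) k :=
  !![0, 0, 0, 0, 0, 0, 0, 0;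
     1, 0, 0, 0, 0, 0, 0, 0;
     0, 1, 0, 0, 0, 0, 0, 0;
     0, 0, 1, 0, 0, 0, 0, 0;
     0, 0, 0, 1, 0, 0, 0, 0;
     0, 0, 0, 0, 1, 0, 0, 0;
     0, 0, 0, 0, 0, 1, 0, 0;
     0, 0, 0, 0, 0, 0, 1, 0]

/-- Jordan matrix of type `(7, 1)` -/
def J71 (k : Type*) [Field k] : Matrix (Fin 8) (Fin 8) k :=
  !![0, 0, 0, 0, 0, 0, 0, 0;
     1, 0, 0, 0, 0, 0, 0, 0;
     0, 1, 0, 0, 0, 0, 0, 0;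
     0, 0, 1, 0, 0, 0, 0, 0;
     0, 0, 0, 1, 0, 0, 0, 0;
     0, 0, 0, 0, 1, 0, 0, 0;
     0, 0, 0, 0, 0, 1, 0, 0;
     0, 0, 0, 0, 0, 0, 0, 0]

/-- Jordan matrix of type `(6, 2)` -/
def J62 (k : Type*) [Field k] : Matrix (Fin 8) (Fin 8) k :=
  !![0, 0, 0, 0, 0, 0, 0, 0;
     1, 0, 0, 0, 0, 0, 0, 0;
     0, 1, 0, 0, 0, 0, 0, 0;
     0, 0, 1, 0, 0, 0, 0, 0;
     0, 0, 0, 1, 0, 0, 0, 0;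
     0, 0, 0, 0, 1, 0, 0, 0;
     0, 0, 0, 0, 0, 0, 0, 0;
     0, 0, 0, 0, 0, 0, 1, 0]

/-- Jordan matrix of type `(5, 3)` -/
def J53 (k : Type*) [Field k] : Matrix (Fin 8) (Fin 8) k :=
  !![0, 0, 0, 0, 0, 0, 0, 0;
     1, 0, 0, 0, 0, 0, 0, 0;
     0, 1, 0, 0, 0, 0, 0, 0;
     0, 0, 1, 0, 0, 0, 0, 0;
     0, 0, 0, 1, 0, 0, 0, 0;
     0, 0, 0, 0, 0, 0, 0, 0;
     0, 0, 0, 0, 0, 1, 0, 0;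
     0, 0, 0, 0, 0, 0, 1, 0]

/-- Jordan matrix of type `(5, 2, 1)` -/
def J521 (k : Type*) [Field k] : Matrix (Fin 8) (Fin 8) k :=
  !![0, 0, 0, 0, 0, 0, 0, 0;
     1, 0, 0, 0, 0, 0, 0, 0;
     0, 1, 0, 0, 0, 0, 0, 0;
     0, 0, 1, 0, 0, 0, 0, 0;
     0, 0, 0, 1, 0, 0, 0, 0;
     0, 0, 0, 0, 0, 0, 0, 0;
     0, 0, 0, 0, 0, 1, 0, 0;
     0, 0, 0, 0, 0, 0, 0, 0]

/-- Jordan matrix of type `(4, 4)` -/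
def J44 (k : Type*) [Field k] : Matrix (Fin 8) (Fin 8) k :=
  !![0, 0, 0, 0, 0, 0, 0, 0;
     1, 0, 0, 0, 0, 0, 0, 0;
     0, 1, 0, 0, 0, 0, 0, 0;
     0, 0, 1, 0, 0, 0, 0, 0;
     0, 0, 0, 0, 0, 0, 0, 0;
     0, 0, 0, 0, 1, 0, 0, 0;
     0, 0, 0, 0, 0, 1, 0, 0;
     0, 0, 0, 0, 0, 0, 1, 0]

/-- Jordan matrix of type `(4, 3, 1)` -/
def J431 (k : Type*) [Field k] : Matrix (Fin 8) (Fin 8) k :=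
  !![0, 0, 0, 0, 0, 0, 0, 0;
     1, 0, 0, 0, 0, 0, 0, 0;
     0, 1, 0, 0, 0, 0, 0, 0;
     0, 0, 1, 0, 0, 0, 0, 0;
     0, 0, 0, 0, 0, 0, 0, 0;
     0, 0, 0, 0, 1, 0, 0, 0;
     0, 0, 0, 0, 0, 1, 0, 0;
     0, 0, 0, 0, 0, 0, 0, 0]

/-- Jordan matrix of type `(4, 2, 2)` -/
def J422 (k : Type*) [Field k] : Matrix (Fin 8) (Fin 8) k :=
  !![0, 0, 0, 0, 0, 0, 0, 0;
     1, 0, 0, 0, 0, 0, 0, 0;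
     0, 1, 0, 0, 0, 0, 0, 0;
     0, 0, 1, 0, 0, 0, 0, 0;
     0, 0, 0, 0, 0, 0, 0, 0;
     0, 0, 0, 0, 1, 0, 0, 0;
     0, 0, 0, 0, 0, 0, 0, 0;
     0, 0, 0, 0, 0, 0, 1, 0]

/-- Jordan matrix of type `(4, 2, 1, 1)` -/
def J4211 (k : Type*) [Field k] : Matrix (Fin 8) (Fin 8) k :=
  !![0, 0, 0, 0, 0, 0, 0, 0;
     1, 0, 0, 0, 0, 0, 0, 0;
     0, 1, 0, 0, 0, 0, 0, 0;
     0, 0, 1, 0, 0, 0, 0, 0;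
     0, 0, 0, 0, 0, 0, 0, 0;
     0, 0, 0, 0, 1, 0, 0, 0;
     0, 0, 0, 0, 0, 0, 0, 0;
     0, 0, 0, 0, 0, 0, 0, 0]

/-- Jordan matrix of type `(3, 3, 2)` -/
def J332 (k : Type*) [Field k] : Matrix (Fin 8) (Fin 8) k :=
  !![0, 0, 0, 0, 0, 0, 0, 0;
     1, 0, 0, 0, 0, 0, 0, 0;
     0, 1, 0, 0, 0, 0, 0, 0;
     0, 0, 0, 0, 0, 0, 0, 0;
     0, 0, 0, 1, 0, 0, 0, 0;
     0, 0, 0, 0, 1, 0, 0, 0;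
     0, 0, 0, 0, 0, 0, 0, 0;
     0, 0, 0, 0, 0, 0, 1, 0]

/-- Jordan matrix of type `(3, 3, 1, 1)` -/
def J3311 (k : Type*) [Field k] : Matrix (Fin 8) (Fin 8) k :=
  !![0, 0, 0, 0, 0, 0, 0, 0;
     1, 0, 0, 0, 0, 0, 0, 0;
     0, 1, 0, 0, 0, 0, 0, 0;
     0, 0, 0, 0, 0, 0, 0, 0;
     0, 0, 0, 1, 0, 0, 0, 0;
     0, 0, 0, 0, 1, 0, 0, 0;
     0, 0, 0, 0, 0, 0, 0, 0;
     0, 0, 0, 0, 0, 0, 0, 0]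

/-- Jordan matrix of type `(3, 2, 2, 1)` -/
def J3221 (k : Type*) [Field k] : Matrix (Fin 8) (Fin 8) k :=
  !![0, 0, 0, 0, 0, 0, 0, 0;
     1, 0, 0, 0, 0, 0, 0, 0;
     0, 1, 0, 0, 0, 0, 0, 0;
     0, 0, 0, 0, 0, 0, 0, 0;
     0, 0, 0, 1, 0, 0, 0, 0;
     0, 0, 0, 0, 0, 0, 0, 0;
     0, 0, 0, 0, 0, 1, 0, 0;
     0, 0, 0, 0, 0, 0, 0, 0]

/-- Jordan matrix of type `(3, 2, 1, 1, 1)` -/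
def J32111 (k : Type*) [Field k] : Matrix (Fin 8) (Fin 8) k :=
  !![0, 0, 0, 0, 0, 0, 0, 0;
     1, 0, 0, 0, 0, 0, 0, 0;
     0, 1, 0, 0, 0, 0, 0, 0;
     0, 0, 0, 0, 0, 0, 0, 0;
     0, 0, 0, 1, 0, 0, 0, 0;
     0, 0, 0, 0, 0, 0, 0, 0;
     0, 0, 0, 0, 0, 0, 0, 0;
     0, 0, 0, 0, 0, 0, 0, 0]

/-- `v0 -> c u0, u0 -> b v6 (v0..v6 = 0..6, u0 = 7)` -/
def B71 {k : Type*} [Field k] (c b : k) :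
    Matrix (Fin 8) (Fin 8) k :=
  !![0, 0, 0, 0, 0, 0, 0, 0;
     0, 0, 0, 0, 0, 0, 0, 0;
     0, 0, 0, 0, 0, 0, 0, 0;
     0, 0, 0, 0, 0, 0, 0, 0;
     0, 0, 0, 0, 0, 0, 0, 0;
     0, 0, 0, 0, 0, 0, 0, 0;
     0, 0, 0, 0, 0, 0, 0, b;
     c, 0, 0, 0, 0, 0, 0, 0]

/-- `v0 -> c0 u0 + c1 u1, v1 -> c0 u1, u0 -> b0 v4 + b1 v5 + q1 u1, u1 -> b0 v5 (v0..v5 = 0..5, u0, u1 = 6, 7)` -/
def B62 {k : Type*} [Field k] (b0 b1 c0 c1 q1 : k) :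
    Matrix (Fin 8) (Fin 8) k :=
  !![0, 0, 0, 0, 0, 0, 0, 0;
     0, 0, 0, 0, 0, 0, 0, 0;
     0, 0, 0, 0, 0, 0, 0, 0;
     0, 0, 0, 0, 0, 0, 0, 0;
     0, 0, 0, 0, 0, 0, b0, 0;
     0, 0, 0, 0, 0, 0, b1, b0;
     c0, 0, 0, 0, 0, 0, 0, 0;
     c1, c0, 0, 0, 0, 0, q1, 0]

/-- `v0 -> c0 u0 + c1 u1 + c2 u2, v1 -> c0 u1 + c1 u2, v2 -> c0 u2, u0 -> b0 v2 + b1 v3 + b2 v4 + q1 u1 + q2 u2, u1 -> b0 v3 + b1 v4 + q1 u2, u2 -> b0 v4 (v0..v4 = 0..4, u0, u1, u2 = 5, 6, 7)` -/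
def B53 {k : Type*} [Field k] (b0 b1 b2 c0 c1 c2 q1 q2 : k) :
    Matrix (Fin 8) (Fin 8) k :=
  !![0, 0, 0, 0, 0, 0, 0, 0;
     0, 0, 0, 0, 0, 0, 0, 0;
     0, 0, 0, 0, 0, b0, 0, 0;
     0, 0, 0, 0, 0, b1, b0, 0;
     0, 0, 0, 0, 0, b2, b1, b0;
     c0, 0, 0, 0, 0, 0, 0, 0;
     c1, c0, 0, 0, 0, q1, 0, 0;
     c2, c1, c0, 0, 0, q2, q1, 0]

/-- `v -> a0 v + c u, u -> b v + q u with b = b0 + b1 x + .., x = J44 (v0..v3 = 0..3, u0..u3 = 4..7)` -/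
def B44 {k : Type*} [Field k] (a0 b0 b1 b2 b3 c0 c1 c2 c3 q0 q1 q2 q3 : k) :
    Matrix (Fin 8) (Fin 8) k :=
  !![a0, 0, 0, 0, b0, 0, 0, 0;
     0, a0, 0, 0, b1, b0, 0, 0;
     0, 0, a0, 0, b2, b1, b0, 0;
     0, 0, 0, a0, b3, b2, b1, b0;
     c0, 0, 0, 0, q0, 0, 0, 0;
     c1, c0, 0, 0, q1, q0, 0, 0;
     c2, c1, c0, 0, q2, q1, q0, 0;
     c3, c2, c1, c0, q3, q2, q1, q0]

/-- `v0 -> al u0 + al1 u1 + om p, v1 -> al u1, u0 -> be v3 + be1 v4 + ga u1 + pi p, u1 -> be v4, p -> th v4 + et u1 (v0..v4 = 0..4, u0, u1 = 5, 6, p = 7)` -/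
def B521 {k : Type*} [Field k] (al al1 om be be1 ga pi th et : k) :
    Matrix (Fin 8) (Fin 8) k :=
  !![0, 0, 0, 0, 0, 0, 0, 0;
     0, 0, 0, 0, 0, 0, 0, 0;
     0, 0, 0, 0, 0, 0, 0, 0;
     0, 0, 0, 0, 0, be, 0, 0;
     0, 0, 0, 0, 0, be1, be, th;
     al, 0, 0, 0, 0, 0, 0, 0;
     al1, al, 0, 0, 0, ga, 0, et;
     om, 0, 0, 0, 0, pi, 0, 0]

/-- `v0 -> c0 u0 + c1 u1 + c2 u2 + om p, v1 -> c0 u1 + c1 u2, v2 -> c0 u2, u0 -> b0 v1 + b1 v2 + b2 v3 + q1 u1 + q2 u2 + pi p, u1 -> b0 v2 + b1 v3 + q1 u2, u2 -> b0 v3, p -> th v3 + et u2 (v0..v3 = 0..3, u0, u1, u2 = 4, 5, 6, p = 7)` -/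
def B431 {k : Type*} [Field k] (b0 b1 b2 c0 c1 c2 q1 q2 om pi th et : k) :
    Matrix (Fin 8) (Fin 8) k :=
  !![0, 0, 0, 0, 0, 0, 0, 0;
     0, 0, 0, 0, b0, 0, 0, 0;
     0, 0, 0, 0, b1, b0, 0, 0;
     0, 0, 0, 0, b2, b1, b0, th;
     c0, 0, 0, 0, 0, 0, 0, 0;
     c1, c0, 0, 0, q1, 0, 0, 0;
     c2, c1, c0, 0, q2, q1, 0, et;
     om, 0, 0, 0, pi, 0, 0, 0]

/-- `v0 -> a0 u0 + a1 w0 + c0 u1 + c1 w1, v1 -> a0 u1 + a1 w1, u0 -> b0 v2 + d0 v3 + n00 u1 + n10 w1 + z00 u0 + z10 w0, u1 -> b0 v3 + z00 u1 + z10 w1, w0 -> b1 v2 + d1 v3 + n01 u1 + n11 w1 + z01 u0 + z11 w0, w1 -> b1 v3 + z01 u1 + z11 w1 (v0..v3 = 0..3, u0, u1 = 4, 5, w0, w1 = 6, 7)` -/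
def B422 {k : Type*} [Field k] (a0 a1 c0 c1 b0 b1 d0 d1 n00 n01 n10 n11 z00 z01 z10 z11 : k) :
    Matrix (Fin 8) (Fin 8) k :=
  !![0, 0, 0, 0, 0, 0, 0, 0;
     0, 0, 0, 0, 0, 0, 0, 0;
     0, 0, 0, 0, b0, 0, b1, 0;
     0, 0, 0, 0, d0, b0, d1, b1;
     a0, 0, 0, 0, z00, 0, z01, 0;
     c0, a0, 0, 0, n00, z00, n01, z01;
     a1, 0, 0, 0, z10, 0, z11, 0;
     c1, a1, 0, 0, n10, z10, n11, z11]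

end Pool.Agent.Lib.D8
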