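import Pool.Agent.Lib.D8.Ta21C
import Pool.Agent.Lib.D8.Defs

/-!
# MP_5dcbc3_ag: commuting nilpotent triples containing a matrix of Jordan type `(a, 2, 1)`, `a ≥ 5`,
are limits of curvilinear triples
-/

namespace Pool.Agent.Lib.D8

open Matrix Polynomial Pool.Agent.Lib.Q5dc Pool.Agent.Lib.D7

variable {k : Type*} [Field k]

namespace Ta21

variable {m : ℕ}

theorem lin (a b : k) : D7.IsPoly fun s : k => a + s * (b - a) :=
  (D7.IsPoly.const a).add (D7.IsPoly.id.mul (D7.IsPoly.const _))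

/-- the case `be = pi = 0`, normal form -/
theorem g_norm [IsAlgClosed k] [CharZero k] (al1 al1' be1 ga b g th et : k) :
    G m ![1, al1, 0, 0, be1, ga, 0, b, g] ![0, al1', 1, 0, b, g, 0, th, et] := by
  -- the line to the point `ga = et = b = 1`, `be1 = g = th = 0`
  obtain ⟨be1s, hbe1⟩ : ∃ f : k → k, f = fun s => be1 + s * (0 - be1) := ⟨_, rfl⟩
  obtain ⟨gas, hga⟩ : ∃ f : k → k, f = fun s => ga + s * (1 - ga) := ⟨_, rfl⟩
  obtain ⟨bs, hb⟩ : ∃ f : k → k, f = fun s => b + s * (1 - b) := ⟨_, rfl⟩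
  obtain ⟨gs, hg⟩ : ∃ f : k → k, f = fun s => g + s * (0 - g) := ⟨_, rfl⟩
  obtain ⟨ths, hth⟩ : ∃ f : k → k, f = fun s => th + s * (0 - th) := ⟨_, rfl⟩
  obtain ⟨ets, het⟩ : ∃ f : k → k, f = fun s => et + s * (1 - et) := ⟨_, rfl⟩
  have p1 : D7.IsPoly be1s := by rw [hbe1]; exact lin _ _
  have p2 : D7.IsPoly gas := by rw [hga]; exact lin _ _
  have p3 : D7.IsPoly bs := by rw [hb]; exact lin _ _
  have p4 : D7.IsPoly gs := by rw [hg]; exact lin _ _
  have p5 : D7.IsPoly ths := by rw [hth]; exact lin _ _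
  have p6 : D7.IsPoly ets := by rw [het]; exact lin _ _
  have v1 : be1s 1 = 0 := by rw [hbe1]; ring
  have v2 : gas 1 = 1 := by rw [hga]; ring
  have v3 : bs 1 = 1 := by rw [hb]; ring
  have v4 : gs 1 = 0 := by rw [hg]; ring
  have v5 : ths 1 = 0 := by rw [hth]; ring
  have v6 : ets 1 = 1 := by rw [het]; ring
  have q0 : D7.IsPoly fun s => P0 (gas s) (gs s) (ets s) := (p2.mul p6).sub (p4.pow 2)
  have q1 : D7.IsPoly fun s => P1 (bs s) (gs s) (ths s) (ets s) := (p4.mul p5).sub (p6.mul p3)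
  have q2 : D7.IsPoly fun s => P2 (be1s s) (gas s) (ths s) (ets s) := (p6.mul p1).sub (p2.mul p5)
  have q3 : D7.IsPoly fun s => P3 (be1s s) (gas s) (bs s) (gs s) := (p2.mul p3).sub (p4.mul p1)
  have qd : D7.IsPoly fun s => Pd (P1 (bs s) (gs s) (ths s) (ets s))
      (P2 (be1s s) (gas s) (ths s) (ets s)) (P3 (be1s s) (gas s) (bs s) (gs s)) :=
    (q2.pow 2).sub ((D7.IsPoly.const 4).mul (q1.mul q3))
  have qr : D7.IsPoly fun s => Pr (P1 (bs s) (gs s) (ths s) (ets s))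
      (P2 (be1s s) (gas s) (ths s) (ets s)) (P3 (be1s s) (gas s) (bs s) (gs s))
      (gas s) (gs s) (ets s) :=
    (((q1.mul p2).sub (q3.mul p6)).pow 2).add
      (((((D7.IsPoly.const 2).mul p4).mul q1).add (q2.mul p6)).mul
        ((q2.mul p2).add (((D7.IsPoly.const 2).mul p4).mul q3)))
  have F0 := q0.finite (s₁ := 1) (by
    simp only [v2, v4, v6, P0]; norm_num)
  have F1 := q1.finite (s₁ := 1) (by
    simp only [v3, v4, v5, v6, P1]; norm_num)
  have F2 := qd.finite (s₁ := 1) (by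
    simp only [v1, v2, v3, v4, v5, v6, P1, P2, P3, Pd]; norm_num)
  have F3 := qr.finite (s₁ := 1) (by
    simp only [v1, v2, v3, v4, v5, v6, P1, P2, P3, Pr]; norm_num)
  refine G.line ![0, 0, 0, 0, 0 - be1, 1 - ga, 0, 1 - b, 0 - g]
    ![0, 0, 0, 0, 1 - b, 0 - g, 0, 0 - th, 1 - et] (((F0.union F1).union F2).union F3) ?_
  intro s hs
  simp only [Set.mem_union, not_or, Set.mem_ofPred_eq] at hs
  obtain ⟨⟨⟨h0, h1⟩, h2⟩, h3⟩ := hs
  have := g_gen (m := m) (al1 := al1) (al1' := al1') rfl rfl rfl h0 h1 h2 h3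
  have e1 : (![1, al1, 0, 0, be1, ga, 0, b, g] + s • ![0, 0, 0, 0, 0 - be1, 1 - ga, 0, 1 - b, 0 - g] :
      Fin 9 → k) = ![1, al1, 0, 0, be1s s, gas s, 0, bs s, gs s] := by
    rw [hbe1, hga, hb, hg]
    funext i
    fin_cases i <;> simp
  have e2 : (![0, al1', 1, 0, b, g, 0, th, et] + s • ![0, 0, 0, 0, 1 - b, 0 - g, 0, 0 - th, 1 - et] :
      Fin 9 → k) = ![0, al1', 1, 0, bs s, gs s, 0, ths s, ets s] := by
    rw [hb, hg, hth, het]
    funext i
    fin_cases i <;> simp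
  rw [e1, e2]
  exact this

theorem G.lin {x y x' y' : Fin 9 → k} {a b c d : k} (h : G m x' y') (hx : x = a • x' + b • y')
    (hy : y = c • x' + d • y') : G m x y := by
  have m1 : mk x' ∈ adj ![(J : Matrix (Fin (m + 8)) (Fin (m + 8)) k), mk x', mk y'] :=
    mem_adj ![(J : Matrix (Fin (m + 8)) (Fin (m + 8)) k), mk x', mk y'] 1
  have m2 : mk y' ∈ adj ![(J : Matrix (Fin (m + 8)) (Fin (m + 8)) k), mk x', mk y'] :=
    mem_adj ![(J : Matrix (Fin (m + 8)) (Fin (m + 8)) k), mk x', mk y'] 2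
  refine cl_of_adj (T' := ![J, mk x', mk y']) (fun i => ?_) h
  fin_cases i
  · exact mem_adj ![(J : Matrix (Fin (m + 8)) (Fin (m + 8)) k), mk x', mk y'] 0
  · show mk x ∈ _
    rw [hx, mk_add, mk_smul, mk_smul]
    exact add_mem (SMulMemClass.smul_mem _ m1) (SMulMemClass.smul_mem _ m2)
  · show mk y ∈ _
    rw [hy, mk_add, mk_smul, mk_smul]
    exact add_mem (SMulMemClass.smul_mem _ m1) (SMulMemClass.smul_mem _ m2)

omit [Field k] in
theorem eta9 (x : Fin 9 → k) : x = ![x 0, x 1, x 2, x 3, x 4, x 5, x 6, x 7, x 8] := by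
  funext i
  fin_cases i <;> rfl

/-- `be = pi = 0`, the vectors `a_B`, `a_C` independent -/
theorem g_indep [IsAlgClosed k] [CharZero k] {x y : Fin 9 → k} (h : Rel x y) (x3 : x 3 = 0)
    (y3 : y 3 = 0) (x6 : x 6 = 0) (y6 : y 6 = 0) (hd : x 0 * y 2 - x 2 * y 0 ≠ 0) : G m x y := by
  obtain ⟨-, -, h3, h4, -, -, -⟩ := h
  obtain ⟨Δ, hΔ⟩ : ∃ Δ, Δ = x 0 * y 2 - x 2 * y 0 := ⟨_, rfl⟩
  rw [← hΔ] at hd
  rw [x3, y3] at h4
  obtain ⟨x', hx'⟩ : ∃ x' : Fin 9 → k, x' = (Δ⁻¹ * y 2) • x - (Δ⁻¹ * x 2) • y := ⟨_, rfl⟩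
  obtain ⟨y', hy'⟩ : ∃ y' : Fin 9 → k, y' = (Δ⁻¹ * x 0) • y - (Δ⁻¹ * y 0) • x := ⟨_, rfl⟩
  have hi : Δ⁻¹ * Δ = 1 := inv_mul_cancel₀ hd
  have ex : ∀ i, x' i = Δ⁻¹ * y 2 * x i - Δ⁻¹ * x 2 * y i := by
    intro i; rw [hx']; rfl
  have ey : ∀ i, y' i = Δ⁻¹ * x 0 * y i - Δ⁻¹ * y 0 * x i := by
    intro i; rw [hy']; rfl
  have hx1 : x' = ![1, x' 1, 0, 0, x' 4, x' 5, 0, y' 4, y' 5] := by
    rw [eta9 x']
    have a0 : x' 0 = 1 := by rw [ex]; linear_combination hi + Δ⁻¹ * (-hΔ)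
    have a2 : x' 2 = 0 := by rw [ex]; ring
    have a3 : x' 3 = 0 := by rw [ex, x3, y3]; ring
    have a6 : x' 6 = 0 := by rw [ex, x6, y6]; ring
    have a7 : x' 7 = y' 4 := by rw [ex, ey]; linear_combination -Δ⁻¹ * (-h4)
    have a8 : x' 8 = y' 5 := by rw [ex, ey]; linear_combination -Δ⁻¹ * (-h3)
    rw [a0, a2, a3, a6, a7, a8]
    rfl
  have hy1 : y' = ![0, y' 1, 1, 0, y' 4, y' 5, 0, y' 7, y' 8] := by
    rw [eta9 y']
    have a0 : y' 0 = 0 := by rw [ey]; ring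
    have a2 : y' 2 = 1 := by rw [ey]; linear_combination hi + Δ⁻¹ * (-hΔ)
    have a3 : y' 3 = 0 := by rw [ey, x3, y3]; ring
    have a6 : y' 6 = 0 := by rw [ey, x6, y6]; ring
    rw [a0, a2, a3, a6]
    rfl
  have key := g_norm (m := m) (x' 1) (y' 1) (x' 4) (x' 5) (y' 4) (y' 5) (y' 7) (y' 8)
  rw [← hx1, ← hy1] at key
  refine key.lin (a := x 0) (b := x 2) (c := y 0) (d := y 2) ?_ ?_
  · funext i
    show x i = x 0 * x' i + x 2 * y' i
    rw [ex, ey]
    linear_combination -(x i) * hi + x i * Δ⁻¹ * hΔ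
  · funext i
    show y i = y 0 * x' i + y 2 * y' i
    rw [ex, ey]
    linear_combination -(y i) * hi + y i * Δ⁻¹ * hΔ

/-- `be = pi = 0`, `a_C ≠ 0` -/
theorem g_half [IsAlgClosed k] [CharZero k] {x y : Fin 9 → k} (h : Rel x y) (x3 : x 3 = 0)
    (y3 : y 3 = 0) (x6 : x 6 = 0) (y6 : y 6 = 0) (hy : ¬ (y 0 = 0 ∧ y 2 = 0)) : G m x y := by
  obtain ⟨-, -, h3, h4, -, -, -⟩ := h
  rw [x3, y3] at h4
  by_cases y2 : y 2 = 0
  · have y0 : y 0 ≠ 0 := fun h0 => hy ⟨h0, y2⟩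
    refine G.line ![0, 0, 1, 0, y 7 / y 0, y 8 / y 0, 0, 0, 0] 0
      (Set.finite_singleton (-(x 2))) ?_
    intro s hs
    have hs' : x 2 + s ≠ 0 := fun h0 => hs (by rw [Set.mem_singleton_iff]; linear_combination h0)
    rw [smul_zero, add_zero]
    obtain ⟨z, hz⟩ : ∃ z : Fin 9 → k, z = x + s • ![0, 0, 1, 0, y 7 / y 0, y 8 / y 0, 0, 0, 0] :=
      ⟨_, rfl⟩
    rw [← hz]
    have ez : ∀ i, z i = x i + s * (![0, 0, 1, 0, y 7 / y 0, y 8 / y 0, 0, 0, 0] : Fin 9 → k) i := by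
      intro i; rw [hz]; rfl
    have z0 : z 0 = x 0 := by rw [ez]; simp
    have z1 : z 1 = x 1 := by rw [ez]; simp
    have z2 : z 2 = x 2 + s := by rw [ez]; simp
    have z3 : z 3 = 0 := by rw [ez, x3]; simp
    have z4 : z 4 = x 4 + s * (y 7 / y 0) := by rw [ez]; simp
    have z5 : z 5 = x 5 + s * (y 8 / y 0) := by rw [ez]; simp
    have z6 : z 6 = 0 := by rw [ez, x6]; simp
    have z7 : z 7 = x 7 := by rw [ez]; simp
    have z8 : z 8 = x 8 := by rw [ez]; simp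
    refine g_indep ⟨?_, ?_, ?_, ?_, ?_, ?_, ?_⟩ z3 y3 z6 y6 ?_
    · rw [z3, y3]; ring
    · rw [z6, y6]; ring
    · rw [z0, z2, z5, z8, y2]
      rw [y2] at h3
      field_simp
      linear_combination h3
    · rw [z0, z1, z2, z3, z4, z7, y2, y3]
      rw [y2] at h4
      field_simp
      linear_combination h4
    · rw [z6, y6]; ring
    · rw [z3, z6, y6, y3]; ring
    · rw [z3, y3]; ring
    · rw [z0, z2, y2]
      have : x 0 * 0 - (x 2 + s) * y 0 = -((x 2 + s) * y 0) := by ring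
      rw [this]
      exact neg_ne_zero.2 (mul_ne_zero hs' y0)
  · refine G.line ![1, 0, 0, 0, 0, 0, 0, y 4 / y 2, y 5 / y 2] 0
      (Set.finite_singleton (-(x 0 * y 2 - x 2 * y 0) / y 2)) ?_
    intro s hs
    have hs' : x 0 * y 2 - x 2 * y 0 + s * y 2 ≠ 0 := by
      intro h0
      apply hs
      rw [Set.mem_singleton_iff]
      field_simp
      linear_combination h0
    rw [smul_zero, add_zero]
    obtain ⟨z, hz⟩ : ∃ z : Fin 9 → k, z = x + s • ![1, 0, 0, 0, 0, 0, 0, y 4 / y 2, y 5 / y 2] :=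
      ⟨_, rfl⟩
    rw [← hz]
    have ez : ∀ i, z i = x i + s * (![1, 0, 0, 0, 0, 0, 0, y 4 / y 2, y 5 / y 2] : Fin 9 → k) i := by
      intro i; rw [hz]; rfl
    have z0 : z 0 = x 0 + s := by rw [ez]; simp
    have z1 : z 1 = x 1 := by rw [ez]; simp
    have z2 : z 2 = x 2 := by rw [ez]; simp
    have z3 : z 3 = 0 := by rw [ez, x3]; simp
    have z4 : z 4 = x 4 := by rw [ez]; simp
    have z5 : z 5 = x 5 := by rw [ez]; simp
    have z6 : z 6 = 0 := by rw [ez, x6]; simp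
    have z7 : z 7 = x 7 + s * (y 4 / y 2) := by rw [ez]; simp
    have z8 : z 8 = x 8 + s * (y 5 / y 2) := by rw [ez]; simp
    refine g_indep ⟨?_, ?_, ?_, ?_, ?_, ?_, ?_⟩ z3 y3 z6 y6 ?_
    · rw [z3, y3]; ring
    · rw [z6, y6]; ring
    · rw [z0, z2, z5, z8]
      field_simp
      linear_combination h3
    · rw [z0, z1, z2, z3, z4, z7, y3]
      field_simp
      linear_combination h4
    · rw [z6, y6]; ring
    · rw [z3, z6, y6, y3]; ring
    · rw [z3, y3]; ring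
    · rw [z0, z2]
      intro h0
      apply hs'
      linear_combination h0

/-- `be = pi = 0` -/
theorem g_A [IsAlgClosed k] [CharZero k] {x y : Fin 9 → k} (h : Rel x y) (x3 : x 3 = 0)
    (y3 : y 3 = 0) (x6 : x 6 = 0) (y6 : y 6 = 0) : G m x y := by
  by_cases hy : y 0 = 0 ∧ y 2 = 0
  · by_cases hx : x 0 = 0 ∧ x 2 = 0
    · obtain ⟨x0, x2⟩ := hx
      obtain ⟨y0, y2⟩ := hy
      -- a solution of the linear system
      let f : (Fin 4 → k) →ₗ[k] (Fin 2 → k) := Matrix.mulVecLin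
        !![-(y 5), -(y 8), x 5, x 8; -(y 4), -(y 7), x 4, x 7]
      have hf : LinearMap.ker f ≠ ⊥ := LinearMap.ker_ne_bot_of_finrank_lt (by simp)
      obtain ⟨z, hz, hz0⟩ := Submodule.exists_mem_ne_zero_of_ne_bot hf
      have hz' : f z = 0 := hz
      have e1 := congrFun hz' 0
      have e2 := congrFun hz' 1
      simp [f, Matrix.mulVec, dotProduct, Fin.sum_univ_succ] at e1 e2
      have hzne : ¬ ((z 0 = 0 ∧ z 1 = 0) ∧ (z 2 = 0 ∧ z 3 = 0)) := by
        rintro ⟨⟨a0, a1⟩, ⟨a2, a3⟩⟩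
        apply hz0
        funext i
        fin_cases i
        · exact a0
        · exact a1
        · exact a2
        · exact a3
      refine G.line ![z 0, 0, z 1, 0, 0, 0, 0, 0, 0] ![z 2, 0, z 3, 0, 0, 0, 0, 0, 0]
        (Set.finite_singleton 0) ?_
      intro s hs
      have hs0 : s ≠ 0 := hs
      obtain ⟨u, hu⟩ : ∃ u : Fin 9 → k, u = x + s • ![z 0, 0, z 1, 0, 0, 0, 0, 0, 0] := ⟨_, rfl⟩
      obtain ⟨w, hw⟩ : ∃ w : Fin 9 → k, w = y + s • ![z 2, 0, z 3, 0, 0, 0, 0, 0, 0] := ⟨_, rfl⟩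
      rw [← hu, ← hw]
      have eu : ∀ i, u i = x i + s * (![z 0, 0, z 1, 0, 0, 0, 0, 0, 0] : Fin 9 → k) i := by
        intro i; rw [hu]; rfl
      have ew : ∀ i, w i = y i + s * (![z 2, 0, z 3, 0, 0, 0, 0, 0, 0] : Fin 9 → k) i := by
        intro i; rw [hw]; rfl
      have u0 : u 0 = s * z 0 := by rw [eu, x0]; simp
      have u1 : u 1 = x 1 := by rw [eu]; simp
      have u2 : u 2 = s * z 1 := by rw [eu, x2]; simp
      have u3 : u 3 = 0 := by rw [eu, x3]; simp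
      have u4 : u 4 = x 4 := by rw [eu]; simp
      have u5 : u 5 = x 5 := by rw [eu]; simp
      have u6 : u 6 = 0 := by rw [eu, x6]; simp
      have u7 : u 7 = x 7 := by rw [eu]; simp
      have u8 : u 8 = x 8 := by rw [eu]; simp
      have w0 : w 0 = s * z 2 := by rw [ew, y0]; simp
      have w1 : w 1 = y 1 := by rw [ew]; simp
      have w2 : w 2 = s * z 3 := by rw [ew, y2]; simp
      have w3 : w 3 = 0 := by rw [ew, y3]; simp
      have w4 : w 4 = y 4 := by rw [ew]; simp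
      have w5 : w 5 = y 5 := by rw [ew]; simp
      have w6 : w 6 = 0 := by rw [ew, y6]; simp
      have w7 : w 7 = y 7 := by rw [ew]; simp
      have w8 : w 8 = y 8 := by rw [ew]; simp
      have hrel : Rel u w := by
        refine ⟨?_, ?_, ?_, ?_, ?_, ?_, ?_⟩
        · rw [u3, w3]; ring
        · rw [u6, w6]; ring
        · rw [u0, u2, u5, u8, w0, w2, w5, w8]
          linear_combination s * e1
        · rw [u0, u1, u2, u3, u4, u7, w0, w1, w2, w3, w4, w7]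
          linear_combination s * e2
        · rw [u6, w6]; ring
        · rw [u3, u6, w3, w6]; ring
        · rw [u3, w3]; ring
      by_cases hw0 : z 2 = 0 ∧ z 3 = 0
      · refine G.swap (g_half hrel.swap w3 u3 w6 u6 ?_)
        rintro ⟨b0, b2⟩
        rw [u0] at b0
        rw [u2] at b2
        exact hzne ⟨⟨(mul_eq_zero.1 b0).resolve_left hs0, (mul_eq_zero.1 b2).resolve_left hs0⟩, hw0⟩
      · refine g_half hrel u3 w3 u6 w6 ?_
        rintro ⟨b0, b2⟩
        rw [w0] at b0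
        rw [w2] at b2
        exact hw0 ⟨(mul_eq_zero.1 b0).resolve_left hs0, (mul_eq_zero.1 b2).resolve_left hs0⟩
    · exact G.swap (g_half h.swap y3 x3 y6 x6 hx)
  · exact g_half h x3 y3 x6 y6 hy

/-! ### the other cases -/

theorem rel_zero (x : Fin 9 → k) : Rel x 0 := by
  refine ⟨?_, ?_, ?_, ?_, ?_, ?_, ?_⟩ <;> simp

theorem g_planar [IsAlgClosed k] [CharZero k] (x : Fin 9 → k) : G m x 0 := by
  refine G.line ![0, 0, 0, 0, 0, 0, 1, 0, 1] 0
    ((Set.finite_singleton (-(x 6))).union (Set.finite_singleton (-(x 8)))) ?_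
  intro s hs
  simp only [Set.mem_union, Set.mem_singleton_iff, not_or] at hs
  rw [smul_zero, add_zero]
  refine g_pe (rel_zero _) ?_ ?_
  · show x 6 + s * 1 ≠ 0
    intro h0
    exact hs.1 (by linear_combination h0)
  · show x 8 + s * 1 ≠ 0
    intro h0
    exact hs.2 (by linear_combination h0)

theorem J_mul_mk (x : Fin 9 → k) : (J : Matrix (Fin (m + 8)) (Fin (m + 8)) k) * mk x =
    mk ![0, x 0, 0, 0, x 3, 0, 0, 0, 0] := by
  refine ext_gen ?_ (J_mk _) ?_ ?_ ?_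
  · rw [mul_assoc, ← J_mk]
  · rw [← Matrix.mulVec_mulVec, mk_0, mk_0]
    simp [Matrix.mulVec_add, Matrix.mulVec_smul, J_u, J_w, J_p]
  · rw [← Matrix.mulVec_mulVec, mk_u, mk_u]
    simp [Matrix.mulVec_add, Matrix.mulVec_smul, J_a1, J_a, J_w, J_p]
  · rw [← Matrix.mulVec_mulVec, mk_p, mk_p]
    simp [Matrix.mulVec_add, Matrix.mulVec_smul, J_a, J_w]

theorem Jpow_u {i : ℕ} (hi : 2 ≤ i) :
    (J : Matrix (Fin (m + 8)) (Fin (m + 8)) k) ^ i *ᵥ e (m + 5) = 0 := by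
  obtain ⟨j, rfl⟩ : ∃ j, i = j + 2 := ⟨i - 2, by omega⟩
  rw [pow_add, pow_two, ← Matrix.mulVec_mulVec, ← Matrix.mulVec_mulVec, J_u, J_w,
    Matrix.mulVec_zero]

theorem Jpow_p {i : ℕ} (hi : 1 ≤ i) :
    (J : Matrix (Fin (m + 8)) (Fin (m + 8)) k) ^ i *ᵥ e (m + 7) = 0 := by
  obtain ⟨j, rfl⟩ : ∃ j, i = j + 1 := ⟨i - 1, by omega⟩
  rw [pow_succ, ← Matrix.mulVec_mulVec, J_p, Matrix.mulVec_zero]

theorem comm_Jpow (i : ℕ) (M : Matrix (Fin (m + 8)) (Fin (m + 8)) k) (h : J * M = M * J) :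
    J ^ i * M = M * J ^ i := Commute.pow_left (show Commute J M from h) i

/-- `al, pi ≠ 0`, `et = 0` -/
theorem g_2a [IsAlgClosed k] [CharZero k] {x : Fin 9 → k} {y1 y2 y4 : k} (x0 : x 0 ≠ 0)
    (x6 : x 6 ≠ 0) (x8 : x 8 = 0) (h4 : y1 * x 3 + y2 * x 7 = x 0 * y4) :
    G m x ![0, y1, y2, 0, y4, 0, 0, 0, 0] := by
  refine G.of_mem (g_planar x) ?_
  have mJ : (J : Matrix (Fin (m + 8)) (Fin (m + 8)) k) ∈ adj ![J, mk x, 0] :=
    mem_adj ![(J : Matrix (Fin (m + 8)) (Fin (m + 8)) k), mk x, 0] 0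
  have mB : mk x ∈ adj ![(J : Matrix (Fin (m + 8)) (Fin (m + 8)) k), mk x, 0] :=
    mem_adj ![(J : Matrix (Fin (m + 8)) (Fin (m + 8)) k), mk x, 0] 1
  have mJp : ∀ i, (J : Matrix (Fin (m + 8)) (Fin (m + 8)) k) ^ (i + 1) ∈ adj ![J, mk x, 0] := by
    intro i
    induction i with
    | zero => rw [zero_add, pow_one]; exact mJ
    | succ i ih => rw [pow_succ]; exact mul_mem ih mJ
  obtain ⟨Q, hQ⟩ : ∃ Q : Matrix (Fin (m + 8)) (Fin (m + 8)) k, Q = mk x * mk x -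
    x 5 • (J * mk x) - (x 0 * x 3) • J ^ (m + 3) -
      (x 0 * x 4 + x 1 * x 3 + x 2 * x 7) • J ^ (m + 4) := ⟨_, rfl⟩
  have hQm : Q ∈ adj ![(J : Matrix (Fin (m + 8)) (Fin (m + 8)) k), mk x, 0] := by
    rw [hQ]
    exact sub_mem (sub_mem (sub_mem (mul_mem mB mB) (SMulMemClass.smul_mem _ (mul_mem mJ mB)))
      (SMulMemClass.smul_mem _ (mJp (m + 2)))) (SMulMemClass.smul_mem _ (mJp (m + 3)))
  have hQe : Q = mk ![0, 0, x 0 * x 6, 0, x 6 * x 7, 0, 0, 0, 0] := by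
    refine ext_gen ?_ (J_mk _) ?_ ?_ ?_
    · rw [hQ]
      simp only [mul_sub, sub_mul, mul_smul_comm, smul_mul_assoc]
      rw [J_mk_mul, ← comm_Jpow (m + 3) J rfl, ← comm_Jpow (m + 4) J rfl]
      congr 3
      rw [mul_assoc J (mk x) J, ← J_mk]
    · rw [hQ]
      simp only [Matrix.sub_mulVec, Matrix.smul_mulVec, ← Matrix.mulVec_mulVec]
      rw [mk_mk_0, Jpow_0 _ (by omega), Jpow_0 _ (by omega), mk_0, mk_0]
      simp only [Matrix.mulVec_add, Matrix.mulVec_smul, J_u, J_w, J_p, x8]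
      simp
      module
    · rw [hQ]
      simp only [Matrix.sub_mulVec, Matrix.smul_mulVec, ← Matrix.mulVec_mulVec]
      rw [mk_mk_u, Jpow_u (by omega), Jpow_u (by omega), mk_u, mk_u]
      simp only [Matrix.mulVec_add, Matrix.mulVec_smul, J_a1, J_a, J_w, J_p, x8]
      simp
      module
    · rw [hQ]
      simp only [Matrix.sub_mulVec, Matrix.smul_mulVec, ← Matrix.mulVec_mulVec]
      rw [mk_mk_p, Jpow_p (by omega), Jpow_p (by omega), mk_p, mk_p]
      simp only [Matrix.mulVec_add, Matrix.mulVec_smul, J_a, J_w, x8]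
      simp
  have hy : (mk ![0, y1, y2, 0, y4, 0, 0, 0, 0] : Matrix (Fin (m + 8)) (Fin (m + 8)) k) =
      (y1 / x 0) • (J * mk x) + (y2 / (x 0 * x 6)) • Q := by
    rw [J_mul_mk, hQe, ← mk_smul, ← mk_smul, ← mk_add]
    congr 1
    funext i
    fin_cases i
    · simp
    · simp [x0]
    · simp
      field_simp
    · simp
    · simp
      field_simp
      linear_combination -h4
    · simp
    · simp
    · simp
    · simp
  rw [hy]
  exact add_mem (SMulMemClass.smul_mem _ (mul_mem mJ mB)) (SMulMemClass.smul_mem _ hQm)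

/-- `pi = 0`, `be_B ≠ 0`, `be_C = 0` -/
theorem g_pi1 [IsAlgClosed k] [CharZero k] {x y : Fin 9 → k} (h : Rel x y) (x3 : x 3 ≠ 0)
    (y3 : y 3 = 0) (x6 : x 6 = 0) (y6 : y 6 = 0) : G m x y := by
  obtain ⟨h1, h2, h3, h4, h5, h6, h7⟩ := h
  have y0 : y 0 = 0 := by
    rw [y3, mul_zero] at h1
    exact (mul_eq_zero.1 h1).resolve_right x3
  have y5 : y 5 = 0 := by
    rw [y3, x6, y6, mul_zero, zero_mul, zero_mul, add_zero, add_zero] at h6
    exact (mul_eq_zero.1 h6).resolve_right x3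
  have y8 : y 8 = 0 := by
    rw [y3, mul_zero] at h7
    exact (mul_eq_zero.1 h7).resolve_right x3
  rw [y0, y5, y8] at h3
  rw [y0, y3] at h4
  have h3' : y 2 * x 8 = 0 := by linear_combination h3
  have h4' : y 1 * x 3 + y 2 * x 7 = x 0 * y 4 + x 2 * y 7 := by linear_combination h4
  clear h1 h2 h3 h4 h5 h6 h7
  have hy : y = ![0, y 1, y 2, 0, y 4, 0, 0, y 7, 0] := by
    conv_lhs => rw [eta9 y]
    rw [y0, y3, y5, y6, y8]
  obtain ⟨y1, hy1⟩ : ∃ c, c = y 1 := ⟨_, rfl⟩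
  obtain ⟨y2, hy2⟩ : ∃ c, c = y 2 := ⟨_, rfl⟩
  obtain ⟨y4, hy4⟩ : ∃ c, c = y 4 := ⟨_, rfl⟩
  obtain ⟨y7, hy7⟩ : ∃ c, c = y 7 := ⟨_, rfl⟩
  rw [← hy1, ← hy2, ← hy4, ← hy7] at hy
  rw [← hy2] at h3'
  rw [← hy1, ← hy2, ← hy4, ← hy7] at h4'
  rw [hy]
  clear hy hy1 hy2 hy4 hy7 y0 y5 y8 y3 y6 y
  by_cases h7 : y7 = 0
  · rw [h7, mul_zero, add_zero] at h4'
    rw [h7]
    by_cases h2 : y2 = 0
    · -- `C` is a multiple of `A B`
      rw [h2, zero_mul, add_zero] at h4'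
      refine G.of_mem (g_planar x) ?_
      have mJ : (J : Matrix (Fin (m + 8)) (Fin (m + 8)) k) ∈ adj ![J, mk x, 0] :=
        mem_adj ![(J : Matrix (Fin (m + 8)) (Fin (m + 8)) k), mk x, 0] 0
      have mB : mk x ∈ adj ![(J : Matrix (Fin (m + 8)) (Fin (m + 8)) k), mk x, 0] :=
        mem_adj ![(J : Matrix (Fin (m + 8)) (Fin (m + 8)) k), mk x, 0] 1
      have hy : (mk ![0, y1, y2, 0, y4, 0, 0, 0, 0] : Matrix (Fin (m + 8)) (Fin (m + 8)) k) =
          (y4 / x 3) • (J * mk x) := by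
        rw [J_mul_mk, ← mk_smul]
        congr 1
        funext i
        fin_cases i
        · simp
        · simp
          field_simp
          linear_combination h4'
        · simp [h2]
        · simp
        · simp [x3]
        · simp
        · simp
        · simp
        · simp
      rw [hy]
      exact SMulMemClass.smul_mem _ (mul_mem mJ mB)
    · -- `al` and `pi` are free
      have x8 : x 8 = 0 := (mul_eq_zero.1 h3').resolve_left h2
      refine G.line ![1, 0, 0, 0, 0, 0, 1, 0, 0] ![0, y4 / x 3, 0, 0, 0, 0, 0, 0, 0]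
        ((Set.finite_singleton (-(x 0))).union (Set.finite_singleton 0)) ?_
      intro s hs
      simp only [Set.mem_union, Set.mem_singleton_iff, not_or] at hs
      obtain ⟨hs1, hs2⟩ := hs
      have hs1' : x 0 + s ≠ 0 := fun h0 => hs1 (by linear_combination h0)
      obtain ⟨z, hz⟩ : ∃ z : Fin 9 → k, z = x + s • ![1, 0, 0, 0, 0, 0, 1, 0, 0] := ⟨_, rfl⟩
      have ez : ∀ i, z i = x i + s * (![1, 0, 0, 0, 0, 0, 1, 0, 0] : Fin 9 → k) i := by
        intro i; rw [hz]; rfl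
      have z0 : z 0 = x 0 + s := by rw [ez]; simp
      have z3 : z 3 = x 3 := by rw [ez]; simp
      have z6 : z 6 = s := by rw [ez, x6]; simp
      have z7 : z 7 = x 7 := by rw [ez]; simp
      have z8 : z 8 = 0 := by rw [ez, x8]; simp
      rw [← hz]
      have e2 : (![0, y1, y2, 0, y4, 0, 0, 0, 0] + s • ![0, y4 / x 3, 0, 0, 0, 0, 0, 0, 0] :
          Fin 9 → k) = ![0, y1 + s * (y4 / x 3), y2, 0, y4, 0, 0, 0, 0] := by
        funext i
        fin_cases i <;> simp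
      rw [e2]
      refine g_2a (by rw [z0]; exact hs1') (by rw [z6]; exact hs2) z8 ?_
      rw [z0, z3, z7]
      field_simp
      linear_combination h4'
  · by_cases x8 : x 8 = 0
    · -- `al`, `om'` free, then `pi`, `et`
      refine G.line ![1, 0, 0, 0, 0, 0, 0, 0, 0] ![0, (y4 - x 7) / x 3, 1, 0, 0, 0, 0, 0, 0]
        ((Set.finite_singleton (-(x 0))).union (Set.finite_singleton (-y2))) ?_
      intro s hs
      simp only [Set.mem_union, Set.mem_singleton_iff, not_or] at hs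
      obtain ⟨hs1, hs2⟩ := hs
      obtain ⟨z, hz⟩ : ∃ z : Fin 9 → k, z = x + s • ![1, 0, 0, 0, 0, 0, 0, 0, 0] := ⟨_, rfl⟩
      have ez : ∀ i, z i = x i + s * (![1, 0, 0, 0, 0, 0, 0, 0, 0] : Fin 9 → k) i := by
        intro i; rw [hz]; rfl
      have z0 : z 0 = x 0 + s := by rw [ez]; simp
      have z2 : z 2 = x 2 := by rw [ez]; simp
      have z3 : z 3 = x 3 := by rw [ez]; simp
      have z6 : z 6 = 0 := by rw [ez, x6]; simp
      have z7 : z 7 = x 7 := by rw [ez]; simp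
      have z8 : z 8 = 0 := by rw [ez, x8]; simp
      have hz0 : z 0 ≠ 0 := by rw [z0]; exact fun h0 => hs1 (by linear_combination h0)
      obtain ⟨a, ha⟩ : ∃ a, a = y2 + s := ⟨_, rfl⟩
      obtain ⟨b, hb⟩ : ∃ b, b = y1 + s * ((y4 - x 7) / x 3) := ⟨_, rfl⟩
      have ha0 : a ≠ 0 := by rw [ha]; exact fun h0 => hs2 (by linear_combination h0)
      rw [← hz]
      have e2 : (![0, y1, y2, 0, y4, 0, 0, y7, 0] + s • ![0, (y4 - x 7) / x 3, 1, 0, 0, 0, 0, 0, 0] :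
          Fin 9 → k) = ![0, b, a, 0, y4, 0, 0, y7, 0] := by
        rw [ha, hb]
        funext i
        fin_cases i <;> simp
      rw [e2]
      have z3' : z 3 ≠ 0 := by rw [z3]; exact x3
      have hb4 : b * z 3 + a * z 7 = z 0 * y4 + z 2 * y7 := by
        rw [hb, ha, z0, z2, z3, z7]
        field_simp
        linear_combination h4'
      clear h4' e2 ha hb hs1 hs2 ez hz z0 z2 z3 z7 x6 h3' x8 x3
      refine G.line ![0, 0, 0, 0, 0, 0, 1, 0, z 0 * y7 / (z 3 * a)]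
        ![0, 0, 0, 0, 0, y7 / z 3, 0, 0, 0] (Set.finite_singleton 0) ?_
      intro t ht
      have ht' : t ≠ 0 := ht
      obtain ⟨w, hw⟩ : ∃ w : Fin 9 → k,
        w = z + t • ![0, 0, 0, 0, 0, 0, 1, 0, z 0 * y7 / (z 3 * a)] := ⟨_, rfl⟩
      have ew : ∀ i, w i = z i + t * (![0, 0, 0, 0, 0, 0, 1, 0, z 0 * y7 / (z 3 * a)] :
          Fin 9 → k) i := by
        intro i; rw [hw]; rfl
      have w0 : w 0 = z 0 := by rw [ew]; simp
      have w1 : w 1 = z 1 := by rw [ew]; simp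
      have w2 : w 2 = z 2 := by rw [ew]; simp
      have w3 : w 3 = z 3 := by rw [ew]; simp
      have w4 : w 4 = z 4 := by rw [ew]; simp
      have w5 : w 5 = z 5 := by rw [ew]; simp
      have w6 : w 6 = t := by rw [ew, z6]; simp
      have w7 : w 7 = z 7 := by rw [ew]; simp
      have w8 : w 8 = t * (z 0 * y7 / (z 3 * a)) := by rw [ew, z8]; simp
      rw [← hw]
      have e3 : (![0, b, a, 0, y4, 0, 0, y7, 0] + t • ![0, 0, 0, 0, 0, y7 / z 3, 0, 0, 0] :
          Fin 9 → k) = ![0, b, a, 0, y4, t * (y7 / z 3), 0, y7, 0] := by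
        funext i
        fin_cases i <;> simp
      rw [e3]
      refine g_pe ⟨?_, ?_, ?_, ?_, ?_, ?_, ?_⟩ (by rw [w6]; exact ht') (by
        rw [w8]
        exact mul_ne_zero ht' (div_ne_zero (mul_ne_zero hz0 h7) (mul_ne_zero z3' ha0)))
      · simp
      · simp
      · simp [w0, w8]
        field_simp
      · simp [w0, w2, w3, w7]
        exact hb4
      · simp
      · simp [w3, w6]
        field_simp
      · simp
    · -- `et ≠ 0`, `om' = 0`: `al` is free, then `pi`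
      have h2 : y2 = 0 := (mul_eq_zero.1 h3').resolve_right x8
      rw [h2] at h4' ⊢
      refine G.line ![1, 0, 0, 0, 0, 0, 0, 0, 0] ![0, y4 / x 3, 0, 0, 0, 0, 0, 0, 0]
        (Set.finite_singleton (-(x 0))) ?_
      intro s hs
      rw [Set.mem_singleton_iff] at hs
      obtain ⟨z, hz⟩ : ∃ z : Fin 9 → k, z = x + s • ![1, 0, 0, 0, 0, 0, 0, 0, 0] := ⟨_, rfl⟩
      have ez : ∀ i, z i = x i + s * (![1, 0, 0, 0, 0, 0, 0, 0, 0] : Fin 9 → k) i := by
        intro i; rw [hz]; rfl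
      have z0 : z 0 = x 0 + s := by rw [ez]; simp
      have z2 : z 2 = x 2 := by rw [ez]; simp
      have z3 : z 3 = x 3 := by rw [ez]; simp
      have z6 : z 6 = 0 := by rw [ez, x6]; simp
      have z7 : z 7 = x 7 := by rw [ez]; simp
      have z8 : z 8 = x 8 := by rw [ez]; simp
      have hz0 : z 0 ≠ 0 := by rw [z0]; exact fun h0 => hs (by linear_combination h0)
      obtain ⟨b, hb⟩ : ∃ b, b = y1 + s * (y4 / x 3) := ⟨_, rfl⟩
      rw [← hz]
      have e2 : (![0, y1, 0, 0, y4, 0, 0, y7, 0] + s • ![0, y4 / x 3, 0, 0, 0, 0, 0, 0, 0] :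
          Fin 9 → k) = ![0, b, 0, 0, y4, 0, 0, y7, 0] := by
        rw [hb]
        funext i
        fin_cases i <;> simp
      rw [e2]
      have z3' : z 3 ≠ 0 := by rw [z3]; exact x3
      have z8' : z 8 ≠ 0 := by rw [z8]; exact x8
      have hb4 : b * z 3 = z 0 * y4 + z 2 * y7 := by
        rw [hb, z0, z2, z3]
        field_simp
        linear_combination h4'
      clear h4' e2 hb hs ez hz z0 z2 z3 z7 x6 h3' x8 x3 z8
      refine G.line ![0, 0, 0, 0, 0, 0, z 8 * z 3 / (z 0 * y7), 0, 0]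
        ![0, -(z 7 / z 3), 1, 0, 0, z 8 / z 0, 0, 0, 0] (Set.finite_singleton 0) ?_
      intro t ht
      have ht' : t ≠ 0 := ht
      obtain ⟨w, hw⟩ : ∃ w : Fin 9 → k,
        w = z + t • ![0, 0, 0, 0, 0, 0, z 8 * z 3 / (z 0 * y7), 0, 0] := ⟨_, rfl⟩
      have ew : ∀ i, w i = z i + t * (![0, 0, 0, 0, 0, 0, z 8 * z 3 / (z 0 * y7), 0, 0] :
          Fin 9 → k) i := by
        intro i; rw [hw]; rfl
      have w0 : w 0 = z 0 := by rw [ew]; simp
      have w2 : w 2 = z 2 := by rw [ew]; simp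
      have w3 : w 3 = z 3 := by rw [ew]; simp
      have w6 : w 6 = t * (z 8 * z 3 / (z 0 * y7)) := by rw [ew, z6]; simp
      have w7 : w 7 = z 7 := by rw [ew]; simp
      have w8 : w 8 = z 8 := by rw [ew]; simp
      rw [← hw]
      have e3 : (![0, b, 0, 0, y4, 0, 0, y7, 0] + t • ![0, -(z 7 / z 3), 1, 0, 0, z 8 / z 0, 0, 0, 0] :
          Fin 9 → k) = ![0, b - t * (z 7 / z 3), t, 0, y4, t * (z 8 / z 0), 0, y7, 0] := by
        funext i
        fin_cases i <;> simp [sub_eq_add_neg]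
      rw [e3]
      refine g_pe ⟨?_, ?_, ?_, ?_, ?_, ?_, ?_⟩ (by
        rw [w6]
        exact mul_ne_zero ht' (div_ne_zero (mul_ne_zero z8' z3') (mul_ne_zero hz0 h7))) (by
        rw [w8]; exact z8')
      · simp
      · simp
      · simp [w0, w8]
        field_simp
      · simp [w0, w2, w3, w7]
        field_simp
        linear_combination hb4
      · simp
      · simp [w3, w6]
        field_simp
      · simp

/-- `pi = 0` -/
theorem g_pi0 [IsAlgClosed k] [CharZero k] {x y : Fin 9 → k} (h : Rel x y)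
    (x6 : x 6 = 0) (y6 : y 6 = 0) : G m x y := by
  by_cases x3 : x 3 = 0
  · by_cases y3 : y 3 = 0
    · exact g_A h x3 y3 x6 y6
    · exact G.swap (g_pi1 h.swap y3 x3 y6 x6)
  · refine G.sub (s := y 3 / x 3) (g_pi1 (h.sub _) x3 ?_ x6 ?_)
    · show y 3 - y 3 / x 3 * x 3 = 0
      rw [div_mul_cancel₀ _ x3, sub_self]
    · show y 6 - y 3 / x 3 * x 6 = 0
      rw [x6, y6, mul_zero, sub_zero]

theorem g_all [IsAlgClosed k] [CharZero k] {x y : Fin 9 → k} (h : Rel x y) : G m x y := by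
  have key : ∀ x y : Fin 9 → k, Rel x y → x 6 ≠ 0 → G m x y := by
    intro x y h x6
    by_cases x8 : x 8 = 0
    · have h5 := h.2.2.2.2.1
      rw [x8, mul_zero] at h5
      have y8 : y 8 = 0 := (mul_eq_zero.1 h5.symm).resolve_left x6
      exact G.dual (g_pi0 (rel_dual h) x8 y8)
    · exact g_pe h x6 x8
  by_cases x6 : x 6 = 0
  · by_cases y6 : y 6 = 0
    · exact g_pi0 h x6 y6
    · exact G.swap (key _ _ h.swap y6)
  · exact key _ _ h x6

end Ta21

/-- commuting nilpotent triples whose first matrix is the Jordan matrix of type `(m + 5, 2, 1)` -/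
theorem cl_a21 [IsAlgClosed k] [CharZero k] {m : ℕ}
    {T : Fin 3 → Matrix (Fin (m + 8)) (Fin (m + 8)) k} (hT : CN T) (h0 : T 0 = Ta21.J) : Cl T := by
  obtain ⟨g, x, hg, hx⟩ := Ta21.shape (M := T 1) (by rw [← h0]; exact hT.1 0 1) (hT.2 1)
  obtain ⟨g', y, hg', hy⟩ := Ta21.shape (M := T 2) (by rw [← h0]; exact hT.1 0 2) (hT.2 2)
  have hT3 : ![T 0, T 1, T 2] = T := by
    funext i
    fin_cases i <;> rfl
  rw [← hT3, h0]
  refine Two.cl_sub hg hg' ?_
  have e1 : T 1 - aeval Ta21.J g = Ta21.mk x := by rw [hx, add_sub_cancel_left]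
  have e2 : T 2 - aeval Ta21.J g' = Ta21.mk y := by rw [hy, add_sub_cancel_left]
  have hcomm : (Ta21.mk x : Matrix (Fin (m + 8)) (Fin (m + 8)) k) * Ta21.mk y =
      Ta21.mk y * Ta21.mk x := by
    have hc : ∀ (M : Matrix (Fin (m + 8)) (Fin (m + 8)) k) (p : k[X]), Ta21.J * M = M * Ta21.J →
        Commute (aeval (Ta21.J : Matrix (Fin (m + 8)) (Fin (m + 8)) k) p) M := by
      intro M p hM
      rw [aeval_eq_sum_range]
      exact Commute.sum_left _ _ _ fun i _ =>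
        (Commute.pow_left (show Commute Ta21.J M from hM) i).smul_left _
    have hm1 : Commute (T 1) (T 2) := hT.1 1 2
    have hJ1 : (Ta21.J : Matrix (Fin (m + 8)) (Fin (m + 8)) k) * T 1 = T 1 * Ta21.J := by
      rw [← h0]; exact hT.1 0 1
    have hJ2 : (Ta21.J : Matrix (Fin (m + 8)) (Fin (m + 8)) k) * T 2 = T 2 * Ta21.J := by
      rw [← h0]; exact hT.1 0 2
    have hg1 : Commute (aeval (Ta21.J : Matrix (Fin (m + 8)) (Fin (m + 8)) k) g)
        (aeval Ta21.J g') := by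
      show _ = _
      rw [← map_mul, mul_comm, map_mul]
    have h1 : Commute (T 1 - aeval Ta21.J g) (T 2 - aeval Ta21.J g') :=
      (Commute.sub_left (Commute.sub_right hm1 (hc _ g' hJ1).symm)
        (Commute.sub_right (hc _ g hJ2) hg1))
    rw [e1, e2] at h1
    exact h1
  rw [e1, e2]
  exact Ta21.g_all (Ta21.rel_of_comm hcomm)

theorem no_a21 [IsAlgClosed k] [CharZero k] {ρ : ℕ → ℕ} {m : ℕ}
    {T : Fin 3 → Matrix (Fin (m + 8)) (Fin (m + 8)) k} (hT : MaxR ρ T) (h0 : T 0 = Ta21.J) : False :=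
  hT.ncl (cl_a21 hT.cn h0)

theorem J521_eq : J521 k = (Ta21.J : Matrix (Fin (0 + 8)) (Fin (0 + 8)) k) := by
  ext i j
  fin_cases i <;> fin_cases j <;> simp [J521, Ta21.J]

/-- no maximal bad triple of type `(5, 2, 1)` -/
theorem no_521 [IsAlgClosed k] [CharZero k] {ρ : ℕ → ℕ} {T : Fin 3 → Matrix (Fin 8) (Fin 8) k}
    (hT : MaxR ρ T) (h0 : T 0 = J521 k) : False :=
  no_a21 (m := 0) hT (h0.trans J521_eq)

end Pool.Agent.Lib.D8
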