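import Pool.Agent.Lib.D7.T322a
import Pool.Agent.Lib.D8.Defs

/-!
# MP_5dcbc3_ag: Jordan type `(4, 2, 2)`: the shape of the matrices
-/

namespace Pool.Agent.Lib.D8

open Matrix Pool.Agent.Lib.Q5dc Pool.Agent.Lib.D7

variable {k : Type*} [Field k]

namespace T422aAux

/-- `J422 ^ 2` -/
def K422 (k : Type*) [Field k] : Matrix (Fin 8) (Fin 8) k :=
  !![0, 0, 0, 0, 0, 0, 0, 0;
     0, 0, 0, 0, 0, 0, 0, 0;
     1, 0, 0, 0, 0, 0, 0, 0;
     0, 1, 0, 0, 0, 0, 0, 0;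
     0, 0, 0, 0, 0, 0, 0, 0;
     0, 0, 0, 0, 0, 0, 0, 0;
     0, 0, 0, 0, 0, 0, 0, 0;
     0, 0, 0, 0, 0, 0, 0, 0]

/-- `J422 ^ 3` -/
def L422 (k : Type*) [Field k] : Matrix (Fin 8) (Fin 8) k :=
  !![0, 0, 0, 0, 0, 0, 0, 0;
     0, 0, 0, 0, 0, 0, 0, 0;
     0, 0, 0, 0, 0, 0, 0, 0;
     1, 0, 0, 0, 0, 0, 0, 0;
     0, 0, 0, 0, 0, 0, 0, 0;
     0, 0, 0, 0, 0, 0, 0, 0;
     0, 0, 0, 0, 0, 0, 0, 0;
     0, 0, 0, 0, 0, 0, 0, 0]

theorem K_eq : K422 k = J422 k * J422 k := by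
  ext i j
  rw [Matrix.mul_apply]
  fin_cases i <;> fin_cases j <;> simp [J422, K422, Fin.sum_univ_succ]

theorem L_eq : L422 k = K422 k * J422 k := by
  ext i j
  rw [Matrix.mul_apply]
  fin_cases i <;> fin_cases j <;> simp [J422, K422, L422, Fin.sum_univ_succ]

theorem rank_J_sq : (J422 k ^ 2).rank ≤ 2 := by
  refine rank_le_of_factor _ (Matrix.of fun i j => if i = 2 ∧ j = 0 ∨ i = 3 ∧ j = 1 then 1 else 0)
    (Matrix.of fun i j => if i = 0 ∧ j = 0 ∨ i = 1 ∧ j = 1 then 1 else 0) ?_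
  rw [pow_two, ← K_eq]
  ext i j
  rw [Matrix.mul_apply]
  fin_cases i <;> fin_cases j <;> simp [K422]

/-- the nilpotent matrices commuting with `J422` -/
theorem shape {M : Matrix (Fin 8) (Fin 8) k} (hc : J422 k * M = M * J422 k) (hn : IsNilpotent M) :
    ∃ p1 p2 p3 a0 a1 c0 c1 b0 b1 d0 d1 n00 n01 n10 n11 z00 z01 z10 z11 : k,
      M = p1 • J422 k + p2 • K422 k + p3 • L422 k +
        B422 a0 a1 c0 c1 b0 b1 d0 d1 n00 n01 n10 n11 z00 z01 z10 z11 := by
  have h := hc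
  rw [← Matrix.ext_iff] at h
  simp only [Matrix.mul_apply, J422, Fin.sum_univ_succ, Fin.forall_fin_succ] at h
  simp at h
  obtain ⟨⟨x01, x02, x03, x05, x07⟩, ⟨x00, x12, x13, y03, x04, y05, x06, y07⟩,
    ⟨x10, x11, y12, y13, x14, x15, x16, x17⟩, ⟨x20, x21, x22, x23, x24, x25, x26, x27⟩,
    ⟨x41, x42, x43, x45, x47⟩, ⟨x40, y41, y42, y43, x44, y45, x46, y47⟩,
    ⟨x61, x62, x63, x65, x67⟩, x60, y61, y62, y63, x64, y65, x66, y67⟩ := h
  have h33 : M 3 3 = 0 := by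
    refine D7.T322Aux.eig_zero hn (v := Pi.single 3 1) ?_ (by
      intro h
      have := congrFun h 3
      simp at this)
    funext i
    rw [Matrix.mulVec_single_one, Matrix.col_apply]
    fin_cases i
    · simpa using y03
    · simpa using y13
    · simpa using x23
    · simp
    · simpa using y43
    · simpa [← y42] using x42.symm
    · simpa using y63
    · simpa [← y62] using x62.symm
  refine ⟨M 1 0, M 2 0, M 3 0, M 4 0, M 6 0, M 5 0, M 7 0, M 2 4, M 2 6, M 3 4, M 3 6,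
    M 5 4 - M 1 0, M 5 6, M 7 4, M 7 6 - M 1 0, M 4 4, M 4 6, M 6 4, M 6 6, ?_⟩
  ext i j
  fin_cases i <;> fin_cases j <;> simp [J422, K422, L422, B422] <;> grind

/-! ### the rank of the square -/

theorem minor_zero {n : Type*} [Fintype n] [DecidableEq n] {M : Matrix n n k} (h : M.rank ≤ 2)
    (i i' i'' j j' j'' : n) : (M.submatrix ![i, i', i''] ![j, j', j'']).det = 0 := by
  by_contra hne
  have := le_rank_of_minor M ![i, i', i''] ![j, j', j''] hne
  omega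

theorem coef [CharZero k] {y e g b h a m q z n : k}
    (H : ∀ s : k, (1 + s ^ 2 * y) * ((1 + s ^ 2 * y) * (2 * s * z + s ^ 2 * n) -
      (2 * s * b + s ^ 2 * h) * (s ^ 2 * q)) + s ^ 2 * e * (s ^ 2 * g * (s ^ 2 * q) -
      (1 + s ^ 2 * y) * (2 * s * a + s ^ 2 * m)) = 0) : z = 0 := by
  have h1 := H 1
  have h2 := H (-1)
  have h3 := H 2
  have h4 := H (-2)
  have h5 := H 3
  have h6 := H (-3)
  linear_combination (3 / 8 : k) * (h1 - h2) - 3 / 40 * (h3 - h4) + 1 / 120 * (h5 - h6)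

theorem z_zero [CharZero k] {a0 a1 c0 c1 b0 b1 d0 d1 n00 n01 n10 n11 z00 z01 z10 z11 : k}
    (h : ∀ s : k, ((J422 k + s • B422 a0 a1 c0 c1 b0 b1 d0 d1 n00 n01 n10 n11 z00 z01 z10 z11)
      ^ 2).rank ≤ 2) : z00 = 0 ∧ z01 = 0 ∧ z10 = 0 ∧ z11 = 0 := by
  refine ⟨?_, ?_, ?_, ?_⟩
  · refine coef (y := b0 * a0 + b1 * a1) (e := b0 * z00 + b1 * z10)
      (g := d0 * a0 + b0 * c0 + d1 * a1 + b1 * c1) (b := b0)
      (h := d0 * z00 + b0 * n00 + d1 * z10 + b1 * n10) (a := a0)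
      (m := n00 * a0 + z00 * c0 + n01 * a1 + z01 * c1) (q := z00 * a0 + z01 * a1)
      (n := 2 * n00 * z00 + n01 * z10 + z01 * n10) fun s => ?_
    have h1 := minor_zero (h s) 2 3 5 0 1 4
    rw [Matrix.det_fin_three] at h1
    simp [pow_two, Matrix.mul_apply, Fin.sum_univ_succ, J422, B422] at h1
    linear_combination h1
  · refine coef (y := b0 * a0 + b1 * a1) (e := b0 * z01 + b1 * z11)
      (g := d0 * a0 + b0 * c0 + d1 * a1 + b1 * c1) (b := b1)
      (h := d0 * z01 + b0 * n01 + d1 * z11 + b1 * n11) (a := a0)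
      (m := n00 * a0 + z00 * c0 + n01 * a1 + z01 * c1) (q := z00 * a0 + z01 * a1)
      (n := n00 * z01 + z00 * n01 + n01 * z11 + z01 * n11) fun s => ?_
    have h1 := minor_zero (h s) 2 3 5 0 1 6
    rw [Matrix.det_fin_three] at h1
    simp [pow_two, Matrix.mul_apply, Fin.sum_univ_succ, J422, B422] at h1
    linear_combination h1
  · refine coef (y := b0 * a0 + b1 * a1) (e := b0 * z00 + b1 * z10)
      (g := d0 * a0 + b0 * c0 + d1 * a1 + b1 * c1) (b := b0)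
      (h := d0 * z00 + b0 * n00 + d1 * z10 + b1 * n10) (a := a1)
      (m := n10 * a0 + z10 * c0 + n11 * a1 + z11 * c1) (q := z10 * a0 + z11 * a1)
      (n := n10 * z00 + z10 * n00 + n11 * z10 + z11 * n10) fun s => ?_
    have h1 := minor_zero (h s) 2 3 7 0 1 4
    rw [Matrix.det_fin_three] at h1
    simp [pow_two, Matrix.mul_apply, Fin.sum_univ_succ, J422, B422] at h1
    linear_combination h1
  · refine coef (y := b0 * a0 + b1 * a1) (e := b0 * z01 + b1 * z11)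
      (g := d0 * a0 + b0 * c0 + d1 * a1 + b1 * c1) (b := b1)
      (h := d0 * z01 + b0 * n01 + d1 * z11 + b1 * n11) (a := a1)
      (m := n10 * a0 + z10 * c0 + n11 * a1 + z11 * c1) (q := z10 * a0 + z11 * a1)
      (n := n10 * z01 + z10 * n01 + 2 * n11 * z11) fun s => ?_
    have h1 := minor_zero (h s) 2 3 7 0 1 6
    rw [Matrix.det_fin_three] at h1
    simp [pow_two, Matrix.mul_apply, Fin.sum_univ_succ, J422, B422] at h1
    linear_combination h1

/-! ### the matrices with `z = 0` -/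

/-- the matrices `B422` with `z = 0` -/
def E422 (a0 a1 c0 c1 b0 b1 d0 d1 n00 n01 n10 n11 : k) : Matrix (Fin 8) (Fin 8) k :=
  !![0, 0, 0, 0, 0, 0, 0, 0;
     0, 0, 0, 0, 0, 0, 0, 0;
     0, 0, 0, 0, b0, 0, b1, 0;
     0, 0, 0, 0, d0, b0, d1, b1;
     a0, 0, 0, 0, 0, 0, 0, 0;
     c0, a0, 0, 0, n00, 0, n01, 0;
     a1, 0, 0, 0, 0, 0, 0, 0;
     c1, a1, 0, 0, n10, 0, n11, 0]

theorem E_eq (a0 a1 c0 c1 b0 b1 d0 d1 n00 n01 n10 n11 : k) :
    B422 a0 a1 c0 c1 b0 b1 d0 d1 n00 n01 n10 n11 0 0 0 0 =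
      E422 a0 a1 c0 c1 b0 b1 d0 d1 n00 n01 n10 n11 :=
  rfl

/-- the commutation relations -/
structure Rel (a0 a1 c0 c1 b0 b1 d0 d1 n00 n01 n10 n11
    a0' a1' c0' c1' b0' b1' d0' d1' n00' n01' n10' n11' : k) : Prop where
  h1 : b0 * a0' + b1 * a1' = b0' * a0 + b1' * a1
  h2 : d0 * a0' + d1 * a1' + b0 * c0' + b1 * c1' = d0' * a0 + d1' * a1 + b0' * c0 + b1' * c1
  h3 : n00 * a0' + n01 * a1' = n00' * a0 + n01' * a1
  h3' : n10 * a0' + n11 * a1' = n10' * a0 + n11' * a1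
  h4 : b0 * n00' + b1 * n10' = b0' * n00 + b1' * n10
  h4' : b0 * n01' + b1 * n11' = b0' * n01 + b1' * n11

section

variable {a0 a1 c0 c1 b0 b1 d0 d1 n00 n01 n10 n11
  a0' a1' c0' c1' b0' b1' d0' d1' n00' n01' n10' n11' : k}

theorem rel (h : E422 a0 a1 c0 c1 b0 b1 d0 d1 n00 n01 n10 n11 *
      E422 a0' a1' c0' c1' b0' b1' d0' d1' n00' n01' n10' n11' =
      E422 a0' a1' c0' c1' b0' b1' d0' d1' n00' n01' n10' n11' *
      E422 a0 a1 c0 c1 b0 b1 d0 d1 n00 n01 n10 n11) :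
    Rel a0 a1 c0 c1 b0 b1 d0 d1 n00 n01 n10 n11
      a0' a1' c0' c1' b0' b1' d0' d1' n00' n01' n10' n11' := by
  have h1 := congrFun (congrFun h 2) 0
  have h2 := congrFun (congrFun h 3) 0
  have h3 := congrFun (congrFun h 5) 0
  have h3' := congrFun (congrFun h 7) 0
  have h4 := congrFun (congrFun h 3) 4
  have h4' := congrFun (congrFun h 3) 6
  simp [Matrix.mul_apply, E422, Fin.sum_univ_succ] at h1 h2 h3 h3' h4 h4'
  exact ⟨h1, by linear_combination h2, h3, h3', h4, h4'⟩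

theorem Rel.symm (h : Rel a0 a1 c0 c1 b0 b1 d0 d1 n00 n01 n10 n11
      a0' a1' c0' c1' b0' b1' d0' d1' n00' n01' n10' n11') :
    Rel a0' a1' c0' c1' b0' b1' d0' d1' n00' n01' n10' n11'
      a0 a1 c0 c1 b0 b1 d0 d1 n00 n01 n10 n11 :=
  ⟨h.h1.symm, h.h2.symm, h.h3.symm, h.h3'.symm, h.h4.symm, h.h4'.symm⟩

/-- the dual relations -/
theorem Rel.dual (h : Rel a0 a1 c0 c1 b0 b1 d0 d1 n00 n01 n10 n11
      a0' a1' c0' c1' b0' b1' d0' d1' n00' n01' n10' n11') :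
    Rel b0 b1 d0 d1 a0 a1 c0 c1 n00 n10 n01 n11
      b0' b1' d0' d1' a0' a1' c0' c1' n00' n10' n01' n11' :=
  ⟨by linear_combination -h.h1, by linear_combination -h.h2,
    by linear_combination -h.h4, by linear_combination -h.h4',
    by linear_combination -h.h3, by linear_combination -h.h3'⟩

/-- the first matrix may be replaced by `B - la C` -/
theorem Rel.sub (la : k) (h : Rel a0 a1 c0 c1 b0 b1 d0 d1 n00 n01 n10 n11
      a0' a1' c0' c1' b0' b1' d0' d1' n00' n01' n10' n11') :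
    Rel (a0 - la * a0') (a1 - la * a1') (c0 - la * c0') (c1 - la * c1')
      (b0 - la * b0') (b1 - la * b1') (d0 - la * d0') (d1 - la * d1')
      (n00 - la * n00') (n01 - la * n01') (n10 - la * n10') (n11 - la * n11')
      a0' a1' c0' c1' b0' b1' d0' d1' n00' n01' n10' n11' :=
  ⟨by linear_combination h.h1, by linear_combination h.h2, by linear_combination h.h3,
    by linear_combination h.h3', by linear_combination h.h4, by linear_combination h.h4'⟩

theorem E_sub_smul (s : k) : E422 a0 a1 c0 c1 b0 b1 d0 d1 n00 n01 n10 n11 -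
    s • E422 a0' a1' c0' c1' b0' b1' d0' d1' n00' n01' n10' n11' =
    E422 (a0 - s * a0') (a1 - s * a1') (c0 - s * c0') (c1 - s * c1')
      (b0 - s * b0') (b1 - s * b1') (d0 - s * d0') (d1 - s * d1')
      (n00 - s * n00') (n01 - s * n01') (n10 - s * n10') (n11 - s * n11') := by
  ext i j
  fin_cases i <;> fin_cases j <;> simp [E422]

theorem E_add_smul (s : k) : E422 a0 a1 c0 c1 b0 b1 d0 d1 n00 n01 n10 n11 +
    s • E422 a0' a1' c0' c1' b0' b1' d0' d1' n00' n01' n10' n11' =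
    E422 (a0 + s * a0') (a1 + s * a1') (c0 + s * c0') (c1 + s * c1')
      (b0 + s * b0') (b1 + s * b1') (d0 + s * d0') (d1 + s * d1')
      (n00 + s * n00') (n01 + s * n01') (n10 + s * n10') (n11 + s * n11') := by
  ext i j
  fin_cases i <;> fin_cases j <;> simp [E422]

end

end T422aAux

end Pool.Agent.Lib.D8
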