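import Pool.Agent.Lib.D8.DefsB
import Pool.Agent.Lib.D7.Api

/-!
# MP_5dcbc3_ag: computation rules for the matrices of `DefsB`
-/

namespace Pool.Agent.Lib.D8

open Matrix Pool.Agent.Lib.Q5dc Pool.Agent.Lib.D7

variable {k : Type*} [Field k]

/-! ### type (3, 3, 2) -/

section T332

variable (N M N' M' : Matrix (Fin 2) (Fin 2) k) (a c b d a' c' b' d' : Fin 2 → k) (nu nu' s : k)

theorem J332_eq : J332 k = B332 1 0 0 0 0 0 1 := by
  ext i j
  fin_cases i <;> fin_cases j <;> simp [J332, B332]

theorem B332_add :
    B332 N M a c b d nu + B332 N' M' a' c' b' d' nu' =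
      B332 (N + N') (M + M') (a + a') (c + c') (b + b') (d + d') (nu + nu') := by
  ext i j
  fin_cases i <;> fin_cases j <;> simp [B332]

theorem B332_smul :
    s • B332 N M a c b d nu =
      B332 (s • N) (s • M) (s • a) (s • c) (s • b) (s • d) (s * nu) := by
  ext i j
  fin_cases i <;> fin_cases j <;> simp [B332]

theorem B332_mul :
    B332 N M a c b d nu * B332 N' M' a' c' b' d' nu' =
      B332 (vecMulVec b a') (N * N' + vecMulVec d a' + vecMulVec b c') 0
        (a ᵥ* N' + nu • a') 0 (N *ᵥ b' + nu' • b) (a ⬝ᵥ b') := by
  ext i j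
  fin_cases i <;> fin_cases j <;>
    simp [B332, Matrix.mul_apply, Fin.sum_univ_eight, Fin.sum_univ_two, vecMulVec_apply,
      vecMul, dotProduct] <;> ring

theorem B332_inj :
    B332 N M a c b d nu = B332 N' M' a' c' b' d' nu' ↔
      N = N' ∧ M = M' ∧ a = a' ∧ c = c' ∧ b = b' ∧ d = d' ∧ nu = nu' := by
  constructor
  · intro h
    have H : ∀ i j, B332 N M a c b d nu i j = B332 N' M' a' c' b' d' nu' i j := by
      intro i j
      rw [h]
    refine ⟨?_, ?_, ?_, ?_, ?_, ?_, ?_⟩
    · ext i j
      fin_cases i <;> fin_cases j
      · simpa [B332] using H 1 0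
      · simpa [B332] using H 1 3
      · simpa [B332] using H 4 0
      · simpa [B332] using H 4 3
    · ext i j
      fin_cases i <;> fin_cases j
      · simpa [B332] using H 2 0
      · simpa [B332] using H 2 3
      · simpa [B332] using H 5 0
      · simpa [B332] using H 5 3
    · ext i
      fin_cases i
      · simpa [B332] using H 6 0
      · simpa [B332] using H 6 3
    · ext i
      fin_cases i
      · simpa [B332] using H 7 0
      · simpa [B332] using H 7 3
    · ext i
      fin_cases i
      · simpa [B332] using H 1 6
      · simpa [B332] using H 4 6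
    · ext i
      fin_cases i
      · simpa [B332] using H 2 6
      · simpa [B332] using H 5 6
    · simpa [B332] using H 7 6
  · rintro ⟨rfl, rfl, rfl, rfl, rfl, rfl, rfl⟩
    rfl

theorem J332_comm : J332 k * B332 N M a c b d nu = B332 N M a c b d nu * J332 k := by
  rw [J332_eq, B332_mul, B332_mul, B332_inj]
  refine ⟨?_, ?_, ?_, ?_, ?_, ?_, ?_⟩ <;> simp [vecMulVec_zero, zero_vecMulVec]

end T332

/-! ### type (3, 3, 1, 1) -/

section T3311

variable (N M W T N' M' W' T' : Matrix (Fin 2) (Fin 2) k) (s : k)

theorem J3311_eq : J3311 k = B3311 1 0 0 0 := by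
  ext i j
  fin_cases i <;> fin_cases j <;> simp [J3311, B3311]

theorem B3311_add :
    B3311 N M W T + B3311 N' M' W' T' = B3311 (N + N') (M + M') (W + W') (T + T') := by
  ext i j
  fin_cases i <;> fin_cases j <;> simp [B3311]

theorem B3311_smul : s • B3311 N M W T = B3311 (s • N) (s • M) (s • W) (s • T) := by
  ext i j
  fin_cases i <;> fin_cases j <;> simp [B3311]

theorem B3311_mul :
    B3311 N M W T * B3311 N' M' W' T' = B3311 0 (N * N' + T * W') 0 0 := by
  ext i j
  fin_cases i <;> fin_cases j <;>
    simp [B3311, Matrix.mul_apply, Fin.sum_univ_eight, Fin.sum_univ_two] <;> ring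

theorem B3311_inj :
    B3311 N M W T = B3311 N' M' W' T' ↔ N = N' ∧ M = M' ∧ W = W' ∧ T = T' := by
  constructor
  · intro h
    have H : ∀ i j, B3311 N M W T i j = B3311 N' M' W' T' i j := by
      intro i j
      rw [h]
    refine ⟨?_, ?_, ?_, ?_⟩
    · ext i j
      fin_cases i <;> fin_cases j
      · simpa [B3311] using H 1 0
      · simpa [B3311] using H 1 3
      · simpa [B3311] using H 4 0
      · simpa [B3311] using H 4 3
    · ext i j
      fin_cases i <;> fin_cases j
      · simpa [B3311] using H 2 0
      · simpa [B3311] using H 2 3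
      · simpa [B3311] using H 5 0
      · simpa [B3311] using H 5 3
    · ext i j
      fin_cases i <;> fin_cases j
      · simpa [B3311] using H 6 0
      · simpa [B3311] using H 6 3
      · simpa [B3311] using H 7 0
      · simpa [B3311] using H 7 3
    · ext i j
      fin_cases i <;> fin_cases j
      · simpa [B3311] using H 2 6
      · simpa [B3311] using H 2 7
      · simpa [B3311] using H 5 6
      · simpa [B3311] using H 5 7
  · rintro ⟨rfl, rfl, rfl, rfl⟩
    rfl

/-- the condition for commuting -/
theorem B3311_comm :
    B3311 N M W T * B3311 N' M' W' T' = B3311 N' M' W' T' * B3311 N M W T ↔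
      N * N' + T * W' = N' * N + T' * W := by
  rw [B3311_mul, B3311_mul, B3311_inj]
  simp

end T3311

/-! ### type (3, 2, 2, 1) -/

section T3221

variable (a c : Fin 2 → k) (om : k) (b d : Fin 2 → k) (N : Matrix (Fin 2) (Fin 2) k)
  (p : Fin 2 → k) (th : k) (e : Fin 2 → k)
  (a' c' : Fin 2 → k) (om' : k) (b' d' : Fin 2 → k) (N' : Matrix (Fin 2) (Fin 2) k)
  (p' : Fin 2 → k) (th' : k) (e' : Fin 2 → k) (s : k)

theorem B3221_add :
    B3221 a c om b d N p th e + B3221 a' c' om' b' d' N' p' th' e' =
      B3221 (a + a') (c + c') (om + om') (b + b') (d + d') (N + N') (p + p') (th + th')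
        (e + e') := by
  ext i j
  fin_cases i <;> fin_cases j <;> simp [B3221]

theorem B3221_smul :
    s • B3221 a c om b d N p th e =
      B3221 (s • a) (s • c) (s * om) (s • b) (s • d) (s • N) (s • p) (s * th) (s • e) := by
  ext i j
  fin_cases i <;> fin_cases j <;> simp [B3221]

theorem J3221_comm :
    J3221 k * B3221 a c om b d N p th e = B3221 a c om b d N p th e * J3221 k := by
  ext i j
  fin_cases i <;> fin_cases j <;>
    simp [B3221, J3221, Matrix.mul_apply, Fin.sum_univ_eight]

/-- the conditions for commuting -/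
theorem B3221_comm :
    B3221 a c om b d N p th e * B3221 a' c' om' b' d' N' p' th' e' =
      B3221 a' c' om' b' d' N' p' th' e' * B3221 a c om b d N p th e ↔
      b ⬝ᵥ a' = b' ⬝ᵥ a ∧
      d ⬝ᵥ a' + b ⬝ᵥ c' + om' * th = d' ⬝ᵥ a + b' ⬝ᵥ c + om * th' ∧
      N *ᵥ a' + om' • e = N' *ᵥ a + om • e' ∧
      p ⬝ᵥ a' = p' ⬝ᵥ a ∧
      vecMulVec a b' + vecMulVec e p' = vecMulVec a' b + vecMulVec e' p ∧
      b ᵥ* N' + th • p' = b' ᵥ* N + th' • p ∧
      b ⬝ᵥ e' = b' ⬝ᵥ e := by
  constructor
  · intro h
    have H : ∀ i j, (B3221 a c om b d N p th e * B3221 a' c' om' b' d' N' p' th' e') i j =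
        (B3221 a' c' om' b' d' N' p' th' e' * B3221 a c om b d N p th e) i j := by
      intro i j
      rw [h]
    have h10 := H 1 0
    have h20 := H 2 0
    have h40 := H 4 0
    have h60 := H 6 0
    have h70 := H 7 0
    have h43 := H 4 3
    have h45 := H 4 5
    have h63 := H 6 3
    have h65 := H 6 5
    have h23 := H 2 3
    have h25 := H 2 5
    have h27 := H 2 7
    simp [B3221, Matrix.mul_apply, Fin.sum_univ_eight] at h10 h20 h40 h60 h70 h43 h45 h63 h65 h23 h25 h27
    refine ⟨?_, ?_, ?_, ?_, ?_, ?_, ?_⟩
    · simp [dotProduct, Fin.sum_univ_two]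
      linear_combination h10
    · simp [dotProduct, Fin.sum_univ_two]
      linear_combination h20
    · ext i
      fin_cases i <;> simp [mulVec, dotProduct, Fin.sum_univ_two]
      · linear_combination h40
      · linear_combination h60
    · simp [dotProduct, Fin.sum_univ_two]
      linear_combination h70
    · ext i j
      fin_cases i <;> fin_cases j <;> simp [vecMulVec_apply]
      · linear_combination h43
      · linear_combination h45
      · linear_combination h63
      · linear_combination h65
    · ext i
      fin_cases i <;> simp [vecMul, dotProduct, Fin.sum_univ_two]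
      · linear_combination h23
      · linear_combination h25
    · simp [dotProduct, Fin.sum_univ_two]
      linear_combination h27
  · rintro ⟨h1, h2, h3, h4, h5, h6, h7⟩
    have h30 := congrFun h3 0
    have h31 := congrFun h3 1
    have h500 := congrFun (congrFun h5 0) 0
    have h501 := congrFun (congrFun h5 0) 1
    have h510 := congrFun (congrFun h5 1) 0
    have h511 := congrFun (congrFun h5 1) 1
    have h60 := congrFun h6 0
    have h61 := congrFun h6 1
    simp [vecMulVec_apply, vecMul, mulVec, dotProduct, Fin.sum_univ_two] at h1 h2 h30 h31 h4 h500 h501 h510 h511 h60 h61 h7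
    ext i j
    fin_cases i <;> fin_cases j <;>
      simp [B3221, Matrix.mul_apply, Fin.sum_univ_eight]
    · linear_combination h1
    · linear_combination h2
    · linear_combination h1
    · linear_combination h60
    · linear_combination h61
    · linear_combination h7
    · linear_combination h30
    · linear_combination h500
    · linear_combination h501
    · linear_combination h31
    · linear_combination h510
    · linear_combination h511
    · linear_combination h4

end T3221

end Pool.Agent.Lib.D8
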