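import Mathlib

/-!
# MP_5dcbc3_ag: explicit families of commuting triples of 8 x 8 matrices

`P i j` = coefficient of `e_i` in the image of `e_j`. Families with parameter `s`: commuting, the
matrix indicated has nonzero seventh power for `s <> 0`.
-/

namespace Pool.Agent.Lib.D8

/-- family for the node `(6,2)` -/
def Xn62 {k : Type*} [Field k] (s : k) : Matrix (Fin 8) (Fin 8) k :=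
  !![0, 0, 0, 0, 0, 0, 0, 0;
     1, 0, 0, 0, 0, 0, -s ^ 6, s ^ 3;
     0, 1, 0, 0, 0, 0, s ^ 5, 0;
     0, 0, 1, 0, 0, 0, -s ^ 4, 0;
     0, 0, 0, 1, 0, 0, s ^ 3, 0;
     0, 0, 0, 0, 1, 0, -s ^ 2, 0;
     0, 0, 0, 0, 0, 1, s, 0;
     0, 0, 0, 0, 0, 0, s ^ 4, -s]

/-- family for the node `(6,2)` -/
def Yn62 {k : Type*} [Field k] (s : k) : Matrix (Fin 8) (Fin 8) k :=
  !![0, 0, 0, 0, 0, 0, 0, 0;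
     0, s ^ 3, -s ^ 4, s ^ 5, -s ^ 6, s ^ 7, -s ^ 8, 6 * s ^ 5;
     0, 0, s ^ 3, -s ^ 4, s ^ 5, -s ^ 6, s ^ 7, -5 * s ^ 4;
     0, 0, 0, s ^ 3, -s ^ 4, s ^ 5, -s ^ 6, 4 * s ^ 3;
     0, 0, 0, 0, s ^ 3, -s ^ 4, s ^ 5, -3 * s ^ 2;
     0, 0, 0, 0, 0, s ^ 3, -s ^ 4, 2 * s;
     0, 0, 0, 0, 0, 0, s ^ 3, -1;
     1, -s, s ^ 2, -s ^ 3, s ^ 4, -s ^ 5, s ^ 6, -6 * s ^ 3]

/-- family for the node `(6,2)` -/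
def Pn62 {k : Type*} [Field k] (s : k) : Matrix (Fin 8) (Fin 8) k :=
  !![1, 0, 0, 0, 0, 0, 0, 0;
     0, s, 0, 0, 0, 0, 0, s ^ 3;
     0, 0, s ^ 2, 0, 0, 0, 0, -s ^ 3;
     0, 0, 0, s ^ 3, 0, 0, 0, s ^ 3;
     0, 0, 0, 0, s ^ 4, 0, 0, -s ^ 3;
     0, 0, 0, 0, 0, s ^ 5, 0, s ^ 3;
     0, 0, 0, 0, 0, 0, s ^ 6, -s ^ 3;
     0, 0, 0, 0, 0, 0, 0, s ^ 3]

/-- family for the node `(5,3)` -/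
def Xn53 {k : Type*} [Field k] (s : k) : Matrix (Fin 8) (Fin 8) k :=
  !![0, 0, 0, 0, 0, 0, 0, 0;
     1, 0, 0, 0, 0, 6 * s ^ 15, s ^ 5, s ^ 10;
     0, 1, 0, 0, 0, -5 * s ^ 12, 0, 0;
     0, 0, 1, 0, 0, 4 * s ^ 9, 0, 0;
     0, 0, 0, 1, 0, -3 * s ^ 6, 0, 0;
     0, 0, 0, 0, 1, 2 * s ^ 3, 0, 0;
     0, 0, 0, 0, 0, -6 * s ^ 13, -s ^ 3, -s ^ 8;
     0, 0, 0, 0, 0, -s ^ 8, 0, -s ^ 3]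

/-- family for the node `(5,3)` -/
def Yn53 {k : Type*} [Field k] (s : k) : Matrix (Fin 8) (Fin 8) k :=
  !![0, 0, 0, 0, 0, 0, 0, 0;
     0, s ^ 5, -s ^ 8, s ^ 11, -s ^ 14, s ^ 17, 0, 15 * s ^ 12;
     0, 0, s ^ 5, -s ^ 8, s ^ 11, -s ^ 14, 0, -10 * s ^ 9;
     0, 0, 0, s ^ 5, -s ^ 8, s ^ 11, 0, 6 * s ^ 6;
     0, 0, 0, 0, s ^ 5, -s ^ 8, 0, -3 * s ^ 3;
     0, 0, 0, 0, 0, s ^ 5, 0, 1;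
     1, -s ^ 3, s ^ 6, -s ^ 9, s ^ 12, -s ^ 15, 0, -15 * s ^ 10;
     0, 0, 0, 0, 0, 0, 1, -5 * s ^ 5]

/-- family for the node `(5,3)` -/
def Pn53 {k : Type*} [Field k] (s : k) : Matrix (Fin 8) (Fin 8) k :=
  !![1, 0, 0, 0, 0, 0, 0, 0;
     0, s ^ 3, 0, 0, 0, 0, s ^ 5, 0;
     0, 0, s ^ 6, 0, 0, 0, -s ^ 5, s ^ 10;
     0, 0, 0, s ^ 9, 0, 0, s ^ 5, -2 * s ^ 10;
     0, 0, 0, 0, s ^ 12, 0, -s ^ 5, 3 * s ^ 10;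
     0, 0, 0, 0, 0, s ^ 15, s ^ 5, -4 * s ^ 10;
     0, 0, 0, 0, 0, 0, -s ^ 5, 5 * s ^ 10;
     0, 0, 0, 0, 0, 0, s ^ 5, -6 * s ^ 10]

/-- family for the node `(4,4)` -/
def Xn44 {k : Type*} [Field k] (s : k) : Matrix (Fin 8) (Fin 8) k :=
  !![0, 0, 0, 0, 0, 0, 0, 0;
     1, 0, 0, 0, -15 * s ^ 4, s, s ^ 2, s ^ 3;
     0, 1, 0, 0, 10 * s ^ 3, 0, 0, 0;
     0, 0, 1, 0, -6 * s ^ 2, 0, 0, 0;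
     0, 0, 0, 1, 3 * s, 0, 0, 0;
     0, 0, 0, 0, 15 * s ^ 4, -s, -s ^ 2, -s ^ 3;
     0, 0, 0, 0, 5 * s ^ 3, 0, -s, -s ^ 2;
     0, 0, 0, 0, s ^ 2, 0, 0, -s]

/-- family for the node `(4,4)` -/
def Yn44 {k : Type*} [Field k] (s : k) : Matrix (Fin 8) (Fin 8) k :=
  !![0, 0, 0, 0, 0, 0, 0, 0;
     0, s, -s ^ 2, s ^ 3, -s ^ 4, 0, 0, 20 * s ^ 3;
     0, 0, s, -s ^ 2, s ^ 3, 0, 0, -10 * s ^ 2;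
     0, 0, 0, s, -s ^ 2, 0, 0, 4 * s;
     0, 0, 0, 0, s, 0, 0, -1;
     1, -s, s ^ 2, -s ^ 3, s ^ 4, 0, 0, -20 * s ^ 3;
     0, 0, 0, 0, 0, 1, 0, -10 * s ^ 2;
     0, 0, 0, 0, 0, 0, 1, -4 * s]

/-- family for the node `(4,4)` -/
def Pn44 {k : Type*} [Field k] (s : k) : Matrix (Fin 8) (Fin 8) k :=
  !![1, 0, 0, 0, 0, 0, 0, 0;
     0, s, 0, 0, 0, s, 0, 0;
     0, 0, s ^ 2, 0, 0, -s, s ^ 2, 0;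
     0, 0, 0, s ^ 3, 0, s, -2 * s ^ 2, s ^ 3;
     0, 0, 0, 0, s ^ 4, -s, 3 * s ^ 2, -3 * s ^ 3;
     0, 0, 0, 0, 0, s, -4 * s ^ 2, 6 * s ^ 3;
     0, 0, 0, 0, 0, -s, 5 * s ^ 2, -10 * s ^ 3;
     0, 0, 0, 0, 0, s, -6 * s ^ 2, 15 * s ^ 3]

/-- the node algebra `xy = 0, y^3 = c x^5` (basis `1, x, .., x^5, y, .., y^2`) -/
def Nd53 {k : Type*} [Field k] (c : k) : Fin 3 → Matrix (Fin 8) (Fin 8) k :=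
  ![!![0, 0, 0, 0, 0, 0, 0, 0;
     1, 0, 0, 0, 0, 0, 0, 0;
     0, 1, 0, 0, 0, 0, 0, 0;
     0, 0, 1, 0, 0, 0, 0, 0;
     0, 0, 0, 1, 0, 0, 0, 0;
     0, 0, 0, 0, 1, 0, 0, 0;
     0, 0, 0, 0, 0, 0, 0, 0;
     0, 0, 0, 0, 0, 0, 0, 0],
    !![0, 0, 0, 0, 0, 0, 0, 0;
     0, 0, 0, 0, 0, 0, 0, 0;
     0, 0, 0, 0, 0, 0, 0, 0;
     0, 0, 0, 0, 0, 0, 0, 0;
     0, 0, 0, 0, 0, 0, 0, 0;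
     0, 0, 0, 0, 0, 0, 0, c;
     1, 0, 0, 0, 0, 0, 0, 0;
     0, 0, 0, 0, 0, 0, 1, 0], 0]

/-- the node algebra `xy = 0, y^4 = c x^4` (basis `1, x, .., x^4, y, .., y^3`) -/
def Nd44 {k : Type*} [Field k] (c : k) : Fin 3 → Matrix (Fin 8) (Fin 8) k :=
  ![!![0, 0, 0, 0, 0, 0, 0, 0;
     1, 0, 0, 0, 0, 0, 0, 0;
     0, 1, 0, 0, 0, 0, 0, 0;
     0, 0, 1, 0, 0, 0, 0, 0;
     0, 0, 0, 1, 0, 0, 0, 0;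
     0, 0, 0, 0, 0, 0, 0, 0;
     0, 0, 0, 0, 0, 0, 0, 0;
     0, 0, 0, 0, 0, 0, 0, 0],
    !![0, 0, 0, 0, 0, 0, 0, 0;
     0, 0, 0, 0, 0, 0, 0, 0;
     0, 0, 0, 0, 0, 0, 0, 0;
     0, 0, 0, 0, 0, 0, 0, 0;
     0, 0, 0, 0, 0, 0, 0, c;
     1, 0, 0, 0, 0, 0, 0, 0;
     0, 0, 0, 0, 0, 1, 0, 0;
     0, 0, 0, 0, 0, 0, 1, 0], 0]

/-- three axes: `XY = XZ = YZ = 0`, `X^4 = -Y^2 - Z^2` for `s = 0`; basis `1, X, X^2, X^3, Y, Z, Y^2, Z^2`; `X^7 <> 0` for `s <> 0` -/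
def R422 {k : Type*} [Field k] (s : k) : Fin 3 → Matrix (Fin 8) (Fin 8) k :=
  ![!![0, 0, 0, 0, 0, 0, 0, 0;
     1, 0, 0, 0, 1 / 2 * s ^ 2, -1 / 2 * s ^ 2, 1 / 4 * s ^ 4, 1 / 4 * s ^ 4;
     0, 1, 0, -2 * s ^ 2, 0, 0, 0, 0;
     0, 0, 1, 0, 0, 0, 0, 0;
     0, 0, 0, -5 / 2 * s ^ 2, -s, 0, -1 / 2 * s ^ 3, 0;
     0, 0, 0, 5 / 2 * s ^ 2, 0, s, 0, -1 / 2 * s ^ 3;
     0, 0, 0, -1, 0, 0, -s, 0;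
     0, 0, 0, -1, 0, 0, 0, s],
    !![0, 0, 0, 0, 0, 0, 0, 0;
     0, 1 / 2 * s ^ 2, -1 / 2 * s ^ 3, 1 / 2 * s ^ 4, 0, 0, 3 / 2 * s ^ 5, 0;
     0, 0, 1 / 2 * s ^ 2, -1 / 2 * s ^ 3, 0, 0, -1 / 2 * s ^ 4, 0;
     0, 0, 0, 1 / 2 * s ^ 2, 0, 0, 1 / 2 * s ^ 3, 0;
     1, -s, s ^ 2, -s ^ 3, 0, -1 / 4 * s ^ 2, -39 / 16 * s ^ 4, 1 / 16 * s ^ 4;
     0, 0, 0, 0, 0, 1 / 4 * s ^ 2, -9 / 16 * s ^ 4, -1 / 16 * s ^ 4;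
     0, 0, 0, 0, 1, 0, -2 * s ^ 2, 0;
     0, 0, 0, 0, 0, 0, 1 / 4 * s ^ 2, 1 / 4 * s ^ 2],
    !![0, 0, 0, 0, 0, 0, 0, 0;
     0, -1 / 2 * s ^ 2, -1 / 2 * s ^ 3, -1 / 2 * s ^ 4, 0, 0, 0, 3 / 2 * s ^ 5;
     0, 0, -1 / 2 * s ^ 2, -1 / 2 * s ^ 3, 0, 0, 0, 1 / 2 * s ^ 4;
     0, 0, 0, -1 / 2 * s ^ 2, 0, 0, 0, 1 / 2 * s ^ 3;
     0, 0, 0, 0, -1 / 4 * s ^ 2, 0, -1 / 16 * s ^ 4, -9 / 16 * s ^ 4;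
     1, s, s ^ 2, s ^ 3, 1 / 4 * s ^ 2, 0, 1 / 16 * s ^ 4, -39 / 16 * s ^ 4;
     0, 0, 0, 0, 0, 0, -1 / 4 * s ^ 2, -1 / 4 * s ^ 2;
     0, 0, 0, 0, 0, 1, 0, 2 * s ^ 2]]

/-- three axes: `XY = XZ = YZ = 0`, `Z^2 = X^3 + Y^3` for `s = 0`; basis `1, X, X^2, X^3, Y, Y^2, Y^3, Z`; `X^7 <> 0` for `s <> 0` -/
def R332 {k : Type*} [Field k] (s : k) : Fin 3 → Matrix (Fin 8) (Fin 8) k :=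
  ![!![0, 0, 0, 0, 0, 0, 0, 0;
     1, 0, 0, 21 / 32 * s ^ 6, -1 / 4 * s ^ 2, 1 / 16 * s ^ 4, -1 / 64 * s ^ 6, -s ^ 3;
     0, 1, 0, -s ^ 4, 0, 0, 0, 0;
     0, 0, 1, 5 / 4 * s ^ 2, 0, 0, 0, 0;
     0, 0, 0, -11 / 32 * s ^ 6, -1 / 4 * s ^ 2, 1 / 16 * s ^ 4, -1 / 64 * s ^ 6, 0;
     0, 0, 0, 3 / 8 * s ^ 4, 0, -1 / 4 * s ^ 2, 1 / 16 * s ^ 4, 0;
     0, 0, 0, -1 / 4 * s ^ 2, 0, 0, -1 / 4 * s ^ 2, 0;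
     0, 0, 0, 1 / 2 * s ^ 5, 0, 0, 0, -1 / 2 * s ^ 2],
    !![0, 0, 0, 0, 0, 0, 0, 0;
     0, -1 / 4 * s ^ 2, 1 / 16 * s ^ 4, -1 / 64 * s ^ 6, 0, 0, -11 / 32 * s ^ 6, 0;
     0, 0, -1 / 4 * s ^ 2, 1 / 16 * s ^ 4, 0, 0, 3 / 8 * s ^ 4, 0;
     0, 0, 0, -1 / 4 * s ^ 2, 0, 0, -1 / 4 * s ^ 2, 0;
     1, -1 / 4 * s ^ 2, 1 / 16 * s ^ 4, -1 / 64 * s ^ 6, 0, 0, 21 / 32 * s ^ 6, s ^ 3;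
     0, 0, 0, 0, 1, 0, -s ^ 4, 0;
     0, 0, 0, 0, 0, 1, 5 / 4 * s ^ 2, 0;
     0, 0, 0, 0, 0, 0, -1 / 2 * s ^ 5, -1 / 2 * s ^ 2],
    !![0, 0, 0, 0, 0, 0, 0, 0;
     0, -s ^ 3, 1 / 2 * s ^ 5, -1 / 4 * s ^ 7, 0, 0, 0, 15 / 8 * s ^ 4;
     0, 0, -s ^ 3, 1 / 2 * s ^ 5, 0, 0, 0, -7 / 4 * s ^ 2;
     0, 0, 0, -s ^ 3, 0, 0, 0, 1;
     0, 0, 0, 0, s ^ 3, -1 / 2 * s ^ 5, 1 / 4 * s ^ 7, 15 / 8 * s ^ 4;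
     0, 0, 0, 0, 0, s ^ 3, -1 / 2 * s ^ 5, -7 / 4 * s ^ 2;
     0, 0, 0, 0, 0, 0, s ^ 3, 1;
     1, -1 / 2 * s ^ 2, 1 / 4 * s ^ 4, -1 / 8 * s ^ 6, -1 / 2 * s ^ 2, 1 / 4 * s ^ 4, -1 / 8 * s ^ 6, 0]]

/-- three axes, two generators `E0, E1` (`X E1 = 0`, `Y E1 = -Y E0`, `Z E1 = Z E0`), `X^3 = Z^2 - Y^2` on `E0` for `s = 0`; basis `E0, E1, X, X^2, Y, Z, Y^2, Z^2` (on `E0`); `X^7 <> 0` for `s <> 0` -/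
def S322 {k : Type*} [Field k] (s : k) : Fin 3 → Matrix (Fin 8) (Fin 8) k :=
  ![!![0, -s ^ 2, 0, 2187 * s ^ 6, 0, 0, 0, 0;
     0, -3 * s ^ 2, 0, 6561 * s ^ 6, 0, 0, 0, 0;
     1, 0, 0, -137 * s ^ 4, 4 * s ^ 3, 32 * s ^ 3, 16 * s ^ 6, 1024 * s ^ 6;
     0, 0, 1, 15 * s ^ 2, 0, 0, 0, 0;
     0, 0, 0, -40 * s ^ 3, -2 * s ^ 2, 0, -8 * s ^ 5, 0;
     0, 0, 0, -64 * s ^ 3, 0, -4 * s ^ 2, 0, -128 * s ^ 5;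
     0, 0, 0, -1, 0, 0, -2 * s ^ 2, 0;
     0, 0, 0, 1, 0, 0, 0, -4 * s ^ 2],
    !![0, 4 * s ^ 3, 0, 0, 0, 0, 17496 * s ^ 9, 0;
     0, 12 * s ^ 3, 0, 0, 0, 0, 52488 * s ^ 9, 0;
     0, 0, 4 * s ^ 3, -8 * s ^ 5, 0, 0, -136 * s ^ 7, 0;
     0, 0, 0, 4 * s ^ 3, 0, 0, 8 * s ^ 5, 0;
     1, -1, -2 * s ^ 2, 4 * s ^ 4, 0, -32 * s ^ 3, -800 * s ^ 6, 1024 * s ^ 6;
     0, 0, 0, 0, 0, 8 * s ^ 3, -512 * s ^ 6, -256 * s ^ 6;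
     0, 0, 0, 0, 1, 0, -36 * s ^ 3, 0;
     0, 0, 0, 0, 0, 0, 4 * s ^ 3, 8 * s ^ 3],
    !![0, -32 * s ^ 3, 0, 0, 0, 0, 0, 279936 * s ^ 9;
     0, -96 * s ^ 3, 0, 0, 0, 0, 0, 839808 * s ^ 9;
     0, 0, 32 * s ^ 3, -128 * s ^ 5, 0, 0, 0, 2432 * s ^ 7;
     0, 0, 0, 32 * s ^ 3, 0, 0, 0, -128 * s ^ 5;
     0, 0, 0, 0, -32 * s ^ 3, 0, -256 * s ^ 6, -2816 * s ^ 6;
     1, 1, -4 * s ^ 2, 16 * s ^ 4, 8 * s ^ 3, 0, 64 * s ^ 6, -11264 * s ^ 6;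
     0, 0, 0, 0, 0, 0, -32 * s ^ 3, -64 * s ^ 3;
     0, 0, 0, 0, 0, 1, 0, 96 * s ^ 3]]

/-- the algebra of a ternary cubic `f` (coefficients `f 0 .. f 9` = `F_111, F_112, F_113, F_122, F_123, F_133, F_222, F_223, F_233, F_333`):
basis `1, e1, e2, e3, e4, e5, e6, e7`, `x_i e0 = e_i`, `x_i e_j = sum_k F_ijk e_(3+k)`, `x_i e_(3+i) = e7` -/
def TF {k : Type*} [Field k] (f : Fin 10 → k) : Fin 3 → Matrix (Fin 8) (Fin 8) k :=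
  ![!![0, 0, 0, 0, 0, 0, 0, 0;
     1, 0, 0, 0, 0, 0, 0, 0;
     0, 0, 0, 0, 0, 0, 0, 0;
     0, 0, 0, 0, 0, 0, 0, 0;
     0, f 0, f 1, f 2, 0, 0, 0, 0;
     0, f 1, f 3, f 4, 0, 0, 0, 0;
     0, f 2, f 4, f 5, 0, 0, 0, 0;
     0, 0, 0, 0, 1, 0, 0, 0],
    !![0, 0, 0, 0, 0, 0, 0, 0;
     0, 0, 0, 0, 0, 0, 0, 0;
     1, 0, 0, 0, 0, 0, 0, 0;
     0, 0, 0, 0, 0, 0, 0, 0;
     0, f 1, f 3, f 4, 0, 0, 0, 0;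
     0, f 3, f 6, f 7, 0, 0, 0, 0;
     0, f 4, f 7, f 8, 0, 0, 0, 0;
     0, 0, 0, 0, 0, 1, 0, 0],
    !![0, 0, 0, 0, 0, 0, 0, 0;
     0, 0, 0, 0, 0, 0, 0, 0;
     0, 0, 0, 0, 0, 0, 0, 0;
     1, 0, 0, 0, 0, 0, 0, 0;
     0, f 2, f 4, f 5, 0, 0, 0, 0;
     0, f 4, f 7, f 8, 0, 0, 0, 0;
     0, f 5, f 8, f 9, 0, 0, 0, 0;
     0, 0, 0, 0, 0, 0, 1, 0]]

/-- for `s = 0` this is `TF` of the cubic with `F_111 = a, F_112 = b, F_113 = -c, F_122 = 2c, F_133 = F_223 = 1`; `X^7 <> 0` for `s <> 0` -/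
def TFs {k : Type*} [Field k] (s a b c : k) : Fin 3 → Matrix (Fin 8) (Fin 8) k :=
  ![!![0, 0, 0, 0, 0, 0, 0, 0;
     1, 0, 0, 0, 0, 0, 0, 0;
     0, s, 0, 0, 0, 0, 0, 0;
     0, 0, s, 0, 0, 0, 0, 0;
     0, a, b, -c, 0, s, 0, 0;
     0, b, 2 * c, 0, 0, 0, s, 0;
     0, -c, 0, 1, 0, 0, 0, 0;
     0, 0, 0, 0, 1, 0, 0, 0],
    !![0, 0, 0, 0, 0, 0, 0, 0;
     0, 0, 0, 0, 0, 0, 0, 0;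
     1, 0, 0, 0, 0, 0, 0, 0;
     0, s, 0, 0, 0, 0, 0, 0;
     0, b, 2 * c, 0, 0, 0, s, 0;
     0, 2 * c, 0, 1, 0, 0, 0, 0;
     0, 0, 1, 0, 0, 0, 0, 0;
     0, 0, 0, 0, 0, 1, 0, 0],
    !![0, 0, 0, 0, 0, 0, 0, 0;
     0, 0, 0, 0, 0, 0, 0, 0;
     0, 0, 0, 0, 0, 0, 0, 0;
     1, 0, 0, 0, 0, 0, 0, 0;
     0, -c, 0, 1, 0, 0, 0, 0;
     0, 0, 1, 0, 0, 0, 0, 0;
     0, 1, 0, 0, 0, 0, 0, 0;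
     0, 0, 0, 0, 0, 0, 1, 0]]

/-- pencils of binary quintics: `x_i` (`i = 0, 1, 2`) is the multiplication by `s^(2-i) t^i` on `<s, t>` (basis `e0, e1`), binary cubics
(`e2..e5` = `s^3, s^2 t, s t^2, t^3`), `k^2` (`e6, e7`), where the quintic `s^(5-j) t^j` is `g (j,0) e6 + g (j,1) e7` -/
def TG {k : Type*} [Field k] (g : Fin 6 × Fin 2 → k) : Fin 3 → Matrix (Fin 8) (Fin 8) k :=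
  ![!![0, 0, 0, 0, 0, 0, 0, 0;
     0, 0, 0, 0, 0, 0, 0, 0;
     1, 0, 0, 0, 0, 0, 0, 0;
     0, 1, 0, 0, 0, 0, 0, 0;
     0, 0, 0, 0, 0, 0, 0, 0;
     0, 0, 0, 0, 0, 0, 0, 0;
     0, 0, g (0, 0), g (1, 0), g (2, 0), g (3, 0), 0, 0;
     0, 0, g (0, 1), g (1, 1), g (2, 1), g (3, 1), 0, 0],
    !![0, 0, 0, 0, 0, 0, 0, 0;
     0, 0, 0, 0, 0, 0, 0, 0;
     0, 0, 0, 0, 0, 0, 0, 0;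
     1, 0, 0, 0, 0, 0, 0, 0;
     0, 1, 0, 0, 0, 0, 0, 0;
     0, 0, 0, 0, 0, 0, 0, 0;
     0, 0, g (1, 0), g (2, 0), g (3, 0), g (4, 0), 0, 0;
     0, 0, g (1, 1), g (2, 1), g (3, 1), g (4, 1), 0, 0],
    !![0, 0, 0, 0, 0, 0, 0, 0;
     0, 0, 0, 0, 0, 0, 0, 0;
     0, 0, 0, 0, 0, 0, 0, 0;
     0, 0, 0, 0, 0, 0, 0, 0;
     1, 0, 0, 0, 0, 0, 0, 0;
     0, 1, 0, 0, 0, 0, 0, 0;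
     0, 0, g (2, 0), g (3, 0), g (4, 0), g (5, 0), 0, 0;
     0, 0, g (2, 1), g (3, 1), g (4, 1), g (5, 1), 0, 0]]

/-- for `s = 0` this is `TG g` with `g_0 = (1,0), g_1 = (0,1), g_2 = (0,0), g_3 = (1,p1), g_4 = (p2,p3), g_5 = (p4,p5)`; `Z^7 <> 0` for `s <> 0` -/
def TGs {k : Type*} [Field k] (s p1 p2 p3 p4 p5 : k) : Fin 3 → Matrix (Fin 8) (Fin 8) k :=
  ![!![0, 0, 0, 0, -s ^ 2, 0, 0, 0;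
     0, 0, 0, 0, 0, 0, 0, 0;
     1, 0, 0, s, 0, 0, 0, 0;
     0, 1, 0, 0, s, 0, 0, 0;
     0, 0, 0, 0, 0, s, 0, 0;
     0, 0, 0, 0, 0, 0, 0, 0;
     0, 0, 1, 0, 0, 1, 0, 0;
     0, 0, 0, 1, 0, p1, 0, 0],
    !![-s, 0, 0, -s ^ 2, 0, -p1 * s ^ 2, 0, 0;
     0, 0, 0, 0, 0, 0, 0, 0;
     0, 0, 0, 0, 0, s, 0, 0;
     1, 0, 0, s, 0, p1 * s, 0, 0;
     0, 1, 0, 0, 0, 0, 0, 0;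
     0, 0, 0, 0, 0, 0, 0, 0;
     0, 0, 0, 0, 1, p2, 0, 0;
     0, 0, 1, 0, p1, p3, 0, 0],
    !![0, 0, -s ^ 2, 0, -p1 * s ^ 2, -p3 * s ^ 2, 0, 0;
     0, 0, 0, 0, 0, 0, 0, 0;
     0, 0, 0, 0, s, p2 * s, 0, 0;
     0, 0, s, 0, p1 * s, (1 + p3) * s, 0, 0;
     1, 0, 0, s, 0, p1 * s, 0, 0;
     0, 1, 0, 0, 0, 0, 0, 0;
     0, 0, 0, 1, p2, p4, 0, 0;
     0, 0, 0, p1, p3, p5, s, 0]]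

/-- `V = <e0> + <e1, e2, e3, e4> + <e5, e6, e7>`, `x_i e0 = e_i`, `x_i e_j = sum_l r (q, l) e_(5+l)` (`q` the number of the pair `ij` in
`11, 12, 13, 22, 23, 33`, `j = 1, 2, 3`), `x_i e4 = e_(4+i)` -/
def T143 {k : Type*} [Field k] (r : Fin 6 × Fin 3 → k) : Fin 3 → Matrix (Fin 8) (Fin 8) k :=
  ![!![0, 0, 0, 0, 0, 0, 0, 0;
     1, 0, 0, 0, 0, 0, 0, 0;
     0, 0, 0, 0, 0, 0, 0, 0;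
     0, 0, 0, 0, 0, 0, 0, 0;
     0, 0, 0, 0, 0, 0, 0, 0;
     0, r (0, 0), r (1, 0), r (2, 0), 1, 0, 0, 0;
     0, r (0, 1), r (1, 1), r (2, 1), 0, 0, 0, 0;
     0, r (0, 2), r (1, 2), r (2, 2), 0, 0, 0, 0],
    !![0, 0, 0, 0, 0, 0, 0, 0;
     0, 0, 0, 0, 0, 0, 0, 0;
     1, 0, 0, 0, 0, 0, 0, 0;
     0, 0, 0, 0, 0, 0, 0, 0;
     0, 0, 0, 0, 0, 0, 0, 0;
     0, r (1, 0), r (3, 0), r (4, 0), 0, 0, 0, 0;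
     0, r (1, 1), r (3, 1), r (4, 1), 1, 0, 0, 0;
     0, r (1, 2), r (3, 2), r (4, 2), 0, 0, 0, 0],
    !![0, 0, 0, 0, 0, 0, 0, 0;
     0, 0, 0, 0, 0, 0, 0, 0;
     0, 0, 0, 0, 0, 0, 0, 0;
     1, 0, 0, 0, 0, 0, 0, 0;
     0, 0, 0, 0, 0, 0, 0, 0;
     0, r (2, 0), r (4, 0), r (5, 0), 0, 0, 0, 0;
     0, r (2, 1), r (4, 1), r (5, 1), 0, 0, 0, 0;
     0, r (2, 2), r (4, 2), r (5, 2), 1, 0, 0, 0]]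

/-- for `s = 0` this is `T143 r` with `r_11 = (1,a2,a3), r_12 = (0,b2,b3), r_13 = (0,c1,c2-1-b2), r_22 = (0,c1,c2-2), r_23 = (1,0,c1), r_33 = (0,1,0)`;
`X^7 <> 0` for `s <> 0` -/
def T143s {k : Type*} [Field k] (s a2 a3 b2 b3 c1 c2 : k) : Fin 3 → Matrix (Fin 8) (Fin 8) k :=
  ![!![0, 0, 0, 0, 0, 0, 0, 0;
     1, 0, 0, 0, 0, 0, 0, 0;
     0, s, 0, 0, 0, 0, 0, 0;
     0, 0, s, 0, 0, 0, 0, 0;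
     0, 0, 0, s, 0, 0, 0, 0;
     0, 1, 0, 0, 1, 0, 0, 0;
     0, a2, b2, c1, 0, s, 0, 0;
     0, a3, b3, c2 - 1 - b2, 0, 0, s, 0],
    !![0, 0, 0, 0, 0, 0, 0, 0;
     0, 0, 0, 0, 0, 0, 0, 0;
     1, 0, 0, 0, 0, 0, 0, 0;
     0, s, 0, 0, 0, 0, 0, 0;
     0, 0, s, 0, 0, 0, 0, 0;
     0, 0, 0, 1, 0, 0, 0, 0;
     0, b2, c1, 0, 1, 0, 0, 0;
     0, b3, c2 - 2, c1, 0, s, 0, 0],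
    !![0, 0, 0, 0, 0, 0, 0, 0;
     0, 0, 0, 0, 0, 0, 0, 0;
     0, 0, 0, 0, 0, 0, 0, 0;
     1, 0, 0, 0, 0, 0, 0, 0;
     0, s, 0, 0, 0, 0, 0, 0;
     0, 0, 1, 0, 0, 0, 0, 0;
     0, c1, 0, 1, 0, 0, 0, 0;
     0, c2 - 1 - b2, c1, 0, 1, 0, 0, 0]]

/-- as `T143 r`, but `x_(i+1) e4 = sum_l g (i, l) e_(5+l)` -/
def T143g {k : Type*} [Field k] (r : Fin 6 × Fin 3 → k) (g : Fin 3 × Fin 3 → k) :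
    Fin 3 → Matrix (Fin 8) (Fin 8) k :=
  ![!![0, 0, 0, 0, 0, 0, 0, 0;
     1, 0, 0, 0, 0, 0, 0, 0;
     0, 0, 0, 0, 0, 0, 0, 0;
     0, 0, 0, 0, 0, 0, 0, 0;
     0, 0, 0, 0, 0, 0, 0, 0;
     0, r (0, 0), r (1, 0), r (2, 0), g (0, 0), 0, 0, 0;
     0, r (0, 1), r (1, 1), r (2, 1), g (0, 1), 0, 0, 0;
     0, r (0, 2), r (1, 2), r (2, 2), g (0, 2), 0, 0, 0],
    !![0, 0, 0, 0, 0, 0, 0, 0;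
     0, 0, 0, 0, 0, 0, 0, 0;
     1, 0, 0, 0, 0, 0, 0, 0;
     0, 0, 0, 0, 0, 0, 0, 0;
     0, 0, 0, 0, 0, 0, 0, 0;
     0, r (1, 0), r (3, 0), r (4, 0), g (1, 0), 0, 0, 0;
     0, r (1, 1), r (3, 1), r (4, 1), g (1, 1), 0, 0, 0;
     0, r (1, 2), r (3, 2), r (4, 2), g (1, 2), 0, 0, 0],
    !![0, 0, 0, 0, 0, 0, 0, 0;
     0, 0, 0, 0, 0, 0, 0, 0;
     0, 0, 0, 0, 0, 0, 0, 0;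
     1, 0, 0, 0, 0, 0, 0, 0;
     0, 0, 0, 0, 0, 0, 0, 0;
     0, r (2, 0), r (4, 0), r (5, 0), g (2, 0), 0, 0, 0;
     0, r (2, 1), r (4, 1), r (5, 1), g (2, 1), 0, 0, 0;
     0, r (2, 2), r (4, 2), r (5, 2), g (2, 2), 0, 0, 0]]

/-- as `TF f`, but `x_i e_j = sum_k F_ijk e_(3+k) + d_ij e7` (`d 0 .. d 5 = d_11, d_12, d_13, d_22, d_23, d_33`) -/
def TFd {k : Type*} [Field k] (f : Fin 10 → k) (d : Fin 6 → k) :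
    Fin 3 → Matrix (Fin 8) (Fin 8) k :=
  ![!![0, 0, 0, 0, 0, 0, 0, 0;
     1, 0, 0, 0, 0, 0, 0, 0;
     0, 0, 0, 0, 0, 0, 0, 0;
     0, 0, 0, 0, 0, 0, 0, 0;
     0, f 0, f 1, f 2, 0, 0, 0, 0;
     0, f 1, f 3, f 4, 0, 0, 0, 0;
     0, f 2, f 4, f 5, 0, 0, 0, 0;
     0, d 0, d 1, d 2, 1, 0, 0, 0],
    !![0, 0, 0, 0, 0, 0, 0, 0;
     0, 0, 0, 0, 0, 0, 0, 0;
     1, 0, 0, 0, 0, 0, 0, 0;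
     0, 0, 0, 0, 0, 0, 0, 0;
     0, f 1, f 3, f 4, 0, 0, 0, 0;
     0, f 3, f 6, f 7, 0, 0, 0, 0;
     0, f 4, f 7, f 8, 0, 0, 0, 0;
     0, d 1, d 3, d 4, 0, 1, 0, 0],
    !![0, 0, 0, 0, 0, 0, 0, 0;
     0, 0, 0, 0, 0, 0, 0, 0;
     0, 0, 0, 0, 0, 0, 0, 0;
     1, 0, 0, 0, 0, 0, 0, 0;
     0, f 2, f 4, f 5, 0, 0, 0, 0;
     0, f 4, f 7, f 8, 0, 0, 0, 0;
     0, f 5, f 8, f 9, 0, 0, 0, 0;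
     0, d 2, d 4, d 5, 0, 0, 1, 0]]

end Pool.Agent.Lib.D8
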