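import Pool.Agent.Lib.D8.UtilB8
import Pool.Agent.Lib.D8.Fams

/-!
Module C3311 (1.5h). Type (3,3,1,1): the normal form is conjugate to TG; hypothesis hcl = `cl_TG` of helper51. Checked numerically.
T = (A, X, Z), A = J3311, X = B3311 !![n00, 1; n10, 0] !![m00, 0; m10, 0] !![1, 0; 0, 0] T1, Z = B3311 !![0, n01; 1, n11] !![0, m01; 0, m11] !![0, 0; 0, 1] T2. So X w0 = v1 = A v0, A w0 = w1 = Z v0.
Basis: s = v0, t = w0, s^3 = X v0, s^2 t = v1, s t^2 = w1, t^3 = Z w0, v2, w2 (matrix P with these columns, invertible: X v0 = e6 + .., Z w0 = e7 + ..). In this basis (X, A, Z) = TG G with G 0 = coordinates (v2, w2) of X X v0, G 1 = (n00, n10), G 2 = (1, 0), G 3 = (0, 1), G 4 = (n01, n11), G 5 = coordinates of Z Z w0;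
the consistency (Z X v0 = v2, X Z w0 = w2, A X v0 = n00 v2 + n10 w2, A Z w0 = ..) follows from the commutation hypothesis. Then Cl (X, A, Z) (Cl.conj), and Cl (A, X, Z) by cl_of_adj.
-/

namespace Pool.Agent.Lib.D8

open Matrix Pool.Agent.Lib.Q5dc Pool.Agent.Lib.D7

namespace C3311Aux

variable {k : Type*} [Field k]

/-- the columns are the basis `s, t, s^3, s^2 t, s t^2, t^3, v2, w2` -/
def P (n00 n10 m00 m10 n01 n11 m01 m11 : k) : Matrix (Fin 8) (Fin 8) k :=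
  !![1, 0, 0, 0, 0, 0, 0, 0;
     0, 0, n00, 1, 0, n01, 0, 0;
     0, 0, m00, 0, 0, m01, 1, 0;
     0, 1, 0, 0, 0, 0, 0, 0;
     0, 0, n10, 0, 1, n11, 0, 0;
     0, 0, m10, 0, 0, m11, 0, 1;
     0, 0, 1, 0, 0, 0, 0, 0;
     0, 0, 0, 0, 0, 1, 0, 0]

/-- the inverse of `P` -/
def Q (n00 n10 m00 m10 n01 n11 m01 m11 : k) : Matrix (Fin 8) (Fin 8) k :=
  !![1, 0, 0, 0, 0, 0, 0, 0;
     0, 0, 0, 1, 0, 0, 0, 0;
     0, 0, 0, 0, 0, 0, 1, 0;
     0, 1, 0, 0, 0, 0, -n00, -n01;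
     0, 0, 0, 0, 1, 0, -n10, -n11;
     0, 0, 0, 0, 0, 0, 0, 1;
     0, 0, 1, 0, 0, 0, -m00, -m01;
     0, 0, 0, 0, 0, 1, -m10, -m11]

/-- the pencil of quintics -/
def G (n00 n10 n01 n11 a b c d : k) : Fin 6 × Fin 2 → k :=
  fun p => !![a, b; n00, n10; 1, 0; 0, 1; n01, n11; c, d] p.1 p.2

variable (n00 n10 m00 m10 n01 n11 m01 m11 : k)

theorem PQ : P n00 n10 m00 m10 n01 n11 m01 m11 * Q n00 n10 m00 m10 n01 n11 m01 m11 = 1 := by
  ext i j
  fin_cases i <;> fin_cases j <;> simp [P, Q, Matrix.mul_apply, Fin.sum_univ_eight]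

theorem QP : Q n00 n10 m00 m10 n01 n11 m01 m11 * P n00 n10 m00 m10 n01 n11 m01 m11 = 1 := by
  ext i j
  fin_cases i <;> fin_cases j <;> simp [P, Q, Matrix.mul_apply, Fin.sum_univ_eight]

variable {n00 n10 m00 m10 n01 n11 m01 m11}

theorem eA (a b c d : k) :
    P n00 n10 m00 m10 n01 n11 m01 m11 * TG (G n00 n10 n01 n11 a b c d) 1 =
      J3311 k * P n00 n10 m00 m10 n01 n11 m01 m11 := by
  ext i j
  fin_cases i <;> fin_cases j <;>
    simp [P, TG, G, J3311, Matrix.mul_apply, Fin.sum_univ_eight]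

theorem eX {T1 : Matrix (Fin 2) (Fin 2) k} (h1 : T1 0 1 = -(n00 * n01 + n11))
    (h2 : T1 1 1 = 1 - n10 * n01) (c d : k) :
    P n00 n10 m00 m10 n01 n11 m01 m11 *
        TG (G n00 n10 n01 n11 (n00 * n00 + n10 + T1 0 0) (n00 * n10 + T1 1 0) c d) 0 =
      B3311 !![n00, 1; n10, 0] !![m00, 0; m10, 0] !![1, 0; 0, 0] T1 *
        P n00 n10 m00 m10 n01 n11 m01 m11 := by
  ext i j
  fin_cases i <;> fin_cases j <;>
    simp [P, TG, G, B3311, Matrix.mul_apply, Fin.sum_univ_eight, h1, h2] <;> ring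

theorem eZ {T2 : Matrix (Fin 2) (Fin 2) k} (h1 : T2 0 0 = 1 - n01 * n10)
    (h2 : T2 1 0 = -(n00 + n11 * n10)) (a b : k) :
    P n00 n10 m00 m10 n01 n11 m01 m11 *
        TG (G n00 n10 n01 n11 a b (n11 * n01 + T2 0 1) (n01 + n11 * n11 + T2 1 1)) 2 =
      B3311 !![0, n01; 1, n11] !![0, m01; 0, m11] !![0, 0; 0, 1] T2 *
        P n00 n10 m00 m10 n01 n11 m01 m11 := by
  ext i j
  fin_cases i <;> fin_cases j <;>
    simp [P, TG, G, B3311, Matrix.mul_apply, Fin.sum_univ_eight, h1, h2] <;> ring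

end C3311Aux

theorem cl_3311N {k : Type*} [Field k] [IsAlgClosed k] [CharZero k]
    (hcl : ∀ G : Fin 6 × Fin 2 → k, Cl (TG G))
    {n00 n10 n01 n11 m00 m10 m01 m11 : k} {T1 T2 : Matrix (Fin 2) (Fin 2) k}
    (h : !![n00, 1; n10, 0] * !![0, n01; 1, n11] + T1 * !![0, 0; 0, 1] =
      !![0, n01; 1, n11] * !![n00, 1; n10, 0] + T2 * !![1, 0; 0, 0]) :
    Cl ![J3311 k, B3311 !![n00, 1; n10, 0] !![m00, 0; m10, 0] !![1, 0; 0, 0] T1,
      B3311 !![0, n01; 1, n11] !![0, m01; 0, m11] !![0, 0; 0, 1] T2] := by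
  have e00 := congrFun (congrFun h 0) 0
  have e01 := congrFun (congrFun h 0) 1
  have e10 := congrFun (congrFun h 1) 0
  have e11 := congrFun (congrFun h 1) 1
  simp [Matrix.mul_apply, Fin.sum_univ_two] at e00 e01 e10 e11
  have h1 : T1 0 1 = -(n00 * n01 + n11) := by linear_combination e01
  have h2 : T1 1 1 = 1 - n10 * n01 := by linear_combination e11
  have h3 : T2 0 0 = 1 - n01 * n10 := by linear_combination -e00
  have h4 : T2 1 0 = -(n00 + n11 * n10) := by linear_combination -e10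
  set X := B3311 !![n00, 1; n10, 0] !![m00, 0; m10, 0] !![1, 0; 0, 0] T1 with hX
  set Z := B3311 !![0, n01; 1, n11] !![0, m01; 0, m11] !![0, 0; 0, 1] T2 with hZ
  set g := C3311Aux.P n00 n10 m00 m10 n01 n11 m01 m11 with hg
  set q := C3311Aux.Q n00 n10 m00 m10 n01 n11 m01 m11 with hq
  have gq : g * q = 1 := C3311Aux.PQ _ _ _ _ _ _ _ _
  have qg : q * g = 1 := C3311Aux.QP _ _ _ _ _ _ _ _
  have key := Cl.conj g q gq qg (hcl (C3311Aux.G n00 n10 n01 n11 (n00 * n00 + n10 + T1 0 0)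
    (n00 * n10 + T1 1 0) (n11 * n01 + T2 0 1) (n01 + n11 * n11 + T2 1 1)))
  have hT : (fun i => g * TG (C3311Aux.G n00 n10 n01 n11 (n00 * n00 + n10 + T1 0 0)
      (n00 * n10 + T1 1 0) (n11 * n01 + T2 0 1) (n01 + n11 * n11 + T2 1 1)) i * q) =
      ![X, J3311 k, Z] := by
    funext i
    have c : ∀ U V : Matrix (Fin 8) (Fin 8) k, g * U = V * g → g * U * q = V := by
      intro U V hUV
      rw [hUV, mul_assoc, gq, mul_one]
    fin_cases i
    · exact c _ _ (C3311Aux.eX h1 h2 _ _)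
    · exact c _ _ (C3311Aux.eA _ _ _ _)
    · exact c _ _ (C3311Aux.eZ h3 h4 _ _)
  rw [hT] at key
  refine cl_of_adj (fun i => ?_) key
  fin_cases i
  exacts [mem1 X (J3311 k) Z, mem0 X (J3311 k) Z, mem2 X (J3311 k) Z]

end Pool.Agent.Lib.D8
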