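import Pool.Agent.Lib.D8.ApiB

/-!
# MP_5dcbc3_ag: changes of bases and duality for the matrices of `DefsB`
-/

namespace Pool.Agent.Lib.D8

open Matrix Pool.Agent.Lib.Q5dc Pool.Agent.Lib.D7

variable {k : Type*} [Field k]

/-! ### changes of bases -/

section Conj

variable (g h q r : Matrix (Fin 2) (Fin 2) k)

/-- `g` on `E_0, E_1, E_2`, the identity on `u0, u1` -/
def G332 (g : Matrix (Fin 2) (Fin 2) k) : Matrix (Fin 8) (Fin 8) k :=
  !![g 0 0, 0, 0, g 0 1, 0, 0, 0, 0;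
     0, g 0 0, 0, 0, g 0 1, 0, 0, 0;
     0, 0, g 0 0, 0, 0, g 0 1, 0, 0;
     g 1 0, 0, 0, g 1 1, 0, 0, 0, 0;
     0, g 1 0, 0, 0, g 1 1, 0, 0, 0;
     0, 0, g 1 0, 0, 0, g 1 1, 0, 0;
     0, 0, 0, 0, 0, 0, 1, 0;
     0, 0, 0, 0, 0, 0, 0, 1]

theorem G332_mul : G332 g * G332 h = G332 (g * h) := by
  ext i j
  fin_cases i <;> fin_cases j <;>
    simp [G332, Matrix.mul_apply, Fin.sum_univ_eight, Fin.sum_univ_two]

theorem G332_one : G332 (1 : Matrix (Fin 2) (Fin 2) k) = 1 := by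
  ext i j
  fin_cases i <;> fin_cases j <;> simp [G332]

theorem G332_left (N M : Matrix (Fin 2) (Fin 2) k) (a c b d : Fin 2 → k) (nu : k) :
    G332 g * B332 N M a c b d nu = B332 (g * N) (g * M) a c (g *ᵥ b) (g *ᵥ d) nu := by
  ext i j
  fin_cases i <;> fin_cases j <;>
    simp [G332, B332, Matrix.mul_apply, Fin.sum_univ_eight, Fin.sum_univ_two, mulVec,
      dotProduct]

theorem G332_right (N M : Matrix (Fin 2) (Fin 2) k) (a c b d : Fin 2 → k) (nu : k) :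
    B332 N M a c b d nu * G332 h = B332 (N * h) (M * h) (a ᵥ* h) (c ᵥ* h) b d nu := by
  ext i j
  fin_cases i <;> fin_cases j <;>
    simp [G332, B332, Matrix.mul_apply, Fin.sum_univ_eight, Fin.sum_univ_two, vecMul,
      dotProduct]

theorem G332_conj (N M : Matrix (Fin 2) (Fin 2) k) (a c b d : Fin 2 → k) (nu : k) :
    G332 g * B332 N M a c b d nu * G332 h =
      B332 (g * N * h) (g * M * h) (a ᵥ* h) (c ᵥ* h) (g *ᵥ b) (g *ᵥ d) nu := by
  rw [G332_left, G332_right]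

theorem G332_J (hgh : g * h = 1) : G332 g * J332 k * G332 h = J332 k := by
  rw [J332_eq, G332_conj]
  simp [hgh]

/-- `u0 -> u0 + A x`, `u1 -> u1 + A^2 x` -/
def U332 (x : Fin 2 → k) : Matrix (Fin 8) (Fin 8) k :=
  !![1, 0, 0, 0, 0, 0, 0, 0;
     0, 1, 0, 0, 0, 0, x 0, 0;
     0, 0, 1, 0, 0, 0, 0, x 0;
     0, 0, 0, 1, 0, 0, 0, 0;
     0, 0, 0, 0, 1, 0, x 1, 0;
     0, 0, 0, 0, 0, 1, 0, x 1;
     0, 0, 0, 0, 0, 0, 1, 0;
     0, 0, 0, 0, 0, 0, 0, 1]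

theorem U332_mul (x y : Fin 2 → k) : U332 x * U332 y = U332 (x + y) := by
  ext i j
  fin_cases i <;> fin_cases j <;>
    simp [U332, Matrix.mul_apply, Fin.sum_univ_eight] <;> ring

theorem U332_zero : U332 (0 : Fin 2 → k) = 1 := by
  ext i j
  fin_cases i <;> fin_cases j <;> simp [U332]

theorem U332_left (x : Fin 2 → k) (N M : Matrix (Fin 2) (Fin 2) k) (a c d : Fin 2 → k) (nu : k) :
    U332 x * B332 N M a c 0 d nu =
      B332 (N + vecMulVec x a) (M + vecMulVec x c) a c 0 (d + nu • x) nu := by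
  ext i j
  fin_cases i <;> fin_cases j <;>
    simp [U332, B332, Matrix.mul_apply, Fin.sum_univ_eight, vecMulVec_apply] <;> ring

theorem U332_right (x : Fin 2 → k) (N M : Matrix (Fin 2) (Fin 2) k) (a c d : Fin 2 → k) (nu : k) :
    B332 N M a c 0 d nu * U332 x =
      B332 N M a c 0 (d + N *ᵥ x) (nu + a ⬝ᵥ x) := by
  ext i j
  fin_cases i <;> fin_cases j <;>
    simp [U332, B332, Matrix.mul_apply, Fin.sum_univ_eight, Fin.sum_univ_two, mulVec,
      dotProduct] <;> ring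

theorem U332_conj (x : Fin 2 → k) (N M : Matrix (Fin 2) (Fin 2) k) (a c d : Fin 2 → k) (nu : k) :
    U332 x * B332 N M a c 0 d nu * U332 (-x) =
      B332 (N + vecMulVec x a) (M + vecMulVec x c) a c 0
        (d - N *ᵥ x + (nu - a ⬝ᵥ x) • x) (nu - a ⬝ᵥ x) := by
  rw [U332_left, U332_right, B332_inj]
  refine ⟨rfl, rfl, rfl, rfl, rfl, ?_, ?_⟩
  · ext i
    simp only [mulVec, dotProduct, Fin.sum_univ_two, vecMulVec_apply, Pi.add_apply,
      Pi.sub_apply, Pi.smul_apply, Pi.neg_apply, Matrix.add_apply, smul_eq_mul]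
    ring
  · simp only [dotProduct, Fin.sum_univ_two, Pi.neg_apply]
    ring

theorem U332_J (x : Fin 2 → k) : U332 x * J332 k * U332 (-x) = J332 k := by
  rw [J332_eq, U332_conj, B332_inj]
  simp

/-- `g` on `E_0, E_1, E_2`, `q` on `P` -/
def G3311 (g q : Matrix (Fin 2) (Fin 2) k) : Matrix (Fin 8) (Fin 8) k :=
  !![g 0 0, 0, 0, g 0 1, 0, 0, 0, 0;
     0, g 0 0, 0, 0, g 0 1, 0, 0, 0;
     0, 0, g 0 0, 0, 0, g 0 1, 0, 0;
     g 1 0, 0, 0, g 1 1, 0, 0, 0, 0;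
     0, g 1 0, 0, 0, g 1 1, 0, 0, 0;
     0, 0, g 1 0, 0, 0, g 1 1, 0, 0;
     0, 0, 0, 0, 0, 0, q 0 0, q 0 1;
     0, 0, 0, 0, 0, 0, q 1 0, q 1 1]

theorem G3311_mul : G3311 g q * G3311 h r = G3311 (g * h) (q * r) := by
  ext i j
  fin_cases i <;> fin_cases j <;>
    simp [G3311, Matrix.mul_apply, Fin.sum_univ_eight, Fin.sum_univ_two]

theorem G3311_one : G3311 (1 : Matrix (Fin 2) (Fin 2) k) 1 = 1 := by
  ext i j
  fin_cases i <;> fin_cases j <;> simp [G3311]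

theorem G3311_left (N M W T : Matrix (Fin 2) (Fin 2) k) :
    G3311 g q * B3311 N M W T = B3311 (g * N) (g * M) (q * W) (g * T) := by
  ext i j
  fin_cases i <;> fin_cases j <;>
    simp [G3311, B3311, Matrix.mul_apply, Fin.sum_univ_eight, Fin.sum_univ_two]

theorem G3311_right (N M W T : Matrix (Fin 2) (Fin 2) k) :
    B3311 N M W T * G3311 h r = B3311 (N * h) (M * h) (W * h) (T * r) := by
  ext i j
  fin_cases i <;> fin_cases j <;>
    simp [G3311, B3311, Matrix.mul_apply, Fin.sum_univ_eight, Fin.sum_univ_two]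

theorem G3311_conj (N M W T : Matrix (Fin 2) (Fin 2) k) :
    G3311 g q * B3311 N M W T * G3311 h r =
      B3311 (g * N * h) (g * M * h) (q * W * h) (g * T * r) := by
  rw [G3311_left, G3311_right]

theorem G3311_J (hgh : g * h = 1) : G3311 g q * J3311 k * G3311 h r = J3311 k := by
  rw [J3311_eq, G3311_conj]
  simp [hgh]

/-- `g` on `U_0, U_1`, the factor `l` on `p` -/
def G3221 (g : Matrix (Fin 2) (Fin 2) k) (l : k) : Matrix (Fin 8) (Fin 8) k :=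
  !![1, 0, 0, 0, 0, 0, 0, 0;
     0, 1, 0, 0, 0, 0, 0, 0;
     0, 0, 1, 0, 0, 0, 0, 0;
     0, 0, 0, g 0 0, 0, g 0 1, 0, 0;
     0, 0, 0, 0, g 0 0, 0, g 0 1, 0;
     0, 0, 0, g 1 0, 0, g 1 1, 0, 0;
     0, 0, 0, 0, g 1 0, 0, g 1 1, 0;
     0, 0, 0, 0, 0, 0, 0, l]

theorem G3221_mul (l m : k) : G3221 g l * G3221 h m = G3221 (g * h) (l * m) := by
  ext i j
  fin_cases i <;> fin_cases j <;>
    simp [G3221, Matrix.mul_apply, Fin.sum_univ_eight, Fin.sum_univ_two]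

theorem G3221_one : G3221 (1 : Matrix (Fin 2) (Fin 2) k) 1 = 1 := by
  ext i j
  fin_cases i <;> fin_cases j <;> simp [G3221]

theorem G3221_left (l : k) (a c : Fin 2 → k) (om : k) (b d : Fin 2 → k)
    (N : Matrix (Fin 2) (Fin 2) k) (p : Fin 2 → k) (th : k) (e : Fin 2 → k) :
    G3221 g l * B3221 a c om b d N p th e =
      B3221 (g *ᵥ a) (g *ᵥ c) (l * om) b d (g * N) (l • p) th (g *ᵥ e) := by
  ext i j
  fin_cases i <;> fin_cases j <;>
    simp [G3221, B3221, Matrix.mul_apply, Fin.sum_univ_eight, Fin.sum_univ_two, mulVec,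
      dotProduct]

theorem G3221_right (m : k) (a c : Fin 2 → k) (om : k) (b d : Fin 2 → k)
    (N : Matrix (Fin 2) (Fin 2) k) (p : Fin 2 → k) (th : k) (e : Fin 2 → k) :
    B3221 a c om b d N p th e * G3221 h m =
      B3221 a c om (b ᵥ* h) (d ᵥ* h) (N * h) (p ᵥ* h) (th * m) (m • e) := by
  ext i j
  fin_cases i <;> fin_cases j <;>
    simp [G3221, B3221, Matrix.mul_apply, Fin.sum_univ_eight, Fin.sum_univ_two, vecMul,
      dotProduct] <;> ring

theorem G3221_conj (l m : k) (a c : Fin 2 → k) (om : k) (b d : Fin 2 → k)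
    (N : Matrix (Fin 2) (Fin 2) k) (p : Fin 2 → k) (th : k) (e : Fin 2 → k) :
    G3221 g l * B3221 a c om b d N p th e * G3221 h m =
      B3221 (g *ᵥ a) (g *ᵥ c) (l * om) (b ᵥ* h) (d ᵥ* h) (g * N * h) (l • (p ᵥ* h)) (th * m)
        (m • (g *ᵥ e)) := by
  rw [G3221_left, G3221_right, smul_vecMul]

theorem G3221_commJ (l m : k) : G3221 g l * J3221 k = J3221 k * G3221 g m := by
  ext i j
  fin_cases i <;> fin_cases j <;>
    simp [G3221, J3221, Matrix.mul_apply, Fin.sum_univ_eight]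

theorem J3221_G (l : k) : J3221 k * G3221 1 l = J3221 k := by
  ext i j
  fin_cases i <;> fin_cases j <;>
    simp [G3221, J3221, Matrix.mul_apply, Fin.sum_univ_eight]

theorem G3221_J (l m : k) (hgh : g * h = 1) :
    G3221 g l * J3221 k * G3221 h m = J3221 k := by
  rw [G3221_commJ g l l, Matrix.mul_assoc, G3221_mul, hgh, J3221_G]

end Conj

/-! ### duality -/

section Dual

/-- the permutation `0 <-> 2, 3 <-> 5, 6 <-> 7` -/
def P332 (k : Type*) [Field k] : Matrix (Fin 8) (Fin 8) k :=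
  !![0, 0, 1, 0, 0, 0, 0, 0;
     0, 1, 0, 0, 0, 0, 0, 0;
     1, 0, 0, 0, 0, 0, 0, 0;
     0, 0, 0, 0, 0, 1, 0, 0;
     0, 0, 0, 0, 1, 0, 0, 0;
     0, 0, 0, 1, 0, 0, 0, 0;
     0, 0, 0, 0, 0, 0, 0, 1;
     0, 0, 0, 0, 0, 0, 1, 0]

theorem P332_perm (X : Matrix (Fin 8) (Fin 8) k) (i j : Fin 8) :
    (P332 k * X * P332 k) i j = X (![2, 1, 0, 5, 4, 3, 7, 6] i) (![2, 1, 0, 5, 4, 3, 7, 6] j) := by
  have h1 : ∀ i j, (P332 k * X) i j = X (![2, 1, 0, 5, 4, 3, 7, 6] i) j := by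
    intro i j
    fin_cases i <;> simp [P332, Matrix.mul_apply, Fin.sum_univ_eight]
  have h2 : ∀ (Y : Matrix (Fin 8) (Fin 8) k) (i j : Fin 8),
      (Y * P332 k) i j = Y i (![2, 1, 0, 5, 4, 3, 7, 6] j) := by
    intro Y i j
    fin_cases j <;> simp [P332, Matrix.mul_apply, Fin.sum_univ_eight]
  rw [h2, h1]

theorem P332_sq : P332 k * P332 k = 1 := by
  ext i j
  fin_cases i <;> fin_cases j <;> simp [P332, Matrix.mul_apply, Fin.sum_univ_eight]

theorem B332_dual (N M : Matrix (Fin 2) (Fin 2) k) (a c b d : Fin 2 → k) (nu : k) :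
    P332 k * (B332 N M a c b d nu)ᵀ * P332 k = B332 Nᵀ Mᵀ b d a c nu := by
  ext i j
  rw [P332_perm, Matrix.transpose_apply]
  fin_cases i <;> fin_cases j <;> simp [B332]

theorem J332_dual : P332 k * (J332 k)ᵀ * P332 k = J332 k := by
  rw [J332_eq, B332_dual]
  simp

/-- the permutation `0 <-> 2, 3 <-> 5` -/
def P3311 (k : Type*) [Field k] : Matrix (Fin 8) (Fin 8) k :=
  !![0, 0, 1, 0, 0, 0, 0, 0;
     0, 1, 0, 0, 0, 0, 0, 0;
     1, 0, 0, 0, 0, 0, 0, 0;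
     0, 0, 0, 0, 0, 1, 0, 0;
     0, 0, 0, 0, 1, 0, 0, 0;
     0, 0, 0, 1, 0, 0, 0, 0;
     0, 0, 0, 0, 0, 0, 1, 0;
     0, 0, 0, 0, 0, 0, 0, 1]

theorem P3311_perm (X : Matrix (Fin 8) (Fin 8) k) (i j : Fin 8) :
    (P3311 k * X * P3311 k) i j = X (![2, 1, 0, 5, 4, 3, 6, 7] i) (![2, 1, 0, 5, 4, 3, 6, 7] j) := by
  have h1 : ∀ i j, (P3311 k * X) i j = X (![2, 1, 0, 5, 4, 3, 6, 7] i) j := by
    intro i j
    fin_cases i <;> simp [P3311, Matrix.mul_apply, Fin.sum_univ_eight]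
  have h2 : ∀ (Y : Matrix (Fin 8) (Fin 8) k) (i j : Fin 8),
      (Y * P3311 k) i j = Y i (![2, 1, 0, 5, 4, 3, 6, 7] j) := by
    intro Y i j
    fin_cases j <;> simp [P3311, Matrix.mul_apply, Fin.sum_univ_eight]
  rw [h2, h1]

theorem P3311_sq : P3311 k * P3311 k = 1 := by
  ext i j
  fin_cases i <;> fin_cases j <;> simp [P3311, Matrix.mul_apply, Fin.sum_univ_eight]

theorem B3311_dual (N M W T : Matrix (Fin 2) (Fin 2) k) :
    P3311 k * (B3311 N M W T)ᵀ * P3311 k = B3311 Nᵀ Mᵀ Tᵀ Wᵀ := by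
  ext i j
  rw [P3311_perm, Matrix.transpose_apply]
  fin_cases i <;> fin_cases j <;> simp [B3311]

theorem J3311_dual : P3311 k * (J3311 k)ᵀ * P3311 k = J3311 k := by
  rw [J3311_eq, B3311_dual]
  simp

/-- the permutation `0 <-> 2, 3 <-> 4, 5 <-> 6` -/
def P3221 (k : Type*) [Field k] : Matrix (Fin 8) (Fin 8) k :=
  !![0, 0, 1, 0, 0, 0, 0, 0;
     0, 1, 0, 0, 0, 0, 0, 0;
     1, 0, 0, 0, 0, 0, 0, 0;
     0, 0, 0, 0, 1, 0, 0, 0;
     0, 0, 0, 1, 0, 0, 0, 0;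
     0, 0, 0, 0, 0, 0, 1, 0;
     0, 0, 0, 0, 0, 1, 0, 0;
     0, 0, 0, 0, 0, 0, 0, 1]

theorem P3221_perm (X : Matrix (Fin 8) (Fin 8) k) (i j : Fin 8) :
    (P3221 k * X * P3221 k) i j = X (![2, 1, 0, 4, 3, 6, 5, 7] i) (![2, 1, 0, 4, 3, 6, 5, 7] j) := by
  have h1 : ∀ i j, (P3221 k * X) i j = X (![2, 1, 0, 4, 3, 6, 5, 7] i) j := by
    intro i j
    fin_cases i <;> simp [P3221, Matrix.mul_apply, Fin.sum_univ_eight]
  have h2 : ∀ (Y : Matrix (Fin 8) (Fin 8) k) (i j : Fin 8),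
      (Y * P3221 k) i j = Y i (![2, 1, 0, 4, 3, 6, 5, 7] j) := by
    intro Y i j
    fin_cases j <;> simp [P3221, Matrix.mul_apply, Fin.sum_univ_eight]
  rw [h2, h1]

theorem P3221_sq : P3221 k * P3221 k = 1 := by
  ext i j
  fin_cases i <;> fin_cases j <;> simp [P3221, Matrix.mul_apply, Fin.sum_univ_eight]

theorem B3221_dual (a c : Fin 2 → k) (om : k) (b d : Fin 2 → k)
    (N : Matrix (Fin 2) (Fin 2) k) (p : Fin 2 → k) (th : k) (e : Fin 2 → k) :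
    P3221 k * (B3221 a c om b d N p th e)ᵀ * P3221 k = B3221 b d th a c Nᵀ e om p := by
  ext i j
  rw [P3221_perm, Matrix.transpose_apply]
  fin_cases i <;> fin_cases j <;> simp [B3221]

theorem J3221_dual : P3221 k * (J3221 k)ᵀ * P3221 k = J3221 k := by
  ext i j
  rw [P3221_perm, Matrix.transpose_apply]
  fin_cases i <;> fin_cases j <;> simp [J3221]

/-- the permutation `0 <-> 3, 1 <-> 2, 4 <-> 5` -/
def P4211 (k : Type*) [Field k] : Matrix (Fin 8) (Fin 8) k :=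
  !![0, 0, 0, 1, 0, 0, 0, 0;
     0, 0, 1, 0, 0, 0, 0, 0;
     0, 1, 0, 0, 0, 0, 0, 0;
     1, 0, 0, 0, 0, 0, 0, 0;
     0, 0, 0, 0, 0, 1, 0, 0;
     0, 0, 0, 0, 1, 0, 0, 0;
     0, 0, 0, 0, 0, 0, 1, 0;
     0, 0, 0, 0, 0, 0, 0, 1]

theorem P4211_perm (X : Matrix (Fin 8) (Fin 8) k) (i j : Fin 8) :
    (P4211 k * X * P4211 k) i j = X (![3, 2, 1, 0, 5, 4, 6, 7] i) (![3, 2, 1, 0, 5, 4, 6, 7] j) := by
  have h1 : ∀ i j, (P4211 k * X) i j = X (![3, 2, 1, 0, 5, 4, 6, 7] i) j := by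
    intro i j
    fin_cases i <;> simp [P4211, Matrix.mul_apply, Fin.sum_univ_eight]
  have h2 : ∀ (Y : Matrix (Fin 8) (Fin 8) k) (i j : Fin 8),
      (Y * P4211 k) i j = Y i (![3, 2, 1, 0, 5, 4, 6, 7] j) := by
    intro Y i j
    fin_cases j <;> simp [P4211, Matrix.mul_apply, Fin.sum_univ_eight]
  rw [h2, h1]

theorem P4211_sq : P4211 k * P4211 k = 1 := by
  ext i j
  fin_cases i <;> fin_cases j <;> simp [P4211, Matrix.mul_apply, Fin.sum_univ_eight]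

theorem B4211_dual (al al1 : k) (w : Fin 2 → k) (be be1 ga : k)
    (pi th e : Fin 2 → k) (N : Matrix (Fin 2) (Fin 2) k) :
    P4211 k * (B4211 al al1 w be be1 ga pi th e N)ᵀ * P4211 k =
      B4211 be be1 th al al1 ga e w pi Nᵀ := by
  ext i j
  rw [P4211_perm, Matrix.transpose_apply]
  fin_cases i <;> fin_cases j <;> simp [B4211]

theorem J4211_dual : P4211 k * (J4211 k)ᵀ * P4211 k = J4211 k := by
  ext i j
  rw [P4211_perm, Matrix.transpose_apply]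
  fin_cases i <;> fin_cases j <;> simp [J4211]

/-- the permutation `0 <-> 2, 3 <-> 4` -/
def P32111 (k : Type*) [Field k] : Matrix (Fin 8) (Fin 8) k :=
  !![0, 0, 1, 0, 0, 0, 0, 0;
     0, 1, 0, 0, 0, 0, 0, 0;
     1, 0, 0, 0, 0, 0, 0, 0;
     0, 0, 0, 0, 1, 0, 0, 0;
     0, 0, 0, 1, 0, 0, 0, 0;
     0, 0, 0, 0, 0, 1, 0, 0;
     0, 0, 0, 0, 0, 0, 1, 0;
     0, 0, 0, 0, 0, 0, 0, 1]

theorem P32111_perm (X : Matrix (Fin 8) (Fin 8) k) (i j : Fin 8) :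
    (P32111 k * X * P32111 k) i j = X (![2, 1, 0, 4, 3, 5, 6, 7] i) (![2, 1, 0, 4, 3, 5, 6, 7] j) := by
  have h1 : ∀ i j, (P32111 k * X) i j = X (![2, 1, 0, 4, 3, 5, 6, 7] i) j := by
    intro i j
    fin_cases i <;> simp [P32111, Matrix.mul_apply, Fin.sum_univ_eight]
  have h2 : ∀ (Y : Matrix (Fin 8) (Fin 8) k) (i j : Fin 8),
      (Y * P32111 k) i j = Y i (![2, 1, 0, 4, 3, 5, 6, 7] j) := by
    intro Y i j
    fin_cases j <;> simp [P32111, Matrix.mul_apply, Fin.sum_univ_eight]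
  rw [h2, h1]

theorem P32111_sq : P32111 k * P32111 k = 1 := by
  ext i j
  fin_cases i <;> fin_cases j <;> simp [P32111, Matrix.mul_apply, Fin.sum_univ_eight]

theorem B32111_dual (al al1 : k) (w : Fin 3 → k) (be be1 ga : k)
    (pi th e : Fin 3 → k) (N : Matrix (Fin 3) (Fin 3) k) :
    P32111 k * (B32111 al al1 w be be1 ga pi th e N)ᵀ * P32111 k =
      B32111 be be1 th al al1 ga e w pi Nᵀ := by
  ext i j
  rw [P32111_perm, Matrix.transpose_apply]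
  fin_cases i <;> fin_cases j <;> simp [B32111]

theorem J32111_dual : P32111 k * (J32111 k)ᵀ * P32111 k = J32111 k := by
  ext i j
  rw [P32111_perm, Matrix.transpose_apply]
  fin_cases i <;> fin_cases j <;> simp [J32111]

/-- duality for maximal bad triples -/
theorem maxR_dual {ρ : ℕ → ℕ} {T T' : Fin 3 → Matrix (Fin 8) (Fin 8) k}
    (P : Matrix (Fin 8) (Fin 8) k) (hP : P * P = 1) (hT : MaxR ρ T)
    (h : ∀ i, P * (T i)ᵀ * P = T' i) : MaxR ρ T' := by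
  have h1 := hT.transpose.conj P P hP hP
  have h2 : (fun i => P * (T i)ᵀ * P) = T' := by
    funext i
    exact h i
  rwa [h2] at h1

end Dual

end Pool.Agent.Lib.D8
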