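import Pool.Agent.Lib.D8.Corank
import Pool.Agent.Lib.TSQ.Bridge

/-!
# Points of the punctual Quot scheme with `dim M / f M ≤ 2` for some `f ∈ (x_1,x_2,x_3)`
-/

namespace Pool.Agent.Lib.D8

open MvPolynomial Matrix Pool.Agent.Lib.TSQ Pool.Agent.Lib.Q5dc Pool.Agent.Lib.D7

universe u

variable {k : Type u} [Field k] {r d : ℕ}

/-- the submodule `K + f S^r` of `S^r`, whose quotient is `M / f M`, `M = S^r / K` -/
noncomputable def addMul (K : Submodule (S k) (Fin r → S k)) (f : S k) : Submodule (S k) (Fin r → S k) :=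
  K ⊔ Ideal.span {f} • ⊤

/-- the points with `dim M / f M ≤ 2` for some `f ∈ (x_1,x_2,x_3)` -/
def Cor (k : Type u) [Field k] (r d : ℕ) : Set (PQuot k r d) :=
  {K | ∃ f ∈ orig k, Module.finrank k ((Fin r → S k) ⧸ addMul K.K f) ≤ 2}

theorem exists_minor_le {n : Type*} [Fintype n] [DecidableEq n] (M : Matrix n n k) (m : ℕ)
    (hm : m ≤ M.rank) : ∃ f g : Fin m → n, (M.submatrix f g).det ≠ 0 := by
  obtain ⟨f, hf⟩ := PolyAux.exists_sub (k := k) M.row M.rank M.rank_eq_finrank_span_row.symm
  have hf' : LinearIndependent k (M.submatrix (f ∘ Fin.castLE hm) id).row :=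
    hf.comp (Fin.castLE hm) (Fin.castLE_injective hm)
  have hN : (M.submatrix (f ∘ Fin.castLE hm) id).rank = m := by
    rw [hf'.rank_matrix, Fintype.card_fin]
  obtain ⟨g, hg⟩ := PolyAux.exists_sub (k := k) (M.submatrix (f ∘ Fin.castLE hm) id).col m
    ((M.submatrix (f ∘ Fin.castLE hm) id).rank_eq_finrank_span_cols.symm.trans hN)
  refine ⟨f ∘ Fin.castLE hm, g, ?_⟩
  have h2 : LinearIndependent k (M.submatrix (f ∘ Fin.castLE hm) g).col := hg
  exact isUnit_iff_ne_zero.1 ((Matrix.isUnit_iff_isUnit_det _).1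
    (linearIndependent_cols_iff_isUnit.1 h2))

theorem mem_addMul (K : Submodule (S k) (Fin r → S k)) (f : S k) (g : Fin r → S k) :
    g ∈ addMul K f ↔ ∃ h, g - f • h ∈ K := by
  constructor
  · intro hg
    obtain ⟨a, ha, b, hb, rfl⟩ := Submodule.mem_sup.1 hg
    rw [Submodule.ideal_span_singleton_smul] at hb
    obtain ⟨h, -, rfl⟩ := (Submodule.mem_smul_pointwise_iff_exists _ _ _).1 hb
    exact ⟨h, by rwa [add_sub_cancel_right]⟩
  · rintro ⟨h, hh⟩
    have : g = (g - f • h) + f • h := by abel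
    rw [this]
    exact add_mem (Submodule.mem_sup_left hh) (Submodule.mem_sup_right
      (Submodule.smul_mem_smul (Ideal.mem_span_singleton_self f) Submodule.mem_top))

/-- the dimension of `M / f M` is the corank of the matrix of `f` -/
theorem finrank_quot (K : PQuot k r d) (q : (Fin r → S k) →ₗ[k] (Fin d → k)) (hq : IsFrame K q)
    (φ : S k →ₐ[k] Matrix (Fin d) (Fin d) k)
    (hφ : ∀ (g : S k) (f : Fin r → S k), q (g • f) = φ g *ᵥ q f) (f : S k) :
    Module.finrank k ((Fin r → S k) ⧸ addMul K.K f) + (φ f).rank = d := by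
  let L : (Fin r → S k) →ₗ[k] ((Fin d → k) ⧸ LinearMap.range (φ f).mulVecLin) :=
    (LinearMap.range (φ f).mulVecLin).mkQ ∘ₗ q
  have hL : Function.Surjective L := (Submodule.mkQ_surjective _).comp hq.1
  have hker : LinearMap.ker L = (addMul K.K f).restrictScalars k := by
    ext g
    rw [LinearMap.mem_ker, Submodule.restrictScalars_mem, mem_addMul]
    show (LinearMap.range (φ f).mulVecLin).mkQ (q g) = 0 ↔ _
    rw [Submodule.mkQ_apply, Submodule.Quotient.mk_eq_zero, LinearMap.mem_range]
    constructor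
    · rintro ⟨w, hw⟩
      obtain ⟨h, rfl⟩ := hq.1 w
      refine ⟨h, (hq.2 _).1 ?_⟩
      rw [map_sub, hφ, sub_eq_zero]
      exact hw.symm
    · rintro ⟨h, hh⟩
      refine ⟨q h, ?_⟩
      have h1 := (hq.2 _).2 hh
      rw [map_sub, hφ, sub_eq_zero] at h1
      exact h1.symm
  have e1 := (L.quotKerEquivOfSurjective hL).finrank_eq
  rw [hker] at e1
  have e2 : Module.finrank k ((Fin r → S k) ⧸ addMul K.K f) =
      Module.finrank k ((Fin r → S k) ⧸ (addMul K.K f).restrictScalars k) := rfl
  have e3 := Submodule.finrank_quotient_add_finrank (LinearMap.range (φ f).mulVecLin)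
  rw [e2, e1]
  rw [Module.finrank_fin_fun] at e3
  exact e3

/-- the matrices of the elements of `(x_1,x_2,x_3)` belong to the algebra generated by the triple -/
theorem ev_mem_adj (A : Fin 3 → Matrix (Fin d) (Fin d) k)
    (φ : S k →ₐ[k] Matrix (Fin d) (Fin d) k) (hφ : ∀ ν, φ (X ν) = A ν) {f : S k}
    (hf : f ∈ orig k) : φ f ∈ adj A := by
  have key : ∀ (s : S k), ∀ M ∈ adj A, φ s * M ∈ adj A := by
    intro s
    induction s using MvPolynomial.induction_on with
    | C a =>
      intro M hM
      have h3 : φ (C a) = algebraMap k _ a := φ.commutes a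
      rw [h3, Algebra.algebraMap_eq_smul_one, smul_one_mul]
      exact SMulMemClass.smul_mem a hM
    | add p p' hp hp' =>
      intro M hM
      rw [map_add, add_mul]
      exact add_mem (hp M hM) (hp' M hM)
    | mul_X p ν hp =>
      intro M hM
      rw [map_mul, hφ, mul_assoc]
      exact hp _ (mul_mem (mem_adj A ν) hM)
  unfold orig at hf
  induction hf using Submodule.span_induction with
  | mem x hx =>
    obtain ⟨ν, rfl⟩ := hx
    rw [hφ]
    exact mem_adj A ν
  | zero => rw [map_zero]; exact zero_mem _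
  | add x y _ _ hx hy => rw [map_add]; exact add_mem hx hy
  | smul a x _ hx =>
    rw [smul_eq_mul, map_mul]
    exact key a _ hx

/-- the points with `dim M / f M ≤ 2` for some `f` are limits of curvilinear points -/
theorem cor_subset [IsAlgClosed k] [CharZero k] (hr : 0 < r) (hd : 0 < d) :
    Cor k r d ⊆ closure (Curv k r d) := by
  have : Infinite k := IsAlgClosed.instInfinite
  rintro K ⟨f, hf, h2⟩
  obtain ⟨q, hq⟩ := exists_frame K
  obtain ⟨A, hA, hAq⟩ := frame_mat K q hq
  obtain ⟨φ, hφX, -⟩ := exists_ev A hA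
  obtain ⟨hev, -⟩ := frame_ev q A hAq φ hφX
  refine mem_closure_of_cl hr hd K q hq A hA hAq (cl_corank hd ⟨hA, fun ν => ?_⟩
    (ev_mem_adj A φ hφX hf) ?_)
  · rw [← hφX ν]
    exact frame_nilp K q hq φ hev (X ν) (Ideal.subset_span ⟨ν, rfl⟩)
  · have h3 := finrank_quot K q hq φ hev f
    omega

/-- this locus is open -/
theorem isOpen_cor (k : Type u) [Field k] (r d : ℕ) : IsOpen (Cor k r d) := by
  rw [← isClosed_compl_iff, isClosed_iff]
  refine ⟨{F | ∃ f ∈ orig k, ∃ (g : Fin (d - 2) → Fin r → S k) (ι : Fin (d - 2) → Fin d),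
    F = (Matrix.of fun i j => OpenAux.lin (f • g j) (ι i)).det}, fun K q hq => ?_⟩
  obtain ⟨A, hA, hAq⟩ := frame_mat K q hq
  obtain ⟨φ, hφX, -⟩ := exists_ev A hA
  obtain ⟨hev, -⟩ := frame_ev q A hAq φ hφX
  have hdet : ∀ (f : S k) (g : Fin (d - 2) → Fin r → S k) (ι : Fin (d - 2) → Fin d),
      eval (coord q) (Matrix.of fun i j => OpenAux.lin (f • g j) (ι i)).det =
        (Matrix.of fun i j => (φ f *ᵥ q (g j)) (ι i)).det := by
    intro f g ι
    rw [RingHom.map_det]
    congr 1
    ext i j
    show eval (coord q) (OpenAux.lin (f • g j) (ι i)) = _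
    rw [OpenAux.eval_lin, hev]
    rfl
  constructor
  · rintro hK F ⟨f, hf, g, ι, rfl⟩
    rw [hdet]
    by_contra hne
    apply hK
    refine ⟨f, hf, ?_⟩
    have h1 : d - 2 ≤ (φ f).rank := by
      have h2 : (Matrix.of fun i j => (φ f *ᵥ q (g j)) (ι i)) =
          (1 : Matrix (Fin d) (Fin d) k).submatrix ι id *
            (φ f * Matrix.of fun a j => q (g j) a) := by
        ext i j
        rw [Matrix.mul_apply]
        simp only [Matrix.submatrix_apply, id, Matrix.one_apply, ite_mul, one_mul, zero_mul,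
          Finset.sum_ite_eq, Finset.mem_univ, if_true, Matrix.of_apply]
        rfl
      have h3 : (Matrix.of fun i j => (φ f *ᵥ q (g j)) (ι i)).rank = d - 2 := by
        rw [rank_of_isUnit _ ((Matrix.isUnit_iff_isUnit_det _).2 (isUnit_iff_ne_zero.2 hne)),
          Fintype.card_fin]
      rw [← h3, h2]
      exact (rank_mul_le_right _ _).trans (rank_mul_le_left _ _)
    have h4 := finrank_quot K q hq φ hev f
    omega
  · rintro h ⟨f, hf, h2⟩
    have h4 := finrank_quot K q hq φ hev f
    have h5 : d - 2 ≤ (φ f).rank := by omega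
    obtain ⟨a, b, hab⟩ := exists_minor_le (φ f) (d - 2) h5
    choose g hg using fun j : Fin (d - 2) => hq.1 (Pi.single (b j) (1 : k))
    apply hab
    have h6 := h _ ⟨f, hf, g, a, rfl⟩
    rw [hdet] at h6
    rw [← h6]
    congr 1
    ext i j
    rw [Matrix.of_apply, hg, Matrix.mulVec_single_one]
    rfl

/-- every other irreducible component is disjoint from this locus -/
theorem cor_disjoint [IsAlgClosed k] [CharZero k] (hr : 0 < r) (hd : 0 < d)
    {C : Set (PQuot k r d)} (hC : C ∈ irreducibleComponents (PQuot k r d))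
    (hne : C ≠ closure (Curv k r d)) : Disjoint C (Cor k r d) := by
  have : Infinite k := IsAlgClosed.instInfinite
  rw [Set.disjoint_iff_inter_eq_empty, ← Set.not_nonempty_iff_eq_empty]
  intro h
  have h1 := subset_closure_inter_of_isPreirreducible_of_isOpen hC.1.isPreirreducible
    (isOpen_cor k r d) h
  have h2 : C ⊆ closure (Curv k r d) :=
    h1.trans (closure_minimal (Set.inter_subset_right.trans (cor_subset hr hd)) isClosed_closure)
  exact hne (Set.Subset.antisymm h2 (hC.2 (curv_component hr hd).1 h2))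

end Pool.Agent.Lib.D8
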