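import Pool.Agent.Lib.D8.Defs

/-!
# MP_5dcbc3_ag: 8 x 8 matrices commuting with the Jordan matrices of the types
`(3, 3, 2)`, `(3, 3, 1, 1)`, `(3, 2, 2, 1)`, `(4, 2, 1, 1)`, `(3, 2, 1, 1, 1)`

`M i j` is the coefficient of `e_i` in the image of `e_j`.
-/

namespace Pool.Agent.Lib.D8

open Matrix

/-- type `(3, 3, 2)`: `v0, v1, v2 = 0, 1, 2`, `w0, w1, w2 = 3, 4, 5` (`E_i = <v_i, w_i>`),
`u0, u1 = 6, 7`. With `A = J332`: for `x` in `E_0`: `x -> A N x + A^2 M x + a(x) u0 + c(x) u1`,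
`A x -> A^2 N x + a(x) u1`, `u0 -> A b + A^2 d + nu u1`, `u1 -> A^2 b`. -/
def B332 {k : Type*} [Field k] (N M : Matrix (Fin 2) (Fin 2) k) (a c b d : Fin 2 → k) (nu : k) :
    Matrix (Fin 8) (Fin 8) k :=
  !![0, 0, 0, 0, 0, 0, 0, 0;
     N 0 0, 0, 0, N 0 1, 0, 0, b 0, 0;
     M 0 0, N 0 0, 0, M 0 1, N 0 1, 0, d 0, b 0;
     0, 0, 0, 0, 0, 0, 0, 0;
     N 1 0, 0, 0, N 1 1, 0, 0, b 1, 0;
     M 1 0, N 1 0, 0, M 1 1, N 1 1, 0, d 1, b 1;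
     a 0, 0, 0, a 1, 0, 0, 0, 0;
     c 0, a 0, 0, c 1, a 1, 0, nu, 0]

/-- type `(3, 3, 1, 1)`: `v0, v1, v2 = 0, 1, 2`, `w0, w1, w2 = 3, 4, 5`, `P = <e6, e7>`:
`x -> A N x + A^2 M x + W x`, `A x -> A^2 N x`, `p -> A^2 T p`. -/
def B3311 {k : Type*} [Field k] (N M W T : Matrix (Fin 2) (Fin 2) k) :
    Matrix (Fin 8) (Fin 8) k :=
  !![0, 0, 0, 0, 0, 0, 0, 0;
     N 0 0, 0, 0, N 0 1, 0, 0, 0, 0;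
     M 0 0, N 0 0, 0, M 0 1, N 0 1, 0, T 0 0, T 0 1;
     0, 0, 0, 0, 0, 0, 0, 0;
     N 1 0, 0, 0, N 1 1, 0, 0, 0, 0;
     M 1 0, N 1 0, 0, M 1 1, N 1 1, 0, T 1 0, T 1 1;
     W 0 0, 0, 0, W 0 1, 0, 0, 0, 0;
     W 1 0, 0, 0, W 1 1, 0, 0, 0, 0]

/-- type `(3, 2, 2, 1)`: `v0, v1, v2 = 0, 1, 2`, `u0, u1 = 3, 4`, `w0, w1 = 5, 6`
(`U_i = <u_i, w_i>`), `p = 7`. `v0 -> a (in U_0) + c (in U_1) + om p`, `v1 -> a (in U_1)`,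
for `x` in `U_0`: `x -> b(x) v1 + d(x) v2 + N x (in U_1) + pi(x) p`, `A x -> b(x) v2`,
`p -> th v2 + e (in U_1)`. -/
def B3221 {k : Type*} [Field k] (a c : Fin 2 → k) (om : k) (b d : Fin 2 → k)
    (N : Matrix (Fin 2) (Fin 2) k) (pi : Fin 2 → k) (th : k) (e : Fin 2 → k) :
    Matrix (Fin 8) (Fin 8) k :=
  !![0, 0, 0, 0, 0, 0, 0, 0;
     0, 0, 0, b 0, 0, b 1, 0, 0;
     0, 0, 0, d 0, b 0, d 1, b 1, th;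
     a 0, 0, 0, 0, 0, 0, 0, 0;
     c 0, a 0, 0, N 0 0, 0, N 0 1, 0, e 0;
     a 1, 0, 0, 0, 0, 0, 0, 0;
     c 1, a 1, 0, N 1 0, 0, N 1 1, 0, e 1;
     om, 0, 0, pi 0, 0, pi 1, 0, 0]

/-- type `(4, 2, 1, 1)`: `v0..v3 = 0..3`, `u0, u1 = 4, 5`, `P = <e6, e7>`:
`v0 -> al u0 + al1 u1 + w`, `v1 -> al u1`, `u0 -> be v2 + be1 v3 + ga u1 + pi`, `u1 -> be v3`,
`p -> th(p) v3 + e(p) u1 + N p`. -/
def B4211 {k : Type*} [Field k] (al al1 : k) (w : Fin 2 → k) (be be1 ga : k)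
    (pi th e : Fin 2 → k) (N : Matrix (Fin 2) (Fin 2) k) : Matrix (Fin 8) (Fin 8) k :=
  !![0, 0, 0, 0, 0, 0, 0, 0;
     0, 0, 0, 0, 0, 0, 0, 0;
     0, 0, 0, 0, be, 0, 0, 0;
     0, 0, 0, 0, be1, be, th 0, th 1;
     al, 0, 0, 0, 0, 0, 0, 0;
     al1, al, 0, 0, ga, 0, e 0, e 1;
     w 0, 0, 0, 0, pi 0, 0, N 0 0, N 0 1;
     w 1, 0, 0, 0, pi 1, 0, N 1 0, N 1 1]

/-- type `(3, 2, 1, 1, 1)`: `v0, v1, v2 = 0, 1, 2`, `u0, u1 = 3, 4`, `P = <e5, e6, e7>`: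
`v0 -> al u0 + al1 u1 + w`, `v1 -> al u1`, `u0 -> be v1 + be1 v2 + ga u1 + pi`, `u1 -> be v2`,
`p -> th(p) v2 + e(p) u1 + N p`. -/
def B32111 {k : Type*} [Field k] (al al1 : k) (w : Fin 3 → k) (be be1 ga : k)
    (pi th e : Fin 3 → k) (N : Matrix (Fin 3) (Fin 3) k) : Matrix (Fin 8) (Fin 8) k :=
  !![0, 0, 0, 0, 0, 0, 0, 0;
     0, 0, 0, be, 0, 0, 0, 0;
     0, 0, 0, be1, be, th 0, th 1, th 2;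
     al, 0, 0, 0, 0, 0, 0, 0;
     al1, al, 0, ga, 0, e 0, e 1, e 2;
     w 0, 0, 0, pi 0, 0, N 0 0, N 0 1, N 0 2;
     w 1, 0, 0, pi 1, 0, N 1 0, N 1 1, N 1 2;
     w 2, 0, 0, pi 2, 0, N 2 0, N 2 1, N 2 2]

end Pool.Agent.Lib.D8
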