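import Pool.Agent.Lib.D8.Defs
import Pool.Agent.Lib.D7.JordanS

/-!
# MP_5dcbc3_ag: Jordan form of nilpotent 8 x 8 matrices
-/

namespace Pool.Agent.Lib.D8

open Matrix Pool.Agent.Lib.D7

variable {k : Type*} [Field k]

namespace Jordan8Aux

theorem s71 {A : Matrix (Fin 8) (Fin 8) k}
    (b : Module.Basis (Σ a : Fin 2, Fin ((![7, 1] : Fin 2 → ℕ) a)) k (Fin 8 → k))
    (hb : ∀ (a : Fin 2) (i : Fin ((![7, 1] : Fin 2 → ℕ) a)), A *ᵥ (b ⟨a, i⟩) =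
      if h : (i : ℕ) + 1 < (![7, 1] : Fin 2 → ℕ) a then b ⟨a, ⟨(i : ℕ) + 1, h⟩⟩ else 0) :
    ∃ g h : Matrix (Fin 8) (Fin 8) k, g * h = 1 ∧ h * g = 1 ∧ g * A * h = J71 k := by
  refine JordanSAux.shape b hb ![⟨0, (0 : Fin 7)⟩, ⟨0, (1 : Fin 7)⟩, ⟨0, (2 : Fin 7)⟩, ⟨0, (3 : Fin 7)⟩,
      ⟨0, (4 : Fin 7)⟩, ⟨0, (5 : Fin 7)⟩, ⟨0, (6 : Fin 7)⟩, ⟨1, (0 : Fin 1)⟩] (by decide) _ ?_
  intro i j
  fin_cases i <;> fin_cases j <;> rfl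

theorem s62 {A : Matrix (Fin 8) (Fin 8) k}
    (b : Module.Basis (Σ a : Fin 2, Fin ((![6, 2] : Fin 2 → ℕ) a)) k (Fin 8 → k))
    (hb : ∀ (a : Fin 2) (i : Fin ((![6, 2] : Fin 2 → ℕ) a)), A *ᵥ (b ⟨a, i⟩) =
      if h : (i : ℕ) + 1 < (![6, 2] : Fin 2 → ℕ) a then b ⟨a, ⟨(i : ℕ) + 1, h⟩⟩ else 0) :
    ∃ g h : Matrix (Fin 8) (Fin 8) k, g * h = 1 ∧ h * g = 1 ∧ g * A * h = J62 k := by
  refine JordanSAux.shape b hb ![⟨0, (0 : Fin 6)⟩, ⟨0, (1 : Fin 6)⟩, ⟨0, (2 : Fin 6)⟩, ⟨0, (3 : Fin 6)⟩,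
      ⟨0, (4 : Fin 6)⟩, ⟨0, (5 : Fin 6)⟩, ⟨1, (0 : Fin 2)⟩, ⟨1, (1 : Fin 2)⟩] (by decide) _ ?_
  intro i j
  fin_cases i <;> fin_cases j <;> rfl

theorem s611 {A : Matrix (Fin 8) (Fin 8) k}
    (b : Module.Basis (Σ a : Fin 3, Fin ((![6, 1, 1] : Fin 3 → ℕ) a)) k (Fin 8 → k))
    (hb : ∀ (a : Fin 3) (i : Fin ((![6, 1, 1] : Fin 3 → ℕ) a)), A *ᵥ (b ⟨a, i⟩) =
      if h : (i : ℕ) + 1 < (![6, 1, 1] : Fin 3 → ℕ) a then b ⟨a, ⟨(i : ℕ) + 1, h⟩⟩ else 0) :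
    ∃ g h : Matrix (Fin 8) (Fin 8) k, g * h = 1 ∧ h * g = 1 ∧ g * A * h = D7.JhN k 8 6 := by
  refine JordanSAux.shape b hb ![⟨0, (0 : Fin 6)⟩, ⟨0, (1 : Fin 6)⟩, ⟨0, (2 : Fin 6)⟩, ⟨0, (3 : Fin 6)⟩,
      ⟨0, (4 : Fin 6)⟩, ⟨0, (5 : Fin 6)⟩, ⟨1, (0 : Fin 1)⟩, ⟨2, (0 : Fin 1)⟩] (by decide) _ ?_
  intro i j
  fin_cases i <;> fin_cases j <;> simp [JhN]

theorem s53 {A : Matrix (Fin 8) (Fin 8) k}
    (b : Module.Basis (Σ a : Fin 2, Fin ((![5, 3] : Fin 2 → ℕ) a)) k (Fin 8 → k))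
    (hb : ∀ (a : Fin 2) (i : Fin ((![5, 3] : Fin 2 → ℕ) a)), A *ᵥ (b ⟨a, i⟩) =
      if h : (i : ℕ) + 1 < (![5, 3] : Fin 2 → ℕ) a then b ⟨a, ⟨(i : ℕ) + 1, h⟩⟩ else 0) :
    ∃ g h : Matrix (Fin 8) (Fin 8) k, g * h = 1 ∧ h * g = 1 ∧ g * A * h = J53 k := by
  refine JordanSAux.shape b hb ![⟨0, (0 : Fin 5)⟩, ⟨0, (1 : Fin 5)⟩, ⟨0, (2 : Fin 5)⟩, ⟨0, (3 : Fin 5)⟩,
      ⟨0, (4 : Fin 5)⟩, ⟨1, (0 : Fin 3)⟩, ⟨1, (1 : Fin 3)⟩, ⟨1, (2 : Fin 3)⟩] (by decide) _ ?_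
  intro i j
  fin_cases i <;> fin_cases j <;> rfl

theorem s521 {A : Matrix (Fin 8) (Fin 8) k}
    (b : Module.Basis (Σ a : Fin 3, Fin ((![5, 2, 1] : Fin 3 → ℕ) a)) k (Fin 8 → k))
    (hb : ∀ (a : Fin 3) (i : Fin ((![5, 2, 1] : Fin 3 → ℕ) a)), A *ᵥ (b ⟨a, i⟩) =
      if h : (i : ℕ) + 1 < (![5, 2, 1] : Fin 3 → ℕ) a then b ⟨a, ⟨(i : ℕ) + 1, h⟩⟩ else 0) :
    ∃ g h : Matrix (Fin 8) (Fin 8) k, g * h = 1 ∧ h * g = 1 ∧ g * A * h = J521 k := by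
  refine JordanSAux.shape b hb ![⟨0, (0 : Fin 5)⟩, ⟨0, (1 : Fin 5)⟩, ⟨0, (2 : Fin 5)⟩, ⟨0, (3 : Fin 5)⟩,
      ⟨0, (4 : Fin 5)⟩, ⟨1, (0 : Fin 2)⟩, ⟨1, (1 : Fin 2)⟩, ⟨2, (0 : Fin 1)⟩] (by decide) _ ?_
  intro i j
  fin_cases i <;> fin_cases j <;> rfl

theorem s5111 {A : Matrix (Fin 8) (Fin 8) k}
    (b : Module.Basis (Σ a : Fin 4, Fin ((![5, 1, 1, 1] : Fin 4 → ℕ) a)) k (Fin 8 → k))
    (hb : ∀ (a : Fin 4) (i : Fin ((![5, 1, 1, 1] : Fin 4 → ℕ) a)), A *ᵥ (b ⟨a, i⟩) =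
      if h : (i : ℕ) + 1 < (![5, 1, 1, 1] : Fin 4 → ℕ) a then b ⟨a, ⟨(i : ℕ) + 1, h⟩⟩ else 0) :
    ∃ g h : Matrix (Fin 8) (Fin 8) k, g * h = 1 ∧ h * g = 1 ∧ g * A * h = D7.JhN k 8 5 := by
  refine JordanSAux.shape b hb ![⟨0, (0 : Fin 5)⟩, ⟨0, (1 : Fin 5)⟩, ⟨0, (2 : Fin 5)⟩, ⟨0, (3 : Fin 5)⟩,
      ⟨0, (4 : Fin 5)⟩, ⟨1, (0 : Fin 1)⟩, ⟨2, (0 : Fin 1)⟩, ⟨3, (0 : Fin 1)⟩] (by decide) _ ?_
  intro i j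
  fin_cases i <;> fin_cases j <;> simp [JhN]

theorem s44 {A : Matrix (Fin 8) (Fin 8) k}
    (b : Module.Basis (Σ a : Fin 2, Fin ((![4, 4] : Fin 2 → ℕ) a)) k (Fin 8 → k))
    (hb : ∀ (a : Fin 2) (i : Fin ((![4, 4] : Fin 2 → ℕ) a)), A *ᵥ (b ⟨a, i⟩) =
      if h : (i : ℕ) + 1 < (![4, 4] : Fin 2 → ℕ) a then b ⟨a, ⟨(i : ℕ) + 1, h⟩⟩ else 0) :
    ∃ g h : Matrix (Fin 8) (Fin 8) k, g * h = 1 ∧ h * g = 1 ∧ g * A * h = J44 k := by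
  refine JordanSAux.shape b hb ![⟨0, (0 : Fin 4)⟩, ⟨0, (1 : Fin 4)⟩, ⟨0, (2 : Fin 4)⟩, ⟨0, (3 : Fin 4)⟩,
      ⟨1, (0 : Fin 4)⟩, ⟨1, (1 : Fin 4)⟩, ⟨1, (2 : Fin 4)⟩, ⟨1, (3 : Fin 4)⟩] (by decide) _ ?_
  intro i j
  fin_cases i <;> fin_cases j <;> rfl

theorem s431 {A : Matrix (Fin 8) (Fin 8) k}
    (b : Module.Basis (Σ a : Fin 3, Fin ((![4, 3, 1] : Fin 3 → ℕ) a)) k (Fin 8 → k))
    (hb : ∀ (a : Fin 3) (i : Fin ((![4, 3, 1] : Fin 3 → ℕ) a)), A *ᵥ (b ⟨a, i⟩) =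
      if h : (i : ℕ) + 1 < (![4, 3, 1] : Fin 3 → ℕ) a then b ⟨a, ⟨(i : ℕ) + 1, h⟩⟩ else 0) :
    ∃ g h : Matrix (Fin 8) (Fin 8) k, g * h = 1 ∧ h * g = 1 ∧ g * A * h = J431 k := by
  refine JordanSAux.shape b hb ![⟨0, (0 : Fin 4)⟩, ⟨0, (1 : Fin 4)⟩, ⟨0, (2 : Fin 4)⟩, ⟨0, (3 : Fin 4)⟩,
      ⟨1, (0 : Fin 3)⟩, ⟨1, (1 : Fin 3)⟩, ⟨1, (2 : Fin 3)⟩, ⟨2, (0 : Fin 1)⟩] (by decide) _ ?_
  intro i j
  fin_cases i <;> fin_cases j <;> rfl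

theorem s422 {A : Matrix (Fin 8) (Fin 8) k}
    (b : Module.Basis (Σ a : Fin 3, Fin ((![4, 2, 2] : Fin 3 → ℕ) a)) k (Fin 8 → k))
    (hb : ∀ (a : Fin 3) (i : Fin ((![4, 2, 2] : Fin 3 → ℕ) a)), A *ᵥ (b ⟨a, i⟩) =
      if h : (i : ℕ) + 1 < (![4, 2, 2] : Fin 3 → ℕ) a then b ⟨a, ⟨(i : ℕ) + 1, h⟩⟩ else 0) :
    ∃ g h : Matrix (Fin 8) (Fin 8) k, g * h = 1 ∧ h * g = 1 ∧ g * A * h = J422 k := by
  refine JordanSAux.shape b hb ![⟨0, (0 : Fin 4)⟩, ⟨0, (1 : Fin 4)⟩, ⟨0, (2 : Fin 4)⟩, ⟨0, (3 : Fin 4)⟩,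
      ⟨1, (0 : Fin 2)⟩, ⟨1, (1 : Fin 2)⟩, ⟨2, (0 : Fin 2)⟩, ⟨2, (1 : Fin 2)⟩] (by decide) _ ?_
  intro i j
  fin_cases i <;> fin_cases j <;> rfl

theorem s4211 {A : Matrix (Fin 8) (Fin 8) k}
    (b : Module.Basis (Σ a : Fin 4, Fin ((![4, 2, 1, 1] : Fin 4 → ℕ) a)) k (Fin 8 → k))
    (hb : ∀ (a : Fin 4) (i : Fin ((![4, 2, 1, 1] : Fin 4 → ℕ) a)), A *ᵥ (b ⟨a, i⟩) =
      if h : (i : ℕ) + 1 < (![4, 2, 1, 1] : Fin 4 → ℕ) a then b ⟨a, ⟨(i : ℕ) + 1, h⟩⟩ else 0) :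
    ∃ g h : Matrix (Fin 8) (Fin 8) k, g * h = 1 ∧ h * g = 1 ∧ g * A * h = J4211 k := by
  refine JordanSAux.shape b hb ![⟨0, (0 : Fin 4)⟩, ⟨0, (1 : Fin 4)⟩, ⟨0, (2 : Fin 4)⟩, ⟨0, (3 : Fin 4)⟩,
      ⟨1, (0 : Fin 2)⟩, ⟨1, (1 : Fin 2)⟩, ⟨2, (0 : Fin 1)⟩, ⟨3, (0 : Fin 1)⟩] (by decide) _ ?_
  intro i j
  fin_cases i <;> fin_cases j <;> rfl

theorem s41111 {A : Matrix (Fin 8) (Fin 8) k}
    (b : Module.Basis (Σ a : Fin 5, Fin ((![4, 1, 1, 1, 1] : Fin 5 → ℕ) a)) k (Fin 8 → k))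
    (hb : ∀ (a : Fin 5) (i : Fin ((![4, 1, 1, 1, 1] : Fin 5 → ℕ) a)), A *ᵥ (b ⟨a, i⟩) =
      if h : (i : ℕ) + 1 < (![4, 1, 1, 1, 1] : Fin 5 → ℕ) a then b ⟨a, ⟨(i : ℕ) + 1, h⟩⟩ else 0) :
    ∃ g h : Matrix (Fin 8) (Fin 8) k, g * h = 1 ∧ h * g = 1 ∧ g * A * h = D7.JhN k 8 4 := by
  refine JordanSAux.shape b hb ![⟨0, (0 : Fin 4)⟩, ⟨0, (1 : Fin 4)⟩, ⟨0, (2 : Fin 4)⟩, ⟨0, (3 : Fin 4)⟩,
      ⟨1, (0 : Fin 1)⟩, ⟨2, (0 : Fin 1)⟩, ⟨3, (0 : Fin 1)⟩, ⟨4, (0 : Fin 1)⟩] (by decide) _ ?_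
  intro i j
  fin_cases i <;> fin_cases j <;> simp [JhN]

theorem s332 {A : Matrix (Fin 8) (Fin 8) k}
    (b : Module.Basis (Σ a : Fin 3, Fin ((![3, 3, 2] : Fin 3 → ℕ) a)) k (Fin 8 → k))
    (hb : ∀ (a : Fin 3) (i : Fin ((![3, 3, 2] : Fin 3 → ℕ) a)), A *ᵥ (b ⟨a, i⟩) =
      if h : (i : ℕ) + 1 < (![3, 3, 2] : Fin 3 → ℕ) a then b ⟨a, ⟨(i : ℕ) + 1, h⟩⟩ else 0) :
    ∃ g h : Matrix (Fin 8) (Fin 8) k, g * h = 1 ∧ h * g = 1 ∧ g * A * h = J332 k := by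
  refine JordanSAux.shape b hb ![⟨0, (0 : Fin 3)⟩, ⟨0, (1 : Fin 3)⟩, ⟨0, (2 : Fin 3)⟩, ⟨1, (0 : Fin 3)⟩,
      ⟨1, (1 : Fin 3)⟩, ⟨1, (2 : Fin 3)⟩, ⟨2, (0 : Fin 2)⟩, ⟨2, (1 : Fin 2)⟩] (by decide) _ ?_
  intro i j
  fin_cases i <;> fin_cases j <;> rfl

theorem s3311 {A : Matrix (Fin 8) (Fin 8) k}
    (b : Module.Basis (Σ a : Fin 4, Fin ((![3, 3, 1, 1] : Fin 4 → ℕ) a)) k (Fin 8 → k))
    (hb : ∀ (a : Fin 4) (i : Fin ((![3, 3, 1, 1] : Fin 4 → ℕ) a)), A *ᵥ (b ⟨a, i⟩) =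
      if h : (i : ℕ) + 1 < (![3, 3, 1, 1] : Fin 4 → ℕ) a then b ⟨a, ⟨(i : ℕ) + 1, h⟩⟩ else 0) :
    ∃ g h : Matrix (Fin 8) (Fin 8) k, g * h = 1 ∧ h * g = 1 ∧ g * A * h = J3311 k := by
  refine JordanSAux.shape b hb ![⟨0, (0 : Fin 3)⟩, ⟨0, (1 : Fin 3)⟩, ⟨0, (2 : Fin 3)⟩, ⟨1, (0 : Fin 3)⟩,
      ⟨1, (1 : Fin 3)⟩, ⟨1, (2 : Fin 3)⟩, ⟨2, (0 : Fin 1)⟩, ⟨3, (0 : Fin 1)⟩] (by decide) _ ?_
  intro i j
  fin_cases i <;> fin_cases j <;> rfl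

theorem s3221 {A : Matrix (Fin 8) (Fin 8) k}
    (b : Module.Basis (Σ a : Fin 4, Fin ((![3, 2, 2, 1] : Fin 4 → ℕ) a)) k (Fin 8 → k))
    (hb : ∀ (a : Fin 4) (i : Fin ((![3, 2, 2, 1] : Fin 4 → ℕ) a)), A *ᵥ (b ⟨a, i⟩) =
      if h : (i : ℕ) + 1 < (![3, 2, 2, 1] : Fin 4 → ℕ) a then b ⟨a, ⟨(i : ℕ) + 1, h⟩⟩ else 0) :
    ∃ g h : Matrix (Fin 8) (Fin 8) k, g * h = 1 ∧ h * g = 1 ∧ g * A * h = J3221 k := by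
  refine JordanSAux.shape b hb ![⟨0, (0 : Fin 3)⟩, ⟨0, (1 : Fin 3)⟩, ⟨0, (2 : Fin 3)⟩, ⟨1, (0 : Fin 2)⟩,
      ⟨1, (1 : Fin 2)⟩, ⟨2, (0 : Fin 2)⟩, ⟨2, (1 : Fin 2)⟩, ⟨3, (0 : Fin 1)⟩] (by decide) _ ?_
  intro i j
  fin_cases i <;> fin_cases j <;> rfl

theorem s32111 {A : Matrix (Fin 8) (Fin 8) k}
    (b : Module.Basis (Σ a : Fin 5, Fin ((![3, 2, 1, 1, 1] : Fin 5 → ℕ) a)) k (Fin 8 → k))
    (hb : ∀ (a : Fin 5) (i : Fin ((![3, 2, 1, 1, 1] : Fin 5 → ℕ) a)), A *ᵥ (b ⟨a, i⟩) =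
      if h : (i : ℕ) + 1 < (![3, 2, 1, 1, 1] : Fin 5 → ℕ) a then b ⟨a, ⟨(i : ℕ) + 1, h⟩⟩ else 0) :
    ∃ g h : Matrix (Fin 8) (Fin 8) k, g * h = 1 ∧ h * g = 1 ∧ g * A * h = J32111 k := by
  refine JordanSAux.shape b hb ![⟨0, (0 : Fin 3)⟩, ⟨0, (1 : Fin 3)⟩, ⟨0, (2 : Fin 3)⟩, ⟨1, (0 : Fin 2)⟩,
      ⟨1, (1 : Fin 2)⟩, ⟨2, (0 : Fin 1)⟩, ⟨3, (0 : Fin 1)⟩, ⟨4, (0 : Fin 1)⟩] (by decide) _ ?_
  intro i j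
  fin_cases i <;> fin_cases j <;> rfl

theorem s311111 {A : Matrix (Fin 8) (Fin 8) k}
    (b : Module.Basis (Σ a : Fin 6, Fin ((![3, 1, 1, 1, 1, 1] : Fin 6 → ℕ) a)) k (Fin 8 → k))
    (hb : ∀ (a : Fin 6) (i : Fin ((![3, 1, 1, 1, 1, 1] : Fin 6 → ℕ) a)), A *ᵥ (b ⟨a, i⟩) =
      if h : (i : ℕ) + 1 < (![3, 1, 1, 1, 1, 1] : Fin 6 → ℕ) a then b ⟨a, ⟨(i : ℕ) + 1, h⟩⟩ else 0) :
    ∃ g h : Matrix (Fin 8) (Fin 8) k, g * h = 1 ∧ h * g = 1 ∧ g * A * h = D7.JhN k 8 3 := by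
  refine JordanSAux.shape b hb ![⟨0, (0 : Fin 3)⟩, ⟨0, (1 : Fin 3)⟩, ⟨0, (2 : Fin 3)⟩, ⟨1, (0 : Fin 1)⟩,
      ⟨2, (0 : Fin 1)⟩, ⟨3, (0 : Fin 1)⟩, ⟨4, (0 : Fin 1)⟩, ⟨5, (0 : Fin 1)⟩] (by decide) _ ?_
  intro i j
  fin_cases i <;> fin_cases j <;> simp [JhN]

end Jordan8Aux

open JordanSAux Jordan8Aux

theorem jordan8 (A : Matrix (Fin 8) (Fin 8) k) (hA : IsNilpotent A) :
    A ^ 2 = 0 ∨ A ^ 7 ≠ 0 ∨ ∃ g h : Matrix (Fin 8) (Fin 8) k, g * h = 1 ∧ h * g = 1 ∧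
      (g * A * h = J71 k ∨ g * A * h = J62 k ∨ g * A * h = JhN k 8 6 ∨ g * A * h = J53 k ∨ g * A * h = J521 k ∨ g * A * h = JhN k 8 5 ∨ g * A * h = J44 k ∨ g * A * h = J431 k ∨ g * A * h = J422 k ∨ g * A * h = J4211 k ∨ g * A * h = JhN k 8 4 ∨ g * A * h = J332 k ∨ g * A * h = J3311 k ∨ g * A * h = J3221 k ∨ g * A * h = J32111 k ∨ g * A * h = JhN k 8 3) := by
  classical
  obtain ⟨r, m, b, hb, hpos, hanti, hsum⟩ := JordanSAux.sorted A hA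
  have hr : r ≤ 8 := by
    rw [← hsum]
    calc r = ∑ _a : Fin r, 1 := by simp
      _ ≤ ∑ a, m a := Finset.sum_le_sum fun a _ => hpos a
  by_cases h2 : ∀ a, m a ≤ 2
  · exact Or.inl (JordanSAux.sq_zero b hb h2)
  right
  push Not at h2
  obtain ⟨a0, ha0⟩ := h2
  interval_cases r
  · exact a0.elim0
  · -- one block
    have h0 : m 0 = 8 := by
      simpa [Fin.sum_univ_succ] using hsum
    exact Or.inl (JordanSAux.pow_ne b hb 0 7 (by omega))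
  · -- 2 blocks
    have h0 : 3 ≤ m 0 := ha0.trans_le (hanti 0 a0 (Fin.zero_le _))
    have g0 : m 1 ≤ m 0 := hanti 0 1 (by decide)
    have p : 0 < m 1 := hpos 1
    have hs : m 0 + m 1 = 8 := by
      refine Eq.trans ?_ hsum
      simp [Fin.sum_univ_succ]
    right
    have hc : (m 0 = 7 ∧ m 1 = 1) ∨
        (m 0 = 6 ∧ m 1 = 2) ∨
        (m 0 = 5 ∧ m 1 = 3) ∨
        (m 0 = 4 ∧ m 1 = 4) := by omega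
    rcases hc with ⟨c0, c1⟩ | ⟨c0, c1⟩ | ⟨c0, c1⟩ | ⟨c0, c1⟩
    · obtain rfl : m = ![7, 1] := by
        funext a
        fin_cases a <;> assumption
      obtain ⟨g, h, e1, e2, e3⟩ := s71 b hb
      exact ⟨g, h, e1, e2, by tauto⟩
    · obtain rfl : m = ![6, 2] := by
        funext a
        fin_cases a <;> assumption
      obtain ⟨g, h, e1, e2, e3⟩ := s62 b hb
      exact ⟨g, h, e1, e2, by tauto⟩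
    · obtain rfl : m = ![5, 3] := by
        funext a
        fin_cases a <;> assumption
      obtain ⟨g, h, e1, e2, e3⟩ := s53 b hb
      exact ⟨g, h, e1, e2, by tauto⟩
    · obtain rfl : m = ![4, 4] := by
        funext a
        fin_cases a <;> assumption
      obtain ⟨g, h, e1, e2, e3⟩ := s44 b hb
      exact ⟨g, h, e1, e2, by tauto⟩
  · -- 3 blocks
    have h0 : 3 ≤ m 0 := ha0.trans_le (hanti 0 a0 (Fin.zero_le _))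
    have g0 : m 1 ≤ m 0 := hanti 0 1 (by decide)
    have g1 : m 2 ≤ m 1 := hanti 1 2 (by decide)
    have p : 0 < m 2 := hpos 2
    have hs : m 0 + m 1 + m 2 = 8 := by
      refine Eq.trans ?_ hsum
      simp [Fin.sum_univ_succ, add_assoc]
    right
    have hc : (m 0 = 6 ∧ m 1 = 1 ∧ m 2 = 1) ∨
        (m 0 = 5 ∧ m 1 = 2 ∧ m 2 = 1) ∨
        (m 0 = 4 ∧ m 1 = 3 ∧ m 2 = 1) ∨
        (m 0 = 4 ∧ m 1 = 2 ∧ m 2 = 2) ∨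
        (m 0 = 3 ∧ m 1 = 3 ∧ m 2 = 2) := by omega
    rcases hc with ⟨c0, c1, c2⟩ | ⟨c0, c1, c2⟩ | ⟨c0, c1, c2⟩ | ⟨c0, c1, c2⟩ | ⟨c0, c1, c2⟩
    · obtain rfl : m = ![6, 1, 1] := by
        funext a
        fin_cases a <;> assumption
      obtain ⟨g, h, e1, e2, e3⟩ := s611 b hb
      exact ⟨g, h, e1, e2, by tauto⟩
    · obtain rfl : m = ![5, 2, 1] := by
        funext a
        fin_cases a <;> assumption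
      obtain ⟨g, h, e1, e2, e3⟩ := s521 b hb
      exact ⟨g, h, e1, e2, by tauto⟩
    · obtain rfl : m = ![4, 3, 1] := by
        funext a
        fin_cases a <;> assumption
      obtain ⟨g, h, e1, e2, e3⟩ := s431 b hb
      exact ⟨g, h, e1, e2, by tauto⟩
    · obtain rfl : m = ![4, 2, 2] := by
        funext a
        fin_cases a <;> assumption
      obtain ⟨g, h, e1, e2, e3⟩ := s422 b hb
      exact ⟨g, h, e1, e2, by tauto⟩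
    · obtain rfl : m = ![3, 3, 2] := by
        funext a
        fin_cases a <;> assumption
      obtain ⟨g, h, e1, e2, e3⟩ := s332 b hb
      exact ⟨g, h, e1, e2, by tauto⟩
  · -- 4 blocks
    have h0 : 3 ≤ m 0 := ha0.trans_le (hanti 0 a0 (Fin.zero_le _))
    have g0 : m 1 ≤ m 0 := hanti 0 1 (by decide)
    have g1 : m 2 ≤ m 1 := hanti 1 2 (by decide)
    have g2 : m 3 ≤ m 2 := hanti 2 3 (by decide)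
    have p : 0 < m 3 := hpos 3
    have hs : m 0 + m 1 + m 2 + m 3 = 8 := by
      refine Eq.trans ?_ hsum
      simp [Fin.sum_univ_succ, add_assoc]
    right
    have hc : (m 0 = 5 ∧ m 1 = 1 ∧ m 2 = 1 ∧ m 3 = 1) ∨
        (m 0 = 4 ∧ m 1 = 2 ∧ m 2 = 1 ∧ m 3 = 1) ∨
        (m 0 = 3 ∧ m 1 = 3 ∧ m 2 = 1 ∧ m 3 = 1) ∨
        (m 0 = 3 ∧ m 1 = 2 ∧ m 2 = 2 ∧ m 3 = 1) := by omega
    rcases hc with ⟨c0, c1, c2, c3⟩ | ⟨c0, c1, c2, c3⟩ | ⟨c0, c1, c2, c3⟩ | ⟨c0, c1, c2, c3⟩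
    · obtain rfl : m = ![5, 1, 1, 1] := by
        funext a
        fin_cases a <;> assumption
      obtain ⟨g, h, e1, e2, e3⟩ := s5111 b hb
      exact ⟨g, h, e1, e2, by tauto⟩
    · obtain rfl : m = ![4, 2, 1, 1] := by
        funext a
        fin_cases a <;> assumption
      obtain ⟨g, h, e1, e2, e3⟩ := s4211 b hb
      exact ⟨g, h, e1, e2, by tauto⟩
    · obtain rfl : m = ![3, 3, 1, 1] := by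
        funext a
        fin_cases a <;> assumption
      obtain ⟨g, h, e1, e2, e3⟩ := s3311 b hb
      exact ⟨g, h, e1, e2, by tauto⟩
    · obtain rfl : m = ![3, 2, 2, 1] := by
        funext a
        fin_cases a <;> assumption
      obtain ⟨g, h, e1, e2, e3⟩ := s3221 b hb
      exact ⟨g, h, e1, e2, by tauto⟩
  · -- 5 blocks
    have h0 : 3 ≤ m 0 := ha0.trans_le (hanti 0 a0 (Fin.zero_le _))
    have g0 : m 1 ≤ m 0 := hanti 0 1 (by decide)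
    have g1 : m 2 ≤ m 1 := hanti 1 2 (by decide)
    have g2 : m 3 ≤ m 2 := hanti 2 3 (by decide)
    have g3 : m 4 ≤ m 3 := hanti 3 4 (by decide)
    have p : 0 < m 4 := hpos 4
    have hs : m 0 + m 1 + m 2 + m 3 + m 4 = 8 := by
      refine Eq.trans ?_ hsum
      simp [Fin.sum_univ_succ, add_assoc]
    right
    have hc : (m 0 = 4 ∧ m 1 = 1 ∧ m 2 = 1 ∧ m 3 = 1 ∧ m 4 = 1) ∨
        (m 0 = 3 ∧ m 1 = 2 ∧ m 2 = 1 ∧ m 3 = 1 ∧ m 4 = 1) := by omega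
    rcases hc with ⟨c0, c1, c2, c3, c4⟩ | ⟨c0, c1, c2, c3, c4⟩
    · obtain rfl : m = ![4, 1, 1, 1, 1] := by
        funext a
        fin_cases a <;> assumption
      obtain ⟨g, h, e1, e2, e3⟩ := s41111 b hb
      exact ⟨g, h, e1, e2, by tauto⟩
    · obtain rfl : m = ![3, 2, 1, 1, 1] := by
        funext a
        fin_cases a <;> assumption
      obtain ⟨g, h, e1, e2, e3⟩ := s32111 b hb
      exact ⟨g, h, e1, e2, by tauto⟩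
  · -- 6 blocks
    have h0 : 3 ≤ m 0 := ha0.trans_le (hanti 0 a0 (Fin.zero_le _))
    have g0 : m 1 ≤ m 0 := hanti 0 1 (by decide)
    have g1 : m 2 ≤ m 1 := hanti 1 2 (by decide)
    have g2 : m 3 ≤ m 2 := hanti 2 3 (by decide)
    have g3 : m 4 ≤ m 3 := hanti 3 4 (by decide)
    have g4 : m 5 ≤ m 4 := hanti 4 5 (by decide)
    have p : 0 < m 5 := hpos 5
    have hs : m 0 + m 1 + m 2 + m 3 + m 4 + m 5 = 8 := by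
      refine Eq.trans ?_ hsum
      simp [Fin.sum_univ_succ, add_assoc]
    right
    have hc : (m 0 = 3 ∧ m 1 = 1 ∧ m 2 = 1 ∧ m 3 = 1 ∧ m 4 = 1 ∧ m 5 = 1) := by omega
    obtain ⟨c0, c1, c2, c3, c4, c5⟩ := hc
    obtain rfl : m = ![3, 1, 1, 1, 1, 1] := by
      funext a
      fin_cases a <;> assumption
    obtain ⟨g, h, e1, e2, e3⟩ := s311111 b hb
    exact ⟨g, h, e1, e2, by tauto⟩
  · -- 7 blocks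
    have h0 : 3 ≤ m 0 := ha0.trans_le (hanti 0 a0 (Fin.zero_le _))
    have g0 : m 1 ≤ m 0 := hanti 0 1 (by decide)
    have g1 : m 2 ≤ m 1 := hanti 1 2 (by decide)
    have g2 : m 3 ≤ m 2 := hanti 2 3 (by decide)
    have g3 : m 4 ≤ m 3 := hanti 3 4 (by decide)
    have g4 : m 5 ≤ m 4 := hanti 4 5 (by decide)
    have g5 : m 6 ≤ m 5 := hanti 5 6 (by decide)
    have p : 0 < m 6 := hpos 6
    have hs : m 0 + m 1 + m 2 + m 3 + m 4 + m 5 + m 6 = 8 := by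
      refine Eq.trans ?_ hsum
      simp [Fin.sum_univ_succ, add_assoc]
    omega
  · -- 8 blocks
    have h0 : 3 ≤ m 0 := ha0.trans_le (hanti 0 a0 (Fin.zero_le _))
    have g0 : m 1 ≤ m 0 := hanti 0 1 (by decide)
    have g1 : m 2 ≤ m 1 := hanti 1 2 (by decide)
    have g2 : m 3 ≤ m 2 := hanti 2 3 (by decide)
    have g3 : m 4 ≤ m 3 := hanti 3 4 (by decide)
    have g4 : m 5 ≤ m 4 := hanti 4 5 (by decide)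
    have g5 : m 6 ≤ m 5 := hanti 5 6 (by decide)
    have g6 : m 7 ≤ m 6 := hanti 6 7 (by decide)
    have p : 0 < m 7 := hpos 7
    have hs : m 0 + m 1 + m 2 + m 3 + m 4 + m 5 + m 6 + m 7 = 8 := by
      refine Eq.trans ?_ hsum
      simp [Fin.sum_univ_succ, add_assoc]
    omega

end Pool.Agent.Lib.D8
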