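import Pool.Agent.Lib.D7.Api
import Pool.Agent.Lib.D7.Q2
import Pool.Agent.Lib.D8.Fams
import Pool.Agent.Lib.Q5dc.Tan

/-!
# MP_5dcbc3_ag: all triples `T143 r` are limits of curvilinear triples
-/

namespace Pool.Agent.Lib.D8

open Matrix Pool.Agent.Lib.Q5dc Pool.Agent.Lib.D7

variable {k : Type*} [Field k]

namespace T143clAux

/-- a commuting nilpotent triple is curvilinear if some polynomial in its matrices is a regular
nilpotent matrix -/
theorem cl_of_reg {n : ℕ} (hn : 0 < n) {T : Fin 3 → Matrix (Fin n) (Fin n) k} (hT : CN T)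
    {M : Matrix (Fin n) (Fin n) k} (hM : M ∈ adj T) (h : M ^ (n - 1) ≠ 0) : Cl T := by
  obtain ⟨G, hG, hGc⟩ := TSQ.comm_regular hn M (hT.nilp hM) h
  have hex : ∀ ν, ∃ c : Fin n → k, T ν = G * TSQ.toep c * G⁻¹ := fun ν =>
    hGc (T ν) (hT.comm (mem_adj T ν) hM) (hT.2 ν)
  choose c hc using hex
  intro F hF
  exact hF _ ((TSQ.curv_nf hn T).2 ⟨G, hG, c, hc⟩)

/-! ### the base family -/

theorem hXY (s a2 a3 b2 b3 c1 c2 : k) :
    T143s s a2 a3 b2 b3 c1 c2 0 * T143s s a2 a3 b2 b3 c1 c2 1 =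
      T143s s a2 a3 b2 b3 c1 c2 1 * T143s s a2 a3 b2 b3 c1 c2 0 := by
  ext i j
  fin_cases i <;> fin_cases j <;>
    simp [T143s, Matrix.mul_apply, Fin.sum_univ_succ] <;> ring

theorem hXZ (s a2 a3 b2 b3 c1 c2 : k) :
    T143s s a2 a3 b2 b3 c1 c2 0 * T143s s a2 a3 b2 b3 c1 c2 2 =
      T143s s a2 a3 b2 b3 c1 c2 2 * T143s s a2 a3 b2 b3 c1 c2 0 := by
  ext i j
  fin_cases i <;> fin_cases j <;>
    simp [T143s, Matrix.mul_apply, Fin.sum_univ_succ] <;> ring

theorem hYZ (s a2 a3 b2 b3 c1 c2 : k) :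
    T143s s a2 a3 b2 b3 c1 c2 1 * T143s s a2 a3 b2 b3 c1 c2 2 =
      T143s s a2 a3 b2 b3 c1 c2 2 * T143s s a2 a3 b2 b3 c1 c2 1 := by
  ext i j
  fin_cases i <;> fin_cases j <;>
    simp [T143s, Matrix.mul_apply, Fin.sum_univ_succ] <;> ring

theorem nilp (s a2 a3 b2 b3 c1 c2 : k) (i : Fin 3) :
    IsNilpotent (T143s s a2 a3 b2 b3 c1 c2 i) := by
  refine isNilpotent_of_weight _ (fun j : Fin 8 => (j : ℕ)) ?_
  intro x y h
  fin_cases i <;> fin_cases x <;> fin_cases y <;>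
    first
      | rfl
      | (exfalso; revert h; decide)

theorem cn (s a2 a3 b2 b3 c1 c2 : k) : CN (T143s s a2 a3 b2 b3 c1 c2) := by
  constructor
  · intro i j
    fin_cases i <;> fin_cases j
    · rfl
    · exact hXY s a2 a3 b2 b3 c1 c2
    · exact hXZ s a2 a3 b2 b3 c1 c2
    · exact (hXY s a2 a3 b2 b3 c1 c2).symm
    · rfl
    · exact hYZ s a2 a3 b2 b3 c1 c2
    · exact (hXZ s a2 a3 b2 b3 c1 c2).symm
    · exact (hYZ s a2 a3 b2 b3 c1 c2).symm
    · rfl
  · exact nilp s a2 a3 b2 b3 c1 c2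

theorem pow_vec (s a2 a3 b2 b3 c1 c2 : k) :
    T143s s a2 a3 b2 b3 c1 c2 0 ^ 7 *ᵥ ![1, 0, 0, 0, 0, 0, 0, 0] =
      ![0, 0, 0, 0, 0, 0, 0, s ^ 5] := by
  set X := T143s s a2 a3 b2 b3 c1 c2 0 with hX
  have hstep : ∀ (m : ℕ) (u v : Fin 8 → k), X ^ m *ᵥ ![1, 0, 0, 0, 0, 0, 0, 0] = u →
      X *ᵥ u = v → X ^ (m + 1) *ᵥ ![1, 0, 0, 0, 0, 0, 0, 0] = v := by
    intro m u v h1 h2
    rw [pow_succ', ← Matrix.mulVec_mulVec, h1, h2]
  have h0 : X ^ 0 *ᵥ ![1, 0, 0, 0, 0, 0, 0, 0] = ![1, 0, 0, 0, 0, 0, 0, 0] := by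
    rw [pow_zero, Matrix.one_mulVec]
  have h1 := hstep 0 _ ![0, 1, 0, 0, 0, 0, 0, 0] h0 (by
    ext i
    fin_cases i <;> simp [hX, T143s, Matrix.mulVec, dotProduct, Fin.sum_univ_succ])
  have h2 := hstep 1 _ ![0, 0, s, 0, 0, 1, a2, a3] h1 (by
    ext i
    fin_cases i <;> simp [hX, T143s, Matrix.mulVec, dotProduct, Fin.sum_univ_succ])
  have h3 := hstep 2 _ ![0, 0, 0, s ^ 2, 0, 0, s * (b2 + 1), s * (b3 + a2)] h2 (by
    ext i
    fin_cases i <;> simp [hX, T143s, Matrix.mulVec, dotProduct, Fin.sum_univ_succ] <;> ring)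
  have h4 := hstep 3 _ ![0, 0, 0, 0, s ^ 3, 0, s ^ 2 * c1, s ^ 2 * c2] h3 (by
    ext i
    fin_cases i <;> simp [hX, T143s, Matrix.mulVec, dotProduct, Fin.sum_univ_succ] <;> ring)
  have h5 := hstep 4 _ ![0, 0, 0, 0, 0, s ^ 3, 0, s ^ 3 * c1] h4 (by
    ext i
    fin_cases i <;> simp [hX, T143s, Matrix.mulVec, dotProduct, Fin.sum_univ_succ] <;> ring)
  have h6 := hstep 5 _ ![0, 0, 0, 0, 0, 0, s ^ 4, 0] h5 (by
    ext i
    fin_cases i <;> simp [hX, T143s, Matrix.mulVec, dotProduct, Fin.sum_univ_succ] <;> ring)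
  exact hstep 6 _ _ h6 (by
    ext i
    fin_cases i <;> simp [hX, T143s, Matrix.mulVec, dotProduct, Fin.sum_univ_succ] <;> ring)

theorem cl_ne {s : k} (hs : s ≠ 0) (a2 a3 b2 b3 c1 c2 : k) : Cl (T143s s a2 a3 b2 b3 c1 c2) := by
  refine cl_of_reg (by norm_num) (cn s a2 a3 b2 b3 c1 c2) (mem_adj _ 0) ?_
  intro h
  have h1 := pow_vec s a2 a3 b2 b3 c1 c2
  have h2 : T143s s a2 a3 b2 b3 c1 c2 0 ^ 7 = 0 := h
  rw [h2, Matrix.zero_mulVec] at h1
  have h3 := congrFun h1 7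
  have h4 : (0 : k) = s ^ 5 := h3
  exact hs (pow_eq_zero_iff (by norm_num) |>.1 h4.symm)

theorem cl_base [Infinite k] (a2 a3 b2 b3 c1 c2 : k) : Cl (T143s 0 a2 a3 b2 b3 c1 c2) := by
  by_contra h0
  have h1 : PolyFam fun s => T143s s a2 a3 b2 b3 c1 c2 := by
    have hc : ∀ r : k, D7.IsPoly fun _ : k => r := D7.IsPoly.const
    intro i x y
    fin_cases i <;> fin_cases x <;> fin_cases y <;>
      first | exact hc _ | exact D7.IsPoly.id
  have h2 := finite_cl (fun s => T143s s a2 a3 b2 b3 c1 c2) h1 h0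
  have h3 : (({0}ᶜ : Set k)).Infinite := (Set.finite_singleton (0 : k)).infinite_compl
  exact h3 (h2.subset fun s hs => cl_ne hs a2 a3 b2 b3 c1 c2)

/-! ### block form -/

/-- index type with blocks of sizes `1, 3 + 1, 3` -/
abbrev N8 := Fin 1 ⊕ ((Fin 3 ⊕ Fin 1) ⊕ Fin 3)

/-- unit column -/
def dl (i : Fin 3) : Matrix (Fin 3) (Fin 1) k := Matrix.of fun a _ => if a = i then 1 else 0

/-- the triple attached to a net -/
def Tb (Q : Fin 3 → Matrix (Fin 3) (Fin 3) k) (i : Fin 3) : Matrix N8 N8 k :=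
  fromBlocks 0 0 (fromRows (fromRows (dl i) 0) 0) (fromBlocks 0 0 (fromCols (Q i) (dl i)) 0)

/-- numbering of the blocks -/
def e8 : N8 ≃ Fin 8 :=
  (Equiv.sumCongr (Equiv.refl _)
    ((Equiv.sumCongr finSumFinEquiv (Equiv.refl _)).trans finSumFinEquiv)).trans finSumFinEquiv

theorem reindex_Tb (r : Fin 6 × Fin 3 → k) (i : Fin 3) :
    Matrix.reindexAlgEquiv k k e8 (Tb (Q2Aux.Qr r) i) = T143 r i := by
  ext x y
  fin_cases i <;> fin_cases x <;> fin_cases y <;> rfl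

theorem reindex_symm (r : Fin 6 × Fin 3 → k) (i : Fin 3) :
    (Matrix.reindexAlgEquiv k k e8).symm (T143 r i) = Tb (Q2Aux.Qr r) i := by
  rw [← reindex_Tb, AlgEquiv.symm_apply_apply]

theorem cl_iff (r : Fin 6 × Fin 3 → k) : Cl (T143 r) ↔ Cl (Tb (Q2Aux.Qr r)) := by
  have hc : Fintype.card N8 = Fintype.card (Fin 8) := by simp
  constructor
  · intro h
    have h1 := Cl.mapEquiv (Matrix.reindexAlgEquiv k k e8).symm hc.symm h
    have h2 : (fun i => (Matrix.reindexAlgEquiv k k e8).symm (T143 r i)) = Tb (Q2Aux.Qr r) :=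
      funext fun i => reindex_symm r i
    rwa [h2] at h1
  · intro h
    have h1 := Cl.mapEquiv (Matrix.reindexAlgEquiv k k e8) hc h
    have h2 : (fun i => (Matrix.reindexAlgEquiv k k e8) (Tb (Q2Aux.Qr r) i)) = T143 r :=
      funext fun i => reindex_Tb r i
    rwa [h2] at h1

/-! ### change of basis -/

/-- block matrix of a change of basis -/
def Gb (h : Matrix (Fin 3) (Fin 3) k) (u : Matrix (Fin 3) (Fin 1) k) (l : k)
    (m : Matrix (Fin 3) (Fin 3) k) : Matrix N8 N8 k :=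
  fromBlocks 1 0 0 (fromBlocks (fromBlocks h u 0 (l • 1)) 0 0 m)

theorem Gb_mul {h h' m m' : Matrix (Fin 3) (Fin 3) k} {u u' : Matrix (Fin 3) (Fin 1) k} {l l' : k}
    (hh : h * h' = 1) (hm : m * m' = 1) (hl : l * l' = 1) (hu : h * u' + l' • u = 0) :
    Gb h u l m * Gb h' u' l' m' = 1 := by
  have h1 : u * (l' • (1 : Matrix (Fin 1) (Fin 1) k)) = l' • u := by
    rw [Matrix.mul_smul, Matrix.mul_one]
  have h2 : (l • (1 : Matrix (Fin 1) (Fin 1) k)) * (l' • 1) = 1 := by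
    rw [Matrix.smul_mul, Matrix.one_mul, smul_smul, hl, one_smul]
  simp only [Gb, fromBlocks_multiply, Matrix.mul_zero, Matrix.zero_mul, add_zero, zero_add,
    Matrix.mul_one, hh, hm, h1, h2, hu]
  simp only [fromBlocks_one]

/-- column with entries `c` -/
def cl1 (c : Fin 3 → k) : Matrix (Fin 3) (Fin 1) k := Matrix.of fun a _ => c a

theorem sum_Tb (c : Fin 3 → k) (Q : Fin 3 → Matrix (Fin 3) (Fin 3) k) :
    ∑ j, c j • Tb Q j = fromBlocks 0 0
      (fromRows (fromRows (cl1 c) 0) 0)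
      (fromBlocks 0 0 (fromCols (∑ j, c j • Q j) (cl1 c)) 0) := by
  ext x y
  simp only [Matrix.sum_apply, Matrix.smul_apply, smul_eq_mul]
  rcases x with x | (x | x) | x <;> rcases y with y | (y | y) | y <;>
    simp [Tb, dl, cl1, Matrix.sum_apply]

theorem mul_dl (h : Matrix (Fin 3) (Fin 3) k) (i : Fin 3) :
    h * (dl i : Matrix (Fin 3) (Fin 1) k) = cl1 fun a => h a i := by
  ext a b
  rw [Matrix.mul_apply]
  simp [dl, cl1]

/-- sum of the matrices of a net -/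
def Rc (c : Fin 3 → k) (P : Fin 3 → Matrix (Fin 3) (Fin 3) k) : Matrix (Fin 3) (Fin 3) k :=
  ∑ a, c a • P a

/-- the matrix on the third block -/
def Mm (h : Matrix (Fin 3) (Fin 3) k) (c : Fin 3 → k) (P : Fin 3 → Matrix (Fin 3) (Fin 3) k) :
    Matrix (Fin 3) (Fin 3) k := (1 + Rc c P) * h

/-- the transformed net -/
def tr (h : Matrix (Fin 3) (Fin 3) k) (c : Fin 3 → k) (P : Fin 3 → Matrix (Fin 3) (Fin 3) k)
    (i : Fin 3) : Matrix (Fin 3) (Fin 3) k := adjugate (Mm h c P) * (∑ j, h j i • P j) * h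

theorem aux2 (h : Matrix (Fin 3) (Fin 3) k) (c : Fin 3 → k)
    {P : Fin 3 → Matrix (Fin 3) (Fin 3) k} (hP : ∀ i l j, P i l j = P j l i) (l : k) (i : Fin 3) :
    (cl1 fun a => (l • Mm h c P) a i) =
      (∑ j, h j i • P j) * (cl1 fun a => l * c a) +
        (cl1 fun a => h a i) * (l • (1 : Matrix (Fin 1) (Fin 1) k)) := by
  ext a b
  have hb : b = 0 := Subsingleton.elim _ _
  subst hb
  rw [Matrix.mul_smul, Matrix.mul_one, Matrix.add_apply, Matrix.mul_apply, Fin.sum_univ_three,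
    Fin.sum_univ_three]
  simp only [cl1, Mm, Rc, Matrix.smul_apply, Matrix.add_apply, Matrix.add_mul, Matrix.one_mul,
    Matrix.of_apply, smul_eq_mul, Fin.sum_univ_three, Matrix.smul_mul]
  rw [Matrix.mul_apply, Matrix.mul_apply, Matrix.mul_apply, Fin.sum_univ_three, Fin.sum_univ_three,
    Fin.sum_univ_three]
  rw [hP 1 a 0, hP 2 a 0, hP 2 a 1]
  ring

theorem inter (h : Matrix (Fin 3) (Fin 3) k) (c : Fin 3 → k)
    {P : Fin 3 → Matrix (Fin 3) (Fin 3) k} (hP : ∀ i l j, P i l j = P j l i) {l : k}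
    (hl : l * (Mm h c P).det = 1) (i : Fin 3) :
    Gb h (cl1 fun a => l * c a) l (l • Mm h c P) * Tb (tr h c P) i =
      (∑ j, h j i • Tb P j) * Gb h (cl1 fun a => l * c a) l (l • Mm h c P) := by
  have h1 : (l • Mm h c P) * tr h c P i = (∑ j, h j i • P j) * h := by
    rw [tr, ← Matrix.mul_assoc, ← Matrix.mul_assoc, Matrix.smul_mul, Matrix.mul_adjugate,
      smul_smul, hl, one_smul, Matrix.one_mul]
  have h2 : (l • Mm h c P) * (dl i : Matrix (Fin 3) (Fin 1) k) = _ :=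
    (mul_dl (l • Mm h c P) i).trans (aux2 h c hP l i)
  rw [sum_Tb, Gb, Tb]
  simp only [fromBlocks_multiply, Matrix.mul_zero, Matrix.zero_mul, add_zero, zero_add,
    Matrix.mul_one, fromBlocks_mul_fromRows, fromCols_mul_fromBlocks,
    mul_fromCols, h1, h2, mul_dl h i]

theorem cl_tr {h : Matrix (Fin 3) (Fin 3) k} {c : Fin 3 → k}
    {P : Fin 3 → Matrix (Fin 3) (Fin 3) k} (hP : ∀ i l j, P i l j = P j l i)
    (hd : (Mm h c P).det ≠ 0) (hT : Cl (Tb P)) : Cl (Tb (tr h c P)) := by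
  have h1 : Cl (fun i => ∑ j, h j i • Tb P j) :=
    cl_of_adj (fun i => sum_mem fun j _ => SMulMemClass.smul_mem _ (mem_adj _ j)) hT
  have hhd : h.det ≠ 0 := by
    intro h0
    apply hd
    rw [Mm, Matrix.det_mul, h0, mul_zero]
  set l : k := (Mm h c P).det⁻¹ with hl
  have hl1 : l * (Mm h c P).det = 1 := inv_mul_cancel₀ hd
  have hl0 : l ≠ 0 := inv_ne_zero hd
  have hh : h * h⁻¹ = 1 := Matrix.mul_nonsing_inv _ (isUnit_iff_ne_zero.2 hhd)
  have hm : (l • Mm h c P) * (l⁻¹ • (Mm h c P)⁻¹) = 1 := by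
    rw [Matrix.smul_mul, Matrix.mul_smul, Matrix.mul_nonsing_inv _ (isUnit_iff_ne_zero.2 hd),
      smul_smul, mul_inv_cancel₀ hl0, one_smul]
  have hD : Gb h (cl1 fun a => l * c a) l (l • Mm h c P) *
      Gb h⁻¹ (-(l⁻¹ • (h⁻¹ * cl1 fun a => l * c a))) l⁻¹ (l⁻¹ • (Mm h c P)⁻¹) = 1 := by
    refine Gb_mul hh hm (mul_inv_cancel₀ hl0) ?_
    rw [Matrix.mul_neg, Matrix.mul_smul, ← Matrix.mul_assoc, hh, Matrix.one_mul, neg_add_cancel]
  have hD' := mul_eq_one_comm.1 hD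
  have h2 := Cl.conj _ _ hD' hD h1
  have h3 : (fun i => Gb h⁻¹ (-(l⁻¹ • (h⁻¹ * cl1 fun a => l * c a))) l⁻¹ (l⁻¹ • (Mm h c P)⁻¹) *
      (∑ j, h j i • Tb P j) * Gb h (cl1 fun a => l * c a) l (l • Mm h c P)) =
        Tb (tr h c P) := by
    funext i
    rw [Matrix.mul_assoc, ← inter h c hP hl1 i, ← Matrix.mul_assoc, hD', Matrix.one_mul]
  rwa [h3] at h2

theorem tr_sym (h : Matrix (Fin 3) (Fin 3) k) (c : Fin 3 → k)
    {P : Fin 3 → Matrix (Fin 3) (Fin 3) k} (hP : ∀ i l j, P i l j = P j l i) (i l j : Fin 3) :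
    tr h c P i l j = tr h c P j l i := by
  have key : ∀ m : Fin 3, ((∑ a, h a i • P a) * h) m j = ((∑ a, h a j • P a) * h) m i := by
    intro m
    rw [Matrix.mul_apply, Matrix.mul_apply, Fin.sum_univ_three, Fin.sum_univ_three]
    simp only [Matrix.add_apply, Matrix.smul_apply, smul_eq_mul, Fin.sum_univ_three]
    rw [hP 1 m 0, hP 2 m 0, hP 2 m 1]
    ring
  rw [tr, tr, Matrix.mul_assoc, Matrix.mul_assoc, Matrix.mul_apply, Matrix.mul_apply]
  exact Finset.sum_congr rfl fun m _ => by rw [key m]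

/-! ### jets of polynomial functions -/

/-- `f s = a + b s + O(s ^ 2)` -/
def J (f : k → k) (a b : k) : Prop :=
  ∃ w : Polynomial k, ∀ s, f s = a + s * b + s ^ 2 * w.eval s

theorem J.line (a b : k) : J (fun s => a + s * b) a b := ⟨0, fun s => by simp⟩

theorem J.const (a : k) : J (fun _ => a) a 0 := ⟨0, fun s => by simp⟩

theorem J.add {f g : k → k} {a b a' b' : k} (hf : J f a b) (hg : J g a' b') :
    J (fun s => f s + g s) (a + a') (b + b') := by
  obtain ⟨w, hw⟩ := hf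
  obtain ⟨w', hw'⟩ := hg
  exact ⟨w + w', fun s => by dsimp only; rw [hw, hw', Polynomial.eval_add]; ring⟩

theorem J.sub {f g : k → k} {a b a' b' : k} (hf : J f a b) (hg : J g a' b') :
    J (fun s => f s - g s) (a - a') (b - b') := by
  obtain ⟨w, hw⟩ := hf
  obtain ⟨w', hw'⟩ := hg
  exact ⟨w - w', fun s => by dsimp only; rw [hw, hw', Polynomial.eval_sub]; ring⟩

theorem J.mul {f g : k → k} {a b a' b' : k} (hf : J f a b) (hg : J g a' b') :
    J (fun s => f s * g s) (a * a') (a * b' + b * a') := by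
  obtain ⟨w, hw⟩ := hf
  obtain ⟨w', hw'⟩ := hg
  refine ⟨Polynomial.C (b * b') + (Polynomial.C a + Polynomial.X * Polynomial.C b) * w' +
    (Polynomial.C a' + Polynomial.X * Polynomial.C b') * w + Polynomial.X ^ 2 * w * w',
    fun s => ?_⟩
  dsimp only
  rw [hw, hw']
  simp only [Polynomial.eval_add, Polynomial.eval_mul, Polynomial.eval_C, Polynomial.eval_X,
    Polynomial.eval_pow]
  ring

theorem J.congr {f : k → k} {a b a' b' : k} (hf : J f a b) (ha : a = a') (hb : b = b') :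
    J f a' b' := by
  subst ha hb
  exact hf

theorem J.congr' {f g : k → k} {a b a' b' : k} (hf : J f a b) (h : ∀ s, g s = f s) (ha : a = a')
    (hb : b = b') : J g a' b' := by
  subst ha hb
  have h1 : g = f := funext h
  rwa [h1]

theorem J.isPoly {f : k → k} {a b : k} (hf : J f a b) : D7.IsPoly f := by
  obtain ⟨w, hw⟩ := hf
  refine ⟨Polynomial.C a + Polynomial.X * Polynomial.C b + Polynomial.X ^ 2 * w, fun s => ?_⟩
  rw [hw]
  simp only [Polynomial.eval_add, Polynomial.eval_mul, Polynomial.eval_C, Polynomial.eval_X,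
    Polynomial.eval_pow]

/-- jets of matrices -/
def JM (F : k → Matrix (Fin 3) (Fin 3) k) (A B : Matrix (Fin 3) (Fin 3) k) : Prop :=
  ∀ x y, J (fun s => F s x y) (A x y) (B x y)

theorem JM.congr {F : k → Matrix (Fin 3) (Fin 3) k} {A B A' B' : Matrix (Fin 3) (Fin 3) k}
    (hF : JM F A B) (hA : A = A') (hB : B = B') : JM F A' B' := by
  subst hA hB
  exact hF

theorem JM.line (A B : Matrix (Fin 3) (Fin 3) k) : JM (fun s => A + s • B) A B := by
  intro x y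
  exact J.line (A x y) (B x y)

theorem JM.const (A : Matrix (Fin 3) (Fin 3) k) : JM (fun _ => A) A 0 := by
  intro x y
  exact J.const (A x y)

theorem JM.add {F G : k → Matrix (Fin 3) (Fin 3) k} {A B A' B' : Matrix (Fin 3) (Fin 3) k}
    (hF : JM F A B) (hG : JM G A' B') : JM (fun s => F s + G s) (A + A') (B + B') := by
  intro x y
  exact (hF x y).add (hG x y)

theorem JM.smul {f : k → k} {a b : k} {F : k → Matrix (Fin 3) (Fin 3) k}
    {A B : Matrix (Fin 3) (Fin 3) k} (hf : J f a b) (hF : JM F A B) :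
    JM (fun s => f s • F s) (a • A) (a • B + b • A) := by
  intro x y
  exact hf.mul (hF x y)

theorem JM.mul {F G : k → Matrix (Fin 3) (Fin 3) k} {A B A' B' : Matrix (Fin 3) (Fin 3) k}
    (hF : JM F A B) (hG : JM G A' B') : JM (fun s => F s * G s) (A * A') (A * B' + B * A') := by
  intro x y
  have h1 := (((hF x 0).mul (hG 0 y)).add ((hF x 1).mul (hG 1 y))).add ((hF x 2).mul (hG 2 y))
  have h2 : (fun s => (F s * G s) x y) =
      fun s => F s x 0 * G s 0 y + F s x 1 * G s 1 y + F s x 2 * G s 2 y := by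
    funext s
    rw [Matrix.mul_apply, Fin.sum_univ_three]
  rw [h2]
  refine h1.congr ?_ ?_
  · rw [Matrix.mul_apply, Fin.sum_univ_three]
  · rw [Matrix.add_apply, Matrix.mul_apply, Matrix.mul_apply, Fin.sum_univ_three,
      Fin.sum_univ_three]
    ring

theorem JM.sum3 {F : Fin 3 → k → Matrix (Fin 3) (Fin 3) k} {A B : Fin 3 → Matrix (Fin 3) (Fin 3) k}
    (hF : ∀ j, JM (F j) (A j) (B j)) : JM (fun s => ∑ j, F j s) (∑ j, A j) (∑ j, B j) := by
  simp only [Fin.sum_univ_three]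
  exact ((hF 0).add (hF 1)).add (hF 2)

theorem JM.adj {F : k → Matrix (Fin 3) (Fin 3) k} {N : Matrix (Fin 3) (Fin 3) k}
    (hF : JM F 1 N) : JM (fun s => adjugate (F s)) 1 (N.trace • 1 - N) := by
  have h1 : ∀ x y z w : Fin 3, J (fun s => F s x y * F s z w)
      ((1 : Matrix (Fin 3) (Fin 3) k) x y * (1 : Matrix (Fin 3) (Fin 3) k) z w)
      ((1 : Matrix (Fin 3) (Fin 3) k) x y * N z w + N x y * (1 : Matrix (Fin 3) (Fin 3) k) z w) :=
    fun x y z w => (hF x y).mul (hF z w)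
  intro x y
  fin_cases x <;> fin_cases y
  · exact ((h1 1 1 2 2).sub (h1 1 2 2 1)).congr'
      (fun s => by simp [Matrix.adjugate_fin_three])
      (by simp) (by simp [Matrix.trace_fin_three]; ring)
  · exact (((J.const 0).sub (h1 0 1 2 2)).add (h1 0 2 2 1)).congr'
      (fun s => by simp [Matrix.adjugate_fin_three])
      (by simp) (by simp)
  · exact ((h1 0 1 1 2).sub (h1 0 2 1 1)).congr'
      (fun s => by simp [Matrix.adjugate_fin_three])
      (by simp) (by simp)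
  · exact (((J.const 0).sub (h1 1 0 2 2)).add (h1 1 2 2 0)).congr'
      (fun s => by simp [Matrix.adjugate_fin_three])
      (by simp) (by simp)
  · exact ((h1 0 0 2 2).sub (h1 0 2 2 0)).congr'
      (fun s => by simp [Matrix.adjugate_fin_three])
      (by simp) (by simp [Matrix.trace_fin_three]; ring)
  · exact (((J.const 0).sub (h1 0 0 1 2)).add (h1 0 2 1 0)).congr'
      (fun s => by simp [Matrix.adjugate_fin_three])
      (by simp) (by simp)
  · exact ((h1 1 0 2 1).sub (h1 1 1 2 0)).congr'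
      (fun s => by simp [Matrix.adjugate_fin_three])
      (by simp) (by simp)
  · exact (((J.const 0).sub (h1 0 0 2 1)).add (h1 0 1 2 0)).congr'
      (fun s => by simp [Matrix.adjugate_fin_three])
      (by simp) (by simp)
  · exact ((h1 0 0 1 1).sub (h1 0 1 1 0)).congr'
      (fun s => by simp [Matrix.adjugate_fin_three])
      (by simp) (by simp [Matrix.trace_fin_three]; ring)

section

variable (A : Matrix (Fin 3) (Fin 3) k) (c0 : Fin 3 → k) (Q E : Fin 3 → Matrix (Fin 3) (Fin 3) k)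
  (i : Fin 3)

/-- the sum `R + A` -/
def Nm : Matrix (Fin 3) (Fin 3) k := A + Rc c0 Q

/-- derivative of the transformed net -/
def Dm : Matrix (Fin 3) (Fin 3) k :=
  ((Nm A c0 Q).trace • 1 - Nm A c0 Q) * Q i + (E i + ∑ j, A j i • Q j) + Q i * A

theorem jet_M : JM (fun s => Mm (1 + s • A) (fun a => s * c0 a) (fun j => Q j + s • E j)) 1
    (Nm A c0 Q) := by
  have h1 : JM (fun s => Rc (fun a => s * c0 a) (fun j => Q j + s • E j)) 0 (Rc c0 Q) := by
    have h2 : ∀ a : Fin 3, JM (fun s => (s * c0 a) • (Q a + s • E a)) 0 (c0 a • Q a) := by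
      intro a
      have h3 : J (fun s => s * c0 a) 0 (c0 a) := (J.line 0 (c0 a)).congr' (fun s => by ring) rfl rfl
      exact (JM.smul h3 (JM.line (Q a) (E a))).congr (zero_smul _ _) (by rw [zero_smul, zero_add])
    exact (JM.sum3 h2).congr (by simp) rfl
  have h4 := ((JM.const (1 : Matrix (Fin 3) (Fin 3) k)).add h1).mul (JM.line 1 A)
  exact h4.congr (by simp) (by simp [Nm])

theorem jet_h : JM (fun s => ∑ j, (1 + s • A) j i • (Q j + s • E j)) (Q i)
    (E i + ∑ j, A j i • Q j) := by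
  have h1 : ∀ j : Fin 3, JM (fun s => (1 + s • A) j i • (Q j + s • E j))
      ((1 : Matrix (Fin 3) (Fin 3) k) j i • Q j)
      ((1 : Matrix (Fin 3) (Fin 3) k) j i • E j + A j i • Q j) := by
    intro j
    have h2 : J (fun s => (1 + s • A) j i) ((1 : Matrix (Fin 3) (Fin 3) k) j i) (A j i) :=
      J.line _ _
    exact JM.smul h2 (JM.line (Q j) (E j))
  refine (JM.sum3 h1).congr ?_ ?_
  · simp [Matrix.one_apply]
  · rw [Finset.sum_add_distrib]
    congr 1
    simp [Matrix.one_apply]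

theorem jet : JM (fun s => tr (1 + s • A) (fun a => s * c0 a) (fun j => Q j + s • E j) i) (Q i)
    (Dm A c0 Q E i) := by
  have h1 := ((jet_M A c0 Q E).adj.mul (jet_h A Q E i)).mul (JM.line 1 A)
  refine h1.congr ?_ ?_
  · simp
  · rw [Dm]
    simp only [Matrix.one_mul, Matrix.mul_one]
    abel

theorem Dm_apply (l j : Fin 3) : Dm A c0 Q E i l j =
    (Nm A c0 Q 0 0 + Nm A c0 Q 1 1 + Nm A c0 Q 2 2) * Q i l j -
      (Nm A c0 Q l 0 * Q i 0 j + Nm A c0 Q l 1 * Q i 1 j + Nm A c0 Q l 2 * Q i 2 j) +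
      (E i l j + (A 0 i * Q 0 l j + A 1 i * Q 1 l j + A 2 i * Q 2 l j)) +
      (Q i l 0 * A 0 j + Q i l 1 * A 1 j + Q i l 2 * A 2 j) := by
  rw [Dm, Matrix.sub_mul, Matrix.smul_mul, Matrix.one_mul]
  simp only [Matrix.add_apply, Matrix.sub_apply, Matrix.smul_apply, smul_eq_mul,
    Fin.sum_univ_three, Matrix.trace_fin_three]
  rw [Matrix.mul_apply, Matrix.mul_apply, Fin.sum_univ_three, Fin.sum_univ_three]

theorem Nm_apply (l j : Fin 3) : Nm A c0 Q l j =
    A l j + (c0 0 * Q 0 l j + c0 1 * Q 1 l j + c0 2 * Q 2 l j) := by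
  simp only [Nm, Rc, Matrix.add_apply, Matrix.smul_apply, smul_eq_mul, Fin.sum_univ_three]

end

/-! ### the curve -/

/-- coefficients of the base net -/
def rB (a2 a3 b2 b3 c1 c2 : k) (x : Fin 6 × Fin 3) : k :=
  ![![1, a2, a3], ![0, b2, b3], ![0, c1, c2 - 1 - b2], ![0, c1, c2 - 2], ![1, 0, c1], ![0, 1, 0]]
    x.1 x.2

theorem T143s_eq (a2 a3 b2 b3 c1 c2 : k) :
    T143s 0 a2 a3 b2 b3 c1 c2 = T143 (rB a2 a3 b2 b3 c1 c2) := by
  funext i
  ext x y
  fin_cases i <;> fin_cases x <;> fin_cases y <;> rfl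

/-- the point through which the curves pass -/
def r0 (x : Fin 6 × Fin 3) : k :=
  ![![1, 0, 0], ![0, 0, 0], ![0, 0, -1], ![0, 0, -2], ![1, 0, 0], ![0, 1, 0]] x.1 x.2

/-- the derivative of `rB` -/
def rE (a2 a3 b2 b3 c1 c2 : k) (x : Fin 6 × Fin 3) : k :=
  ![![0, a2, a3], ![0, b2, b3], ![0, c1, c2 - b2], ![0, c1, c2], ![0, 0, c1], ![0, 0, 0]] x.1 x.2

theorem rB_line (a2 a3 b2 b3 c1 c2 s : k) (x : Fin 6 × Fin 3) :
    rB (s * a2) (s * a3) (s * b2) (s * b3) (s * c1) (s * c2) x =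
      r0 x + s * rE a2 a3 b2 b3 c1 c2 x := by
  obtain ⟨a, l⟩ := x
  fin_cases a <;> fin_cases l <;> simp [rB, r0, rE] <;> ring

section

variable (v : Fin 6 × Fin 3 → k)

/-- direction of the linear change -/
def Am : Matrix (Fin 3) (Fin 3) k :=
  !![7 / 16 * v (0, 0) + 1 / 16 * v (1, 1) + 1 / 16 * v (2, 2) - 1 / 16 * v (3, 2) - 3 / 8 * v (4, 0) + 1 / 8 * v (5, 1),
     3 * v (1, 0) - 2 * v (2, 1) + v (3, 1) + v (4, 2) + v (5, 0),
     v (2, 0) - 1 / 2 * v (3, 0) + v (4, 1);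
     -4 / 3 * v (2, 0) + v (3, 0) - 7 / 3 * v (4, 1) - 1 / 3 * v (5, 2),
     1 / 48 * v (0, 0) + 7 / 48 * v (1, 1) + 7 / 48 * v (2, 2) - 7 / 48 * v (3, 2) + 1 / 8 * v (4, 0) - 1 / 24 * v (5, 1),
     1 / 3 * v (1, 0) - 1 / 3 * v (2, 1) + 1 / 3 * v (3, 1) + 1 / 3 * v (5, 0);
     -2 * v (1, 0) + 2 * v (2, 1) - v (3, 1) - v (4, 2) - v (5, 0),
     -4 / 3 * v (2, 0) + v (3, 0) - 4 / 3 * v (4, 1) - 1 / 3 * v (5, 2),
     -7 / 48 * v (0, 0) - 1 / 48 * v (1, 1) - 1 / 48 * v (2, 2) + 1 / 48 * v (3, 2) + 1 / 8 * v (4, 0) + 7 / 24 * v (5, 1)]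

/-- direction of the change of `e4` -/
def cv : Fin 3 → k :=
  ![-1 / 4 * v (0, 0) + 1 / 4 * v (1, 1) + 1 / 4 * v (2, 2) - 1 / 4 * v (3, 2) - 1 / 2 * v (4, 0) + 1 / 2 * v (5, 1),
     1 / 3 * v (2, 0) + 1 / 3 * v (4, 1) + 1 / 3 * v (5, 2),
     -7 / 3 * v (1, 0) + 4 / 3 * v (2, 1) - 1 / 3 * v (3, 1) - v (4, 2) - 4 / 3 * v (5, 0)]

/-- velocity of a parameter -/
def da2 : k := v (0, 1) - 4 / 3 * v (2, 0) + v (3, 0) - 7 / 3 * v (4, 1) - 1 / 3 * v (5, 2)

/-- velocity of a parameter -/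
def da3 : k := v (0, 2) - 11 / 3 * v (1, 0) + 14 / 3 * v (2, 1) - 8 / 3 * v (3, 1) - 2 * v (4, 2) - 5 / 3 * v (5, 0)

/-- velocity of a parameter -/
def db2 : k := v (1, 1)

/-- velocity of a parameter -/
def db3 : k := v (1, 2) - 4 * v (2, 0) + 3 * v (3, 0) - 6 * v (4, 1) - v (5, 2)

/-- velocity of a parameter -/
def dc1 : k := 4 * v (1, 0) - 2 * v (2, 1) + v (3, 1) + 2 * v (4, 2) + 2 * v (5, 0)

/-- velocity of a parameter -/
def dc2 : k := 1 / 2 * v (0, 0) + 3 / 2 * v (1, 1) + 3 / 2 * v (2, 2) - 1 / 2 * v (3, 2) - v (4, 0) + v (5, 1)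


/-- direction of the parameters -/
def Ev : Fin 6 × Fin 3 → k := rE (da2 v) (da3 v) (db2 v) (db3 v) (dc1 v) (dc2 v)

theorem Dm_eq [CharZero k] (a : Fin 6) (l : Fin 3) :
    Dm (Am v) (cv v) (Q2Aux.Qr r0) (Q2Aux.Qr (Ev v)) (Q2Aux.ri a) l (Q2Aux.ci a) = v (a, l) := by
  rw [Dm_apply]
  simp only [Nm_apply]
  fin_cases a <;> fin_cases l <;>
    simp [Am, cv, Ev, rE, r0, Q2Aux.Qr, Q2Aux.ri, Q2Aux.ci, Q2Aux.ix, da2, da3, db2, db3, dc1,
      dc2] <;> ring

end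

theorem Qr_line (r e : Fin 6 × Fin 3 → k) (s : k) (j : Fin 3) :
    Q2Aux.Qr (fun x => r x + s * e x) j = Q2Aux.Qr r j + s • Q2Aux.Qr e j := by
  ext x y
  simp [Q2Aux.Qr]

/-- the point with parameter `s` of a line of nets -/
def Ql (r e : Fin 6 × Fin 3 → k) (s : k) (j : Fin 3) : Matrix (Fin 3) (Fin 3) k :=
  Q2Aux.Qr r j + s • Q2Aux.Qr e j

theorem line_sym (r e : Fin 6 × Fin 3 → k) (s : k) (i l j : Fin 3) :
    Ql r e s i l j = Ql r e s j l i := by
  have h5 : Ql r e s = Q2Aux.Qr (fun x => r x + s * e x) := funext fun j => (Qr_line r e s j).symm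
  rw [h5]
  exact Q2Aux.Qr_sym _ i l j

theorem cl_line [Infinite k] (v : Fin 6 × Fin 3 → k) (s : k) :
    Cl (Tb (fun j => Q2Aux.Qr r0 j + s • Q2Aux.Qr (Ev v) j)) := by
  have h1 : (fun j => Q2Aux.Qr r0 j + s • Q2Aux.Qr (Ev v) j) =
      Q2Aux.Qr (rB (s * da2 v) (s * da3 v) (s * db2 v) (s * db3 v) (s * dc1 v) (s * dc2 v)) := by
    funext j
    rw [← Qr_line]
    congr 1
    funext x
    exact (rB_line _ _ _ _ _ _ s x).symm
  rw [h1, ← cl_iff, ← T143s_eq]
  exact cl_base _ _ _ _ _ _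

theorem finite_det (A : Matrix (Fin 3) (Fin 3) k) (c0 : Fin 3 → k)
    (Q E : Fin 3 → Matrix (Fin 3) (Fin 3) k) :
    {s : k | (Mm (1 + s • A) (fun a => s * c0 a) (fun j => Q j + s • E j)).det = 0}.Finite := by
  have h1 : D7.IsPoly fun s : k =>
      (Mm (1 + s • A) (fun a => s * c0 a) (fun j => Q j + s • E j)).det := by
    have h2 := PolyAux.det_poly
      (fun s : k => Mm (1 + s • A) (fun a => s * c0 a) (fun j => Q j + s • E j))
      (fun x y => (jet_M A c0 Q E x y).isPoly) id id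
    simpa using h2
  refine h1.finite (s₁ := 0) ?_
  simp [Mm, Rc]

theorem jet_line [CharZero k] (v : Fin 6 × Fin 3 → k) (x : Fin 6 × Fin 3) :
    J (fun s => tr (1 + s • Am v) (fun a => s * cv v a) (Ql r0 (Ev v) s)
      (Q2Aux.ri x.1) x.2 (Q2Aux.ci x.1)) (r0 x) (v x) := by
  have h1 := jet (Am v) (cv v) (Q2Aux.Qr r0) (Q2Aux.Qr (Ev v)) (Q2Aux.ri x.1) x.2 (Q2Aux.ci x.1)
  rw [Q2Aux.Qr_at r0 x.1 x.2, Dm_eq v x.1 x.2] at h1
  exact h1

theorem cl_pt [Infinite k] (v : Fin 6 × Fin 3 → k) {s : k}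
    (hs : (Mm (1 + s • Am v) (fun a => s * cv v a) (Ql r0 (Ev v) s)).det ≠ 0) :
    Cl (T143 fun x => tr (1 + s • Am v) (fun a => s * cv v a) (Ql r0 (Ev v) s)
      (Q2Aux.ri x.1) x.2 (Q2Aux.ci x.1)) := by
  have h1 := cl_line v s
  have h2 : Cl (Tb (tr (1 + s • Am v) (fun a => s * cv v a) (Ql r0 (Ev v) s))) :=
    cl_tr (line_sym r0 (Ev v) s) hs h1
  have h3 := Q2Aux.eq_Qr (tr_sym (1 + s • Am v) (fun a => s * cv v a) (line_sym r0 (Ev v) s))
  rw [cl_iff, h3]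
  exact h2

theorem curve [CharZero k] (v : Fin 6 × Fin 3 → k) : ∃ u : Fin 6 × Fin 3 → Polynomial k,
    (∀ x, (u x).eval 0 = v x) ∧
      {s : k | (fun x => r0 x + s * (u x).eval s) ∈
        {r : Fin 6 × Fin 3 → k | Cl (T143 r)}}.Infinite := by
  have hinf : Infinite k := inferInstance
  choose w hw using jet_line v
  refine ⟨fun x => Polynomial.C (v x) + Polynomial.X * w x, ?_, ?_⟩
  · intro x
    simp
  · refine (finite_det (Am v) (cv v) (Q2Aux.Qr r0) (Q2Aux.Qr (Ev v))).infinite_compl.mono ?_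
    intro s hs
    have h2 := cl_pt v (s := s) hs
    have h3 : (fun x : Fin 6 × Fin 3 => r0 x + s * (Polynomial.C (v x) + Polynomial.X * w x).eval s)
        = fun x => tr (1 + s • Am v) (fun a => s * cv v a) (Ql r0 (Ev v) s)
          (Q2Aux.ri x.1) x.2 (Q2Aux.ci x.1) := by
      funext x
      refine Eq.trans ?_ (hw x s).symm
      simp only [Polynomial.eval_add, Polynomial.eval_mul, Polynomial.eval_C, Polynomial.eval_X]
      ring
    have h4 : Cl (T143 fun x => r0 x + s * (Polynomial.C (v x) + Polynomial.X * w x).eval s) := by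
      rw [h3]
      exact h2
    exact h4

open Q2Aux in
theorem isP_T143 (z : Fin 3 × Fin 8 × Fin 8) :
    IsP fun r : Fin 6 × Fin 3 → k => T143 r z.1 z.2.1 z.2.2 := by
  obtain ⟨i, x, y⟩ := z
  fin_cases i <;> fin_cases x <;> fin_cases y <;>
    first
      | exact IsP.const 0
      | exact IsP.const 1
      | exact IsP.var (0, 0)
      | exact IsP.var (0, 1)
      | exact IsP.var (0, 2)
      | exact IsP.var (1, 0)
      | exact IsP.var (1, 1)
      | exact IsP.var (1, 2)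
      | exact IsP.var (2, 0)
      | exact IsP.var (2, 1)
      | exact IsP.var (2, 2)
      | exact IsP.var (3, 0)
      | exact IsP.var (3, 1)
      | exact IsP.var (3, 2)
      | exact IsP.var (4, 0)
      | exact IsP.var (4, 1)
      | exact IsP.var (4, 2)
      | exact IsP.var (5, 0)
      | exact IsP.var (5, 1)
      | exact IsP.var (5, 2)

end T143clAux

open T143clAux MvPolynomial in
/-- all triples `T143 r` are limits of curvilinear triples -/
theorem cl_T143 [IsAlgClosed k] [CharZero k] (r : Fin 6 × Fin 3 → k) : Cl (T143 r) := by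
  have hinf : Infinite k := inferInstance
  intro F hF
  choose p hp using isP_T143 (k := k)
  have hev : ∀ r : Fin 6 × Fin 3 → k, eval r (aeval p F) = eval (co (T143 r)) F := by
    intro r
    have h1 : ((aeval r : MvPolynomial (Fin 6 × Fin 3) k →ₐ[k] k).comp (aeval p)) =
        (aeval (co (T143 r)) : MvPolynomial (Fin 3 × Fin 8 × Fin 8) k →ₐ[k] k) := by
      apply MvPolynomial.algHom_ext
      intro z
      simp only [AlgHom.comp_apply, aeval_X]
      exact (hp z r).symm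
    exact congrArg (fun f => f F) h1
  have h0 : aeval p F = 0 := by
    refine eq_zero_of_curves {r : Fin 6 × Fin 3 → k | Cl (T143 r)} r0 curve _ ?_
    intro r hr
    rw [hev]
    exact hr F hF
  rw [← hev, h0, map_zero]

end Pool.Agent.Lib.D8
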