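import Pool.Agent.Lib.D7.Api
import Pool.Agent.Lib.D8.Fams
import Pool.Agent.Lib.D8.T143cl

/-!
# MP_5dcbc3_ag: all triples `T143g r g` are limits of curvilinear triples

`T143g r g` is conjugate to `T143 (G⁻¹ r)` by `diag (1, G)` if the matrix `G l i = g (i, l)` is
invertible; in general `G + s` is invertible for all but finitely many `s`.
-/

namespace Pool.Agent.Lib.D8

open Matrix Pool.Agent.Lib.Q5dc Pool.Agent.Lib.D7

variable {k : Type*} [Field k]

namespace T143gclAux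

/-- numbering of the blocks -/
def e8 : Fin 5 ⊕ Fin 3 ≃ Fin 8 := finSumFinEquiv

/-- pairs of indices -/
def ix (i j : Fin 3) : Fin 6 := ![![0, 1, 2], ![1, 3, 4], ![2, 4, 5]] i j

/-- the upper left block -/
def Ab (i : Fin 3) : Matrix (Fin 5) (Fin 5) k :=
  Matrix.of fun a b => ![![![0, 0, 0, 0, 0], ![1, 0, 0, 0, 0], ![0, 0, 0, 0, 0], ![0, 0, 0, 0, 0],
    ![0, 0, 0, 0, 0]], ![![0, 0, 0, 0, 0], ![0, 0, 0, 0, 0], ![1, 0, 0, 0, 0], ![0, 0, 0, 0, 0],
    ![0, 0, 0, 0, 0]], ![![0, 0, 0, 0, 0], ![0, 0, 0, 0, 0], ![0, 0, 0, 0, 0], ![1, 0, 0, 0, 0],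
    ![0, 0, 0, 0, 0]]] i a b

/-- the lower left block -/
def Cb (r : Fin 6 × Fin 3 → k) (g : Fin 3 × Fin 3 → k) (i : Fin 3) : Matrix (Fin 3) (Fin 5) k :=
  Matrix.of fun l b => ![0, r (ix i 0, l), r (ix i 1, l), r (ix i 2, l), g (i, l)] b

/-- Kronecker delta -/
def dl (x : Fin 3 × Fin 3) : k := ![![1, 0, 0], ![0, 1, 0], ![0, 0, 1]] x.1 x.2

/-- the triple in block form -/
def Tb (r : Fin 6 × Fin 3 → k) (g : Fin 3 × Fin 3 → k) (i : Fin 3) :
    Matrix (Fin 5 ⊕ Fin 3) (Fin 5 ⊕ Fin 3) k := fromBlocks (Ab i) 0 (Cb r g i) 0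

theorem reindex_Tb (r : Fin 6 × Fin 3 → k) (g : Fin 3 × Fin 3 → k) (i : Fin 3) :
    Matrix.reindexAlgEquiv k k e8 (Tb r g i) = T143g r g i := by
  ext x y
  fin_cases i <;> fin_cases x <;> fin_cases y <;> rfl

theorem T143_eq (r : Fin 6 × Fin 3 → k) : T143 r = T143g r dl := by
  funext i
  ext x y
  fin_cases i <;> fin_cases x <;> fin_cases y <;> rfl

theorem cl_iff (r : Fin 6 × Fin 3 → k) (g : Fin 3 × Fin 3 → k) :
    Cl (T143g r g) ↔ Cl (Tb r g) := by
  have hc : Fintype.card (Fin 5 ⊕ Fin 3) = Fintype.card (Fin 8) := by simp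
  constructor
  · intro h
    have h1 := Cl.mapEquiv (Matrix.reindexAlgEquiv k k e8).symm hc.symm h
    have h2 : (fun i => (Matrix.reindexAlgEquiv k k e8).symm (T143g r g i)) = Tb r g :=
      funext fun i => by rw [← reindex_Tb, AlgEquiv.symm_apply_apply]
    rwa [h2] at h1
  · intro h
    have h1 := Cl.mapEquiv (Matrix.reindexAlgEquiv k k e8) hc h
    have h2 : (fun i => (Matrix.reindexAlgEquiv k k e8) (Tb r g i)) = T143g r g :=
      funext fun i => reindex_Tb r g i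
    rwa [h2] at h1

/-- the transformed coefficients -/
def rr (H : Matrix (Fin 3) (Fin 3) k) (r : Fin 6 × Fin 3 → k) (x : Fin 6 × Fin 3) : k :=
  ∑ m, H x.2 m * r (x.1, m)

/-- the matrix with columns `g (i, .)` -/
def Gm (g : Fin 3 × Fin 3 → k) : Matrix (Fin 3) (Fin 3) k := Matrix.of fun l i => g (i, l)

theorem mul_rr {G H : Matrix (Fin 3) (Fin 3) k} (h : G * H = 1) (r : Fin 6 × Fin 3 → k)
    (q : Fin 6) (l : Fin 3) : ∑ m, G l m * rr H r (q, m) = r (q, l) := by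
  have h1 : (G * H) *ᵥ (fun m => r (q, m)) = fun m => r (q, m) := by
    rw [h, Matrix.one_mulVec]
  rw [← Matrix.mulVec_mulVec] at h1
  exact congrFun h1 l

theorem mul_Cb {g : Fin 3 × Fin 3 → k} {H : Matrix (Fin 3) (Fin 3) k} (h : Gm g * H = 1)
    (r : Fin 6 × Fin 3 → k) (i : Fin 3) : Gm g * Cb (rr H r) dl i = Cb r g i := by
  ext l b
  rw [Matrix.mul_apply]
  fin_cases b
  · simp [Cb]
  · exact mul_rr h r (ix i 0) l
  · exact mul_rr h r (ix i 1) l
  · exact mul_rr h r (ix i 2) l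
  · show ∑ m, g (m, l) * dl (i, m) = g (i, l)
    fin_cases i <;> simp [Fin.sum_univ_three, dl]

theorem cl_unit {g : Fin 3 × Fin 3 → k} {H : Matrix (Fin 3) (Fin 3) k} (h : Gm g * H = 1)
    (r : Fin 6 × Fin 3 → k) (hr : Cl (T143 (rr H r))) : Cl (T143g r g) := by
  rw [T143_eq, cl_iff] at hr
  rw [cl_iff]
  have hD : (fromBlocks 1 0 0 (Gm g) : Matrix (Fin 5 ⊕ Fin 3) (Fin 5 ⊕ Fin 3) k) *
      fromBlocks 1 0 0 H = 1 := by
    simp [fromBlocks_multiply, h]
  have hD' := mul_eq_one_comm.1 hD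
  have h2 := Cl.conj _ _ hD hD' hr
  have h3 : (fun i => (fromBlocks 1 0 0 (Gm g) : Matrix (Fin 5 ⊕ Fin 3) (Fin 5 ⊕ Fin 3) k) *
      Tb (rr H r) dl i * fromBlocks 1 0 0 H) = Tb r g := by
    funext i
    simp [Tb, fromBlocks_multiply, mul_Cb h]
  rwa [h3] at h2

/-- the curve `g + s` -/
theorem poly (r : Fin 6 × Fin 3 → k) (g : Fin 3 × Fin 3 → k) :
    PolyFam fun s => T143g r fun x => g x + s * dl x := by
  have hc : ∀ a : k, D7.IsPoly fun _ : k => a := D7.IsPoly.const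
  have hl : ∀ a b : k, D7.IsPoly fun s : k => a + s * b := fun a b =>
    (D7.IsPoly.const a).add (D7.IsPoly.id.mul (D7.IsPoly.const b))
  intro i x y
  fin_cases i <;> fin_cases x <;> fin_cases y <;> first | exact hc _ | exact hl _ _

theorem Gm_eq (g : Fin 3 × Fin 3 → k) (s : k) :
    (Gm fun x => g x + s * dl x) = -(Matrix.scalar (Fin 3) (-s) - Gm g) := by
  ext a b
  fin_cases a <;> fin_cases b <;> simp [Gm, dl, Matrix.scalar_apply]

theorem det_Gm (g : Fin 3 × Fin 3 → k) (s : k) (h : (Gm g).charpoly.eval (-s) ≠ 0) :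
    ∃ H, (Gm fun x => g x + s * dl x) * H = 1 := by
  rw [Matrix.eval_charpoly] at h
  refine ⟨(Gm fun x => g x + s * dl x)⁻¹, Matrix.mul_nonsing_inv _ ?_⟩
  rw [Gm_eq, Matrix.det_neg, isUnit_iff_ne_zero]
  simpa using h

theorem fin_exc (g : Fin 3 × Fin 3 → k) : {s : k | (Gm g).charpoly.eval (-s) = 0}.Finite := by
  classical
  have h1 : {s : k | (Gm g).charpoly.eval (-s) = 0} =
      (fun s => -s) ⁻¹' {s | s ∈ (Gm g).charpoly.roots} := by
    ext s
    simp [Polynomial.mem_roots (Matrix.charpoly_monic (Gm g)).ne_zero, Polynomial.IsRoot]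
  rw [h1]
  refine Set.Finite.preimage neg_injective.injOn ?_
  have h2 : {s | s ∈ (Gm g).charpoly.roots} = (((Gm g).charpoly.roots.toFinset : Finset k) : Set k) := by
    ext s
    simp
  rw [h2]
  exact Finset.finite_toSet _

end T143gclAux

open T143gclAux in
theorem cl_T143g [IsAlgClosed k] [CharZero k] (r : Fin 6 × Fin 3 → k) (g : Fin 3 × Fin 3 → k) :
    Cl (T143g r g) := by
  by_contra h0
  have hk : Infinite k := IsAlgClosed.instInfinite
  have h1 := finite_cl _ (poly r g) (by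
    have : (fun x => g x + 0 * dl x) = g := by
      funext x
      simp
    rw [this]
    exact h0)
  have h2 := h1.union (fin_exc g)
  obtain ⟨s, hs⟩ := h2.exists_notMem
  simp only [Set.mem_union, Set.mem_ofPred_eq, not_or] at hs
  obtain ⟨H, hH⟩ := det_Gm g s hs.2
  exact hs.1 (cl_unit hH r (cl_T143 (rr H r)))

end Pool.Agent.Lib.D8
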