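import Pool.Agent.Lib.D8.T32111D

/-!
# MP_5dcbc3_ag: type (3, 2, 1, 1, 1)

The matrices commuting with `A = J32111` are `B32111 al al1 w be be1 ga pi th e N` modulo `A, A ^ 2`.
As for type (3, 2, 1, 1) (`D7/T3211.lean`), with `P = k ^ 3` instead of `k ^ 2`: `N = 0`,
and up to duality `be = be' = 0` and either `pi = pi' = 0` or `th = th' = 0, e = e' = 0`.
-/

namespace Pool.Agent.Lib.D8

open Matrix Pool.Agent.Lib.Q5dc Pool.Agent.Lib.D7

namespace T32111Aux

variable {k : Type*} [Field k]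

theorem dual {ρ : ℕ → ℕ} {al al1 : k} {w : Fin 3 → k} {be be1 ga : k} {pi th e : Fin 3 → k}
    {N : Matrix (Fin 3) (Fin 3) k} {al' al1' : k} {w' : Fin 3 → k} {be' be1' ga' : k}
    {pi' th' e' : Fin 3 → k} {N' : Matrix (Fin 3) (Fin 3) k}
    (hT : MaxR ρ ![J32111 k, B32111 al al1 w be be1 ga pi th e N,
      B32111 al' al1' w' be' be1' ga' pi' th' e' N']) :
    MaxR ρ ![J32111 k, B32111 be be1 th al al1 ga e w pi Nᵀ,
      B32111 be' be1' th' al' al1' ga' e' w' pi' N'ᵀ] := by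
  refine maxR_dual (P32111 k) P32111_sq hT ?_
  intro i
  fin_cases i
  · exact J32111_dual
  · exact B32111_dual _ _ _ _ _ _ _ _ _ _
  · exact B32111_dual _ _ _ _ _ _ _ _ _ _

/-! ### conditions -/

theorem condR [CharZero k] {ρ : ℕ → ℕ} (hρ : ρ 1 ≤ 3) {T : Fin 3 → Matrix (Fin 8) (Fin 8) k}
    (hT : MaxR ρ T) (hJ : J32111 k ∈ adj T)
    {al al1 : k} {w : Fin 3 → k} {be be1 ga : k} {pi th e : Fin 3 → k}
    {N : Matrix (Fin 3) (Fin 3) k}
    (hX : B32111 al al1 w be be1 ga pi th e N ∈ adj T) (s : k) (i j : Fin 3) :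
    (1 + s * ga - s * al1 * (s * be) - s * be1 * (s * al)) * (s * N i j) -
      (s * e j - s * th j * (s * al)) * (s * pi i - s * w i * (s * be)) = 0 := by
  have : Infinite k := CharZero.infinite k
  have h1 := hT.rank_le ((adj T).add_mem hJ (SMulMemClass.smul_mem s hX)) 1
  rw [pow_one] at h1
  by_contra h
  have h2 : 4 ≤ (J32111 k + s • B32111 al al1 w be be1 ga pi th e N).rank := by
    refine rank4 (P i) (P j) ?_ ?_ ?_ ?_ ?_ ?_ ?_
    · simp [J32111, B32111]
    · simp [J32111, B32111]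
    · rw [Matrix.add_apply, Matrix.smul_apply, J_1P, B_1P]
      simp
    · simp [J32111, B32111]
    · simp [J32111, B32111]
    · rw [Matrix.add_apply, Matrix.smul_apply, J_P, B_P1]
      simp
    · intro h3
      apply h
      rw [← h3]
      simp only [Matrix.add_apply, Matrix.smul_apply, J_P, J_2P, J_4P, B_N, B_e, B_th, B_w,
        B_pi]
      simp [J32111, B32111]
  omega

theorem condN [CharZero k] {ρ : ℕ → ℕ} (hρ : ρ 1 ≤ 3) {T : Fin 3 → Matrix (Fin 8) (Fin 8) k}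
    (hT : MaxR ρ T) (hJ : J32111 k ∈ adj T)
    {al al1 : k} {w : Fin 3 → k} {be be1 ga : k} {pi th e : Fin 3 → k}
    {N : Matrix (Fin 3) (Fin 3) k}
    (hX : B32111 al al1 w be be1 ga pi th e N ∈ adj T) : N = 0 := by
  ext i j
  have h1 := condR hρ hT hJ hX 1 i j
  have h2 := condR hρ hT hJ hX (-1) i j
  have h3 := condR hρ hT hJ hX 2 i j
  have h4 := condR hρ hT hJ hX (-2) i j
  have h5 : (12 : k) * N i j = 0 := by
    linear_combination 8 * h1 - 8 * h2 - h3 + h4
  exact (mul_eq_zero.mp h5).resolve_left (by norm_num)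

theorem condB [CharZero k] {ρ : ℕ → ℕ} (hρ : ρ 1 ≤ 3) {T : Fin 3 → Matrix (Fin 8) (Fin 8) k}
    (hT : MaxR ρ T) (hJ : J32111 k ∈ adj T)
    {al al1 : k} {w : Fin 3 → k} {be1 ga : k} {pi th e : Fin 3 → k}
    (hX : B32111 al al1 w 0 be1 ga pi th e 0 ∈ adj T) (i j : Fin 3) :
    pi i * e j = 0 ∧ al * pi i * th j = 0 := by
  have h1 := condR hρ hT hJ hX 1 i j
  have h2 := condR hρ hT hJ hX (-1) i j
  rw [Matrix.zero_apply] at h1 h2
  constructor
  · have h5 : (2 : k) * (pi i * e j) = 0 := by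
      linear_combination -h1 - h2
    exact (mul_eq_zero.mp h5).resolve_left (by norm_num)
  · have h5 : (2 : k) * (al * pi i * th j) = 0 := by
      linear_combination h1 - h2
    exact (mul_eq_zero.mp h5).resolve_left (by norm_num)

theorem condC [CharZero k] {ρ : ℕ → ℕ} (hρ : ρ 3 = 0) {T : Fin 3 → Matrix (Fin 8) (Fin 8) k}
    (hT : MaxR ρ T) (hJ : J32111 k ∈ adj T)
    {al al1 : k} {w : Fin 3 → k} {be be1 ga : k} {pi th e : Fin 3 → k}
    (hX : B32111 al al1 w be be1 ga pi th e 0 ∈ adj T) :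
    al * be = 0 := by
  have : Infinite k := CharZero.infinite k
  have key : ∀ s : k, s * s * (3 * (al * be)) + s * s * s * (al * be * ga +
      be * (e 0 * w 0 + e 1 * w 1 + e 2 * w 2) +
      al * (th 0 * pi 0 + th 1 * pi 1 + th 2 * pi 2)) = 0 := by
    intro s
    have h1 := hT.pow_eq_zero ((adj T).add_mem hJ (SMulMemClass.smul_mem s hX)) hρ
    have h2 := congrFun (congrFun h1 2) 0
    rw [pow_succ, pow_two] at h2
    simp [Matrix.mul_apply, Fin.sum_univ_succ, J32111, B32111] at h2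
    linear_combination h2
  have h1 := key 1
  have h2 := key (-1)
  have h3 : (6 : k) * (al * be) = 0 := by linear_combination h1 + h2
  exact (mul_eq_zero.mp h3).resolve_left (by norm_num)

theorem case_be0 [CharZero k] {ρ : ℕ → ℕ} (hρ1 : ρ 1 ≤ 3) (hρ3 : ρ 3 = 0)
    {al al1 : k} {w : Fin 3 → k} {be1 ga : k} {pi th e : Fin 3 → k}
    {al' al1' : k} {w' : Fin 3 → k} {be1' ga' : k} {pi' th' e' : Fin 3 → k}
    (hT : MaxR ρ ![J32111 k, B32111 al al1 w 0 be1 ga pi th e 0,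
      B32111 al' al1' w' 0 be1' ga' pi' th' e' 0]) : False := by
  have : Infinite k := CharZero.infinite k
  have key : ∀ (c : k) (i j : Fin 3),
    (pi i + c * pi' i) * (e j + c * e' j) = 0 ∧
    (al + c * al') * (pi i + c * pi' i) * (th j + c * th' j) = 0 := by
    intro c i j
    have h := (adj _).add_mem (mem1 (J32111 k)
      (B32111 al al1 w 0 be1 ga pi th e 0) (B32111 al' al1' w' 0 be1' ga' pi' th' e' 0))
      (SMulMemClass.smul_mem c (mem2 (J32111 k)
      (B32111 al al1 w 0 be1 ga pi th e 0) (B32111 al' al1' w' 0 be1' ga' pi' th' e' 0)))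
    have h2 := B_lin 1 c al al1 w 0 be1 ga pi th e 0 al' al1' w' 0 be1' ga' pi' th' e' 0
    simp only [one_mul, one_smul, mul_zero, smul_zero, add_zero] at h2
    have h3 := condB hρ1 hT (mem0 _ _ _) (h2 ▸ h) i j
    simpa using h3
  by_cases hp : pi = 0 ∧ pi' = 0
  · obtain ⟨rfl, rfl⟩ := hp
    exact caseI hρ1 hT
  · obtain ⟨i, hi⟩ : ∃ i, ¬ (pi i = 0 ∧ pi' i = 0) := by
      by_contra h
      push Not at h
      exact hp ⟨funext fun i => (h i).1, funext fun i => (h i).2⟩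
    have he : ∀ j, e j = 0 ∧ e' j = 0 := fun j =>
      (T3211Aux.lin2 fun c => (key c i j).1).resolve_left hi
    obtain ⟨rfl, rfl⟩ : e = 0 ∧ e' = 0 := ⟨funext fun j => (he j).1, funext fun j => (he j).2⟩
    by_cases hal : al = 0 ∧ al' = 0
    · obtain ⟨rfl, rfl⟩ := hal
      have h4 := dual hT
      rw [Matrix.transpose_zero] at h4
      exact caseI hρ1 h4
    · have ht : ∀ j, th j = 0 ∧ th' j = 0 := fun j =>
        ((T3211Aux.lin3 fun c => (key c i j).2).resolve_left hal).resolve_left hi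
      obtain ⟨rfl, rfl⟩ : th = 0 ∧ th' = 0 :=
        ⟨funext fun j => (ht j).1, funext fun j => (ht j).2⟩
      by_cases hal1 : al = 0
      · exact caseIII hρ3 (Pool.Agent.Lib.D8.MaxR.swap hT) fun h => hal ⟨hal1, h⟩
      · exact caseIII hρ3 hT hal1

theorem case_gen [CharZero k] {ρ : ℕ → ℕ} (hρ1 : ρ 1 ≤ 3) (hρ3 : ρ 3 = 0)
    {al al1 : k} {w : Fin 3 → k} {be be1 ga : k} {pi th e : Fin 3 → k}
    {N : Matrix (Fin 3) (Fin 3) k} {al' al1' : k} {w' : Fin 3 → k} {be' be1' ga' : k}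
    {pi' th' e' : Fin 3 → k} {N' : Matrix (Fin 3) (Fin 3) k}
    (hT : MaxR ρ ![J32111 k, B32111 al al1 w be be1 ga pi th e N,
      B32111 al' al1' w' be' be1' ga' pi' th' e' N']) : False := by
  have : Infinite k := CharZero.infinite k
  have hN := condN hρ1 hT (mem0 _ _ _) (mem1 _ _ _)
  have hN' := condN hρ1 hT (mem0 _ _ _) (mem2 _ _ _)
  subst hN hN'
  have key : ∀ c : k, (al + c * al') * (be + c * be') = 0 := by
    intro c
    have h := (adj _).add_mem (mem1 (J32111 k)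
      (B32111 al al1 w be be1 ga pi th e 0) (B32111 al' al1' w' be' be1' ga' pi' th' e' 0))
      (SMulMemClass.smul_mem c (mem2 (J32111 k)
      (B32111 al al1 w be be1 ga pi th e 0) (B32111 al' al1' w' be' be1' ga' pi' th' e' 0)))
    have h2 := B_lin 1 c al al1 w be be1 ga pi th e 0 al' al1' w' be' be1' ga' pi' th' e' 0
    simp only [one_mul, one_smul, smul_zero, add_zero] at h2
    exact condC hρ3 hT (mem0 _ _ _) (h2 ▸ h)
  rcases T3211Aux.lin2 key with ⟨rfl, rfl⟩ | ⟨rfl, rfl⟩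
  · have h4 := dual hT
    rw [Matrix.transpose_zero] at h4
    exact case_be0 hρ1 hρ3 h4
  · exact case_be0 hρ1 hρ3 hT

end T32111Aux

theorem no_32111 {k : Type*} [Field k] [IsAlgClosed k] [CharZero k] {ρ : ℕ → ℕ}
    {T : Fin 3 → Matrix (Fin 8) (Fin 8) k} (hT : MaxR ρ T)
    (hρ : ∀ i, ρ i = (J32111 k ^ i).rank) (h0 : T 0 = J32111 k) : False := by
  have hρ1 : ρ 1 ≤ 3 := by
    rw [hρ, pow_one]
    exact J32111_rank
  have hρ3 : ρ 3 = 0 := by
    rw [hρ, J32111_cube, Matrix.rank_zero]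
  have hTe : T = ![J32111 k, T 1, T 2] := by
    funext i
    fin_cases i
    · exact h0
    · rfl
    · rfl
  have hcB : J32111 k * T 1 = T 1 * J32111 k := by
    rw [← h0]
    exact hT.cn.1 0 1
  have hcC : J32111 k * T 2 = T 2 * J32111 k := by
    rw [← h0]
    exact hT.cn.1 0 2
  have hB := T32111Aux.shape hcB (hT.cn.2 1)
  have hC := T32111Aux.shape hcC (hT.cn.2 2)
  rw [hTe] at hT
  have key : ∀ {B C B' C' : Matrix (Fin 8) (Fin 8) k} {b1 b2 c1 c2 : k},
      B = B' + b1 • J32111 k + b2 • (J32111 k * J32111 k) →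
      C = C' + c1 • J32111 k + c2 • (J32111 k * J32111 k) → MaxR ρ ![J32111 k, B, C] →
      MaxR ρ ![J32111 k, B', C'] := by
    intro B C B' C' b1 b2 c1 c2 hB hC hT
    have h := Pool.Agent.Lib.D8.MaxR.lin hT 1 0 0 1 (-b1) (-b2) (-c1) (-c2) (by simp)
    have e1 : (1 : k) • B + (0 : k) • C + (-b1) • J32111 k + (-b2) • (J32111 k * J32111 k) =
        B' := by
      rw [hB]
      module
    have e2 : (0 : k) • B + (1 : k) • C + (-c1) • J32111 k + (-c2) • (J32111 k * J32111 k) =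
        C' := by
      rw [hC]
      module
    rwa [e1, e2] at h
  exact T32111Aux.case_gen hρ1 hρ3 (key hB hC hT)

end Pool.Agent.Lib.D8
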