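import Pool.Agent.Lib.D8.R134

/-!
Module T134 (2h; black box R134). Type (3,2,2,1) with b = b' = e = e' = 0, th = th' = 0.
X: v0 -> a + c + om p, v1 -> A a, x in U_0 -> G x := d(x) v2 + N x + p(x) p in V3 = <v2, u1, w1, p>; BC = CB iff G a' = G' a (B3221_comm: d · a' = d' · a, N a' = N' a, p · a' = p' · a). c, om, c', om' are free and play no role.
PROOF. (1) WLOG a ≠ 0 or a' ≠ 0 is given (ha). Swap so that a' ≠ 0. If a, a' are dependent: choose x independent of a' and φ with φ · a' = 1; family a -> a + s x, G -> G + s (G' x) (x) φ (d -> d + s (d' · x) φ, N -> N + s vecMulVec (N' x) φ, p -> p + s (p' · x) φ): CN for all s.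
So WLOG a, a' independent. (2) conj to the normal form a = (1, 0), a' = (0, 1), c = c' = 0, om = om' = 0: new basis v0, v1, v2, B v0, A B v0, C v0, A C v0, p (matrix with these columns; invertible since a, a' independent). Then T = (J, B3221 ![1,0] 0 0 0 d N p 0 0, B3221 ![0,1] 0 0 0 d' N' p' 0 0) with
d 1 = d' 0, N i 1 = N' i 0, p 1 = p' 0 and (d, N, p, d', N', p') arbitrary otherwise (12 free parameters). Simplest: first conj by G3221 g 1 (a = (1,0), a' = (0,1)), then conj by 1 + (u0 -> c 0 u1 + c 1 w1 + om p) + (w0 -> c' 0 u1 + c' 1 w1 + om' p) (commutes with A; this changes d, N, p of B, C? no: U_0 -> V3 maps compose to 0 with B, C from the left except v0 -> a: so only c, om change).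
(3) Lemma root: given (d, N, p, d', N', p') with the symmetry relations and p 1 = p' 0 ≠ 0 [deform: family p 1 = p' 0 -> + s], find η, ζ, r with e1, e2, e3 of no_134R, possibly after linear changes of B, C. Let Q(s, t) = p 0 s^2 + 2 p 1 s t + p' 1 t^2. Change of (B, C) by GL_2 (MaxR.lin, then conj by G3221 to keep a = (1,0), a' = (0,1)):
first make p 0 = 0 (a root of Q as new B), deform p 1 ≠ 0, then C -> C - t B makes p' 1 = 0. So p = (0, q), p' = (q, 0), q ≠ 0. Now e1: η^2 = d 0 + N00 η + N10 ζ, e3: ζ^2 = d' 1 + N'01 η + N'11 ζ, and e2 defines r (divide by q). Solve e1, e3: if N10 ≠ 0, ζ = (η^2 - d 0 - N00 η)/N10 and η a root of a polynomial of degree 4;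
if N10 = 0: η a root of e1, ζ a root of e3. (k algebraically closed.) Then no_134R.
-/

namespace Pool.Agent.Lib.D8

open Matrix Pool.Agent.Lib.Q5dc Pool.Agent.Lib.D7

namespace T134Aux

variable {k : Type*} [Field k]

section Basic

variable {a c : Fin 2 → k} {om : k} {d : Fin 2 → k} {N : Matrix (Fin 2) (Fin 2) k}
    {p : Fin 2 → k} {a' c' : Fin 2 → k} {om' : k} {d' : Fin 2 → k}
    {N' : Matrix (Fin 2) (Fin 2) k} {p' : Fin 2 → k} {ρ : ℕ → ℕ}

theorem cn0 (h1 : d ⬝ᵥ a' = d' ⬝ᵥ a) (h2 : N *ᵥ a' = N' *ᵥ a) (h3 : p ⬝ᵥ a' = p' ⬝ᵥ a) :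
    CN ![J3221 k, B3221 a c om 0 d N p 0 0, B3221 a' c' om' 0 d' N' p' 0 0] := by
  refine B3221_cn ?_ ?_ ?_ ?_ ?_ ?_ ?_
  · simp
  · simpa using h1
  · simpa using h2
  · exact h3
  · simp [vecMulVec_zero, zero_vecMulVec]
  · simp
  · simp

theorem rel0 (hT : MaxR ρ ![J3221 k, B3221 a c om 0 d N p 0 0, B3221 a' c' om' 0 d' N' p' 0 0]) :
    d ⬝ᵥ a' = d' ⬝ᵥ a ∧ N *ᵥ a' = N' *ᵥ a ∧ p ⬝ᵥ a' = p' ⬝ᵥ a := by
  have h : B3221 a c om 0 d N p 0 0 * B3221 a' c' om' 0 d' N' p' 0 0 =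
      B3221 a' c' om' 0 d' N' p' 0 0 * B3221 a c om 0 d N p 0 0 := hT.cn.1 1 2
  rw [B3221_comm] at h
  obtain ⟨-, h2, h3, h4, -, -, -⟩ := h
  refine ⟨?_, ?_, h4⟩
  · simpa using h2
  · simpa using h3

/-- the change of basis `u0 -> u0 + c 0 u1 + c 1 w1 + om p`, `w0 -> w0 + c' 0 u1 + c' 1 w1 + om' p` -/
def K8 (c : Fin 2 → k) (om : k) (c' : Fin 2 → k) (om' : k) : Matrix (Fin 8) (Fin 8) k :=
  !![1, 0, 0, 0, 0, 0, 0, 0;
     0, 1, 0, 0, 0, 0, 0, 0;
     0, 0, 1, 0, 0, 0, 0, 0;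
     0, 0, 0, 1, 0, 0, 0, 0;
     0, 0, 0, c 0, 1, c' 0, 0, 0;
     0, 0, 0, 0, 0, 1, 0, 0;
     0, 0, 0, c 1, 0, c' 1, 1, 0;
     0, 0, 0, om, 0, om', 0, 1]

theorem K8_mul (c : Fin 2 → k) (om : k) (c' : Fin 2 → k) (om' : k) :
    K8 c om c' om' * K8 (-c) (-om) (-c') (-om') = 1 := by
  ext i j
  fin_cases i <;> fin_cases j <;> simp [K8, Matrix.mul_apply, Fin.sum_univ_eight]

theorem K8_mul' (c : Fin 2 → k) (om : k) (c' : Fin 2 → k) (om' : k) :
    K8 (-c) (-om) (-c') (-om') * K8 c om c' om' = 1 := by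
  have := K8_mul (-c) (-om) (-c') (-om')
  simpa using this

theorem K8_left1 (c : Fin 2 → k) (om : k) (c' : Fin 2 → k) (om' : k) :
    K8 (-c) (-om) (-c') (-om') * B3221 ![1, 0] c om 0 d N p 0 0 =
      B3221 ![1, 0] 0 0 0 d N p 0 0 := by
  ext i j
  fin_cases i <;> fin_cases j <;> simp [K8, B3221, Matrix.mul_apply, Fin.sum_univ_eight]

theorem K8_left2 (c : Fin 2 → k) (om : k) (c' : Fin 2 → k) (om' : k) :
    K8 (-c) (-om) (-c') (-om') * B3221 ![0, 1] c' om' 0 d N p 0 0 =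
      B3221 ![0, 1] 0 0 0 d N p 0 0 := by
  ext i j
  fin_cases i <;> fin_cases j <;> simp [K8, B3221, Matrix.mul_apply, Fin.sum_univ_eight]

theorem K8_right (x : Fin 2 → k) (c : Fin 2 → k) (om : k) (c' : Fin 2 → k) (om' : k) :
    B3221 x 0 0 0 d N p 0 0 * K8 c om c' om' = B3221 x 0 0 0 d N p 0 0 := by
  ext i j
  fin_cases i <;> fin_cases j <;> simp [K8, B3221, Matrix.mul_apply, Fin.sum_univ_eight]

theorem K8_J (c : Fin 2 → k) (om : k) (c' : Fin 2 → k) (om' : k) :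
    K8 (-c) (-om) (-c') (-om') * J3221 k * K8 c om c' om' = J3221 k := by
  have h1 : K8 (-c) (-om) (-c') (-om') * J3221 k = J3221 k := by
    ext i j
    fin_cases i <;> fin_cases j <;> simp [K8, J3221, Matrix.mul_apply, Fin.sum_univ_eight]
  have h2 : J3221 k * K8 c om c' om' = J3221 k := by
    ext i j
    fin_cases i <;> fin_cases j <;> simp [K8, J3221, Matrix.mul_apply, Fin.sum_univ_eight]
  rw [h1, h2]

theorem vec3 (g h A B C : Matrix (Fin 8) (Fin 8) k) :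
    (fun i => g * (![A, B, C] : Fin 3 → Matrix (Fin 8) (Fin 8) k) i * h) =
      ![g * A * h, g * B * h, g * C * h] := by
  funext i
  fin_cases i <;> rfl

/-- the normal form -/
theorem norm (hT : MaxR ρ ![J3221 k, B3221 a c om 0 d N p 0 0, B3221 a' c' om' 0 d' N' p' 0 0])
    (hdet : a 0 * a' 1 - a' 0 * a 1 ≠ 0) : ∃ N1 N1' : Matrix (Fin 2) (Fin 2) k,
    MaxR ρ ![J3221 k,
      B3221 ![1, 0] 0 0 0 ![d ⬝ᵥ a, d ⬝ᵥ a'] N1 ![p ⬝ᵥ a, p ⬝ᵥ a'] 0 0,
      B3221 ![0, 1] 0 0 0 ![d' ⬝ᵥ a, d' ⬝ᵥ a'] N1' ![p' ⬝ᵥ a, p' ⬝ᵥ a'] 0 0] := by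
  set h : Matrix (Fin 2) (Fin 2) k := !![a 0, a' 0; a 1, a' 1] with hh
  have hu : IsUnit h.det := by
    rw [hh, Matrix.det_fin_two_of]
    exact isUnit_iff_ne_zero.2 hdet
  have h1 : h⁻¹ * h = 1 := Matrix.nonsing_inv_mul h hu
  have h2 : h * h⁻¹ = 1 := Matrix.mul_nonsing_inv h hu
  have ea : h *ᵥ ![1, 0] = a := by
    ext i
    fin_cases i <;> simp [hh, mulVec, dotProduct, Fin.sum_univ_two]
  have ea' : h *ᵥ ![0, 1] = a' := by
    ext i
    fin_cases i <;> simp [hh, mulVec, dotProduct, Fin.sum_univ_two]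
  have ga : h⁻¹ *ᵥ a = ![1, 0] := by
    conv_lhs => rw [← ea]
    rw [Matrix.mulVec_mulVec, h1, Matrix.one_mulVec]
  have ga' : h⁻¹ *ᵥ a' = ![0, 1] := by
    conv_lhs => rw [← ea']
    rw [Matrix.mulVec_mulVec, h1, Matrix.one_mulVec]
  have hv : ∀ x : Fin 2 → k, x ᵥ* h = ![x ⬝ᵥ a, x ⬝ᵥ a'] := by
    intro x
    ext i
    fin_cases i <;> simp [hh, vecMul, dotProduct, Fin.sum_univ_two]
  have c1 := MaxR.conj hT (G3221 h⁻¹ 1) (G3221 h 1)
    (by rw [G3221_mul, h1, mul_one, G3221_one]) (by rw [G3221_mul, h2, mul_one, G3221_one])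
  rw [vec3, G3221_J _ _ _ _ h1, G3221_conj, G3221_conj, ga, ga', zero_vecMul, hv d, hv p, hv d',
    hv p'] at c1
  simp only [one_smul, mul_one, one_mul, mulVec_zero] at c1
  have c2 := MaxR.conj c1 (K8 (-(h⁻¹ *ᵥ c)) (-om) (-(h⁻¹ *ᵥ c')) (-om'))
    (K8 (h⁻¹ *ᵥ c) om (h⁻¹ *ᵥ c') om') (K8_mul' _ _ _ _) (K8_mul _ _ _ _)
  rw [vec3, K8_J, K8_left1, K8_left2, K8_right, K8_right] at c2
  exact ⟨_, _, c2⟩

end Basic

section Alg

variable [IsAlgClosed k] [CharZero k] {a c : Fin 2 → k} {om : k} {d : Fin 2 → k}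
    {N : Matrix (Fin 2) (Fin 2) k}
    {p : Fin 2 → k} {a' c' : Fin 2 → k} {om' : k} {d' : Fin 2 → k}
    {N' : Matrix (Fin 2) (Fin 2) k} {p' : Fin 2 → k} {ρ : ℕ → ℕ}

/-- `a, a'` may be assumed to be independent -/
theorem indep (hT : MaxR ρ ![J3221 k, B3221 a c om 0 d N p 0 0, B3221 a' c' om' 0 d' N' p' 0 0])
    (ha : a' ≠ 0) : ∃ (a1 d1 : Fin 2 → k) (N1 : Matrix (Fin 2) (Fin 2) k) (p1 : Fin 2 → k),
    a1 0 * a' 1 - a' 0 * a1 1 ≠ 0 ∧
    MaxR ρ ![J3221 k, B3221 a1 c om 0 d1 N1 p1 0 0, B3221 a' c' om' 0 d' N' p' 0 0] := by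
  have : Infinite k := IsAlgClosed.instInfinite
  by_cases hdet : a 0 * a' 1 - a' 0 * a 1 ≠ 0
  · exact ⟨a, d, N, p, hdet, hT⟩
  rw [not_not] at hdet
  obtain ⟨r1, r2, r3⟩ := rel0 hT
  obtain ⟨x, φ, hφ, hx⟩ : ∃ x φ : Fin 2 → k, φ ⬝ᵥ a' = 1 ∧ x 0 * a' 1 - a' 0 * x 1 ≠ 0 := by
    by_cases h0 : a' 0 = 0
    · have h1 : a' 1 ≠ 0 := by
        intro h1
        apply ha
        ext i
        fin_cases i
        · exact h0
        · exact h1
      refine ⟨![1, 0], ![0, (a' 1)⁻¹], ?_, ?_⟩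
      · simp [dotProduct, Fin.sum_univ_two, h1]
      · simpa using h1
    · refine ⟨![0, 1], ![(a' 0)⁻¹, 0], ?_, ?_⟩
      · simp [dotProduct, Fin.sum_univ_two, h0]
      · simpa using h0
  have hv : ∀ y : Fin 2 → k, vecMulVec y φ *ᵥ a' = y := by
    intro y
    rw [vecMulVec_mulVec, hφ]
    simp
  have hcn : ∀ s : k, CN ![J3221 k, B3221 a c om 0 d N p 0 0 +
      s • B3221 x 0 0 0 ((d' ⬝ᵥ x) • φ) (vecMulVec (N' *ᵥ x) φ) ((p' ⬝ᵥ x) • φ) 0 0,
      B3221 a' c' om' 0 d' N' p' 0 0 + s • (0 : Matrix (Fin 8) (Fin 8) k)] := by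
    intro s
    rw [B3221_smul, B3221_add, smul_zero, add_zero]
    simp only [smul_zero, mul_zero, add_zero]
    refine cn0 ?_ ?_ ?_
    · rw [add_dotProduct, smul_dotProduct, smul_dotProduct, hφ, dotProduct_add, dotProduct_smul,
        r1]
      simp
    · rw [add_mulVec, smul_mulVec, hv, mulVec_add, mulVec_smul, r2]
    · rw [add_dotProduct, smul_dotProduct, smul_dotProduct, hφ, dotProduct_add, dotProduct_smul,
        r3]
      simp
  obtain ⟨s, hs, h1⟩ := MaxR.line2 hT _ _ hcn (Set.finite_singleton (0 : k))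
  rw [B3221_smul, B3221_add, smul_zero, add_zero] at h1
  simp only [smul_zero, mul_zero, add_zero] at h1
  refine ⟨_, _, _, _, ?_, h1⟩
  have h2 : s ≠ 0 := hs
  have e : (a + s • x) 0 * a' 1 - a' 0 * (a + s • x) 1 = s * (x 0 * a' 1 - a' 0 * x 1) := by
    simp only [Pi.add_apply, Pi.smul_apply, smul_eq_mul]
    linear_combination hdet
  rw [e]
  exact mul_ne_zero h2 hx

/-- a common point of two conics -/
theorem conics (d0 n0 n1 d1 m0 m1 : k) :
    ∃ η ζ : k, η ^ 2 = d0 + n0 * η + n1 * ζ ∧ ζ ^ 2 = d1 + m0 * η + m1 * ζ := by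
  have quad : ∀ b c : k, ∃ z : k, z ^ 2 = b + c * z := by
    intro b c
    obtain ⟨z, hz⟩ := IsAlgClosed.exists_root
      (Polynomial.X ^ 2 - Polynomial.C c * Polynomial.X - Polynomial.C b) (by
        have : (Polynomial.X ^ 2 - Polynomial.C c * Polynomial.X - Polynomial.C b).natDegree
            = 2 := by
          compute_degree!
        intro h0
        rw [Polynomial.degree_eq_natDegree (by rintro h; rw [h] at this; simp at this), this] at h0
        norm_num at h0)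
    refine ⟨z, ?_⟩
    simp only [Polynomial.IsRoot, Polynomial.eval_sub, Polynomial.eval_pow, Polynomial.eval_X,
      Polynomial.eval_mul, Polynomial.eval_C] at hz
    linear_combination hz
  by_cases hn : n1 = 0
  · obtain ⟨η, hη⟩ := quad d0 n0
    obtain ⟨ζ, hζ⟩ := quad (d1 + m0 * η) m1
    exact ⟨η, ζ, by rw [hη, hn]; ring, hζ⟩
  · obtain ⟨η, hη⟩ := IsAlgClosed.exists_root
      ((Polynomial.X ^ 2 - Polynomial.C n0 * Polynomial.X - Polynomial.C d0) ^ 2
        - Polynomial.C (m1 * n1) *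
          (Polynomial.X ^ 2 - Polynomial.C n0 * Polynomial.X - Polynomial.C d0)
        - Polynomial.C (m0 * n1 ^ 2) * Polynomial.X - Polynomial.C (d1 * n1 ^ 2)) (by
        have : ((Polynomial.X ^ 2 - Polynomial.C n0 * Polynomial.X - Polynomial.C d0) ^ 2
            - Polynomial.C (m1 * n1) *
              (Polynomial.X ^ 2 - Polynomial.C n0 * Polynomial.X - Polynomial.C d0)
            - Polynomial.C (m0 * n1 ^ 2) * Polynomial.X - Polynomial.C (d1 * n1 ^ 2)).natDegree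
            = 4 := by
          compute_degree!
        intro h0
        rw [Polynomial.degree_eq_natDegree (by rintro h; rw [h] at this; simp at this), this] at h0
        norm_num at h0)
    simp only [Polynomial.IsRoot, Polynomial.eval_sub, Polynomial.eval_pow, Polynomial.eval_X,
      Polynomial.eval_mul, Polynomial.eval_C] at hη
    refine ⟨η, (η ^ 2 - n0 * η - d0) / n1, ?_, ?_⟩
    · field_simp
      ring
    · field_simp
      linear_combination hη

theorem final (h3 : ρ 3 = 0)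
    (hT : MaxR ρ ![J3221 k, B3221 ![1, 0] 0 0 0 d N p 0 0, B3221 ![0, 1] 0 0 0 d' N' p' 0 0])
    (p0 : p 0 = 0) (p1 : p 1 ≠ 0) (p1' : p' 1 = 0) : False := by
  obtain ⟨η, ζ, e1, e3⟩ := conics (d 0) (N 0 0) (N 1 0) (d' 1) (N' 0 1) (N' 1 1)
  refine no_134R h3 (η := η) (ζ := ζ) (r := (η * ζ - d 1 - N 0 1 * η - N 1 1 * ζ) / p 1) hT ?_ ?_ ?_
  · rw [e1, p0]
    ring
  · field_simp
    ring
  · rw [e3, p1']
    ring

theorem normal (h3 : ρ 3 = 0)
    (hT : MaxR ρ ![J3221 k, B3221 ![1, 0] 0 0 0 d N p 0 0, B3221 ![0, 1] 0 0 0 d' N' p' 0 0]) :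
    False := by
  have : Infinite k := IsAlgClosed.instInfinite
  -- deform `p`
  obtain ⟨r1, r2, r3⟩ := rel0 hT
  have hcn : ∀ s : k, CN ![J3221 k, B3221 ![1, 0] 0 0 0 d N p 0 0 +
      s • B3221 0 0 0 0 0 0 ![1, 1] 0 0,
      B3221 ![0, 1] 0 0 0 d' N' p' 0 0 + s • B3221 0 0 0 0 0 0 ![1, 0] 0 0] := by
    intro s
    rw [B3221_smul, B3221_add, B3221_smul, B3221_add]
    simp only [smul_zero, mul_zero, add_zero]
    refine cn0 r1 r2 ?_
    rw [add_dotProduct, add_dotProduct, smul_dotProduct, smul_dotProduct, r3]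
    simp [dotProduct, Fin.sum_univ_two]
  have hF1 : {s : k | p 0 + 1 * s + 0 * s ^ 2 = 0}.Finite :=
    finite_quad (Or.inr (Or.inl one_ne_zero))
  have hF2 : {s : k | (p 1 ^ 2 - p 0 * p' 1) + (2 * p 1 - p' 1) * s + 1 * s ^ 2 = 0}.Finite :=
    finite_quad (Or.inr (Or.inr one_ne_zero))
  obtain ⟨s, hs, h1⟩ := MaxR.line2 hT _ _ hcn (hF1.union hF2)
  rw [B3221_smul, B3221_add, B3221_smul, B3221_add] at h1
  simp only [smul_zero, mul_zero, add_zero] at h1
  rw [Set.mem_union, not_or] at hs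
  obtain ⟨hs1, hs2⟩ := hs
  simp only [Set.mem_ofPred_eq] at hs1 hs2
  have r3' := (rel0 h1).2.2
  set P : Fin 2 → k := p + s • ![1, 1] with hP
  set P' : Fin 2 → k := p' + s • ![1, 0] with hP'
  have eP0 : P 0 ≠ 0 := by
    intro h
    apply hs1
    have : P 0 = p 0 + s := by
      rw [hP]
      simp only [Pi.add_apply, Pi.smul_apply, smul_eq_mul, Matrix.cons_val_zero, mul_one]
    rw [this] at h
    linear_combination h
  have rP : P 1 = P' 0 := by
    simpa [dotProduct, Fin.sum_univ_two] using r3'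
  have eD : P 1 ^ 2 - P 0 * P' 1 ≠ 0 := by
    intro h
    apply hs2
    have e0 : P 0 = p 0 + s := by
      rw [hP]
      simp only [Pi.add_apply, Pi.smul_apply, smul_eq_mul, Matrix.cons_val_zero, mul_one]
    have e1 : P 1 = p 1 + s := by
      rw [hP]
      simp only [Pi.add_apply, Pi.smul_apply, smul_eq_mul, Matrix.cons_val_one,
        Matrix.cons_val_fin_one, mul_one]
    have e2 : P' 1 = p' 1 := by
      rw [hP']
      simp only [Pi.add_apply, Pi.smul_apply, smul_eq_mul, Matrix.cons_val_one,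
        Matrix.cons_val_fin_one, mul_zero, add_zero]
    rw [e0, e1, e2] at h
    linear_combination h
  -- roots of the quadratic form
  obtain ⟨ω, hω⟩ := IsAlgClosed.exists_pow_nat_eq (P 1 ^ 2 - P 0 * P' 1) (n := 2) (by norm_num)
  have hω0 : ω ≠ 0 := by
    rintro rfl
    apply eD
    rw [← hω]
    norm_num
  have hlin : (ω - P 1) * P 0 - P 0 * (-ω - P 1) ≠ 0 := by
    have : (ω - P 1) * P 0 - P 0 * (-ω - P 1) = 2 * ω * P 0 := by ring
    rw [this]
    exact mul_ne_zero (mul_ne_zero two_ne_zero hω0) eP0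
  have h2 := MaxR.lin h1 (ω - P 1) (P 0) (-ω - P 1) (P 0) 0 0 0 0 (by
    intro h
    apply hlin
    linear_combination h)
  simp only [zero_smul, add_zero, B3221_smul, B3221_add, smul_zero, mul_zero] at h2
  obtain ⟨N1, N1', h4⟩ := norm h2 (by
    simp only [Pi.add_apply, Pi.smul_apply, smul_eq_mul, Matrix.cons_val_zero,
      Matrix.cons_val_one, mul_one, mul_zero, add_zero, zero_add]
    intro h
    apply hlin
    linear_combination h)
  refine final h3 h4 ?_ ?_ ?_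
  · simp only [Matrix.cons_val_zero, dotProduct, Fin.sum_univ_two, Pi.add_apply, Pi.smul_apply,
      smul_eq_mul, Matrix.cons_val_one, mul_one, mul_zero, add_zero, zero_add]
    rw [← rP]
    linear_combination P 0 * hω
  · simp only [Matrix.cons_val_zero, dotProduct, Fin.sum_univ_two, Pi.add_apply, Pi.smul_apply,
      smul_eq_mul, Matrix.cons_val_one, mul_one, mul_zero, add_zero, zero_add]
    rw [← rP]
    intro h
    have h5 : 2 * ω * P 0 * ω = 0 := by
      linear_combination -h + P 0 * hω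
    exact mul_ne_zero (mul_ne_zero (mul_ne_zero two_ne_zero hω0) eP0) hω0 h5
  · simp only [Matrix.cons_val_zero, dotProduct, Fin.sum_univ_two, Pi.add_apply, Pi.smul_apply,
      smul_eq_mul, Matrix.cons_val_one, mul_one, mul_zero, add_zero, zero_add]
    rw [← rP]
    linear_combination P 0 * hω

end Alg

end T134Aux

theorem no_134 {k : Type*} [Field k] [IsAlgClosed k] [CharZero k] {ρ : ℕ → ℕ} (h3 : ρ 3 = 0)
    {a c : Fin 2 → k} {om : k} {d : Fin 2 → k} {N : Matrix (Fin 2) (Fin 2) k} {p : Fin 2 → k}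
    {a' c' : Fin 2 → k} {om' : k} {d' : Fin 2 → k} {N' : Matrix (Fin 2) (Fin 2) k}
    {p' : Fin 2 → k}
    (hT : MaxR ρ ![J3221 k, B3221 a c om 0 d N p 0 0, B3221 a' c' om' 0 d' N' p' 0 0])
    (ha : a ≠ 0 ∨ a' ≠ 0) : False := by
  have key : ∀ {a c : Fin 2 → k} {om : k} {d : Fin 2 → k} {N : Matrix (Fin 2) (Fin 2) k}
      {p : Fin 2 → k} {a' c' : Fin 2 → k} {om' : k} {d' : Fin 2 → k}
      {N' : Matrix (Fin 2) (Fin 2) k} {p' : Fin 2 → k},
      MaxR ρ ![J3221 k, B3221 a c om 0 d N p 0 0, B3221 a' c' om' 0 d' N' p' 0 0] →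
      a' ≠ 0 → False := by
    intro a c om d N p a' c' om' d' N' p' hT ha
    obtain ⟨a1, d1, N1, p1, hdet, h1⟩ := T134Aux.indep hT ha
    obtain ⟨N2, N2', h2⟩ := T134Aux.norm h1 hdet
    exact T134Aux.normal h3 h2
  rcases ha with ha | ha
  · exact key (Pool.Agent.Lib.D8.MaxR.swap hT) ha
  · exact key hT ha

end Pool.Agent.Lib.D8
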