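import Pool.Agent.Lib.D8.UtilB8
import Pool.Agent.Lib.D8.Fams

/-!
# MP_5dcbc3_ag: type `(3, 2, 2, 1)` with `b = b' = 0`, `pi = pi' = 0`

With `x = (a, om)` in `<u0, w0, p>` and `G : <u0, w0, p> -> <v2, u1, w1>` the triple is commuting iff
`G x' = G' x`. If `x, x'` are independent the triple is conjugate to `T143g r g`; in general it is
deformed into this case.
-/

namespace Pool.Agent.Lib.D8

open Matrix Pool.Agent.Lib.Q5dc Pool.Agent.Lib.D7

variable {k : Type*} [Field k]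

namespace T3221aAux

/-- the matrix with `v0 -> x + c`, `G : <u0, w0, p> -> <v2, u1, w1>` -/
def Bx (x : Fin 3 → k) (c : Fin 2 → k) (G : Matrix (Fin 3) (Fin 3) k) :
    Matrix (Fin 8) (Fin 8) k :=
  B3221 ![x 0, x 1] c (x 2) 0 ![G 0 0, G 0 1] !![G 1 0, G 1 1; G 2 0, G 2 1] 0 (G 0 2)
    ![G 1 2, G 2 2]

theorem Bx_eq (a c : Fin 2 → k) (om : k) (d : Fin 2 → k) (N : Matrix (Fin 2) (Fin 2) k)
    (th : k) (e : Fin 2 → k) : B3221 a c om 0 d N 0 th e =
      Bx ![a 0, a 1, om] c !![d 0, d 1, th; N 0 0, N 0 1, e 0; N 1 0, N 1 1, e 1] := by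
  ext i j
  fin_cases i <;> fin_cases j <;> simp [Bx, B3221]

theorem Bx_line (x y : Fin 3 → k) (c : Fin 2 → k) (G H : Matrix (Fin 3) (Fin 3) k) (s : k) :
    Bx x c G + s • Bx y 0 H = Bx (x + s • y) c (G + s • H) := by
  ext i j
  fin_cases i <;> fin_cases j <;> simp [Bx, B3221]

theorem Bx_cn {x x' : Fin 3 → k} {c c' : Fin 2 → k} {G G' : Matrix (Fin 3) (Fin 3) k}
    (h : G *ᵥ x' = G' *ᵥ x) : CN ![J3221 k, Bx x c G, Bx x' c' G'] := by
  have h0 := congrFun h 0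
  have h1 := congrFun h 1
  have h2 := congrFun h 2
  simp only [mulVec, dotProduct, Fin.sum_univ_three] at h0 h1 h2
  refine B3221_cn ?_ ?_ ?_ ?_ ?_ ?_ ?_
  · simp
  · simp [dotProduct, Fin.sum_univ_two]
    linear_combination h0
  · ext i
    fin_cases i <;> simp
    · linear_combination h1
    · linear_combination h2
  · simp
  · simp
  · simp
  · simp

theorem Bx_rel {x x' : Fin 3 → k} {c c' : Fin 2 → k} {G G' : Matrix (Fin 3) (Fin 3) k}
    (h : Bx x c G * Bx x' c' G' = Bx x' c' G' * Bx x c G) : G *ᵥ x' = G' *ᵥ x := by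
  obtain ⟨-, h2, h3, -⟩ := (B3221_comm _ _ _ _ _ _ _ _ _ _ _ _ _ _ _ _ _ _).1 h
  have h30 := congrFun h3 0
  have h31 := congrFun h3 1
  simp [dotProduct, Fin.sum_univ_two] at h2 h30 h31
  ext i
  fin_cases i <;> simp only [mulVec, dotProduct, Fin.sum_univ_three]
  · simp
    linear_combination h2
  · simp
    linear_combination h30
  · simp
    linear_combination h31

/-! ### conjugation to the family -/

/-- the new basis -/
def Pm (x x' y : Fin 3 → k) (c c' : Fin 2 → k) : Matrix (Fin 8) (Fin 8) k :=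
  !![1, 0, 0, 0, 0, 0, 0, 0;
     0, 1, 0, 0, 0, 0, 0, 0;
     0, 0, 0, 0, 0, 1, 0, 0;
     0, 0, x 0, x' 0, y 0, 0, 0, 0;
     0, 0, c 0, c' 0, 0, 0, 1, 0;
     0, 0, x 1, x' 1, y 1, 0, 0, 0;
     0, 0, c 1, c' 1, 0, 0, 0, 1;
     0, 0, x 2, x' 2, y 2, 0, 0, 0]

/-- its inverse -/
def Pn (H : Matrix (Fin 3) (Fin 3) k) (c c' : Fin 2 → k) : Matrix (Fin 8) (Fin 8) k :=
  !![1, 0, 0, 0, 0, 0, 0, 0;
     0, 1, 0, 0, 0, 0, 0, 0;
     0, 0, 0, H 0 0, 0, H 0 1, 0, H 0 2;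
     0, 0, 0, H 1 0, 0, H 1 1, 0, H 1 2;
     0, 0, 0, H 2 0, 0, H 2 1, 0, H 2 2;
     0, 0, 1, 0, 0, 0, 0, 0;
     0, 0, 0, -(H 0 0 * c 0 + H 1 0 * c' 0), 1, -(H 0 1 * c 0 + H 1 1 * c' 0), 0,
       -(H 0 2 * c 0 + H 1 2 * c' 0);
     0, 0, 0, -(H 0 0 * c 1 + H 1 0 * c' 1), 0, -(H 0 1 * c 1 + H 1 1 * c' 1), 1,
       -(H 0 2 * c 1 + H 1 2 * c' 1)]

theorem Pn_mul {x x' y : Fin 3 → k} {c c' : Fin 2 → k} {H : Matrix (Fin 3) (Fin 3) k}
    (h : H * (Matrix.of ![x, x', y])ᵀ = 1) : Pn H c c' * Pm x x' y c c' = 1 := by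
  have e : ∀ i j, (H * (Matrix.of ![x, x', y])ᵀ) i j = (1 : Matrix (Fin 3) (Fin 3) k) i j :=
    fun i j => by rw [h]
  have e00 := e 0 0
  have e01 := e 0 1
  have e02 := e 0 2
  have e10 := e 1 0
  have e11 := e 1 1
  have e12 := e 1 2
  have e20 := e 2 0
  have e21 := e 2 1
  have e22 := e 2 2
  simp [Matrix.mul_apply, Fin.sum_univ_three] at e00 e01 e02 e10 e11 e12 e20 e21 e22
  ext i j
  fin_cases i <;> fin_cases j <;>
    simp [Pn, Pm, Matrix.mul_apply, Fin.sum_univ_eight]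
  · linear_combination e00
  · linear_combination e01
  · linear_combination e02
  · linear_combination e10
  · linear_combination e11
  · linear_combination e12
  · linear_combination e20
  · linear_combination e21
  · linear_combination e22
  · linear_combination -c' 0 * e10 - c 0 * e00
  · linear_combination -c' 0 * e11 - c 0 * e01
  · linear_combination -c' 0 * e12 - c 0 * e02
  · linear_combination -c' 1 * e10 - c 1 * e00
  · linear_combination -c' 1 * e11 - c 1 * e01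
  · linear_combination -c' 1 * e12 - c 1 * e02

/-- the structure constants -/
def rr (x x' : Fin 3 → k) (G G' : Matrix (Fin 3) (Fin 3) k) (z : Fin 6 × Fin 3) : k :=
  (![![1, 0, 0], ![0, x 0, x 1], ![0, x' 0, x' 1], G *ᵥ x, G *ᵥ x', G' *ᵥ x'] :
    Fin 6 → Fin 3 → k) z.1 z.2

/-- the structure constants -/
def gg (y : Fin 3 → k) (G G' : Matrix (Fin 3) (Fin 3) k) (z : Fin 3 × Fin 3) : k :=
  (![![0, y 0, y 1], G *ᵥ y, G' *ᵥ y] : Fin 3 → Fin 3 → k) z.1 z.2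

theorem conj0 (x x' y : Fin 3 → k) (c c' : Fin 2 → k) (G G' : Matrix (Fin 3) (Fin 3) k) :
    J3221 k * Pm x x' y c c' = Pm x x' y c c' * T143g (rr x x' G G') (gg y G G') 0 := by
  ext i j
  fin_cases i <;> fin_cases j <;>
    simp [J3221, Pm, T143g, rr, gg, Matrix.mul_apply, Fin.sum_univ_eight]

theorem conj1 (x x' y : Fin 3 → k) (c c' : Fin 2 → k) (G G' : Matrix (Fin 3) (Fin 3) k) :
    Bx x c G * Pm x x' y c c' = Pm x x' y c c' * T143g (rr x x' G G') (gg y G G') 1 := by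
  ext i j
  fin_cases i <;> fin_cases j <;>
    simp [Bx, B3221, Pm, T143g, rr, gg, Matrix.mul_apply, Fin.sum_univ_eight, mulVec, dotProduct,
      Fin.sum_univ_three]

theorem conj2 (x x' y : Fin 3 → k) (c c' : Fin 2 → k) (G G' : Matrix (Fin 3) (Fin 3) k)
    (h : G *ᵥ x' = G' *ᵥ x) :
    Bx x' c' G' * Pm x x' y c c' = Pm x x' y c c' * T143g (rr x x' G G') (gg y G G') 2 := by
  have h0 := congrFun h 0
  have h1 := congrFun h 1
  have h2 := congrFun h 2
  simp only [mulVec, dotProduct, Fin.sum_univ_three] at h0 h1 h2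
  ext i j
  fin_cases i <;> fin_cases j <;>
    simp [Bx, B3221, Pm, T143g, rr, gg, Matrix.mul_apply, Fin.sum_univ_eight, mulVec, dotProduct,
      Fin.sum_univ_three]
  · linear_combination -h0
  · linear_combination -h1
  · linear_combination -h2

theorem cl_indep (hcl : ∀ (r : Fin 6 × Fin 3 → k) (g : Fin 3 × Fin 3 → k), Cl (T143g r g))
    {x x' : Fin 3 → k} {c c' : Fin 2 → k} {G G' : Matrix (Fin 3) (Fin 3) k}
    (h : G *ᵥ x' = G' *ᵥ x) (y : Fin 3 → k) (hd : (Matrix.of ![x, x', y]).det ≠ 0) :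
    Cl ![J3221 k, Bx x c G, Bx x' c' G'] := by
  have hu : IsUnit ((Matrix.of ![x, x', y])ᵀ).det := by
    rw [Matrix.det_transpose]
    exact isUnit_iff_ne_zero.2 hd
  have hH := Matrix.nonsing_inv_mul _ hu
  have g1 := Pn_mul (c := c) (c' := c') hH
  have g2 := mul_eq_one_comm.1 g1
  have h1 := Cl.conj _ _ g2 g1 (hcl (rr x x' G G') (gg y G G'))
  have h2 : (fun i => Pm x x' y c c' * T143g (rr x x' G G') (gg y G G') i *
      Pn ((Matrix.of ![x, x', y])ᵀ)⁻¹ c c') = ![J3221 k, Bx x c G, Bx x' c' G'] := by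
    funext i
    fin_cases i
    · show Pm x x' y c c' * T143g (rr x x' G G') (gg y G G') 0 * _ = J3221 k
      rw [← conj0, Matrix.mul_assoc, g2, Matrix.mul_one]
    · show Pm x x' y c c' * T143g (rr x x' G G') (gg y G G') 1 * _ = Bx x c G
      rw [← conj1, Matrix.mul_assoc, g2, Matrix.mul_one]
    · show Pm x x' y c c' * T143g (rr x x' G G') (gg y G G') 2 * _ = Bx x' c' G'
      rw [← conj2 _ _ _ _ _ _ _ h, Matrix.mul_assoc, g2, Matrix.mul_one]
  rwa [h2] at h1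

theorem det_line (x x' y z : Fin 3 → k) (s : k) : (Matrix.of ![x + s • z, x', y]).det =
    (Matrix.of ![x, x', y]).det + (Matrix.of ![z, x', y]).det * s + 0 * s ^ 2 := by
  simp [Matrix.det_fin_three]
  ring

/-- the case `x' ≠ 0` -/
theorem case_ne [Infinite k] {ρ : ℕ → ℕ}
    (hcl : ∀ (r : Fin 6 × Fin 3 → k) (g : Fin 3 × Fin 3 → k), Cl (T143g r g))
    {x x' : Fin 3 → k} {c c' : Fin 2 → k} {G G' : Matrix (Fin 3) (Fin 3) k}
    (hT : MaxR ρ ![J3221 k, Bx x c G, Bx x' c' G']) (hx : x' ≠ 0) : False := by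
  have hrel := Bx_rel (hT.cn.1 1 2)
  obtain ⟨f, hf⟩ : ∃ f : Fin 3 → k, f ⬝ᵥ x' = 1 := by
    obtain ⟨i, hi⟩ := Function.ne_iff.1 hx
    exact ⟨Pi.single i (x' i)⁻¹, by rw [single_dotProduct]; exact inv_mul_cancel₀ hi⟩
  obtain ⟨y, z, hyz⟩ : ∃ y z : Fin 3 → k, (Matrix.of ![z, x', y]).det ≠ 0 := by
    obtain ⟨i, hi⟩ := Function.ne_iff.1 hx
    fin_cases i
    · refine ⟨![0, 1, 0], ![0, 0, 1], ?_⟩
      simpa [Matrix.det_fin_three] using hi
    · refine ⟨![0, 0, 1], ![1, 0, 0], ?_⟩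
      simpa [Matrix.det_fin_three] using hi
    · refine ⟨![1, 0, 0], ![0, 1, 0], ?_⟩
      simpa [Matrix.det_fin_three] using hi
  obtain ⟨s, hs, hT'⟩ := MaxR.line2 hT (Bx z 0 (vecMulVec (G' *ᵥ z) f)) 0 (fun s => by
    rw [Bx_line, smul_zero, add_zero]
    refine Bx_cn ?_
    rw [Matrix.add_mulVec, Matrix.smul_mulVec, Matrix.vecMulVec_mulVec, hf, hrel,
      Matrix.mulVec_add, Matrix.mulVec_smul]
    simp) (finite_quad (Or.inr (Or.inl hyz)) (a := (Matrix.of ![x, x', y]).det) (c := 0))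
  rw [Bx_line, smul_zero, add_zero] at hT'
  refine hT'.ncl (cl_indep hcl (Bx_rel (hT'.cn.1 1 2)) y ?_)
  rw [det_line]
  exact hs

theorem case_all [Infinite k] {ρ : ℕ → ℕ}
    (hcl : ∀ (r : Fin 6 × Fin 3 → k) (g : Fin 3 × Fin 3 → k), Cl (T143g r g))
    {x x' : Fin 3 → k} {c c' : Fin 2 → k} {G G' : Matrix (Fin 3) (Fin 3) k}
    (hT : MaxR ρ ![J3221 k, Bx x c G, Bx x' c' G']) : False := by
  by_cases hx' : x' = 0
  · by_cases hx : x = 0
    · subst hx hx'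
      obtain ⟨y, z, hy, hyz⟩ : ∃ y z : Fin 3 → k, (y ≠ 0 ∨ z ≠ 0) ∧ G *ᵥ z = G' *ᵥ y := by
        by_cases hd : G.det = 0
        · obtain ⟨v, hv, hv'⟩ := Matrix.exists_mulVec_eq_zero_iff.2 hd
          exact ⟨0, v, Or.inr hv, by rw [hv', Matrix.mulVec_zero]⟩
        · refine ⟨![1, 0, 0], G⁻¹ *ᵥ (G' *ᵥ ![1, 0, 0]), Or.inl ?_, ?_⟩
          · intro h
            have := congrFun h 0
            simp at this
          · rw [Matrix.mulVec_mulVec, Matrix.mul_nonsing_inv _ (isUnit_iff_ne_zero.2 hd),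
              Matrix.one_mulVec]
      obtain ⟨s, hs, hT'⟩ := MaxR.line2 hT (Bx y 0 0) (Bx z 0 0) (fun s => by
        rw [Bx_line, Bx_line, smul_zero, add_zero, add_zero, zero_add, zero_add]
        refine Bx_cn ?_
        rw [Matrix.mulVec_smul, Matrix.mulVec_smul, hyz]) (Set.finite_singleton (0 : k))
      rw [Bx_line, Bx_line, smul_zero, add_zero, add_zero, zero_add, zero_add] at hT'
      rcases hy with hy | hy
      · exact case_ne hcl (MaxR.swap hT') (smul_ne_zero hs hy)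
      · exact case_ne hcl hT' (smul_ne_zero hs hy)
    · exact case_ne hcl (MaxR.swap hT) hx
  · exact case_ne hcl hT hx'

end T3221aAux

open T3221aAux in
theorem no_3221a {k : Type*} [Field k] [IsAlgClosed k] [CharZero k] {ρ : ℕ → ℕ}
    (hcl : ∀ (r : Fin 6 × Fin 3 → k) (g : Fin 3 × Fin 3 → k), Cl (T143g r g))
    {a c : Fin 2 → k} {om : k} {d : Fin 2 → k} {N : Matrix (Fin 2) (Fin 2) k} {th : k}
    {e : Fin 2 → k} {a' c' : Fin 2 → k} {om' : k} {d' : Fin 2 → k}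
    {N' : Matrix (Fin 2) (Fin 2) k} {th' : k} {e' : Fin 2 → k}
    (hT : MaxR ρ ![J3221 k, B3221 a c om 0 d N 0 th e, B3221 a' c' om' 0 d' N' 0 th' e']) :
    False := by
  have hk : Infinite k := IsAlgClosed.instInfinite
  rw [Bx_eq, Bx_eq] at hT
  exact case_all hcl hT

end Pool.Agent.Lib.D8
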