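import Pool.Agent.Lib.D8.T3221m
import Pool.Agent.Lib.D8.T134
import Pool.Agent.Lib.D8.T3221a

/-!
Module T3221 (1.5h; black boxes shape3221, r1_3221, r2_3221, no_3221m, no_134, no_3221a). Type (3,2,2,1).
PROOF. shape3221 gives T = (J, B, C), B = B3221 a c om b d N p th e, C = B3221 a' .. . Relations B3221_comm. r1 for B, C, B + C: e (x) p = 3 a (x) b, e' (x) p' = 3 a' (x) b', e (x) p' + e' (x) p = 3 (a (x) b' + a' (x) b); the fifth relation a (x) b' + e (x) p' = a' (x) b + e' (x) p; together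
(*) e (x) p' = a (x) b' + 2 a' (x) b, e' (x) p = a' (x) b + 2 a (x) b'.
If a, a' are independent: b = b' = 0 (if b ≠ 0: e (x) p = 3 a (x) b ≠ 0, so e parallel to a; then the image of e (x) p' lies in k a but that of a (x) b' + 2 a' (x) b does not; same for b'). If dependent: MaxR.lin => a' = 0. If a ≠ 0: b' = 0 (otherwise a (x) b' ≠ 0, (*) gives e' ≠ 0, p' ≠ 0, but e' (x) p' = 3 a' (x) b' = 0).
If moreover b ≠ 0: e' (x) p = 0, e (x) p' = 0 by (*) and e, p ≠ 0, so e' = p' = 0: no_3221m. So from now on (a = a' = 0) or (b = b' = 0). By duality (maxR_dual with P3221, B3221_dual: exchanges (a, c, om, p) and (b, d, th, e), N -> N^T) WLOG b = b' = 0.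
Then e_i (x) p_j = 0 for all four pairs by r1 and (*), so e = e' = 0 or p = p' = 0. If p = p' = 0: no_3221a. If e = e' = 0 and a = a' = 0: dual of the case b = p = 0: no_3221a for the dual triple. Otherwise e = e' = 0, (a, a') ≠ 0, (p, p') ≠ 0 (no_3221b):
 sixth relation: th p' = th' p. If th = th' = 0: no_134. Otherwise MaxR.lin => th' = 0, th ≠ 0, so p' = 0, p ≠ 0. Third relation: N a' = N' a. Family: e -> s x (x = (1, 0)), e' = 0, and if a' ≠ 0: N -> N - s om' x (x) φ, φ · a' = 1; if a' = 0 (then a ≠ 0): N' -> N' + s om' x (x) φ, φ · a = 1.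
 CN for all s (third relation N a' + om' e = N' a + om e'; fifth: e (x) p' = e' (x) p = 0; others unchanged). For a MaxR member with s ≠ 0: r1: s x (x) p = 3 a (x) b = 0, contradiction to p ≠ 0.
-/

namespace Pool.Agent.Lib.D8

open Matrix Pool.Agent.Lib.Q5dc Pool.Agent.Lib.D7

namespace T3221Aux

variable {k : Type*} [Field k] {ρ : ℕ → ℕ}

section

variable {a c : Fin 2 → k} {om : k} {b d : Fin 2 → k} {N : Matrix (Fin 2) (Fin 2) k}
  {p : Fin 2 → k} {th : k} {e : Fin 2 → k}
  {a' c' : Fin 2 → k} {om' : k} {b' d' : Fin 2 → k} {N' : Matrix (Fin 2) (Fin 2) k}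
  {p' : Fin 2 → k} {th' : k} {e' : Fin 2 → k}

/-- `C -> C + t B` -/
theorem addt
    (hT : MaxR ρ ![J3221 k, B3221 a c om b d N p th e, B3221 a' c' om' b' d' N' p' th' e'])
    (t : k) :
    MaxR ρ ![J3221 k, B3221 a c om b d N p th e,
      B3221 (a' + t • a) (c' + t • c) (om' + t * om) (b' + t • b) (d' + t • d) (N' + t • N)
        (p' + t • p) (th' + t * th) (e' + t • e)] := by
  have h := Pool.Agent.Lib.D8.MaxR.lin hT 1 0 t 1 0 0 0 0 (by simp)
  have e1 : (1 : k) • B3221 a c om b d N p th e + (0 : k) • B3221 a' c' om' b' d' N' p' th' e' +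
      (0 : k) • J3221 k + (0 : k) • (J3221 k * J3221 k) = B3221 a c om b d N p th e := by
    simp
  have e2 : t • B3221 a c om b d N p th e + (1 : k) • B3221 a' c' om' b' d' N' p' th' e' +
      (0 : k) • J3221 k + (0 : k) • (J3221 k * J3221 k) =
      B3221 (a' + t • a) (c' + t • c) (om' + t * om) (b' + t • b) (d' + t • d) (N' + t • N)
        (p' + t • p) (th' + t * th) (e' + t • e) := by
    rw [one_smul, zero_smul, zero_smul, add_zero, add_zero, add_comm, B3221_smul, B3221_add]
  rwa [e1, e2] at h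

theorem rels
    (hT : MaxR ρ ![J3221 k, B3221 a c om b d N p th e, B3221 a' c' om' b' d' N' p' th' e']) :
      b ⬝ᵥ a' = b' ⬝ᵥ a ∧
      d ⬝ᵥ a' + b ⬝ᵥ c' + om' * th = d' ⬝ᵥ a + b' ⬝ᵥ c + om * th' ∧
      N *ᵥ a' + om' • e = N' *ᵥ a + om • e' ∧
      p ⬝ᵥ a' = p' ⬝ᵥ a ∧
      vecMulVec a b' + vecMulVec e p' = vecMulVec a' b + vecMulVec e' p ∧
      b ᵥ* N' + th • p' = b' ᵥ* N + th' • p ∧
      b ⬝ᵥ e' = b' ⬝ᵥ e := by
  rw [← B3221_comm a c om b d N p th e a' c' om' b' d' N' p' th' e']
  exact hT.cn.1 1 2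

/-- the dual triple -/
theorem dual
    (hT : MaxR ρ ![J3221 k, B3221 a c om b d N p th e, B3221 a' c' om' b' d' N' p' th' e']) :
    MaxR ρ ![J3221 k, B3221 b d th a c Nᵀ e om p, B3221 b' d' th' a' c' N'ᵀ e' om' p'] := by
  refine maxR_dual (P3221 k) P3221_sq hT fun i => ?_
  fin_cases i
  · exact J3221_dual
  · exact B3221_dual _ _ _ _ _ _ _ _ _
  · exact B3221_dual _ _ _ _ _ _ _ _ _

variable [CharZero k]

/-- the rank conditions for `B`, `C` -/
theorem rk1 (h2 : ρ 2 ≤ 1)
    (hT : MaxR ρ ![J3221 k, B3221 a c om b d N p th e, B3221 a' c' om' b' d' N' p' th' e'])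
    (i j : Fin 2) : e i * p j = 3 * (a i * b j) ∧ e' i * p' j = 3 * (a' i * b' j) ∧
      e i * p' j = a i * b' j + 2 * (a' i * b j) ∧ e' i * p j = 2 * (a i * b' j) + a' i * b j := by
  have hA := mem0 (J3221 k) (B3221 a c om b d N p th e) (B3221 a' c' om' b' d' N' p' th' e')
  have hB := mem1 (J3221 k) (B3221 a c om b d N p th e) (B3221 a' c' om' b' d' N' p' th' e')
  have hC := mem2 (J3221 k) (B3221 a c om b d N p th e) (B3221 a' c' om' b' d' N' p' th' e')
  have hBC := add_mem hB hC
  rw [B3221_add] at hBC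
  have r1 := r1_3221 hT h2 hA hB i j
  have r2 := r1_3221 hT h2 hA hC i j
  have r3 := r1_3221 hT h2 hA hBC i j
  obtain ⟨_, _, _, _, c5, _, _⟩ := rels hT
  have c5' := congrFun (congrFun c5 i) j
  simp only [Matrix.add_apply, vecMulVec_apply] at c5'
  simp only [Pi.add_apply] at r3
  refine ⟨r1, r2, ?_, ?_⟩
  · have h : 2 * (e i * p' j) = 2 * (a i * b' j + 2 * (a' i * b j)) := by
      linear_combination r3 - r1 - r2 + c5'
    exact mul_left_cancel₀ two_ne_zero h
  · have h : 2 * (e' i * p j) = 2 * (2 * (a i * b' j) + a' i * b j) := by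
      linear_combination r3 - r1 - r2 - c5'
    exact mul_left_cancel₀ two_ne_zero h

omit [CharZero k] in
/-- a product of two vectors -/
theorem prod_zero {x y : Fin 2 → k} (h : ∀ i j, x i * y j = 0) : x = 0 ∨ y = 0 := by
  by_cases hx : x = 0
  · exact Or.inl hx
  · right
    obtain ⟨i, hi⟩ : ∃ i, x i ≠ 0 := by
      by_contra h0
      push Not at h0
      exact hx (funext h0)
    funext j
    exact (mul_eq_zero.1 (h i j)).resolve_left hi

omit [CharZero k] in
theorem exists_dual {x : Fin 2 → k} (hx : x ≠ 0) : ∃ φ : Fin 2 → k, φ ⬝ᵥ x = 1 := by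
  obtain ⟨i, hi⟩ : ∃ i, x i ≠ 0 := by
    by_contra h0
    push Not at h0
    exact hx (funext h0)
  refine ⟨Pi.single i (x i)⁻¹, ?_⟩
  rw [single_dotProduct, inv_mul_cancel₀ hi]

end

section

variable [CharZero k]

/-- the case `e = e' = b = b' = p' = 0`, `th' = 0`, `p ≠ 0` -/
theorem caseB1 (h2 : ρ 2 ≤ 1)
    {a c : Fin 2 → k} {om : k} {d : Fin 2 → k} {N : Matrix (Fin 2) (Fin 2) k}
    {p : Fin 2 → k} {th : k}
    {a' c' : Fin 2 → k} {om' : k} {d' : Fin 2 → k} {N' : Matrix (Fin 2) (Fin 2) k}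
    (hT : MaxR ρ ![J3221 k, B3221 a c om 0 d N p th 0, B3221 a' c' om' 0 d' N' 0 0 0])
    (ha : a ≠ 0 ∨ a' ≠ 0) (hp : p ≠ 0) : False := by
  obtain ⟨-, c2, c3, c4, -, -, -⟩ := rels hT
  have key : ∃ N1 N1' : Matrix (Fin 2) (Fin 2) k, ∀ s : k,
      (N + s • N1) *ᵥ a' + om' • (s • (![1, 0] : Fin 2 → k)) = (N' + s • N1') *ᵥ a := by
    by_cases ha' : a' = 0
    · obtain ⟨φ, hφ⟩ := exists_dual (ha.resolve_right (fun h => h ha'))
      refine ⟨0, om' • vecMulVec ![1, 0] φ, fun s => ?_⟩
      subst ha'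
      rw [mulVec_zero, zero_add, smul_zero, smul_zero, add_zero] at c3
      rw [mulVec_zero, zero_add, add_mulVec, ← c3, zero_add, smul_mulVec, smul_mulVec,
        vecMulVec_mulVec, hφ]
      simp [mul_comm]
    · obtain ⟨φ, hφ⟩ := exists_dual ha'
      refine ⟨-(om' • vecMulVec ![1, 0] φ), 0, fun s => ?_⟩
      rw [smul_zero, smul_zero, add_zero, add_zero] at c3
      rw [smul_zero, add_zero, add_mulVec, ← c3, smul_neg, neg_mulVec, smul_mulVec, smul_mulVec,
        vecMulVec_mulVec, hφ]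
      simp [mul_comm]
  obtain ⟨N1, N1', hN⟩ := key
  obtain ⟨s, hs, hTs⟩ := Pool.Agent.Lib.D8.MaxR.line2 hT
    (B3221 0 0 0 0 0 N1 0 0 ![1, 0]) (B3221 0 0 0 0 0 N1' 0 0 0) (fun s => by
      rw [B3221_smul, B3221_add, B3221_smul, B3221_add]
      apply B3221_cn
      · simp
      · simpa using c2
      · simpa using hN s
      · simpa using c4
      · simp
      · simp
      · simp) (Set.finite_singleton 0)
  rw [B3221_smul, B3221_add, B3221_smul, B3221_add] at hTs
  have hs0 : s ≠ 0 := hs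
  apply hp
  funext j
  have h := (rk1 h2 hTs 0 j).1
  simpa [hs0] using h

end

section

variable [IsAlgClosed k] [CharZero k]

/-- the case `b = b' = 0`, `e = e' = 0` -/
theorem caseB (h2 : ρ 2 ≤ 1) (h3 : ρ 3 = 0)
    {a c : Fin 2 → k} {om : k} {d : Fin 2 → k} {N : Matrix (Fin 2) (Fin 2) k}
    {p : Fin 2 → k} {th : k}
    {a' c' : Fin 2 → k} {om' : k} {d' : Fin 2 → k} {N' : Matrix (Fin 2) (Fin 2) k}
    {p' : Fin 2 → k} {th' : k}
    (hT : MaxR ρ ![J3221 k, B3221 a c om 0 d N p th 0, B3221 a' c' om' 0 d' N' p' th' 0])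
    (ha : a ≠ 0 ∨ a' ≠ 0) (hp : p ≠ 0 ∨ p' ≠ 0) : False := by
  have main : ∀ {a c : Fin 2 → k} {om : k} {d : Fin 2 → k} {N : Matrix (Fin 2) (Fin 2) k}
      {p : Fin 2 → k} {th : k}
      {a' c' : Fin 2 → k} {om' : k} {d' : Fin 2 → k} {N' : Matrix (Fin 2) (Fin 2) k}
      {p' : Fin 2 → k} {th' : k},
      MaxR ρ ![J3221 k, B3221 a c om 0 d N p th 0, B3221 a' c' om' 0 d' N' p' th' 0] →
      (a ≠ 0 ∨ a' ≠ 0) → (p ≠ 0 ∨ p' ≠ 0) → th ≠ 0 → False := by
    intro a c om d N p th a' c' om' d' N' p' th' hT ha hp hth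
    have h := addt hT (-(th' * th⁻¹))
    have e1 : th' + -(th' * th⁻¹) * th = 0 := by
      field_simp
      ring
    rw [e1, smul_zero, add_zero] at h
    obtain ⟨-, -, -, -, -, c6, -⟩ := rels h
    rw [zero_vecMul, zero_vecMul, zero_smul, add_zero, zero_add, smul_eq_zero] at c6
    have hp' := c6.resolve_left hth
    rw [hp'] at h
    refine caseB1 h2 h ?_ ?_
    · rcases ha with ha | ha
      · exact Or.inl ha
      · by_cases ha0 : a = 0
        · right
          rw [ha0, smul_zero, add_zero]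
          exact ha
        · exact Or.inl ha0
    · rcases hp with hp | hp
      · exact hp
      · intro hp0
        rw [hp0, smul_zero, add_zero] at hp'
        exact hp hp'
  by_cases hth : th = 0
  · by_cases hth' : th' = 0
    · subst hth hth'
      exact no_134 h3 hT ha
    · exact main (Pool.Agent.Lib.D8.MaxR.swap hT) ha.symm hp.symm hth'
  · exact main hT ha hp hth

/-- the case `b = b' = 0` -/
theorem caseb0 (h2 : ρ 2 ≤ 1) (h3 : ρ 3 = 0)
    (hcl : ∀ (r : Fin 6 × Fin 3 → k) (g : Fin 3 × Fin 3 → k), Cl (T143g r g))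
    {a c : Fin 2 → k} {om : k} {d : Fin 2 → k} {N : Matrix (Fin 2) (Fin 2) k}
    {p : Fin 2 → k} {th : k} {e : Fin 2 → k}
    {a' c' : Fin 2 → k} {om' : k} {d' : Fin 2 → k} {N' : Matrix (Fin 2) (Fin 2) k}
    {p' : Fin 2 → k} {th' : k} {e' : Fin 2 → k}
    (hT : MaxR ρ ![J3221 k, B3221 a c om 0 d N p th e, B3221 a' c' om' 0 d' N' p' th' e']) :
    False := by
  have r := rk1 h2 hT
  simp only [Pi.zero_apply, mul_zero, add_zero] at r
  by_cases hp : p = 0 ∧ p' = 0
  · obtain ⟨rfl, rfl⟩ := hp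
    exact no_3221a hcl hT
  · have hp' : p ≠ 0 ∨ p' ≠ 0 := by
      by_contra h
      push Not at h
      exact hp h
    have he : e = 0 := by
      rcases hp' with h | h
      · exact (prod_zero fun i j => (r i j).1).resolve_right h
      · exact (prod_zero fun i j => (r i j).2.2.1).resolve_right h
    have he' : e' = 0 := by
      rcases hp' with h | h
      · exact (prod_zero fun i j => (r i j).2.2.2).resolve_right h
      · exact (prod_zero fun i j => (r i j).2.1).resolve_right h
    subst he he'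
    by_cases ha : a = 0 ∧ a' = 0
    · obtain ⟨rfl, rfl⟩ := ha
      exact no_3221a hcl (dual hT)
    · refine caseB h2 h3 hT ?_ hp'
      by_contra h
      push Not at h
      exact ha h

/-- the case `a' = 0` -/
theorem casea' (h1 : ρ 1 ≤ 4) (h2 : ρ 2 ≤ 1) (h3 : ρ 3 = 0)
    (hcl : ∀ (r : Fin 6 × Fin 3 → k) (g : Fin 3 × Fin 3 → k), Cl (T143g r g))
    {a c : Fin 2 → k} {om : k} {b d : Fin 2 → k} {N : Matrix (Fin 2) (Fin 2) k}
    {p : Fin 2 → k} {th : k} {e : Fin 2 → k}
    {c' : Fin 2 → k} {om' : k} {b' d' : Fin 2 → k} {N' : Matrix (Fin 2) (Fin 2) k}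
    {p' : Fin 2 → k} {th' : k} {e' : Fin 2 → k}
    (hT : MaxR ρ ![J3221 k, B3221 a c om b d N p th e, B3221 0 c' om' b' d' N' p' th' e']) :
    False := by
  have r := rk1 h2 hT
  simp only [Pi.zero_apply, zero_mul, mul_zero, add_zero] at r
  by_cases ha : a = 0
  · subst ha
    exact caseb0 h2 h3 hcl (dual hT)
  · have hb' : b' = 0 := by
      by_contra hb'
      have h4 : ¬ (a = 0 ∨ b' = 0) := by
        rintro (h | h)
        · exact ha h
        · exact hb' h
      have hp' : p' ≠ 0 := by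
        intro h0
        apply h4
        refine prod_zero fun i j => ?_
        have := (r i j).2.2.1
        rw [h0, Pi.zero_apply, mul_zero] at this
        exact this.symm
      have he' : e' ≠ 0 := by
        intro h0
        apply h4
        refine prod_zero fun i j => ?_
        have := (r i j).2.2.2
        rw [h0, Pi.zero_apply, zero_mul] at this
        exact (mul_eq_zero.1 this.symm).resolve_left two_ne_zero
      rcases prod_zero (x := e') (y := p') fun i j => (r i j).2.1 with h | h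
      · exact he' h
      · exact hp' h
    subst hb'
    by_cases hb : b = 0
    · subst hb
      exact caseb0 h2 h3 hcl hT
    · simp only [Pi.zero_apply, mul_zero] at r
      have h4 : ¬ (a = 0 ∨ b = 0) := by
        rintro (h | h)
        · exact ha h
        · exact hb h
      have he : e ≠ 0 := by
        intro h0
        apply h4
        refine prod_zero fun i j => ?_
        have := (r i j).1
        rw [h0, Pi.zero_apply, zero_mul] at this
        exact (mul_eq_zero.1 this.symm).resolve_left three_ne_zero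
      have hp : p ≠ 0 := by
        intro h0
        apply h4
        refine prod_zero fun i j => ?_
        have := (r i j).1
        rw [h0, Pi.zero_apply, mul_zero] at this
        exact (mul_eq_zero.1 this.symm).resolve_left three_ne_zero
      have hp' : p' = 0 := (prod_zero fun i j => (r i j).2.2.1).resolve_left he
      have he' : e' = 0 := (prod_zero fun i j => (r i j).2.2.2).resolve_right hp
      subst hp' he'
      exact no_3221m h1 h2 hT ha hb

end

end T3221Aux

open T3221Aux

theorem no_3221 {k : Type*} [Field k] [IsAlgClosed k] [CharZero k] {ρ : ℕ → ℕ}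
    (hcl : ∀ (r : Fin 6 × Fin 3 → k) (g : Fin 3 × Fin 3 → k), Cl (T143g r g))
    {T : Fin 3 → Matrix (Fin 8) (Fin 8) k} (hT : MaxR ρ T)
    (hρ : ∀ i, ρ i = (J3221 k ^ i).rank) (h0 : T 0 = J3221 k) : False := by
  have h1 : ρ 1 ≤ 4 := by
    rw [hρ, pow_one]
    exact J3221_rank
  have h2 : ρ 2 ≤ 1 := by
    rw [hρ]
    exact J3221_rank_sq
  have h3 : ρ 3 = 0 := by
    rw [hρ, J3221_cube, Matrix.rank_zero]
  obtain ⟨a, c, om, b, d, N, p, th, e, a', c', om', b', d', N', p', th', e', hT'⟩ :=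
    shape3221 hT hρ h0
  by_cases hdet : a 0 * a' 1 - a 1 * a' 0 = 0
  · by_cases ha : a = 0
    · subst ha
      exact casea' h1 h2 h3 hcl (Pool.Agent.Lib.D8.MaxR.swap hT')
    · obtain ⟨i, hi⟩ : ∃ i, a i ≠ 0 := by
        by_contra h
        push Not at h
        exact ha (funext h)
      have h := addt hT' (-(a' i * (a i)⁻¹))
      have e1 : a' + -(a' i * (a i)⁻¹) • a = 0 := by
        funext j
        simp only [Pi.add_apply, Pi.smul_apply, smul_eq_mul, Pi.zero_apply]
        have hd : a' j * a i = a' i * a j := by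
          fin_cases i <;> fin_cases j <;> simp <;>
            first | linear_combination hdet | linear_combination -hdet
        field_simp
        linear_combination hd
      rw [e1] at h
      exact casea' h1 h2 h3 hcl h
  · have r := rk1 h2 hT'
    have hb : b = 0 := by
      funext j
      have r0 := r 0 j
      have r1 := r 1 j
      have h : 6 * (b j * b j) * (a 0 * a' 1 - a 1 * a' 0) = 0 := by
        linear_combination (-(e 1 * p' j)) * r0.1 + (-(3 * (a 0 * b j))) * r1.2.2.1 +
          (e 0 * p' j) * r1.1 + (3 * (a 1 * b j)) * r0.2.2.1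
      rcases mul_eq_zero.1 h with h | h
      · rcases mul_eq_zero.1 h with h | h
        · norm_num at h
        · simpa using h
      · exact absurd h hdet
    have hb' : b' = 0 := by
      funext j
      have r0 := r 0 j
      have r1 := r 1 j
      have h : 6 * (b' j * b' j) * (a 0 * a' 1 - a 1 * a' 0) = 0 := by
        linear_combination (e' 1 * p j) * r0.2.1 + (3 * (a' 0 * b' j)) * r1.2.2.2 -
          (e' 0 * p j) * r1.2.1 - (3 * (a' 1 * b' j)) * r0.2.2.2
      rcases mul_eq_zero.1 h with h | h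
      · rcases mul_eq_zero.1 h with h | h
        · norm_num at h
        · simpa using h
      · exact absurd h hdet
    subst hb hb'
    exact caseb0 h2 h3 hcl hT'

end Pool.Agent.Lib.D8
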