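import Pool.Agent.Lib.D8.T3311I

/-!
# MP_5dcbc3_ag: commuting nilpotent triples of 8 x 8 matrices, type (3, 3, 1, 1)
-/

namespace Pool.Agent.Lib.D8

open Matrix Pool.Agent.Lib.Q5dc Pool.Agent.Lib.D7

namespace T3311Aux

variable {k : Type*} [Field k]

/-- the part `P -> P` -/
def Nu (v : Matrix (Fin 2) (Fin 2) k) : Matrix (Fin 8) (Fin 8) k :=
  !![0, 0, 0, 0, 0, 0, 0, 0;
     0, 0, 0, 0, 0, 0, 0, 0;
     0, 0, 0, 0, 0, 0, 0, 0;
     0, 0, 0, 0, 0, 0, 0, 0;
     0, 0, 0, 0, 0, 0, 0, 0;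
     0, 0, 0, 0, 0, 0, 0, 0;
     0, 0, 0, 0, 0, 0, v 0 0, v 0 1;
     0, 0, 0, 0, 0, 0, v 1 0, v 1 1]

theorem J3311_sq : J3311 k * J3311 k =
    !![0, 0, 0, 0, 0, 0, 0, 0;
     0, 0, 0, 0, 0, 0, 0, 0;
     1, 0, 0, 0, 0, 0, 0, 0;
     0, 0, 0, 0, 0, 0, 0, 0;
     0, 0, 0, 0, 0, 0, 0, 0;
     0, 0, 0, 1, 0, 0, 0, 0;
     0, 0, 0, 0, 0, 0, 0, 0;
     0, 0, 0, 0, 0, 0, 0, 0] := by
  ext i j
  fin_cases i <;> fin_cases j <;> simp [J3311, Matrix.mul_apply, Fin.sum_univ_eight]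

theorem shape0 {X : Matrix (Fin 8) (Fin 8) k} (hc : J3311 k * X = X * J3311 k)
    (h2 : J3311 k * J3311 k * X = 0) :
    ∃ N M W T v : Matrix (Fin 2) (Fin 2) k, X = B3311 N M W T + Nu v := by
  have H : ∀ i j, (J3311 k * X) i j = (X * J3311 k) i j := by
    intro i j
    rw [hc]
  have K : ∀ i j, (J3311 k * J3311 k * X) i j = 0 := by
    intro i j
    rw [h2]
    rfl
  rw [J3311_sq] at K
  have r0 : ∀ j, X 0 j = 0 := by
    intro j
    have h := K 2 j
    simpa [Matrix.mul_apply, Fin.sum_univ_eight] using h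
  have r3 : ∀ j, X 3 j = 0 := by
    intro j
    have h := K 5 j
    simpa [Matrix.mul_apply, Fin.sum_univ_eight] using h
  have a60 := H 6 0
  have a61 := H 6 1
  have a63 := H 6 3
  have a64 := H 6 4
  have a70 := H 7 0
  have a71 := H 7 1
  have a73 := H 7 3
  have a74 := H 7 4
  have a10 := H 1 0
  have a11 := H 1 1
  have a13 := H 1 3
  have a14 := H 1 4
  have a40 := H 4 0
  have a41 := H 4 1
  have a43 := H 4 3
  have a44 := H 4 4
  have a20 := H 2 0
  have a21 := H 2 1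
  have a23 := H 2 3
  have a24 := H 2 4
  have a26 := H 2 6
  have a27 := H 2 7
  have a50 := H 5 0
  have a51 := H 5 1
  have a53 := H 5 3
  have a54 := H 5 4
  have a56 := H 5 6
  have a57 := H 5 7
  simp [J3311, Matrix.mul_apply, Fin.sum_univ_eight, r0, r3] at a60 a61 a63 a64 a70 a71 a73 a74 a10 a11 a13 a14 a40 a41 a43 a44 a20 a21 a23 a24 a26 a27 a50 a51 a53 a54 a56 a57
  refine ⟨!![X 1 0, X 1 3; X 4 0, X 4 3], !![X 2 0, X 2 3; X 5 0, X 5 3],
    !![X 6 0, X 6 3; X 7 0, X 7 3], !![X 2 6, X 2 7; X 5 6, X 5 7],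
    !![X 6 6, X 6 7; X 7 6, X 7 7], ?_⟩
  ext i j
  fin_cases i <;> fin_cases j <;> simp [B3311, Nu, r0, r3, ← a60, ← a61, ← a63, ← a64, ← a70,
    ← a71, ← a73, ← a74, ← a10, ← a11, ← a13, ← a14, ← a40, ← a41, ← a43, ← a44, ← a20, ← a21,
    ← a23, ← a24, a26, a27, ← a50, ← a51, ← a53, ← a54, a56, a57]

theorem det5 (a b c d m1 m2 m3 m4 t0 t1 w0 w1 v : k) :
    (!![a, 0, b, 0, 0; m1, a, m2, b, t0; c, 0, d, 0, 0; m3, c, m4, d, t1;
      w0, 0, w1, 0, v] : Matrix (Fin 5) (Fin 5) k).det = v * (a * d - b * c) ^ 2 := by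
  simp [Matrix.det_succ_row_zero, Fin.sum_univ_succ, Fin.succAbove, Matrix.submatrix_apply]
  ring

theorem minor5 (N M W T v : Matrix (Fin 2) (Fin 2) k) (s : k) (i j : Fin 2) :
    ((J3311 k + s • (B3311 N M W T + Nu v)).submatrix ![1, 2, 4, 5, ![6, 7] i]
      ![0, 1, 3, 4, ![6, 7] j]).det =
      (s * v i j) * ((1 + s * N 0 0) * (1 + s * N 1 1) - (s * N 0 1) * (s * N 1 0)) ^ 2 := by
  rw [← det5 (1 + s * N 0 0) (s * N 0 1) (s * N 1 0) (1 + s * N 1 1) (s * M 0 0) (s * M 0 1)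
    (s * M 1 0) (s * M 1 1) (s * T 0 j) (s * T 1 j) (s * W i 0) (s * W i 1) (s * v i j)]
  congr 1
  ext x y
  fin_cases i <;> fin_cases j <;> fin_cases x <;> fin_cases y <;> simp [J3311, B3311, Nu]

theorem conj3 (A B C g h : Matrix (Fin 8) (Fin 8) k) :
    (fun i => g * (![A, B, C] : Fin 3 → Matrix (Fin 8) (Fin 8) k) i * h) =
      ![g * A * h, g * B * h, g * C * h] := by
  funext i
  fin_cases i <;> rfl

theorem dual3 {P A B C A' B' C' : Matrix (Fin 8) (Fin 8) k} (hA : P * Aᵀ * P = A')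
    (hB : P * Bᵀ * P = B') (hC : P * Cᵀ * P = C') (i : Fin 3) :
    P * ((![A, B, C] : Fin 3 → Matrix (Fin 8) (Fin 8) k) i)ᵀ * P =
      (![A', B', C'] : Fin 3 → Matrix (Fin 8) (Fin 8) k) i := by
  fin_cases i
  exacts [hA, hB, hC]

theorem row {W : Matrix (Fin 2) (Fin 2) k} (e : W 0 0 * W 1 1 - W 0 1 * W 1 0 = 0)
    (i l : Fin 2) : W l 1 * W i 0 = W l 0 * W i 1 := by
  fin_cases i <;> fin_cases l
  · exact mul_comm _ _
  · show W 1 1 * W 0 0 = W 1 0 * W 0 1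
    linear_combination e
  · show W 0 1 * W 1 0 = W 0 0 * W 1 1
    linear_combination -e
  · exact mul_comm _ _

variable {ρ : ℕ → ℕ}

/-- the relation -/
theorem rel {N M W T N' M' W' T' : Matrix (Fin 2) (Fin 2) k}
    (hT : MaxR ρ ![J3311 k, B3311 N M W T, B3311 N' M' W' T']) :
    N * N' + T * W' = N' * N + T' * W :=
  (B3311_comm N M W T N' M' W' T').1 (hT.cn.1 1 2)

variable [IsAlgClosed k] [CharZero k]

theorem shape {T : Fin 3 → Matrix (Fin 8) (Fin 8) k} (hT : MaxR ρ T)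
    (hρ : ∀ i, ρ i = (J3311 k ^ i).rank) (h0 : T 0 = J3311 k) {X : Matrix (Fin 8) (Fin 8) k}
    (hX : X ∈ adj T) : ∃ N M W S : Matrix (Fin 2) (Fin 2) k, X = B3311 N M W S := by
  have hJ : J3311 k ∈ adj T := by
    rw [← h0]
    exact mem_adj T 0
  have h3 : ρ 3 = 0 := by
    rw [hρ, J3311_cube, Matrix.rank_zero]
  have h1 : ρ 1 ≤ 4 := by
    rw [hρ, pow_one]
    exact J3311_rank
  have hc := hT.cn.comm hJ hX
  have h2 := mul3 hT h3 hJ hJ hX
  obtain ⟨N, M, W, S, v, rfl⟩ := shape0 hc h2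
  have hfin : ({s : k | 1 + (N 0 0 + N 1 1) * s + (N 0 0 * N 1 1 - N 0 1 * N 1 0) * s ^ 2 = 0} ∪
      {0}).Finite := (finite_quad (Or.inl one_ne_zero)).union (Set.finite_singleton 0)
  obtain ⟨s, hs⟩ := hfin.infinite_compl.nonempty
  rw [Set.mem_compl_iff, Set.mem_union, not_or, Set.mem_ofPred_eq, Set.mem_singleton_iff] at hs
  have hv : v = 0 := by
    ext i j
    by_contra hne
    have hr := hT.rank_le (add_mem hJ (SMulMemClass.smul_mem s hX)) 1
    rw [pow_one] at hr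
    have h5 : 5 ≤ (J3311 k + s • (B3311 N M W S + Nu v)).rank := by
      refine le_rank_of_minor _ ![1, 2, 4, 5, ![6, 7] i] ![0, 1, 3, 4, ![6, 7] j] ?_
      rw [minor5]
      refine mul_ne_zero (mul_ne_zero hs.2 hne) (pow_ne_zero _ ?_)
      intro h
      apply hs.1
      rw [← h]
      ring
    omega
  refine ⟨N, M, W, S, ?_⟩
  rw [hv]
  ext i j
  fin_cases i <;> fin_cases j <;> simp [Nu]

/-- `W` invertible -/
theorem inv (hcl : ∀ G : Fin 6 × Fin 2 → k, Cl (TG G))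
    {N M W T N' M' W' T' : Matrix (Fin 2) (Fin 2) k}
    (hT : MaxR ρ ![J3311 k, B3311 N M W T, B3311 N' M' W' T']) (hd : W.det ≠ 0) : False := by
  have hu : IsUnit W.det := isUnit_iff_ne_zero.2 hd
  have h1 : W⁻¹ * W = 1 := Matrix.nonsing_inv_mul W hu
  have h2 : W * W⁻¹ = 1 := Matrix.mul_nonsing_inv W hu
  have h3 := hT.conj (G3311 1 W⁻¹) (G3311 1 W)
    (by rw [G3311_mul, h1, mul_one, G3311_one]) (by rw [G3311_mul, h2, mul_one, G3311_one])
  rw [conj3, G3311_J 1 1 W⁻¹ W (mul_one 1), G3311_conj, G3311_conj] at h3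
  simp only [one_mul, mul_one, h1] at h3
  exact no_3311I hcl h3

/-- some linear combination of `W, W'` is invertible -/
theorem lin (hcl : ∀ G : Fin 6 × Fin 2 → k, Cl (TG G))
    {N M W T N' M' W' T' : Matrix (Fin 2) (Fin 2) k}
    (hT : MaxR ρ ![J3311 k, B3311 N M W T, B3311 N' M' W' T']) (x y : k)
    (hd : (x • W + y • W').det ≠ 0) : False := by
  have key : ∀ c d : k, x * d - y * c ≠ 0 → False := by
    intro c d h
    have h1 := MaxR.lin hT x y c d 0 0 0 0 h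
    simp only [zero_smul, add_zero, B3311_smul, B3311_add] at h1
    exact inv hcl h1 hd
  by_cases hx : x = 0
  · by_cases hy : y = 0
    · apply hd
      rw [hx, hy]
      simp
    · exact key 1 0 (by simpa using hy)
  · exact key 0 1 (by simpa using hx)

/-- common image of `W, W'` -/
theorem common (hcl : ∀ G : Fin 6 × Fin 2 → k, Cl (TG G))
    {N M T N' M' T' : Matrix (Fin 2) (Fin 2) k} {om ph ps : Fin 2 → k}
    (hT : MaxR ρ ![J3311 k, B3311 N M (vecMulVec om ph) T, B3311 N' M' (vecMulVec om ps) T'])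
    (hom : om ≠ 0) (hi : ph 0 * ps 1 - ph 1 * ps 0 ≠ 0) : False := by
  obtain ⟨nu, pi, h1, h2, h3⟩ : ∃ nu pi : Fin 2 → k, pi ⬝ᵥ om = 1 ∧ pi ⬝ᵥ nu = 0 ∧
      om 0 * nu 1 - om 1 * nu 0 ≠ 0 := by
    by_cases h : om 0 = 0
    · have h' : om 1 ≠ 0 := by
        intro h'
        apply hom
        ext i
        fin_cases i
        · exact h
        · exact h'
      refine ⟨![1, 0], ![0, (om 1)⁻¹], ?_, ?_, ?_⟩ <;> simp [dotProduct, Fin.sum_univ_two, h']
    · refine ⟨![0, 1], ![(om 0)⁻¹, 0], ?_, ?_, ?_⟩ <;> simp [dotProduct, Fin.sum_univ_two, h]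
  have hr := rel hT
  obtain ⟨s, hs, h4⟩ := MaxR.line2 hT (B3311 0 0 (vecMulVec nu ps) (vecMulVec (T' *ᵥ nu) pi))
    (B3311 0 0 0 0) (fun s => by
      rw [B3311_smul, B3311_add, B3311_smul, B3311_add]
      refine B3311_cn ?_
      simp only [smul_zero, add_zero]
      have e1 : (s • vecMulVec (T' *ᵥ nu) pi) * vecMulVec om ps =
          T' * (s • vecMulVec nu ps) := by
        rw [smul_mul_assoc, mul_smul_comm, Matrix.vecMulVec_mul_vecMulVec, h1,
          Matrix.mul_vecMulVec, one_smul]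
      rw [add_mul, mul_add T', e1, ← add_assoc, hr, add_assoc]) (Set.finite_singleton (0 : k))
  rw [B3311_smul, B3311_add, B3311_smul, B3311_add] at h4
  simp only [smul_zero, add_zero] at h4
  refine inv hcl h4 ?_
  have e : (vecMulVec om ph + s • vecMulVec nu ps).det =
      s * (om 0 * nu 1 - om 1 * nu 0) * (ph 0 * ps 1 - ph 1 * ps 0) := by
    rw [Matrix.det_fin_two]
    simp [vecMulVec_apply]
    ring
  rw [e]
  exact mul_ne_zero (mul_ne_zero hs h3) hi

/-- `(W, W')` jointly injective -/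
theorem joint (hcl : ∀ G : Fin 6 × Fin 2 → k, Cl (TG G))
    {N M W T N' M' W' T' : Matrix (Fin 2) (Fin 2) k}
    (hT : MaxR ρ ![J3311 k, B3311 N M W T, B3311 N' M' W' T']) (i j : Fin 2)
    (hm : W i 0 * W' j 1 - W i 1 * W' j 0 ≠ 0) : False := by
  by_cases hex : ∃ x y : k, (x • W + y • W').det ≠ 0
  · obtain ⟨x, y, h⟩ := hex
    exact lin hcl hT x y h
  push Not at hex
  have e1 := hex 1 0
  have e2 := hex 0 1
  have e3 := hex 1 1
  rw [Matrix.det_fin_two] at e1 e2 e3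
  simp at e1 e2 e3
  have e4 : W 0 0 * W' 1 1 + W' 0 0 * W 1 1 - W 0 1 * W' 1 0 - W' 0 1 * W 1 0 = 0 := by
    linear_combination e3 - e1 - e2
  obtain ⟨m, hmd⟩ : ∃ m, m = W i 0 * W' j 1 - W i 1 * W' j 0 := ⟨_, rfl⟩
  rw [← hmd] at hm
  obtain ⟨om, hom⟩ : ∃ om : Fin 2 → k, ∀ l, om l = (W l 0 * W' j 1 - W l 1 * W' j 0) / m :=
    ⟨fun l => (W l 0 * W' j 1 - W l 1 * W' j 0) / m, fun l => rfl⟩
  obtain ⟨om', hom'⟩ : ∃ om' : Fin 2 → k, ∀ l, om' l = (W i 0 * W' l 1 - W i 1 * W' l 0) / m :=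
    ⟨fun l => (W i 0 * W' l 1 - W i 1 * W' l 0) / m, fun l => rfl⟩
  have hi : om i = 1 := by rw [hom, ← hmd, div_self hm]
  have hj : om' j = 1 := by rw [hom', ← hmd, div_self hm]
  have hD : ∀ l, W l 1 * W i 0 = W l 0 * W i 1 := row e1 i
  have hD' : ∀ l, W' l 1 * W' j 0 = W' l 0 * W' j 1 := row e2 j
  have hW : ∀ l c, W l c = om l * W i c := by
    intro l c
    rw [hom, div_mul_eq_mul_div, eq_div_iff hm, hmd]
    have h := hD l
    fin_cases c
    · show W l 0 * (W i 0 * W' j 1 - W i 1 * W' j 0) = (W l 0 * W' j 1 - W l 1 * W' j 0) * W i 0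
      linear_combination W' j 0 * h
    · show W l 1 * (W i 0 * W' j 1 - W i 1 * W' j 0) = (W l 0 * W' j 1 - W l 1 * W' j 0) * W i 1
      linear_combination W' j 1 * h
  have hW' : ∀ l c, W' l c = om' l * W' j c := by
    intro l c
    rw [hom', div_mul_eq_mul_div, eq_div_iff hm, hmd]
    have h := hD' l
    fin_cases c
    · show W' l 0 * (W i 0 * W' j 1 - W i 1 * W' j 0) =
        (W i 0 * W' l 1 - W i 1 * W' l 0) * W' j 0
      linear_combination -W i 0 * h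
    · show W' l 1 * (W i 0 * W' j 1 - W i 1 * W' j 0) =
        (W i 0 * W' l 1 - W i 1 * W' l 0) * W' j 1
      linear_combination -W i 1 * h
  have hpar : om 0 * om' 1 = om 1 * om' 0 := by
    have h : (om 0 * om' 1 - om 1 * om' 0) * m = 0 := by
      rw [hW 0 0, hW 0 1, hW 1 0, hW 1 1, hW' 0 0, hW' 0 1, hW' 1 0, hW' 1 1] at e4
      rw [hmd]
      linear_combination e4
    exact sub_eq_zero.1 ((mul_eq_zero.1 h).resolve_right hm)
  have hc : ∀ l, om' l = om' i * om l := by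
    intro l
    fin_cases i
    · have hi' : om 0 = 1 := hi
      fin_cases l
      · show om' 0 = om' 0 * om 0
        rw [hi', mul_one]
      · show om' 1 = om' 0 * om 1
        linear_combination hpar - om' 1 * hi'
    · have hi' : om 1 = 1 := hi
      fin_cases l
      · show om' 0 = om' 1 * om 0
        linear_combination -hpar - om' 0 * hi'
      · show om' 1 = om' 1 * om 1
        rw [hi', mul_one]
  have hci : om' i ≠ 0 := by
    intro h
    have h1 := hc j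
    rw [hj, h, zero_mul] at h1
    exact one_ne_zero h1
  have f1 : W = vecMulVec om (W i) := by
    ext l c
    rw [vecMulVec_apply, ← hW]
  have f2 : W' = vecMulVec om (om' i • W' j) := by
    ext l c
    rw [vecMulVec_apply, Pi.smul_apply, smul_eq_mul, hW' l c, hc l]
    ring
  rw [f1, f2] at hT
  refine common hcl hT ?_ ?_
  · intro h
    rw [h] at hi
    exact zero_ne_one hi
  · have e : W i 0 * (om' i • W' j) 1 - W i 1 * (om' i • W' j) 0 = om' i * m := by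
      rw [hmd, Pi.smul_apply, Pi.smul_apply, smul_eq_mul, smul_eq_mul]
      ring
    rw [e]
    exact mul_ne_zero hci hm

/-- all triples of the shape -/
theorem gen (hcl : ∀ G : Fin 6 × Fin 2 → k, Cl (TG G))
    {N M W T N' M' W' T' : Matrix (Fin 2) (Fin 2) k}
    (hT : MaxR ρ ![J3311 k, B3311 N M W T, B3311 N' M' W' T']) : False := by
  have hdual : MaxR ρ ![J3311 k, B3311 Nᵀ Mᵀ Tᵀ Wᵀ, B3311 N'ᵀ M'ᵀ T'ᵀ W'ᵀ] :=
    maxR_dual (P3311 k) P3311_sq hT
      (dual3 J3311_dual (B3311_dual N M W T) (B3311_dual N' M' W' T'))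
  by_cases h1 : T.det = 0
  swap
  · refine lin hcl hdual 1 0 ?_
    simpa using h1
  by_cases h2 : T'.det = 0
  swap
  · refine lin hcl hdual 0 1 ?_
    simpa using h2
  obtain ⟨u, hu, hu'⟩ := Matrix.exists_mulVec_eq_zero_iff.2 h1
  obtain ⟨v, hv, hv'⟩ := Matrix.exists_mulVec_eq_zero_iff.2 h2
  obtain ⟨j, hj⟩ := Function.ne_iff.1 hu
  obtain ⟨i, hi⟩ := Function.ne_iff.1 hv
  have hr := rel hT
  have g1 : T * vecMulVec u ![1, 0] = 0 := by
    rw [Matrix.mul_vecMulVec, hu', zero_vecMulVec]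
  have g2 : T' * vecMulVec v ![0, 1] = 0 := by
    rw [Matrix.mul_vecMulVec, hv', zero_vecMulVec]
  have hfin : {s : k | (W i 0 * W' j 1 - W i 1 * W' j 0) + (- (v i * W' j 0 + W i 1 * u j)) * s +
      (- (v i * u j)) * s ^ 2 = 0}.Finite :=
    finite_quad (Or.inr (Or.inr (neg_ne_zero.2 (mul_ne_zero hi hj))))
  obtain ⟨s, hs, h4⟩ := MaxR.line2 hT (B3311 0 0 (vecMulVec v ![0, 1]) 0)
    (B3311 0 0 (vecMulVec u ![1, 0]) 0) (fun s => by
      rw [B3311_smul, B3311_add, B3311_smul, B3311_add]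
      refine B3311_cn ?_
      simp only [smul_zero, add_zero]
      rw [mul_add, mul_add, mul_smul_comm, mul_smul_comm, g1, g2]
      simp only [smul_zero, add_zero]
      exact hr) hfin
  rw [B3311_smul, B3311_add, B3311_smul, B3311_add] at h4
  refine joint hcl h4 i j ?_
  intro h
  apply hs
  rw [Set.mem_ofPred_eq]
  simp at h
  linear_combination h

end T3311Aux

theorem no_3311 {k : Type*} [Field k] [IsAlgClosed k] [CharZero k] {ρ : ℕ → ℕ}
    (hcl : ∀ G : Fin 6 × Fin 2 → k, Cl (TG G))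
    {T : Fin 3 → Matrix (Fin 8) (Fin 8) k} (hT : MaxR ρ T)
    (hρ : ∀ i, ρ i = (J3311 k ^ i).rank) (h0 : T 0 = J3311 k) : False := by
  obtain ⟨N, M, W, S, h1⟩ := T3311Aux.shape hT hρ h0 (mem_adj T 1)
  obtain ⟨N', M', W', S', h2⟩ := T3311Aux.shape hT hρ h0 (mem_adj T 2)
  have e : T = ![J3311 k, B3311 N M W S, B3311 N' M' W' S'] := by
    funext i
    fin_cases i
    · exact h0
    · exact h1
    · exact h2
  rw [e] at hT
  exact T3311Aux.gen hcl hT

end Pool.Agent.Lib.D8
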