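import Pool.Agent.Lib.D8.R332G

/-!
Module T332G (1.5h; black box R332G). Type (3,3,2) with a = a' = b = b' = 0.
Here BC = CB iff N N' = N' N (B332_comm0); M, c, d, nu, M', c', d', nu' are free parameters.
PROOF. (1) N and N' commute (2 x 2). If N is scalar subtract a multiple of A and exchange B and C
(MaxR.lin) : N' = 0. If N is not scalar, N' = x + y N: C - x A - y B has N' = 0 (MaxR.lin).
(2) Deform N along N + s !![1, 1; 0, 0] (MaxR.line2; BC = CB holds for every N since N' = 0):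
discriminant and N01 nonzero for almost all s. So WLOG N has two different eigenvalues; conj by
G332 g (diagonalisation). Subtract y A, divide by x - y (MaxR.lin): N = !![1, 0; 0, 0].
(3) Deform nu' to nu' ≠ 0 (line2), scale C: nu' = 1; B - nu C: nu = 0. (4) Deform c 0 and d 0
(of B): c 0 + c' 0 ≠ 0, d 0 + d' 0 ≠ 0. Now no_332Gn.
-/

namespace Pool.Agent.Lib.D8

open Matrix Pool.Agent.Lib.Q5dc Pool.Agent.Lib.D7

namespace T332GAux

variable {k : Type*} [Field k] {ρ : ℕ → ℕ}

/-- the matrices with `a = b = 0` -/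
def K (N M : Matrix (Fin 2) (Fin 2) k) (c d : Fin 2 → k) (nu : k) : Matrix (Fin 8) (Fin 8) k :=
  B332 N M 0 c 0 d nu

theorem K_add (N M N' M' : Matrix (Fin 2) (Fin 2) k) (c d c' d' : Fin 2 → k) (nu nu' : k) :
    K N M c d nu + K N' M' c' d' nu' = K (N + N') (M + M') (c + c') (d + d') (nu + nu') := by
  rw [K, K, B332_add, add_zero]
  rfl

theorem K_smul (s : k) (N M : Matrix (Fin 2) (Fin 2) k) (c d : Fin 2 → k) (nu : k) :
    s • K N M c d nu = K (s • N) (s • M) (s • c) (s • d) (s * nu) := by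
  rw [K, B332_smul, smul_zero]
  rfl

theorem J_eq : J332 k = K 1 0 0 0 1 := J332_eq

theorem K_comm {N M N' M' : Matrix (Fin 2) (Fin 2) k} {c d c' d' : Fin 2 → k} {nu nu' : k} :
    K N M c d nu * K N' M' c' d' nu' = K N' M' c' d' nu' * K N M c d nu ↔ N * N' = N' * N := by
  rw [K, K, B332_comm0]
  simp [vecMulVec_zero]

theorem K_cn {N M N' M' : Matrix (Fin 2) (Fin 2) k} {c d c' d' : Fin 2 → k} {nu nu' : k}
    (h : N * N' = N' * N) : CN ![J332 k, K N M c d nu, K N' M' c' d' nu'] :=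
  B332_cn (K_comm.2 h)

/-- linear changes -/
theorem lin {N M N' M' : Matrix (Fin 2) (Fin 2) k} {c d c' d' : Fin 2 → k} {nu nu' : k}
    (hT : MaxR ρ ![J332 k, K N M c d nu, K N' M' c' d' nu']) (a b e f x z : k)
    (h : a * f - b * e ≠ 0) :
    MaxR ρ ![J332 k,
      K (a • N + b • N' + x • 1) (a • M + b • M') (a • c + b • c') (a • d + b • d')
        (a * nu + b * nu' + x),
      K (e • N + f • N' + z • 1) (e • M + f • M') (e • c + f • c') (e • d + f • d')
        (e * nu + f * nu' + z)] := by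
  have h1 := MaxR.lin hT a b e f x 0 z 0 h
  have key : ∀ a b x : k, a • K N M c d nu + b • K N' M' c' d' nu' + x • J332 k +
      (0 : k) • (J332 k * J332 k) =
      K (a • N + b • N' + x • 1) (a • M + b • M') (a • c + b • c') (a • d + b • d')
        (a * nu + b * nu' + x) := by
    intro a b x
    rw [zero_smul, add_zero, J_eq, K_smul, K_smul, K_smul, K_add, K_add, smul_zero, add_zero,
      smul_zero, add_zero, add_zero, mul_one]
  rw [key, key] at h1
  exact h1

/-- a matrix commuting with a nonscalar `2 x 2` matrix -/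
theorem comm_two {N N' : Matrix (Fin 2) (Fin 2) k} (h : N * N' = N' * N)
    (hN : ∀ x : k, N ≠ x • 1) : ∃ x y : k, N' = x • 1 + y • N := by
  have h00 := congrFun (congrFun h 0) 0
  have h01 := congrFun (congrFun h 0) 1
  have h10 := congrFun (congrFun h 1) 0
  simp only [Matrix.mul_apply, Fin.sum_univ_two] at h00 h01 h10
  -- it is enough to find `y`
  have fin : ∀ y : k, N' 0 1 = y * N 0 1 → N' 1 0 = y * N 1 0 →
      N' 0 0 - N' 1 1 = y * (N 0 0 - N 1 1) → ∃ x y : k, N' = x • 1 + y • N := by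
    intro y h1 h2 h3
    refine ⟨N' 0 0 - y * N 0 0, y, ?_⟩
    ext i j
    fin_cases i <;> fin_cases j <;> simp
    · exact h1
    · exact h2
    · linear_combination -h3
  by_cases h1 : N 0 1 = 0
  · by_cases h2 : N 1 0 = 0
    · have h3 : N 0 0 - N 1 1 ≠ 0 := by
        intro h3
        refine hN (N 0 0) ?_
        ext i j
        fin_cases i <;> fin_cases j <;> simp
        · exact h1
        · exact h2
        · linear_combination -h3
      rw [h1] at h01
      rw [h2] at h10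
      refine fin ((N' 0 0 - N' 1 1) / (N 0 0 - N 1 1)) ?_ ?_ ?_
      · rw [h1, mul_zero]
        have : (N 0 0 - N 1 1) * N' 0 1 = 0 := by linear_combination h01
        exact (mul_eq_zero.1 this).resolve_left h3
      · rw [h2, mul_zero]
        have : (N 0 0 - N 1 1) * N' 1 0 = 0 := by linear_combination -h10
        exact (mul_eq_zero.1 this).resolve_left h3
      · field_simp
    · refine fin (N' 1 0 / N 1 0) ?_ ?_ ?_
      · field_simp
        linear_combination -h00
      · field_simp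
      · field_simp
        linear_combination h10
  · refine fin (N' 0 1 / N 0 1) ?_ ?_ ?_
    · field_simp
    · field_simp
      linear_combination h00
    · field_simp
      linear_combination -h01

/-- diagonalisation -/
theorem diag_two [IsAlgClosed k] [CharZero k] {N : Matrix (Fin 2) (Fin 2) k} (h01 : N 0 1 ≠ 0)
    (hd : (N 0 0 - N 1 1) ^ 2 + 4 * N 0 1 * N 1 0 ≠ 0) :
    ∃ (g h : Matrix (Fin 2) (Fin 2) k) (x y : k), g * h = 1 ∧ h * g = 1 ∧ x ≠ y ∧
      g * N * h = !![x, 0; 0, y] := by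
  obtain ⟨t, ht⟩ := IsAlgClosed.exists_pow_nat_eq
    ((N 0 0 - N 1 1) ^ 2 + 4 * N 0 1 * N 1 0) (n := 2) (by norm_num)
  have ht0 : t ≠ 0 := by
    rintro rfl
    apply hd
    rw [← ht]
    ring
  have two : (2 : k) ≠ 0 := two_ne_zero
  obtain ⟨x, hx⟩ : ∃ x, x = (N 0 0 + N 1 1 + t) / 2 := ⟨_, rfl⟩
  obtain ⟨y, hy⟩ : ∃ y, y = (N 0 0 + N 1 1 - t) / 2 := ⟨_, rfl⟩
  have hxy : x - y = t := by
    rw [hx, hy]
    ring
  have hne : x ≠ y := by
    intro h
    apply ht0
    rw [← hxy, h, sub_self]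
  have cx : (x - N 0 0) * (x - N 1 1) = N 0 1 * N 1 0 := by
    rw [hx]
    linear_combination (1 / 4 : k) * ht
  have cy : (y - N 0 0) * (y - N 1 1) = N 0 1 * N 1 0 := by
    rw [hy]
    linear_combination (1 / 4 : k) * ht
  obtain ⟨h, hh⟩ : ∃ h : Matrix (Fin 2) (Fin 2) k,
      h = !![N 0 1, N 0 1; x - N 0 0, y - N 0 0] := ⟨_, rfl⟩
  have hdet : h.det ≠ 0 := by
    rw [hh, Matrix.det_fin_two_of]
    have : N 0 1 * (y - N 0 0) - N 0 1 * (x - N 0 0) = -(N 0 1 * (x - y)) := by ring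
    rw [this]
    exact neg_ne_zero.2 (mul_ne_zero h01 (sub_ne_zero.2 hne))
  have hu : IsUnit h.det := isUnit_iff_ne_zero.2 hdet
  have e1 : N * h = h * !![x, 0; 0, y] := by
    rw [hh]
    ext i j
    fin_cases i <;> fin_cases j <;> simp [Matrix.mul_apply, Fin.sum_univ_two]
    · ring
    · ring
    · linear_combination -cx
    · linear_combination -cy
  refine ⟨h⁻¹, h, x, y, Matrix.nonsing_inv_mul h hu, Matrix.mul_nonsing_inv h hu, hne, ?_⟩
  rw [Matrix.mul_assoc, e1, ← Matrix.mul_assoc, Matrix.nonsing_inv_mul h hu, Matrix.one_mul]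

/-- change of basis -/
theorem conj {N M N' M' : Matrix (Fin 2) (Fin 2) k} {c d c' d' : Fin 2 → k} {nu nu' : k}
    (hT : MaxR ρ ![J332 k, K N M c d nu, K N' M' c' d' nu']) {g h : Matrix (Fin 2) (Fin 2) k}
    (hg : g * h = 1) (hh : h * g = 1) :
    MaxR ρ ![J332 k, K (g * N * h) (g * M * h) (c ᵥ* h) (g *ᵥ d) nu,
      K (g * N' * h) (g * M' * h) (c' ᵥ* h) (g *ᵥ d') nu'] := by
  have h1 := hT.conj (G332 g) (G332 h) (by rw [G332_mul, hg, G332_one])
    (by rw [G332_mul, hh, G332_one])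
  have h2 : (fun i => G332 g * (![J332 k, K N M c d nu, K N' M' c' d' nu'] :
      Fin 3 → Matrix (Fin 8) (Fin 8) k) i * G332 h) =
      ![J332 k, K (g * N * h) (g * M * h) (c ᵥ* h) (g *ᵥ d) nu,
        K (g * N' * h) (g * M' * h) (c' ᵥ* h) (g *ᵥ d') nu'] := by
    have key : ∀ (N M : Matrix (Fin 2) (Fin 2) k) (c d : Fin 2 → k) (nu : k),
        G332 g * K N M c d nu * G332 h = K (g * N * h) (g * M * h) (c ᵥ* h) (g *ᵥ d) nu := by
      intro N M c d nu
      rw [K, G332_conj, zero_vecMul, mulVec_zero]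
      rfl
    funext i
    fin_cases i
    · exact G332_J g h hg
    · exact key _ _ _ _ _
    · exact key _ _ _ _ _
  rw [h2] at h1
  exact h1

variable [IsAlgClosed k] [CharZero k]

/-- step (4) -/
theorem step4 (h3 : ρ 3 = 0) {M M' : Matrix (Fin 2) (Fin 2) k} {c d c' d' : Fin 2 → k}
    (hT : MaxR ρ ![J332 k, K !![1, 0; 0, 0] M c d 0, K 0 M' c' d' 1]) : False := by
  have key : ∀ s : k, K !![1, 0; 0, 0] M c d 0 + s • K 0 0 ![1, 0] ![1, 0] 0 =
      K !![1, 0; 0, 0] M (c + s • ![1, 0]) (d + s • ![1, 0]) 0 := by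
    intro s
    rw [K_smul, K_add, smul_zero, add_zero, add_zero, mul_zero, add_zero]
  obtain ⟨s, hs, h1⟩ := MaxR.line2 hT (K 0 0 ![1, 0] ![1, 0] 0) 0 (fun s => by
    rw [key, smul_zero, add_zero]
    exact K_cn (by rw [Matrix.mul_zero, Matrix.zero_mul]))
    ((Set.finite_singleton (-(c 0 + c' 0))).union (Set.finite_singleton (-(d 0 + d' 0))))
  rw [key, smul_zero, add_zero] at h1
  simp only [Set.mem_union, Set.mem_singleton_iff, not_or] at hs
  refine no_332Gn h3 h1 ?_ ?_
  · intro h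
    apply hs.1
    simp at h
    linear_combination h
  · intro h
    apply hs.2
    simp at h
    linear_combination h

/-- step (3) -/
theorem step3 (h3 : ρ 3 = 0) {M M' : Matrix (Fin 2) (Fin 2) k} {c d c' d' : Fin 2 → k} {nu nu' : k}
    (hT : MaxR ρ ![J332 k, K !![1, 0; 0, 0] M c d nu, K 0 M' c' d' nu']) : False := by
  have key : ∀ s : k, K 0 M' c' d' nu' + s • K 0 0 0 0 1 = K 0 M' c' d' (nu' + s) := by
    intro s
    rw [K_smul, K_add, smul_zero, smul_zero, add_zero, add_zero, add_zero, add_zero, mul_one]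
  obtain ⟨s, hs, h1⟩ := MaxR.line2 hT 0 (K 0 0 0 0 1) (fun s => by
    rw [key, smul_zero, add_zero]
    exact K_cn (by rw [Matrix.mul_zero, Matrix.zero_mul]))
    (Set.finite_singleton (-nu'))
  rw [key, smul_zero, add_zero] at h1
  rw [Set.mem_singleton_iff] at hs
  have hn : nu' + s ≠ 0 := fun h => hs (by linear_combination h)
  have h2 := lin h1 1 (-nu / (nu' + s)) 0 (1 / (nu' + s)) 0 0 (by
    rw [mul_zero, sub_zero, one_mul]
    exact one_div_ne_zero hn)
  have e1 : (1 : k) * nu + -nu / (nu' + s) * (nu' + s) + 0 = 0 := by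
    field_simp
    ring
  have e2 : (0 : k) * nu + 1 / (nu' + s) * (nu' + s) + 0 = 1 := by
    field_simp
    ring
  rw [e1, e2] at h2
  have e3 : (1 : k) • (!![1, 0; 0, 0] : Matrix (Fin 2) (Fin 2) k) + (-nu / (nu' + s)) • 0 +
      (0 : k) • 1 = !![1, 0; 0, 0] := by
    rw [one_smul, smul_zero, add_zero, zero_smul, add_zero]
  have e4 : (0 : k) • (!![1, 0; 0, 0] : Matrix (Fin 2) (Fin 2) k) + (1 / (nu' + s)) • 0 +
      (0 : k) • 1 = 0 := by
    rw [zero_smul, smul_zero, add_zero, zero_smul, add_zero]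
  rw [e3, e4] at h2
  exact step4 h3 h2

/-- step (2) -/
theorem step2 (h3 : ρ 3 = 0) {N M M' : Matrix (Fin 2) (Fin 2) k} {c d c' d' : Fin 2 → k}
    {nu nu' : k} (hT : MaxR ρ ![J332 k, K N M c d nu, K 0 M' c' d' nu']) : False := by
  have key : ∀ s : k, K N M c d nu + s • K !![1, 1; 0, 0] 0 0 0 0 =
      K (N + s • !![1, 1; 0, 0]) M c d nu := by
    intro s
    rw [K_smul, K_add, smul_zero, smul_zero, add_zero, add_zero, add_zero, mul_zero, add_zero]
  obtain ⟨s, hs, h1⟩ := MaxR.line2 hT (K !![1, 1; 0, 0] 0 0 0 0) 0 (fun s => by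
    rw [key, smul_zero, add_zero]
    exact K_cn (by rw [Matrix.mul_zero, Matrix.zero_mul]))
    ((Set.finite_singleton (-(N 0 1))).union
      (finite_quad (a := (N 0 0 - N 1 1) ^ 2 + 4 * N 0 1 * N 1 0)
        (b := 2 * (N 0 0 - N 1 1) + 4 * N 1 0) (c := (1 : k)) (Or.inr (Or.inr one_ne_zero))))
  rw [key, smul_zero, add_zero] at h1
  simp only [Set.mem_union, Set.mem_singleton_iff, not_or, Set.mem_ofPred_eq] at hs
  obtain ⟨hs1, hs2⟩ := hs
  obtain ⟨g, h, x, y, hg, hh, hxy, hgh⟩ := diag_two (N := N + s • !![1, 1; 0, 0])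
    (by
      simp
      intro h
      exact hs1 (by linear_combination h))
    (by
      simp
      intro h
      exact hs2 (by linear_combination h))
  have h2 := conj h1 hg hh
  rw [hgh, Matrix.mul_zero, Matrix.zero_mul] at h2
  have hxy' : x - y ≠ 0 := sub_ne_zero.2 hxy
  have h4 := lin h2 (1 / (x - y)) 0 0 1 (-y / (x - y)) 0 (by
    rw [mul_one, mul_zero, sub_zero]
    exact one_div_ne_zero hxy')
  have e1 : (1 / (x - y)) • (!![x, 0; 0, y] : Matrix (Fin 2) (Fin 2) k) + (0 : k) • 0 +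
      (-y / (x - y)) • 1 = !![1, 0; 0, 0] := by
    ext i j
    fin_cases i <;> fin_cases j <;> simp
    · field_simp
      ring
    · field_simp
      ring
  have e2 : (0 : k) • (!![x, 0; 0, y] : Matrix (Fin 2) (Fin 2) k) + (1 : k) • 0 +
      (0 : k) • 1 = 0 := by
    rw [zero_smul, smul_zero, add_zero, zero_smul, add_zero]
  rw [e1, e2] at h4
  exact step3 h3 h4

end T332GAux

open T332GAux

theorem no_332G {k : Type*} [Field k] [IsAlgClosed k] [CharZero k] {ρ : ℕ → ℕ} (h3 : ρ 3 = 0)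
    {N M N' M' : Matrix (Fin 2) (Fin 2) k} {c d c' d' : Fin 2 → k} {nu nu' : k}
    (hT : MaxR ρ ![J332 k, B332 N M 0 c 0 d nu, B332 N' M' 0 c' 0 d' nu']) : False := by
  have hT' : MaxR ρ ![J332 k, K N M c d nu, K N' M' c' d' nu'] := hT
  have hcomm : N * N' = N' * N := K_comm.1 (hT'.cn.1 1 2)
  by_cases hN : ∃ x : k, N = x • 1
  · obtain ⟨x, rfl⟩ := hN
    have h1 := lin hT' 0 1 1 0 0 (-x) (by norm_num)
    have e : (1 : k) • (x • (1 : Matrix (Fin 2) (Fin 2) k)) + (0 : k) • N' + (-x) • 1 = 0 := by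
      module
    rw [e] at h1
    exact step2 h3 h1
  · push Not at hN
    obtain ⟨x, y, rfl⟩ := comm_two hcomm hN
    have h1 := lin hT' 1 0 (-y) 1 0 (-x) (by norm_num)
    have e : (-y) • N + (1 : k) • (x • (1 : Matrix (Fin 2) (Fin 2) k) + y • N) + (-x) • 1 = 0 := by
      module
    rw [e] at h1
    exact step2 h3 h1

end Pool.Agent.Lib.D8
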