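import Pool.Agent.Lib.D8.R332L

/-!
Module T332L (2h; black box R332L). Type (3,3,2) with b = b' = 0 and a, a' linearly independent.
Relations (B332_comm0): N N' + d (x) a' = N' N + d' (x) a, a N' + nu a' = a' N + nu' a. Put Y = [[N, d], [a, nu]], Y' = [[N', d'], [a', nu']] (3 x 3, acting on F = k^2 + k): the relations say that [Y, Y'] kills the first two basis vectors.
PROOF. (1) [Y, Y'] = 0: [Y, Y'] = r (x) e3*, and e3* r = tr [Y, Y'] = 0, e3* Y r = tr (Y [Y, Y']) = 0, e3* Y' r = 0; e3* r = a r_E + .. : with r = (r0, r1, 0): a · (r0, r1) = 0, a' · (r0, r1) = 0, so r = 0. (Or by direct computation.)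
(2) Common eigenvector f ≠ 0 of Y and Y' in F (k algebraically closed; write a lemma for commuting 3 x 3 matrices). Its last coordinate is not 0: otherwise f = (f0, f1, 0) and the last coordinates of Y f, Y' f give a · f = a' · f = 0, f = 0. Scale the last coordinate of f to 1.
conj by U332 x (x = - (f0, f1) or +, see U332_conj) => f = (0, 0, 1), i.e. d = 0, d' = 0. Subtract nu A, nu' A (MaxR.lin; A = B332 1 0 0 0 0 0 1): nu = nu' = 0, d = d' = 0. Now the relations: N N' = N' N, a N' = a' N.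
(3) 2 x 2 commuting: some (x, y) ≠ (0, 0) and b with x N + y N' = b 1. MaxR.lin (choose the complement (z, w)): WLOG N' = b 1 (a, a' stay independent). conj by G332 g: a = (1, 0), a' = (0, 1) (g = the matrix with rows a, a'; h = g^-1). a N' = a' N gives row 1 of N = (b, 0):
N = !![c0, a0; b, 0]. (4) Family b -> b + s (N and N' = b 1; relations hold for all b): MaxR.line2, so WLOG b ≠ 0. C -> C / b; conj by G332 diag(1, b^-1 or b) so that N' = 1, a' = (0, 1), a = (1, 0), N = !![c0, a0; 1, 0] (new a0).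
(5) β a root of X^2 - c0 X - a0, β' = c0 - β (so a0 = - β β'). B -> B - β C: N = !![β', - β β'; 1, - β], a = (1, - β). (6) B -> B + y A^2 (A^2 = B332 0 1 0 0 0 0 0) changes β (c 0 - M 1 0) + (c 1 - M 1 1) by - y: make it 0. Now no_332Ln.
-/

namespace Pool.Agent.Lib.D8

open Matrix Pool.Agent.Lib.Q5dc Pool.Agent.Lib.D7

namespace T332LAux

/-- commuting matrices over an algebraically closed field have a common eigenvector -/
theorem common_eigen {k : Type*} [Field k] [IsAlgClosed k] {Y Y' : Matrix (Fin 3) (Fin 3) k}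
    (h : Y * Y' = Y' * Y) :
    ∃ (f : Fin 3 → k) (l l' : k), f ≠ 0 ∧ Y *ᵥ f = l • f ∧ Y' *ᵥ f = l' • f := by
  obtain ⟨l, hl⟩ := Module.End.exists_eigenvalue (Matrix.toLin' Y)
  let W : Submodule k (Fin 3 → k) := Module.End.eigenspace (Matrix.toLin' Y) l
  have hmem : ∀ x, x ∈ W ↔ Y *ᵥ x = l • x := by
    intro x
    rw [Module.End.mem_eigenspace_iff, Matrix.toLin'_apply]
  have hW : ∀ x ∈ W, Matrix.toLin' Y' x ∈ W := by
    intro x hx
    rw [hmem] at hx ⊢
    rw [Matrix.toLin'_apply, Matrix.mulVec_mulVec, h, ← Matrix.mulVec_mulVec, hx,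
      Matrix.mulVec_smul]
  obtain ⟨v, hv⟩ := hl.exists_hasEigenvector
  have hvW : v ∈ W := hv.1
  have : Nontrivial W := ⟨⟨⟨v, hvW⟩, 0, fun e => hv.2 (congrArg Subtype.val e)⟩⟩
  obtain ⟨l', hl'⟩ := Module.End.exists_eigenvalue ((Matrix.toLin' Y').restrict hW)
  obtain ⟨w, hw⟩ := hl'.exists_hasEigenvector
  refine ⟨w.1, l, l', ?_, (hmem _).1 w.2, ?_⟩
  · intro e
    exact hw.2 (Subtype.ext e)
  · have h2 := congrArg Subtype.val hw.apply_eq_smul
    rw [LinearMap.restrict_apply] at h2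
    simpa [Matrix.toLin'_apply] using h2

section

variable {k : Type*} [Field k] {ρ : ℕ → ℕ}

theorem J332_sq : J332 k * J332 k = B332 0 1 0 0 0 0 0 := by
  rw [J332_eq, B332_mul, B332_inj]
  simp [vecMulVec_zero, zero_vecMulVec]

/-- `MaxR.lin` for the matrices `B332` with `b = 0` -/
theorem lin332 {N M N' M' : Matrix (Fin 2) (Fin 2) k} {a c d a' c' d' : Fin 2 → k} {nu nu' : k}
    (hT : MaxR ρ ![J332 k, B332 N M a c 0 d nu, B332 N' M' a' c' 0 d' nu'])
    (p q r s x y z w : k) (h : p * s - q * r ≠ 0) :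
    MaxR ρ ![J332 k,
      B332 (p • N + q • N' + x • 1) (p • M + q • M' + y • 1) (p • a + q • a') (p • c + q • c') 0
        (p • d + q • d') (p * nu + q * nu' + x),
      B332 (r • N + s • N' + z • 1) (r • M + s • M' + w • 1) (r • a + s • a') (r • c + s • c') 0
        (r • d + s • d') (r * nu + s * nu' + z)] := by
  have h1 := Pool.Agent.Lib.D8.MaxR.lin hT p q r s x y z w h
  have e1 : p • B332 N M a c 0 d nu + q • B332 N' M' a' c' 0 d' nu' + x • J332 k +
      y • (J332 k * J332 k) =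
      B332 (p • N + q • N' + x • 1) (p • M + q • M' + y • 1) (p • a + q • a') (p • c + q • c') 0
        (p • d + q • d') (p * nu + q * nu' + x) := by
    rw [J332_sq, J332_eq, B332_smul, B332_smul, B332_smul, B332_smul, B332_add, B332_add,
      B332_add, B332_inj]
    simp
  have e2 : r • B332 N M a c 0 d nu + s • B332 N' M' a' c' 0 d' nu' + z • J332 k +
      w • (J332 k * J332 k) =
      B332 (r • N + s • N' + z • 1) (r • M + s • M' + w • 1) (r • a + s • a') (r • c + s • c') 0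
        (r • d + s • d') (r * nu + s * nu' + z) := by
    rw [J332_sq, J332_eq, B332_smul, B332_smul, B332_smul, B332_smul, B332_add, B332_add,
      B332_add, B332_inj]
    simp
  rw [e1, e2] at h1
  exact h1

/-- conjugation by `G332 g` -/
theorem conjG {N M N' M' : Matrix (Fin 2) (Fin 2) k} {a c d a' c' d' : Fin 2 → k} {nu nu' : k}
    (hT : MaxR ρ ![J332 k, B332 N M a c 0 d nu, B332 N' M' a' c' 0 d' nu'])
    (g h : Matrix (Fin 2) (Fin 2) k) (hgh : g * h = 1) (hhg : h * g = 1) :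
    MaxR ρ ![J332 k, B332 (g * N * h) (g * M * h) (a ᵥ* h) (c ᵥ* h) 0 (g *ᵥ d) nu,
      B332 (g * N' * h) (g * M' * h) (a' ᵥ* h) (c' ᵥ* h) 0 (g *ᵥ d') nu'] := by
  have h1 := hT.conj (G332 g) (G332 h) (by rw [G332_mul, hgh, G332_one])
    (by rw [G332_mul, hhg, G332_one])
  have e : (fun i => G332 g * (![J332 k, B332 N M a c 0 d nu, B332 N' M' a' c' 0 d' nu'] :
      Fin 3 → Matrix (Fin 8) (Fin 8) k) i * G332 h) =
      ![J332 k, B332 (g * N * h) (g * M * h) (a ᵥ* h) (c ᵥ* h) 0 (g *ᵥ d) nu,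
      B332 (g * N' * h) (g * M' * h) (a' ᵥ* h) (c' ᵥ* h) 0 (g *ᵥ d') nu'] := by
    funext i
    fin_cases i
    · exact G332_J g h hgh
    · have := G332_conj g h N M a c 0 d nu
      rw [mulVec_zero] at this
      exact this
    · have := G332_conj g h N' M' a' c' 0 d' nu'
      rw [mulVec_zero] at this
      exact this
  rw [e] at h1
  exact h1

/-- conjugation by `U332 x` -/
theorem conjU {N M N' M' : Matrix (Fin 2) (Fin 2) k} {a c d a' c' d' : Fin 2 → k} {nu nu' : k}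
    (hT : MaxR ρ ![J332 k, B332 N M a c 0 d nu, B332 N' M' a' c' 0 d' nu'])
    (x : Fin 2 → k) :
    MaxR ρ ![J332 k, B332 (N + vecMulVec x a) (M + vecMulVec x c) a c 0
        (d - N *ᵥ x + (nu - a ⬝ᵥ x) • x) (nu - a ⬝ᵥ x),
      B332 (N' + vecMulVec x a') (M' + vecMulVec x c') a' c' 0
        (d' - N' *ᵥ x + (nu' - a' ⬝ᵥ x) • x) (nu' - a' ⬝ᵥ x)] := by
  have h1 := hT.conj (U332 x) (U332 (-x)) (by rw [U332_mul, add_neg_cancel, U332_zero])
    (by rw [U332_mul, neg_add_cancel, U332_zero])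
  have e : (fun i => U332 x * (![J332 k, B332 N M a c 0 d nu, B332 N' M' a' c' 0 d' nu'] :
      Fin 3 → Matrix (Fin 8) (Fin 8) k) i * U332 (-x)) =
      ![J332 k, B332 (N + vecMulVec x a) (M + vecMulVec x c) a c 0
        (d - N *ᵥ x + (nu - a ⬝ᵥ x) • x) (nu - a ⬝ᵥ x),
      B332 (N' + vecMulVec x a') (M' + vecMulVec x c') a' c' 0
        (d' - N' *ᵥ x + (nu' - a' ⬝ᵥ x) • x) (nu' - a' ⬝ᵥ x)] := by
    funext i
    fin_cases i
    · exact U332_J x
    · exact U332_conj x N M a c d nu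
    · exact U332_conj x N' M' a' c' d' nu'
  rw [e] at h1
  exact h1

end

section

variable {k : Type*} [Field k] [IsAlgClosed k] [CharZero k] {ρ : ℕ → ℕ}

omit [IsAlgClosed k] in
theorem lem6 (h3 : ρ 3 = 0) {β β' : k} {M M' : Matrix (Fin 2) (Fin 2) k} {c c' : Fin 2 → k}
    (hT : MaxR ρ ![J332 k, B332 !![β', -(β * β'); 1, -β] M ![1, -β] c 0 0 0,
      B332 1 M' ![0, 1] c' 0 0 0]) : False := by
  have h1 := lin332 hT 1 0 0 1 0 (β * (c 0 - M 1 0) + (c 1 - M 1 1)) 0 0 (by simp)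
  simp only [one_smul, zero_smul, add_zero, zero_add, one_mul, zero_mul, mul_zero, mul_one,
    smul_zero] at h1
  refine no_332Ln h3 h1 ?_
  simp
  ring

theorem lem5 (h3 : ρ 3 = 0) {c0 a0 : k} {M M' : Matrix (Fin 2) (Fin 2) k} {c c' : Fin 2 → k}
    (hT : MaxR ρ ![J332 k, B332 !![c0, a0; 1, 0] M ![1, 0] c 0 0 0,
      B332 1 M' ![0, 1] c' 0 0 0]) : False := by
  obtain ⟨β, hβ⟩ : ∃ β : k, β ^ 2 - c0 * β - a0 = 0 := by
    obtain ⟨s, hs⟩ := IsAlgClosed.exists_eq_mul_self (c0 ^ 2 + 4 * a0)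
    refine ⟨(c0 + s) / 2, ?_⟩
    have h2 : (2 : k) ≠ 0 := two_ne_zero
    field_simp
    linear_combination -hs
  have h1 := lin332 hT 1 (-β) 0 1 0 0 0 0 (by simp)
  simp only [one_smul, zero_smul, add_zero, zero_add, one_mul, zero_mul, mul_zero, mul_one,
    smul_zero] at h1
  have e1 : (!![c0, a0; 1, 0] + -β • (1 : Matrix (Fin 2) (Fin 2) k)) =
      !![c0 - β, -(β * (c0 - β)); 1, -β] := by
    ext i j
    fin_cases i <;> fin_cases j
    · simp [sub_eq_add_neg]
    · simp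
      linear_combination -hβ
    · simp
    · simp
  have e2 : (![1, 0] : Fin 2 → k) + -β • ![0, 1] = ![1, -β] := by
    ext i
    fin_cases i <;> simp
  rw [e1, e2] at h1
  exact lem6 h3 h1

theorem lem4 (h3 : ρ 3 = 0) {c0 a0 b : k} (hb : b ≠ 0) {M M' : Matrix (Fin 2) (Fin 2) k}
    {c c' : Fin 2 → k}
    (hT : MaxR ρ ![J332 k, B332 !![c0, a0; b, 0] M ![1, 0] c 0 0 0,
      B332 (b • 1) M' ![0, 1] c' 0 0 0]) : False := by
  have h1 := lin332 hT 1 0 0 b⁻¹ 0 0 0 0 (by simp [hb])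
  simp only [one_smul, zero_smul, add_zero, zero_add, one_mul, zero_mul, mul_zero, mul_one,
    smul_zero, smul_smul, inv_mul_cancel₀ hb] at h1
  have hgh : (!![1, 0; 0, b⁻¹] : Matrix (Fin 2) (Fin 2) k) * !![1, 0; 0, b] = 1 := by
    ext i j
    fin_cases i <;> fin_cases j <;> simp [Matrix.mul_apply, Fin.sum_univ_two, hb]
  have hhg : (!![1, 0; 0, b] : Matrix (Fin 2) (Fin 2) k) * !![1, 0; 0, b⁻¹] = 1 := by
    ext i j
    fin_cases i <;> fin_cases j <;> simp [Matrix.mul_apply, Fin.sum_univ_two, hb]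
  have h2 := conjG h1 !![1, 0; 0, b⁻¹] !![1, 0; 0, b] hgh hhg
  have e1 : (!![1, 0; 0, b⁻¹] : Matrix (Fin 2) (Fin 2) k) * !![c0, a0; b, 0] * !![1, 0; 0, b] =
      !![c0, a0 * b; 1, 0] := by
    ext i j
    fin_cases i <;> fin_cases j <;> simp [Matrix.mul_apply, Fin.sum_univ_two, hb]
  have e2 : (![1, 0] : Fin 2 → k) ᵥ* !![1, 0; 0, b] = ![1, 0] := by
    ext i
    fin_cases i <;> simp [vecMul, dotProduct, Fin.sum_univ_two]
  have e3 : (b⁻¹ • ![0, 1] : Fin 2 → k) ᵥ* !![1, 0; 0, b] = ![0, 1] := by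
    ext i
    fin_cases i <;> simp [vecMul, dotProduct, Fin.sum_univ_two, hb]
  rw [e1, e2, e3, mul_one, hgh, mulVec_zero] at h2
  exact lem5 h3 h2

theorem lem3 (h3 : ρ 3 = 0) {c0 a0 b : k} {M M' : Matrix (Fin 2) (Fin 2) k}
    {c c' : Fin 2 → k}
    (hT : MaxR ρ ![J332 k, B332 !![c0, a0; b, 0] M ![1, 0] c 0 0 0,
      B332 (b • 1) M' ![0, 1] c' 0 0 0]) : False := by
  have : Infinite k := IsAlgClosed.instInfinite
  have key : ∀ s : k, B332 !![c0, a0; b, 0] M ![1, 0] c 0 0 0 +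
      s • B332 !![0, 0; 1, 0] 0 0 0 0 0 0 = B332 !![c0, a0; b + s, 0] M ![1, 0] c 0 0 0 := by
    intro s
    rw [B332_smul, B332_add, B332_inj]
    refine ⟨?_, ?_, ?_, ?_, ?_, ?_, ?_⟩
    · ext i j
      fin_cases i <;> fin_cases j <;> simp
    all_goals simp
  have key' : ∀ s : k, B332 (b • 1) M' ![0, 1] c' 0 0 0 +
      s • B332 1 0 0 0 0 0 0 = B332 ((b + s) • 1) M' ![0, 1] c' 0 0 0 := by
    intro s
    rw [B332_smul, B332_add, B332_inj]
    refine ⟨?_, ?_, ?_, ?_, ?_, ?_, ?_⟩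
    · rw [add_smul]
    all_goals simp
  obtain ⟨s, hs, h1⟩ := Pool.Agent.Lib.D8.MaxR.line2 hT (B332 !![0, 0; 1, 0] 0 0 0 0 0 0)
    (B332 1 0 0 0 0 0 0) (fun s => by
      rw [key, key']
      refine B332_cn ((B332_comm0 _ _ _ _ _ _ _ _ _ _ _ _).2 ⟨?_, ?_⟩)
      · simp
      · ext i
        fin_cases i <;> simp [vecMul, dotProduct, Fin.sum_univ_two]) (Set.finite_singleton (-b))
  rw [key, key'] at h1
  refine lem4 h3 ?_ h1
  intro h0
  apply hs
  rw [Set.mem_singleton_iff]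
  linear_combination h0

theorem lem2 (h3 : ρ 3 = 0) {b : k} {N M M' : Matrix (Fin 2) (Fin 2) k}
    {a c a' c' : Fin 2 → k}
    (hT : MaxR ρ ![J332 k, B332 N M a c 0 0 0, B332 (b • 1) M' a' c' 0 0 0])
    (h : a 0 * a' 1 - a 1 * a' 0 ≠ 0) : False := by
  have hc : B332 N M a c 0 0 0 * B332 (b • 1) M' a' c' 0 0 0 =
      B332 (b • 1) M' a' c' 0 0 0 * B332 N M a c 0 0 0 := hT.cn.1 1 2
  have hr := ((B332_comm0 _ _ _ _ _ _ _ _ _ _ _ _).1 hc).2
  have hr' : b • a = a' ᵥ* N := by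
    have : b • a = a ᵥ* (b • (1 : Matrix (Fin 2) (Fin 2) k)) := by
      rw [vecMul_smul, vecMul_one]
    rw [this]
    simpa using hr
  have r0 : b * a 0 = a' 0 * N 0 0 + a' 1 * N 1 0 := by
    have := congrFun hr' 0
    simpa [vecMul, dotProduct, Fin.sum_univ_two] using this
  have r1 : b * a 1 = a' 0 * N 0 1 + a' 1 * N 1 1 := by
    have := congrFun hr' 1
    simpa [vecMul, dotProduct, Fin.sum_univ_two] using this
  set D : k := a 0 * a' 1 - a 1 * a' 0 with hD
  have hgh : (!![a 0, a 1; a' 0, a' 1] : Matrix (Fin 2) (Fin 2) k) *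
      !![a' 1 / D, -a 1 / D; -a' 0 / D, a 0 / D] = 1 := by
    ext i j
    fin_cases i <;> fin_cases j
    · simp [Matrix.mul_apply, Fin.sum_univ_two]
      field_simp
      rw [hD]
      ring
    · simp [Matrix.mul_apply, Fin.sum_univ_two]
      field_simp
      ring
    · simp [Matrix.mul_apply, Fin.sum_univ_two]
      field_simp
      ring
    · simp [Matrix.mul_apply, Fin.sum_univ_two]
      field_simp
      rw [hD]
      ring
  have hhg : (!![a' 1 / D, -a 1 / D; -a' 0 / D, a 0 / D] : Matrix (Fin 2) (Fin 2) k) *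
      !![a 0, a 1; a' 0, a' 1] = 1 := mul_eq_one_comm.1 hgh
  have h1 := conjG hT _ _ hgh hhg
  set g : Matrix (Fin 2) (Fin 2) k := !![a 0, a 1; a' 0, a' 1] with hg
  set g' : Matrix (Fin 2) (Fin 2) k := !![a' 1 / D, -a 1 / D; -a' 0 / D, a 0 / D] with hg'
  have v1 : a = ![1, 0] ᵥ* g := by
    ext i
    fin_cases i <;> simp [hg, vecMul, dotProduct, Fin.sum_univ_two]
  have v2 : a' = ![0, 1] ᵥ* g := by
    ext i
    fin_cases i <;> simp [hg, vecMul, dotProduct, Fin.sum_univ_two]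
  have e1 : a ᵥ* g' = ![1, 0] := by
    nth_rewrite 1 [v1]
    rw [vecMul_vecMul, hgh, vecMul_one]
  have e2 : a' ᵥ* g' = ![0, 1] := by
    nth_rewrite 1 [v2]
    rw [vecMul_vecMul, hgh, vecMul_one]
  have e3 : g * (b • (1 : Matrix (Fin 2) (Fin 2) k)) * g' = b • 1 := by
    rw [mul_smul_comm, mul_one, smul_mul_assoc, hgh]
  have e4 : g * N * g' = !![(g * N * g') 0 0, (g * N * g') 0 1; b, 0] := by
    have hrow : (![0, 1] : Fin 2 → k) ᵥ* (g * N * g') = b • ![1, 0] := by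
      rw [← vecMul_vecMul, ← vecMul_vecMul, ← v2, ← hr', smul_vecMul, e1]
    have h10 := congrFun hrow 0
    have h11 := congrFun hrow 1
    simp [vecMul, dotProduct, Fin.sum_univ_two] at h10 h11
    ext i j
    fin_cases i <;> fin_cases j
    · rfl
    · rfl
    · exact h10
    · exact h11
  rw [e1, e2, e3, e4, mulVec_zero] at h1
  exact lem3 h3 h1

theorem lem1 (h3 : ρ 3 = 0) {N M N' M' : Matrix (Fin 2) (Fin 2) k}
    {a c a' c' : Fin 2 → k}
    (hT : MaxR ρ ![J332 k, B332 N M a c 0 0 0, B332 N' M' a' c' 0 0 0])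
    (h : a 0 * a' 1 - a 1 * a' 0 ≠ 0) : False := by
  have hc : B332 N M a c 0 0 0 * B332 N' M' a' c' 0 0 0 =
      B332 N' M' a' c' 0 0 0 * B332 N M a c 0 0 0 := hT.cn.1 1 2
  have hr := ((B332_comm0 _ _ _ _ _ _ _ _ _ _ _ _).1 hc).1
  have hN : N * N' = N' * N := by simpa using hr
  have n00 := congrFun (congrFun hN 0) 0
  have n01 := congrFun (congrFun hN 0) 1
  have n10 := congrFun (congrFun hN 1) 0
  simp only [Matrix.mul_apply, Fin.sum_univ_two] at n00 n01 n10
  obtain ⟨x, y, hxy, q0, q1, q2⟩ : ∃ x y : k, (x ≠ 0 ∨ y ≠ 0) ∧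
      x * N 0 1 + y * N' 0 1 = 0 ∧ x * N 1 0 + y * N' 1 0 = 0 ∧
      x * (N 0 0 - N 1 1) + y * (N' 0 0 - N' 1 1) = 0 := by
    by_cases c1 : N' 0 1 = 0
    · by_cases c2 : N' 1 0 = 0
      · by_cases c3 : N' 0 0 - N' 1 1 = 0
        · exact ⟨0, 1, Or.inr one_ne_zero, by simp [c1], by simp [c2], by simp [c3]⟩
        · refine ⟨N' 0 0 - N' 1 1, -(N 0 0 - N 1 1), Or.inl c3, ?_, ?_, ?_⟩
          · linear_combination -n01
          · linear_combination n10
          · ring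
      · refine ⟨N' 1 0, -N 1 0, Or.inl c2, ?_, ?_, ?_⟩
        · linear_combination n00
        · ring
        · linear_combination -n10
    · refine ⟨N' 0 1, -N 0 1, Or.inl c1, ?_, ?_, ?_⟩
      · ring
      · linear_combination -n00
      · linear_combination n01
  obtain ⟨z, w, hzw⟩ : ∃ z w : k, z * y - w * x ≠ 0 := by
    rcases hxy with hx | hy
    · exact ⟨0, 1, by simpa using hx⟩
    · exact ⟨1, 0, by simpa using hy⟩
  have h1 := lin332 hT z w x y 0 0 0 0 hzw
  simp only [zero_smul, add_zero, mul_zero, smul_zero] at h1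
  have e1 : x • N + y • N' = (x * N 0 0 + y * N' 0 0) • (1 : Matrix (Fin 2) (Fin 2) k) := by
    ext i j
    fin_cases i <;> fin_cases j
    · simp
    · simpa using q0
    · simpa using q1
    · simp
      linear_combination -q2
  rw [e1] at h1
  refine lem2 h3 h1 ?_
  have : (z • a + w • a') 0 * (x • a + y • a') 1 - (z • a + w • a') 1 * (x • a + y • a') 0 =
      (z * y - w * x) * (a 0 * a' 1 - a 1 * a' 0) := by
    simp only [Pi.add_apply, Pi.smul_apply, smul_eq_mul]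
    ring
  rw [this]
  exact mul_ne_zero hzw h

theorem lem0 (h3 : ρ 3 = 0) {N M N' M' : Matrix (Fin 2) (Fin 2) k}
    {a c a' c' : Fin 2 → k} {nu nu' : k}
    (hT : MaxR ρ ![J332 k, B332 N M a c 0 0 nu, B332 N' M' a' c' 0 0 nu'])
    (h : a 0 * a' 1 - a 1 * a' 0 ≠ 0) : False := by
  have h1 := lin332 hT 1 0 0 1 (-nu) 0 (-nu') 0 (by simp)
  simp only [one_smul, zero_smul, add_zero, zero_add, one_mul, zero_mul, mul_zero, mul_one,
    smul_zero, add_neg_cancel] at h1
  exact lem1 h3 h1 h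

end

end T332LAux

open T332LAux in
theorem no_332L {k : Type*} [Field k] [IsAlgClosed k] [CharZero k] {ρ : ℕ → ℕ} (h3 : ρ 3 = 0)
    {N M N' M' : Matrix (Fin 2) (Fin 2) k} {a c d a' c' d' : Fin 2 → k} {nu nu' : k}
    (hT : MaxR ρ ![J332 k, B332 N M a c 0 d nu, B332 N' M' a' c' 0 d' nu'])
    (h : a 0 * a' 1 - a 1 * a' 0 ≠ 0) : False := by
  have hc : B332 N M a c 0 d nu * B332 N' M' a' c' 0 d' nu' =
      B332 N' M' a' c' 0 d' nu' * B332 N M a c 0 d nu := hT.cn.1 1 2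
  obtain ⟨hN, hr⟩ := (B332_comm0 _ _ _ _ _ _ _ _ _ _ _ _).1 hc
  have n00 := congrFun (congrFun hN 0) 0
  have n01 := congrFun (congrFun hN 0) 1
  have n10 := congrFun (congrFun hN 1) 0
  have n11 := congrFun (congrFun hN 1) 1
  have r0 := congrFun hr 0
  have r1 := congrFun hr 1
  simp only [Matrix.mul_apply, Matrix.add_apply, vecMulVec_apply, Fin.sum_univ_two,
    Pi.add_apply, Pi.smul_apply, smul_eq_mul, vecMul, dotProduct] at n00 n01 n10 n11 r0 r1
  -- the third column of the commutator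
  have s2 : a 0 * d' 0 + a 1 * d' 1 - (a' 0 * d 0 + a' 1 * d 1) = 0 := by
    linear_combination -n00 - n11
  set R0 : k := N 0 0 * d' 0 + N 0 1 * d' 1 + d 0 * nu' -
    (N' 0 0 * d 0 + N' 0 1 * d 1 + d' 0 * nu) with hR0
  set R1 : k := N 1 0 * d' 0 + N 1 1 * d' 1 + d 1 * nu' -
    (N' 1 0 * d 0 + N' 1 1 * d 1 + d' 1 * nu) with hR1
  have t1 : a 0 * R0 + a 1 * R1 = 0 := by
    rw [hR0, hR1]
    linear_combination (-N 0 0) * n00 - N 1 0 * n01 - N 0 1 * n10 - N 1 1 * n11 -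
      d 0 * r0 - d 1 * r1 - nu * s2
  have t2 : a' 0 * R0 + a' 1 * R1 = 0 := by
    rw [hR0, hR1]
    linear_combination (-N' 0 0) * n00 - N' 1 0 * n01 - N' 0 1 * n10 - N' 1 1 * n11 -
      d' 0 * r0 - d' 1 * r1 - nu' * s2
  have z0 : R0 = 0 := by
    have : (a 0 * a' 1 - a 1 * a' 0) * R0 = 0 := by linear_combination a' 1 * t1 - a 1 * t2
    exact (mul_eq_zero.1 this).resolve_left h
  have z1 : R1 = 0 := by
    have : (a 0 * a' 1 - a 1 * a' 0) * R1 = 0 := by linear_combination a 0 * t2 - a' 0 * t1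
    exact (mul_eq_zero.1 this).resolve_left h
  rw [hR0] at z0
  rw [hR1] at z1
  have hY : (!![N 0 0, N 0 1, d 0; N 1 0, N 1 1, d 1; a 0, a 1, nu] :
      Matrix (Fin 3) (Fin 3) k) * !![N' 0 0, N' 0 1, d' 0; N' 1 0, N' 1 1, d' 1; a' 0, a' 1, nu'] =
      !![N' 0 0, N' 0 1, d' 0; N' 1 0, N' 1 1, d' 1; a' 0, a' 1, nu'] *
      !![N 0 0, N 0 1, d 0; N 1 0, N 1 1, d 1; a 0, a 1, nu] := by
    ext i j
    fin_cases i <;> fin_cases j <;> simp [Matrix.mul_apply, Fin.sum_univ_three]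
    · linear_combination n00
    · linear_combination n01
    · linear_combination z0
    · linear_combination n10
    · linear_combination n11
    · linear_combination z1
    · linear_combination r0
    · linear_combination r1
    · linear_combination s2
  obtain ⟨f, l, l', hf, hl, hl'⟩ := common_eigen hY
  have l0 := congrFun hl 0
  have l1 := congrFun hl 1
  have l2 := congrFun hl 2
  have m0 := congrFun hl' 0
  have m1 := congrFun hl' 1
  have m2 := congrFun hl' 2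
  simp [mulVec, dotProduct, Fin.sum_univ_three] at l0 l1 l2 m0 m1 m2
  have hf2 : f 2 ≠ 0 := by
    intro h0
    rw [h0] at l2 m2
    simp at l2 m2
    have f0 : f 0 = 0 := by
      have : (a 0 * a' 1 - a 1 * a' 0) * f 0 = 0 := by linear_combination a' 1 * l2 - a 1 * m2
      exact (mul_eq_zero.1 this).resolve_left h
    have f1 : f 1 = 0 := by
      have : (a 0 * a' 1 - a 1 * a' 0) * f 1 = 0 := by linear_combination a 0 * m2 - a' 0 * l2
      exact (mul_eq_zero.1 this).resolve_left h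
    apply hf
    funext i
    fin_cases i
    exacts [f0, f1, h0]
  have h1 := conjU hT ![-(f 0 / f 2), -(f 1 / f 2)]
  have e1 : d - N *ᵥ ![-(f 0 / f 2), -(f 1 / f 2)] +
      (nu - a ⬝ᵥ ![-(f 0 / f 2), -(f 1 / f 2)]) • ![-(f 0 / f 2), -(f 1 / f 2)] = 0 := by
    ext i
    fin_cases i <;> simp [vecHead, vecTail, dotProduct, Fin.sum_univ_two] <;> field_simp
    · linear_combination f 2 * l0 - f 0 * l2
    · linear_combination f 2 * l1 - f 1 * l2
  have e2 : d' - N' *ᵥ ![-(f 0 / f 2), -(f 1 / f 2)] +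
      (nu' - a' ⬝ᵥ ![-(f 0 / f 2), -(f 1 / f 2)]) • ![-(f 0 / f 2), -(f 1 / f 2)] = 0 := by
    ext i
    fin_cases i <;> simp [vecHead, vecTail, dotProduct, Fin.sum_univ_two] <;> field_simp
    · linear_combination f 2 * m0 - f 0 * m2
    · linear_combination f 2 * m1 - f 1 * m2
  rw [e1, e2] at h1
  exact lem0 h3 h1 h

end Pool.Agent.Lib.D8
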