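import Pool.Agent.Lib.D8.R332A
import Pool.Agent.Lib.D8.T332G
import Pool.Agent.Lib.D8.T332L

/-!
Module T332 (2h; black boxes no_332A, no_332G, no_332L). Type (3,3,2).
PROOF of no_332. ρ 3 = 0 (J332_cube). (S) X in adj T commutes with A = J332, A^2 X = 0 and A X^2 = 0 (mul3). Entrywise: X = x1 A + x2 A^2 + B332 N M a c b d nu in the form: X maps e in E_0 to A N e + A^2 M e + a(e) u0 + c(e) u1 (the E_0 -> E_0 part P vanishes: A^2 X e = A^2 P e), Ae to A(X e),
u0 -> A b + A^2 d + z u0 + nu u1 with z^2 = 0 (u1-coordinate of A X^2 u0 is z^2 + .. ; use z from A X^2 = 0), u1 -> A^2 b. So T 1 = B332 .., T 2 = B332 .. (no need to subtract anything).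
A X^2 = 0 for X = B, C, B + C gives a_i b_j = 0 for B, for C and a_i b'_j + a'_i b_j = 0. So b = b' = 0 or a = a' = 0; in the second case use duality (maxR_dual with P332, B332_dual, J332_dual) : WLOG b = b' = 0 (lemma no_332b).
(no_332b) If a 0 * a' 1 - a 1 * a' 0 ≠ 0: no_332L. Otherwise a, a' are dependent: MaxR.lin => a' = 0. If also a = 0: no_332G. If a ≠ 0: conj by G332 => a = (0, 1). Relations (B332_comm0) with a' = 0: a N' = nu' a, so N' = !![n, m; 0, nu'];
N N' - N' N = d' (x) a, so its first column vanishes: N 1 0 = 0, or m = 0 and n = nu'.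
 (i) N 1 0 = 0: subtract N 0 0 A and n A: first columns of N, N' vanish: N = !![0, x; 0, y], a = (0, 1), N' = !![0, m; 0, y'], a' = (0, 0), nu' = y' (new values). If (m, y') ≠ (0, 0): no_332A (minor x z' - x' z or y z' - y' z with z = 1, z' = 0). If m = y' = 0: N' = 0, nu' = 0, d' (x) a = 0 so d' = 0: case (Z).
 (ii) N' = nu' 1, so d' = 0: subtract nu' A: N' = 0, nu' = 0, d' = 0, a' = 0: case (Z).
(Z) C = B332 0 M' 0 c' 0 0 0, B = B332 N M (0, 1) c 0 d nu arbitrary (all parameters free). Deform N 1 0 ≠ 0 (MaxR.line2). Now K := B332 (N * N + vecMulVec d a) 0 (a ᵥ* N + nu • a) 0 0 (N *ᵥ d + nu • d) (a ⬝ᵥ d + nu ^ 2) commutes with B (B332_comm0), C_s = C + s K, T_s = (A, B, C_s) CN,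
and a, a_s' = s (a N + nu a) are independent for s ≠ 0 (a = (0, 1), (a N) 0 = N 1 0 ≠ 0): MaxR.line2 and no_332L.
-/

namespace Pool.Agent.Lib.D8

open Matrix Pool.Agent.Lib.Q5dc Pool.Agent.Lib.D7

namespace T332Aux

section Shape

variable {k : Type*} [Field k]

theorem J_left (X : Matrix (Fin 8) (Fin 8) k) (i j : Fin 8) :
    (J332 k * X) i j = ![0, X 0 j, X 1 j, 0, X 3 j, X 4 j, 0, X 6 j] i := by
  fin_cases i <;> simp [J332, Matrix.mul_apply, Fin.sum_univ_eight]

theorem J_right (X : Matrix (Fin 8) (Fin 8) k) (i j : Fin 8) :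
    (X * J332 k) i j = ![X i 1, X i 2, 0, X i 4, X i 5, 0, X i 7, 0] j := by
  fin_cases j <;> simp [J332, Matrix.mul_apply, Fin.sum_univ_eight]

theorem shape {X : Matrix (Fin 8) (Fin 8) k} (h1 : J332 k * X = X * J332 k)
    (h2 : J332 k * J332 k * X = 0) (h3 : J332 k * X * X = 0) :
    ∃ (N M : Matrix (Fin 2) (Fin 2) k) (a c b d : Fin 2 → k) (nu : k),
      X = B332 N M a c b d nu := by
  have r0 : ∀ j, X 0 j = 0 := by
    intro j
    have h : (J332 k * (J332 k * X)) 2 j = 0 := by
      rw [← mul_assoc, h2]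
      rfl
    simpa [J_left] using h
  have r3 : ∀ j, X 3 j = 0 := by
    intro j
    have h : (J332 k * (J332 k * X)) 5 j = 0 := by
      rw [← mul_assoc, h2]
      rfl
    simpa [J_left] using h
  have H : ∀ i j, ![0, X 0 j, X 1 j, 0, X 3 j, X 4 j, 0, X 6 j] i =
      ![X i 1, X i 2, 0, X i 4, X i 5, 0, X i 7, 0] j := by
    intro i j
    rw [← J_left, ← J_right, h1]
  have h66 : X 6 6 = 0 := by
    have h06 : X 0 6 = 0 := r0 6
    have h36 : X 3 6 = 0 := r3 6
    have h16 : X 6 1 = 0 := by simpa using (H 6 0).symm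
    have h62 : X 6 2 = 0 := by simpa using (H 6 1).symm
    have h64 : X 6 4 = 0 := by simpa using (H 6 3).symm
    have h65 : X 6 5 = 0 := by simpa using (H 6 4).symm
    have h67 : X 6 7 = 0 := by simpa using (H 6 6).symm
    have h : (J332 k * (X * X)) 7 6 = 0 := by
      rw [← mul_assoc, h3]
      rfl
    rw [J_left] at h
    simp [Matrix.mul_apply, Fin.sum_univ_eight, h06, h36, h16, h62, h64, h65, h67] at h
    exact h
  refine ⟨!![X 1 0, X 1 3; X 4 0, X 4 3], !![X 2 0, X 2 3; X 5 0, X 5 3], ![X 6 0, X 6 3],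
    ![X 7 0, X 7 3], ![X 1 6, X 4 6], ![X 2 6, X 5 6], X 7 6, ?_⟩
  have e11 : X 1 1 = 0 := by simpa [r0] using (H 1 0).symm
  have e12 : X 1 2 = 0 := by simpa [r0] using (H 1 1).symm
  have e14 : X 1 4 = 0 := by simpa [r0] using (H 1 3).symm
  have e15 : X 1 5 = 0 := by simpa [r0] using (H 1 4).symm
  have e17 : X 1 7 = 0 := by simpa [r0] using (H 1 6).symm
  have e41 : X 4 1 = 0 := by simpa [r3] using (H 4 0).symm
  have e42 : X 4 2 = 0 := by simpa [r3] using (H 4 1).symm
  have e44 : X 4 4 = 0 := by simpa [r3] using (H 4 3).symm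
  have e45 : X 4 5 = 0 := by simpa [r3] using (H 4 4).symm
  have e47 : X 4 7 = 0 := by simpa [r3] using (H 4 6).symm
  have e21 : X 2 1 = X 1 0 := by simpa using (H 2 0).symm
  have e22 : X 2 2 = 0 := by simpa [e11] using (H 2 1).symm
  have e24 : X 2 4 = X 1 3 := by simpa using (H 2 3).symm
  have e25 : X 2 5 = 0 := by simpa [e14] using (H 2 4).symm
  have e27 : X 2 7 = X 1 6 := by simpa using (H 2 6).symm
  have e51 : X 5 1 = X 4 0 := by simpa using (H 5 0).symm
  have e52 : X 5 2 = 0 := by simpa [e41] using (H 5 1).symm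
  have e54 : X 5 4 = X 4 3 := by simpa using (H 5 3).symm
  have e55 : X 5 5 = 0 := by simpa [e44] using (H 5 4).symm
  have e57 : X 5 7 = X 4 6 := by simpa using (H 5 6).symm
  have e61 : X 6 1 = 0 := by simpa using (H 6 0).symm
  have e62 : X 6 2 = 0 := by simpa using (H 6 1).symm
  have e64 : X 6 4 = 0 := by simpa using (H 6 3).symm
  have e65 : X 6 5 = 0 := by simpa using (H 6 4).symm
  have e67 : X 6 7 = 0 := by simpa using (H 6 6).symm
  have e71 : X 7 1 = X 6 0 := by simpa using (H 7 0).symm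
  have e72 : X 7 2 = 0 := by simpa [e61] using (H 7 1).symm
  have e74 : X 7 4 = X 6 3 := by simpa using (H 7 3).symm
  have e75 : X 7 5 = 0 := by simpa [e64] using (H 7 4).symm
  have e77 : X 7 7 = 0 := by simpa [h66] using (H 7 6).symm
  ext i j
  fin_cases i <;> fin_cases j <;>
    simp [B332, r0, r3, h66, e11, e12, e14, e15, e17, e41, e42, e44, e45, e47, e21, e22, e24, e25,
      e27, e51, e52, e54, e55, e57, e61, e62, e64, e65, e67, e71, e72, e74, e75, e77]

/-- `A X ^ 2 = 0` -/
theorem ab_zero {N M : Matrix (Fin 2) (Fin 2) k} {a c b d : Fin 2 → k} {nu : k}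
    (h : J332 k * B332 N M a c b d nu * B332 N M a c b d nu = 0) (i j : Fin 2) :
    b i * a j = 0 := by
  rw [mul_assoc, B332_mul, J332_eq, B332_mul] at h
  have h0 : (0 : Matrix (Fin 8) (Fin 8) k) = B332 0 0 0 0 0 0 0 := by
    ext i j
    fin_cases i <;> fin_cases j <;> simp [B332]
  rw [h0, B332_inj] at h
  have h1 := congrFun (congrFun h.2.1 i) j
  simpa [vecMulVec_apply, vecMulVec_zero, zero_vecMulVec] using h1

end Shape

section Red

variable {k : Type*} [Field k]

theorem K_comm (N : Matrix (Fin 2) (Fin 2) k) (a d : Fin 2 → k) (nu s : k) :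
    N * (s • (N * N + vecMulVec d a)) + vecMulVec d (s • (a ᵥ* N + nu • a)) =
      s • (N * N + vecMulVec d a) * N + vecMulVec (s • (N *ᵥ d + nu • d)) a ∧
    a ᵥ* (s • (N * N + vecMulVec d a)) + nu • (s • (a ᵥ* N + nu • a)) =
      (s • (a ᵥ* N + nu • a)) ᵥ* N + (s * (a ⬝ᵥ d + nu ^ 2)) • a := by
  constructor
  · ext i j
    simp only [Matrix.mul_apply, Matrix.add_apply, Matrix.smul_apply, vecMulVec_apply, vecMul,
      mulVec, dotProduct, Fin.sum_univ_two, Pi.add_apply, Pi.smul_apply, smul_eq_mul]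
    ring
  · ext i
    simp only [Matrix.mul_apply, Matrix.add_apply, Matrix.smul_apply, vecMulVec_apply, vecMul,
      dotProduct, Fin.sum_univ_two, Pi.add_apply, Pi.smul_apply, smul_eq_mul]
    ring

variable [CharZero k] {ρ : ℕ → ℕ}

theorem comm_of {N M N' M' : Matrix (Fin 2) (Fin 2) k} {a c d a' c' d' : Fin 2 → k} {nu nu' : k}
    (hT : MaxR ρ ![J332 k, B332 N M a c 0 d nu, B332 N' M' a' c' 0 d' nu']) :
    N * N' + vecMulVec d a' = N' * N + vecMulVec d' a ∧
      a ᵥ* N' + nu • a' = a' ᵥ* N + nu' • a :=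
  (B332_comm0 _ _ _ _ _ _ _ _ _ _ _ _).1 (hT.cn.comm (mem1 _ _ _) (mem2 _ _ _))

theorem lin332 {N M N' M' : Matrix (Fin 2) (Fin 2) k} {a c d a' c' d' : Fin 2 → k} {nu nu' : k}
    (hT : MaxR ρ ![J332 k, B332 N M a c 0 d nu, B332 N' M' a' c' 0 d' nu'])
    (p q r s x y : k) (h : p * s - q * r ≠ 0) :
    MaxR ρ ![J332 k, B332 (p • N + q • N' + x • 1) (p • M + q • M') (p • a + q • a')
      (p • c + q • c') 0 (p • d + q • d') (p * nu + q * nu' + x),
      B332 (r • N + s • N' + y • 1) (r • M + s • M') (r • a + s • a')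
      (r • c + s • c') 0 (r • d + s • d') (r * nu + s * nu' + y)] := by
  have h1 := MaxR.lin hT p q r s x 0 y 0 h
  have e : ∀ p q x : k, p • B332 N M a c 0 d nu + q • B332 N' M' a' c' 0 d' nu' + x • J332 k +
      (0 : k) • (J332 k * J332 k) = B332 (p • N + q • N' + x • 1) (p • M + q • M') (p • a + q • a')
      (p • c + q • c') 0 (p • d + q • d') (p * nu + q * nu' + x) := by
    intro p q x
    rw [zero_smul, add_zero, J332_eq, B332_smul, B332_smul, B332_smul, B332_add, B332_add]
    simp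
  rw [e, e] at h1
  exact h1

variable [IsAlgClosed k]

/-- case (Z) -/
theorem caseZ (h3 : ρ 3 = 0) {N M M' : Matrix (Fin 2) (Fin 2) k} {c d c' : Fin 2 → k} {nu : k}
    (hT : MaxR ρ ![J332 k, B332 N M ![0, 1] c 0 d nu, B332 0 M' 0 c' 0 0 0]) : False := by
  -- `N 1 0 ≠ 0`
  have key : ∀ N : Matrix (Fin 2) (Fin 2) k, N 1 0 ≠ 0 →
      MaxR ρ ![J332 k, B332 N M ![0, 1] c 0 d nu, B332 0 M' 0 c' 0 0 0] → False := by
    intro N hN hT
    obtain ⟨s, hs, h1⟩ := MaxR.line2 hT 0
      (B332 (N * N + vecMulVec d ![0, 1]) 0 (![0, 1] ᵥ* N + nu • ![0, 1]) 0 0 (N *ᵥ d + nu • d)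
        (![0, 1] ⬝ᵥ d + nu ^ 2)) (fun s => by
        rw [smul_zero, add_zero, B332_smul, B332_add]
        refine B332_cn ?_
        simp only [smul_zero, add_zero]
        rw [B332_comm0]
        have := K_comm N ![0, 1] d nu s
        simpa using this) (Set.finite_singleton (0 : k))
    rw [smul_zero, add_zero, B332_smul, B332_add] at h1
    simp only [smul_zero, add_zero] at h1
    refine no_332L h3 h1 ?_
    have hs' : s ≠ 0 := hs
    have e0 : (![0, 1] ᵥ* N) 0 = N 1 0 := by
      simp [vecMul, dotProduct, Fin.sum_univ_two]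
    simp only [Pi.add_apply, Pi.smul_apply, e0, Pi.zero_apply]
    simp [hs', hN]
  by_cases h10 : N 1 0 = 0
  · obtain ⟨s, hs, h1⟩ := MaxR.line2 hT (B332 !![0, 0; 1, 0] 0 0 0 0 0 0) 0 (fun s => by
        rw [smul_zero, add_zero, B332_smul, B332_add]
        refine B332_cn ?_
        simp only [smul_zero, add_zero]
        rw [B332_comm0]
        simp) (Set.finite_singleton (0 : k))
    rw [smul_zero, add_zero, B332_smul, B332_add] at h1
    simp only [smul_zero, add_zero] at h1
    refine key _ ?_ (by simpa using h1)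
    simpa [h10] using hs
  · exact key N h10 hT

/-- `a = (0, 1)`, `a' = 0` -/
theorem case_d (h3 : ρ 3 = 0) {N M N' M' : Matrix (Fin 2) (Fin 2) k} {c d c' d' : Fin 2 → k}
    {nu nu' : k}
    (hT : MaxR ρ ![J332 k, B332 N M ![0, 1] c 0 d nu, B332 N' M' 0 c' 0 d' nu']) : False := by
  obtain ⟨h1, h2⟩ := comm_of hT
  have g0 := congrFun h2 0
  have g1 := congrFun h2 1
  have f00 := congrFun (congrFun h1 0) 0
  have f01 := congrFun (congrFun h1 0) 1
  have f10 := congrFun (congrFun h1 1) 0
  have f11 := congrFun (congrFun h1 1) 1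
  simp [Matrix.mul_apply, vecMul, dotProduct, Fin.sum_univ_two] at g0 g1 f00 f01 f10 f11
  have hN : N = !![N 0 0, N 0 1; N 1 0, N 1 1] := Matrix.eta_fin_two N
  have hN' : N' = !![N' 0 0, N' 0 1; 0, nu'] := by
    rw [← g0, ← g1]
    exact Matrix.eta_fin_two N'
  -- case (Z) from `N' = nu' 1`
  have hZ : N' 0 1 = 0 → N' 0 0 = nu' → False := by
    intro k1 k2
    have hd : d' = 0 := by
      funext i
      fin_cases i
      · simp only [Fin.zero_eta, Fin.isValue, Pi.zero_apply]
        rw [k1, k2, g1] at f01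
        linear_combination -f01
      · simp only [Fin.mk_one, Fin.isValue, Pi.zero_apply]
        rw [k1, g1, g0] at f11
        linear_combination -f11
    have h5 := lin332 hT 1 0 0 1 0 (-nu') (by simp)
    have e1 : (0 : k) • N + (1 : k) • N' + (-nu') • (1 : Matrix (Fin 2) (Fin 2) k) = 0 := by
      rw [hN', k1, k2]
      ext i j
      fin_cases i <;> fin_cases j <;> simp
    rw [e1, hd] at h5
    simp only [one_smul, zero_smul, add_zero, zero_add, smul_zero, one_mul, zero_mul,
      add_neg_cancel] at h5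
    exact caseZ h3 h5
  by_cases h10 : N 1 0 = 0
  · by_cases hm : N' 0 1 = 0 ∧ N' 0 0 = nu'
    · exact hZ hm.1 hm.2
    · have h5 := lin332 hT 1 0 0 1 (-N 0 0) (-N' 0 0) (by simp)
      have e1 : (1 : k) • N + (0 : k) • N' + (-N 0 0) • (1 : Matrix (Fin 2) (Fin 2) k) =
          !![0, N 0 1; 0, N 1 1 - N 0 0] := by
        ext i j
        fin_cases i <;> fin_cases j <;> simp [h10, sub_eq_add_neg]
      have e2 : (0 : k) • N + (1 : k) • N' + (-N' 0 0) • (1 : Matrix (Fin 2) (Fin 2) k) =
          !![0, N' 0 1; 0, nu' - N' 0 0] := by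
        ext i j
        fin_cases i <;> fin_cases j <;> simp [g0, g1, sub_eq_add_neg]
      have e3 : (1 : k) • (![0, 1] : Fin 2 → k) + (0 : k) • (0 : Fin 2 → k) = ![0, 1] := by simp
      have e4 : (0 : k) • (![0, 1] : Fin 2 → k) + (1 : k) • (0 : Fin 2 → k) = ![0, 0] := by
        ext i
        fin_cases i <;> simp
      rw [e1, e2, e3, e4] at h5
      refine no_332A h3 h5 ?_
      rw [not_and_or] at hm
      rcases hm with hm | hm
      · right
        left
        simpa using hm
      · right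
        right
        intro h
        apply hm
        linear_combination h
  · refine hZ ?_ ?_
    · have : N' 0 1 * N 1 0 = 0 := by
        rw [g0] at f00
        linear_combination -f00
      exact (mul_eq_zero.1 this).resolve_right h10
    · have : (N' 0 0 - nu') * N 1 0 = 0 := by
        rw [g0, g1] at f10
        linear_combination f10
      exact sub_eq_zero.1 ((mul_eq_zero.1 this).resolve_right h10)

/-- `a' = 0` -/
theorem case_c (h3 : ρ 3 = 0) {N M N' M' : Matrix (Fin 2) (Fin 2) k} {a c d c' d' : Fin 2 → k}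
    {nu nu' : k}
    (hT : MaxR ρ ![J332 k, B332 N M a c 0 d nu, B332 N' M' 0 c' 0 d' nu']) : False := by
  by_cases ha : a = 0
  · subst ha
    exact no_332G h3 hT
  have key : ∀ g h : Matrix (Fin 2) (Fin 2) k, g * h = 1 → h * g = 1 → a ᵥ* h = ![0, 1] →
      False := by
    intro g h hgh hhg hah
    have h5 := hT.conj (G332 g) (G332 h) (by rw [G332_mul, hgh, G332_one])
      (by rw [G332_mul, hhg, G332_one])
    have e : (fun i => G332 g * (![J332 k, B332 N M a c 0 d nu, B332 N' M' 0 c' 0 d' nu'] :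
        Fin 3 → Matrix (Fin 8) (Fin 8) k) i * G332 h) =
        ![J332 k, B332 (g * N * h) (g * M * h) ![0, 1] (c ᵥ* h) 0 (g *ᵥ d) nu,
          B332 (g * N' * h) (g * M' * h) 0 (c' ᵥ* h) 0 (g *ᵥ d') nu'] := by
      funext i
      fin_cases i
      · exact G332_J _ _ hgh
      · show G332 g * B332 N M a c 0 d nu * G332 h = _
        rw [G332_conj, hah]
        simp
      · show G332 g * B332 N' M' 0 c' 0 d' nu' * G332 h = _
        rw [G332_conj]
        simp
    rw [e] at h5
    exact case_d h3 h5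
  by_cases h1 : a 1 = 0
  · have h0 : a 0 ≠ 0 := by
      intro h0
      apply ha
      funext i
      fin_cases i
      · exact h0
      · exact h1
    refine key !![0, 1; a 0, 0] !![0, (a 0)⁻¹; 1, 0] ?_ ?_ ?_
    · ext i j
      fin_cases i <;> fin_cases j <;> simp [h0]
    · ext i j
      fin_cases i <;> fin_cases j <;> simp [h0]
    · ext i
      fin_cases i <;> simp [vecMul, dotProduct, Fin.sum_univ_two, h0, h1]
  · refine key !![1, 0; a 0, a 1] !![1, 0; -(a 0 / a 1), (a 1)⁻¹] ?_ ?_ ?_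
    · ext i j
      fin_cases i <;> fin_cases j <;> simp [h1]
      field_simp
      ring
    · ext i j
      fin_cases i <;> fin_cases j <;> simp [h1]
      field_simp
      ring
    · ext i
      fin_cases i <;> simp [vecMul, dotProduct, Fin.sum_univ_two, h1]
      field_simp
      ring

theorem no_332b (h3 : ρ 3 = 0) {N M N' M' : Matrix (Fin 2) (Fin 2) k}
    {a c d a' c' d' : Fin 2 → k} {nu nu' : k}
    (hT : MaxR ρ ![J332 k, B332 N M a c 0 d nu, B332 N' M' a' c' 0 d' nu']) : False := by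
  by_cases hD : a 0 * a' 1 - a 1 * a' 0 = 0
  · by_cases ha' : a' = 0
    · subst ha'
      exact case_c h3 hT
    · have key : ∀ i, a' i ≠ 0 → False := by
        intro i hi
        have h5 := lin332 hT 0 1 (a' i) (-a i) 0 0 (by simpa using hi)
        have e : a' i • a + (-a i) • a' = 0 := by
          funext j
          fin_cases i <;> fin_cases j <;> simp
          · ring
          · linear_combination -hD
          · linear_combination hD
          · ring
        rw [e] at h5
        exact case_c h3 h5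
      obtain ⟨i, hi⟩ := Function.ne_iff.1 ha'
      exact key i hi
  · exact no_332L h3 hT hD

end Red

end T332Aux

theorem no_332 {k : Type*} [Field k] [IsAlgClosed k] [CharZero k] {ρ : ℕ → ℕ}
    {T : Fin 3 → Matrix (Fin 8) (Fin 8) k} (hT : MaxR ρ T)
    (hρ : ∀ i, ρ i = (J332 k ^ i).rank) (h0 : T 0 = J332 k) : False := by
  have h3 : ρ 3 = 0 := by rw [hρ, J332_cube, Matrix.rank_zero]
  have hT3 : T = ![J332 k, T 1, T 2] := by
    funext i
    fin_cases i
    · exact h0
    · rfl
    · rfl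
  have mA : J332 k ∈ adj T := by
    rw [← h0]
    exact mem_adj T 0
  have sh : ∀ X ∈ adj T, ∃ (N M : Matrix (Fin 2) (Fin 2) k) (a c b d : Fin 2 → k) (nu : k),
      X = B332 N M a c b d nu := by
    intro X hX
    exact T332Aux.shape (hT.cn.comm mA hX) (mul3 hT h3 mA mA hX) (mul3 hT h3 mA hX hX)
  have m1 : T 1 ∈ adj T := mem_adj T 1
  have m2 : T 2 ∈ adj T := mem_adj T 2
  obtain ⟨N, M, a, c, b, d, nu, e1⟩ := sh _ m1
  obtain ⟨N', M', a', c', b', d', nu', e2⟩ := sh _ m2
  have q1 : ∀ i j, b i * a j = 0 := by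
    have := mul3 hT h3 mA m1 m1
    rw [e1] at this
    exact T332Aux.ab_zero this
  have q2 : ∀ i j, b' i * a' j = 0 := by
    have := mul3 hT h3 mA m2 m2
    rw [e2] at this
    exact T332Aux.ab_zero this
  have q3 : ∀ i j, (b + b') i * (a + a') j = 0 := by
    have := mul3 hT h3 mA (add_mem m1 m2) (add_mem m1 m2)
    rw [e1, e2, B332_add] at this
    exact T332Aux.ab_zero this
  have q4 : ∀ i j, b i * a' j + b' i * a j = 0 := by
    intro i j
    have := q3 i j
    simp only [Pi.add_apply] at this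
    linear_combination this - q1 i j - q2 i j
  have hor : (b = 0 ∧ b' = 0) ∨ (a = 0 ∧ a' = 0) := by
    by_cases hb : b = 0
    · by_cases hb' : b' = 0
      · exact Or.inl ⟨hb, hb'⟩
      · obtain ⟨i, hi⟩ := Function.ne_iff.1 hb'
        right
        refine ⟨?_, ?_⟩
        · funext j
          have := q4 i j
          rw [hb] at this
          simpa [show b' i ≠ 0 from hi] using this
        · funext j
          exact (mul_eq_zero.1 (q2 i j)).resolve_left hi
    · obtain ⟨i, hi⟩ := Function.ne_iff.1 hb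
      have ha : a = 0 := by
        funext j
        exact (mul_eq_zero.1 (q1 i j)).resolve_left hi
      right
      refine ⟨ha, ?_⟩
      funext j
      have := q4 i j
      rw [ha] at this
      simpa [show b i ≠ 0 from hi] using this
  rcases hor with ⟨hb, hb'⟩ | ⟨ha, ha'⟩
  · have h5 := hT
    rw [hT3, e1, e2, hb, hb'] at h5
    exact T332Aux.no_332b h3 h5
  · have h5 : MaxR ρ ![J332 k, B332 Nᵀ Mᵀ b d 0 c nu, B332 N'ᵀ M'ᵀ b' d' 0 c' nu'] := by
      refine maxR_dual (P332 k) P332_sq hT ?_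
      intro i
      fin_cases i
      · show P332 k * (T 0)ᵀ * P332 k = J332 k
        rw [h0, J332_dual]
      · show P332 k * (T 1)ᵀ * P332 k = B332 Nᵀ Mᵀ b d 0 c nu
        rw [e1, B332_dual, ha]
      · show P332 k * (T 2)ᵀ * P332 k = B332 N'ᵀ M'ᵀ b' d' 0 c' nu'
        rw [e2, B332_dual, ha']
    exact T332Aux.no_332b h3 h5

end Pool.Agent.Lib.D8
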