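import Pool.Agent.Lib.D8.T4211Y

/-!
Module T4211 (2.5h). Type (4,2,1,1). (Compare D7/T3211a..e.lean of helper26 and D7/T421a.lean: same method.)
X = B4211 al al1 w be be1 ga pi th e N modulo A, A^2, A^3 (shape: X commutes with A; diagonal coefficients vanish by nilpotency). v0..v3 = 0..3, u0, u1 = 4, 5, P = <e6, e7>.
(c) rank (A + s X) <= 4 (J4211_rank): 5 x 5 minor rows v1, v2, v3, u1, P_i, columns v0, v1, v2, u0, P_j = s (1 + s ga - s^2 al be) N_ij - s^2 e_j pi_i. So N = 0 and e_j pi_i = 0, for all X in <B, C>: e = e' = 0 or pi = pi' = 0.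
Relations BC = CB for N = N' = 0 (X, Y = B, C; sym: symmetric in X, Y): al_Y be_X sym; al_Y be1_X + al1_Y be_X + th_X · w_Y sym; al_Y ga_X + e_X · w_Y sym; al_Y pi_X sym; ga_Y be_X + th_X · pi_Y sym; e_X · pi_Y sym; be_X e_Y sym.
(dual) maxR_dual with P4211, B4211_dual: exchanges (al, al1, w, pi) and (be, be1, th, e). So WLOG e = e' = 0.
(1) (al, al') ≠ 0: MaxR.lin => al = 1, al' = 0. Then be' = 0, pi' = 0, ga' = 0, th' · pi = 0. Choose x ≠ 0 in k^2 with th' · x = 0: family pi -> pi + s x: CN; so WLOG pi ≠ 0. Now family e -> s y (e' = 0), y ≠ 0 with y · w' = 0: CN for all s; a MaxR member with s ≠ 0 contradicts (c) (e_j pi_i ≠ 0 for some i, j).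
(2) al = al' = 0, e = e' = 0: dual: be = be' = 0, pi = pi' = 0 (script A), al, w, .. arbitrary. Dh = <u0> + P (dimension 3), ah = (al, w), G: Dh -> <u1, v3>: u0 -> ga u1 + be1 v3, P_j -> e_j u1 + th_j v3; relations: G ah' = G' ah only. al1 free.
 Reach ah, ah' independent and (al, al') ≠ 0: if ah = ah' = 0: (x, x') ≠ 0 with G x' = G' x (2 equations, 6 unknowns), family s x, s x'; then swap so that ah' ≠ 0; family ah + s x, G + s (G' x) (x) φ (φ(ah') = 1) for any x: take x = u0 if al' = 0, otherwise x independent of ah'.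
 Linear change + conj (basis v0..v3, B v0, A B v0, C v0, q with q in Dh completing; if necessary swap so that al ≠ 0): B v0 = u0, C v0 = P_0 =: p: al = 1, al1 = 0, w = 0, al' = 0, al1' = 0, w' = (1, 0): B = B4211 1 0 0 0 be1 ga 0 th e 0, C = B4211 0 0 ![1,0] 0 be1' ga' 0 th' e' 0, with e 0 = ga', th 0 = be1' (al' = 0 after C -> C - al' B).
 Raise: q = e7. Find f_A in <u0, p>, f_B, f_C in <v2, u0, p>, not all 0, with A f_B = B f_A, A f_C = C f_A, B f_C = C f_B (values in <u1, v3>: 6 equations, 8 unknowns; A v2 = v3, B v2 = C v2 = 0). Family T_i + s f_i (x) e7* (cn_rankone in D7/T3211a): CN for all s. If f_A ≠ 0: rank (A + s f_A (x) e7*) = 5.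
 If f_A = 0: A f_B = 0, A f_C = 0 give f_B, f_C in k p, not both 0: rank (A + x (B + s f_B (x) e7*) + y (C + s f_C (x) e7*)) >= 5 for suitable x, y (x = 1, y = 0 scaled, or x = 0): images of v0, v1, v2, u0, q are v1 + x u0 + .., v2 + .., v3, u1 + .., s p + ... MaxR.raise with i = 1.
-/

namespace Pool.Agent.Lib.D8

open Matrix Pool.Agent.Lib.Q5dc Pool.Agent.Lib.D7

namespace T4211Aux

variable {k : Type*} [Field k]

theorem poly_zero [CharZero k] {n ga ab e p : k}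
    (h : ∀ t : k, (1 + t * ga - t * t * ab) * (t * n) - (t * e) * (t * p) = 0) :
    n = 0 ∧ e * p = 0 := by
  have : Infinite k := CharZero.infinite k
  by_contra hcon
  have h1 : n ≠ 0 ∨ ga * n - e * p ≠ 0 ∨ -(ab * n) ≠ 0 := by
    by_contra h2
    push Not at h2
    obtain ⟨h3, h4, -⟩ := h2
    rw [h3] at h4
    exact hcon ⟨h3, by linear_combination -h4⟩
  obtain ⟨t, ht⟩ := ((Set.finite_singleton (0 : k)).union (finite_quad h1)).infinite_compl.nonempty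
  rw [Set.mem_compl_iff, Set.mem_union, not_or, Set.mem_singleton_iff, Set.mem_ofPred_eq] at ht
  have h2 : t * (n + (ga * n - e * p) * t + -(ab * n) * t ^ 2) = 0 := by
    linear_combination h t
  rcases mul_eq_zero.mp h2 with h3 | h3
  · exact ht.1 h3
  · exact ht.2 h3

theorem cond [CharZero k] {ρ : ℕ → ℕ} (hρ : ρ 1 ≤ 4) {T : Fin 3 → Matrix (Fin 8) (Fin 8) k}
    (hT : MaxR ρ T) (h0 : J4211 k ∈ adj T)
    {al al1 w0 w1 be be1 ga p0 p1 t0 t1 e0 e1 n00 n01 n10 n11 : k}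
    (hX : Q al al1 w0 w1 be be1 ga p0 p1 t0 t1 e0 e1 n00 n01 n10 n11 ∈ adj T) :
    (n00 = 0 ∧ n01 = 0 ∧ n10 = 0 ∧ n11 = 0) ∧ e0 * p0 = 0 ∧ e0 * p1 = 0 ∧ e1 * p0 = 0 ∧
      e1 * p1 = 0 := by
  have : Infinite k := CharZero.infinite k
  have key : ∀ (t : k) (i j : Fin 8), (i = 6 ∨ i = 7) → (j = 6 ∨ j = 7) →
      ((J4211 k + t • Q al al1 w0 w1 be be1 ga p0 p1 t0 t1 e0 e1 n00 n01 n10 n11) 5 4 -
        (J4211 k + t • Q al al1 w0 w1 be be1 ga p0 p1 t0 t1 e0 e1 n00 n01 n10 n11) 5 1 *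
        (J4211 k + t • Q al al1 w0 w1 be be1 ga p0 p1 t0 t1 e0 e1 n00 n01 n10 n11) 2 4) *
        (J4211 k + t • Q al al1 w0 w1 be be1 ga p0 p1 t0 t1 e0 e1 n00 n01 n10 n11) i j -
      ((J4211 k + t • Q al al1 w0 w1 be be1 ga p0 p1 t0 t1 e0 e1 n00 n01 n10 n11) 5 j -
        (J4211 k + t • Q al al1 w0 w1 be be1 ga p0 p1 t0 t1 e0 e1 n00 n01 n10 n11) 5 1 *
        (J4211 k + t • Q al al1 w0 w1 be be1 ga p0 p1 t0 t1 e0 e1 n00 n01 n10 n11) 2 j) *
        (J4211 k + t • Q al al1 w0 w1 be be1 ga p0 p1 t0 t1 e0 e1 n00 n01 n10 n11) i 4 = 0 := by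
    intro t i j hi hj
    by_contra hne
    have h1 := hT.rank_le (add_mem h0 (SMulMemClass.smul_mem t hX)) 1
    rw [pow_one] at h1
    have h2 := rank5 i j ?_ ?_ ?_ ?_ ?_ ?_ ?_ ?_ ?_ ?_ ?_ ?_ ?_ ?_ hne
    · omega
    all_goals
      first
      | (rcases hi with rfl | rfl <;> simp [J4211, Q]; done)
      | (rcases hj with rfl | rfl <;> simp [J4211, Q]; done)
  have k66 := fun t => key t 6 6 (Or.inl rfl) (Or.inl rfl)
  have k67 := fun t => key t 6 7 (Or.inl rfl) (Or.inr rfl)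
  have k76 := fun t => key t 7 6 (Or.inr rfl) (Or.inl rfl)
  have k77 := fun t => key t 7 7 (Or.inr rfl) (Or.inr rfl)
  clear key
  simp [J4211, Q] at k66 k67 k76 k77
  obtain ⟨a1, a2⟩ := poly_zero (n := n00) (ga := ga) (ab := al * be) (e := e0) (p := p0)
    (fun t => by linear_combination k66 t)
  obtain ⟨b1, b2⟩ := poly_zero (n := n01) (ga := ga) (ab := al * be) (e := e1) (p := p0)
    (fun t => by linear_combination k67 t)
  obtain ⟨c1, c2⟩ := poly_zero (n := n10) (ga := ga) (ab := al * be) (e := e0) (p := p1)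
    (fun t => by linear_combination k76 t)
  obtain ⟨d1, d2⟩ := poly_zero (n := n11) (ga := ga) (ab := al * be) (e := e1) (p := p1)
    (fun t => by linear_combination k77 t)
  exact ⟨⟨a1, b1, c1, d1⟩, a2, c2, b2, d2⟩

theorem Q_dual (al al1 w0 w1 be be1 ga p0 p1 t0 t1 e0 e1 n00 n01 n10 n11 : k) :
    P4211 k * (Q al al1 w0 w1 be be1 ga p0 p1 t0 t1 e0 e1 n00 n01 n10 n11)ᵀ * P4211 k =
      Q be be1 t0 t1 al al1 ga e0 e1 w0 w1 p0 p1 n00 n10 n01 n11 := by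
  ext i j
  rw [P4211_perm, Matrix.transpose_apply]
  fin_cases i <;> fin_cases j <;> simp [Q]

theorem dualQ {ρ : ℕ → ℕ}
    {al al1 w0 w1 be be1 ga p0 p1 t0 t1 e0 e1
    al' al1' w0' w1' be' be1' ga' p0' p1' t0' t1' e0' e1' : k}
    (hT : MaxR ρ ![J4211 k, Q al al1 w0 w1 be be1 ga p0 p1 t0 t1 e0 e1 0 0 0 0,
      Q al' al1' w0' w1' be' be1' ga' p0' p1' t0' t1' e0' e1' 0 0 0 0]) :
    MaxR ρ ![J4211 k, Q be be1 t0 t1 al al1 ga e0 e1 w0 w1 p0 p1 0 0 0 0,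
      Q be' be1' t0' t1' al' al1' ga' e0' e1' w0' w1' p0' p1' 0 0 0 0] := by
  refine maxR_dual (P4211 k) P4211_sq hT ?_
  intro i
  fin_cases i
  · exact J4211_dual
  · exact Q_dual ..
  · exact Q_dual ..

/-- a nonzero vector orthogonal to a given one -/
theorem orth (a b : k) : ∃ x y : k, (x ≠ 0 ∨ y ≠ 0) ∧ a * x + b * y = 0 := by
  by_cases h : a = 0 ∧ b = 0
  · exact ⟨1, 0, Or.inl one_ne_zero, by rw [h.1]; ring⟩
  · refine ⟨b, -a, ?_, by ring⟩
    by_contra hcon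
    push Not at hcon
    exact h ⟨neg_eq_zero.mp hcon.2, hcon.1⟩

theorem case1 [CharZero k] {ρ : ℕ → ℕ} (hρ : ρ 1 ≤ 4)
    {al1 w0 w1 be be1 ga p0 p1 t0 t1 al1' w0' w1' be' be1' ga' p0' p1' t0' t1' : k}
    (hT : MaxR ρ ![J4211 k, Q 1 al1 w0 w1 be be1 ga p0 p1 t0 t1 0 0 0 0 0 0,
      Q 0 al1' w0' w1' be' be1' ga' p0' p1' t0' t1' 0 0 0 0 0 0]) : False := by
  have : Infinite k := CharZero.infinite k
  obtain ⟨r1, r2, r3, r4, r5, r6, -, -, -⟩ := rel_of_comm (hT.cn.1 1 2)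
  have hbe : be' = 0 := by linear_combination -r1
  have hp0 : p0' = 0 := by linear_combination -r4
  have hp1 : p1' = 0 := by linear_combination -r5
  have hga : ga' = 0 := by linear_combination -r3
  subst hbe hp0 hp1 hga
  have r6' : p0 * t0' + p1 * t1' = 0 := by linear_combination -r6
  obtain ⟨x0, x1, hx, hx2⟩ := orth t0' t1'
  obtain ⟨y0, y1, hy, hy2⟩ := orth w0' w1'
  -- a family with `p ≠ 0`
  have key : ∀ s : k, Q 1 al1 w0 w1 be be1 ga p0 p1 t0 t1 0 0 0 0 0 0 +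
      s • Q 0 0 0 0 0 0 0 x0 x1 0 0 0 0 0 0 0 0 =
      Q 1 al1 w0 w1 be be1 ga (p0 + s * x0) (p1 + s * x1) t0 t1 0 0 0 0 0 0 := by
    intro s
    have h := Q_lin 1 s 1 al1 w0 w1 be be1 ga p0 p1 t0 t1 0 0 0 0 0 0 0 0 0 0 0 0 0 x0 x1 0 0
      0 0 0 0 0 0
    rw [one_smul] at h
    rw [h]
    apply Q_congr <;> ring
  have fin1 : ({s : k | p0 + s * x0 = 0 ∧ p1 + s * x1 = 0}).Finite := by
    rcases hx with h | h
    · refine (Set.finite_singleton (-p0 / x0)).subset ?_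
      rintro s ⟨h1, -⟩
      rw [Set.mem_singleton_iff, eq_div_iff h]
      linear_combination h1
    · refine (Set.finite_singleton (-p1 / x1)).subset ?_
      rintro s ⟨-, h1⟩
      rw [Set.mem_singleton_iff, eq_div_iff h]
      linear_combination h1
  obtain ⟨s, hs, h3⟩ := Pool.Agent.Lib.D8.MaxR.line2 hT
    (Q 0 0 0 0 0 0 0 x0 x1 0 0 0 0 0 0 0 0) 0
    (by
      intro s
      rw [key, smul_zero, add_zero]
      refine cnQ ⟨by ring, by linear_combination r2, by ring, by ring, by ring,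
        by linear_combination -r6' - s * hx2, by ring, by ring, by ring⟩) fin1
  rw [key, smul_zero, add_zero] at h3
  obtain ⟨q0, hq0⟩ : ∃ q0, q0 = p0 + s * x0 := ⟨_, rfl⟩
  obtain ⟨q1, hq1⟩ : ∃ q1, q1 = p1 + s * x1 := ⟨_, rfl⟩
  rw [← hq0, ← hq1] at h3
  have hq : q0 ≠ 0 ∨ q1 ≠ 0 := by
    by_contra hcon
    push Not at hcon
    exact hs ⟨by rw [← hq0]; exact hcon.1, by rw [← hq1]; exact hcon.2⟩
  obtain ⟨-, r2, -, -, -, r6, -, -, -⟩ := rel_of_comm (h3.cn.1 1 2)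
  -- a family with `e ≠ 0`
  have key2 : ∀ s : k, Q 1 al1 w0 w1 be be1 ga q0 q1 t0 t1 0 0 0 0 0 0 +
      s • Q 0 0 0 0 0 0 0 0 0 0 0 y0 y1 0 0 0 0 =
      Q 1 al1 w0 w1 be be1 ga q0 q1 t0 t1 (s * y0) (s * y1) 0 0 0 0 := by
    intro s
    have h := Q_lin 1 s 1 al1 w0 w1 be be1 ga q0 q1 t0 t1 0 0 0 0 0 0 0 0 0 0 0 0 0 0 0 0 0
      y0 y1 0 0 0 0
    rw [one_smul] at h
    rw [h]
    apply Q_congr <;> ring
  obtain ⟨s, hs, h4⟩ := Pool.Agent.Lib.D8.MaxR.line2 h3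
    (Q 0 0 0 0 0 0 0 0 0 0 0 y0 y1 0 0 0 0) 0
    (by
      intro s
      rw [key2, smul_zero, add_zero]
      refine cnQ ⟨by ring, by linear_combination r2, by linear_combination s * hy2, by ring,
        by ring, by linear_combination r6, by ring, by ring, by ring⟩) (Set.finite_singleton 0)
  rw [key2, smul_zero, add_zero] at h4
  have hs0 : s ≠ 0 := hs
  obtain ⟨-, c1, c2, c3, c4⟩ := cond hρ h4 (mem_adj _ 0) (mem_adj _ 1)
  rcases hy with h | h <;> rcases hq with h' | h'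
  · exact mul_ne_zero (mul_ne_zero hs0 h) h' c1
  · exact mul_ne_zero (mul_ne_zero hs0 h) h' c2
  · exact mul_ne_zero (mul_ne_zero hs0 h) h' c3
  · exact mul_ne_zero (mul_ne_zero hs0 h) h' c4

theorem case1' [CharZero k] {ρ : ℕ → ℕ} (hρ : ρ 1 ≤ 4)
    {al al1 w0 w1 be be1 ga p0 p1 t0 t1 al' al1' w0' w1' be' be1' ga' p0' p1' t0' t1' : k}
    (hT : MaxR ρ ![J4211 k, Q al al1 w0 w1 be be1 ga p0 p1 t0 t1 0 0 0 0 0 0,
      Q al' al1' w0' w1' be' be1' ga' p0' p1' t0' t1' 0 0 0 0 0 0]) (hal : al ≠ 0) : False := by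
  have h1 := linQ hT al⁻¹ 0 (-(al' / al)) 1 (by simp [hal])
  refine case1 (al1 := al⁻¹ * al1) (w0 := al⁻¹ * w0) (w1 := al⁻¹ * w1) (be := al⁻¹ * be)
    (be1 := al⁻¹ * be1) (ga := al⁻¹ * ga) (p0 := al⁻¹ * p0) (p1 := al⁻¹ * p1)
    (t0 := al⁻¹ * t0) (t1 := al⁻¹ * t1)
    (al1' := al1' - al' / al * al1) (w0' := w0' - al' / al * w0) (w1' := w1' - al' / al * w1)
    (be' := be' - al' / al * be) (be1' := be1' - al' / al * be1) (ga' := ga' - al' / al * ga)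
    (p0' := p0' - al' / al * p0) (p1' := p1' - al' / al * p1)
    (t0' := t0' - al' / al * t0) (t1' := t1' - al' / al * t1) hρ ?_
  convert h1 using 3
  · apply Q_congr <;> simp [hal]
  · congr 1
    apply Q_congr <;> simp [hal] <;> ring

theorem case_e [CharZero k] {ρ : ℕ → ℕ} (hρ : ρ 1 ≤ 4)
    {al al1 w0 w1 be be1 ga p0 p1 t0 t1 al' al1' w0' w1' be' be1' ga' p0' p1' t0' t1' : k}
    (hT : MaxR ρ ![J4211 k, Q al al1 w0 w1 be be1 ga p0 p1 t0 t1 0 0 0 0 0 0,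
      Q al' al1' w0' w1' be' be1' ga' p0' p1' t0' t1' 0 0 0 0 0 0]) : False := by
  by_cases hal : al = 0
  · by_cases hal' : al' = 0
    · subst hal hal'
      exact caseI hρ (dualQ hT)
    · exact case1' hρ (Pool.Agent.Lib.D8.MaxR.swap hT) hal'
  · exact case1' hρ hT hal

theorem main [CharZero k] {ρ : ℕ → ℕ} (hρ : ρ 1 ≤ 4)
    {al al1 w0 w1 be be1 ga p0 p1 t0 t1 e0 e1 n00 n01 n10 n11
    al' al1' w0' w1' be' be1' ga' p0' p1' t0' t1' e0' e1' n00' n01' n10' n11' : k}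
    (hT : MaxR ρ ![J4211 k, Q al al1 w0 w1 be be1 ga p0 p1 t0 t1 e0 e1 n00 n01 n10 n11,
      Q al' al1' w0' w1' be' be1' ga' p0' p1' t0' t1' e0' e1' n00' n01' n10' n11']) :
    False := by
  obtain ⟨⟨a1, a2, a3, a4⟩, c1, c2, c3, c4⟩ := cond hρ hT (mem_adj _ 0) (mem_adj _ 1)
  obtain ⟨⟨a1', a2', a3', a4'⟩, c1', c2', c3', c4'⟩ := cond hρ hT (mem_adj _ 0) (mem_adj _ 2)
  have hs : (1 : k) • Q al al1 w0 w1 be be1 ga p0 p1 t0 t1 e0 e1 n00 n01 n10 n11 +
      (1 : k) • Q al' al1' w0' w1' be' be1' ga' p0' p1' t0' t1' e0' e1' n00' n01' n10' n11' ∈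
      adj ![J4211 k, Q al al1 w0 w1 be be1 ga p0 p1 t0 t1 e0 e1 n00 n01 n10 n11,
      Q al' al1' w0' w1' be' be1' ga' p0' p1' t0' t1' e0' e1' n00' n01' n10' n11'] :=
    add_mem (SMulMemClass.smul_mem _ (mem_adj _ 1)) (SMulMemClass.smul_mem _ (mem_adj _ 2))
  rw [Q_lin] at hs
  obtain ⟨-, d1, d2, d3, d4⟩ := cond hρ hT (mem_adj _ 0) hs
  subst a1 a2 a3 a4 a1' a2' a3' a4'
  -- mixed products
  have m1 : e0 * p0' + e0' * p0 = 0 := by linear_combination d1 - c1 - c1'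
  have m2 : e0 * p1' + e0' * p1 = 0 := by linear_combination d2 - c2 - c2'
  have m3 : e1 * p0' + e1' * p0 = 0 := by linear_combination d3 - c3 - c3'
  have m4 : e1 * p1' + e1' * p1 = 0 := by linear_combination d4 - c4 - c4'
  have one : ∀ {e e' p p' : k}, e * p = 0 → e' * p' = 0 → e * p' + e' * p = 0 →
      (e ≠ 0 ∨ e' ≠ 0) → p = 0 ∧ p' = 0 := by
    intro e e' p p' h1 h2 h3 h4
    rcases h4 with h4 | h4
    · have hp : p = 0 := (mul_eq_zero.mp h1).resolve_left h4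
      rw [hp, mul_zero, add_zero] at h3
      exact ⟨hp, (mul_eq_zero.mp h3).resolve_left h4⟩
    · have hp : p' = 0 := (mul_eq_zero.mp h2).resolve_left h4
      rw [hp, mul_zero, zero_add] at h3
      exact ⟨(mul_eq_zero.mp h3).resolve_left h4, hp⟩
  by_cases he : e0 = 0 ∧ e0' = 0 ∧ e1 = 0 ∧ e1' = 0
  · obtain ⟨rfl, rfl, rfl, rfl⟩ := he
    exact case_e hρ hT
  · have hp : (p0 = 0 ∧ p0' = 0) ∧ p1 = 0 ∧ p1' = 0 := by
      by_cases h0 : e0 ≠ 0 ∨ e0' ≠ 0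
      · exact ⟨one c1 c1' m1 h0, one c2 c2' m2 h0⟩
      · have h1 : e1 ≠ 0 ∨ e1' ≠ 0 := by
          push Not at h0
          by_contra hcon
          push Not at hcon
          exact he ⟨h0.1, h0.2, hcon.1, hcon.2⟩
        exact ⟨one c3 c3' m3 h1, one c4 c4' m4 h1⟩
    obtain ⟨⟨rfl, rfl⟩, rfl, rfl⟩ := hp
    exact case_e hρ (dualQ hT)

end T4211Aux

theorem no_4211 {k : Type*} [Field k] [IsAlgClosed k] [CharZero k] {ρ : ℕ → ℕ}
    {T : Fin 3 → Matrix (Fin 8) (Fin 8) k} (hT : MaxR ρ T)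
    (hρ : ∀ i, ρ i = (J4211 k ^ i).rank) (h0 : T 0 = J4211 k) : False := by
  have hρ1 : ρ 1 ≤ 4 := by
    rw [hρ 1, pow_one]
    exact J4211_rank
  have hT1 : MaxR ρ ![J4211 k, T 1, T 2] := by
    have e : ![J4211 k, T 1, T 2] = T := by
      funext i
      fin_cases i
      · exact h0.symm
      · rfl
      · rfl
    rw [e]
    exact hT
  obtain ⟨B, hB⟩ : ∃ B, B = T 1 := ⟨_, rfl⟩
  obtain ⟨C, hC⟩ : ∃ C, C = T 2 := ⟨_, rfl⟩
  rw [← hB, ← hC] at hT1
  have sB := T4211Aux.shape (M := B) (hT1.cn.1 0 1) (hT1.cn.2 1)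
  have sC := T4211Aux.shape (M := C) (hT1.cn.1 0 2) (hT1.cn.2 2)
  have key : ∀ {B C B' C' : Matrix (Fin 8) (Fin 8) k} {a b c d e f : k},
      MaxR ρ ![J4211 k, B, C] →
      B = B' + a • J4211 k + b • (J4211 k * J4211 k) + c • (J4211 k * (J4211 k * J4211 k)) →
      C = C' + d • J4211 k + e • (J4211 k * J4211 k) + f • (J4211 k * (J4211 k * J4211 k)) →
      MaxR ρ ![J4211 k, B', C'] := by
    intro B C B' C' a b c d e f h hB hC
    have hB' : B' = B - a • J4211 k - b • (J4211 k * J4211 k) -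
        c • (J4211 k * (J4211 k * J4211 k)) := by rw [hB]; abel
    have hC' : C' = C - d • J4211 k - e • (J4211 k * J4211 k) -
        f • (J4211 k * (J4211 k * J4211 k)) := by rw [hC]; abel
    have m0 := mem0 (J4211 k) B C
    have m1 := mul_mem m0 m0
    have m2 := mul_mem m0 m1
    have n0 := mem0 (J4211 k) B' C'
    have n1 := mul_mem n0 n0
    have n2 := mul_mem n0 n1
    refine Pool.Agent.Lib.D8.MaxR.change3 h ?_ ?_ ?_ ?_
    · rw [hB']
      exact sub_mem (sub_mem (sub_mem (mem1 _ _ _) (SMulMemClass.smul_mem _ m0))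
        (SMulMemClass.smul_mem _ m1)) (SMulMemClass.smul_mem _ m2)
    · rw [hC']
      exact sub_mem (sub_mem (sub_mem (mem2 _ _ _) (SMulMemClass.smul_mem _ m0))
        (SMulMemClass.smul_mem _ m1)) (SMulMemClass.smul_mem _ m2)
    · rw [hB]
      exact add_mem (add_mem (add_mem (mem1 _ _ _) (SMulMemClass.smul_mem _ n0))
        (SMulMemClass.smul_mem _ n1)) (SMulMemClass.smul_mem _ n2)
    · rw [hC]
      exact add_mem (add_mem (add_mem (mem2 _ _ _) (SMulMemClass.smul_mem _ n0))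
        (SMulMemClass.smul_mem _ n1)) (SMulMemClass.smul_mem _ n2)
  exact T4211Aux.main hρ1 (key hT1 sB sC)

end Pool.Agent.Lib.D8
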