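import Pool.Agent.Lib.D7.Api
import Pool.Agent.Lib.D7.Q2
import Pool.Agent.Lib.D8.Fams

/-!
# MP_5dcbc3_ag: all triples `TF f` of ternary cubics are limits of curvilinear triples
-/

namespace Pool.Agent.Lib.D8

open Matrix Pool.Agent.Lib.Q5dc Pool.Agent.Lib.D7

variable {k : Type*} [Field k]

namespace TFclAux

/-- a commuting nilpotent triple is curvilinear if some polynomial in its matrices is a regular
nilpotent matrix -/
theorem cl_of_reg {n : ℕ} (hn : 0 < n) {T : Fin 3 → Matrix (Fin n) (Fin n) k} (hT : CN T)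
    {M : Matrix (Fin n) (Fin n) k} (hM : M ∈ adj T) (h : M ^ (n - 1) ≠ 0) : Cl T := by
  obtain ⟨G, hG, hGc⟩ := TSQ.comm_regular hn M (hT.nilp hM) h
  have hex : ∀ ν, ∃ c : Fin n → k, T ν = G * TSQ.toep c * G⁻¹ := fun ν =>
    hGc (T ν) (hT.comm (mem_adj T ν) hM) (hT.2 ν)
  choose c hc using hex
  intro F hF
  exact hF _ ((TSQ.curv_nf hn T).2 ⟨G, hG, c, hc⟩)

/-- square of the first matrix -/
def X2 (s a b c : k) : Matrix (Fin 8) (Fin 8) k :=
  !![0, 0, 0, 0, 0, 0, 0, 0;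
     0, 0, 0, 0, 0, 0, 0, 0;
     s, 0, 0, 0, 0, 0, 0, 0;
     0, s ^ 2, 0, 0, 0, 0, 0, 0;
     a, 2 * b * s, c * s, 0, 0, 0, s ^ 2, 0;
     b, c * s, 0, s, 0, 0, 0, 0;
     -c, 0, s, 0, 0, 0, 0, 0;
     0, a, b, -c, 0, s, 0, 0]

/-- fourth power of the first matrix -/
def X4 (s b : k) : Matrix (Fin 8) (Fin 8) k :=
  !![0, 0, 0, 0, 0, 0, 0, 0;
     0, 0, 0, 0, 0, 0, 0, 0;
     0, 0, 0, 0, 0, 0, 0, 0;
     0, 0, 0, 0, 0, 0, 0, 0;
     0, 0, s ^ 3, 0, 0, 0, 0, 0;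
     0, s ^ 3, 0, 0, 0, 0, 0, 0;
     s ^ 2, 0, 0, 0, 0, 0, 0, 0;
     2 * b * s, 0, 0, s ^ 2, 0, 0, 0, 0]

/-- sixth power of the first matrix -/
def X6 (s : k) : Matrix (Fin 8) (Fin 8) k :=
  !![0, 0, 0, 0, 0, 0, 0, 0;
     0, 0, 0, 0, 0, 0, 0, 0;
     0, 0, 0, 0, 0, 0, 0, 0;
     0, 0, 0, 0, 0, 0, 0, 0;
     s ^ 4, 0, 0, 0, 0, 0, 0, 0;
     0, 0, 0, 0, 0, 0, 0, 0;
     0, 0, 0, 0, 0, 0, 0, 0;
     0, s ^ 4, 0, 0, 0, 0, 0, 0]

/-- square of the second matrix -/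
def Y2 (s c : k) : Matrix (Fin 8) (Fin 8) k :=
  !![0, 0, 0, 0, 0, 0, 0, 0;
     0, 0, 0, 0, 0, 0, 0, 0;
     0, 0, 0, 0, 0, 0, 0, 0;
     0, 0, 0, 0, 0, 0, 0, 0;
     2 * c, 0, s, 0, 0, 0, 0, 0;
     0, s, 0, 0, 0, 0, 0, 0;
     1, 0, 0, 0, 0, 0, 0, 0;
     0, 2 * c, 0, 1, 0, 0, 0, 0]

/-- square of the third matrix -/
def Z2 : Matrix (Fin 8) (Fin 8) k :=
  !![0, 0, 0, 0, 0, 0, 0, 0;
     0, 0, 0, 0, 0, 0, 0, 0;
     0, 0, 0, 0, 0, 0, 0, 0;
     0, 0, 0, 0, 0, 0, 0, 0;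
     1, 0, 0, 0, 0, 0, 0, 0;
     0, 0, 0, 0, 0, 0, 0, 0;
     0, 0, 0, 0, 0, 0, 0, 0;
     0, 1, 0, 0, 0, 0, 0, 0]

theorem hX2 (s a b c : k) : TFs s a b c 0 * TFs s a b c 0 = X2 s a b c := by
  ext i j
  fin_cases i <;> fin_cases j <;>
    simp [TFs, X2, Matrix.mul_apply, Fin.sum_univ_succ] <;> ring

theorem hX4 (s a b c : k) : X2 s a b c * X2 s a b c = X4 s b := by
  ext i j
  fin_cases i <;> fin_cases j <;>
    simp [X2, X4, Matrix.mul_apply, Fin.sum_univ_succ] <;> ring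

theorem hX6 (s a b c : k) : X4 s b * X2 s a b c = X6 s := by
  ext i j
  fin_cases i <;> fin_cases j <;>
    simp [X2, X4, X6, Matrix.mul_apply, Fin.sum_univ_succ] <;> ring

theorem hX7 (s a b c : k) : (X6 s * TFs s a b c 0) 7 0 = s ^ 4 := by
  simp [TFs, X6, Matrix.mul_apply, Fin.sum_univ_succ]

theorem hX8 (s b : k) : X4 s b * X4 s b = 0 := by
  ext i j
  fin_cases i <;> fin_cases j <;>
    simp [X4, Matrix.mul_apply, Fin.sum_univ_succ]

theorem hY2 (s a b c : k) : TFs s a b c 1 * TFs s a b c 1 = Y2 s c := by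
  ext i j
  fin_cases i <;> fin_cases j <;>
    simp [TFs, Y2, Matrix.mul_apply, Fin.sum_univ_succ]

theorem hY4 (s c : k) : Y2 s c * Y2 s c = 0 := by
  ext i j
  fin_cases i <;> fin_cases j <;>
    simp [Y2, Matrix.mul_apply, Fin.sum_univ_succ]

theorem hZ2 (s a b c : k) : TFs s a b c 2 * TFs s a b c 2 = Z2 := by
  ext i j
  fin_cases i <;> fin_cases j <;>
    simp [TFs, Z2, Matrix.mul_apply, Fin.sum_univ_succ]

theorem hZ4 : (Z2 : Matrix (Fin 8) (Fin 8) k) * Z2 = 0 := by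
  ext i j
  fin_cases i <;> fin_cases j <;>
    simp [Z2, Matrix.mul_apply, Fin.sum_univ_succ]

theorem hXY (s a b c : k) :
    TFs s a b c 0 * TFs s a b c 1 = TFs s a b c 1 * TFs s a b c 0 := by
  ext i j
  fin_cases i <;> fin_cases j <;>
    simp [TFs, Matrix.mul_apply, Fin.sum_univ_succ] <;> ring

theorem hXZ (s a b c : k) :
    TFs s a b c 0 * TFs s a b c 2 = TFs s a b c 2 * TFs s a b c 0 := by
  ext i j
  fin_cases i <;> fin_cases j <;>
    simp [TFs, Matrix.mul_apply, Fin.sum_univ_succ]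

theorem hYZ (s a b c : k) :
    TFs s a b c 1 * TFs s a b c 2 = TFs s a b c 2 * TFs s a b c 1 := by
  ext i j
  fin_cases i <;> fin_cases j <;>
    simp [TFs, Matrix.mul_apply, Fin.sum_univ_succ]

theorem cn (s a b c : k) : CN (TFs s a b c) := by
  constructor
  · intro i j
    fin_cases i <;> fin_cases j
    · rfl
    · exact hXY s a b c
    · exact hXZ s a b c
    · exact (hXY s a b c).symm
    · rfl
    · exact hYZ s a b c
    · exact (hXZ s a b c).symm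
    · exact (hYZ s a b c).symm
    · rfl
  · intro i
    fin_cases i
    · exact ⟨2 * 2 * 2, by
        change TFs s a b c 0 ^ (2 * 2 * 2) = 0
        rw [pow_mul, pow_mul, pow_two (TFs s a b c 0), hX2, pow_two (X2 s a b c), hX4, pow_two, hX8]⟩
    · exact ⟨2 * 2, by
        change TFs s a b c 1 ^ (2 * 2) = 0
        rw [pow_mul, pow_two (TFs s a b c 1), hY2, pow_two, hY4]⟩
    · exact ⟨2 * 2, by
        change TFs s a b c 2 ^ (2 * 2) = 0
        rw [pow_mul, pow_two (TFs s a b c 2), hZ2, pow_two, hZ4]⟩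

theorem cl_ne {s : k} (hs : s ≠ 0) (a b c : k) : Cl (TFs s a b c) := by
  refine cl_of_reg (n := 8) (by norm_num) (cn s a b c) (mem_adj (TFs s a b c) 0) ?_
  have e : TFs s a b c 0 ^ (8 - 1) = X6 s * TFs s a b c 0 := by
    change TFs s a b c 0 ^ (2 * 2 + 2 + 1) = _
    rw [pow_succ, pow_add, pow_mul, pow_two (TFs s a b c 0), hX2, pow_two, hX4, hX6]
  rw [e]
  intro h
  have h1 := congrFun (congrFun h 7) 0
  rw [hX7] at h1
  exact hs (by simpa using h1)

theorem cl_TF0 [Infinite k] (a b c : k) : Cl (TF ![a, b, -c, 2 * c, 0, 1, 0, 1, 0, 0]) := by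
  have e : TF ![a, b, -c, 2 * c, 0, 1, 0, 1, 0, 0] = TFs 0 a b c := by
    funext i
    ext x y
    fin_cases i <;> fin_cases x <;> fin_cases y <;> rfl
  rw [e]
  by_contra h0
  have h1 : PolyFam fun s => TFs s a b c := by
    have hc : ∀ r : k, D7.IsPoly fun _ : k => r := D7.IsPoly.const
    intro i x y
    fin_cases i <;> fin_cases x <;> fin_cases y <;>
      first
        | exact hc 0
        | exact hc 1
        | exact D7.IsPoly.id
        | exact hc a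
        | exact hc b
        | exact hc (-c)
        | exact hc (2 * c)
  have h2 := finite_cl (fun s => TFs s a b c) h1 h0
  have h3 : (({0}ᶜ : Set k)).Infinite := (Set.finite_singleton (0 : k)).infinite_compl
  exact h3 (h2.subset fun s hs => cl_ne hs a b c)

/-! ### the action of the linear group -/

/-- index type with blocks of sizes `1, 3, 3, 1` -/
abbrev N8 := Fin 1 ⊕ (Fin 3 ⊕ (Fin 3 ⊕ Fin 1))

/-- the triple attached to a trilinear form -/
def Tb (F : Fin 3 → Matrix (Fin 3) (Fin 3) k) (i : Fin 3) : Matrix N8 N8 k :=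
  fromBlocks 0 0 (fromRows (Matrix.of fun a _ => if a = i then 1 else 0) 0)
    (fromBlocks 0 0 (fromRows (F i) 0)
      (fromBlocks 0 0 (Matrix.of fun _ a => if a = i then 1 else 0) 0))

/-- block diagonal matrix -/
def Dg (g h : Matrix (Fin 3) (Fin 3) k) : Matrix N8 N8 k :=
  fromBlocks 1 0 0 (fromBlocks g 0 0 (fromBlocks h 0 0 1))

theorem Dg_mul {g gi h hi : Matrix (Fin 3) (Fin 3) k} (hg : g * gi = 1) (hh : h * hi = 1) :
    Dg g h * Dg gi hi = 1 := by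
  simp [Dg, fromBlocks_multiply, hg, hh]

theorem sum_Tb (c : Fin 3 → k) (F : Fin 3 → Matrix (Fin 3) (Fin 3) k) :
    ∑ j, c j • Tb F j = fromBlocks 0 0 (fromRows (Matrix.of fun a _ => c a) 0)
      (fromBlocks 0 0 (fromRows (∑ j, c j • F j) 0)
        (fromBlocks 0 0 (Matrix.of fun _ a => c a) 0)) := by
  ext x y
  simp only [Matrix.sum_apply, Matrix.smul_apply, smul_eq_mul]
  rcases x with x | x | x | x <;> rcases y with y | y | y | y <;>
    simp [Tb, Matrix.sum_apply]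

theorem conj_Tb {g gi : Matrix (Fin 3) (Fin 3) k} (hg : gi * g = 1)
    (F : Fin 3 → Matrix (Fin 3) (Fin 3) k) (i : Fin 3) :
    Dg gi gᵀ * (∑ j, g j i • Tb F j) = Tb (Q2Aux.tr g gᵀ F) i * Dg gi gᵀ := by
  have hg' : g * gi = 1 := mul_eq_one_comm.1 hg
  have h1 : gi * (Matrix.of fun a (_ : Fin 1) => g a i) =
      Matrix.of fun a (_ : Fin 1) => if a = i then (1 : k) else 0 := by
    ext a b
    have h2 := congrFun (congrFun hg a) i
    rw [Matrix.mul_apply] at h2 ⊢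
    simp only [Matrix.of_apply]
    rw [h2, Matrix.one_apply]
  have h2 : gᵀ * (∑ j, g j i • F j) = Q2Aux.tr g gᵀ F i * gi := by
    rw [Q2Aux.tr, Matrix.mul_assoc, hg', Matrix.mul_one]
  have h3 : (Matrix.of fun (_ : Fin 1) a => if a = i then (1 : k) else 0) * gᵀ =
      Matrix.of fun (_ : Fin 1) a => g a i := by
    ext a b
    simp [Matrix.mul_apply]
  rw [sum_Tb, Dg, Tb]
  simp only [fromBlocks_multiply, Matrix.mul_zero, Matrix.zero_mul, add_zero, zero_add,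
    Matrix.mul_one, fromBlocks_mul_fromRows, Matrix.one_mul, h1, ← h2, h3, fromRows_mul]

theorem cl_Tb {g gi : Matrix (Fin 3) (Fin 3) k} (hg : gi * g = 1)
    {F : Fin 3 → Matrix (Fin 3) (Fin 3) k} (hT : Cl (Tb F)) : Cl (Tb (Q2Aux.tr g gᵀ F)) := by
  have h1 : Cl (fun i => ∑ j, g j i • Tb F j) :=
    cl_of_adj (fun i => sum_mem fun j _ => SMulMemClass.smul_mem _ (mem_adj _ j)) hT
  have hh : gᵀ * giᵀ = 1 := by rw [← Matrix.transpose_mul, hg, Matrix.transpose_one]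
  have hD : Dg gi gᵀ * Dg g giᵀ = 1 := Dg_mul hg hh
  have hD' := mul_eq_one_comm.1 hD
  have h2 := Cl.conj _ _ hD hD' h1
  have h3 : (fun i => Dg gi gᵀ * (∑ j, g j i • Tb F j) * Dg g giᵀ) = Tb (Q2Aux.tr g gᵀ F) := by
    funext i
    rw [conj_Tb hg, Matrix.mul_assoc, hD, Matrix.mul_one]
  rwa [h3] at h2

/-- numbering of the blocks -/
def e8 : N8 ≃ Fin 8 := (Equiv.sumCongr (Equiv.refl _)
  ((Equiv.sumCongr (Equiv.refl _) finSumFinEquiv).trans finSumFinEquiv)).trans finSumFinEquiv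

/-- triples of indices -/
def ix (i l j : Fin 3) : Fin 10 :=
  ![![![0, 1, 2], ![1, 3, 4], ![2, 4, 5]], ![![1, 3, 4], ![3, 6, 7], ![4, 7, 8]],
    ![![2, 4, 5], ![4, 7, 8], ![5, 8, 9]]] i l j

/-- the trilinear form with coefficients `f` -/
def Fr (f : Fin 10 → k) (i : Fin 3) : Matrix (Fin 3) (Fin 3) k :=
  Matrix.of fun l j => f (ix i l j)

theorem reindex_Tb (f : Fin 10 → k) (i : Fin 3) :
    Matrix.reindexAlgEquiv k k e8 (Tb (Fr f) i) = TF f i := by
  ext x y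
  fin_cases i <;> fin_cases x <;> fin_cases y <;> rfl

theorem reindex_symm (f : Fin 10 → k) (i : Fin 3) :
    (Matrix.reindexAlgEquiv k k e8).symm (TF f i) = Tb (Fr f) i := by
  rw [← reindex_Tb, AlgEquiv.symm_apply_apply]

theorem cl_iff (f : Fin 10 → k) : Cl (TF f) ↔ Cl (Tb (Fr f)) := by
  have hc : Fintype.card N8 = Fintype.card (Fin 8) := by simp
  constructor
  · intro h
    have h1 := Cl.mapEquiv (Matrix.reindexAlgEquiv k k e8).symm hc.symm h
    have h2 : (fun i => (Matrix.reindexAlgEquiv k k e8).symm (TF f i)) = Tb (Fr f) :=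
      funext fun i => reindex_symm f i
    rwa [h2] at h1
  · intro h
    have h1 := Cl.mapEquiv (Matrix.reindexAlgEquiv k k e8) hc h
    have h2 : (fun i => (Matrix.reindexAlgEquiv k k e8) (Tb (Fr f) i)) = TF f :=
      funext fun i => reindex_Tb f i
    rwa [h2] at h1

/-- first index -/
def pi : Fin 10 → Fin 3 := ![0, 0, 0, 0, 0, 0, 1, 1, 1, 2]

/-- second index -/
def pl : Fin 10 → Fin 3 := ![0, 0, 0, 1, 1, 2, 1, 1, 2, 2]

/-- third index -/
def pj : Fin 10 → Fin 3 := ![0, 1, 2, 1, 2, 2, 1, 2, 2, 2]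

omit [Field k] in
theorem Fr_at (f : Fin 10 → k) (a : Fin 10) : Fr f (pi a) (pl a) (pj a) = f a := by
  fin_cases a <;> rfl

/-- symmetric forms -/
def Sy (F : Fin 3 → Matrix (Fin 3) (Fin 3) k) : Prop :=
  (∀ i l j, F i l j = F l i j) ∧ ∀ i l j, F i l j = F i j l

omit [Field k] in
theorem Fr_sy (f : Fin 10 → k) : Sy (Fr f) := by
  constructor
  · intro i l j
    fin_cases i <;> fin_cases l <;> rfl
  · intro i l j
    fin_cases i <;> fin_cases l <;> fin_cases j <;> rfl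

omit [Field k] in
theorem eq_Fr {P : Fin 3 → Matrix (Fin 3) (Fin 3) k} (h : Sy P) :
    Fr (fun a => P (pi a) (pl a) (pj a)) = P := by
  obtain ⟨h1, h2⟩ := h
  funext i
  ext l j
  fin_cases i <;> fin_cases l <;> fin_cases j
  · rfl
  · rfl
  · rfl
  · exact h2 0 0 1
  · rfl
  · rfl
  · exact h2 0 0 2
  · exact h2 0 1 2
  · rfl
  · exact (h2 0 0 1).trans (h1 0 1 0)
  · exact h1 0 1 1
  · exact h1 0 1 2
  · exact (h1 0 1 1).trans (h2 1 0 1)
  · rfl
  · rfl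
  · exact (h1 0 1 2).trans (h2 1 0 2)
  · exact h2 1 1 2
  · rfl
  · exact (h2 0 0 2).trans (h1 0 2 0)
  · exact (h2 0 1 2).trans (h1 0 2 1)
  · exact h1 0 2 2
  · exact ((h1 0 1 2).trans (h2 1 0 2)).trans (h1 1 2 0)
  · exact (h2 1 1 2).trans (h1 1 2 1)
  · exact h1 1 2 2
  · exact (h1 0 2 2).trans (h2 2 0 2)
  · exact (h1 1 2 2).trans (h2 2 1 2)
  · rfl

theorem tr_apply (g : Matrix (Fin 3) (Fin 3) k) (F : Fin 3 → Matrix (Fin 3) (Fin 3) k)
    (i l j : Fin 3) :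
    Q2Aux.tr g gᵀ F i l j = ∑ a, ∑ b, ∑ c, g a i * g b l * g c j * F a b c := by
  simp only [Q2Aux.tr, Matrix.mul_apply, Matrix.sum_apply, Matrix.smul_apply, smul_eq_mul,
    Matrix.transpose_apply]
  simp only [Fin.sum_univ_three]
  ring

theorem tr_sy (g : Matrix (Fin 3) (Fin 3) k) {F : Fin 3 → Matrix (Fin 3) (Fin 3) k}
    (hF : Sy F) : Sy (Q2Aux.tr g gᵀ F) := by
  constructor
  · intro i l j
    rw [tr_apply, tr_apply, Finset.sum_comm]
    refine Finset.sum_congr rfl fun b _ => Finset.sum_congr rfl fun a _ =>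
      Finset.sum_congr rfl fun c _ => ?_
    rw [hF.1 a b c]
    ring
  · intro i l j
    rw [tr_apply, tr_apply]
    refine Finset.sum_congr rfl fun a _ => ?_
    rw [Finset.sum_comm]
    refine Finset.sum_congr rfl fun b _ => Finset.sum_congr rfl fun c _ => ?_
    rw [hF.2 a c b]
    ring

/-! ### the curves -/

section

variable (v : Fin 10 → k)

/-- direction of the linear change -/
def Gm : Matrix (Fin 3) (Fin 3) k :=
  !![v 5, v 8, 1 / 3 * v 9;
     v 4 - 1 / 3 * v 6, 1 / 2 * v 7, 0;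
     2 / 5 * v 2 + 1 / 5 * v 3, 1 / 3 * v 6, 0]

/-- direction of the parameters -/
def Ev : Fin 10 → k :=
  ![v 0, v 1, -(2 / 5 * v 3 - 1 / 5 * v 2), 2 * (2 / 5 * v 3 - 1 / 5 * v 2), 0, 0, 0, 0, 0, 0]

/-- the base point -/
def f0 : Fin 10 → k := ![0, 0, 0, 0, 0, 1, 0, 1, 0, 0]

theorem W1_eq [CharZero k] (a : Fin 10) :
    Q2Aux.W1 (Gm v) (Gm v)ᵀ 1 (Fr f0) (Fr (Ev v)) (pi a) (pl a) (pj a) = v a := by
  rw [Q2Aux.W1_apply]
  fin_cases a <;>
    simp [Gm, Ev, Fr, f0, ix, pi, pl, pj] <;> ring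

theorem Fr_line (s : k) (j : Fin 3) :
    Fr (fun a => f0 a + s * Ev v a) j = Fr f0 j + s • Fr (Ev v) j := by
  ext x y
  simp [Fr]

theorem base_eq (s : k) : (fun a => f0 a + s * Ev v a) =
    ![s * v 0, s * v 1, -(s * (2 / 5 * v 3 - 1 / 5 * v 2)),
      2 * (s * (2 / 5 * v 3 - 1 / 5 * v 2)), 0, 1, 0, 1, 0, 0] := by
  funext a
  fin_cases a <;> simp [f0, Ev] <;> ring

end

theorem curve [CharZero k] (v : Fin 10 → k) : ∃ u : Fin 10 → Polynomial k,
    (∀ x, (u x).eval 0 = v x) ∧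
      {s : k | (fun x => f0 x + s * (u x).eval s) ∈ {r : Fin 10 → k | Cl (TF r)}}.Infinite := by
  have hinf : Infinite k := inferInstance
  set G := Gm v with hG
  refine ⟨fun x => Polynomial.C (Q2Aux.W1 G Gᵀ 1 (Fr f0) (Fr (Ev v)) (pi x) (pl x) (pj x)) +
    Polynomial.X * Polynomial.C (Q2Aux.W2 G Gᵀ 1 (Fr f0) (Fr (Ev v)) (pi x) (pl x) (pj x)) +
    Polynomial.X ^ 2 * Polynomial.C (Q2Aux.W3 G Gᵀ 1 (Fr f0) (Fr (Ev v)) (pi x) (pl x) (pj x)) +
    Polynomial.X ^ 3 * Polynomial.C (Q2Aux.W4 G Gᵀ 1 (Fr (Ev v)) (pi x) (pl x) (pj x)), ?_, ?_⟩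
  · intro a
    have h1 := W1_eq v a
    simp only [Polynomial.eval_add, Polynomial.eval_mul, Polynomial.eval_C, Polynomial.eval_X,
      Polynomial.eval_pow]
    rw [← hG] at h1
    rw [h1]
    ring
  · have hf := Q2Aux.finite_det G
    refine hf.infinite_compl.mono ?_
    intro s hs
    simp only [Set.mem_compl_iff, Set.mem_ofPred_eq] at hs
    have hg : (1 + s • G) * (1 + s • G)⁻¹ = 1 :=
      Matrix.mul_nonsing_inv _ (isUnit_iff_ne_zero.2 hs)
    have h1 : Cl (Tb (Fr (fun a => f0 a + s * Ev v a))) := by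
      rw [← cl_iff, base_eq]
      exact cl_TF0 _ _ _
    have h2 := cl_Tb (mul_eq_one_comm.1 hg) h1
    show Cl (TF fun x => f0 x + s * (_ : Polynomial k).eval s)
    rw [cl_iff]
    have ht : (1 + s • G)ᵀ = 1 + s • Gᵀ := by
      rw [Matrix.transpose_add, Matrix.transpose_one, Matrix.transpose_smul]
    have h3 : (fun x : Fin 10 => f0 x + s * Polynomial.eval s
        (Polynomial.C (Q2Aux.W1 G Gᵀ 1 (Fr f0) (Fr (Ev v)) (pi x) (pl x) (pj x)) +
    Polynomial.X * Polynomial.C (Q2Aux.W2 G Gᵀ 1 (Fr f0) (Fr (Ev v)) (pi x) (pl x) (pj x)) +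
    Polynomial.X ^ 2 * Polynomial.C (Q2Aux.W3 G Gᵀ 1 (Fr f0) (Fr (Ev v)) (pi x) (pl x) (pj x)) +
    Polynomial.X ^ 3 * Polynomial.C (Q2Aux.W4 G Gᵀ 1 (Fr (Ev v)) (pi x) (pl x) (pj x)))) =
        fun x => Q2Aux.tr (1 + s • G) (1 + s • G)ᵀ (Fr (fun a => f0 a + s * Ev v a))
          (pi x) (pl x) (pj x) := by
      funext x
      have h4 : Fr (fun a => f0 a + s * Ev v a) = fun j => Fr f0 j + (s * 1) • Fr (Ev v) j :=
        funext fun j => by rw [Fr_line, mul_one]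
      rw [h4, ht, Q2Aux.tr_expand]
      have h5 := Fr_at (f0 : Fin 10 → k) x
      simp only [Polynomial.eval_add, Polynomial.eval_mul, Polynomial.eval_C, Polynomial.eval_X,
        Polynomial.eval_pow, Matrix.add_apply, Matrix.smul_apply, smul_eq_mul]
      rw [h5]
    have h6 : Fr (fun x => Q2Aux.tr (1 + s • G) (1 + s • G)ᵀ (Fr (fun a => f0 a + s * Ev v a))
          (pi x) (pl x) (pj x)) =
        Q2Aux.tr (1 + s • G) (1 + s • G)ᵀ (Fr (fun a => f0 a + s * Ev v a)) :=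
      eq_Fr (tr_sy _ (Fr_sy _))
    rw [h3, h6]
    exact h2

theorem isP_TF (z : Fin 3 × Fin 8 × Fin 8) :
    Q2Aux.IsP fun r : Fin 10 → k => TF r z.1 z.2.1 z.2.2 := by
  obtain ⟨i, x, y⟩ := z
  fin_cases i <;> fin_cases x <;> fin_cases y <;>
    first
      | exact Q2Aux.IsP.const 0
      | exact Q2Aux.IsP.const 1
      | exact Q2Aux.IsP.var 0
      | exact Q2Aux.IsP.var 1
      | exact Q2Aux.IsP.var 2
      | exact Q2Aux.IsP.var 3
      | exact Q2Aux.IsP.var 4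
      | exact Q2Aux.IsP.var 5
      | exact Q2Aux.IsP.var 6
      | exact Q2Aux.IsP.var 7
      | exact Q2Aux.IsP.var 8
      | exact Q2Aux.IsP.var 9

end TFclAux

open TFclAux MvPolynomial in
/-- all triples `TF f` are limits of curvilinear triples -/
theorem cl_TF [IsAlgClosed k] [CharZero k] (f : Fin 10 → k) : Cl (TF f) := by
  have hinf : Infinite k := inferInstance
  intro F hF
  choose p hp using isP_TF (k := k)
  have hev : ∀ r : Fin 10 → k, eval r (aeval p F) = eval (co (TF r)) F := by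
    intro r
    have h1 : ((aeval r : MvPolynomial (Fin 10) k →ₐ[k] k).comp (aeval p)) =
        (aeval (co (TF r)) : MvPolynomial (Fin 3 × Fin 8 × Fin 8) k →ₐ[k] k) := by
      apply MvPolynomial.algHom_ext
      intro z
      simp only [AlgHom.comp_apply, aeval_X]
      exact (hp z r).symm
    exact congrArg (fun f => f F) h1
  have h0 : aeval p F = 0 := by
    refine eq_zero_of_curves {r : Fin 10 → k | Cl (TF r)} f0 curve _ ?_
    intro r hr
    rw [hev]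
    exact hr F hF
  rw [← hev, h0, map_zero]

end Pool.Agent.Lib.D8
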