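import Pool.Agent.Lib.D7.Api
import Pool.Agent.Lib.D8.Fams
import Pool.Agent.Lib.D8.TFcl

/-!
# MP_5dcbc3_ag: all triples `TFd f d` are limits of curvilinear triples
-/

namespace Pool.Agent.Lib.D8

open Matrix Pool.Agent.Lib.Q5dc Pool.Agent.Lib.D7

variable {k : Type*} [Field k]

namespace TFdAux

/-- the linear combination of the matrices `e0 -> e_(3+k)`, `e_k -> e7` -/
def E (u : Fin 3 → k) : Matrix (Fin 8) (Fin 8) k :=
  !![0, 0, 0, 0, 0, 0, 0, 0;
     0, 0, 0, 0, 0, 0, 0, 0;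
     0, 0, 0, 0, 0, 0, 0, 0;
     0, 0, 0, 0, 0, 0, 0, 0;
     u 0, 0, 0, 0, 0, 0, 0, 0;
     u 1, 0, 0, 0, 0, 0, 0, 0;
     u 2, 0, 0, 0, 0, 0, 0, 0;
     0, u 0, u 1, u 2, 0, 0, 0, 0]

theorem mul02 (f : Fin 10 → k) : TF f 0 * TF f 2 = E ![f 2, f 4, f 5] := by
  ext i j
  fin_cases i <;> fin_cases j <;> simp [TF, E, Matrix.mul_apply, Fin.sum_univ_eight]

theorem mul12 (f : Fin 10 → k) : TF f 1 * TF f 2 = E ![f 4, f 7, f 8] := by
  ext i j
  fin_cases i <;> fin_cases j <;> simp [TF, E, Matrix.mul_apply, Fin.sum_univ_eight]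

theorem mul22 (f : Fin 10 → k) : TF f 2 * TF f 2 = E ![f 5, f 8, f 9] := by
  ext i j
  fin_cases i <;> fin_cases j <;> simp [TF, E, Matrix.mul_apply, Fin.sum_univ_eight]

/-- the determinant of the matrix with rows `F_33k`, `F_23k`, `F_13k` -/
def D (f : Fin 10 → k) : k :=
  f 5 * (f 7 * f 5 - f 8 * f 4) - f 8 * (f 4 * f 5 - f 8 * f 2) + f 9 * (f 4 * f 4 - f 7 * f 2)

/-- the coefficients of `E u` with respect to the three products (up to `D f`), by Cramer's rule -/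
theorem E_eq (f : Fin 10 → k) (u : Fin 3 → k) : D f • E u =
    (u 0 * (f 7 * f 5 - f 8 * f 4) - u 1 * (f 4 * f 5 - f 8 * f 2) +
        u 2 * (f 4 * f 4 - f 7 * f 2)) • (TF f 2 * TF f 2) +
      (u 0 * (f 9 * f 4 - f 8 * f 5) + u 1 * (f 5 * f 5 - f 9 * f 2) +
        u 2 * (f 8 * f 2 - f 5 * f 4)) • (TF f 1 * TF f 2) +
      (u 0 * (f 8 * f 8 - f 9 * f 7) + u 1 * (f 9 * f 4 - f 5 * f 8) +
        u 2 * (f 5 * f 7 - f 8 * f 4)) • (TF f 0 * TF f 2) := by
  rw [mul22, mul12, mul02]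
  ext i j
  fin_cases i <;> fin_cases j <;> simp [E, D] <;> ring

theorem E_mem {f : Fin 10 → k} (hD : D f ≠ 0) (u : Fin 3 → k) : E u ∈ adj (TF f) := by
  have h1 : E u = (D f)⁻¹ • (D f • E u) := by
    rw [smul_smul, inv_mul_cancel₀ hD, one_smul]
  rw [h1, E_eq]
  have hm := mem_adj (TF f)
  refine SMulMemClass.smul_mem _ (add_mem (add_mem ?_ ?_) ?_)
  · exact SMulMemClass.smul_mem _ (mul_mem (hm 2) (hm 2))
  · exact SMulMemClass.smul_mem _ (mul_mem (hm 1) (hm 2))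
  · exact SMulMemClass.smul_mem _ (mul_mem (hm 0) (hm 2))

/-- the change of basis `e_i -> e_i + sum_k q_ik e_(3+k)` -/
def P (q : Fin 6 → k) : Matrix (Fin 8) (Fin 8) k :=
  !![1, 0, 0, 0, 0, 0, 0, 0;
     0, 1, 0, 0, 0, 0, 0, 0;
     0, 0, 1, 0, 0, 0, 0, 0;
     0, 0, 0, 1, 0, 0, 0, 0;
     0, q 0, q 1, q 2, 1, 0, 0, 0;
     0, q 1, q 3, q 4, 0, 1, 0, 0;
     0, q 2, q 4, q 5, 0, 0, 1, 0;
     0, 0, 0, 0, 0, 0, 0, 1]

theorem P_mul (q : Fin 6 → k) : P q * P (-q) = 1 := by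
  ext i j
  fin_cases i <;> fin_cases j <;> simp [P, Matrix.mul_apply, Fin.sum_univ_eight]

/-- the rows of the symmetric matrix `q` -/
def row (q : Fin 6 → k) : Fin 3 → Fin 3 → k := ![![q 0, q 1, q 2], ![q 1, q 3, q 4], ![q 2, q 4, q 5]]

theorem conj_eq (f : Fin 10 → k) (q : Fin 6 → k) (i : Fin 3) :
    (TF f i + E (row q i)) * P q = P q * TFd f (q + q) i := by
  fin_cases i
  all_goals
    ext x y
    fin_cases x <;> fin_cases y <;>
      simp [P, E, row, TF, TFd, Matrix.mul_apply, Fin.sum_univ_eight]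

theorem cl_of_ne [IsAlgClosed k] [CharZero k] {f : Fin 10 → k} (hD : D f ≠ 0) (d : Fin 6 → k) :
    Cl (TFd f d) := by
  have hd : d = (fun i => d i / 2) + fun i => d i / 2 := by
    funext i
    show d i = d i / 2 + d i / 2
    ring
  generalize hq : (fun i => d i / 2) = q at hd
  subst hd
  have h1 : Cl fun i => TF f i + E (row q i) :=
    cl_of_adj (fun i => add_mem (mem_adj (TF f) i) (E_mem hD (row q i))) (cl_TF f)
  have hP := P_mul q
  have hP' : P (-q) * P q = 1 := mul_eq_one_comm.1 hP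
  have h2 := h1.conj _ _ hP' hP
  have h3 : (fun i => P (-q) * (TF f i + E (row q i)) * P q) = TFd f (q + q) := by
    funext i
    rw [Matrix.mul_assoc, conj_eq, ← Matrix.mul_assoc, hP', Matrix.one_mul]
  rwa [h3] at h2

/-- the base cubic -/
def F0 : Fin 10 → k := ![0, 0, 0, 0, 0, 1, 0, 1, 0, 0]

theorem D_line (f : Fin 10 → k) (s : k) : D (f + s • F0) =
    (f 5 + s) * ((f 7 + s) * (f 5 + s) - f 8 * f 4) - f 8 * (f 4 * (f 5 + s) - f 8 * f 2) +
      f 9 * (f 4 * f 4 - (f 7 + s) * f 2) := by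
  simp [D, F0]

theorem finite_D [CharZero k] (f : Fin 10 → k) : {s : k | D (f + s • F0) = 0}.Finite := by
  have hc : ∀ r : k, D7.IsPoly fun _ : k => r := D7.IsPoly.const
  have hp : D7.IsPoly fun s : k => D (f + s • F0) := by
    have e : (fun s : k => D (f + s • F0)) = fun s =>
        (f 5 + s) * ((f 7 + s) * (f 5 + s) - f 8 * f 4) - f 8 * (f 4 * (f 5 + s) - f 8 * f 2) +
          f 9 * (f 4 * f 4 - (f 7 + s) * f 2) := funext (D_line f)
    rw [e]
    have h5 : D7.IsPoly fun s : k => f 5 + s := (hc _).add D7.IsPoly.id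
    have h7 : D7.IsPoly fun s : k => f 7 + s := (hc _).add D7.IsPoly.id
    exact ((h5.mul ((h7.mul h5).sub (hc _))).sub ((hc _).mul (((hc _).mul h5).sub (hc _)))).add
      ((hc _).mul ((hc _).sub (h7.mul (hc _))))
  obtain ⟨s₁, hs⟩ : ∃ s : k, D (f + s • F0) ≠ 0 := by
    by_contra hne
    push Not at hne
    have h0 := hne 0
    have h1 := hne 1
    have h2 := hne 2
    have h3 := hne 3
    rw [D_line] at h0 h1 h2 h3
    have h6 : (6 : k) = 0 := by linear_combination h3 - 3 * h2 + 3 * h1 - h0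
    norm_num at h6
  exact hp.finite hs

theorem polyFam (f : Fin 10 → k) (d : Fin 6 → k) : PolyFam fun s : k => TFd (f + s • F0) d := by
  have hc : ∀ r : k, D7.IsPoly fun _ : k => r := D7.IsPoly.const
  have hf : ∀ j : Fin 10, D7.IsPoly fun s : k => (f + s • F0 : Fin 10 → k) j := fun j =>
    (hc (f j)).add (D7.IsPoly.id.mul (hc (F0 j)))
  intro i x y
  fin_cases i <;> fin_cases x <;> fin_cases y <;> first | exact hc _ | exact hf _

end TFdAux

open TFdAux

/-- the triples `TFd f d` are limits of curvilinear triples -/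
theorem cl_TFd [IsAlgClosed k] [CharZero k] (f : Fin 10 → k) (d : Fin 6 → k) : Cl (TFd f d) := by
  by_contra h0
  have h0' : ¬ Cl ((fun s : k => TFd (f + s • F0) d) 0) := by
    simpa using h0
  have h2 := finite_cl (fun s : k => TFd (f + s • F0) d) (polyFam f d) h0'
  exact (finite_D f).infinite_compl (h2.subset fun s hs => cl_of_ne hs d)

end Pool.Agent.Lib.D8
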