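import Pool.Agent.Lib.D7.Api
import Pool.Agent.Lib.D8.Defs
import Pool.Agent.Lib.D8.Fams
import Pool.Agent.Lib.D8.TFd

/-!
# MP_5dcbc3_ag: the triples `(J422, B422 1 0 0 0 be 0 d' d n kk m 0 .., w0 -> w1)` are limits

For `be, m, kk, s <> 0` the triple `(J422 - Zm, C, Z_s)` is conjugate to a triple `TFd`; `s -> 0`,
then `be, m, kk` arbitrary by closure.
-/

namespace Pool.Agent.Lib.D8

open Matrix Pool.Agent.Lib.Q5dc Pool.Agent.Lib.D7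

variable {k : Type*} [Field k]

namespace T422cAux

/-- `J422 - Zm` -/
def X0 (k : Type*) [Field k] : Matrix (Fin 8) (Fin 8) k :=
  !![0, 0, 0, 0, 0, 0, 0, 0;
     1, 0, 0, 0, 0, 0, 0, 0;
     0, 1, 0, 0, 0, 0, 0, 0;
     0, 0, 1, 0, 0, 0, 0, 0;
     0, 0, 0, 0, 0, 0, 0, 0;
     0, 0, 0, 0, 1, 0, 0, 0;
     0, 0, 0, 0, 0, 0, 0, 0;
     0, 0, 0, 0, 0, 0, 0, 0]

/-- `v0 -> s w0, u0 -> s kk u1 + s d v3, w0 -> w1, w1 -> s c v3` -/
def Zs (s kk d c : k) : Matrix (Fin 8) (Fin 8) k :=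
  !![0, 0, 0, 0, 0, 0, 0, 0;
     0, 0, 0, 0, 0, 0, 0, 0;
     0, 0, 0, 0, 0, 0, 0, 0;
     0, 0, 0, 0, s * d, 0, 0, s * c;
     0, 0, 0, 0, 0, 0, 0, 0;
     0, 0, 0, 0, s * kk, 0, 0, 0;
     s, 0, 0, 0, 0, 0, 0, 0;
     0, 0, 0, 0, 0, 0, 1, 0]

/-- the base change -/
def Pm (s b u : k) : Matrix (Fin 8) (Fin 8) k :=
  !![1, 0, 0, 0, 0, 0, 0, 0;
     0, 1, 0, 0, 0, 0, 0, 0;
     0, 0, 0, 0, 1, 0, 0, 0;
     0, 0, 0, 0, 0, 0, 0, 1;
     0, 0, 1, 0, 0, 0, 0, 0;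
     0, 0, 0, 0, 0, b, 0, 0;
     0, 0, 0, s, 0, 0, 0, 0;
     0, 0, 0, 0, 0, 0, u, 0]

/-- the inverse base change -/
def Qm (s b u : k) : Matrix (Fin 8) (Fin 8) k :=
  !![1, 0, 0, 0, 0, 0, 0, 0;
     0, 1, 0, 0, 0, 0, 0, 0;
     0, 0, 0, 0, 1, 0, 0, 0;
     0, 0, 0, 0, 0, 0, s, 0;
     0, 0, 1, 0, 0, 0, 0, 0;
     0, 0, 0, 0, 0, b, 0, 0;
     0, 0, 0, 0, 0, 0, 0, u;
     0, 0, 0, 1, 0, 0, 0, 0]

theorem PQ {s b u s' b' u' : k} (hs : s * s' = 1) (hb : b * b' = 1) (hu : u * u' = 1) :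
    Pm s b u * Qm s' b' u' = 1 := by
  ext i j
  rw [Matrix.mul_apply]
  fin_cases i <;> fin_cases j <;> simp [Pm, Qm, Fin.sum_univ_eight, hs, hb, hu]

theorem QP {s b u s' b' u' : k} (hs : s * s' = 1) (hb : b * b' = 1) (hu : u * u' = 1) :
    Qm s' b' u' * Pm s b u = 1 := by
  ext i j
  rw [Matrix.mul_apply]
  fin_cases i <;> fin_cases j <;>
    simp [Pm, Qm, Fin.sum_univ_eight, mul_comm s' s, mul_comm b' b, mul_comm u' u, hs, hb, hu]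

theorem conj_eq {P Q T S : Matrix (Fin 8) (Fin 8) k} (h : P * Q = 1) (hT : T * P = P * S) :
    P * S * Q = T := by
  rw [← hT, Matrix.mul_assoc, h, Matrix.mul_one]

theorem eq0 {be n m kk d d' s : k} (hbe : be ≠ 0) :
    X0 k * Pm s be⁻¹ (m / (s * kk * be)) = Pm s be⁻¹ (m / (s * kk * be)) *
      TFd ![1, 0, 0, be, 0, 0, n * be, s * kk * be, 0, s ^ 2 * kk * be / m]
        ![0, 0, 0, d', s * d, 0] 0 := by
  ext i j
  rw [Matrix.mul_apply, Matrix.mul_apply]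
  fin_cases i <;> fin_cases j <;> simp [X0, Pm, TFd, Fin.sum_univ_eight, hbe]

theorem eq1 {be n m kk d d' s : k} (hbe : be ≠ 0) (hm : m ≠ 0) (hkk : kk ≠ 0) (hs : s ≠ 0) :
    B422 1 0 0 0 be 0 d' d n kk m 0 0 0 0 0 * Pm s be⁻¹ (m / (s * kk * be)) =
      Pm s be⁻¹ (m / (s * kk * be)) *
      TFd ![1, 0, 0, be, 0, 0, n * be, s * kk * be, 0, s ^ 2 * kk * be / m]
        ![0, 0, 0, d', s * d, 0] 1 := by
  ext i j
  rw [Matrix.mul_apply, Matrix.mul_apply]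
  fin_cases i <;> fin_cases j <;> simp [B422, Pm, TFd, Fin.sum_univ_eight] <;> field_simp

theorem eq2 {be n m kk d d' s : k} (hbe : be ≠ 0) (hm : m ≠ 0) (hkk : kk ≠ 0) (hs : s ≠ 0) :
    Zs s kk d (kk * be / m) * Pm s be⁻¹ (m / (s * kk * be)) =
      Pm s be⁻¹ (m / (s * kk * be)) *
      TFd ![1, 0, 0, be, 0, 0, n * be, s * kk * be, 0, s ^ 2 * kk * be / m]
        ![0, 0, 0, d', s * d, 0] 2 := by
  ext i j
  rw [Matrix.mul_apply, Matrix.mul_apply]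
  fin_cases i <;> fin_cases j <;> simp [Zs, Pm, TFd, Fin.sum_univ_eight] <;> field_simp

theorem cl_s [IsAlgClosed k] [CharZero k] {be n m kk d d' s : k} (hbe : be ≠ 0) (hm : m ≠ 0)
    (hkk : kk ≠ 0) (hs : s ≠ 0) :
    Cl ![X0 k, B422 1 0 0 0 be 0 d' d n kk m 0 0 0 0 0, Zs s kk d (kk * be / m)] := by
  have hu : m / (s * kk * be) * (s * kk * be / m) = 1 := by field_simp
  have hPQ := PQ (k := k) (mul_inv_cancel₀ hs) (inv_mul_cancel₀ hbe) hu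
  have hQP := QP (k := k) (mul_inv_cancel₀ hs) (inv_mul_cancel₀ hbe) hu
  have h := Cl.conj _ _ hPQ hQP
    (cl_TFd ![1, 0, 0, be, 0, 0, n * be, s * kk * be, 0, s ^ 2 * kk * be / m]
        ![0, 0, 0, d', s * d, 0])
  convert h using 1
  funext i
  fin_cases i
  · exact (conj_eq hPQ (eq0 hbe)).symm
  · exact (conj_eq hPQ (eq1 hbe hm hkk hs)).symm
  · exact (conj_eq hPQ (eq2 hbe hm hkk hs)).symm

theorem poly_s (be n m kk d d' c : k) :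
    PolyFam fun s : k => ![X0 k, B422 1 0 0 0 be 0 d' d n kk m 0 0 0 0 0, Zs s kk d c] := by
  have hc : ∀ a : k, D7.IsPoly fun _ : k => a := D7.IsPoly.const
  have hl : ∀ a : k, D7.IsPoly fun s : k => s * a := fun a =>
    D7.IsPoly.id.mul (D7.IsPoly.const a)
  intro i x y
  fin_cases i <;> fin_cases x <;> fin_cases y <;>
    first | exact hc _ | exact hl _ | exact D7.IsPoly.id

theorem cl_0 [IsAlgClosed k] [CharZero k] {be n m kk d d' : k} (hbe : be ≠ 0) (hm : m ≠ 0)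
    (hkk : kk ≠ 0) :
    Cl ![X0 k, B422 1 0 0 0 be 0 d' d n kk m 0 0 0 0 0, Zs 0 kk d (kk * be / m)] := by
  by_contra h0
  have hk : Infinite k := IsAlgClosed.instInfinite
  have h1 := finite_cl _ (poly_s be n m kk d d' (kk * be / m)) h0
  obtain ⟨s, hs⟩ := (h1.union (Set.finite_singleton (0 : k))).exists_notMem
  simp only [Set.mem_union, Set.mem_ofPred_eq, Set.mem_singleton_iff, not_or] at hs
  exact hs.1 (cl_s hbe hm hkk hs.2)

theorem Zs_zero (kk d c : k) :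
    Zs 0 kk d c = B422 0 0 0 0 0 0 0 0 0 0 0 1 0 0 0 0 := by
  ext i j
  fin_cases i <;> fin_cases j <;> simp [Zs, B422]

theorem J_eq : J422 k = X0 k + B422 0 0 0 0 0 0 0 0 0 0 0 1 0 0 0 0 := by
  ext i j
  rw [Matrix.add_apply]
  fin_cases i <;> fin_cases j <;> simp [X0, B422, J422]

theorem cl_1 [IsAlgClosed k] [CharZero k] {be n m kk d d' : k} (hbe : be ≠ 0) (hm : m ≠ 0)
    (hkk : kk ≠ 0) :
    Cl ![J422 k, B422 1 0 0 0 be 0 d' d n kk m 0 0 0 0 0,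
      B422 0 0 0 0 0 0 0 0 0 0 0 1 0 0 0 0] := by
  have h := cl_0 (n := n) (d := d) (d' := d') hbe hm hkk
  rw [Zs_zero] at h
  have h0 := mem_adj ![X0 k, B422 1 0 0 0 be 0 d' d n kk m 0 0 0 0 0,
    B422 0 0 0 0 0 0 0 0 0 0 0 1 0 0 0 0]
  have m0 : X0 k ∈ adj ![X0 k, B422 1 0 0 0 be 0 d' d n kk m 0 0 0 0 0,
    B422 0 0 0 0 0 0 0 0 0 0 0 1 0 0 0 0] := h0 0
  have m1 : B422 1 0 0 0 be 0 d' d n kk m 0 0 0 0 0 ∈
    adj ![X0 k, B422 1 0 0 0 be 0 d' d n kk m 0 0 0 0 0,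
    B422 0 0 0 0 0 0 0 0 0 0 0 1 0 0 0 0] := h0 1
  have m2 : B422 0 0 0 0 0 0 0 0 0 0 0 1 0 0 0 0 ∈
    adj ![X0 k, B422 1 0 0 0 be 0 d' d n kk m 0 0 0 0 0,
    B422 0 0 0 0 0 0 0 0 0 0 0 1 0 0 0 0] := h0 2
  have m3 := add_mem m0 m2
  rw [← J_eq] at m3
  refine cl_of_adj (Fin.forall_fin_succ.2 ⟨m3, Fin.forall_fin_succ.2 ⟨m1,
    Fin.forall_fin_succ.2 ⟨m2, fun i => i.elim0⟩⟩⟩) h

theorem poly_t (be n m kk d d' : k) :
    PolyFam fun s : k => ![J422 k, B422 1 0 0 0 (be + s) 0 d' d n (kk + s) (m + s) 0 0 0 0 0,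
      B422 0 0 0 0 0 0 0 0 0 0 0 1 0 0 0 0] := by
  have hc : ∀ a : k, D7.IsPoly fun _ : k => a := D7.IsPoly.const
  have hl : ∀ a : k, D7.IsPoly fun s : k => a + s := fun a =>
    (D7.IsPoly.const a).add D7.IsPoly.id
  intro i x y
  fin_cases i <;> fin_cases x <;> fin_cases y <;> first | exact hc _ | exact hl _

end T422cAux

open T422cAux in
theorem cl_C422 [IsAlgClosed k] [CharZero k] (be n m kk d d' : k) :
    Cl ![J422 k, B422 1 0 0 0 be 0 d' d n kk m 0 0 0 0 0,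
      B422 0 0 0 0 0 0 0 0 0 0 0 1 0 0 0 0] := by
  by_contra h0
  have hk : Infinite k := IsAlgClosed.instInfinite
  have h1 := finite_cl _ (poly_t be n m kk d d') (by simpa using h0)
  obtain ⟨s, hs⟩ := (h1.union (Set.toFinite {-be, -m, -kk})).exists_notMem
  simp only [Set.mem_union, Set.mem_ofPred_eq, Set.mem_insert_iff, Set.mem_singleton_iff,
    not_or] at hs
  obtain ⟨h2, h3, h4, h5⟩ := hs
  exact h2 (cl_1 (fun h => h3 (by linear_combination h)) (fun h => h4 (by linear_combination h))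
    (fun h => h5 (by linear_combination h)))

end Pool.Agent.Lib.D8
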