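import Pool.Agent.Lib.D7.Api
import Pool.Agent.Lib.D8.Defs
import Pool.Agent.Lib.D8.T422c

/-!
# MP_5dcbc3_ag: Jordan type `(4, 2, 2)`, the case `a = 0`, `b = 0`, `a' ≠ 0`, `b' ≠ 0`
-/

namespace Pool.Agent.Lib.D8

open Matrix Pool.Agent.Lib.Q5dc Pool.Agent.Lib.D7

variable {k : Type*} [Field k]

namespace T422bAux

theorem conj_aux {n : Type*} [Fintype n] [DecidableEq n] {X Y g h : Matrix n n k}
    (hgh : g * h = 1) (hX : X * g = g * Y) : X = g * Y * h := by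
  rw [← hX, Matrix.mul_assoc, hgh, Matrix.mul_one]

theorem cl_conj3 {X0 X1 X2 Y0 Y1 Y2 g h : Matrix (Fin 8) (Fin 8) k} (hgh : g * h = 1)
    (h0 : X0 * g = g * Y0) (h1 : X1 * g = g * Y1) (h2 : X2 * g = g * Y2)
    (hY : Cl ![Y0, Y1, Y2]) : Cl ![X0, X1, X2] := by
  have h4 := Cl.conj g h hgh (mul_eq_one_comm.1 hgh) hY
  convert h4 using 1
  funext i
  fin_cases i
  · exact conj_aux hgh h0
  · exact conj_aux hgh h1
  · exact conj_aux hgh h2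

theorem cl_adj3 {X0 X1 X2 Y0 Y1 Y2 : Matrix (Fin 8) (Fin 8) k}
    (h0 : X0 ∈ adj ![Y0, Y1, Y2]) (h1 : X1 ∈ adj ![Y0, Y1, Y2]) (h2 : X2 ∈ adj ![Y0, Y1, Y2])
    (hY : Cl ![Y0, Y1, Y2]) : Cl ![X0, X1, X2] := by
  refine cl_of_adj ?_ hY
  intro i
  fin_cases i
  · exact h0
  · exact h1
  · exact h2

theorem cl_line [Infinite k] {A B C B' C' : Matrix (Fin 8) (Fin 8) k}
    {E : Set k} (hE : E.Finite) (h : ∀ s ∉ E, Cl ![A, B + s • B', C + s • C']) :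
    Cl ![A, B, C] := by
  by_contra h0
  have e1 : ∀ s : k, ![A, B, C] + s • ![0, B', C'] = ![A, B + s • B', C + s • C'] := by
    intro s
    funext i
    fin_cases i
    · simp
    · rfl
    · rfl
  have e0 : ![A, B, C] + (0 : k) • ![0, B', C'] = ![A, B, C] := by
    rw [zero_smul, add_zero]
  have h1 := finite_cl (fun s => ![A, B, C] + s • ![0, B', C']) (PolyFam.line _ _)
    (by rw [e0]; exact h0)
  have h2 : (Set.univ : Set k) ⊆ E ∪ {s | Cl (![A, B, C] + s • ![0, B', C'])} := by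
    intro s _
    by_cases hs : s ∈ E
    · exact Or.inl hs
    · refine Or.inr ?_
      have h3 := h s hs
      rw [← e1] at h3
      exact h3
  exact Set.infinite_univ ((hE.union h1).subset h2)

/-- the matrix `w0 -> w1` -/
def Zm (k : Type*) [Field k] : Matrix (Fin 8) (Fin 8) k :=
  B422 0 0 0 0 0 0 0 0 0 0 0 1 0 0 0 0

/-- `J422 ^ 3` -/
def K422 (k : Type*) [Field k] : Matrix (Fin 8) (Fin 8) k :=
  !![0, 0, 0, 0, 0, 0, 0, 0;
     0, 0, 0, 0, 0, 0, 0, 0;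
     0, 0, 0, 0, 0, 0, 0, 0;
     1, 0, 0, 0, 0, 0, 0, 0;
     0, 0, 0, 0, 0, 0, 0, 0;
     0, 0, 0, 0, 0, 0, 0, 0;
     0, 0, 0, 0, 0, 0, 0, 0;
     0, 0, 0, 0, 0, 0, 0, 0]

/-- `J422 ^ 2` -/
def L422 (k : Type*) [Field k] : Matrix (Fin 8) (Fin 8) k :=
  !![0, 0, 0, 0, 0, 0, 0, 0;
     0, 0, 0, 0, 0, 0, 0, 0;
     1, 0, 0, 0, 0, 0, 0, 0;
     0, 1, 0, 0, 0, 0, 0, 0;
     0, 0, 0, 0, 0, 0, 0, 0;
     0, 0, 0, 0, 0, 0, 0, 0;
     0, 0, 0, 0, 0, 0, 0, 0;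
     0, 0, 0, 0, 0, 0, 0, 0]

theorem L_eq : L422 k = J422 k * J422 k := by
  ext i j
  rw [Matrix.mul_apply]
  fin_cases i <;> fin_cases j <;> simp [J422, L422, Fin.sum_univ_succ]

theorem K_eq : K422 k = J422 k * J422 k * J422 k := by
  rw [← L_eq]
  ext i j
  rw [Matrix.mul_apply]
  fin_cases i <;> fin_cases j <;> simp [J422, K422, L422, Fin.sum_univ_succ]

theorem K_mem (B C : Matrix (Fin 8) (Fin 8) k) : K422 k ∈ adj ![J422 k, B, C] := by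
  have h0 : J422 k ∈ adj ![J422 k, B, C] := mem_adj ![J422 k, B, C] 0
  rw [K_eq]
  exact mul_mem (mul_mem h0 h0) h0

theorem B_add_smul {a0 a1 c0 c1 b0 b1 d0 d1 n00 n01 n10 n11 z00 z01 z10 z11 a0' a1' c0' c1' b0' b1'
    d0' d1' n00' n01' n10' n11' z00' z01' z10' z11' : k} (s : k) :
    B422 a0 a1 c0 c1 b0 b1 d0 d1 n00 n01 n10 n11 z00 z01 z10 z11 +
      s • B422 a0' a1' c0' c1' b0' b1' d0' d1' n00' n01' n10' n11' z00' z01' z10' z11' =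
    B422 (a0 + s * a0') (a1 + s * a1') (c0 + s * c0') (c1 + s * c1') (b0 + s * b0') (b1 + s * b1')
      (d0 + s * d0') (d1 + s * d1') (n00 + s * n00') (n01 + s * n01') (n10 + s * n10')
      (n11 + s * n11') (z00 + s * z00') (z01 + s * z01') (z10 + s * z10') (z11 + s * z11') := by
  ext i j
  fin_cases i <;> fin_cases j <;> simp [B422]

/-! ### step (f) -/

/-- the basis change `u0 -> u0 + x u1 + y w1` -/
def Pf (x y : k) : Matrix (Fin 8) (Fin 8) k :=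
  !![1, 0, 0, 0, 0, 0, 0, 0;
     0, 1, 0, 0, 0, 0, 0, 0;
     0, 0, 1, 0, 0, 0, 0, 0;
     0, 0, 0, 1, 0, 0, 0, 0;
     0, 0, 0, 0, 1, 0, 0, 0;
     0, 0, 0, 0, x, 1, 0, 0;
     0, 0, 0, 0, 0, 0, 1, 0;
     0, 0, 0, 0, y, 0, 0, 1]

theorem Pf_inv (x y : k) : Pf x y * Pf (-x) (-y) = 1 := by
  ext i j
  rw [Matrix.mul_apply]
  fin_cases i <;> fin_cases j <;> simp [Pf, Fin.sum_univ_succ]

theorem f0 (x y : k) : J422 k * Pf x y = Pf x y * J422 k := by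
  ext i j
  rw [Matrix.mul_apply, Matrix.mul_apply]
  fin_cases i <;> fin_cases j <;> simp [Pf, J422, Fin.sum_univ_succ]

theorem f1 (x y : k) : Zm k * Pf x y = Pf x y * Zm k := by
  ext i j
  rw [Matrix.mul_apply, Matrix.mul_apply]
  fin_cases i <;> fin_cases j <;> simp [Pf, Zm, B422, Fin.sum_univ_succ]

theorem f2 (c0 c1 be d0 d1 n00 n01 n10 : k) :
    B422 1 0 c0 c1 be 0 d0 d1 n00 n01 n10 0 0 0 0 0 * Pf c0 c1 =
      Pf c0 c1 * B422 1 0 0 0 be 0 (d0 + be * c0) d1 n00 n01 n10 0 0 0 0 0 := by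
  ext i j
  rw [Matrix.mul_apply, Matrix.mul_apply]
  fin_cases i <;> fin_cases j <;> simp [Pf, B422, Fin.sum_univ_succ]

theorem stF [IsAlgClosed k] [CharZero k] (c0 c1 be d0 d1 n00 n01 n10 n11 : k) :
    Cl ![J422 k, Zm k, B422 1 0 c0 c1 be 0 d0 d1 n00 n01 n10 n11 0 0 0 0] := by
  have h1 : Cl ![J422 k, Zm k, B422 1 0 0 0 be 0 (d0 + be * c0) d1 n00 n01 n10 0 0 0 0 0] := by
    refine cl_adj3 ?_ ?_ ?_ (cl_C422 be n00 n10 n01 d1 (d0 + be * c0))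
    · exact mem_adj _ 0
    · exact mem_adj ![J422 k, B422 1 0 0 0 be 0 (d0 + be * c0) d1 n00 n01 n10 0 0 0 0 0, Zm k] 2
    · exact mem_adj ![J422 k, B422 1 0 0 0 be 0 (d0 + be * c0) d1 n00 n01 n10 0 0 0 0 0, Zm k] 1
  have h2 : Cl ![J422 k, Zm k, B422 1 0 c0 c1 be 0 d0 d1 n00 n01 n10 0 0 0 0 0] :=
    cl_conj3 (Pf_inv c0 c1) (f0 c0 c1) (f1 c0 c1) (f2 c0 c1 be d0 d1 n00 n01 n10) h1
  have e : B422 1 0 c0 c1 be 0 d0 d1 n00 n01 n10 n11 0 0 0 0 =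
      B422 1 0 c0 c1 be 0 d0 d1 n00 n01 n10 0 0 0 0 0 + n11 • Zm k := by
    unfold Zm
    rw [B_add_smul]
    simp
  refine cl_adj3 ?_ ?_ ?_ h2
  · exact mem_adj _ 0
  · exact mem_adj ![J422 k, Zm k, B422 1 0 c0 c1 be 0 d0 d1 n00 n01 n10 0 0 0 0 0] 1
  · rw [e]
    exact add_mem
      (mem_adj ![J422 k, Zm k, B422 1 0 c0 c1 be 0 d0 d1 n00 n01 n10 0 0 0 0 0] 2)
      (SMulMemClass.smul_mem _
        (mem_adj ![J422 k, Zm k, B422 1 0 c0 c1 be 0 d0 d1 n00 n01 n10 0 0 0 0 0] 1))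

/-! ### step (e) -/

/-- the basis change `v0 -> v0 - x w0, v1 -> v1 - x w1, w0 -> w0 + y v2, w1 -> w1 + y v3` -/
def Pe (x y : k) : Matrix (Fin 8) (Fin 8) k :=
  !![1, 0, 0, 0, 0, 0, 0, 0;
     0, 1, 0, 0, 0, 0, 0, 0;
     0, 0, 1, 0, 0, 0, y, 0;
     0, 0, 0, 1, 0, 0, 0, y;
     0, 0, 0, 0, 1, 0, 0, 0;
     0, 0, 0, 0, 0, 1, 0, 0;
     -x, 0, 0, 0, 0, 0, 1, 0;
     0, -x, 0, 0, 0, 0, 0, 1]

/-- the inverse -/
def Pe' (x y : k) : Matrix (Fin 8) (Fin 8) k :=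
  !![1, 0, 0, 0, 0, 0, 0, 0;
     0, 1, 0, 0, 0, 0, 0, 0;
     -(x * y), 0, 1, 0, 0, 0, -y, 0;
     0, -(x * y), 0, 1, 0, 0, 0, -y;
     0, 0, 0, 0, 1, 0, 0, 0;
     0, 0, 0, 0, 0, 1, 0, 0;
     x, 0, 0, 0, 0, 0, 1, 0;
     0, x, 0, 0, 0, 0, 0, 1]

theorem Pe_inv (x y : k) : Pe x y * Pe' x y = 1 := by
  ext i j
  rw [Matrix.mul_apply]
  fin_cases i <;> fin_cases j <;> simp [Pe, Pe', Fin.sum_univ_succ] <;> ring

theorem e0 (x y : k) : J422 k * Pe x y = Pe x y * J422 k := by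
  ext i j
  rw [Matrix.mul_apply, Matrix.mul_apply]
  fin_cases i <;> fin_cases j <;> simp [Pe, J422, Fin.sum_univ_succ]

theorem e1 (x y : k) : B422 0 0 0 x 0 0 0 y 0 0 0 1 0 0 0 0 * Pe x y =
    Pe x y * (Zm k + (-(x * y)) • K422 k) := by
  ext i j
  rw [Matrix.mul_apply, Matrix.mul_apply]
  fin_cases i <;> fin_cases j <;> simp [Pe, Zm, K422, B422, Fin.sum_univ_succ] <;> ring

theorem e2 (x y c0 c1 be d0 d1 n00 n01 n10 n11 : k) :
    B422 1 0 c0 c1 be 0 d0 d1 n00 n01 n10 n11 0 0 0 0 * Pe x y =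
      Pe x y * (B422 1 0 (c0 - x * n01) (c1 - x * n11) be 0 (d0 - y * n10) (d1 - y * n11)
        n00 n01 n10 n11 0 0 0 0 + (-(x * d1) - y * (c1 - x * n11)) • K422 k) := by
  ext i j
  rw [Matrix.mul_apply, Matrix.mul_apply]
  fin_cases i <;> fin_cases j <;> simp [Pe, K422, B422, Fin.sum_univ_succ] <;> ring

theorem stE [IsAlgClosed k] [CharZero k] (x y c0 c1 be d0 d1 n00 n01 n10 n11 : k) :
    Cl ![J422 k, B422 0 0 0 x 0 0 0 y 0 0 0 1 0 0 0 0,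
      B422 1 0 c0 c1 be 0 d0 d1 n00 n01 n10 n11 0 0 0 0] := by
  refine cl_conj3 (Pe_inv x y) (e0 x y) (e1 x y) (e2 x y c0 c1 be d0 d1 n00 n01 n10 n11) ?_
  refine cl_adj3 ?_ ?_ ?_ (stF (c0 - x * n01) (c1 - x * n11) be (d0 - y * n10) (d1 - y * n11)
    n00 n01 n10 n11)
  · exact mem_adj _ 0
  · exact add_mem (mem_adj ![J422 k, Zm k, B422 1 0 (c0 - x * n01) (c1 - x * n11) be 0
      (d0 - y * n10) (d1 - y * n11) n00 n01 n10 n11 0 0 0 0] 1)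
      (SMulMemClass.smul_mem _ (K_mem _ _))
  · exact add_mem (mem_adj ![J422 k, Zm k, B422 1 0 (c0 - x * n01) (c1 - x * n11) be 0
      (d0 - y * n10) (d1 - y * n11) n00 n01 n10 n11 0 0 0 0] 2)
      (SMulMemClass.smul_mem _ (K_mem _ _))

/-! ### step (d) -/

theorem JC (c0 c1 be d0 d1 n00 n01 n10 n11 : k) :
    J422 k * B422 1 0 c0 c1 be 0 d0 d1 n00 n01 n10 n11 0 0 0 0 =
      B422 0 0 1 0 0 0 be 0 0 0 0 0 0 0 0 0 := by
  ext i j
  rw [Matrix.mul_apply]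
  fin_cases i <;> fin_cases j <;> simp [J422, B422, Fin.sum_univ_succ]

theorem stD [IsAlgClosed k] [CharZero k] {x y nu c0 c1 be d0 d1 n00 n01 n10 n11 : k} (p : k)
    (hnu : nu ≠ 0) :
    Cl ![J422 k, B422 0 0 p x 0 0 (be * p) y 0 0 0 nu 0 0 0 0,
      B422 1 0 c0 c1 be 0 d0 d1 n00 n01 n10 n11 0 0 0 0] := by
  have h := stE (x / nu) (y / nu) c0 c1 be d0 d1 n00 n01 n10 n11
  have e : B422 0 0 p x 0 0 (be * p) y 0 0 0 nu 0 0 0 0 =
      nu • B422 0 0 0 (x / nu) 0 0 0 (y / nu) 0 0 0 1 0 0 0 0 + p • (J422 k *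
        B422 1 0 c0 c1 be 0 d0 d1 n00 n01 n10 n11 0 0 0 0) := by
    rw [JC]
    ext i j
    fin_cases i <;> fin_cases j <;> simp [B422, mul_div_cancel₀ _ hnu, mul_comm]
  refine cl_adj3 ?_ ?_ ?_ h
  · exact mem_adj _ 0
  · rw [e]
    exact add_mem (SMulMemClass.smul_mem _ (mem_adj ![J422 k,
      B422 0 0 0 (x / nu) 0 0 0 (y / nu) 0 0 0 1 0 0 0 0,
      B422 1 0 c0 c1 be 0 d0 d1 n00 n01 n10 n11 0 0 0 0] 1))
      (SMulMemClass.smul_mem _ (mul_mem (mem_adj ![J422 k,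
      B422 0 0 0 (x / nu) 0 0 0 (y / nu) 0 0 0 1 0 0 0 0,
      B422 1 0 c0 c1 be 0 d0 d1 n00 n01 n10 n11 0 0 0 0] 0) (mem_adj ![J422 k,
      B422 0 0 0 (x / nu) 0 0 0 (y / nu) 0 0 0 1 0 0 0 0,
      B422 1 0 c0 c1 be 0 d0 d1 n00 n01 n10 n11 0 0 0 0] 2)))
  · exact mem_adj _ 2

/-! ### step (c) -/

/-- the basis change by the matrix with columns `a`, `(-b1, b0)` on `u0, w0` and on `u1, w1` -/
def Pc (a0 a1 b0 b1 : k) : Matrix (Fin 8) (Fin 8) k :=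
  !![1, 0, 0, 0, 0, 0, 0, 0;
     0, 1, 0, 0, 0, 0, 0, 0;
     0, 0, 1, 0, 0, 0, 0, 0;
     0, 0, 0, 1, 0, 0, 0, 0;
     0, 0, 0, 0, a0, 0, -b1, 0;
     0, 0, 0, 0, 0, a0, 0, -b1;
     0, 0, 0, 0, a1, 0, b0, 0;
     0, 0, 0, 0, 0, a1, 0, b0]

/-- the inverse, `t = 1 / (a0 b0 + a1 b1)` -/
def Pc' (a0 a1 b0 b1 t : k) : Matrix (Fin 8) (Fin 8) k :=
  !![1, 0, 0, 0, 0, 0, 0, 0;
     0, 1, 0, 0, 0, 0, 0, 0;
     0, 0, 1, 0, 0, 0, 0, 0;
     0, 0, 0, 1, 0, 0, 0, 0;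
     0, 0, 0, 0, t * b0, 0, t * b1, 0;
     0, 0, 0, 0, 0, t * b0, 0, t * b1;
     0, 0, 0, 0, -(t * a1), 0, t * a0, 0;
     0, 0, 0, 0, 0, -(t * a1), 0, t * a0]

theorem Pc_inv {a0 a1 b0 b1 t : k} (ht : t * (a0 * b0 + a1 * b1) = 1) :
    Pc a0 a1 b0 b1 * Pc' a0 a1 b0 b1 t = 1 := by
  ext i j
  rw [Matrix.mul_apply]
  fin_cases i <;> fin_cases j <;> simp [Pc, Pc', Fin.sum_univ_succ]
  all_goals first
    | ring1
    | linear_combination ht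

theorem p0 (a0 a1 b0 b1 : k) : J422 k * Pc a0 a1 b0 b1 = Pc a0 a1 b0 b1 * J422 k := by
  ext i j
  rw [Matrix.mul_apply, Matrix.mul_apply]
  fin_cases i <;> fin_cases j <;> simp [Pc, J422, Fin.sum_univ_succ]

theorem p1 {a0 a1 b0 b1 t nu c0 c1 d0 d1 : k} (ht : t * (a0 * b0 + a1 * b1) = 1)
    (h2 : d0 * a0 + d1 * a1 = b0 * c0 + b1 * c1) :
    B422 0 0 c0 c1 0 0 d0 d1 (nu * (b1 * a1)) (-(nu * (b1 * a0))) (-(nu * (b0 * a1)))
      (nu * (b0 * a0)) 0 0 0 0 * Pc a0 a1 b0 b1 =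
    Pc a0 a1 b0 b1 * B422 0 0 (t * (b0 * c0 + b1 * c1)) (t * (a0 * c1 - a1 * c0)) 0 0
      ((a0 * b0 + a1 * b1) * (t * (b0 * c0 + b1 * c1))) (b0 * d1 - b1 * d0) 0 0 0
      (nu * (a0 * b0 + a1 * b1)) 0 0 0 0 := by
  ext i j
  rw [Matrix.mul_apply, Matrix.mul_apply]
  fin_cases i <;> fin_cases j <;> simp [Pc, B422, Fin.sum_univ_succ]
  all_goals first
    | ring1
    | linear_combination h2 - (b0 * c0 + b1 * c1) * ht
    | linear_combination (-c0) * ht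
    | linear_combination (-c1) * ht

theorem p2 {a0 a1 b0 b1 t c0 c1 d0 d1 n00 n01 n10 n11 : k}
    (ht : t * (a0 * b0 + a1 * b1) = 1) :
    B422 a0 a1 c0 c1 b0 b1 d0 d1 n00 n01 n10 n11 0 0 0 0 * Pc a0 a1 b0 b1 =
    Pc a0 a1 b0 b1 * B422 1 0 (t * (b0 * c0 + b1 * c1)) (t * (a0 * c1 - a1 * c0))
      (a0 * b0 + a1 * b1) 0 (a0 * d0 + a1 * d1) (b0 * d1 - b1 * d0)
      (t * (b0 * (n00 * a0 + n01 * a1) + b1 * (n10 * a0 + n11 * a1)))
      (t * (b0 * (n01 * b0 - n00 * b1) + b1 * (n11 * b0 - n10 * b1)))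
      (t * (a0 * (n10 * a0 + n11 * a1) - a1 * (n00 * a0 + n01 * a1)))
      (t * (a0 * (n11 * b0 - n10 * b1) - a1 * (n01 * b0 - n00 * b1))) 0 0 0 0 := by
  ext i j
  rw [Matrix.mul_apply, Matrix.mul_apply]
  fin_cases i <;> fin_cases j <;> simp [Pc, B422, Fin.sum_univ_succ]
  all_goals first
    | ring1
    | linear_combination (-c0) * ht
    | linear_combination (-c1) * ht
    | linear_combination (-(n00 * a0 + n01 * a1)) * ht
    | linear_combination (-(n10 * a0 + n11 * a1)) * ht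
    | linear_combination (-(n01 * b0 - n00 * b1)) * ht
    | linear_combination (-(n11 * b0 - n10 * b1)) * ht

theorem stC [IsAlgClosed k] [CharZero k] {a0 a1 b0 b1 nu c0 c1 d0 d1 c0' c1' d0' d1' n00' n01' n10'
    n11' : k} (hD : a0 * b0 + a1 * b1 ≠ 0) (hnu : nu ≠ 0)
    (h2 : d0 * a0 + d1 * a1 = b0 * c0 + b1 * c1) :
    Cl ![J422 k, B422 0 0 c0 c1 0 0 d0 d1 (nu * (b1 * a1)) (-(nu * (b1 * a0)))
      (-(nu * (b0 * a1))) (nu * (b0 * a0)) 0 0 0 0,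
      B422 a0 a1 c0' c1' b0 b1 d0' d1' n00' n01' n10' n11' 0 0 0 0] := by
  have ht : (a0 * b0 + a1 * b1)⁻¹ * (a0 * b0 + a1 * b1) = 1 := inv_mul_cancel₀ hD
  exact cl_conj3 (Pc_inv ht) (p0 a0 a1 b0 b1) (p1 ht h2) (p2 ht)
    (stD _ (mul_ne_zero hnu hD))

/-! ### step (a) -/

theorem stA [IsAlgClosed k] [CharZero k] {a0 a1 b0 b1 c0 c1 d0 d1 c0' c1' d0' d1' n00' n01' n10'
    n11' : k} (nu : k) (hD : a0 * b0 + a1 * b1 ≠ 0)
    (h2 : d0 * a0 + d1 * a1 = b0 * c0 + b1 * c1) :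
    Cl ![J422 k, B422 0 0 c0 c1 0 0 d0 d1 (nu * (b1 * a1)) (-(nu * (b1 * a0)))
      (-(nu * (b0 * a1))) (nu * (b0 * a0)) 0 0 0 0,
      B422 a0 a1 c0' c1' b0 b1 d0' d1' n00' n01' n10' n11' 0 0 0 0] := by
  refine cl_line (B' := B422 0 0 0 0 0 0 0 0 (b1 * a1) (-(b1 * a0)) (-(b0 * a1)) (b0 * a0) 0 0 0 0)
    (C' := 0) (Set.finite_singleton (-nu)) ?_
  intro s hs
  have hs' : nu + s ≠ 0 := by
    intro h
    exact hs (Set.mem_singleton_iff.2 (by linear_combination h))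
  have e1 : B422 0 0 c0 c1 0 0 d0 d1 (nu * (b1 * a1)) (-(nu * (b1 * a0))) (-(nu * (b0 * a1)))
      (nu * (b0 * a0)) 0 0 0 0 +
      s • B422 0 0 0 0 0 0 0 0 (b1 * a1) (-(b1 * a0)) (-(b0 * a1)) (b0 * a0) 0 0 0 0 =
      B422 0 0 c0 c1 0 0 d0 d1 ((nu + s) * (b1 * a1)) (-((nu + s) * (b1 * a0)))
        (-((nu + s) * (b0 * a1))) ((nu + s) * (b0 * a0)) 0 0 0 0 := by
    rw [B_add_smul]
    congr 1 <;> ring
  rw [e1, smul_zero, add_zero]
  exact stC hD hs' h2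

/-! ### step (b) -/

theorem stB [IsAlgClosed k] [CharZero k] {a0 a1 b0 b1 c0 c1 d0 d1 c0' c1' d0' d1' n00' n01' n10'
    n11' : k} (nu : k) (ha : (a0, a1) ≠ 0) (hb : (b0, b1) ≠ 0)
    (h2 : d0 * a0 + d1 * a1 = b0 * c0 + b1 * c1) :
    Cl ![J422 k, B422 0 0 c0 c1 0 0 d0 d1 (nu * (b1 * a1)) (-(nu * (b1 * a0)))
      (-(nu * (b0 * a1))) (nu * (b0 * a0)) 0 0 0 0,
      B422 a0 a1 c0' c1' b0 b1 d0' d1' n00' n01' n10' n11' 0 0 0 0] := by
  by_cases hD : a0 * b0 + a1 * b1 = 0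
  · by_cases hb0 : b0 = 0
    · have hb1 : b1 ≠ 0 := by
        intro h
        exact hb (by rw [hb0, h]; rfl)
      have ha1 : a1 = 0 := by
        rw [hb0, mul_zero, zero_add] at hD
        exact (mul_eq_zero.1 hD).resolve_right hb1
      have ha0 : a0 ≠ 0 := by
        intro h
        exact ha (by rw [ha1, h]; rfl)
      refine cl_line
        (B' := B422 0 0 0 0 0 0 (-(d1 / a0)) 0 (nu * b1) 0 (-(nu * b0)) 0 0 0 0 0)
        (C' := B422 0 1 0 0 0 0 0 0 0 0 0 0 0 0 0 0) (Set.finite_singleton 0) ?_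
      intro s hs
      have hs' : s ≠ 0 := hs
      have e1 : B422 0 0 c0 c1 0 0 d0 d1 (nu * (b1 * a1)) (-(nu * (b1 * a0)))
          (-(nu * (b0 * a1))) (nu * (b0 * a0)) 0 0 0 0 +
          s • B422 0 0 0 0 0 0 (-(d1 / a0)) 0 (nu * b1) 0 (-(nu * b0)) 0 0 0 0 0 =
          B422 0 0 c0 c1 0 0 (d0 - s * (d1 / a0)) d1 (nu * (b1 * (a1 + s)))
            (-(nu * (b1 * a0))) (-(nu * (b0 * (a1 + s)))) (nu * (b0 * a0)) 0 0 0 0 := by
        rw [B_add_smul]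
        congr 1 <;> ring
      have e2 : B422 a0 a1 c0' c1' b0 b1 d0' d1' n00' n01' n10' n11' 0 0 0 0 +
          s • B422 0 1 0 0 0 0 0 0 0 0 0 0 0 0 0 0 =
          B422 a0 (a1 + s) c0' c1' b0 b1 d0' d1' n00' n01' n10' n11' 0 0 0 0 := by
        rw [B_add_smul]
        congr 1 <;> ring
      rw [e1, e2]
      refine stA nu ?_ ?_
      · have : a0 * b0 + (a1 + s) * b1 = s * b1 := by linear_combination hD
        rw [this]
        exact mul_ne_zero hs' hb1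
      · rw [ha1] at h2 ⊢
        have h3 : d1 / a0 * a0 = d1 := div_mul_cancel₀ _ ha0
        linear_combination h2 - s * h3
    · have ha1 : a1 ≠ 0 := by
        intro h
        rw [h, zero_mul, add_zero] at hD
        have ha0 : a0 = 0 := (mul_eq_zero.1 hD).resolve_right hb0
        exact ha (by rw [ha0, h]; rfl)
      refine cl_line
        (B' := B422 0 0 0 0 0 0 0 (-(d0 / a1)) 0 (-(nu * b1)) 0 (nu * b0) 0 0 0 0)
        (C' := B422 1 0 0 0 0 0 0 0 0 0 0 0 0 0 0 0) (Set.finite_singleton 0) ?_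
      intro s hs
      have hs' : s ≠ 0 := hs
      have e1 : B422 0 0 c0 c1 0 0 d0 d1 (nu * (b1 * a1)) (-(nu * (b1 * a0)))
          (-(nu * (b0 * a1))) (nu * (b0 * a0)) 0 0 0 0 +
          s • B422 0 0 0 0 0 0 0 (-(d0 / a1)) 0 (-(nu * b1)) 0 (nu * b0) 0 0 0 0 =
          B422 0 0 c0 c1 0 0 d0 (d1 - s * (d0 / a1)) (nu * (b1 * a1))
            (-(nu * (b1 * (a0 + s)))) (-(nu * (b0 * a1))) (nu * (b0 * (a0 + s))) 0 0 0 0 := by
        rw [B_add_smul]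
        congr 1 <;> ring
      have e2 : B422 a0 a1 c0' c1' b0 b1 d0' d1' n00' n01' n10' n11' 0 0 0 0 +
          s • B422 1 0 0 0 0 0 0 0 0 0 0 0 0 0 0 0 =
          B422 (a0 + s) a1 c0' c1' b0 b1 d0' d1' n00' n01' n10' n11' 0 0 0 0 := by
        rw [B_add_smul]
        congr 1 <;> ring
      rw [e1, e2]
      refine stA nu ?_ ?_
      · have : (a0 + s) * b0 + a1 * b1 = s * b0 := by linear_combination hD
        rw [this]
        exact mul_ne_zero hs' hb0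
      · have h3 : d0 / a1 * a1 = d0 := div_mul_cancel₀ _ ha1
        linear_combination h2 - s * h3
  · exact stA nu hD h2

theorem exists_nu {a0 a1 b0 b1 n00 n01 n10 n11 : k} (ha : (a0, a1) ≠ 0) (hb : (b0, b1) ≠ 0)
    (h3 : n00 * a0 + n01 * a1 = 0) (h3' : n10 * a0 + n11 * a1 = 0)
    (h4 : b0 * n00 + b1 * n10 = 0) (h4' : b0 * n01 + b1 * n11 = 0) :
    ∃ nu : k, n00 = nu * (b1 * a1) ∧ n01 = -(nu * (b1 * a0)) ∧ n10 = -(nu * (b0 * a1)) ∧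
      n11 = nu * (b0 * a0) := by
  by_cases ha0 : a0 = 0
  · have ha1 : a1 ≠ 0 := by
      intro h
      exact ha (by rw [ha0, h]; rfl)
    have e1 : n01 = 0 := by
      rw [ha0, mul_zero, zero_add] at h3
      exact (mul_eq_zero.1 h3).resolve_right ha1
    have e2 : n11 = 0 := by
      rw [ha0, mul_zero, zero_add] at h3'
      exact (mul_eq_zero.1 h3').resolve_right ha1
    by_cases hb0 : b0 = 0
    · have hb1 : b1 ≠ 0 := by
        intro h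
        exact hb (by rw [hb0, h]; rfl)
      have e3 : n10 = 0 := by
        rw [hb0, zero_mul, zero_add] at h4
        exact (mul_eq_zero.1 h4).resolve_left hb1
      refine ⟨n00 / (b1 * a1), ?_, ?_, ?_, ?_⟩
      · field_simp
      · rw [ha0, e1]; ring
      · rw [hb0, e3]; ring
      · rw [hb0, e2]; ring
    · refine ⟨-(n10 / (b0 * a1)), ?_, ?_, ?_, ?_⟩
      · field_simp
        linear_combination h4
      · rw [ha0, e1]; ring
      · field_simp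
      · rw [ha0, e2]; ring
  · by_cases hb0 : b0 = 0
    · have hb1 : b1 ≠ 0 := by
        intro h
        exact hb (by rw [hb0, h]; rfl)
      have e3 : n10 = 0 := by
        rw [hb0, zero_mul, zero_add] at h4
        exact (mul_eq_zero.1 h4).resolve_left hb1
      have e4 : n11 = 0 := by
        rw [hb0, zero_mul, zero_add] at h4'
        exact (mul_eq_zero.1 h4').resolve_left hb1
      refine ⟨-(n01 / (b1 * a0)), ?_, ?_, ?_, ?_⟩
      · field_simp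
        linear_combination h3
      · field_simp
      · rw [hb0, e3]; ring
      · rw [hb0, e4]; ring
    · refine ⟨n11 / (b0 * a0), ?_, ?_, ?_, ?_⟩
      · field_simp
        linear_combination b0 * h3 - a1 * h4'
      · field_simp
        linear_combination h4'
      · field_simp
        linear_combination h3'
      · field_simp

end T422bAux

theorem cl_422s [IsAlgClosed k] [CharZero k]
    {c0 c1 d0 d1 n00 n01 n10 n11 a0' a1' c0' c1' b0' b1' d0' d1' n00' n01' n10' n11' : k}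
    (ha : (a0', a1') ≠ 0) (hb : (b0', b1') ≠ 0)
    (h2 : d0 * a0' + d1 * a1' = b0' * c0 + b1' * c1)
    (h3 : n00 * a0' + n01 * a1' = 0) (h3' : n10 * a0' + n11 * a1' = 0)
    (h4 : b0' * n00 + b1' * n10 = 0) (h4' : b0' * n01 + b1' * n11 = 0) :
    Cl ![J422 k, B422 0 0 c0 c1 0 0 d0 d1 n00 n01 n10 n11 0 0 0 0,
      B422 a0' a1' c0' c1' b0' b1' d0' d1' n00' n01' n10' n11' 0 0 0 0] := by
  obtain ⟨nu, e1, e2, e3, e4⟩ := T422bAux.exists_nu ha hb h3 h3' h4 h4'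
  rw [e1, e2, e3, e4]
  exact T422bAux.stB nu ha hb h2

end Pool.Agent.Lib.D8
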