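import Pool.Agent.Lib.D7.Api
import Pool.Agent.Lib.D8.Defs
import Pool.Agent.Lib.D8.TFd

/-!
# MP_5dcbc3_ag: Jordan type `(4, 2, 2)`, cyclic case

`cl_G422`: for `b00 b11 - b01 ^ 2 ≠ 0` the triple is conjugate to a triple `TFd`; in general it is a
member of a polynomial family with this property.
-/

set_option autoImplicit false

namespace Pool.Agent.Lib.D8

open Matrix Pool.Agent.Lib.Q5dc Pool.Agent.Lib.D7

variable {k : Type*} [Field k]

namespace T422dAux

/-- the triple -/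
def G (b00 b01 b11 d0 d1 d2 n00 n01 n10 n11 m01 m11 : k) : Fin 3 → Matrix (Fin 8) (Fin 8) k :=
  ![J422 k, B422 1 0 0 0 b00 b01 d0 d1 n00 n01 n10 n11 0 0 0 0,
    B422 0 1 0 0 b01 b11 d1 d2 n01 m01 n11 m11 0 0 0 0]

/-- the new basis; `t = 1 / (b00 b11 - b01 ^ 2)` -/
def P (b00 b01 b11 t : k) : Matrix (Fin 8) (Fin 8) k :=
  !![1, 0, 0, 0, 0, 0, 0, 0;
     0, 1, 0, 0, 0, 0, 0, 0;
     0, 0, 0, 0, 1, 0, 0, 0;
     0, 0, 0, 0, 0, 0, 0, 1;
     0, 0, 1, 0, 0, 0, 0, 0;
     0, 0, 0, 0, 0, b11 * t, -b01 * t, 0;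
     0, 0, 0, 1, 0, 0, 0, 0;
     0, 0, 0, 0, 0, -b01 * t, b00 * t, 0]

/-- the inverse of `P` -/
def Q (b00 b01 b11 : k) : Matrix (Fin 8) (Fin 8) k :=
  !![1, 0, 0, 0, 0, 0, 0, 0;
     0, 1, 0, 0, 0, 0, 0, 0;
     0, 0, 0, 0, 1, 0, 0, 0;
     0, 0, 0, 0, 0, 0, 1, 0;
     0, 0, 1, 0, 0, 0, 0, 0;
     0, 0, 0, 0, 0, b00, 0, b01;
     0, 0, 0, 0, 0, b01, 0, b11;
     0, 0, 0, 1, 0, 0, 0, 0]

theorem P_mul_Q {b00 b01 b11 t : k} (ht : t * (b00 * b11 - b01 * b01) = 1) :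
    P b00 b01 b11 t * Q b00 b01 b11 = 1 := by
  ext i j
  rw [Matrix.mul_apply]
  fin_cases i <;> fin_cases j <;> simp [P, Q, Fin.sum_univ_succ]
  · linear_combination ht
  · ring
  · ring
  · linear_combination ht

/-- the cubic -/
def ff (b00 b01 b11 n00 n01 n10 n11 m01 m11 : k) : Fin 10 → k :=
  ![1, 0, 0, b00, b01, b11, b00 * n00 + b01 * n10, b00 * n01 + b01 * n11,
    b00 * m01 + b01 * m11, b01 * m01 + b11 * m11]

/-- the quadratic part -/
def dd (d0 d1 d2 : k) : Fin 6 → k := ![0, 0, 0, d0, d1, d2]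

section

variable {b00 b01 b11 d0 d1 d2 n00 n01 n10 n11 m01 m11 t : k}

theorem conj0 (ht : t * (b00 * b11 - b01 * b01) = 1) :
    J422 k * P b00 b01 b11 t = P b00 b01 b11 t *
      TFd (ff b00 b01 b11 n00 n01 n10 n11 m01 m11) (dd d0 d1 d2) 0 := by
  ext i j
  rw [Matrix.mul_apply, Matrix.mul_apply]
  fin_cases i <;> fin_cases j <;> simp [J422, P, TFd, ff, dd, Fin.sum_univ_succ]
  · linear_combination -ht
  · ring
  · ring
  · linear_combination -ht

theorem conj1 (ht : t * (b00 * b11 - b01 * b01) = 1)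
    (h1 : b00 * n01 + b01 * n11 = b01 * n00 + b11 * n10)
    (h2 : b00 * m01 + b01 * m11 = b01 * n01 + b11 * n11) :
    B422 1 0 0 0 b00 b01 d0 d1 n00 n01 n10 n11 0 0 0 0 * P b00 b01 b11 t = P b00 b01 b11 t *
      TFd (ff b00 b01 b11 n00 n01 n10 n11 m01 m11) (dd d0 d1 d2) 1 := by
  ext i j
  rw [Matrix.mul_apply, Matrix.mul_apply]
  fin_cases i <;> fin_cases j <;> simp [B422, P, TFd, ff, dd, Fin.sum_univ_succ]
  · linear_combination ht
  · ring
  · linear_combination -ht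
  · linear_combination -n00 * ht + b01 * t * h1
  · linear_combination -n01 * ht + b01 * t * h2
  · ring
  · linear_combination -n10 * ht - b00 * t * h1
  · linear_combination -n11 * ht - b00 * t * h2

theorem conj2 (ht : t * (b00 * b11 - b01 * b01) = 1)
    (h2 : b00 * m01 + b01 * m11 = b01 * n01 + b11 * n11) :
    B422 0 1 0 0 b01 b11 d1 d2 n01 m01 n11 m11 0 0 0 0 * P b00 b01 b11 t = P b00 b01 b11 t *
      TFd (ff b00 b01 b11 n00 n01 n10 n11 m01 m11) (dd d0 d1 d2) 2 := by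
  ext i j
  rw [Matrix.mul_apply, Matrix.mul_apply]
  fin_cases i <;> fin_cases j <;> simp [B422, P, TFd, ff, dd, Fin.sum_univ_succ]
  · ring
  · linear_combination ht
  · ring
  · linear_combination -n01 * ht + b01 * t * h2
  · linear_combination -m01 * ht
  · linear_combination -ht
  · linear_combination -n11 * ht - b00 * t * h2
  · linear_combination -m11 * ht

end

theorem conj_aux {n : Type*} [Fintype n] [DecidableEq n] {X Y g h : Matrix n n k}
    (hgh : g * h = 1) (hX : X * g = g * Y) : X = g * Y * h := by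
  rw [← hX, Matrix.mul_assoc, hgh, Matrix.mul_one]

theorem poly {b00 b01 b11 n00 n01 n10 n11 m01 m11 : k → k} (d0 d1 d2 : k)
    (h1 : D7.IsPoly b00) (h2 : D7.IsPoly b01) (h3 : D7.IsPoly b11) (h4 : D7.IsPoly n00)
    (h5 : D7.IsPoly n01) (h6 : D7.IsPoly n10) (h7 : D7.IsPoly n11) (h8 : D7.IsPoly m01)
    (h9 : D7.IsPoly m11) : PolyFam fun s => G (b00 s) (b01 s) (b11 s) d0 d1 d2 (n00 s) (n01 s)
      (n10 s) (n11 s) (m01 s) (m11 s) := by
  have hc : ∀ a : k, D7.IsPoly fun _ : k => a := D7.IsPoly.const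
  intro i x y
  fin_cases i <;> fin_cases x <;> fin_cases y <;>
    first | exact hc _ | exact h1 | exact h2 | exact h3 | exact h4 | exact h5 | exact h6 | exact h7 | exact h8 | exact h9

section

variable [IsAlgClosed k] [CharZero k]

variable {b00 b01 b11 d0 d1 d2 n00 n01 n10 n11 m01 m11 : k}

theorem cl1 (hD : b00 * b11 - b01 * b01 ≠ 0)
    (h1 : b00 * n01 + b01 * n11 = b01 * n00 + b11 * n10)
    (h2 : b00 * m01 + b01 * m11 = b01 * n01 + b11 * n11) :
    Cl (G b00 b01 b11 d0 d1 d2 n00 n01 n10 n11 m01 m11) := by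
  have ht : (b00 * b11 - b01 * b01)⁻¹ * (b00 * b11 - b01 * b01) = 1 := inv_mul_cancel₀ hD
  have hG := P_mul_Q ht
  have hH := mul_eq_one_comm.1 hG
  have h4 := Cl.conj _ _ hG hH
    (cl_TFd (ff b00 b01 b11 n00 n01 n10 n11 m01 m11) (dd d0 d1 d2))
  unfold G
  convert h4 using 1
  funext i
  fin_cases i
  · exact conj_aux hG (conj0 ht)
  · exact conj_aux hG (conj1 ht h1 h2)
  · exact conj_aux hG (conj2 ht h2)

/-- closure -/
theorem cl_of_fam {b00 b01 b11 n00 n01 n10 n11 m01 m11 : k → k} (d0 d1 d2 : k)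
    (h1 : D7.IsPoly b00) (h2 : D7.IsPoly b01) (h3 : D7.IsPoly b11) (h4 : D7.IsPoly n00)
    (h5 : D7.IsPoly n01) (h6 : D7.IsPoly n10) (h7 : D7.IsPoly n11) (h8 : D7.IsPoly m01)
    (h9 : D7.IsPoly m11) {E : Set k} (hE : E.Finite)
    (hD : ∀ s ∉ E, b00 s * b11 s - b01 s * b01 s ≠ 0)
    (r1 : ∀ s, b00 s * n01 s + b01 s * n11 s = b01 s * n00 s + b11 s * n10 s)
    (r2 : ∀ s, b00 s * m01 s + b01 s * m11 s = b01 s * n01 s + b11 s * n11 s) :
    Cl (G (b00 0) (b01 0) (b11 0) d0 d1 d2 (n00 0) (n01 0) (n10 0) (n11 0) (m01 0) (m11 0)) := by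
  have hk : Infinite k := IsAlgClosed.instInfinite
  by_contra h0
  have hf := finite_cl _ (poly d0 d1 d2 h1 h2 h3 h4 h5 h6 h7 h8 h9) h0
  obtain ⟨s, hs⟩ := (hf.union hE).exists_notMem
  simp only [Set.mem_union, Set.mem_ofPred_eq, not_or] at hs
  exact hs.1 (cl1 (hD s hs.2) (r1 s) (r2 s))

/-- rank one, first case -/
theorem cl2 (hb : b00 ≠ 0) (hD : b00 * b11 - b01 * b01 = 0)
    (h1 : b00 * n01 + b01 * n11 = b01 * n00 + b11 * n10)
    (h2 : b00 * m01 + b01 * m11 = b01 * n01 + b11 * n11) :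
    Cl (G b00 b01 b11 d0 d1 d2 n00 n01 n10 n11 m01 m11) := by
  have hc : ∀ a : k, D7.IsPoly fun _ : k => a := D7.IsPoly.const
  have hl : ∀ a b : k, D7.IsPoly fun s : k => a + s * b := fun a b =>
    (D7.IsPoly.const a).add (D7.IsPoly.id.mul (D7.IsPoly.const b))
  obtain ⟨y, hy⟩ : ∃ y, b01 = b00 * y := ⟨b01 / b00, by field_simp⟩
  have h := cl_of_fam (b00 := fun _ => b00) (b01 := fun _ => b01) (b11 := fun s => b11 + s * b00)
    (n00 := fun _ => n00) (n01 := fun s => n01 + s * n10) (n10 := fun _ => n10)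
    (n11 := fun _ => n11) (m01 := fun s => m01 + s * (n11 + y * n10)) (m11 := fun _ => m11)
    d0 d1 d2 (hc _) (hc _) (hl _ _) (hc _) (hl _ _) (hc _) (hc _) (hl _ _) (hc _)
    (E := {0}) (Set.finite_singleton _)
    (by
      intro s hs h3
      have hs0 : s ≠ 0 := hs
      have h4 : s * (b00 * b00) = 0 := by
        linear_combination h3 - hD
      exact mul_ne_zero hs0 (mul_ne_zero hb hb) h4)
    (by
      intro s
      linear_combination h1)
    (by
      intro s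
      rw [hy] at h2 ⊢
      linear_combination h2)
  simpa using h

/-- rank one, second case -/
theorem cl3 (hb : b11 ≠ 0)
    (h1 : (0 : k) * n01 + 0 * n11 = 0 * n00 + b11 * n10)
    (h2 : (0 : k) * m01 + 0 * m11 = 0 * n01 + b11 * n11) :
    Cl (G 0 0 b11 d0 d1 d2 n00 n01 n10 n11 m01 m11) := by
  have hc : ∀ a : k, D7.IsPoly fun _ : k => a := D7.IsPoly.const
  have hl : ∀ a b : k, D7.IsPoly fun s : k => a + s * b := fun a b =>
    (D7.IsPoly.const a).add (D7.IsPoly.id.mul (D7.IsPoly.const b))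
  have h := cl_of_fam (b00 := fun s => 0 + s * b11) (b01 := fun _ => 0) (b11 := fun _ => b11)
    (n00 := fun _ => n00) (n01 := fun _ => n01) (n10 := fun s => n10 + s * n01)
    (n11 := fun s => n11 + s * m01) (m01 := fun _ => m01) (m11 := fun _ => m11)
    d0 d1 d2 (hl _ _) (hc _) (hc _) (hc _) (hc _) (hl _ _) (hl _ _) (hc _) (hc _)
    (E := {0}) (Set.finite_singleton _)
    (by
      intro s hs h3
      have hs0 : s ≠ 0 := hs
      have h4 : s * (b11 * b11) = 0 := by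
        linear_combination h3
      exact mul_ne_zero hs0 (mul_ne_zero hb hb) h4)
    (by
      intro s
      linear_combination h1)
    (by
      intro s
      linear_combination h2)
  simpa using h

/-- the cross product -/
def X0 (n00 n01 n10 n11 m11 : k) : k := -n11 * (n11 - n00) + n10 * (m11 - n01)

/-- the cross product -/
def X1 (n01 n10 n11 m01 : k) : k := n01 * n11 - n10 * m01

/-- the cross product -/
def X2 (n00 n01 n11 m01 m11 : k) : k := n01 * (m11 - n01) - (n11 - n00) * m01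

/-- the discriminant -/
def DD (n00 n01 n10 n11 m01 m11 : k) : k :=
  X0 n00 n01 n10 n11 m11 * X2 n00 n01 n11 m01 m11 - X1 n01 n10 n11 m01 * X1 n01 n10 n11 m01

omit [IsAlgClosed k] [CharZero k] in
theorem DD_hom (s : k) : DD (s * n00) (s * n01) (s * n10) (s * n11) (s * m01) (s * m11) =
    s ^ 4 * DD n00 n01 n10 n11 m01 m11 := by
  unfold DD X0 X1 X2
  ring

/-- rank zero -/
theorem cl4 : Cl (G 0 0 0 d0 d1 d2 n00 n01 n10 n11 m01 m11) := by
  have hc : ∀ a : k, D7.IsPoly fun _ : k => a := D7.IsPoly.const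
  have hid : D7.IsPoly fun s : k => s := D7.IsPoly.id
  have hl : ∀ a b : k, D7.IsPoly fun s : k => a + s * b := fun a b =>
    (D7.IsPoly.const a).add (D7.IsPoly.id.mul (D7.IsPoly.const b))
  have hl' : ∀ a b : k, D7.IsPoly fun s : k => s * a + b := fun a b =>
    (D7.IsPoly.id.mul (D7.IsPoly.const a)).add (D7.IsPoly.const b)
  have p0 : D7.IsPoly fun s : k => s * X0 (n00 + s * 0) (n01 + s * 1) (n10 + s * 1) (n11 + s * 0)
      (m11 + s * 2) := hid.mul (((hl _ _).neg.mul ((hl _ _).sub (hl _ _))).add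
        ((hl _ _).mul ((hl _ _).sub (hl _ _))))
  have p1 : D7.IsPoly fun s : k => s * X1 (n01 + s * 1) (n10 + s * 1) (n11 + s * 0)
      (m01 + s * 0) := hid.mul (((hl _ _).mul (hl _ _)).sub ((hl _ _).mul (hl _ _)))
  have p2 : D7.IsPoly fun s : k => s * X2 (n00 + s * 0) (n01 + s * 1) (n11 + s * 0)
      (m01 + s * 0) (m11 + s * 2) := hid.mul (((hl _ _).mul ((hl _ _).sub (hl _ _))).sub
        (((hl _ _).sub (hl _ _)).mul (hl _ _)))
  have hE : D7.IsPoly fun s : k => DD (s * n00 + 0) (s * n01 + 1) (s * n10 + 1) (s * n11 + 0)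
      (s * m01 + 0) (s * m11 + 2) :=
    ((((hl' _ _).neg.mul ((hl' _ _).sub (hl' _ _))).add
        ((hl' _ _).mul ((hl' _ _).sub (hl' _ _)))).mul
      (((hl' _ _).mul ((hl' _ _).sub (hl' _ _))).sub
        (((hl' _ _).sub (hl' _ _)).mul (hl' _ _)))).sub
      ((((hl' _ _).mul (hl' _ _)).sub ((hl' _ _).mul (hl' _ _))).mul
        (((hl' _ _).mul (hl' _ _)).sub ((hl' _ _).mul (hl' _ _))))
  have hfin := hE.finite (s₁ := 0) (by
    simp only [DD, X0, X1, X2]
    norm_num)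
  have h := cl_of_fam
    (b00 := fun s => s * X0 (n00 + s * 0) (n01 + s * 1) (n10 + s * 1) (n11 + s * 0) (m11 + s * 2))
    (b01 := fun s => s * X1 (n01 + s * 1) (n10 + s * 1) (n11 + s * 0) (m01 + s * 0))
    (b11 := fun s => s * X2 (n00 + s * 0) (n01 + s * 1) (n11 + s * 0) (m01 + s * 0) (m11 + s * 2))
    (n00 := fun s => n00 + s * 0) (n01 := fun s => n01 + s * 1) (n10 := fun s => n10 + s * 1)
    (n11 := fun s => n11 + s * 0) (m01 := fun s => m01 + s * 0) (m11 := fun s => m11 + s * 2)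
    d0 d1 d2 p0 p1 p2 (hl _ _) (hl _ _) (hl _ _) (hl _ _) (hl _ _) (hl _ _)
    (E := {0} ∪ (fun s => s⁻¹) ⁻¹' {s : k | DD (s * n00 + 0) (s * n01 + 1) (s * n10 + 1)
      (s * n11 + 0) (s * m01 + 0) (s * m11 + 2) = 0})
    ((Set.finite_singleton _).union (hfin.preimage inv_injective.injOn))
    (by
      intro s hs h3
      have hs0 : s ≠ 0 := fun h => hs (Or.inl h)
      refine hs (Or.inr ?_)
      show DD (s⁻¹ * n00 + 0) (s⁻¹ * n01 + 1) (s⁻¹ * n10 + 1)
          (s⁻¹ * n11 + 0) (s⁻¹ * m01 + 0) (s⁻¹ * m11 + 2) = 0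
      have h4 : s * s * DD (n00 + s * 0) (n01 + s * 1) (n10 + s * 1) (n11 + s * 0) (m01 + s * 0)
          (m11 + s * 2) = 0 := by
        unfold DD
        linear_combination h3
      have h5 := (mul_eq_zero.1 h4).resolve_left (mul_ne_zero hs0 hs0)
      have h6 : ∀ a b : k, a + s * b = s * (s⁻¹ * a + b) := fun a b => by
        rw [mul_add, ← mul_assoc, mul_inv_cancel₀ hs0, one_mul]
      rw [h6 n00, h6 n01, h6 n10, h6 n11, h6 m01, h6 m11, DD_hom] at h5
      exact (mul_eq_zero.1 h5).resolve_left (pow_ne_zero 4 hs0))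
    (by
      intro s
      simp only [X0, X1, X2]
      ring)
    (by
      intro s
      simp only [X0, X1, X2]
      ring)
  simpa using h

end

end T422dAux

open T422dAux

theorem cl_G422 [IsAlgClosed k] [CharZero k] {b00 b01 b11 d0 d1 d2 n00 n01 n10 n11 m01 m11 : k}
    (h1 : b00 * n01 + b01 * n11 = b01 * n00 + b11 * n10)
    (h2 : b00 * m01 + b01 * m11 = b01 * n01 + b11 * n11) :
    Cl ![J422 k, B422 1 0 0 0 b00 b01 d0 d1 n00 n01 n10 n11 0 0 0 0,
      B422 0 1 0 0 b01 b11 d1 d2 n01 m01 n11 m11 0 0 0 0] := by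
  by_cases hD : b00 * b11 - b01 * b01 = 0
  · by_cases hb : b00 = 0
    · subst hb
      have hb1 : b01 = 0 := by
        have : b01 * b01 = 0 := by linear_combination -hD
        exact mul_self_eq_zero.1 this
      subst hb1
      by_cases hb2 : b11 = 0
      · subst hb2
        exact cl4
      · exact cl3 hb2 h1 h2
    · exact cl2 hb hD h1 h2
  · exact cl1 hD h1 h2

end Pool.Agent.Lib.D8
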