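import Pool.Agent.Lib.D7.Api
import Pool.Agent.Lib.D8.Defs
import Pool.Agent.Lib.D8.T422d

/-!
# MP_5dcbc3_ag: Jordan type `(4, 2, 2)`, the case of independent top parts
-/

set_option autoImplicit false

namespace Pool.Agent.Lib.D8

open Matrix Pool.Agent.Lib.Q5dc Pool.Agent.Lib.D7

variable {k : Type*} [Field k]

namespace T422eAux

/-- the new basis -/
def P (c0 c1 c0' c1' : k) : Matrix (Fin 8) (Fin 8) k :=
  !![1, 0, 0, 0, 0, 0, 0, 0;
     0, 1, 0, 0, 0, 0, 0, 0;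
     0, 0, 1, 0, 0, 0, 0, 0;
     0, 0, 0, 1, 0, 0, 0, 0;
     0, 0, 0, 0, 1, 0, 0, 0;
     0, 0, 0, 0, c0, 1, c0', 0;
     0, 0, 0, 0, 0, 0, 1, 0;
     0, 0, 0, 0, c1, 0, c1', 1]

section

variable {c0 c1 c0' c1' b0 b1 d0 d1 n00 n01 n10 n11 b0' b1' d0' d1' n00' n01' n10' n11' : k}

theorem P_mul_P : P c0 c1 c0' c1' * P (-c0) (-c1) (-c0') (-c1') = 1 := by
  ext i j
  rw [Matrix.mul_apply]
  fin_cases i <;> fin_cases j <;> simp [P, Fin.sum_univ_succ]

theorem conj0 : J422 k * P c0 c1 c0' c1' = P c0 c1 c0' c1' * J422 k := by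
  ext i j
  rw [Matrix.mul_apply, Matrix.mul_apply]
  fin_cases i <;> fin_cases j <;> simp [J422, P, Fin.sum_univ_succ]

theorem conj1 : B422 1 0 c0 c1 b0 b1 d0 d1 n00 n01 n10 n11 0 0 0 0 * P c0 c1 c0' c1' =
    P c0 c1 c0' c1' * B422 1 0 0 0 b0 b1 (d0 + c0 * b0 + c1 * b1) (d1 + c0' * b0 + c1' * b1)
      n00 n01 n10 n11 0 0 0 0 := by
  ext i j
  rw [Matrix.mul_apply, Matrix.mul_apply]
  fin_cases i <;> fin_cases j <;> simp [B422, P, Fin.sum_univ_succ] <;> ring

theorem conj2 : B422 0 1 c0' c1' b0' b1' d0' d1' n00' n01' n10' n11' 0 0 0 0 * P c0 c1 c0' c1' =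
    P c0 c1 c0' c1' * B422 0 1 0 0 b0' b1' (d0' + c0 * b0' + c1 * b1')
      (d1' + c0' * b0' + c1' * b1') n00' n01' n10' n11' 0 0 0 0 := by
  ext i j
  rw [Matrix.mul_apply, Matrix.mul_apply]
  fin_cases i <;> fin_cases j <;> simp [B422, P, Fin.sum_univ_succ] <;> ring

/-- normalised top parts -/
theorem cl1 [IsAlgClosed k] [CharZero k]
    (h1 : b1 = b0')
    (h2 : d1 + c0' * b0 + c1' * b1 = d0' + c0 * b0' + c1 * b1')
    (h3 : n01 = n00') (h3' : n11 = n10')
    (h4 : b0 * n00' + b1 * n10' = b0' * n00 + b1' * n10)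
    (h4' : b0 * n01' + b1 * n11' = b0' * n01 + b1' * n11) :
    Cl ![J422 k, B422 1 0 c0 c1 b0 b1 d0 d1 n00 n01 n10 n11 0 0 0 0,
      B422 0 1 c0' c1' b0' b1' d0' d1' n00' n01' n10' n11' 0 0 0 0] := by
  subst h1 h3 h3'
  have hG : P c0 c1 c0' c1' * P (-c0) (-c1) (-c0') (-c1') = 1 := P_mul_P
  have hH := mul_eq_one_comm.1 hG
  have h5 := Cl.conj _ _ hG hH (cl_G422 (b00 := b0) (b01 := b1) (b11 := b1')
    (d0 := d0 + c0 * b0 + c1 * b1) (d1 := d1 + c0' * b0 + c1' * b1)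
    (d2 := d1' + c0' * b1 + c1' * b1') (n00 := n00) (n01 := n01) (n10 := n10) (n11 := n11)
    (m01 := n01') (m11 := n11') h4 h4')
  convert h5 using 1
  funext i
  fin_cases i
  · exact T422dAux.conj_aux hG conj0
  · exact T422dAux.conj_aux hG conj1
  · refine T422dAux.conj_aux hG ?_
    have h6 := conj2 (c0 := c0) (c1 := c1) (c0' := c0') (c1' := c1') (b0' := b1) (b1' := b1')
      (d0' := d0') (d1' := d1') (n00' := n01) (n01' := n01') (n10' := n11) (n11' := n11')
    rw [← h2] at h6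
    exact h6

end

/-- linear combinations of the matrices `B422` -/
theorem B_lin (x y : k) {a0 a1 c0 c1 b0 b1 d0 d1 n00 n01 n10 n11 a0' a1' c0' c1' b0' b1' d0' d1'
    n00' n01' n10' n11' : k} :
    x • B422 a0 a1 c0 c1 b0 b1 d0 d1 n00 n01 n10 n11 0 0 0 0 +
      y • B422 a0' a1' c0' c1' b0' b1' d0' d1' n00' n01' n10' n11' 0 0 0 0 =
    B422 (x * a0 + y * a0') (x * a1 + y * a1') (x * c0 + y * c0') (x * c1 + y * c1')
      (x * b0 + y * b0') (x * b1 + y * b1') (x * d0 + y * d0') (x * d1 + y * d1')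
      (x * n00 + y * n00') (x * n01 + y * n01') (x * n10 + y * n10') (x * n11 + y * n11')
      0 0 0 0 := by
  ext i j
  fin_cases i <;> fin_cases j <;> simp [B422]

theorem cl_comb {A B C B' C' : Matrix (Fin 8) (Fin 8) k} (x y z w : k) (h : Cl ![A, B', C'])
    (hB : x • B' + y • C' = B) (hC : z • B' + w • C' = C) : Cl ![A, B, C] := by
  subst hB hC
  have h0 : A ∈ adj ![A, B', C'] := mem_adj ![A, B', C'] 0
  have h1 : B' ∈ adj ![A, B', C'] := mem_adj ![A, B', C'] 1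
  have h2 : C' ∈ adj ![A, B', C'] := mem_adj ![A, B', C'] 2
  refine cl_of_adj (T' := ![A, B', C']) ?_ h
  intro i
  fin_cases i
  · exact h0
  · exact add_mem (SMulMemClass.smul_mem _ h1) (SMulMemClass.smul_mem _ h2)
  · exact add_mem (SMulMemClass.smul_mem _ h1) (SMulMemClass.smul_mem _ h2)

theorem B_congr {a0 a1 c0 c1 b0 b1 d0 d1 n00 n01 n10 n11 a0' a1' c0' c1' b0' b1' d0' d1'
    n00' n01' n10' n11' : k} (e1 : a0 = a0') (e2 : a1 = a1') (e3 : c0 = c0') (e4 : c1 = c1')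
    (e5 : b0 = b0') (e6 : b1 = b1') (e7 : d0 = d0') (e8 : d1 = d1') (e9 : n00 = n00')
    (e10 : n01 = n01') (e11 : n10 = n10') (e12 : n11 = n11') :
    B422 a0 a1 c0 c1 b0 b1 d0 d1 n00 n01 n10 n11 0 0 0 0 =
      B422 a0' a1' c0' c1' b0' b1' d0' d1' n00' n01' n10' n11' 0 0 0 0 := by
  rw [e1, e2, e3, e4, e5, e6, e7, e8, e9, e10, e11, e12]

end T422eAux

open T422eAux

theorem cl_422ind [IsAlgClosed k] [CharZero k] {a0 a1 c0 c1 b0 b1 d0 d1 n00 n01 n10 n11 a0' a1'
    c0' c1' b0' b1' d0' d1' n00' n01' n10' n11' : k}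
    (h1 : b0 * a0' + b1 * a1' = b0' * a0 + b1' * a1)
    (h2 : d0 * a0' + d1 * a1' + b0 * c0' + b1 * c1' = d0' * a0 + d1' * a1 + b0' * c0 + b1' * c1)
    (h3 : n00 * a0' + n01 * a1' = n00' * a0 + n01' * a1)
    (h3' : n10 * a0' + n11 * a1' = n10' * a0 + n11' * a1)
    (h4 : b0 * n00' + b1 * n10' = b0' * n00 + b1' * n10)
    (h4' : b0 * n01' + b1 * n11' = b0' * n01 + b1' * n11)
    (h : a0 * a1' - a1 * a0' ≠ 0) :
    Cl ![J422 k, B422 a0 a1 c0 c1 b0 b1 d0 d1 n00 n01 n10 n11 0 0 0 0,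
      B422 a0' a1' c0' c1' b0' b1' d0' d1' n00' n01' n10' n11' 0 0 0 0] := by
  obtain ⟨t, ht⟩ : ∃ t, t * (a0 * a1' - a1 * a0') = 1 := ⟨_, inv_mul_cancel₀ h⟩
  have key := cl1 (k := k) (c0 := t * (a1' * c0 - a1 * c0')) (c1 := t * (a1' * c1 - a1 * c1'))
    (b0 := t * (a1' * b0 - a1 * b0')) (b1 := t * (a1' * b1 - a1 * b1'))
    (d0 := t * (a1' * d0 - a1 * d0')) (d1 := t * (a1' * d1 - a1 * d1'))
    (n00 := t * (a1' * n00 - a1 * n00')) (n01 := t * (a1' * n01 - a1 * n01'))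
    (n10 := t * (a1' * n10 - a1 * n10')) (n11 := t * (a1' * n11 - a1 * n11'))
    (c0' := t * (a0 * c0' - a0' * c0)) (c1' := t * (a0 * c1' - a0' * c1))
    (b0' := t * (a0 * b0' - a0' * b0)) (b1' := t * (a0 * b1' - a0' * b1))
    (d0' := t * (a0 * d0' - a0' * d0)) (d1' := t * (a0 * d1' - a0' * d1))
    (n00' := t * (a0 * n00' - a0' * n00)) (n01' := t * (a0 * n01' - a0' * n01))
    (n10' := t * (a0 * n10' - a0' * n10)) (n11' := t * (a0 * n11' - a0' * n11))
    (by linear_combination t * h1)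
    (by linear_combination t * h2 + t * (b0 * c0' - b0' * c0 + b1 * c1' - b1' * c1) * ht)
    (by linear_combination t * h3)
    (by linear_combination t * h3')
    (by linear_combination t ^ 2 * (a0 * a1' - a1 * a0') * h4)
    (by linear_combination t ^ 2 * (a0 * a1' - a1 * a0') * h4')
  refine cl_comb a0 a1 a0' a1' key ?_ ?_
  · rw [B_lin]
    apply B_congr
    · ring
    · ring
    · linear_combination c0 * ht
    · linear_combination c1 * ht
    · linear_combination b0 * ht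
    · linear_combination b1 * ht
    · linear_combination d0 * ht
    · linear_combination d1 * ht
    · linear_combination n00 * ht
    · linear_combination n01 * ht
    · linear_combination n10 * ht
    · linear_combination n11 * ht
  · rw [B_lin]
    apply B_congr
    · ring
    · ring
    · linear_combination c0' * ht
    · linear_combination c1' * ht
    · linear_combination b0' * ht
    · linear_combination b1' * ht
    · linear_combination d0' * ht
    · linear_combination d1' * ht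
    · linear_combination n00' * ht
    · linear_combination n01' * ht
    · linear_combination n10' * ht
    · linear_combination n11' * ht

end Pool.Agent.Lib.D8
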