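import Pool.Agent.Lib.D8.T422aB
import Pool.Agent.Lib.D8.T422b
import Pool.Agent.Lib.D8.T422e

/-!
# MP_5dcbc3_ag: Jordan type `(4, 2, 2)`
-/

namespace Pool.Agent.Lib.D8

open Matrix Pool.Agent.Lib.Q5dc Pool.Agent.Lib.D7

variable {k : Type*} [Field k]

namespace T422aAux

variable [IsAlgClosed k] [CharZero k]

theorem ind : Ind k := by
  intro a0 a1 c0 c1 b0 b1 d0 d1 n00 n01 n10 n11 a0' a1' c0' c1' b0' b1' d0' d1' n00' n01' n10'
    n11' h h'
  exact cl_422ind h.h1 h.h2 h.h3 h.h3' h.h4 h.h4' h'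

theorem spc : Spc k := by
  intro c0 c1 d0 d1 n00 n01 n10 n11 a0' a1' c0' c1' b0' b1' d0' d1' n00' n01' n10' n11' h ha hb
  refine cl_422s ?_ ?_ ?_ ?_ ?_ ?_ ?_
  · intro h0
    rw [Prod.mk.injEq] at h0
    exact ha.elim (fun h => h h0.1) (fun h => h h0.2)
  · intro h0
    rw [Prod.mk.injEq] at h0
    exact hb.elim (fun h => h h0.1) (fun h => h h0.2)
  · linear_combination h.h2
  · linear_combination h.h3
  · linear_combination h.h3'
  · linear_combination -h.h4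
  · linear_combination -h.h4'

end T422aAux

theorem no_422 [IsAlgClosed k] [CharZero k] {ρ : ℕ → ℕ} {T : Fin 3 → Matrix (Fin 8) (Fin 8) k}
    (hT : MaxR ρ T) (hρ : ∀ i, ρ i = (J422 k ^ i).rank) (h0 : T 0 = J422 k) : False :=
  T422aAux.no_of T422aAux.ind T422aAux.spc hT hρ h0

end Pool.Agent.Lib.D8
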