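import Pool.Agent.Lib.D8.T431bA

/-!
# MP_5dcbc3_ag: type (4, 3, 1), the generic algebra with three axes
-/

namespace Pool.Agent.Lib.D8

open Matrix Pool.Agent.Lib.Q5dc Pool.Agent.Lib.D7

variable {k : Type*} [Field k]

namespace T431bAux

/-- the square of `J431` -/
def A2 (k : Type*) [Field k] : Matrix (Fin 8) (Fin 8) k :=
  !![0, 0, 0, 0, 0, 0, 0, 0;
     0, 0, 0, 0, 0, 0, 0, 0;
     1, 0, 0, 0, 0, 0, 0, 0;
     0, 1, 0, 0, 0, 0, 0, 0;
     0, 0, 0, 0, 0, 0, 0, 0;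
     0, 0, 0, 0, 0, 0, 0, 0;
     0, 0, 0, 0, 1, 0, 0, 0;
     0, 0, 0, 0, 0, 0, 0, 0]

theorem AA : J431 k * J431 k = A2 k := by
  ext i j
  fin_cases i <;> fin_cases j <;> simp [J431, A2, Matrix.mul_apply, Fin.sum_univ_succ]

theorem A2A2 : A2 k * A2 k = 0 := by
  ext i j
  fin_cases i <;> fin_cases j <;> simp [A2, Matrix.mul_apply, Fin.sum_univ_succ]

theorem AU (f1 f2 g1 g2 th et : k) : J431 k * U f1 f2 g1 g2 th et =
    U f1 f2 g1 g2 th et * J431 k := by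
  ext i j
  fin_cases i <;> fin_cases j <;> simp [J431, U, Matrix.mul_apply, Fin.sum_univ_succ]

theorem AC (w th et th' et' : k) : J431 k * C w th et th' et' = 0 := by
  ext i j
  fin_cases i <;> fin_cases j <;> simp [J431, C, Matrix.mul_apply, Fin.sum_univ_succ]

theorem CA (w th et th' et' : k) : C w th et th' et' * J431 k = 0 := by
  ext i j
  fin_cases i <;> fin_cases j <;> simp [J431, C, Matrix.mul_apply, Fin.sum_univ_succ]

theorem B_eq (f1 f2 g1 g2 th et : k) :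
    B431 0 (-(f1 * f2)) (-(f1 * g2 + f2 * g1)) 1 0 0 (f1 + f2) (g1 + g2) 0 0 th et =
      U f1 f2 g1 g2 th et + f1 • J431 k + g1 • (J431 k * J431 k) := by
  rw [AA]
  ext i j
  fin_cases i <;> fin_cases j <;> simp [J431, U, B431, A2] <;> ring

theorem C_eq (w th et th' et' : k) :
    B431 0 0 (w * th) 0 0 0 0 (w * et) w 0 th' et' = C w th et th' et' := by
  ext i j
  fin_cases i <;> fin_cases j <;> simp [C, B431]

theorem V_eq (f1 f2 g1 g2 th et : k) : U f2 f1 g2 g1 th et =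
    U f1 f2 g1 g2 th et + (f1 - f2) • J431 k + (g1 - g2) • (J431 k * J431 k) := by
  have h1 := B_eq f1 f2 g1 g2 th et
  have h2 := B_eq f2 f1 g2 g1 th et
  have h3 : B431 0 (-(f1 * f2)) (-(f1 * g2 + f2 * g1)) 1 0 0 (f1 + f2) (g1 + g2) 0 0 th et =
      B431 0 (-(f2 * f1)) (-(f2 * g1 + f1 * g2)) 1 0 0 (f2 + f1) (g2 + g1) 0 0 th et := by
    congr 1 <;> ring
  rw [h3, h2] at h1
  have h4 : U f2 f1 g2 g1 th et = (U f2 f1 g2 g1 th et + f2 • J431 k + g2 • (J431 k * J431 k)) -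
      f2 • J431 k - g2 • (J431 k * J431 k) := by abel
  rw [h4, h1]
  module

/-- columns -/
theorem colU (f1 f2 g1 g2 th et : k) : U f1 f2 g1 g2 th et *ᵥ (Pi.single 0 1 : Fin 8 → k) =
    (-f1) • (Pi.single 1 1 : Fin 8 → k) + (-g1) • (Pi.single 2 1 : Fin 8 → k) +
      (Pi.single 4 1 : Fin 8 → k) := by
  rw [Matrix.mulVec_single_one]
  ext i
  fin_cases i <;> simp [U, Matrix.col]

theorem colU2 (f1 f2 g1 g2 : k) : U2 f1 f2 g1 g2 *ᵥ (Pi.single 0 1 : Fin 8 → k) =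
    (-(f1 * (f2 - f1))) • (Pi.single 2 1 : Fin 8 → k) +
      (-(g1 * (f2 - f1) + f1 * (g2 - g1))) • (Pi.single 3 1 : Fin 8 → k) +
      (f2 - f1) • (Pi.single 5 1 : Fin 8 → k) + (g2 - g1) • (Pi.single 6 1 : Fin 8 → k) := by
  rw [Matrix.mulVec_single_one]
  ext i
  fin_cases i <;> simp [U2, Matrix.col]

theorem colS (r t : k) : S r t *ᵥ (Pi.single 0 1 : Fin 8 → k) =
    r • (Pi.single 3 1 : Fin 8 → k) + t • (Pi.single 6 1 : Fin 8 → k) := by
  rw [Matrix.mulVec_single_one]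
  ext i
  fin_cases i <;> simp [S, Matrix.col]

theorem colC (w th et th' et' : k) : C w th et th' et' *ᵥ (Pi.single 0 1 : Fin 8 → k) =
    w • (Pi.single 7 1 : Fin 8 → k) := by
  rw [Matrix.mulVec_single_one]
  ext i
  fin_cases i <;> simp [C, Matrix.col]

theorem mem_of {M : Type*} [AddCommGroup M] [Module k M] {sp : Submodule k M} {c : k}
    (hc : c ≠ 0) {x y : M} (hy : y ∈ sp) (h : c • x + y ∈ sp) : x ∈ sp :=
  (Submodule.smul_mem_iff sp hc).1 ((Submodule.add_mem_iff_left sp hy).1 h)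

/-- the basis vectors -/
theorem span_top {f1 f2 g1 g2 th et w th' et' : k} {sp : Submodule k (Fin 8 → k)}
    (hde : f2 - f1 ≠ 0) (hw : w ≠ 0) (h0 : (Pi.single 0 1 : Fin 8 → k) ∈ sp)
    (hU3 : S (-(f1 * (f2 - f1) ^ 2)) ((f2 - f1) ^ 2) *ᵥ (Pi.single 0 1 : Fin 8 → k) ∈ sp)
    (hV3 : S (-(f2 * (f1 - f2) ^ 2)) ((f1 - f2) ^ 2) *ᵥ (Pi.single 0 1 : Fin 8 → k) ∈ sp)
    (hU2 : U2 f1 f2 g1 g2 *ᵥ (Pi.single 0 1 : Fin 8 → k) ∈ sp)
    (hV2 : U2 f2 f1 g2 g1 *ᵥ (Pi.single 0 1 : Fin 8 → k) ∈ sp)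
    (hU : U f1 f2 g1 g2 th et *ᵥ (Pi.single 0 1 : Fin 8 → k) ∈ sp)
    (hV : U f2 f1 g2 g1 th et *ᵥ (Pi.single 0 1 : Fin 8 → k) ∈ sp)
    (hC : C w th et th' et' *ᵥ (Pi.single 0 1 : Fin 8 → k) ∈ sp) : ⊤ ≤ sp := by
  rw [colS] at hU3 hV3
  rw [colU2] at hU2 hV2
  rw [colU] at hU hV
  rw [colC] at hC
  have e3 : (Pi.single 3 1 : Fin 8 → k) ∈ sp := by
    refine mem_of (c := (f2 - f1) ^ 3) (pow_ne_zero 3 hde) (y := 0) (zero_mem _) ?_
    convert sub_mem hU3 hV3 using 1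
    module
  have e6 : (Pi.single 6 1 : Fin 8 → k) ∈ sp := by
    refine mem_of (c := (f2 - f1) ^ 2) (pow_ne_zero 2 hde)
      (y := (-(f1 * (f2 - f1) ^ 2)) • Pi.single 3 1) (Submodule.smul_mem _ _ e3) ?_
    convert hU3 using 1
    module
  have e2 : (Pi.single 2 1 : Fin 8 → k) ∈ sp := by
    refine mem_of (c := (f2 - f1) ^ 2) (pow_ne_zero 2 hde)
      (y := (2 * (f2 - f1) * (g2 - g1)) • Pi.single 3 1) (Submodule.smul_mem _ _ e3) ?_
    convert add_mem hU2 hV2 using 1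
    module
  have e5 : (Pi.single 5 1 : Fin 8 → k) ∈ sp := by
    refine mem_of (c := f2 - f1) hde
      (y := (-(f1 * (f2 - f1))) • (Pi.single 2 1 : Fin 8 → k) +
      (-(g1 * (f2 - f1) + f1 * (g2 - g1))) • (Pi.single 3 1 : Fin 8 → k) +
      (g2 - g1) • (Pi.single 6 1 : Fin 8 → k))
      (add_mem (add_mem (Submodule.smul_mem _ _ e2) (Submodule.smul_mem _ _ e3))
        (Submodule.smul_mem _ _ e6)) ?_
    convert hU2 using 1
    module
  have e7 : (Pi.single 7 1 : Fin 8 → k) ∈ sp := (Submodule.smul_mem_iff sp hw).1 hC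
  have e1 : (Pi.single 1 1 : Fin 8 → k) ∈ sp := by
    refine mem_of (c := f2 - f1) hde (y := (g2 - g1) • Pi.single 2 1)
      (Submodule.smul_mem _ _ e2) ?_
    convert sub_mem hU hV using 1
    module
  have e4 : (Pi.single 4 1 : Fin 8 → k) ∈ sp := by
    refine mem_of (c := (1 : k)) one_ne_zero
      (y := (-f1) • (Pi.single 1 1 : Fin 8 → k) + (-g1) • (Pi.single 2 1 : Fin 8 → k))
      (add_mem (Submodule.smul_mem _ _ e1) (Submodule.smul_mem _ _ e2)) ?_
    convert hU using 1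
    module
  have hall : ∀ j : Fin 8, (Pi.single j 1 : Fin 8 → k) ∈ sp := by
    intro j
    fin_cases j
    · exact h0
    · exact e1
    · exact e2
    · exact e3
    · exact e4
    · exact e5
    · exact e6
    · exact e7
  intro x _
  rw [pi_eq_sum_univ' x]
  exact Submodule.sum_mem _ fun j _ => Submodule.smul_mem _ _ (hall j)

/-- three axes for general parameters -/
theorem gen [IsAlgClosed k] {f1 f2 g1 g2 th et w th' et' : k} (hde : f2 - f1 ≠ 0) (hw : w ≠ 0)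
    (hz1 : f2 * et' + th' ≠ 0) (hz2 : f1 * et' + th' ≠ 0) :
    Cl ![J431 k, B431 0 (-(f1 * f2)) (-(f1 * g2 + f2 * g1)) 1 0 0 (f1 + f2) (g1 + g2) 0 0 th et,
      B431 0 0 (w * th) 0 0 0 0 (w * et) w 0 th' et'] := by
  obtain ⟨w1, hw1⟩ : ∃ w1, w1 = (f2 * (w * et) + w * th) / (f2 - f1) ^ 3 := ⟨_, rfl⟩
  obtain ⟨w2, hw2⟩ : ∃ w2, w2 = -(f1 * (w * et) + w * th) / (f2 - f1) ^ 3 := ⟨_, rfl⟩
  obtain ⟨z1, hz1'⟩ : ∃ z1, z1 = (f2 * (w * et') + w * th') / (f2 - f1) ^ 3 := ⟨_, rfl⟩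
  obtain ⟨z2, hz2'⟩ : ∃ z2, z2 = -(f1 * (w * et') + w * th') / (f2 - f1) ^ 3 := ⟨_, rfl⟩
  have hz10 : z1 ≠ 0 := by
    rw [hz1']
    refine div_ne_zero ?_ (pow_ne_zero 3 hde)
    intro h
    exact mul_ne_zero hw hz1 (by linear_combination h)
  have hz20 : z2 ≠ 0 := by
    rw [hz2']
    refine div_ne_zero ?_ (pow_ne_zero 3 hde)
    intro h
    exact mul_ne_zero hw hz2 (by linear_combination -h)
  have hr := rel (g1 := g1) (g2 := g2) (f1 := f1) (f2 := f2) (th := th) (et := et) (w := w)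
    (th' := th') (et' := et') (w1 := w1) (w2 := w2) (z1 := z1) (z2 := z2)
    (by rw [hw1, hw2]; field_simp; ring) (by rw [hw1, hw2]; field_simp; ring)
    (by rw [hz1', hz2']; field_simp; ring) (by rw [hz1', hz2']; field_simp; ring)
  rw [C_eq, B_eq]
  set Um := U f1 f2 g1 g2 th et with hUm
  set Vm := U f2 f1 g2 g1 th et with hVm
  set Cm := C w th et th' et' with hCm
  set Um2 := U2 f1 f2 g1 g2 with hUm2
  set Vm2 := U2 f2 f1 g2 g1 with hVm2
  set Um3 := S (-(f1 * (f2 - f1) ^ 2)) ((f2 - f1) ^ 2) with hUm3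
  set Vm3 := S (-(f2 * (f1 - f2) ^ 2)) ((f1 - f2) ^ 2) with hVm3
  obtain ⟨xi, hxi⟩ : ∃ xi, xi = -w2 / z2 := ⟨_, rfl⟩
  obtain ⟨ze, hze⟩ : ∃ ze, ze = -w1 / z1 := ⟨_, rfl⟩
  obtain ⟨al, hal⟩ : ∃ al, al = w1 + xi * z1 := ⟨_, rfl⟩
  obtain ⟨be, hbe⟩ : ∃ be, be = w2 + ze * z2 := ⟨_, rfl⟩
  obtain ⟨la, hla⟩ : ∃ la, la = w2 ^ 2 / z2 := ⟨_, rfl⟩
  obtain ⟨mu, hmu⟩ : ∃ mu, mu = w1 ^ 2 / z1 := ⟨_, rfl⟩
  have e1 : (xi + ze) * w1 + xi * ze * z1 + mu = 0 := by
    rw [hmu, hze]; field_simp; ring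
  have e2 : (xi + ze) * w2 + xi * ze * z2 + la = 0 := by
    rw [hla, hxi]; field_simp; ring
  have e3 : w1 - al + xi * z1 = 0 := by rw [hal]; ring
  have e4 : w2 + xi * z2 = 0 := by rw [hxi]; field_simp; ring
  have e5 : w1 + ze * z1 = 0 := by rw [hze]; field_simp; ring
  have e6 : w2 - be + ze * z2 = 0 := by rw [hbe]; ring
  set X := XX xi la Um Vm2 Cm with hX
  set Y := XX ze mu Vm Um2 Cm with hY
  set Z := ZZ al be Cm Um2 Vm2 with hZ
  have hZ' : Z = ZZ be al Cm Vm2 Um2 := by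
    rw [hZ]; unfold ZZ; abel
  have hXY : X * Y = 0 := hr.xy e1 e2
  have hYX : Y * X = 0 := hr.symm.xy (by linear_combination e2) (by linear_combination e1)
  have hXZ : X * Z = 0 := hr.xz e3 e4
  have hZX : Z * X = 0 := hr.zx e3 e4
  have hYZ : Y * Z = 0 := by rw [hZ']; exact hr.symm.xz e6 e5
  have hZY : Z * Y = 0 := by rw [hZ']; exact hr.symm.zx e6 e5
  have hX3 : X ^ 3 = Um3 := hr.cube xi la
  have hY3 : Y ^ 3 = Vm3 := hr.symm.cube ze mu
  have hZ2 : Z ^ 2 = z1 • Um3 + z2 • Vm3 := hr.zsq al be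
  have hX2 := hr.xsq xi la
  have hY2 := hr.symm.xsq ze mu
  rw [← hX] at hX2
  rw [← hY] at hY2
  -- the spanning property
  have hsp : ⊤ ≤ Submodule.span k ({(Pi.single 0 1 : Fin 8 → k)} ∪
      {x | ∃ i, x = X ^ (i + 1) *ᵥ (Pi.single 0 1 : Fin 8 → k)} ∪
      {x | ∃ i, x = Y ^ (i + 1) *ᵥ (Pi.single 0 1 : Fin 8 → k)} ∪
      {x | ∃ i, x = Z ^ (i + 1) *ᵥ (Pi.single 0 1 : Fin 8 → k)}) := by
    set sp := Submodule.span k ({(Pi.single 0 1 : Fin 8 → k)} ∪
      {x | ∃ i, x = X ^ (i + 1) *ᵥ (Pi.single 0 1 : Fin 8 → k)} ∪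
      {x | ∃ i, x = Y ^ (i + 1) *ᵥ (Pi.single 0 1 : Fin 8 → k)} ∪
      {x | ∃ i, x = Z ^ (i + 1) *ᵥ (Pi.single 0 1 : Fin 8 → k)})
    have m0 : (Pi.single 0 1 : Fin 8 → k) ∈ sp :=
      Submodule.subset_span (Or.inl (Or.inl (Or.inl rfl)))
    have mX : ∀ i : ℕ, X ^ (i + 1) *ᵥ (Pi.single 0 1 : Fin 8 → k) ∈ sp := fun i =>
      Submodule.subset_span (Or.inl (Or.inl (Or.inr ⟨i, rfl⟩)))
    have mY : ∀ i : ℕ, Y ^ (i + 1) *ᵥ (Pi.single 0 1 : Fin 8 → k) ∈ sp := fun i =>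
      Submodule.subset_span (Or.inl (Or.inr ⟨i, rfl⟩))
    have mZ : ∀ i : ℕ, Z ^ (i + 1) *ᵥ (Pi.single 0 1 : Fin 8 → k) ∈ sp := fun i =>
      Submodule.subset_span (Or.inr ⟨i, rfl⟩)
    have hU3 : Um3 *ᵥ (Pi.single 0 1 : Fin 8 → k) ∈ sp := by
      rw [← hX3]
      exact mX 2
    have hV3 : Vm3 *ᵥ (Pi.single 0 1 : Fin 8 → k) ∈ sp := by
      rw [← hY3]
      exact mY 2
    have hU2 : Um2 *ᵥ (Pi.single 0 1 : Fin 8 → k) ∈ sp := by
      have h1 := mX 1
      rw [hX2, Matrix.add_mulVec, Matrix.add_mulVec, Matrix.smul_mulVec, Matrix.smul_mulVec] at h1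
      exact (Submodule.add_mem_iff_left _ (Submodule.smul_mem _ _ hU3)).1
        ((Submodule.add_mem_iff_left _ (Submodule.smul_mem _ _ hV3)).1 h1)
    have hV2 : Vm2 *ᵥ (Pi.single 0 1 : Fin 8 → k) ∈ sp := by
      have h1 := mY 1
      rw [hY2, Matrix.add_mulVec, Matrix.add_mulVec, Matrix.smul_mulVec, Matrix.smul_mulVec] at h1
      exact (Submodule.add_mem_iff_left _ (Submodule.smul_mem _ _ hV3)).1
        ((Submodule.add_mem_iff_left _ (Submodule.smul_mem _ _ hU3)).1 h1)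
    have hC : Cm *ᵥ (Pi.single 0 1 : Fin 8 → k) ∈ sp := by
      have h1 := mZ 0
      rw [zero_add, pow_one, hZ] at h1
      unfold ZZ at h1
      rw [Matrix.sub_mulVec, Matrix.sub_mulVec, Matrix.smul_mulVec, Matrix.smul_mulVec] at h1
      have h2 := add_mem (add_mem h1 (Submodule.smul_mem _ be hV2)) (Submodule.smul_mem _ al hU2)
      convert h2 using 1
      module
    have hU : Um *ᵥ (Pi.single 0 1 : Fin 8 → k) ∈ sp := by
      have h1 := mX 0
      rw [zero_add, pow_one, hX] at h1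
      unfold XX at h1
      rw [Matrix.add_mulVec, Matrix.add_mulVec, Matrix.smul_mulVec, Matrix.smul_mulVec] at h1
      exact (Submodule.add_mem_iff_left _ (Submodule.smul_mem _ _ hC)).1
        ((Submodule.add_mem_iff_left _ (Submodule.smul_mem _ _ hV2)).1 h1)
    have hV : Vm *ᵥ (Pi.single 0 1 : Fin 8 → k) ∈ sp := by
      have h1 := mY 0
      rw [zero_add, pow_one, hY] at h1
      unfold XX at h1
      rw [Matrix.add_mulVec, Matrix.add_mulVec, Matrix.smul_mulVec, Matrix.smul_mulVec] at h1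
      exact (Submodule.add_mem_iff_left _ (Submodule.smul_mem _ _ hC)).1
        ((Submodule.add_mem_iff_left _ (Submodule.smul_mem _ _ hU2)).1 h1)
    exact span_top hde hw m0 hU3 hV3 hU2 hV2 hU hV hC
  have hclX : Cl ![X, Y, Z] := by
    have h1 := cl_axes3 X Y Z (Pi.single 0 1 : Fin 8 → k) (p := 3) (q := 3) (r := 2)
      (by norm_num) (by norm_num) (by norm_num) (by simp) hXY hYX hXZ hZX hYZ hZY
      (a := -(z2 / z1)) (b := z1⁻¹) (neg_ne_zero.2 (div_ne_zero hz20 hz10)) (inv_ne_zero hz10)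
      (by
        rw [hX3, hY3, hZ2, Matrix.add_mulVec, Matrix.smul_mulVec, Matrix.smul_mulVec, smul_add,
          smul_smul, smul_smul, inv_mul_cancel₀ hz10, one_smul]
        have : z1⁻¹ * z2 = z2 / z1 := by rw [div_eq_inv_mul]
        rw [this]
        module) hsp
      (fun i j => if i = j then 1 else 0)
    have h2 : (fun i : Fin 3 => (if i = 0 then (1 : k) else 0) • X +
        (if i = 1 then (1 : k) else 0) • Y + (if i = 2 then (1 : k) else 0) • Z) = ![X, Y, Z] := by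
      funext i
      fin_cases i <;> simp
    rw [h2] at h1
    exact h1
  -- the triple A, B, C
  set A := J431 k with hA
  have hAU : A * Um = Um * A := AU ..
  have hAV : A * Vm = Vm * A := AU ..
  have hAC : A * Cm = 0 := AC ..
  have hCA : Cm * A = 0 := CA ..
  have hVU : Vm = Um + (f1 - f2) • A + (g1 - g2) • (A * A) := V_eq ..
  set B := Um + f1 • A + g1 • (A * A) with hB
  have hAB : A * B = B * A := by
    rw [hB]
    simp only [mul_add, add_mul, mul_smul_comm, smul_mul_assoc, hAU, mul_assoc]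
  have hBC : B * Cm = Cm * B := by
    rw [hB]
    simp only [mul_add, add_mul, mul_smul_comm, smul_mul_assoc, hr.uc, hr.cu, mul_assoc, hAC]
    rw [← mul_assoc Cm A A, hCA, zero_mul, mul_zero]
  have hCN : CN ![A, B, Cm] := by
    refine ⟨fun i j => ?_, fun i => ?_⟩
    · fin_cases i <;> fin_cases j
      · rfl
      · exact hAB
      · exact hAC.trans hCA.symm
      · exact hAB.symm
      · rfl
      · exact hBC
      · exact hCA.trans hAC.symm
      · exact hBC.symm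
      · rfl
    · have nA : IsNilpotent A := ⟨4, by
        have : A ^ 4 = (A * A) * (A * A) := by
          simp only [pow_succ, pow_zero, one_mul, mul_assoc]
        rw [this, hA, AA, A2A2]⟩
      have nU : IsNilpotent Um := ⟨4, by
        have : Um ^ 4 = Um * (Um * (Um * Um)) := by
          simp only [pow_succ, pow_zero, one_mul, mul_assoc]
        rw [this, hr.uu, hr.uu2, hr.uu3]⟩
      fin_cases i
      · exact nA
      · have hc1 : Commute Um (f1 • A) := (show Um * (f1 • A) = (f1 • A) * Um by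
          rw [mul_smul_comm, smul_mul_assoc, hAU])
        have hc2 : Commute (Um + f1 • A) (g1 • (A * A)) := by
          have c1 : Commute Um A := hAU.symm
          have c2 : Commute Um (A * A) := c1.mul_right c1
          have c3 : Commute A (A * A) := (Commute.refl A).mul_right (Commute.refl A)
          exact (c2.add_left (c3.smul_left f1)).smul_right g1
        have n1 : IsNilpotent (f1 • A) := nA.smul f1
        have n2 : IsNilpotent (g1 • (A * A)) := by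
          have : IsNilpotent (A * A) := ⟨2, by rw [sq, hA, AA, A2A2]⟩
          exact this.smul g1
        exact hc2.isNilpotent_add (hc1.isNilpotent_add nU n1) n2
      · refine ⟨3, ?_⟩
        show Cm ^ 3 = 0
        have : Cm ^ 3 = Cm * (Cm * Cm) := by
          simp only [pow_succ, pow_zero, one_mul, mul_assoc]
        rw [this, hr.cc, mul_add, mul_smul_comm, mul_smul_comm, hr.cu3, hr.symm.cu3, smul_zero,
          smul_zero, add_zero]
  -- memberships
  have mA : A ∈ adj ![A, B, Cm] := mem_adj ![A, B, Cm] 0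
  have mB : B ∈ adj ![A, B, Cm] := mem_adj ![A, B, Cm] 1
  have mC : Cm ∈ adj ![A, B, Cm] := mem_adj ![A, B, Cm] 2
  have mAA : A * A ∈ adj ![A, B, Cm] := mul_mem mA mA
  have mU : Um ∈ adj ![A, B, Cm] := by
    have : Um = B - f1 • A - g1 • (A * A) := by rw [hB]; abel
    rw [this]
    exact sub_mem (sub_mem mB (SMulMemClass.smul_mem _ mA)) (SMulMemClass.smul_mem _ mAA)
  have mV : Vm ∈ adj ![A, B, Cm] := by
    rw [hVU]
    exact add_mem (add_mem mU (SMulMemClass.smul_mem _ mA)) (SMulMemClass.smul_mem _ mAA)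
  have mU2 : Um2 ∈ adj ![A, B, Cm] := by rw [← hr.uu]; exact mul_mem mU mU
  have mV2 : Vm2 ∈ adj ![A, B, Cm] := by rw [← hr.vv]; exact mul_mem mV mV
  have mX : X ∈ adj ![A, B, Cm] :=
    add_mem (add_mem mU (SMulMemClass.smul_mem _ mC)) (SMulMemClass.smul_mem _ mV2)
  have mY : Y ∈ adj ![A, B, Cm] :=
    add_mem (add_mem mV (SMulMemClass.smul_mem _ mC)) (SMulMemClass.smul_mem _ mU2)
  have mZ : Z ∈ adj ![A, B, Cm] :=
    sub_mem (sub_mem mC (SMulMemClass.smul_mem _ mU2)) (SMulMemClass.smul_mem _ mV2)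
  set Qs := Submodule.span k {M : Matrix (Fin 8) (Fin 8) k |
    ∃ P ∈ adj ![A, B, Cm], ∃ Q ∈ adj ![A, B, Cm], M = P * Q} with hQs
  have qA : A * A ∈ Qs := Submodule.subset_span ⟨A, mA, A, mA, rfl⟩
  have qU : Um2 ∈ Qs := Submodule.subset_span ⟨Um, mU, Um, mU, hr.uu.symm⟩
  have qV : Vm2 ∈ Qs := Submodule.subset_span ⟨Vm, mV, Vm, mV, hr.vv.symm⟩
  have nX : X ∈ adj ![X, Y, Z] := mem_adj ![X, Y, Z] 0
  have nY : Y ∈ adj ![X, Y, Z] := mem_adj ![X, Y, Z] 1
  have nZ : Z ∈ adj ![X, Y, Z] := mem_adj ![X, Y, Z] 2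
  set N1 := (f2 - f1)⁻¹ • (X - Y - (xi - ze) • Z) with hN1
  have nN1 : N1 ∈ adj ![X, Y, Z] :=
    SMulMemClass.smul_mem _ (sub_mem (sub_mem nX nY) (SMulMemClass.smul_mem _ nZ))
  have hN1q : A - N1 ∈ Qs := by
    have h1 : A - N1 = (-((f2 - f1)⁻¹ * (g2 - g1))) • (A * A) +
        (-((f2 - f1)⁻¹ * (la + (xi - ze) * be))) • Vm2 +
        ((f2 - f1)⁻¹ * (mu - (xi - ze) * al)) • Um2 := by
      have h2 : A = (f2 - f1)⁻¹ • ((f2 - f1) • A) := by
        rw [smul_smul, inv_mul_cancel₀ hde, one_smul]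
      rw [hN1]
      nth_rewrite 1 [h2]
      rw [hX, hY, hZ]
      unfold XX ZZ
      rw [hVU]
      module
    rw [h1]
    exact add_mem (add_mem (Submodule.smul_mem _ _ qA) (Submodule.smul_mem _ _ qV))
      (Submodule.smul_mem _ _ qU)
  have hN2q : B - (X + f1 • N1 - xi • Z) ∈ Qs := by
    have h1 : B - (X + f1 • N1 - xi • Z) = f1 • (A - N1) + g1 • (A * A) +
        (-(xi * al)) • Um2 + (-(la + xi * be)) • Vm2 := by
      rw [hX, hZ, hB]
      unfold XX ZZ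
      module
    rw [h1]
    exact add_mem (add_mem (add_mem (Submodule.smul_mem _ _ hN1q) (Submodule.smul_mem _ _ qA))
      (Submodule.smul_mem _ _ qU)) (Submodule.smul_mem _ _ qV)
  have hN3q : Cm - Z ∈ Qs := by
    have h1 : Cm - Z = al • Um2 + be • Vm2 := by
      rw [hZ]
      unfold ZZ
      module
    rw [h1]
    exact add_mem (Submodule.smul_mem _ _ qU) (Submodule.smul_mem _ _ qV)
  have hmem : ∀ i, (![A, B, Cm] : Fin 3 → Matrix (Fin 8) (Fin 8) k) i ∈ adj ![X, Y, Z] := by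
    refine adj_nak hCN (fun i => ?_) (fun i => ?_)
    · fin_cases i
      · exact mX
      · exact mY
      · exact mZ
    · fin_cases i
      · exact ⟨N1, nN1, hN1q⟩
      · exact ⟨_, sub_mem (add_mem nX (SMulMemClass.smul_mem _ nN1))
          (SMulMemClass.smul_mem _ nZ), hN2q⟩
      · exact ⟨Z, nZ, hN3q⟩
  exact cl_of_adj hmem hclX

theorem cl_line {n : Type*} [Fintype n] [DecidableEq n] [Infinite k]
    {A B C A' B' C' : Matrix n n k}
    {E : Set k} (hE : E.Finite) (h : ∀ s ∉ E, Cl ![A + s • A', B + s • B', C + s • C']) :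
    Cl ![A, B, C] := by
  have h1 : ∀ s : k, ![A, B, C] + s • ![A', B', C'] = ![A + s • A', B + s • B', C + s • C'] := by
    intro s
    funext i
    fin_cases i <;> rfl
  have h4 : ![A, B, C] + (0 : k) • ![A', B', C'] = ![A, B, C] := by
    rw [zero_smul, add_zero]
  by_contra h0
  rw [← h4] at h0
  have h2 := finite_cl (fun s : k => ![A, B, C] + s • ![A', B', C'])
    (PolyFam.line ![A, B, C] ![A', B', C']) h0
  obtain ⟨s, hs⟩ := (hE.union h2).exists_notMem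
  rw [Set.mem_union, not_or] at hs
  apply hs.2
  show Cl (![A, B, C] + s • ![A', B', C'])
  rw [h1]
  exact h s hs.1

/-- the cubic condition fails for finitely many parameters only -/
theorem cubic_finite (b1 q1 th' et' : k) :
    {s : k | th' ^ 2 + q1 * th' * (et' + s) - (b1 + s) * (et' + s) ^ 2 = 0}.Finite := by
  let p : Polynomial k := Polynomial.C (th' ^ 2 + q1 * th' * et' - b1 * et' ^ 2) +
    Polynomial.C (q1 * th' - et' ^ 2 - 2 * b1 * et') * Polynomial.X +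
    Polynomial.C (-(b1 + 2 * et')) * Polynomial.X ^ 2 + Polynomial.C (-1) * Polynomial.X ^ 3
  have hp : p ≠ 0 := by
    intro h
    have h1 := congrArg (fun r : Polynomial k => r.coeff 3) h
    simp only [p, Polynomial.coeff_add, Polynomial.coeff_C_mul, Polynomial.coeff_X_pow,
      Polynomial.coeff_C, Polynomial.coeff_X, Polynomial.coeff_zero] at h1
    norm_num at h1
  refine (Polynomial.finite_setOfPred_isRoot hp).subset ?_
  intro s hs
  have hs' : th' ^ 2 + q1 * th' * (et' + s) - (b1 + s) * (et' + s) ^ 2 = 0 := hs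
  show p.IsRoot s
  rw [Polynomial.IsRoot.def]
  simp only [p, Polynomial.eval_add, Polynomial.eval_mul, Polynomial.eval_C, Polynomial.eval_pow,
    Polynomial.eval_X]
  linear_combination hs'

/-- the generic case in terms of the coefficients -/
theorem gen' [IsAlgClosed k] [CharZero k] {b1 b2 q1 q2 th et w th' et' : k}
    (hD : q1 ^ 2 + 4 * b1 ≠ 0) (hw : w ≠ 0) (hz : th' ^ 2 + q1 * th' * et' - b1 * et' ^ 2 ≠ 0) :
    Cl ![J431 k, B431 0 b1 b2 1 0 0 q1 q2 0 0 th et,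
      B431 0 0 (w * th) 0 0 0 0 (w * et) w 0 th' et'] := by
  obtain ⟨de, hde⟩ := IsAlgClosed.exists_pow_nat_eq (q1 ^ 2 + 4 * b1) (n := 2) (by norm_num)
  have hde0 : de ≠ 0 := by
    rintro rfl
    apply hD
    rw [← hde]
    ring
  have h2 : (2 : k) ≠ 0 := two_ne_zero
  obtain ⟨f1, hf1⟩ : ∃ f1, f1 = (q1 - de) / 2 := ⟨_, rfl⟩
  obtain ⟨f2, hf2⟩ : ∃ f2, f2 = (q1 + de) / 2 := ⟨_, rfl⟩
  obtain ⟨g1, hg1⟩ : ∃ g1, g1 = -(b2 + f1 * q2) / de := ⟨_, rfl⟩
  obtain ⟨g2, hg2⟩ : ∃ g2, g2 = (b2 + f2 * q2) / de := ⟨_, rfl⟩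
  have c1 : f2 - f1 = de := by rw [hf1, hf2]; field_simp; ring
  have c2 : f1 + f2 = q1 := by rw [hf1, hf2]; field_simp; ring
  have c3 : -(f1 * f2) = b1 := by
    have h4 : (4 : k) ≠ 0 := by norm_num
    have : 4 * (-(f1 * f2)) = 4 * b1 := by
      rw [hf1, hf2]
      field_simp
      linear_combination hde
    exact mul_left_cancel₀ h4 this
  have c4 : g1 + g2 = q2 := by
    rw [hg1, hg2, ← c1]
    have : f2 - f1 ≠ 0 := by rw [c1]; exact hde0
    field_simp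
    ring
  have c5 : -(f1 * g2 + f2 * g1) = b2 := by
    rw [hg1, hg2, ← c1]
    have : f2 - f1 ≠ 0 := by rw [c1]; exact hde0
    field_simp
    ring
  have hprod : (f2 * et' + th') * (f1 * et' + th') ≠ 0 := by
    intro h
    apply hz
    rw [← c2, ← c3]
    linear_combination h
  have h := gen (th := th) (et := et) (w := w) (th' := th') (et' := et') (g1 := g1) (g2 := g2)
    (f1 := f1) (f2 := f2) (by rw [c1]; exact hde0) hw (left_ne_zero_of_mul hprod)
    (right_ne_zero_of_mul hprod)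
  rw [c2, c3, c4, c5] at h
  exact h

theorem line_B (b1 b2 q1 q2 th et s : k) :
    B431 0 b1 b2 1 0 0 q1 q2 0 0 th et + s • B431 0 1 0 0 0 0 0 0 0 0 0 0 =
      B431 0 (b1 + s) b2 1 0 0 q1 q2 0 0 th et := by
  ext i j
  fin_cases i <;> fin_cases j <;> simp [B431]

theorem line_C (th et w th' et' s : k) :
    B431 0 0 (w * th) 0 0 0 0 (w * et) w 0 th' et' + s • B431 0 0 th 0 0 0 0 et 1 0 0 1 =
      B431 0 0 ((w + s) * th) 0 0 0 0 ((w + s) * et) (w + s) 0 th' (et' + s) := by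
  ext i j
  fin_cases i <;> fin_cases j <;> simp [B431] <;> ring

end T431bAux

open T431bAux in
/-- type `(4, 3, 1)`: the modules `k[A, B, C]` with `c0 = 1` are limits of curvilinear ones -/
theorem cl_431g [IsAlgClosed k] [CharZero k] (b1 b2 q1 q2 th et om' th' et' : k) :
    Cl ![J431 k, B431 0 b1 b2 1 0 0 q1 q2 0 0 th et,
      B431 0 0 (om' * th) 0 0 0 0 (om' * et) om' 0 th' et'] := by
  have hE1 : {s : k | q1 ^ 2 + 4 * (b1 + s) = 0}.Finite := by
    refine (Set.finite_singleton (-(q1 ^ 2 + 4 * b1) / 4)).subset ?_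
    intro s hs
    have hs' : q1 ^ 2 + 4 * (b1 + s) = 0 := hs
    have h4 : (4 : k) ≠ 0 := by norm_num
    show s = -(q1 ^ 2 + 4 * b1) / 4
    field_simp
    linear_combination hs'
  have hE2 : {s : k | om' + s = 0}.Finite := by
    refine (Set.finite_singleton (-om')).subset ?_
    intro s hs
    have hs' : om' + s = 0 := hs
    show s = -om'
    linear_combination hs'
  refine cl_line (A' := 0) (B' := B431 0 1 0 0 0 0 0 0 0 0 0 0)
    (C' := B431 0 0 th 0 0 0 0 et 1 0 0 1)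
    (E := ({s : k | q1 ^ 2 + 4 * (b1 + s) = 0} ∪ {s : k | om' + s = 0}) ∪
      {s : k | th' ^ 2 + q1 * th' * (et' + s) - (b1 + s) * (et' + s) ^ 2 = 0})
    ((hE1.union hE2).union (cubic_finite b1 q1 th' et')) ?_
  intro s hs
  simp only [Set.mem_union, not_or] at hs
  obtain ⟨⟨h1, h2⟩, h3⟩ := hs
  rw [smul_zero, add_zero, line_B, line_C]
  exact gen' h1 h2 h3

end Pool.Agent.Lib.D8
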