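import Pool.Agent.Lib.D8.T431dX

/-!
# D8.T431d: type (4, 3, 1), the case of nonzero `π` and `η` in the second matrix and zero ones in the third
-/

namespace Pool.Agent.Lib.D8

open Matrix Pool.Agent.Lib.Q5dc Pool.Agent.Lib.D7

namespace T431dAux

variable {k : Type*} [Field k]

/-! ### step (S1) -/

theorem B_lin (a b1 b2 c1 c2 q1 q2 om pi th et b1' b2' c1' c2' q1' q2' om' th' : k) :
    B431 0 b1 b2 0 c1 c2 q1 q2 om pi th et + a • B431 0 b1' b2' 0 c1' c2' q1' q2' om' 0 th' 0 =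
      B431 0 (b1 + a * b1') (b2 + a * b2') 0 (c1 + a * c1') (c2 + a * c2') (q1 + a * q1')
        (q2 + a * q2') (om + a * om') pi (th + a * th') et := by
  ext i j
  fin_cases i <;> fin_cases j <;> simp [B431]

theorem B_smul (a b1 b2 c1 c2 q1 q2 om th : k) :
    a • B431 0 b1 b2 0 c1 c2 q1 q2 om 0 th 0 =
      B431 0 (a * b1) (a * b2) 0 (a * c1) (a * c2) (a * q1) (a * q2) (a * om) 0 (a * th) 0 := by
  ext i j
  fin_cases i <;> fin_cases j <;> simp [B431]

theorem caseS1 [IsAlgClosed k] [CharZero k]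
    {b1 b2 c1 c2 q1 q2 om pi th et b1' b2' c1' c2' q1' q2' om' th' : k}
    (hpi : pi ≠ 0) (het : et ≠ 0) (h5 : c1' * q1 + om' * et = c1 * q1')
    (h9 : q1' * b1 = q1 * b1' + pi * th') (h3 : c1' * b1 + om' * th = c1 * b1' + om * th')
    (hq : q1' ≠ 0) (hom : om' ≠ 0) :
    Cl ![J431 k, B431 0 b1 b2 0 c1 c2 q1 q2 om pi th et,
      B431 0 b1' b2' 0 c1' c2' q1' q2' om' 0 th' 0] := by
  -- the coefficient
  obtain ⟨m, hm⟩ : ∃ m, m = (om * q1' - pi * c1') / om' := ⟨_, rfl⟩
  have hm1 : m * om' = om * q1' - pi * c1' := by rw [hm]; field_simp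
  have hm2 : m * th' = th * q1' - et * b1' := by
    have : om' * (m * th') = om' * (th * q1' - et * b1') := by
      linear_combination th' * hm1 - q1' * h3 + c1' * h9 + b1' * h5
    exact mul_left_cancel₀ hom this
  have h0 := caseS2 hpi het (om' / q1') (th' / q1') (q1 - m) (b2 - m * (b2' / q1'))
    (c2 - m * (c2' / q1')) (q2 - m * (q2' / q1')) (b1' / q1') (c1' / q1') (b2' / q1') (c2' / q1')
    (q2' / q1')
  have hB : B431 0 b1 b2 0 c1 c2 q1 q2 om pi th et =
      B431 0 (pi * (th' / q1') + b1' / q1' * (q1 - m)) (b2 - m * (b2' / q1')) 0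
        (et * (om' / q1') + c1' / q1' * (q1 - m)) (c2 - m * (c2' / q1')) (q1 - m)
        (q2 - m * (q2' / q1')) (c1' / q1' * pi) pi (b1' / q1' * et) et +
      m • B431 0 (b1' / q1') (b2' / q1') 0 (c1' / q1') (c2' / q1') 1 (q2' / q1') (om' / q1') 0
        (th' / q1') 0 := by
    rw [B_lin]
    congr 1
    · field_simp; linear_combination h9
    · ring
    · field_simp; linear_combination -h5
    · ring
    · ring
    · ring
    · field_simp; linear_combination -hm1
    · field_simp; linear_combination -hm2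
  have hD : B431 0 b1' b2' 0 c1' c2' q1' q2' om' 0 th' 0 =
      q1' • B431 0 (b1' / q1') (b2' / q1') 0 (c1' / q1') (c2' / q1') 1 (q2' / q1') (om' / q1') 0
        (th' / q1') 0 := by
    rw [B_smul]
    congr 1 <;> field_simp
  rw [hB, hD]
  exact cl_mod h0 (add_mem (mem_adj ![J431 k, _, _] 1)
    (SMulMemClass.smul_mem _ (mem_adj ![J431 k, _, _] 2)))
    (SMulMemClass.smul_mem _ (mem_adj ![J431 k, _, _] 2))

/-! ### step (S0) -/

theorem parallel {x0 x1 y0 y1 : k} (h : x0 * y1 = x1 * y0) :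
    ∃ w0 w1 s t : k, (w0 ≠ 0 ∨ w1 ≠ 0) ∧ x0 = s * w0 ∧ x1 = s * w1 ∧ y0 = t * w0 ∧
      y1 = t * w1 := by
  by_cases h0 : x0 = 0
  · by_cases h1 : x1 = 0
    · by_cases hy : y0 = 0 ∧ y1 = 0
      · exact ⟨1, 0, 0, 0, Or.inl one_ne_zero, by simp [h0], by simp [h1], by simp [hy.1],
          by simp [hy.2]⟩
      · refine ⟨y0, y1, 0, 1, ?_, by simp [h0], by simp [h1], by simp, by simp⟩
        by_contra hc
        push Not at hc
        exact hy hc
    · have hy : y0 = 0 := by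
        have : x1 * y0 = 0 := by rw [← h, h0, zero_mul]
        exact (mul_eq_zero.1 this).resolve_left h1
      exact ⟨x0, x1, 1, y1 / x1, Or.inr h1, by simp, by simp, by simp [h0, hy],
        by field_simp⟩
  · exact ⟨x0, x1, 1, y0 / x0, Or.inl h0, by simp, by simp, by field_simp,
      by field_simp; linear_combination h⟩

theorem exists_dir {w0 w1 : k} (hw : w0 ≠ 0 ∨ w1 ≠ 0) :
    ∃ r0 r1 : k, w0 * r1 - w1 * r0 ≠ 0 ∧ r1 ≠ 0 := by
  by_cases h : w0 = 0
  · refine ⟨1, 1, ?_, one_ne_zero⟩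
    rw [h]
    simpa using hw.resolve_left (by simp [h])
  · exact ⟨0, 1, by simpa using h, one_ne_zero⟩

theorem poly_B431 {b1 b2 c1 c2 q1 q2 om pi th et : k → k} (h1 : D7.IsPoly b1) (h2 : D7.IsPoly b2)
    (h3 : D7.IsPoly c1) (h4 : D7.IsPoly c2) (h5 : D7.IsPoly q1) (h6 : D7.IsPoly q2) (h7 : D7.IsPoly om)
    (h8 : D7.IsPoly pi) (h9 : D7.IsPoly th) (h10 : D7.IsPoly et) (x y : Fin 8) :
    D7.IsPoly fun s => B431 0 (b1 s) (b2 s) 0 (c1 s) (c2 s) (q1 s) (q2 s) (om s) (pi s) (th s)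
      (et s) x y := by
  have h0 : D7.IsPoly fun _ : k => (0 : k) := D7.IsPoly.const 0
  fin_cases x <;> fin_cases y <;>
    simp [B431, h0, h1, h2, h3, h4, h5, h6, h7, h8, h9, h10]

end T431dAux

open T431dAux

variable {k : Type*} [Field k]

theorem cl_431i [IsAlgClosed k] [CharZero k]
    {b1 b2 c1 c2 q1 q2 om pi th et b1' b2' c1' c2' q1' q2' om' th' : k}
    (hpi : pi ≠ 0) (het : et ≠ 0) (h5 : c1' * q1 + om' * et = c1 * q1')
    (h9 : q1' * b1 = q1 * b1' + pi * th') (h3 : c1' * b1 + om' * th = c1 * b1' + om * th') :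
    Cl ![J431 k, B431 0 b1 b2 0 c1 c2 q1 q2 om pi th et,
      B431 0 b1' b2' 0 c1' c2' q1' q2' om' 0 th' 0] := by
  have : Infinite k := IsAlgClosed.instInfinite
  obtain ⟨t1, ht1⟩ : ∃ t1, t1 = th / et := ⟨_, rfl⟩
  obtain ⟨t2, ht2⟩ : ∃ t2, t2 = om / pi := ⟨_, rfl⟩
  have ht1' : t1 * et = th := by rw [ht1]; field_simp
  have ht2' : t2 * pi = om := by rw [ht2]; field_simp
  have hpar : (c1 - t2 * q1) * (b1' - t1 * q1') = (c1' - t2 * q1') * (b1 - t1 * q1) := by
    linear_combination -h3 + t2 * h9 + t1 * h5 - om' * ht1' + th' * ht2'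
  obtain ⟨w0, w1, s1, s2, hw, e1, e2, e3, e4⟩ := parallel hpar
  obtain ⟨r0, r1, hr, hr1⟩ := exists_dir hw
  -- the family
  let q : k → k := fun s => q1 + s * r0
  let q' : k → k := fun s => q1' + s * r1
  let W : k → k := fun s => w0 * q' s - w1 * q s
  let C : k → k := fun s => (s1 + s) * w0 + t2 * q s
  let C' : k → k := fun s => (s1 + s) * w1 + t2 * q' s
  let E : k → k := fun s => (s2 + s) * w0 + t1 * q s
  let E' : k → k := fun s => (s2 + s) * w1 + t1 * q' s
  let O : k → k := fun s => (s1 + s) * W s * et⁻¹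
  let H : k → k := fun s => (s2 + s) * W s * pi⁻¹
  have hq : D7.IsPoly q := (D7.IsPoly.const q1).add (D7.IsPoly.id.mul (D7.IsPoly.const r0))
  have hq' : D7.IsPoly q' := (D7.IsPoly.const q1').add (D7.IsPoly.id.mul (D7.IsPoly.const r1))
  have hW : D7.IsPoly W := ((D7.IsPoly.const w0).mul hq').sub ((D7.IsPoly.const w1).mul hq)
  have hC : D7.IsPoly C := (((D7.IsPoly.const s1).add D7.IsPoly.id).mul (D7.IsPoly.const w0)).add
    ((D7.IsPoly.const t2).mul hq)
  have hC' : D7.IsPoly C' := (((D7.IsPoly.const s1).add D7.IsPoly.id).mul (D7.IsPoly.const w1)).add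
    ((D7.IsPoly.const t2).mul hq')
  have hE : D7.IsPoly E := (((D7.IsPoly.const s2).add D7.IsPoly.id).mul (D7.IsPoly.const w0)).add
    ((D7.IsPoly.const t1).mul hq)
  have hE' : D7.IsPoly E' := (((D7.IsPoly.const s2).add D7.IsPoly.id).mul (D7.IsPoly.const w1)).add
    ((D7.IsPoly.const t1).mul hq')
  have hO : D7.IsPoly O := (((D7.IsPoly.const s1).add D7.IsPoly.id).mul hW).mul (D7.IsPoly.const et⁻¹)
  have hH : D7.IsPoly H := (((D7.IsPoly.const s2).add D7.IsPoly.id).mul hW).mul (D7.IsPoly.const pi⁻¹)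
  let F : k → Fin 3 → Matrix (Fin 8) (Fin 8) k := fun s =>
    ![J431 k, B431 0 (E s) b2 0 (C s) c2 (q s) q2 om pi th et,
      B431 0 (E' s) b2' 0 (C' s) c2' (q' s) q2' (O s) 0 (H s) 0]
  have hF : PolyFam F := by
    intro i x y
    match i with
    | 0 => exact D7.IsPoly.const (J431 k x y)
    | 1 =>
      exact poly_B431 hE (D7.IsPoly.const b2) hC (D7.IsPoly.const c2) hq (D7.IsPoly.const q2)
        (D7.IsPoly.const om) (D7.IsPoly.const pi) (D7.IsPoly.const th) (D7.IsPoly.const et) x y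
    | 2 =>
      exact poly_B431 hE' (D7.IsPoly.const b2') hC' (D7.IsPoly.const c2') hq' (D7.IsPoly.const q2')
        hO (D7.IsPoly.const 0) hH (D7.IsPoly.const 0) x y
  have hF0 : F 0 = ![J431 k, B431 0 b1 b2 0 c1 c2 q1 q2 om pi th et,
      B431 0 b1' b2' 0 c1' c2' q1' q2' om' 0 th' 0] := by
    have a1 : q 0 = q1 := by simp [q]
    have a2 : q' 0 = q1' := by simp [q']
    have a3 : C 0 = c1 := by simp only [C, a1]; linear_combination -e1
    have a4 : C' 0 = c1' := by simp only [C', a2]; linear_combination -e2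
    have a5 : E 0 = b1 := by simp only [E, a1]; linear_combination -e3
    have a6 : E' 0 = b1' := by simp only [E', a2]; linear_combination -e4
    have a7 : O 0 = om' := by
      simp only [O, W, a1, a2]
      field_simp
      linear_combination -q1' * e1 + q1 * e2 - h5
    have a8 : H 0 = th' := by
      simp only [H, W, a1, a2]
      field_simp
      linear_combination -q1' * e3 + q1 * e4 + h9
    simp only [F, a1, a2, a3, a4, a5, a6, a7, a8]
  by_contra hcl
  rw [← hF0] at hcl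
  have hfin := finite_cl F hF hcl
  have hf1 : {s | q' s = 0}.Finite := by
    refine hq'.finite (s₁ := (1 - q1') / r1) ?_
    have : q' ((1 - q1') / r1) = 1 := by simp only [q']; field_simp; ring
    rw [this]
    exact one_ne_zero
  have hf2 : {s | W s = 0}.Finite := by
    refine hW.finite (s₁ := (1 - (w0 * q1' - w1 * q1)) / (w0 * r1 - w1 * r0)) ?_
    have : W ((1 - (w0 * q1' - w1 * q1)) / (w0 * r1 - w1 * r0)) = 1 := by
      simp only [W, q, q']
      field_simp
      ring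
    rw [this]
    exact one_ne_zero
  obtain ⟨s, hs⟩ := (((hfin.union hf1).union hf2).union (Set.finite_singleton (-s1))).exists_notMem
  simp only [Set.mem_union, not_or, Set.mem_singleton_iff, Set.mem_ofPred_eq] at hs
  obtain ⟨⟨⟨n1, n2⟩, n3⟩, n4⟩ := hs
  refine n1 ?_
  have n5 : s1 + s ≠ 0 := fun h => n4 (by linear_combination h)
  refine caseS1 hpi het ?_ ?_ ?_ n2 ?_
  · simp only [O, C, C', W]
    field_simp
    ring
  · simp only [H, E, E', W]
    field_simp
    ring
  · simp only [O, H, C, C', E, E', W]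
    field_simp
    simp only [q, q']
    linear_combination (-(s1 + s) * (w0 * (q1' + s * r1) - w1 * (q1 + s * r0)) * pi) * ht1' +
      ((s2 + s) * (w0 * (q1' + s * r1) - w1 * (q1 + s * r0)) * et) * ht2'
  · exact mul_ne_zero (mul_ne_zero n5 n3) (inv_ne_zero het)

end Pool.Agent.Lib.D8
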