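import Pool.Agent.Lib.D7.Api
import Pool.Agent.Lib.D8.Defs
import Pool.Agent.Lib.D8.T431d

/-!
# D8.T431e: type (4, 3, 1), the triples with `b0 = c0 = 0`

`cl_431II`: (a) `et ≠ 0`, `et' = 0` (deformation of `pi`, then `cl_431i`); (b) `(et, et') ≠ (0, 0)` by a
linear change; (c) `(pi, pi') ≠ (0, 0)` by duality; (d) all of them are `0`: deformation of `et`.
-/

namespace Pool.Agent.Lib.D8

open Matrix Pool.Agent.Lib.Q5dc Pool.Agent.Lib.D7

variable {k : Type*} [Field k]

namespace T431eAux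

/-- the triple -/
def T2 (b1 b2 c1 c2 q1 q2 om pi th et b1' b2' c1' c2' q1' q2' om' pi' th' et' : k) :
    Fin 3 → Matrix (Fin 8) (Fin 8) k :=
  ![J431 k, B431 0 b1 b2 0 c1 c2 q1 q2 om pi th et,
    B431 0 b1' b2' 0 c1' c2' q1' q2' om' pi' th' et']

/-- entries of `B431` in a family -/
theorem polyB {b1 b2 c1 c2 q1 q2 om pi th et : k → k} (h1 : IsPoly b1) (h2 : IsPoly b2)
    (h3 : IsPoly c1) (h4 : IsPoly c2) (h5 : IsPoly q1) (h6 : IsPoly q2) (h7 : IsPoly om)
    (h8 : IsPoly pi) (h9 : IsPoly th) (h10 : IsPoly et) (x y : Fin 8) :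
    IsPoly fun s => B431 0 (b1 s) (b2 s) 0 (c1 s) (c2 s) (q1 s) (q2 s) (om s) (pi s) (th s)
      (et s) x y := by
  have h0 : IsPoly fun _ : k => (0 : k) := D7.IsPoly.const 0
  fin_cases x <;> fin_cases y <;>
    first
    | exact h0 | exact h1 | exact h2 | exact h3 | exact h4 | exact h5 | exact h6 | exact h7
    | exact h8 | exact h9 | exact h10

theorem polyT {b1 b2 c1 c2 q1 q2 om pi th et b1' b2' c1' c2' q1' q2' om' pi' th' et' : k → k}
    (h1 : IsPoly b1) (h2 : IsPoly b2)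
    (h3 : IsPoly c1) (h4 : IsPoly c2) (h5 : IsPoly q1) (h6 : IsPoly q2) (h7 : IsPoly om)
    (h8 : IsPoly pi) (h9 : IsPoly th) (h10 : IsPoly et) (h1' : IsPoly b1') (h2' : IsPoly b2')
    (h3' : IsPoly c1') (h4' : IsPoly c2') (h5' : IsPoly q1') (h6' : IsPoly q2')
    (h7' : IsPoly om') (h8' : IsPoly pi') (h9' : IsPoly th') (h10' : IsPoly et') :
    PolyFam fun s => T2 (b1 s) (b2 s) (c1 s) (c2 s) (q1 s) (q2 s) (om s) (pi s) (th s) (et s)
      (b1' s) (b2' s) (c1' s) (c2' s) (q1' s) (q2' s) (om' s) (pi' s) (th' s) (et' s) := by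
  intro i x y
  fin_cases i
  · exact D7.IsPoly.const (J431 k x y)
  · exact polyB h1 h2 h3 h4 h5 h6 h7 h8 h9 h10 x y
  · exact polyB h1' h2' h3' h4' h5' h6' h7' h8' h9' h10' x y

/-- `B431` is linear -/
theorem B_sub (l b1 b2 c1 c2 q1 q2 om pi th et b1' b2' c1' c2' q1' q2' om' pi' th' et' : k) :
    B431 0 b1' b2' 0 c1' c2' q1' q2' om' pi' th' et' -
      l • B431 0 b1 b2 0 c1 c2 q1 q2 om pi th et =
    B431 0 (b1' - l * b1) (b2' - l * b2) 0 (c1' - l * c1) (c2' - l * c2) (q1' - l * q1)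
      (q2' - l * q2) (om' - l * om) (pi' - l * pi) (th' - l * th) (et' - l * et) := by
  ext i j
  fin_cases i <;> fin_cases j <;> simp [B431]

/-- subtract a multiple of the second matrix from the third -/
theorem lin3 {A B C : Matrix (Fin 8) (Fin 8) k} (l : k) (h : Cl ![A, B, C - l • B]) :
    Cl ![A, B, C] := by
  refine cl_of_adj (fun i => ?_) h
  have m0 : A ∈ adj ![A, B, C - l • B] := mem_adj ![A, B, C - l • B] 0
  have m1 : B ∈ adj ![A, B, C - l • B] := mem_adj ![A, B, C - l • B] 1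
  have m2 : C - l • B ∈ adj ![A, B, C - l • B] := mem_adj ![A, B, C - l • B] 2
  have m3 : C ∈ adj ![A, B, C - l • B] := by
    have h1 := add_mem m2 (SMulMemClass.smul_mem l m1)
    rwa [sub_add_cancel] at h1
  fin_cases i
  · exact m0
  · exact m1
  · exact m3

/-- exchange the second and the third matrix -/
theorem swap3 {A B C : Matrix (Fin 8) (Fin 8) k} (h : Cl ![A, B, C]) : Cl ![A, C, B] := by
  refine cl_of_adj (fun i => ?_) h
  have m0 : A ∈ adj ![A, B, C] := mem_adj ![A, B, C] 0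
  have m1 : B ∈ adj ![A, B, C] := mem_adj ![A, B, C] 1
  have m2 : C ∈ adj ![A, B, C] := mem_adj ![A, B, C] 2
  fin_cases i
  · exact m0
  · exact m2
  · exact m1

theorem cl_lin (l b1 b2 c1 c2 q1 q2 om pi th et b1' b2' c1' c2' q1' q2' om' pi' th' et' : k)
    (h : Cl (T2 b1 b2 c1 c2 q1 q2 om pi th et (b1' - l * b1) (b2' - l * b2) (c1' - l * c1)
      (c2' - l * c2) (q1' - l * q1) (q2' - l * q2) (om' - l * om) (pi' - l * pi) (th' - l * th)
      (et' - l * et))) :
    Cl (T2 b1 b2 c1 c2 q1 q2 om pi th et b1' b2' c1' c2' q1' q2' om' pi' th' et') := by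
  unfold T2 at h ⊢
  rw [← B_sub] at h
  exact lin3 l h

theorem cl_swap (b1 b2 c1 c2 q1 q2 om pi th et b1' b2' c1' c2' q1' q2' om' pi' th' et' : k)
    (h : Cl (T2 b1' b2' c1' c2' q1' q2' om' pi' th' et' b1 b2 c1 c2 q1 q2 om pi th et)) :
    Cl (T2 b1 b2 c1 c2 q1 q2 om pi th et b1' b2' c1' c2' q1' q2' om' pi' th' et') := by
  unfold T2 at h ⊢
  exact swap3 h

/-- the permutation `v_i ↔ v_(3-i)`, `u_i ↔ u_(2-i)` -/
def sf : Fin 8 → Fin 8 := ![3, 2, 1, 0, 6, 5, 4, 7]

theorem sf_sf (i : Fin 8) : sf (sf i) = i := by fin_cases i <;> rfl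

/-- the permutation as an equivalence -/
def sg : Fin 8 ≃ Fin 8 := ⟨sf, sf, sf_sf, sf_sf⟩

theorem dualJ (i j : Fin 8) : J431 k (sf j) (sf i) = J431 k i j := by
  fin_cases i <;> fin_cases j <;> rfl

theorem dualB (b1 b2 c1 c2 q1 q2 om pi th et : k) (i j : Fin 8) :
    B431 0 b1 b2 0 c1 c2 q1 q2 om pi th et (sf j) (sf i) =
      B431 0 c1 c2 0 b1 b2 q1 q2 th et om pi i j := by
  fin_cases i <;> fin_cases j <;> simp [B431, sf]

theorem rx (M : Matrix (Fin 8) (Fin 8) k) (x y : Fin 8) :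
    Matrix.reindexAlgEquiv k k sg Mᵀ x y = M (sf y) (sf x) := by
  rw [Matrix.coe_reindexAlgEquiv, Matrix.reindex_apply, Matrix.submatrix_apply,
    Matrix.transpose_apply]
  rfl

/-- duality -/
theorem cl_dual (b1 b2 c1 c2 q1 q2 om pi th et b1' b2' c1' c2' q1' q2' om' pi' th' et' : k)
    (h : Cl (T2 c1 c2 b1 b2 q1 q2 th et om pi c1' c2' b1' b2' q1' q2' th' et' om' pi')) :
    Cl (T2 b1 b2 c1 c2 q1 q2 om pi th et b1' b2' c1' c2' q1' q2' om' pi' th' et') := by
  have h1 := Cl.mapEquiv (Matrix.reindexAlgEquiv k k sg) rfl h.transpose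
  have h2 : (fun i => Matrix.reindexAlgEquiv k k sg
      (T2 c1 c2 b1 b2 q1 q2 th et om pi c1' c2' b1' b2' q1' q2' th' et' om' pi' i)ᵀ) =
      T2 b1 b2 c1 c2 q1 q2 om pi th et b1' b2' c1' c2' q1' q2' om' pi' th' et' := by
    funext i
    ext x y
    rw [rx]
    fin_cases i
    · exact dualJ x y
    · exact dualB c1 c2 b1 b2 q1 q2 th et om pi x y
    · exact dualB c1' c2' b1' b2' q1' q2' th' et' om' pi' x y
  rw [← h2]
  exact h1

/-- a family with a point outside of a finite set of exceptions -/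
theorem cl_fam [Infinite k] (c : k → Fin 3 → Matrix (Fin 8) (Fin 8) k) (hc : PolyFam c)
    (E : Set k) (hE : E.Finite) (h : ∀ s ∉ E, Cl (c s)) : Cl (c 0) := by
  by_contra h0
  have h2 := finite_cl c hc h0
  have h3 := (hE.infinite_compl : (Eᶜ : Set k).Infinite)
  exact h3 (h2.subset fun s hs => h s hs)

/-- (a): `et ≠ 0`, `et' = 0` -/
theorem cl_a [IsAlgClosed k] [CharZero k]
    {b1 b2 c1 c2 q1 q2 om pi th et b1' b2' c1' c2' q1' q2' om' th' : k}
    (h3 : c1' * b1 + om' * th = c1 * b1' + om * th')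
    (h5 : c1' * q1 + om' * et = c1 * q1')
    (h9 : q1' * b1 = q1 * b1' + pi * th') (het : et ≠ 0) :
    Cl (T2 b1 b2 c1 c2 q1 q2 om pi th et b1' b2' c1' c2' q1' q2' om' 0 th' 0) := by
  have hk : Infinite k := IsAlgClosed.instInfinite
  have hc : ∀ a : k, IsPoly fun _ : k => a := D7.IsPoly.const
  by_cases hpi : pi = 0
  · subst hpi
    by_cases hth : th' = 0
    · subst hth
      have h1 := cl_fam (fun s : k => T2 b1 b2 c1 c2 q1 q2 om s th et b1' b2' c1' c2' q1' q2' om'
        0 0 0) (polyT (hc _) (hc _) (hc _) (hc _) (hc _) (hc _) (hc _) D7.IsPoly.id (hc _) (hc _)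
        (hc _) (hc _) (hc _) (hc _) (hc _) (hc _) (hc _) (hc _) (hc _) (hc _)) {0}
        (Set.finite_singleton 0) (fun s hs => cl_431i (fun h => hs (Set.mem_singleton_iff.2 h)) het
          h5 (by linear_combination h9) h3)
      exact h1
    · have h1 := cl_fam (fun s : k => T2 (b1 + s) b2 c1 c2 q1 q2
        ((c1' * (b1 + s) - c1 * b1' + (c1 * (q1' + s) - c1' * q1) / et * th) / th')
        (((q1' + s) * (b1 + s) - q1 * b1') / th') th et b1' b2' c1' c2' (q1' + s) q2'
        ((c1 * (q1' + s) - c1' * q1) / et) 0 th' 0) ?_ {0, -(q1' + b1)}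
        (Set.toFinite _) (fun s hs => ?_)
      · have e1 : (c1 * (q1' + 0) - c1' * q1) / et = om' := by
          rw [div_eq_iff het]
          linear_combination -h5
        have e2 : ((q1' + 0) * (b1 + 0) - q1 * b1') / th' = 0 := by
          rw [div_eq_iff hth]
          linear_combination h9
        have e3 : (c1' * (b1 + 0) - c1 * b1' + om' * th) / th' = om := by
          rw [div_eq_iff hth]
          linear_combination h3
        simp only [e1, e2, e3] at h1
        simpa only [add_zero] using h1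
      · have i1 : ∀ a : k, IsPoly fun s : k => a + s := fun a => (hc a).add D7.IsPoly.id
        have i2 : IsPoly fun s : k => (c1 * (q1' + s) - c1' * q1) / et := by
          simp only [div_eq_mul_inv]
          exact ((((hc c1).mul (i1 q1')).sub (hc (c1' * q1))).mul (hc et⁻¹))
        have i3 : IsPoly fun s : k => ((q1' + s) * (b1 + s) - q1 * b1') / th' := by
          simp only [div_eq_mul_inv]
          exact ((((i1 q1').mul (i1 b1)).sub (hc (q1 * b1'))).mul (hc th'⁻¹))
        have i4 : IsPoly fun s : k =>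
            (c1' * (b1 + s) - c1 * b1' + (c1 * (q1' + s) - c1' * q1) / et * th) / th' := by
          simp only [div_eq_mul_inv] at i2 ⊢
          exact (((((hc c1').mul (i1 b1)).sub (hc (c1 * b1'))).add (i2.mul (hc th))).mul
            (hc th'⁻¹))
        exact polyT (i1 b1) (hc _) (hc _) (hc _) (hc _) (hc _) i4 i3 (hc _) (hc _)
          (hc _) (hc _) (hc _) (hc _) (i1 q1') (hc _) i2 (hc _) (hc _) (hc _)
      · simp only [Set.mem_insert_iff, Set.mem_singleton_iff, not_or] at hs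
        refine cl_431i ?_ het ?_ ?_ ?_
        · intro h
          rw [div_eq_zero_iff] at h
          rcases h with h | h
          · have h4 : s * (s + (q1' + b1)) = 0 := by linear_combination h - h9
            rcases mul_eq_zero.1 h4 with h6 | h6
            · exact hs.1 h6
            · exact hs.2 (by linear_combination h6)
          · exact hth h
        · field_simp
          ring
        · field_simp
          ring
        · field_simp
          ring
  · exact cl_431i hpi het h5 h9 h3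

/-- (b): `et ≠ 0` -/
theorem cl_b [IsAlgClosed k] [CharZero k]
    {b1 b2 c1 c2 q1 q2 om pi th et b1' b2' c1' c2' q1' q2' om' pi' th' et' : k}
    (h3 : c1' * b1 + om' * th = c1 * b1' + om * th')
    (h5 : c1' * q1 + om' * et = c1 * q1' + om * et') (h7 : pi' * et = pi * et')
    (h9 : q1' * b1 + pi' * th = q1 * b1' + pi * th') (het : et ≠ 0) :
    Cl (T2 b1 b2 c1 c2 q1 q2 om pi th et b1' b2' c1' c2' q1' q2' om' pi' th' et') := by
  obtain ⟨l, hl⟩ : ∃ l : k, et' = l * et := ⟨et' / et, by field_simp⟩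
  have hp : pi' = l * pi := by
    have h1 : (pi' - l * pi) * et = 0 := by
      rw [hl] at h7
      linear_combination h7
    rcases mul_eq_zero.1 h1 with h2 | h2
    · linear_combination h2
    · exact absurd h2 het
  apply cl_lin l
  have e1 : et' - l * et = 0 := by rw [hl]; ring
  have e2 : pi' - l * pi = 0 := by rw [hp]; ring
  rw [e1, e2]
  refine cl_a ?_ ?_ ?_ het
  · linear_combination h3
  · rw [hl] at h5
    linear_combination h5
  · rw [hp] at h9
    linear_combination h9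

/-- (b'): `(et, et') ≠ (0, 0)` -/
theorem cl_b2 [IsAlgClosed k] [CharZero k]
    {b1 b2 c1 c2 q1 q2 om pi th et b1' b2' c1' c2' q1' q2' om' pi' th' et' : k}
    (h3 : c1' * b1 + om' * th = c1 * b1' + om * th')
    (h5 : c1' * q1 + om' * et = c1 * q1' + om * et') (h7 : pi' * et = pi * et')
    (h9 : q1' * b1 + pi' * th = q1 * b1' + pi * th') (het : et ≠ 0 ∨ et' ≠ 0) :
    Cl (T2 b1 b2 c1 c2 q1 q2 om pi th et b1' b2' c1' c2' q1' q2' om' pi' th' et') := by
  rcases het with het | het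
  · exact cl_b h3 h5 h7 h9 het
  · exact cl_swap _ _ _ _ _ _ _ _ _ _ _ _ _ _ _ _ _ _ _ _ (cl_b h3.symm h5.symm h7.symm h9.symm het)

/-- (c): one of `et, et', pi, pi'` is nonzero -/
theorem cl_c [IsAlgClosed k] [CharZero k]
    {b1 b2 c1 c2 q1 q2 om pi th et b1' b2' c1' c2' q1' q2' om' pi' th' et' : k}
    (h3 : c1' * b1 + om' * th = c1 * b1' + om * th')
    (h5 : c1' * q1 + om' * et = c1 * q1' + om * et') (h7 : pi' * et = pi * et')
    (h9 : q1' * b1 + pi' * th = q1 * b1' + pi * th')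
    (het : (et ≠ 0 ∨ et' ≠ 0) ∨ (pi ≠ 0 ∨ pi' ≠ 0)) :
    Cl (T2 b1 b2 c1 c2 q1 q2 om pi th et b1' b2' c1' c2' q1' q2' om' pi' th' et') := by
  rcases het with het | het
  · exact cl_b2 h3 h5 h7 h9 het
  · apply cl_dual
    refine cl_b2 ?_ ?_ ?_ ?_ het
    · linear_combination -h3
    · linear_combination -h9
    · linear_combination -h7
    · linear_combination -h5

/-- (d): `et = et' = pi = pi' = 0`, `om' = 0` -/
theorem cl_d [IsAlgClosed k] [CharZero k]
    {b1 b2 c1 c2 q1 q2 om th b1' b2' c1' c2' q1' q2' th' : k}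
    (h3 : c1' * b1 = c1 * b1' + om * th') (h5 : c1' * q1 = c1 * q1')
    (h9 : q1' * b1 = q1 * b1') :
    Cl (T2 b1 b2 c1 c2 q1 q2 om 0 th 0 b1' b2' c1' c2' q1' q2' 0 0 th' 0) := by
  have hk : Infinite k := IsAlgClosed.instInfinite
  have hc : ∀ a : k, IsPoly fun _ : k => a := D7.IsPoly.const
  exact cl_fam (fun s : k => T2 b1 b2 c1 c2 q1 q2 om 0 th s b1' b2' c1' c2' q1' q2' 0 0 th' 0)
    (polyT (hc _) (hc _) (hc _) (hc _) (hc _) (hc _) (hc _) (hc _) (hc _) D7.IsPoly.id
      (hc _) (hc _) (hc _) (hc _) (hc _) (hc _) (hc _) (hc _) (hc _) (hc _)) {0}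
    (Set.finite_singleton 0) (fun s hs => cl_b (by linear_combination h3)
      (by linear_combination h5) (by ring) (by linear_combination h9)
      (fun h => hs (Set.mem_singleton_iff.2 h)))

/-- (d'): `et = et' = pi = pi' = 0`, `om ≠ 0` -/
theorem cl_d2 [IsAlgClosed k] [CharZero k]
    {b1 b2 c1 c2 q1 q2 om th b1' b2' c1' c2' q1' q2' om' th' : k}
    (h3 : c1' * b1 + om' * th = c1 * b1' + om * th') (h5 : c1' * q1 = c1 * q1')
    (h9 : q1' * b1 = q1 * b1') (hom : om ≠ 0) :
    Cl (T2 b1 b2 c1 c2 q1 q2 om 0 th 0 b1' b2' c1' c2' q1' q2' om' 0 th' 0) := by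
  obtain ⟨l, hl⟩ : ∃ l : k, om' = l * om := ⟨om' / om, by field_simp⟩
  apply cl_lin l
  have e1 : om' - l * om = 0 := by rw [hl]; ring
  have e2 : (0 : k) - l * 0 = 0 := by ring
  rw [e1, e2]
  refine cl_d ?_ ?_ ?_
  · rw [hl] at h3
    linear_combination h3
  · linear_combination h5
  · linear_combination h9

end T431eAux

open T431eAux

theorem cl_431II [IsAlgClosed k] [CharZero k]
    {b1 b2 c1 c2 q1 q2 om pi th et b1' b2' c1' c2' q1' q2' om' pi' th' et' : k}
    (h3 : c1' * b1 + om' * th = c1 * b1' + om * th')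
    (h5 : c1' * q1 + om' * et = c1 * q1' + om * et') (h7 : pi' * et = pi * et')
    (h9 : q1' * b1 + pi' * th = q1 * b1' + pi * th') :
    Cl ![J431 k, B431 0 b1 b2 0 c1 c2 q1 q2 om pi th et,
      B431 0 b1' b2' 0 c1' c2' q1' q2' om' pi' th' et'] := by
  show Cl (T2 b1 b2 c1 c2 q1 q2 om pi th et b1' b2' c1' c2' q1' q2' om' pi' th' et')
  by_cases h : (et ≠ 0 ∨ et' ≠ 0) ∨ (pi ≠ 0 ∨ pi' ≠ 0)
  · exact cl_c h3 h5 h7 h9 h
  · push Not at h
    obtain ⟨⟨rfl, rfl⟩, rfl, rfl⟩ := h
    have h5' : c1' * q1 = c1 * q1' := by linear_combination h5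
    have h9' : q1' * b1 = q1 * b1' := by linear_combination h9
    by_cases hom : om = 0
    · by_cases hom' : om' = 0
      · subst hom hom'
        exact cl_d (by linear_combination h3) h5' h9'
      · exact cl_swap _ _ _ _ _ _ _ _ _ _ _ _ _ _ _ _ _ _ _ _
          (cl_d2 h3.symm h5'.symm h9'.symm hom')
    · exact cl_d2 h3 h5' h9' hom

end Pool.Agent.Lib.D8
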