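import Pool.Agent.Lib.D8.T431a1
import Pool.Agent.Lib.D8.T431b
import Pool.Agent.Lib.D8.T431e

/-!
# MP_5dcbc3_ag: no maximal bad triple with Jordan type `(4, 3, 1)`
-/

namespace Pool.Agent.Lib.D8

open Matrix Pool.Agent.Lib.Q5dc Pool.Agent.Lib.D7

variable {k : Type*} [Field k]

namespace T431aAux

/-! ### families -/

/-- the matrix with a vector of parameters -/
def Bv (b : Fin 12 → k) : Matrix (Fin 8) (Fin 8) k :=
  B431 (b 0) (b 1) (b 2) (b 3) (b 4) (b 5) (b 6) (b 7) (b 8) (b 9) (b 10) (b 11)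

/-- the relations for vectors of parameters -/
def RelV (b c : Fin 12 → k) : Prop :=
  Rel (b 0) (b 1) (b 2) (b 3) (b 4) (b 5) (b 6) (b 7) (b 8) (b 9) (b 10) (b 11)
    (c 0) (c 1) (c 2) (c 3) (c 4) (c 5) (c 6) (c 7) (c 8) (c 9) (c 10) (c 11)

theorem Bv_line (b e : Fin 12 → k) (s : k) : Bv (b + s • e) = Bv b + s • Bv e := by
  unfold Bv
  rw [smulB, addB]
  rfl

theorem line_eq (b c e f : Fin 12 → k) (s : k) :
    ![J431 k, Bv b, Bv c] + s • ![0, Bv e, Bv f] =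
      ![J431 k, Bv (b + s • e), Bv (c + s • f)] := by
  rw [Bv_line, Bv_line]
  funext i
  fin_cases i
  · simp
  · simp
  · simp

theorem deform_line [Infinite k] {ρ : ℕ → ℕ}
    {b c : Fin 12 → k} (e f : Fin 12 → k) (hT : MaxR ρ ![J431 k, Bv b, Bv c])
    (hrel : ∀ s : k, RelV (b + s • e) (c + s • f)) {F : Set k} (hF : F.Finite) :
    ∃ s, s ∉ F ∧ MaxR ρ ![J431 k, Bv (b + s • e), Bv (c + s • f)] := by
  obtain ⟨E', hE', h⟩ := hT.deform (fun s => ![J431 k, Bv b, Bv c] + s • ![0, Bv e, Bv f])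
    (PolyFam.line _ _) (by simp) Set.finite_empty (fun s _ => by
      rw [line_eq]
      exact cnB (hrel s))
  obtain ⟨s, hs⟩ := (hE'.union hF).infinite_compl.nonempty
  rw [Set.mem_compl_iff, Set.mem_union, not_or] at hs
  refine ⟨s, hs.2, ?_⟩
  have h1 := h s hs.1
  rwa [line_eq] at h1

theorem change3 {ρ : ℕ → ℕ} {A B C B' C' : Matrix (Fin 8) (Fin 8) k}
    (hT : MaxR ρ ![A, B, C]) (h1 : B' ∈ adj ![A, B, C]) (h2 : C' ∈ adj ![A, B, C])
    (h3 : B ∈ adj ![A, B', C']) (h4 : C ∈ adj ![A, B', C']) : MaxR ρ ![A, B', C'] := by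
  have h0 : A ∈ adj ![A, B, C] := mem_adj ![A, B, C] 0
  have h0' : A ∈ adj ![A, B', C'] := mem_adj ![A, B', C'] 0
  refine hT.change (hT.cn.of_adj fun i => ?_) fun i => ?_
  · fin_cases i
    exacts [h0, h1, h2]
  · fin_cases i
    exacts [h0', h3, h4]

theorem m0 (A B C : Matrix (Fin 8) (Fin 8) k) : A ∈ adj ![A, B, C] := mem_adj ![A, B, C] 0

theorem m1 (A B C : Matrix (Fin 8) (Fin 8) k) : B ∈ adj ![A, B, C] := mem_adj ![A, B, C] 1

theorem m2 (A B C : Matrix (Fin 8) (Fin 8) k) : C ∈ adj ![A, B, C] := mem_adj ![A, B, C] 2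

theorem rho4 {ρ : ℕ → ℕ} (hρ : ∀ i, ρ i = (J431 k ^ i).rank) : ρ 4 = 0 := by
  rw [hρ, J4, Matrix.rank_zero]

theorem bc [Infinite k] {ρ : ℕ → ℕ} (hρ : ∀ i, ρ i = (J431 k ^ i).rank)
    {T : Fin 3 → Matrix (Fin 8) (Fin 8) k} (hT : MaxR ρ T)
    {b0 b1 b2 c0 c1 c2 q1 q2 om pi th et : k} (hX : B431 b0 b1 b2 c0 c1 c2 q1 q2 om pi th et ∈ adj T) :
    b0 * c0 = 0 := by
  have h1 := hT.pow_eq_zero hX (rho4 hρ)
  have e : B431 b0 b1 b2 c0 c1 c2 q1 q2 om pi th et ^ 4 =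
      (B431 b0 b1 b2 c0 c1 c2 q1 q2 om pi th et * B431 b0 b1 b2 c0 c1 c2 q1 q2 om pi th et) *
      (B431 b0 b1 b2 c0 c1 c2 q1 q2 om pi th et * B431 b0 b1 b2 c0 c1 c2 q1 q2 om pi th et) := by
    rw [pow_succ, pow_succ, pow_succ, pow_one]
    simp only [Matrix.mul_assoc]
  rw [e, mulB] at h1
  have h2 := congrFun (congrFun h1 2) 0
  have h3 : (b0 * c0) ^ 2 = 0 := by
    simp [Matrix.mul_apply, Fin.sum_univ_succ] at h2
    rcases h2 with h2 | h2
    · rw [h2, mul_zero, zero_pow two_ne_zero]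
    · rw [h2, zero_mul, zero_pow two_ne_zero]
  exact pow_eq_zero_iff two_ne_zero |>.1 h3

/-! ### planar triples -/

theorem caseB [Infinite k] {ρ : ℕ → ℕ} (hρ : ∀ i, ρ i = (J431 k ^ i).rank)
    {b0 b1 b2 c0 c1 c2 q1 q2 om pi th et : k}
    (hT : MaxR ρ ![J431 k, B431 b0 b1 b2 c0 c1 c2 q1 q2 om pi th et, 0]) : False := by
  rw [← zeroB] at hT
  obtain ⟨s, hs, hT'⟩ := deform_line (b := ![b0, b1, b2, c0, c1, c2, q1, q2, om, pi, th, et])
      (c := ![0, 0, 0, 0, 0, 0, 0, 0, 0, 0, 0, 0]) ![1, 0, 0, 1, 0, 0, 0, 0, 0, 0, 0, 0]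
      ![0, 0, 0, 0, 0, 0, 0, 0, 0, 0, 0, 0] hT (fun s => by simp [RelV, Rel])
      (Set.toFinite ({-b0, -c0} : Set k))
  have h1 : b0 + s ≠ 0 := fun h => hs (Or.inl (eq_neg_of_add_eq_zero_right h))
  have h2 : c0 + s ≠ 0 := fun h => hs (Or.inr (eq_neg_of_add_eq_zero_right h))
  have h3 := bc hρ hT' (m1 _ _ _)
  have h4 : (b0 + s * 1) * (c0 + s * 1) = 0 := h3
  rw [mul_one] at h4
  exact mul_ne_zero h1 h2 h4

theorem JJB (b0 b1 b2 c0 c1 c2 q1 q2 om pi th et : k) :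
    J431 k * (J431 k * B431 b0 b1 b2 c0 c1 c2 q1 q2 om pi th et) =
      B431 0 0 b0 0 0 c0 0 0 0 0 0 0 := by
  rw [JB, JB]

theorem id1a (b1 b2 c1 c2 q1 q2 om pi th et om' : k) (hp : pi ≠ 0) :
    B431 0 0 (om' * th) 0 0 0 0 (om' * et) om' 0 0 0 = (om' / pi) •
      (B431 0 b1 b2 1 c1 c2 q1 q2 om pi th et * B431 0 b1 b2 1 c1 c2 q1 q2 om pi th et
        - q1 • (J431 k * B431 0 b1 b2 1 c1 c2 q1 q2 om pi th et)
        - (q2 + om * et) • (J431 k * (J431 k * B431 0 b1 b2 1 c1 c2 q1 q2 om pi th et))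
        - b1 • (J431 k * J431 k)
        - (b2 + c1 * b1 + om * th) • (J431 k * J431 k * J431 k)) := by
  rw [mulB, JJB, JB, J2, mulJ2]
  ext i j
  fin_cases i <;> fin_cases j <;> simp [B431] <;>
    first | (field_simp; done) | (field_simp; ring; done) | (right; ring)

theorem case1a [Infinite k] {ρ : ℕ → ℕ} (hρ : ∀ i, ρ i = (J431 k ^ i).rank)
    {b1 b2 c1 c2 q1 q2 om pi th et om' : k}
    (hT : MaxR ρ ![J431 k, B431 0 b1 b2 1 c1 c2 q1 q2 om pi th et,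
      B431 0 0 (om' * th) 0 0 0 0 (om' * et) om' 0 0 0]) : False := by
  by_cases h0 : om' = 0
  · subst h0
    rw [zero_mul, zero_mul, zeroB] at hT
    exact caseB hρ hT
  · obtain ⟨s, hs, hT'⟩ := deform_line (b := ![0, b1, b2, 1, c1, c2, q1, q2, om, pi, th, et])
      (c := ![0, 0, om' * th, 0, 0, 0, 0, om' * et, om', 0, 0, 0])
      ![0, 0, 0, 0, 0, 0, 0, 0, 0, 1, 0, 0]
      ![0, 0, 0, 0, 0, 0, 0, 0, 0, 0, 0, 0] hT (fun s => by simp [RelV, Rel])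
      (Set.finite_singleton (-pi))
    have hp : pi + s ≠ 0 := fun h => hs (eq_neg_of_add_eq_zero_right h)
    have hT2 : MaxR ρ ![J431 k, B431 0 b1 b2 1 c1 c2 q1 q2 om (pi + s) th et,
        B431 0 0 (om' * th) 0 0 0 0 (om' * et) om' 0 0 0] := by
      simpa [Bv] using hT'
    refine caseB hρ (change3 hT2 (m1 _ _ _) (zero_mem _) (m1 _ _ _) ?_)
    rw [id1a b1 b2 c1 c2 q1 q2 om (pi + s) th et om' hp]
    have a0 := m0 (J431 k) (B431 0 b1 b2 1 c1 c2 q1 q2 om (pi + s) th et) 0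
    have a1 := m1 (J431 k) (B431 0 b1 b2 1 c1 c2 q1 q2 om (pi + s) th et) 0
    exact SMulMemClass.smul_mem _ (sub_mem (sub_mem (sub_mem (sub_mem (mul_mem a1 a1)
      (SMulMemClass.smul_mem _ (mul_mem a0 a1)))
      (SMulMemClass.smul_mem _ (mul_mem a0 (mul_mem a0 a1))))
      (SMulMemClass.smul_mem _ (mul_mem a0 a0)))
      (SMulMemClass.smul_mem _ (mul_mem (mul_mem a0 a0) a0)))

/-! ### change of basis -/

/-- change of basis -/
def Pm (a b c : k) : Matrix (Fin 8) (Fin 8) k :=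
  !![1, 0, 0, 0, 0, 0, 0, 0;
     0, 1, 0, 0, 0, 0, 0, 0;
     0, 0, 1, 0, 0, 0, 0, 0;
     0, 0, 0, 1, 0, 0, 0, 0;
     0, 0, 0, 0, 1, 0, 0, 0;
     0, 0, 0, 0, a, 1, 0, 0;
     0, 0, 0, 0, b, a, 1, 0;
     0, 0, 0, 0, c, 0, 0, 1]

theorem Pm_mul (a b c : k) : Pm (-a) (a * a - b) (-c) * Pm a b c = 1 := by
  ext i j
  fin_cases i <;> fin_cases j <;>
    simp [Pm, Matrix.mul_apply, Fin.sum_univ_succ]

theorem Pm_J (a b c : k) : J431 k * Pm a b c = Pm a b c * J431 k := by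
  ext i j
  fin_cases i <;> fin_cases j <;>
    simp [Pm, J431, Matrix.mul_apply, Fin.sum_univ_succ]

theorem Pm_B (b1 b2 c1 c2 q1 q2 om th et : k) :
    B431 0 b1 b2 1 c1 c2 q1 q2 om 0 th et * Pm c1 c2 om =
    Pm c1 c2 om * B431 0 b1 (b2 + c1 * b1 + om * th) 1 0 0 q1 (q2 + om * et) 0 0 th et := by
  ext i j
  fin_cases i <;> fin_cases j <;>
    simp [Pm, B431, Matrix.mul_apply, Fin.sum_univ_succ] <;> ring

theorem Pm_C (c1 c2 om th et om' th' et' : k) :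
    B431 0 0 (om' * th - om * th') 0 0 0 0 (om' * et - om * et') om' 0 th' et' * Pm c1 c2 om =
    Pm c1 c2 om * B431 0 0 (om' * th) 0 0 0 0 (om' * et) om' 0 th' et' := by
  ext i j
  fin_cases i <;> fin_cases j <;>
    simp [Pm, B431, Matrix.mul_apply, Fin.sum_univ_succ] <;> ring

/-! ### duality -/

/-- permutation matrix -/
def Sg (k : Type*) [Field k] : Matrix (Fin 8) (Fin 8) k :=
  !![0, 0, 0, 1, 0, 0, 0, 0;
     0, 0, 1, 0, 0, 0, 0, 0;
     0, 1, 0, 0, 0, 0, 0, 0;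
     1, 0, 0, 0, 0, 0, 0, 0;
     0, 0, 0, 0, 0, 0, 1, 0;
     0, 0, 0, 0, 0, 1, 0, 0;
     0, 0, 0, 0, 1, 0, 0, 0;
     0, 0, 0, 0, 0, 0, 0, 1]

theorem Sg_mul : Sg k * Sg k = 1 := by
  ext i j
  fin_cases i <;> fin_cases j <;>
    simp [Sg, Matrix.mul_apply, Fin.sum_univ_succ]

theorem Sg_J : (J431 k)ᵀ * Sg k = Sg k * J431 k := by
  ext i j
  fin_cases i <;> fin_cases j <;>
    simp [Sg, J431, Matrix.mul_apply, Fin.sum_univ_succ]

theorem Sg_B (b0 b1 b2 c0 c1 c2 q1 q2 om pi th et : k) :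
    (B431 b0 b1 b2 c0 c1 c2 q1 q2 om pi th et)ᵀ * Sg k =
      Sg k * B431 c0 c1 c2 b0 b1 b2 q1 q2 th et om pi := by
  ext i j
  fin_cases i <;> fin_cases j <;>
    simp [Sg, B431, Matrix.mul_apply, Fin.sum_univ_succ]

theorem dual {ρ : ℕ → ℕ}
    {b0 b1 b2 c0 c1 c2 q1 q2 om pi th et
      b0' b1' b2' c0' c1' c2' q1' q2' om' pi' th' et' : k}
    (hT : MaxR ρ ![J431 k, B431 b0 b1 b2 c0 c1 c2 q1 q2 om pi th et,
      B431 b0' b1' b2' c0' c1' c2' q1' q2' om' pi' th' et']) :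
    MaxR ρ ![J431 k, B431 c0 c1 c2 b0 b1 b2 q1 q2 th et om pi,
      B431 c0' c1' c2' b0' b1' b2' q1' q2' th' et' om' pi'] := by
  have h1 := hT.transpose.conj (Sg k) (Sg k) Sg_mul Sg_mul
  have h2 : (fun i => Sg k * ((![J431 k, B431 b0 b1 b2 c0 c1 c2 q1 q2 om pi th et,
      B431 b0' b1' b2' c0' c1' c2' q1' q2' om' pi' th' et'] :
        Fin 3 → Matrix (Fin 8) (Fin 8) k) i)ᵀ * Sg k) =
      ![J431 k, B431 c0 c1 c2 b0 b1 b2 q1 q2 th et om pi,
      B431 c0' c1' c2' b0' b1' b2' q1' q2' th' et' om' pi'] := by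
    funext i
    fin_cases i
    · show Sg k * (J431 k)ᵀ * Sg k = J431 k
      rw [Matrix.mul_assoc, Sg_J, ← Matrix.mul_assoc, Sg_mul, Matrix.one_mul]
    · show Sg k * (B431 b0 b1 b2 c0 c1 c2 q1 q2 om pi th et)ᵀ * Sg k = _
      rw [Matrix.mul_assoc, Sg_B, ← Matrix.mul_assoc, Sg_mul, Matrix.one_mul]
      rfl
    · show Sg k * (B431 b0' b1' b2' c0' c1' c2' q1' q2' om' pi' th' et')ᵀ * Sg k = _
      rw [Matrix.mul_assoc, Sg_B, ← Matrix.mul_assoc, Sg_mul, Matrix.one_mul]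
      rfl
  rwa [h2] at h1

theorem swap {ρ : ℕ → ℕ} {A B C : Matrix (Fin 8) (Fin 8) k} (hT : MaxR ρ ![A, B, C]) :
    MaxR ρ ![A, C, B] := change3 hT (m2 _ _ _) (m1 _ _ _) (m2 _ _ _) (m1 _ _ _)

variable [IsAlgClosed k] [CharZero k]

theorem case1b {ρ : ℕ → ℕ} {b1 b2 c1 c2 q1 q2 om th et om' th' et' : k}
    (hT : MaxR ρ ![J431 k, B431 0 b1 b2 1 c1 c2 q1 q2 om 0 th et,
      B431 0 0 (om' * th - om * th') 0 0 0 0 (om' * et - om * et') om' 0 th' et']) : False := by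
  have g1 := Pm_mul c1 c2 om
  have g2 := mul_eq_one_comm.1 g1
  have h1 := hT.conj (Pm (-c1) (c1 * c1 - c2) (-om)) (Pm c1 c2 om) g1 g2
  have h2 : (fun i => Pm (-c1) (c1 * c1 - c2) (-om) *
      (![J431 k, B431 0 b1 b2 1 c1 c2 q1 q2 om 0 th et,
      B431 0 0 (om' * th - om * th') 0 0 0 0 (om' * et - om * et') om' 0 th' et'] :
        Fin 3 → Matrix (Fin 8) (Fin 8) k) i * Pm c1 c2 om) =
      ![J431 k, B431 0 b1 (b2 + c1 * b1 + om * th) 1 0 0 q1 (q2 + om * et) 0 0 th et,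
        B431 0 0 (om' * th) 0 0 0 0 (om' * et) om' 0 th' et'] := by
    funext i
    fin_cases i
    · show Pm (-c1) (c1 * c1 - c2) (-om) * J431 k * Pm c1 c2 om = J431 k
      rw [Matrix.mul_assoc, Pm_J, ← Matrix.mul_assoc, g1, Matrix.one_mul]
    · show Pm (-c1) (c1 * c1 - c2) (-om) * B431 0 b1 b2 1 c1 c2 q1 q2 om 0 th et *
        Pm c1 c2 om = _
      rw [Matrix.mul_assoc, Pm_B, ← Matrix.mul_assoc, g1, Matrix.one_mul]
      rfl
    · show Pm (-c1) (c1 * c1 - c2) (-om) *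
        B431 0 0 (om' * th - om * th') 0 0 0 0 (om' * et - om * et') om' 0 th' et' *
        Pm c1 c2 om = _
      rw [Matrix.mul_assoc, Pm_C, ← Matrix.mul_assoc, g1, Matrix.one_mul]
      rfl
  rw [h2] at h1
  exact h1.ncl (cl_431g _ _ _ _ _ _ _ _ _)

theorem case1 {ρ : ℕ → ℕ} (hρ : ∀ i, ρ i = (J431 k ^ i).rank)
    {b1 b2 c1 c2 q1 q2 om pi th et b1' b2' c1' c2' q1' q2' om' pi' th' et' : k}
    (hT : MaxR ρ ![J431 k, B431 0 b1 b2 1 c1 c2 q1 q2 om pi th et,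
      B431 0 b1' b2' 0 c1' c2' q1' q2' om' pi' th' et']) : False := by
  have hinf : Infinite k := inferInstance
  obtain ⟨r1, r2, r3, r4, r5, r6, r7, r8, r9, r10⟩ := rel_of_comm (hT.cn.1 1 2)
  have e1 : b1' = 0 := by linear_combination -r2
  have e2 : q1' = 0 := by linear_combination -r4
  have e3 : pi' = 0 := by linear_combination -r6
  subst e1 e2 e3
  have e4 : b2' = c1' * b1 + (om' * th - om * th') := by linear_combination -r3
  have e5 : q2' = c1' * q1 + (om' * et - om * et') := by linear_combination -r5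
  have e6 : pi * et' = 0 := by linear_combination -r7
  have e7 : pi * th' = 0 := by linear_combination -r9
  subst e4 e5
  have key : B431 0 0 (c1' * b1 + (om' * th - om * th')) 0 c1' c2' 0
        (c1' * q1 + (om' * et - om * et')) om' 0 th' et' -
      c1' • (J431 k * B431 0 b1 b2 1 c1 c2 q1 q2 om pi th et) -
      (c2' - c1' * c1) • (J431 k * (J431 k * B431 0 b1 b2 1 c1 c2 q1 q2 om pi th et)) =
      B431 0 0 (om' * th - om * th') 0 0 0 0 (om' * et - om * et') om' 0 th' et' := by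
    rw [JJB, JB, smulB, smulB, subB, subB]
    congr 1 <;> ring
  have hT2 : MaxR ρ ![J431 k, B431 0 b1 b2 1 c1 c2 q1 q2 om pi th et,
      B431 0 0 (om' * th - om * th') 0 0 0 0 (om' * et - om * et') om' 0 th' et'] := by
    rw [← key]
    refine change3 hT (m1 _ _ _) (sub_mem (sub_mem (m2 _ _ _) (SMulMemClass.smul_mem _
      (mul_mem (m0 _ _ _) (m1 _ _ _)))) (SMulMemClass.smul_mem _
      (mul_mem (m0 _ _ _) (mul_mem (m0 _ _ _) (m1 _ _ _))))) (m1 _ _ _) ?_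
    have h : ∀ C : Matrix (Fin 8) (Fin 8) k, C ∈ adj ![J431 k,
        B431 0 b1 b2 1 c1 c2 q1 q2 om pi th et, C -
        c1' • (J431 k * B431 0 b1 b2 1 c1 c2 q1 q2 om pi th et) -
        (c2' - c1' * c1) • (J431 k * (J431 k * B431 0 b1 b2 1 c1 c2 q1 q2 om pi th et))] := by
      intro C
      have a0 := m0 (J431 k) (B431 0 b1 b2 1 c1 c2 q1 q2 om pi th et) (C -
        c1' • (J431 k * B431 0 b1 b2 1 c1 c2 q1 q2 om pi th et) -
        (c2' - c1' * c1) • (J431 k * (J431 k * B431 0 b1 b2 1 c1 c2 q1 q2 om pi th et)))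
      have a1 := m1 (J431 k) (B431 0 b1 b2 1 c1 c2 q1 q2 om pi th et) (C -
        c1' • (J431 k * B431 0 b1 b2 1 c1 c2 q1 q2 om pi th et) -
        (c2' - c1' * c1) • (J431 k * (J431 k * B431 0 b1 b2 1 c1 c2 q1 q2 om pi th et)))
      have a2 := m2 (J431 k) (B431 0 b1 b2 1 c1 c2 q1 q2 om pi th et) (C -
        c1' • (J431 k * B431 0 b1 b2 1 c1 c2 q1 q2 om pi th et) -
        (c2' - c1' * c1) • (J431 k * (J431 k * B431 0 b1 b2 1 c1 c2 q1 q2 om pi th et)))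
      have h := add_mem (add_mem a2 (SMulMemClass.smul_mem (c2' - c1' * c1)
        (mul_mem a0 (mul_mem a0 a1)))) (SMulMemClass.smul_mem c1' (mul_mem a0 a1))
      rwa [sub_add_cancel, sub_add_cancel] at h
    exact h _
  by_cases ht : th' = 0
  · by_cases he : et' = 0
    · subst ht he
      simp only [mul_zero, sub_zero] at hT2
      exact case1a hρ hT2
    · have hp : pi = 0 := (mul_eq_zero.1 e6).resolve_right he
      subst hp
      exact case1b hT2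
  · have hp : pi = 0 := (mul_eq_zero.1 e7).resolve_right ht
    subst hp
    exact case1b hT2

theorem case_c {ρ : ℕ → ℕ} (hρ : ∀ i, ρ i = (J431 k ^ i).rank)
    {b1 b2 c0 c1 c2 q1 q2 om pi th et b1' b2' c0' c1' c2' q1' q2' om' pi' th' et' : k}
    (hc : c0 ≠ 0)
    (hT : MaxR ρ ![J431 k, B431 0 b1 b2 c0 c1 c2 q1 q2 om pi th et,
      B431 0 b1' b2' c0' c1' c2' q1' q2' om' pi' th' et']) : False := by
  have e1 : c0⁻¹ • B431 0 b1 b2 c0 c1 c2 q1 q2 om pi th et = B431 0 (c0⁻¹ * b1) (c0⁻¹ * b2) 1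
      (c0⁻¹ * c1) (c0⁻¹ * c2) (c0⁻¹ * q1) (c0⁻¹ * q2) (c0⁻¹ * om) (c0⁻¹ * pi) (c0⁻¹ * th)
      (c0⁻¹ * et) := by
    rw [smulB, inv_mul_cancel₀ hc, mul_zero]
  have e2 : B431 0 b1' b2' c0' c1' c2' q1' q2' om' pi' th' et' -
      (c0' / c0) • B431 0 b1 b2 c0 c1 c2 q1 q2 om pi th et = B431 0 (b1' - c0' / c0 * b1)
      (b2' - c0' / c0 * b2) 0 (c1' - c0' / c0 * c1) (c2' - c0' / c0 * c2)
      (q1' - c0' / c0 * q1) (q2' - c0' / c0 * q2) (om' - c0' / c0 * om) (pi' - c0' / c0 * pi)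
      (th' - c0' / c0 * th) (et' - c0' / c0 * et) := by
    rw [smulB, subB, div_mul_cancel₀ _ hc, sub_self, mul_zero, sub_zero]
  have hT2 : MaxR ρ ![J431 k, c0⁻¹ • B431 0 b1 b2 c0 c1 c2 q1 q2 om pi th et,
      B431 0 b1' b2' c0' c1' c2' q1' q2' om' pi' th' et' -
        (c0' / c0) • B431 0 b1 b2 c0 c1 c2 q1 q2 om pi th et] := by
    generalize hBB : B431 0 b1 b2 c0 c1 c2 q1 q2 om pi th et = BB at hT ⊢
    generalize hCC : B431 0 b1' b2' c0' c1' c2' q1' q2' om' pi' th' et' = CC at hT ⊢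
    have hB : BB ∈ adj ![J431 k, c0⁻¹ • BB, CC - (c0' / c0) • BB] := by
      have h := SMulMemClass.smul_mem c0 (m1 (J431 k) (c0⁻¹ • BB) (CC - (c0' / c0) • BB))
      rwa [smul_smul, mul_inv_cancel₀ hc, one_smul] at h
    refine change3 hT (SMulMemClass.smul_mem _ (m1 _ _ _)) (sub_mem (m2 _ _ _)
      (SMulMemClass.smul_mem _ (m1 _ _ _))) hB ?_
    have h := add_mem (m2 (J431 k) (c0⁻¹ • BB) (CC - (c0' / c0) • BB))
      (SMulMemClass.smul_mem (c0' / c0) hB)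
    rwa [sub_add_cancel] at h
  rw [e1, e2] at hT2
  exact case1 hρ hT2

theorem caseAll {ρ : ℕ → ℕ} (hρ : ∀ i, ρ i = (J431 k ^ i).rank)
    {b0 b1 b2 c0 c1 c2 q1 q2 om pi th et
      b0' b1' b2' c0' c1' c2' q1' q2' om' pi' th' et' : k}
    (hT : MaxR ρ ![J431 k, B431 b0 b1 b2 c0 c1 c2 q1 q2 om pi th et,
      B431 b0' b1' b2' c0' c1' c2' q1' q2' om' pi' th' et']) : False := by
  have hinf : Infinite k := inferInstance
  obtain ⟨r1, r2, r3, r4, r5, r6, r7, r8, r9, r10⟩ := rel_of_comm (hT.cn.1 1 2)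
  have p1 := bc hρ hT (m1 _ _ _)
  have p2 := bc hρ hT (m2 _ _ _)
  have p3 : (b0 + b0') * (c0 + c0') = 0 := by
    have h := add_mem (m1 (J431 k) (B431 b0 b1 b2 c0 c1 c2 q1 q2 om pi th et)
      (B431 b0' b1' b2' c0' c1' c2' q1' q2' om' pi' th' et')) (m2 (J431 k)
      (B431 b0 b1 b2 c0 c1 c2 q1 q2 om pi th et)
      (B431 b0' b1' b2' c0' c1' c2' q1' q2' om' pi' th' et'))
    rw [addB] at h
    exact bc hρ hT h
  have p4 : c0 * b0' = 0 := by
    have h : (2 : k) * (c0 * b0') = 0 := by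
      linear_combination p3 - p1 - p2 - r1
    exact (mul_eq_zero.1 h).resolve_left two_ne_zero
  have p5 : c0' * b0 = 0 := r1.trans p4
  by_cases h1 : c0 = 0
  · by_cases h2 : c0' = 0
    · subst h1 h2
      by_cases h3 : b0 = 0
      · by_cases h4 : b0' = 0
        · subst h3 h4
          refine hT.ncl (cl_431II ?_ ?_ ?_ ?_)
          · linear_combination r3
          · linear_combination r5
          · exact r7
          · linear_combination r9
        · exact case_c hρ h4 (swap (dual hT))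
      · exact case_c hρ h3 (dual hT)
    · have q1 : b0 = 0 := (mul_eq_zero.1 p5).resolve_left h2
      have q2 : b0' = 0 := (mul_eq_zero.1 p2).resolve_right h2
      subst q1 q2
      exact case_c hρ h2 (swap hT)
  · have q1 : b0 = 0 := (mul_eq_zero.1 p1).resolve_right h1
    have q2 : b0' = 0 := (mul_eq_zero.1 p4).resolve_left h1
    subst q1 q2
    exact case_c hρ h1 hT

end T431aAux

open T431aAux

variable [IsAlgClosed k] [CharZero k]

theorem no_431 {ρ : ℕ → ℕ} {T : Fin 3 → Matrix (Fin 8) (Fin 8) k} (hT : MaxR ρ T)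
    (hρ : ∀ i, ρ i = (J431 k ^ i).rank) (h0 : T 0 = J431 k) : False := by
  have hT' : MaxR ρ ![J431 k, T 1, T 2] := by
    have e : T = ![J431 k, T 1, T 2] := by
      funext i
      fin_cases i
      exacts [h0, rfl, rfl]
    rwa [← e]
  obtain ⟨x1, x2, x3, b0, b1, b2, c0, c1, c2, q1, q2, om, pi, th, et, hB⟩ :=
    shape (hT'.cn.1 0 1) (hT'.cn.2 1)
  obtain ⟨y1, y2, y3, b0', b1', b2', c0', c1', c2', q1', q2', om', pi', th', et', hC⟩ :=
    shape (hT'.cn.1 0 2) (hT'.cn.2 2)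
  have key : ∀ (B C : Matrix (Fin 8) (Fin 8) k) (a b c : k),
      a • J431 k + b • (J431 k * J431 k) + c • (J431 k * J431 k * J431 k) ∈
        adj ![J431 k, B, C] := fun B C a b c =>
    add_mem (add_mem (SMulMemClass.smul_mem _ (m0 _ _ _))
      (SMulMemClass.smul_mem _ (mul_mem (m0 _ _ _) (m0 _ _ _))))
      (SMulMemClass.smul_mem _ (mul_mem (mul_mem (m0 _ _ _) (m0 _ _ _)) (m0 _ _ _)))
  have hB' : B431 b0 b1 b2 c0 c1 c2 q1 q2 om pi th et ∈ adj ![J431 k, T 1, T 2] := by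
    have h := sub_mem (m1 (J431 k) (T 1) (T 2)) (key (T 1) (T 2) x1 x2 x3)
    have e : T 1 - (x1 • J431 k + x2 • (J431 k * J431 k) + x3 • (J431 k * J431 k * J431 k)) =
        B431 b0 b1 b2 c0 c1 c2 q1 q2 om pi th et := by
      rw [sub_eq_iff_eq_add, add_comm]
      exact hB
    rwa [e] at h
  have hC' : B431 b0' b1' b2' c0' c1' c2' q1' q2' om' pi' th' et' ∈
      adj ![J431 k, T 1, T 2] := by
    have h := sub_mem (m2 (J431 k) (T 1) (T 2)) (key (T 1) (T 2) y1 y2 y3)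
    have e : T 2 - (y1 • J431 k + y2 • (J431 k * J431 k) + y3 • (J431 k * J431 k * J431 k)) =
        B431 b0' b1' b2' c0' c1' c2' q1' q2' om' pi' th' et' := by
      rw [sub_eq_iff_eq_add, add_comm]
      exact hC
    rwa [e] at h
  refine caseAll hρ (change3 hT' hB' hC' ?_ ?_)
  · have h := add_mem (key (B431 b0 b1 b2 c0 c1 c2 q1 q2 om pi th et)
      (B431 b0' b1' b2' c0' c1' c2' q1' q2' om' pi' th' et') x1 x2 x3) (m1 _ _ _)
    rw [← hB] at h
    exact h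
  · have h := add_mem (key (B431 b0 b1 b2 c0 c1 c2 q1 q2 om pi th et)
      (B431 b0' b1' b2' c0' c1' c2' q1' q2' om' pi' th' et') y1 y2 y3) (m2 _ _ _)
    rw [← hC] at h
    exact h

end Pool.Agent.Lib.D8
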