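import Pool.Agent.Lib.D7.Api
import Pool.Agent.Lib.D8.Fams
import Pool.Agent.Lib.Q5dc.Tan

/-!
# MP_5dcbc3_ag: all triples `TG g` are limits of curvilinear triples
-/

namespace Pool.Agent.Lib.D8

open Matrix Pool.Agent.Lib.Q5dc Pool.Agent.Lib.D7

variable {k : Type*} [Field k]

namespace TGclAux

/-- square of the first matrix -/
def X2 (s : k) : Matrix (Fin 8) (Fin 8) k :=
  !![0, 0, 0, 0, 0, -s ^ 3, 0, 0;
     0, 0, 0, 0, 0, 0, 0, 0;
     0, s, 0, 0, 0, 0, 0, 0;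
     0, 0, 0, 0, 0, s ^ 2, 0, 0;
     0, 0, 0, 0, 0, 0, 0, 0;
     0, 0, 0, 0, 0, 0, 0, 0;
     1, 0, 0, s, 0, 0, 0, 0;
     0, 1, 0, 0, s, 0, 0, 0]

/-- square of the second matrix -/
def Y2 (s p1 : k) : Matrix (Fin 8) (Fin 8) k :=
  !![0, 0, 0, 0, 0, 0, 0, 0;
     0, 0, 0, 0, 0, 0, 0, 0;
     0, 0, 0, 0, 0, 0, 0, 0;
     0, 0, 0, 0, 0, 0, 0, 0;
     0, 0, 0, 0, 0, 0, 0, 0;
     0, 0, 0, 0, 0, 0, 0, 0;
     0, 1, 0, 0, 0, 0, 0, 0;
     0, p1, 0, 0, 0, s, 0, 0]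

/-- square of the third matrix -/
def Z2 (s p1 p2 p3 p4 p5 : k) : Matrix (Fin 8) (Fin 8) k :=
  !![-p1 * s ^ 2, -p3 * s ^ 2, 0, -p1 * s ^ 3, -s ^ 3, -p2 * s ^ 3 - p1 ^ 2 * s ^ 3, 0, 0;
     0, 0, 0, 0, 0, 0, 0, 0;
     s, p2 * s, 0, s ^ 2, 0, p1 * s ^ 2, 0, 0;
     p1 * s, s + p3 * s, 0, p1 * s ^ 2, s ^ 2, p2 * s ^ 2 + p1 ^ 2 * s ^ 2, 0, 0;
     0, p1 * s, 0, 0, 0, s ^ 2, 0, 0;
     0, 0, 0, 0, 0, 0, 0, 0;
     p2, p4, s, p2 * s, p1 * s, s + p3 * s + p1 * p2 * s, 0, 0;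
     p3, p5, p1 * s, s + p3 * s, p2 * s + p1 ^ 2 * s, p1 * s + p4 * s + 2 * p1 * p3 * s, 0, 0]

/-- cube of the third matrix -/
def Z3 (s p1 p2 p3 p4 : k) : Matrix (Fin 8) (Fin 8) k :=
  !![-s ^ 3, -p2 * s ^ 3 - p1 ^ 2 * s ^ 3, 0, -s ^ 4, 0, -2 * p1 * s ^ 4, 0, 0;
     0, 0, 0, 0, 0, 0, 0, 0;
     0, p1 * s ^ 2, 0, 0, 0, s ^ 3, 0, 0;
     s ^ 2, p2 * s ^ 2 + p1 ^ 2 * s ^ 2, 0, s ^ 3, 0, 2 * p1 * s ^ 3, 0, 0;
     0, s ^ 2, 0, 0, 0, 0, 0, 0;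
     0, 0, 0, 0, 0, 0, 0, 0;
     p1 * s, s + p3 * s + p1 * p2 * s, 0, p1 * s ^ 2, s ^ 2, 2 * p2 * s ^ 2 + p1 ^ 2 * s ^ 2, 0, 0;
     p2 * s + p1 ^ 2 * s, p1 * s + p4 * s + 2 * p1 * p3 * s, s ^ 2, p2 * s ^ 2 + p1 ^ 2 * s ^ 2, 2 * p1 * s ^ 2, s ^ 2 + 2 * p3 * s ^ 2 + 2 * p1 * p2 * s ^ 2 + p1 ^ 3 * s ^ 2, 0, 0]

/-- fourth power of the third matrix -/
def Z4 (s p1 p2 p3 : k) : Matrix (Fin 8) (Fin 8) k :=
  !![0, -2 * p1 * s ^ 4, 0, 0, 0, -s ^ 5, 0, 0;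
     0, 0, 0, 0, 0, 0, 0, 0;
     0, s ^ 3, 0, 0, 0, 0, 0, 0;
     0, 2 * p1 * s ^ 3, 0, 0, 0, s ^ 4, 0, 0;
     0, 0, 0, 0, 0, 0, 0, 0;
     0, 0, 0, 0, 0, 0, 0, 0;
     s ^ 2, 2 * p2 * s ^ 2 + p1 ^ 2 * s ^ 2, 0, s ^ 3, 0, 2 * p1 * s ^ 3, 0, 0;
     2 * p1 * s ^ 2, s ^ 2 + 2 * p3 * s ^ 2 + 2 * p1 * p2 * s ^ 2 + p1 ^ 3 * s ^ 2, 0, 2 * p1 * s ^ 3, s ^ 3, 2 * p2 * s ^ 3 + 3 * p1 ^ 2 * s ^ 3, 0, 0]


theorem hX2 (s p1 p2 p3 p4 p5 : k) :
    TGs s p1 p2 p3 p4 p5 0 * TGs s p1 p2 p3 p4 p5 0 = X2 s := by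
  ext i j
  fin_cases i <;> fin_cases j <;>
    simp [TGs, X2, Matrix.mul_apply, Fin.sum_univ_succ] <;> ring

theorem hX4 (s : k) : X2 s * X2 s = 0 := by
  ext i j
  fin_cases i <;> fin_cases j <;>
    simp [X2, Matrix.mul_apply, Fin.sum_univ_succ] <;> ring

theorem hY2 (s p1 p2 p3 p4 p5 : k) :
    TGs s p1 p2 p3 p4 p5 1 * TGs s p1 p2 p3 p4 p5 1 = Y2 s p1 := by
  ext i j
  fin_cases i <;> fin_cases j <;>
    simp [TGs, Y2, Matrix.mul_apply, Fin.sum_univ_succ] <;> ring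

theorem hY4 (s p1 : k) : Y2 s p1 * Y2 s p1 = 0 := by
  ext i j
  fin_cases i <;> fin_cases j <;>
    simp [Y2, Matrix.mul_apply, Fin.sum_univ_succ] <;> ring

theorem hZ2 (s p1 p2 p3 p4 p5 : k) :
    TGs s p1 p2 p3 p4 p5 2 * TGs s p1 p2 p3 p4 p5 2 = Z2 s p1 p2 p3 p4 p5 := by
  ext i j
  fin_cases i <;> fin_cases j <;>
    simp [TGs, Z2, Matrix.mul_apply, Fin.sum_univ_succ] <;> ring

theorem hZ3 (s p1 p2 p3 p4 p5 : k) :
    Z2 s p1 p2 p3 p4 p5 * TGs s p1 p2 p3 p4 p5 2 = Z3 s p1 p2 p3 p4 := by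
  ext i j
  fin_cases i <;> fin_cases j <;>
    simp [TGs, Z2, Z3, Matrix.mul_apply, Fin.sum_univ_succ] <;> ring

theorem hZ4 (s p1 p2 p3 p4 p5 : k) :
    Z2 s p1 p2 p3 p4 p5 * Z2 s p1 p2 p3 p4 p5 = Z4 s p1 p2 p3 := by
  ext i j
  fin_cases i <;> fin_cases j <;>
    simp [Z2, Z4, Matrix.mul_apply, Fin.sum_univ_succ] <;> ring

theorem hZ8 (s p1 p2 p3 : k) : Z4 s p1 p2 p3 * Z4 s p1 p2 p3 = 0 := by
  ext i j
  fin_cases i <;> fin_cases j <;>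
    simp [Z4, Matrix.mul_apply, Fin.sum_univ_succ] <;> ring

theorem hZ7 (s p1 p2 p3 p4 : k) : (Z3 s p1 p2 p3 p4 * Z4 s p1 p2 p3) 7 1 = s ^ 5 := by
  simp [Z3, Z4, Matrix.mul_apply, Fin.sum_univ_succ]
  ring

theorem hXY (s p1 p2 p3 p4 p5 : k) : TGs s p1 p2 p3 p4 p5 0 * TGs s p1 p2 p3 p4 p5 1 =
    TGs s p1 p2 p3 p4 p5 1 * TGs s p1 p2 p3 p4 p5 0 := by
  ext i j
  fin_cases i <;> fin_cases j <;>
    simp [TGs, Matrix.mul_apply, Fin.sum_univ_succ] <;> ring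

theorem hXZ (s p1 p2 p3 p4 p5 : k) : TGs s p1 p2 p3 p4 p5 0 * TGs s p1 p2 p3 p4 p5 2 =
    TGs s p1 p2 p3 p4 p5 2 * TGs s p1 p2 p3 p4 p5 0 := by
  ext i j
  fin_cases i <;> fin_cases j <;>
    simp [TGs, Matrix.mul_apply, Fin.sum_univ_succ] <;> ring

theorem hYZ (s p1 p2 p3 p4 p5 : k) : TGs s p1 p2 p3 p4 p5 1 * TGs s p1 p2 p3 p4 p5 2 =
    TGs s p1 p2 p3 p4 p5 2 * TGs s p1 p2 p3 p4 p5 1 := by
  ext i j
  fin_cases i <;> fin_cases j <;>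
    simp [TGs, Matrix.mul_apply, Fin.sum_univ_succ] <;> ring

theorem cn (s p1 p2 p3 p4 p5 : k) : CN (TGs s p1 p2 p3 p4 p5) := by
  constructor
  · intro i j
    fin_cases i <;> fin_cases j
    · rfl
    · exact hXY s p1 p2 p3 p4 p5
    · exact hXZ s p1 p2 p3 p4 p5
    · exact (hXY s p1 p2 p3 p4 p5).symm
    · rfl
    · exact hYZ s p1 p2 p3 p4 p5
    · exact (hXZ s p1 p2 p3 p4 p5).symm
    · exact (hYZ s p1 p2 p3 p4 p5).symm
    · rfl
  · intro i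
    fin_cases i
    · exact ⟨2 * 2, by
        change TGs s p1 p2 p3 p4 p5 0 ^ (2 * 2) = 0
        rw [pow_mul, pow_two (TGs s p1 p2 p3 p4 p5 0), hX2, pow_two, hX4]⟩
    · exact ⟨2 * 2, by
        change TGs s p1 p2 p3 p4 p5 1 ^ (2 * 2) = 0
        rw [pow_mul, pow_two (TGs s p1 p2 p3 p4 p5 1), hY2, pow_two, hY4]⟩
    · exact ⟨2 * 2 * 2, by
        change TGs s p1 p2 p3 p4 p5 2 ^ (2 * 2 * 2) = 0
        rw [pow_mul, pow_mul, pow_two (TGs s p1 p2 p3 p4 p5 2), hZ2, pow_two (Z2 s p1 p2 p3 p4 p5),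
          hZ4, pow_two, hZ8]⟩

/-- a commuting nilpotent triple of matrices of size 8 is curvilinear if some polynomial in its
matrices is a regular nilpotent matrix -/
theorem cl_of_pow_seven {T : Fin 3 → Matrix (Fin 8) (Fin 8) k} (hT : CN T)
    {M : Matrix (Fin 8) (Fin 8) k} (hM : M ∈ adj T) (h : M ^ 7 ≠ 0) : Cl T := by
  obtain ⟨G, hG, hG'⟩ := TSQ.comm_regular (d := 8) (by norm_num) M (hT.nilp hM) h
  choose c hc using fun i => hG' (T i) (hT.comm (mem_adj T i) hM) (hT.2 i)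
  exact Cl.of_curv ((TSQ.curv_nf (by norm_num) T).2 ⟨G, hG, c, hc⟩)

theorem cl_ne {s : k} (hs : s ≠ 0) (p1 p2 p3 p4 p5 : k) : Cl (TGs s p1 p2 p3 p4 p5) := by
  refine cl_of_pow_seven (cn s p1 p2 p3 p4 p5) (mem_adj (TGs s p1 p2 p3 p4 p5) 2) ?_
  have h1 : TGs s p1 p2 p3 p4 p5 2 ^ 7 = Z3 s p1 p2 p3 p4 * Z4 s p1 p2 p3 := by
    rw [show 7 = 3 + 2 * 2 from rfl, pow_add, pow_mul, pow_succ, pow_two, hZ2, hZ3, pow_two, hZ4]
  rw [h1]
  intro h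
  have h2 := congrFun (congrFun h 7) 1
  rw [hZ7] at h2
  exact pow_ne_zero 5 hs h2

/-- coefficients of the base family -/
def gB {R : Type*} [CommRing R] (p1 p2 p3 p4 p5 : R) (x : Fin 6 × Fin 2) : R :=
  ![![1, 0], ![0, 1], ![0, 0], ![1, p1], ![p2, p3], ![p4, p5]] x.1 x.2

theorem TGs_zero (p1 p2 p3 p4 p5 : k) : TGs 0 p1 p2 p3 p4 p5 = TG (gB p1 p2 p3 p4 p5) := by
  funext i
  ext x y
  fin_cases i <;> fin_cases x <;> fin_cases y <;> simp [TGs, TG, gB]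

theorem polyFam (p1 p2 p3 p4 p5 : k) : PolyFam fun s => TGs s p1 p2 p3 p4 p5 := by
  have hc : ∀ r : k, D7.IsPoly fun _ : k => r := D7.IsPoly.const
  have h2 : D7.IsPoly fun s : k => s ^ 2 := by
    have := (D7.IsPoly.id (k := k)).mul D7.IsPoly.id
    simpa only [pow_two] using this
  have h2n : D7.IsPoly fun s : k => -s ^ 2 := by
    have := (hc (-1)).mul h2
    simpa only [neg_one_mul] using this
  have hn : D7.IsPoly fun s : k => -s := by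
    have := (hc (-1)).mul D7.IsPoly.id
    simpa only [neg_one_mul] using this
  have h3 : ∀ p : k, D7.IsPoly fun s : k => -p * s ^ 2 := fun p => (hc (-p)).mul h2
  have h4 : ∀ p : k, D7.IsPoly fun s : k => p * s := fun p => (hc p).mul D7.IsPoly.id
  intro i x y
  fin_cases i <;> fin_cases x <;> fin_cases y <;>
    first
      | exact hc _
      | exact D7.IsPoly.id
      | exact h2n
      | exact hn
      | exact h3 _
      | exact h4 _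

theorem cl_TG0 [Infinite k] (p1 p2 p3 p4 p5 : k) : Cl (TG (gB p1 p2 p3 p4 p5)) := by
  rw [← TGs_zero]
  by_contra h0
  have h2 := finite_cl (fun s => TGs s p1 p2 p3 p4 p5) (polyFam p1 p2 p3 p4 p5) h0
  have h3 : (({0}ᶜ : Set k)).Infinite := (Set.finite_singleton (0 : k)).infinite_compl
  exact h3 (h2.subset fun s hs => cl_ne hs p1 p2 p3 p4 p5)

/-- index type with blocks of sizes `2, 4, 2` -/
abbrev N8 := Fin 2 ⊕ (Fin 4 ⊕ Fin 2)

/-- multiplication by `s^2, s t, t^2` from linear forms to cubics -/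
def Am (k : Type*) [Field k] : Fin 3 → Matrix (Fin 4) (Fin 2) k :=
  ![!![1, 0; 0, 1; 0, 0; 0, 0], !![0, 0; 1, 0; 0, 1; 0, 0], !![0, 0; 0, 0; 1, 0; 0, 1]]

/-- sum of the indices -/
def ix (i : Fin 3) (j : Fin 4) : Fin 6 := ![![0, 1, 2, 3], ![1, 2, 3, 4], ![2, 3, 4, 5]] i j

/-- multiplication by `s^2, s t, t^2` from cubics to the pencil of quintics -/
def Bm {R : Type*} (g : Fin 6 × Fin 2 → R) (i : Fin 3) : Matrix (Fin 2) (Fin 4) R :=
  Matrix.of fun l j => g (ix i j, l)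

/-- the triple in block form -/
def Tb (g : Fin 6 × Fin 2 → k) (i : Fin 3) : Matrix N8 N8 k :=
  fromBlocks 0 0 (fromRows (Am k i) 0) (fromBlocks 0 0 (Bm g i) 0)

/-- block diagonal matrix -/
def Dg (P : Matrix (Fin 2) (Fin 2) k) (Q : Matrix (Fin 4) (Fin 4) k) (H : Matrix (Fin 2) (Fin 2) k) :
    Matrix N8 N8 k := fromBlocks P 0 0 (fromBlocks Q 0 0 H)

theorem Dg_mul {P P' H H' : Matrix (Fin 2) (Fin 2) k} {Q Q' : Matrix (Fin 4) (Fin 4) k}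
    (hP : P * P' = 1) (hQ : Q * Q' = 1) (hH : H * H' = 1) : Dg P Q H * Dg P' Q' H' = 1 := by
  simp [Dg, fromBlocks_multiply, hP, hQ, hH]

theorem sum_Tb (c : Fin 3 → k) (g : Fin 6 × Fin 2 → k) :
    ∑ j, c j • Tb g j = fromBlocks 0 0 (fromRows (∑ j, c j • Am k j) 0)
      (fromBlocks 0 0 (∑ j, c j • Bm g j) 0) := by
  ext x y
  simp only [Matrix.sum_apply, Matrix.smul_apply, smul_eq_mul]
  rcases x with x | x | x <;> rcases y with y | y | y <;>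
    simp [Tb, Matrix.sum_apply]

theorem cl_blk {c : Fin 3 → Fin 3 → k} {P P' H H' : Matrix (Fin 2) (Fin 2) k}
    {Q Q' : Matrix (Fin 4) (Fin 4) k} (hP : P' * P = 1) (hQ : Q' * Q = 1) (hH : H * H' = 1)
    (hA : ∀ i, (∑ j, c i j • Am k j) * P = Q * Am k i) {g g' : Fin 6 × Fin 2 → k}
    (hB : ∀ i, H * (∑ j, c i j • Bm g j) * Q = Bm g' i) (hcl : Cl (Tb g)) : Cl (Tb g') := by
  have h1 : Cl (fun i => ∑ j, c i j • Tb g j) :=
    cl_of_adj (fun i => sum_mem fun j _ => SMulMemClass.smul_mem _ (mem_adj _ j)) hcl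
  have hD : Dg P' Q' H * Dg P Q H' = 1 := Dg_mul hP hQ hH
  have h2 := Cl.conj _ _ hD (mul_eq_one_comm.1 hD) h1
  have h3 : (fun i => Dg P' Q' H * (∑ j, c i j • Tb g j) * Dg P Q H') = Tb g' := by
    funext i
    have h4 : Q' * (∑ j, c i j • Am k j) * P = Am k i := by
      rw [Matrix.mul_assoc, hA, ← Matrix.mul_assoc, hQ, Matrix.one_mul]
    rw [sum_Tb, Dg, Dg, Tb]
    simp only [fromBlocks_multiply, Matrix.mul_zero, Matrix.zero_mul, add_zero, zero_add,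
      fromBlocks_mul_fromRows, fromRows_mul, h4, hB]
  rwa [h3] at h2

/-- numbering of the blocks -/
def e8 : N8 ≃ Fin 8 := (Equiv.sumCongr (Equiv.refl _) finSumFinEquiv).trans finSumFinEquiv

theorem reindex_Tb (g : Fin 6 × Fin 2 → k) (i : Fin 3) :
    Matrix.reindexAlgEquiv k k e8 (Tb g i) = TG g i := by
  ext x y
  fin_cases i <;> fin_cases x <;> fin_cases y <;> rfl

theorem cl_iff (g : Fin 6 × Fin 2 → k) : Cl (TG g) ↔ Cl (Tb g) := by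
  have hc : Fintype.card N8 = Fintype.card (Fin 8) := by simp
  constructor
  · intro h
    have h1 := Cl.mapEquiv (Matrix.reindexAlgEquiv k k e8).symm hc.symm h
    have h2 : (fun i => (Matrix.reindexAlgEquiv k k e8).symm (TG g i)) = Tb g :=
      funext fun i => by rw [← reindex_Tb, AlgEquiv.symm_apply_apply]
    rwa [h2] at h1
  · intro h
    have h1 := Cl.mapEquiv (Matrix.reindexAlgEquiv k k e8) hc h
    have h2 : (fun i => (Matrix.reindexAlgEquiv k k e8) (Tb g i)) = TG g :=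
      funext fun i => reindex_Tb g i
    rwa [h2] at h1

section steps

variable {R : Type*} [CommRing R]

/-- change of basis of the target -/
def gH (a b c d : R) (g : Fin 6 × Fin 2 → R) (x : Fin 6 × Fin 2) : R :=
  ![a * g (x.1, 0) + b * g (x.1, 1), c * g (x.1, 0) + d * g (x.1, 1)] x.2

/-- substitution `s ↦ s + b t` -/
def gb (b : R) (g : Fin 6 × Fin 2 → R) (x : Fin 6 × Fin 2) : R :=
  ![g (0, x.2) + 5 * b * g (1, x.2) + 10 * b ^ 2 * g (2, x.2) + 10 * b ^ 3 * g (3, x.2) +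
      5 * b ^ 4 * g (4, x.2) + b ^ 5 * g (5, x.2),
    g (1, x.2) + 4 * b * g (2, x.2) + 6 * b ^ 2 * g (3, x.2) + 4 * b ^ 3 * g (4, x.2) +
      b ^ 4 * g (5, x.2),
    g (2, x.2) + 3 * b * g (3, x.2) + 3 * b ^ 2 * g (4, x.2) + b ^ 3 * g (5, x.2),
    g (3, x.2) + 2 * b * g (4, x.2) + b ^ 2 * g (5, x.2),
    g (4, x.2) + b * g (5, x.2),
    g (5, x.2)] x.1

/-- substitution `t ↦ t + c s` -/
def gc (c : R) (g : Fin 6 × Fin 2 → R) (x : Fin 6 × Fin 2) : R :=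
  ![g (0, x.2),
    g (1, x.2) + c * g (0, x.2),
    g (2, x.2) + 2 * c * g (1, x.2) + c ^ 2 * g (0, x.2),
    g (3, x.2) + 3 * c * g (2, x.2) + 3 * c ^ 2 * g (1, x.2) + c ^ 3 * g (0, x.2),
    g (4, x.2) + 4 * c * g (3, x.2) + 6 * c ^ 2 * g (2, x.2) + 4 * c ^ 3 * g (1, x.2) +
      c ^ 4 * g (0, x.2),
    g (5, x.2) + 5 * c * g (4, x.2) + 10 * c ^ 2 * g (3, x.2) + 10 * c ^ 3 * g (2, x.2) +
      5 * c ^ 4 * g (1, x.2) + c ^ 5 * g (0, x.2)] x.1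

/-- substitution `s ↦ a s` -/
def ga (a : R) (g : Fin 6 × Fin 2 → R) (x : Fin 6 × Fin 2) : R :=
  ![a ^ 5 * g (0, x.2), a ^ 4 * g (1, x.2), a ^ 3 * g (2, x.2), a ^ 2 * g (3, x.2),
    a * g (4, x.2), g (5, x.2)] x.1

end steps

theorem cl_gH {a b c d : k} (h : a * d - b * c ≠ 0) {g : Fin 6 × Fin 2 → k} (hcl : Cl (Tb g)) :
    Cl (Tb (gH a b c d g)) := by
  have h0 : (!![a, b; c, d] : Matrix (Fin 2) (Fin 2) k).det ≠ 0 := by
    rw [Matrix.det_fin_two_of]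
    exact h
  refine cl_blk (c := fun i j => if i = j then 1 else 0) (P := 1) (P' := 1) (Q := 1) (Q' := 1)
    (H := !![a, b; c, d]) (H' := (!![a, b; c, d] : Matrix (Fin 2) (Fin 2) k)⁻¹)
    (Matrix.one_mul 1) (Matrix.one_mul 1)
    (Matrix.mul_nonsing_inv _ (isUnit_iff_ne_zero.2 h0)) (fun i => ?_) (fun i => ?_) hcl
  · simp
  · simp only [ite_smul, one_smul, zero_smul, Finset.sum_ite_eq, Finset.mem_univ, if_true,
      Matrix.mul_one]
    ext x y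
    fin_cases x <;> simp [Bm, gH, Matrix.mul_apply, Fin.sum_univ_two]

theorem cl_gb (b : k) {g : Fin 6 × Fin 2 → k} (hcl : Cl (Tb g)) : Cl (Tb (gb b g)) := by
  refine cl_blk (c := ![![1, 2 * b, b ^ 2], ![0, 1, b], ![0, 0, 1]])
    (P := !![1, 0; b, 1]) (P' := !![1, 0; -b, 1])
    (Q := !![1, 0, 0, 0; 3 * b, 1, 0, 0; 3 * b ^ 2, 2 * b, 1, 0; b ^ 3, b ^ 2, b, 1])
    (Q' := !![1, 0, 0, 0; -(3 * b), 1, 0, 0; 3 * b ^ 2, -(2 * b), 1, 0; -b ^ 3, b ^ 2, -b, 1])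
    (H := 1) (H' := 1) ?_ ?_ (Matrix.one_mul 1) (fun i => ?_) (fun i => ?_) hcl
  · ext x y
    fin_cases x <;> fin_cases y <;> simp [Matrix.mul_apply, Fin.sum_univ_two]
  · ext x y
    fin_cases x <;> fin_cases y <;> simp [Matrix.mul_apply, Fin.sum_univ_four] <;> ring
  · ext x y
    rw [Fin.sum_univ_three]
    fin_cases i <;> fin_cases x <;> fin_cases y <;>
      simp [Am, Matrix.mul_apply, Fin.sum_univ_four, Fin.sum_univ_two] <;> ring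
  · ext x y
    rw [Fin.sum_univ_three, Matrix.one_mul]
    fin_cases i <;> fin_cases y <;>
      simp [Bm, ix, gb, Matrix.mul_apply, Fin.sum_univ_four] <;> ring

theorem cl_gc (b : k) {g : Fin 6 × Fin 2 → k} (hcl : Cl (Tb g)) : Cl (Tb (gc b g)) := by
  refine cl_blk (c := ![![1, 0, 0], ![b, 1, 0], ![b ^ 2, 2 * b, 1]])
    (P := !![1, b; 0, 1]) (P' := !![1, -b; 0, 1])
    (Q := !![1, b, b ^ 2, b ^ 3; 0, 1, 2 * b, 3 * b ^ 2; 0, 0, 1, 3 * b; 0, 0, 0, 1])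
    (Q' := !![1, -b, b ^ 2, -b ^ 3; 0, 1, -(2 * b), 3 * b ^ 2; 0, 0, 1, -(3 * b); 0, 0, 0, 1])
    (H := 1) (H' := 1) ?_ ?_ (Matrix.one_mul 1) (fun i => ?_) (fun i => ?_) hcl
  · ext x y
    fin_cases x <;> fin_cases y <;> simp [Matrix.mul_apply, Fin.sum_univ_two]
  · ext x y
    fin_cases x <;> fin_cases y <;> simp [Matrix.mul_apply, Fin.sum_univ_four] <;> ring
  · ext x y
    rw [Fin.sum_univ_three]
    fin_cases i <;> fin_cases x <;> fin_cases y <;>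
      simp [Am, Matrix.mul_apply, Fin.sum_univ_four, Fin.sum_univ_two] <;> ring
  · ext x y
    rw [Fin.sum_univ_three, Matrix.one_mul]
    fin_cases i <;> fin_cases y <;>
      simp [Bm, ix, gc, Matrix.mul_apply, Fin.sum_univ_four] <;> ring

theorem cl_ga {a : k} (ha : a ≠ 0) {g : Fin 6 × Fin 2 → k} (hcl : Cl (Tb g)) :
    Cl (Tb (ga a g)) := by
  refine cl_blk (c := ![![a ^ 2, 0, 0], ![0, a, 0], ![0, 0, 1]])
    (P := !![a, 0; 0, 1]) (P' := !![a⁻¹, 0; 0, 1])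
    (Q := !![a ^ 3, 0, 0, 0; 0, a ^ 2, 0, 0; 0, 0, a, 0; 0, 0, 0, 1])
    (Q' := !![(a ^ 3)⁻¹, 0, 0, 0; 0, (a ^ 2)⁻¹, 0, 0; 0, 0, a⁻¹, 0; 0, 0, 0, 1])
    (H := 1) (H' := 1) ?_ ?_ (Matrix.one_mul 1) (fun i => ?_) (fun i => ?_) hcl
  · ext x y
    fin_cases x <;> fin_cases y <;> simp [Matrix.mul_apply, Fin.sum_univ_two, ha]
  · ext x y
    fin_cases x <;> fin_cases y <;> simp [Matrix.mul_apply, Fin.sum_univ_four, ha]
  · ext x y
    rw [Fin.sum_univ_three]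
    fin_cases i <;> fin_cases x <;> fin_cases y <;>
      simp [Am, Matrix.mul_apply, Fin.sum_univ_four, Fin.sum_univ_two] <;> ring
  · ext x y
    rw [Fin.sum_univ_three, Matrix.one_mul]
    fin_cases i <;> fin_cases y <;>
      simp [Bm, ix, ga, Matrix.mul_apply, Fin.sum_univ_four] <;> ring

section jets

open Polynomial

/-- value and derivative at `0` -/
def Jt (p : k[X]) (a v : k) : Prop := p.coeff 0 = a ∧ p.coeff 1 = v

theorem jt_gB (d1 d2 d3 d4 d5 : k) (x : Fin 6 × Fin 2) :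
    Jt (gB (X * C d1) (X * C d2) (1 + X * C d3) (X * C d4) (X * C d5) x) (gB 0 0 1 0 0 x)
      (![![0, 0], ![0, 0], ![0, 0], ![0, d1], ![d2, d3], ![d4, d5]] x.1 x.2) := by
  obtain ⟨j, l⟩ := x
  fin_cases j <;> fin_cases l <;> simp [Jt, gB, coeff_one]

theorem jt_pow {p : k[X]} {b : k} (hp : Jt p 0 b) (n : ℕ) : Jt (p ^ (n + 2)) 0 0 := by
  constructor
  · rw [pow_succ, mul_coeff_zero, hp.1, mul_zero]
  · rw [pow_succ, mul_coeff_one, hp.1, mul_zero, add_zero, pow_succ, mul_coeff_zero, hp.1, mul_zero,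
      zero_mul]

theorem jt_pow' {p : k[X]} {b : k} (hp : Jt p 1 b) (n : ℕ) : Jt (p ^ n) 1 (n * b) := by
  induction n with
  | zero => constructor <;> simp [coeff_one]
  | succ n ih =>
    constructor
    · rw [pow_succ, mul_coeff_zero, ih.1, hp.1, mul_one]
    · rw [pow_succ, mul_coeff_one, ih.1, ih.2, hp.1, hp.2]
      push_cast
      ring

theorem jt_gb {p : k[X]} {b : k} (hp : Jt p 0 b) {g : Fin 6 × Fin 2 → k[X]}
    {A v : Fin 6 × Fin 2 → k} (h : ∀ x, Jt (g x) (A x) (v x)) (x : Fin 6 × Fin 2) :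
    Jt (gb p g x) (A x) (v x + b * ![5 * A (1, x.2), 4 * A (2, x.2), 3 * A (3, x.2),
      2 * A (4, x.2), A (5, x.2), 0] x.1) := by
  obtain ⟨j, l⟩ := x
  obtain ⟨e0, e1⟩ := jt_pow hp 0
  obtain ⟨e2, e3⟩ := jt_pow hp 1
  obtain ⟨e4, e5⟩ := jt_pow hp 2
  obtain ⟨e6, e7⟩ := jt_pow hp 3
  simp only [zero_add, Nat.reduceAdd] at e0 e1 e2 e3 e4 e5 e6 e7
  obtain ⟨h1, h2⟩ := forall_and.1 h
  obtain ⟨h3, h4⟩ := hp
  constructor
  · fin_cases j <;> simp [gb, mul_coeff_zero, h1, h3, e0, e2, e4, e6]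
  · fin_cases j <;> simp [gb, mul_coeff_one, h1, h2, h3, h4, e0, e1, e2, e3, e4, e5,
      e6, e7] <;> ring

theorem jt_gc {p : k[X]} {b : k} (hp : Jt p 0 b) {g : Fin 6 × Fin 2 → k[X]}
    {A v : Fin 6 × Fin 2 → k} (h : ∀ x, Jt (g x) (A x) (v x)) (x : Fin 6 × Fin 2) :
    Jt (gc p g x) (A x) (v x + b * ![0, A (0, x.2), 2 * A (1, x.2), 3 * A (2, x.2),
      4 * A (3, x.2), 5 * A (4, x.2)] x.1) := by
  obtain ⟨j, l⟩ := x
  obtain ⟨e0, e1⟩ := jt_pow hp 0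
  obtain ⟨e2, e3⟩ := jt_pow hp 1
  obtain ⟨e4, e5⟩ := jt_pow hp 2
  obtain ⟨e6, e7⟩ := jt_pow hp 3
  simp only [zero_add, Nat.reduceAdd] at e0 e1 e2 e3 e4 e5 e6 e7
  obtain ⟨h1, h2⟩ := forall_and.1 h
  obtain ⟨h3, h4⟩ := hp
  constructor
  · fin_cases j <;> simp [gc, mul_coeff_zero, h1, h3, e0, e2, e4, e6]
  · fin_cases j <;> simp [gc, mul_coeff_one, h1, h2, h3, h4, e0, e1, e2, e3, e4, e5,
      e6, e7] <;> ring

theorem jt_ga {p : k[X]} {b : k} (hp : Jt p 1 b) {g : Fin 6 × Fin 2 → k[X]}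
    {A v : Fin 6 × Fin 2 → k} (h : ∀ x, Jt (g x) (A x) (v x)) (x : Fin 6 × Fin 2) :
    Jt (ga p g x) (A x) (v x + b * ![5 * A (0, x.2), 4 * A (1, x.2), 3 * A (2, x.2),
      2 * A (3, x.2), A (4, x.2), 0] x.1) := by
  obtain ⟨j, l⟩ := x
  obtain ⟨e0, e1⟩ := jt_pow' hp 2
  obtain ⟨e2, e3⟩ := jt_pow' hp 3
  obtain ⟨e4, e5⟩ := jt_pow' hp 4
  obtain ⟨e6, e7⟩ := jt_pow' hp 5
  obtain ⟨h1, h2⟩ := forall_and.1 h
  obtain ⟨h3, h4⟩ := hp
  constructor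
  · fin_cases j <;> simp [ga, mul_coeff_zero, h1, h3, e0, e2, e4, e6]
  · fin_cases j <;> simp [ga, mul_coeff_one, h1, h2, h3, h4, e0, e1, e2, e3, e4, e5,
      e6, e7] <;> ring

theorem jt_gH {a b c d : k} {g : Fin 6 × Fin 2 → k[X]} {A v : Fin 6 × Fin 2 → k}
    (h : ∀ x, Jt (g x) (A x) (v x)) (x : Fin 6 × Fin 2) :
    Jt (gH (1 + X * C a) (X * C b) (X * C c) (1 + X * C d) g x) (A x)
      (v x + ![a * A (x.1, 0) + b * A (x.1, 1), c * A (x.1, 0) + d * A (x.1, 1)] x.2) := by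
  obtain ⟨j, l⟩ := x
  obtain ⟨h1, h2⟩ := forall_and.1 h
  constructor
  · fin_cases l <;> simp [gH, mul_coeff_zero, h1]
  · fin_cases l <;> simp [gH, mul_coeff_zero, mul_coeff_one, h1, h2, coeff_one] <;> ring

theorem eval_gB (p1 p2 p3 p4 p5 : k[X]) (s : k) (x : Fin 6 × Fin 2) :
    (gB p1 p2 p3 p4 p5 x).eval s = gB (p1.eval s) (p2.eval s) (p3.eval s) (p4.eval s) (p5.eval s) x := by
  obtain ⟨j, l⟩ := x
  fin_cases j <;> fin_cases l <;> simp [gB]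

theorem eval_gb (p : k[X]) (g : Fin 6 × Fin 2 → k[X]) (s : k) (x : Fin 6 × Fin 2) :
    (gb p g x).eval s = gb (p.eval s) (fun y => (g y).eval s) x := by
  obtain ⟨j, l⟩ := x
  fin_cases j <;> simp [gb]

theorem eval_gc (p : k[X]) (g : Fin 6 × Fin 2 → k[X]) (s : k) (x : Fin 6 × Fin 2) :
    (gc p g x).eval s = gc (p.eval s) (fun y => (g y).eval s) x := by
  obtain ⟨j, l⟩ := x
  fin_cases j <;> simp [gc]

theorem eval_ga (p : k[X]) (g : Fin 6 × Fin 2 → k[X]) (s : k) (x : Fin 6 × Fin 2) :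
    (ga p g x).eval s = ga (p.eval s) (fun y => (g y).eval s) x := by
  obtain ⟨j, l⟩ := x
  fin_cases j <;> simp [ga]

theorem eval_gH (a b c d : k[X]) (g : Fin 6 × Fin 2 → k[X]) (s : k) (x : Fin 6 × Fin 2) :
    (gH a b c d g x).eval s = gH (a.eval s) (b.eval s) (c.eval s) (d.eval s)
      (fun y => (g y).eval s) x := by
  obtain ⟨j, l⟩ := x
  fin_cases l <;> simp [gH]

end jets

section curve

open Polynomial

theorem curve_of_poly {ι : Type*} {S : Set (ι → k)} {A v : ι → k} (r : ι → k[X])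
    (h : ∀ x, Jt (r x) (A x) (v x)) (hS : {s : k | (fun x => (r x).eval s) ∈ S}.Infinite) :
    ∃ u : ι → k[X], (∀ x, (u x).eval 0 = v x) ∧
      {s : k | (fun x => A x + s * (u x).eval s) ∈ S}.Infinite := by
  refine ⟨fun x => (r x).divX, fun x => ?_, hS.mono fun s hs => ?_⟩
  · rw [← coeff_zero_eq_eval_zero, coeff_divX, (h x).2]
  · have h1 : (fun x => A x + s * ((r x).divX).eval s) = fun x => (r x).eval s := by
      funext x
      conv_rhs => rw [← divX_mul_X_add (r x)]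
      rw [eval_add, eval_mul, eval_X, eval_C, (h x).1]
      ring
    show (fun x => A x + s * ((r x).divX).eval s) ∈ S
    rw [h1]
    exact hs

theorem curve [CharZero k] (v : Fin 6 × Fin 2 → k) : ∃ u : Fin 6 × Fin 2 → k[X],
    (∀ x, (u x).eval 0 = v x) ∧
      {s : k | (fun x => gB 0 0 1 0 0 x + s * (u x).eval s) ∈
        {g : Fin 6 × Fin 2 → k | Cl (TG g)}}.Infinite := by
  have hinf : Infinite k := inferInstance
  obtain ⟨be, hbe⟩ : ∃ be : k, be = v (2, 0) / 3 := ⟨_, rfl⟩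
  obtain ⟨ce, hce⟩ : ∃ ce : k, ce = v (2, 1) / 2 := ⟨_, rfl⟩
  obtain ⟨al, hal⟩ : ∃ al : k, al = (v (0, 0) - v (3, 0)) / 3 := ⟨_, rfl⟩
  obtain ⟨h10, hh10⟩ : ∃ x : k, x = v (0, 1) - 5 * be := ⟨_, rfl⟩
  obtain ⟨h01, hh01⟩ : ∃ x : k, x = v (1, 0) - ce := ⟨_, rfl⟩
  obtain ⟨h00, hh00⟩ : ∃ x : k, x = v (0, 0) - 5 * al := ⟨_, rfl⟩
  obtain ⟨h11, hh11⟩ : ∃ x : k, x = v (1, 1) - 4 * al := ⟨_, rfl⟩
  obtain ⟨d1, hd1⟩ : ∃ x : k, x = v (3, 1) - h10 - 2 * be := ⟨_, rfl⟩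
  obtain ⟨d2, hd2⟩ : ∃ x : k, x = v (4, 0) - h01 - 4 * ce := ⟨_, rfl⟩
  obtain ⟨d3, hd3⟩ : ∃ x : k, x = v (4, 1) - h11 - al := ⟨_, rfl⟩
  obtain ⟨d4, hd4⟩ : ∃ x : k, x = v (5, 0) := ⟨_, rfl⟩
  obtain ⟨d5, hd5⟩ : ∃ x : k, x = v (5, 1) - 5 * ce := ⟨_, rfl⟩
  have hX : ∀ b : k, Jt (X * C b) 0 b := fun b => by constructor <;> simp
  have hX' : ∀ b : k, Jt (1 + X * C b) 1 b := fun b => by constructor <;> simp [coeff_one]
  have hj := jt_gH (a := h00) (b := h01) (c := h10) (d := h11)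
    (jt_ga (hX' al) (jt_gc (hX ce) (jt_gb (hX be) (jt_gB d1 d2 d3 d4 d5))))
  obtain ⟨r, hr⟩ : ∃ r : Fin 6 × Fin 2 → k[X], r =
      gH (1 + X * C h00) (X * C h01) (X * C h10) (1 + X * C h11)
      (ga (1 + X * C al) (gc (X * C ce) (gb (X * C be)
        (gB (X * C d1) (X * C d2) (1 + X * C d3) (X * C d4) (X * C d5))))) := ⟨_, rfl⟩
  rw [← hr] at hj
  have hev : ∀ s : k, (fun x => (r x).eval s) =
      gH (1 + s * h00) (s * h01) (s * h10) (1 + s * h11)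
      (ga (1 + s * al) (gc (s * ce) (gb (s * be)
        (gB (s * d1) (s * d2) (1 + s * d3) (s * d4) (s * d5))))) := by
    intro s
    funext x
    rw [hr, eval_gH]
    simp only [eval_ga]
    simp only [eval_gc]
    simp only [eval_gb]
    simp only [eval_gB, eval_add, eval_mul, eval_X, eval_C, eval_one]
  refine curve_of_poly (v := v) r (fun x => ?_) ?_
  · have h1 := hj x
    refine ⟨h1.1, h1.2.trans ?_⟩
    obtain ⟨j, l⟩ := x
    have e3 : 3 * be = v (2, 0) := by rw [hbe]; field_simp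
    have e2 : 2 * ce = v (2, 1) := by rw [hce]; field_simp
    have e1 : 3 * al = v (0, 0) - v (3, 0) := by rw [hal]; field_simp
    fin_cases j <;> fin_cases l <;>
      simp [gB, hd1, hd2, hd3, hd4, hd5, hh10, hh01, hh00, hh11] <;>
      first | ring1 | linear_combination e3 | linear_combination e2 | linear_combination -e1
  · have hf1 : {s : k | 1 + s * al = 0}.Finite :=
      ((D7.IsPoly.const 1).add (D7.IsPoly.id.mul (D7.IsPoly.const al))).finite (s₁ := 0) (by simp)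
    have hf2 : {s : k | (1 + s * h00) * (1 + s * h11) - (s * h01) * (s * h10) = 0}.Finite :=
      ((((D7.IsPoly.const 1).add (D7.IsPoly.id.mul (D7.IsPoly.const h00))).mul
        ((D7.IsPoly.const 1).add (D7.IsPoly.id.mul (D7.IsPoly.const h11)))).sub
        ((D7.IsPoly.id.mul (D7.IsPoly.const h01)).mul
          (D7.IsPoly.id.mul (D7.IsPoly.const h10)))).finite (s₁ := 0) (by simp)
    refine (hf1.union hf2).infinite_compl.mono fun s hs => ?_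
    simp only [Set.mem_compl_iff, Set.mem_union, Set.mem_ofPred_eq, not_or] at hs
    obtain ⟨hs1, hs2⟩ := hs
    have h1 := cl_gH hs2 (cl_ga hs1 (cl_gc (s * ce) (cl_gb (s * be)
      ((cl_iff _).1 (cl_TG0 (s * d1) (s * d2) (1 + s * d3) (s * d4) (s * d5))))))
    rw [← hev s] at h1
    exact (cl_iff _).2 h1

end curve

/-- polynomial functions of several variables -/
def IsP {ι : Type*} (f : (ι → k) → k) : Prop := ∃ p : MvPolynomial ι k, ∀ r, f r = MvPolynomial.eval r p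

theorem IsP.const {ι : Type*} (a : k) : IsP fun _ : ι → k => a :=
  ⟨MvPolynomial.C a, fun r => by rw [MvPolynomial.eval_C]⟩

theorem IsP.var {ι : Type*} (x : ι) : IsP fun r : ι → k => r x :=
  ⟨MvPolynomial.X x, fun r => by rw [MvPolynomial.eval_X]⟩

theorem isP_TG (z : Fin 3 × Fin 8 × Fin 8) :
    IsP fun r : Fin 6 × Fin 2 → k => TG r z.1 z.2.1 z.2.2 := by
  obtain ⟨i, x, y⟩ := z
  fin_cases i <;> fin_cases x <;> fin_cases y <;>
    first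
      | exact IsP.const 0
      | exact IsP.const 1
      | exact IsP.var (0, 0)
      | exact IsP.var (0, 1)
      | exact IsP.var (1, 0)
      | exact IsP.var (1, 1)
      | exact IsP.var (2, 0)
      | exact IsP.var (2, 1)
      | exact IsP.var (3, 0)
      | exact IsP.var (3, 1)
      | exact IsP.var (4, 0)
      | exact IsP.var (4, 1)
      | exact IsP.var (5, 0)
      | exact IsP.var (5, 1)

end TGclAux

open TGclAux MvPolynomial in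
/-- all triples `TG g` are limits of curvilinear triples -/
theorem cl_TG [IsAlgClosed k] [CharZero k] (g : Fin 6 × Fin 2 → k) : Cl (TG g) := by
  have hinf : Infinite k := inferInstance
  intro F hF
  choose p hp using isP_TG (k := k)
  have hev : ∀ r : Fin 6 × Fin 2 → k, eval r (aeval p F) = eval (co (TG r)) F := by
    intro r
    have h1 : ((aeval r : MvPolynomial (Fin 6 × Fin 2) k →ₐ[k] k).comp (aeval p)) =
        (aeval (co (TG r)) : MvPolynomial (Fin 3 × Fin 8 × Fin 8) k →ₐ[k] k) := by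
      apply MvPolynomial.algHom_ext
      intro z
      simp only [AlgHom.comp_apply, aeval_X]
      exact (hp z r).symm
    exact congrArg (fun f => f F) h1
  have h0 : aeval p F = 0 := by
    refine eq_zero_of_curves {r : Fin 6 × Fin 2 → k | Cl (TG r)} (gB 0 0 1 0 0) curve _ ?_
    intro r hr
    rw [hev]
    exact hr F hF
  rw [← hev, h0, map_zero]

end Pool.Agent.Lib.D8
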