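import Pool.Agent.Lib.D8.TwoE
import Pool.Agent.Lib.D8.Defs

/-!
# MP_5dcbc3_ag: commuting nilpotent triples containing a matrix with (at most) two Jordan blocks
are limits of curvilinear triples; all sizes
-/

namespace Pool.Agent.Lib.D8

open Matrix Polynomial Pool.Agent.Lib.Q5dc Pool.Agent.Lib.D7

variable {k : Type*} [Field k] {N : ℕ}

/-- the Jordan matrix with one block on the first `a` basis vectors, the other one on the rest -/
theorem twoB_mk (A : Matrix (Fin N) (Fin N) k) {b δ : ℕ} (hb : 1 ≤ b) (hN : N = (b + δ) + b)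
    (hA : ∀ i j : Fin N, A i j = if (i : ℕ) = j + 1 ∧ (i : ℕ) ≠ b + δ then 1 else 0) :
    Two.TwoB A (Pi.single ⟨0, by omega⟩ 1) (Pi.single ⟨b + δ, by omega⟩ 1) b δ := by
  have hcol : ∀ j : Fin N, A *ᵥ Pi.single j 1 = fun i => A i j := by
    intro j
    exact Matrix.mulVec_single_one A j
  have hstep : ∀ (j : ℕ) (hj : j + 1 < N), j + 1 ≠ b + δ →
      A *ᵥ (Pi.single (⟨j, by omega⟩ : Fin N) (1 : k)) = Pi.single (⟨j + 1, hj⟩ : Fin N) 1 := by
    intro j hj hne
    rw [hcol]
    funext i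
    rw [hA, Pi.single_apply]
    have h1 : ((i : ℕ) = ((⟨j, by omega⟩ : Fin N) : ℕ) + 1 ∧ (i : ℕ) ≠ b + δ) ↔
        i = ⟨j + 1, hj⟩ := by
      constructor
      · rintro ⟨h1, -⟩
        exact Fin.ext h1
      · rintro rfl
        exact ⟨rfl, hne⟩
    simp only [h1]
  have hend : ∀ (j : ℕ) (hj : j < N), (j + 1 = b + δ ∨ j + 1 = N) →
      A *ᵥ (Pi.single (⟨j, hj⟩ : Fin N) (1 : k)) = 0 := by
    intro j hj h
    rw [hcol]
    funext i
    rw [hA, if_neg]
    · rfl
    · rintro ⟨h1, h2⟩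
      have h3 : (i : ℕ) = j + 1 := h1
      have := i.isLt
      rcases h with h | h <;> omega
  have hpow1 : ∀ j : ℕ, (hj : j < b + δ) →
      A ^ j *ᵥ (Pi.single (⟨0, by omega⟩ : Fin N) (1 : k)) = Pi.single ⟨j, by omega⟩ 1 := by
    intro j
    induction j with
    | zero => intro _; rw [pow_zero, Matrix.one_mulVec]
    | succ j ih =>
      intro hj
      rw [pow_succ', ← Matrix.mulVec_mulVec, ih (by omega), hstep j (by omega) (by omega)]
  have hpow2 : ∀ j : ℕ, (hj : j < b) →
      A ^ j *ᵥ (Pi.single (⟨b + δ, by omega⟩ : Fin N) (1 : k)) =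
        Pi.single ⟨b + δ + j, by omega⟩ 1 := by
    intro j
    induction j with
    | zero => intro _; rw [pow_zero, Matrix.one_mulVec]; rfl
    | succ j ih =>
      intro hj
      rw [pow_succ', ← Matrix.mulVec_mulVec, ih (by omega), hstep (b + δ + j) (by omega) (by omega)]
      rfl
  refine ⟨hb, hN, ?_, ?_, ?_⟩
  · have h1 := hpow1 (b + δ - 1) (by omega)
    have h2 : b + δ = (b + δ - 1) + 1 := by omega
    rw [h2, pow_succ', ← Matrix.mulVec_mulVec, h1]
    exact hend _ _ (Or.inl (by omega))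
  · have h1 := hpow2 (b - 1) (by omega)
    have h2 : A ^ b = A * A ^ (b - 1) := by
      rw [← pow_succ']
      congr 1
      omega
    rw [h2, ← Matrix.mulVec_mulVec, h1]
    exact hend _ _ (Or.inr (by omega))
  · intro w
    -- the representable vectors form a subspace
    let S : Submodule k (Fin N → k) :=
      { carrier := {w | ∃ z, w = Two.pi A (Pi.single (⟨0, by omega⟩ : Fin N) (1 : k))
          (Pi.single (⟨b + δ, by omega⟩ : Fin N) (1 : k)) z}
        zero_mem' := ⟨0, Two.pi_zero.symm⟩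
        add_mem' := by
          rintro _ _ ⟨z, rfl⟩ ⟨z', rfl⟩
          exact ⟨z + z', (Two.pi_add z z').symm⟩
        smul_mem' := by
          rintro r _ ⟨z, rfl⟩
          exact ⟨r • z, (Two.pi_csmul r z).symm⟩ }
    have hsingle : ∀ i : Fin N, Pi.single i (1 : k) ∈ S := by
      intro i
      rcases Nat.lt_or_ge (i : ℕ) (b + δ) with h1 | h1
      · refine ⟨![X ^ (i : ℕ), 0], ?_⟩
        have h2 := hpow1 i h1
        simp only [Two.pi, Matrix.cons_val_zero, Matrix.cons_val_one, map_pow, aeval_X, map_zero,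
          Matrix.zero_mulVec, add_zero]
        rw [h2]
      · refine ⟨![0, X ^ ((i : ℕ) - (b + δ))], ?_⟩
        have h2 := hpow2 ((i : ℕ) - (b + δ)) (by have := i.isLt; omega)
        simp only [Two.pi, Matrix.cons_val_zero, Matrix.cons_val_one, map_pow, aeval_X, map_zero,
          Matrix.zero_mulVec, zero_add]
        rw [h2]
        congr 1
        exact Fin.ext (by show (i : ℕ) = b + δ + ((i : ℕ) - (b + δ)); omega)
    have h3 : w = ∑ i, w i • (Pi.single i (1 : k) : Fin N → k) := by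
      funext j
      rw [Finset.sum_apply, Finset.sum_eq_single j]
      · simp
      · intro i _ hij
        simp [Ne.symm hij]
      · intro h; exact absurd (Finset.mem_univ j) h
    have h4 : w ∈ S := by
      rw [h3]
      exact Submodule.sum_mem _ fun i _ => Submodule.smul_mem _ _ (hsingle i)
    exact h4

/-- commuting nilpotent triples whose first matrix is a Jordan matrix with two blocks -/
theorem cl_twoJ [IsAlgClosed k] [CharZero k] {T : Fin 3 → Matrix (Fin N) (Fin N) k} (hT : CN T)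
    {b δ : ℕ} (hb : 1 ≤ b) (hN : N = (b + δ) + b)
    (hA : ∀ i j : Fin N, T 0 i j = if (i : ℕ) = j + 1 ∧ (i : ℕ) ≠ b + δ then 1 else 0) :
    Cl T := by
  have h := twoB_mk (T 0) hb hN hA
  have h1 := Two.cl_two h (hT.1 0 1) (hT.1 0 2) (hT.1 1 2) (hT.2 1) (hT.2 2)
  have h2 : ![T 0, T 1, T 2] = T := by
    funext i
    fin_cases i <;> rfl
  rwa [h2] at h1

/-- no maximal bad triple has a first matrix with two Jordan blocks, all sizes -/
theorem no_two [IsAlgClosed k] [CharZero k] {ρ : ℕ → ℕ} {T : Fin 3 → Matrix (Fin N) (Fin N) k}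
    (hT : MaxR ρ T) {b δ : ℕ} (hb : 1 ≤ b) (hN : N = (b + δ) + b)
    (hA : ∀ i j : Fin N, T 0 i j = if (i : ℕ) = j + 1 ∧ (i : ℕ) ≠ b + δ then 1 else 0) : False :=
  hT.ncl (cl_twoJ hT.cn hb hN hA)

theorem no_71 [IsAlgClosed k] [CharZero k] {ρ : ℕ → ℕ} {T : Fin 3 → Matrix (Fin 8) (Fin 8) k}
    (hT : MaxR ρ T) (h0 : T 0 = J71 k) : False := by
  refine no_two hT (b := 1) (δ := 6) (by norm_num) (by norm_num) fun i j => ?_
  rw [h0]
  fin_cases i <;> fin_cases j <;> simp [J71]

theorem no_62 [IsAlgClosed k] [CharZero k] {ρ : ℕ → ℕ} {T : Fin 3 → Matrix (Fin 8) (Fin 8) k}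
    (hT : MaxR ρ T) (h0 : T 0 = J62 k) : False := by
  refine no_two hT (b := 2) (δ := 4) (by norm_num) (by norm_num) fun i j => ?_
  rw [h0]
  fin_cases i <;> fin_cases j <;> simp [J62]

theorem no_53 [IsAlgClosed k] [CharZero k] {ρ : ℕ → ℕ} {T : Fin 3 → Matrix (Fin 8) (Fin 8) k}
    (hT : MaxR ρ T) (h0 : T 0 = J53 k) : False := by
  refine no_two hT (b := 3) (δ := 2) (by norm_num) (by norm_num) fun i j => ?_
  rw [h0]
  fin_cases i <;> fin_cases j <;> simp [J53]

theorem no_44 [IsAlgClosed k] [CharZero k] {ρ : ℕ → ℕ} {T : Fin 3 → Matrix (Fin 8) (Fin 8) k}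
    (hT : MaxR ρ T) (h0 : T 0 = J44 k) : False := by
  refine no_two hT (b := 4) (δ := 0) (by norm_num) (by norm_num) fun i j => ?_
  rw [h0]
  fin_cases i <;> fin_cases j <;> simp [J44]

end Pool.Agent.Lib.D8
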