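import Pool.Agent.Lib.D7.FinS
import Pool.Agent.Lib.D8.Jordan8
import Pool.Agent.Lib.D8.Two
import Pool.Agent.Lib.D8.Ta21
import Pool.Agent.Lib.D8.T431a
import Pool.Agent.Lib.D8.T422a
import Pool.Agent.Lib.D8.T4211
import Pool.Agent.Lib.D8.T332
import Pool.Agent.Lib.D8.T3311
import Pool.Agent.Lib.D8.T3221
import Pool.Agent.Lib.D8.T32111
import Pool.Agent.Lib.D8.TGcl
import Pool.Agent.Lib.D8.T143gcl

/-!
# All commuting nilpotent triples of matrices of size at most 8 are limits of curvilinear ones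
-/

namespace Pool.Agent.Lib.D8

open Matrix Pool.Agent.Lib.Q5dc Pool.Agent.Lib.D7

universe u

variable {k : Type u} [Field k] [IsAlgClosed k] [CharZero k]

theorem all_cl8 {T : Fin 3 → Matrix (Fin 8) (Fin 8) k} (hT : CN T) : Cl T := by
  have : Infinite k := IsAlgClosed.instInfinite
  by_contra hncl
  obtain ⟨T', hT'⟩ := exists_maxR hT hncl
  rcases jordan8 (T' 0) (hT'.cn.2 0) with h | h | ⟨g, h', hg, hh, hJ⟩
  · refine hT'.cl_of_sq (n := 7) ?_
    show (T' 0 ^ 2).rank = 0
    rw [h, Matrix.rank_zero]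
  · exact hT'.ncl (cl_of_pow (by norm_num) hT'.cn (mem_adj _ 0) h)
  · have hM := hT'.conj g h' hg hh
    have hρ : ∀ i, (T' 0 ^ i).rank = ((g * T' 0 * h') ^ i).rank := by
      intro i
      rw [conj_pow' g h' hg hh, rank_conj g h' hg hh]
    rcases hJ with hJ | hJ | hJ | hJ | hJ | hJ | hJ | hJ | hJ | hJ | hJ | hJ | hJ | hJ | hJ | hJ
    · exact no_71 hM hJ
    · exact no_62 hM hJ
    · exact no_hookN (N := 8) (a := 6) (by norm_num) (by norm_num) hM
        (fun i => by rw [← hJ]; exact hρ i) hJ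
    · exact no_53 hM hJ
    · exact no_521 hM hJ
    · exact no_hookN (N := 8) (a := 5) (by norm_num) (by norm_num) hM
        (fun i => by rw [← hJ]; exact hρ i) hJ
    · exact no_44 hM hJ
    · exact no_431 hM (fun i => by rw [← hJ]; exact hρ i) hJ
    · exact no_422 hM (fun i => by rw [← hJ]; exact hρ i) hJ
    · exact no_4211 hM (fun i => by rw [← hJ]; exact hρ i) hJ
    · exact no_hookN (N := 8) (a := 4) (by norm_num) (by norm_num) hM
        (fun i => by rw [← hJ]; exact hρ i) hJ
    · exact no_332 hM (fun i => by rw [← hJ]; exact hρ i) hJ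
    · exact no_3311 (fun G => cl_TG G) hM (fun i => by rw [← hJ]; exact hρ i) hJ
    · exact no_3221 (fun r g => cl_T143g r g) hM (fun i => by rw [← hJ]; exact hρ i) hJ
    · exact no_32111 hM (fun i => by rw [← hJ]; exact hρ i) hJ
    · exact no_hookN (N := 8) (a := 3) (by norm_num) (by norm_num) hM
        (fun i => by rw [← hJ]; exact hρ i) hJ

/-- every commuting nilpotent triple of `d x d` matrices with `d ≤ 8` is a limit of curvilinear
triples -/
theorem all_cl_le8 {d : ℕ} (hd : 0 < d) (hd' : d ≤ 8) {T : Fin 3 → Matrix (Fin d) (Fin d) k}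
    (hT : CN T) : Cl T := by
  rcases Nat.lt_or_ge 7 d with h | h
  · obtain rfl : d = 8 := by omega
    exact all_cl8 hT
  · exact all_cl_le hd h hT

/-- the curvilinear locus is dense in the punctual Quot scheme for `d ≤ 8` -/
theorem closure_curv_le8 {r d : ℕ} (hr : 0 < r) (hd : 0 < d) (hd' : d ≤ 8) :
    closure (TSQ.Curv k r d) = Set.univ := by
  have : Infinite k := IsAlgClosed.instInfinite
  exact TSQ.closure_univ_of_cl hr hd fun A hA hA' => all_cl_le8 hd hd' ⟨hA, hA'⟩

/-- the punctual Quot scheme is irreducible for `d ≤ 8` -/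
theorem irreducible_le8 {r d : ℕ} (hr : 0 < r) (hd : 0 < d) (hd' : d ≤ 8) :
    IsIrreducible (Set.univ : Set (TSQ.PQuot k r d)) := by
  have : Infinite k := IsAlgClosed.instInfinite
  exact TSQ.irreducible_of_cl hr hd fun A hA hA' => all_cl_le8 hd hd' ⟨hA, hA'⟩

end Pool.Agent.Lib.D8
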