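import Pool.Agent.Lib.D8.UtilB8

/-!
# MP_5dcbc3_ag: the raise lemma for cyclic triples with Hilbert function (1, 3, 4)

`w := u1 - η v2`, `γ` the functional on `<v2, u1, w1, p>` with values `(1, η, ζ, r)`, `γ(w) = 0`,
`K = w ⊗ γ`: the family `(J + s K, B + s η K, C + s ζ K)` commutes, and `(J + s K)^3 v0 = s w`.
-/

namespace Pool.Agent.Lib.D8

open Matrix Pool.Agent.Lib.Q5dc Pool.Agent.Lib.D7

namespace R134Aux

variable {k : Type*} [Field k]

/-- the matrix of rank one -/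
def K (η ζ r : k) : Matrix (Fin 8) (Fin 8) k :=
  !![0, 0, 0, 0, 0, 0, 0, 0;
     0, 0, 0, 0, 0, 0, 0, 0;
     0, 0, -η, 0, -(η * η), 0, -(η * ζ), -(η * r);
     0, 0, 0, 0, 0, 0, 0, 0;
     0, 0, 1, 0, η, 0, ζ, r;
     0, 0, 0, 0, 0, 0, 0, 0;
     0, 0, 0, 0, 0, 0, 0, 0;
     0, 0, 0, 0, 0, 0, 0, 0]

/-- what `K B`, `K C`, `K J` are multiples of: `v1 -> w`, `u0 -> η w`, `w0 -> ζ w` -/
def L (η ζ : k) : Matrix (Fin 8) (Fin 8) k :=
  !![0, 0, 0, 0, 0, 0, 0, 0;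
     0, 0, 0, 0, 0, 0, 0, 0;
     0, -η, 0, -(η * η), 0, -(η * ζ), 0, 0;
     0, 0, 0, 0, 0, 0, 0, 0;
     0, 1, 0, η, 0, ζ, 0, 0;
     0, 0, 0, 0, 0, 0, 0, 0;
     0, 0, 0, 0, 0, 0, 0, 0;
     0, 0, 0, 0, 0, 0, 0, 0]

theorem KK (η ζ r : k) : K η ζ r * K η ζ r = 0 := by
  ext i j
  fin_cases i <;> fin_cases j <;> simp [K, Matrix.mul_apply, Fin.sum_univ_eight] <;> ring

theorem JK (η ζ r : k) : J3221 k * K η ζ r = 0 := by
  ext i j
  fin_cases i <;> fin_cases j <;> simp [K, J3221, Matrix.mul_apply, Fin.sum_univ_eight]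

theorem BK (η ζ r : k) (a : Fin 2 → k) (d p : Fin 2 → k) (N : Matrix (Fin 2) (Fin 2) k) :
    B3221 a 0 0 0 d N p 0 0 * K η ζ r = 0 := by
  ext i j
  fin_cases i <;> fin_cases j <;> simp [K, B3221, Matrix.mul_apply, Fin.sum_univ_eight]

theorem KJ (η ζ r : k) : K η ζ r * J3221 k = L η ζ := by
  ext i j
  fin_cases i <;> fin_cases j <;> simp [K, L, J3221, Matrix.mul_apply, Fin.sum_univ_eight]

theorem KB {η ζ r : k} {d p : Fin 2 → k} {N : Matrix (Fin 2) (Fin 2) k}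
    (e1 : η ^ 2 = d 0 + N 0 0 * η + N 1 0 * ζ + p 0 * r)
    (e2 : η * ζ = d 1 + N 0 1 * η + N 1 1 * ζ + p 1 * r) :
    K η ζ r * B3221 ![1, 0] 0 0 0 d N p 0 0 = η • L η ζ := by
  ext i j
  fin_cases i <;> fin_cases j <;>
    simp [K, L, B3221, Matrix.mul_apply, Fin.sum_univ_eight]
  · linear_combination η * e1
  · linear_combination η * e2
  · linear_combination - e1
  · linear_combination - e2

theorem KC {η ζ r : k} {d p : Fin 2 → k} {N : Matrix (Fin 2) (Fin 2) k}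
    (e2 : η * ζ = d 0 + N 0 0 * η + N 1 0 * ζ + p 0 * r)
    (e3 : ζ ^ 2 = d 1 + N 0 1 * η + N 1 1 * ζ + p 1 * r) :
    K η ζ r * B3221 ![0, 1] 0 0 0 d N p 0 0 = ζ • L η ζ := by
  ext i j
  fin_cases i <;> fin_cases j <;>
    simp [K, L, B3221, Matrix.mul_apply, Fin.sum_univ_eight]
  · ring
  · linear_combination η * e2
  · linear_combination η * e3
  · linear_combination - e2
  · linear_combination - e3

theorem nil_add {T M : Matrix (Fin 8) (Fin 8) k} (hT : IsNilpotent T) (h1 : T * M = 0)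
    (h2 : M * M = 0) (s : k) : IsNilpotent (T + s • M) := by
  have h : ∀ n : ℕ, (T + s • M) ^ (n + 1) = T ^ (n + 1) + s • (M * T ^ n) := by
    intro n
    induction n with
    | zero => simp
    | succ n ih =>
      rw [pow_succ' (T + s • M) (n + 1), ih, add_mul, mul_add, mul_add, ← pow_succ',
        mul_smul_comm, ← mul_assoc T M, h1, zero_mul, smul_zero, add_zero, smul_mul_assoc,
        smul_mul_assoc, mul_smul_comm, ← mul_assoc M M, h2, zero_mul, smul_zero, smul_zero,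
        add_zero]
  obtain ⟨n, hn⟩ := hT
  refine ⟨n + 1, ?_⟩
  rw [h, pow_succ, hn]
  simp

end R134Aux

open R134Aux

theorem no_134R {k : Type*} [Field k] [CharZero k] {ρ : ℕ → ℕ} (h3 : ρ 3 = 0)
    {d d' p p' : Fin 2 → k} {N N' : Matrix (Fin 2) (Fin 2) k} {η ζ r : k}
    (hT : MaxR ρ ![J3221 k, B3221 ![1, 0] 0 0 0 d N p 0 0, B3221 ![0, 1] 0 0 0 d' N' p' 0 0])
    (e1 : η ^ 2 = d 0 + N 0 0 * η + N 1 0 * ζ + p 0 * r)
    (e2 : η * ζ = d 1 + N 0 1 * η + N 1 1 * ζ + p 1 * r)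
    (e3 : ζ ^ 2 = d' 1 + N' 0 1 * η + N' 1 1 * ζ + p' 1 * r) : False := by
  have hBC : B3221 ![1, 0] 0 0 0 d N p 0 0 * B3221 ![0, 1] 0 0 0 d' N' p' 0 0 =
      B3221 ![0, 1] 0 0 0 d' N' p' 0 0 * B3221 ![1, 0] 0 0 0 d N p 0 0 := hT.cn.1 1 2
  have hr := (B3221_comm _ _ _ _ _ _ _ _ _ _ _ _ _ _ _ _ _ _).1 hBC
  obtain ⟨-, r2, r3, r4, -, -, -⟩ := hr
  have q2 : d 1 = d' 0 := by
    have := r2
    simpa [dotProduct, Fin.sum_univ_two] using this
  have q3 : N 0 1 = N' 0 0 := by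
    have := congrFun r3 0
    simpa [mulVec, dotProduct, Fin.sum_univ_two] using this
  have q4 : N 1 1 = N' 1 0 := by
    have := congrFun r3 1
    simpa [mulVec, dotProduct, Fin.sum_univ_two] using this
  have q5 : p 1 = p' 0 := by
    simpa [dotProduct, Fin.sum_univ_two] using r4
  have e2' : η * ζ = d' 0 + N' 0 0 * η + N' 1 0 * ζ + p' 0 * r := by
    rw [← q2, ← q3, ← q4, ← q5]
    exact e2
  have kj := KJ η ζ r
  have kb := KB e1 e2
  have kc := KC e2' e3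
  have jk := JK η ζ r
  have bk := BK η ζ r ![1, 0] d p N
  have ck := BK η ζ r ![0, 1] d' p' N'
  have kk := KK η ζ r
  have hJB := J3221_comm ![1, 0] 0 0 0 d N p 0 0
  have hJC := J3221_comm ![0, 1] 0 0 0 d' N' p' 0 0
  have nJ : IsNilpotent (J3221 k) := J3221_nil
  have nB : IsNilpotent (B3221 ![1, 0] 0 0 0 d N p 0 0) := B3221_nil _ _ _ _ _ _ _ _ _
  have nC : IsNilpotent (B3221 ![0, 1] 0 0 0 d' N' p' 0 0) := B3221_nil _ _ _ _ _ _ _ _ _
  generalize hBe : B3221 ![1, 0] 0 0 0 d N p 0 0 = B at *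
  generalize hCe : B3221 ![0, 1] 0 0 0 d' N' p' 0 0 = C at *
  have com : ∀ (X Y : Matrix (Fin 8) (Fin 8) k) (x y s : k), X * Y = Y * X →
      X * K η ζ r = 0 → Y * K η ζ r = 0 → K η ζ r * X = x • L η ζ → K η ζ r * Y = y • L η ζ →
      (X + s • x • K η ζ r) * (Y + s • y • K η ζ r) =
        (Y + s • y • K η ζ r) * (X + s • x • K η ζ r) := by
    intro X Y x y s h h1 h2 h3 h4
    simp only [add_mul, mul_add, smul_mul_assoc, mul_smul_comm, h1, h2, h3, h4, kk, smul_zero,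
      add_zero, h]
    congr 1
    simp only [smul_smul]
    congr 1
    ring
  have hcn : ∀ s : k, CN ![J3221 k + s • K η ζ r, B + s • η • K η ζ r, C + s • ζ • K η ζ r] := by
    intro s
    have kj' : K η ζ r * J3221 k = (1 : k) • L η ζ := by rw [one_smul, kj]
    have c1 := com _ _ 1 η s hJB jk bk kj' kb
    have c2 := com _ _ 1 ζ s hJC jk ck kj' kc
    have c3 := com _ _ η ζ s hBC bk ck kb kc
    rw [one_smul] at c1 c2
    refine cn3 c1 c2 c3 (nil_add nJ jk kk s) ?_ ?_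
    · rw [smul_smul]
      exact nil_add nB bk kk _
    · rw [smul_smul]
      exact nil_add nC ck kk _
  refine Pool.Agent.Lib.D8.MaxR.raise0 hT (K η ζ r) (η • K η ζ r) (ζ • K η ζ r) hcn 3 h3 1 0 0 ?_
  have hpow : ∀ s : k, ((1 : k) • (J3221 k + s • K η ζ r) + (0 : k) • (B + s • η • K η ζ r) +
      (0 : k) • (C + s • ζ • K η ζ r)) ^ 3 = s • (L η ζ * J3221 k) := by
    intro s
    have j3 : J3221 k * J3221 k * J3221 k = 0 := by
      have := J3221_cube (k := k)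
      rwa [pow_succ, pow_two] at this
    rw [one_smul, zero_smul, zero_smul, add_zero, add_zero, pow_succ, pow_two]
    have h2 : (J3221 k + s • K η ζ r) * (J3221 k + s • K η ζ r) =
        J3221 k * J3221 k + s • L η ζ := by
      simp only [add_mul, mul_add, smul_mul_assoc, mul_smul_comm, jk, kj, kk, smul_zero,
        add_zero]
    have hLK : L η ζ * K η ζ r = 0 := by
      rw [← kj, mul_assoc, jk, mul_zero]
    rw [h2]
    simp only [add_mul, mul_add, smul_mul_assoc, mul_smul_comm, j3, hLK, smul_zero,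
      add_zero, zero_add]
    rw [mul_assoc (J3221 k) (J3221 k) (K η ζ r), jk, mul_zero]
    simp
  have hsub : {s : k | s ≠ 0} ⊆ {s : k | ((1 : k) • (J3221 k + s • K η ζ r) +
      (0 : k) • (B + s • η • K η ζ r) + (0 : k) • (C + s • ζ • K η ζ r)) ^ 3 ≠ 0} := by
    intro s hs h0
    rw [hpow s] at h0
    have := congrFun (congrFun h0 4) 0
    simp [L, J3221] at this
    exact hs this
  refine Set.Infinite.mono hsub ?_
  have : {s : k | s ≠ 0} = ({0} : Set k)ᶜ := by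
    ext s
    simp
  rw [this]
  exact (Set.finite_singleton (0 : k)).infinite_compl

end Pool.Agent.Lib.D8
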