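import Pool.Agent.Lib.D8.UtilB8

/-!
Module R332A. Raise lemma 332-A (v0 is a common eigenvector).
Put yB = (x, y, z), yC = (x', y', z') (B w0 = x v1 + y w1 + z u0 + (part in V3 := <v2, w2, u1>)), bB = (M 0 0, M 1 0, c 0), bC = (M' 0 0, M' 1 0, c' 0) (B v0 = bB in V3, C v0 = bC; all other parts of B v0 vanish).
Let δ be a nonzero one of the three minors; there is a 3 x 3 matrix κ (entries polynomial in the data) with κ yB = δ bB, κ yC = δ bC (Cramer). K := (w0 -> δ v0, (v1, w1, u0) -> κ in basis (v2, w2, u1), everything else -> 0).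
K commutes with B and C (K kills V3, v0; B, C map V3 to 0 and <v1, w1, u0> to V3). So T_s = (J + s K, B, C) is CN for all s: nilpotent: weights 0 for w0, 1 for v0, 2 for v1, w1, u0, 3 for v2, w2, u1.
(J + s K)^3 w0 = s δ v2 + s^2 δ (κ (1,0,0)): entry (v2, w0) is s δ (1 + s κ 0 0), nonzero for all but at most two s: MaxR.raise0 (i = 3, a = 1, b = c = 0).
-/

namespace Pool.Agent.Lib.D8

open Matrix Pool.Agent.Lib.Q5dc Pool.Agent.Lib.D7

namespace R332AAux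

variable {k : Type*} [Field k]

/-- the direction of the deformation -/
def Km (δ : k) (κ : Matrix (Fin 3) (Fin 3) k) : Matrix (Fin 8) (Fin 8) k :=
  !![0, 0, 0, δ, 0, 0, 0, 0;
     0, 0, 0, 0, 0, 0, 0, 0;
     0, κ 0 0, 0, 0, κ 0 1, 0, κ 0 2, 0;
     0, 0, 0, 0, 0, 0, 0, 0;
     0, 0, 0, 0, 0, 0, 0, 0;
     0, κ 1 0, 0, 0, κ 1 1, 0, κ 1 2, 0;
     0, 0, 0, 0, 0, 0, 0, 0;
     0, κ 2 0, 0, 0, κ 2 1, 0, κ 2 2, 0]

theorem Km_comm {δ : k} {κ : Matrix (Fin 3) (Fin 3) k} {x y z : k}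
    {M : Matrix (Fin 2) (Fin 2) k} {c d : Fin 2 → k} {nu : k}
    (h0 : κ 0 0 * x + κ 0 1 * y + κ 0 2 * z = δ * M 0 0)
    (h1 : κ 1 0 * x + κ 1 1 * y + κ 1 2 * z = δ * M 1 0)
    (h2 : κ 2 0 * x + κ 2 1 * y + κ 2 2 * z = δ * c 0) :
    Km δ κ * B332 !![0, x; 0, y] M ![0, z] c 0 d nu =
      B332 !![0, x; 0, y] M ![0, z] c 0 d nu * Km δ κ := by
  ext i j
  fin_cases i <;> fin_cases j <;>
    simp [Km, B332, Matrix.mul_apply, Fin.sum_univ_eight]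
  · linear_combination h0
  · linear_combination h1
  · linear_combination h2

theorem Km_nil (δ : k) (κ : Matrix (Fin 3) (Fin 3) k) (s : k) :
    IsNilpotent (J332 k + s • Km δ κ) := by
  refine isNilpotent_of_weight _ ![1, 2, 3, 0, 2, 3, 2, 3] ?_
  intro i j h
  fin_cases i <;> fin_cases j <;> simp [J332, Km] at h ⊢

theorem Km_cube (δ : k) (κ : Matrix (Fin 3) (Fin 3) k) (s : k) :
    ((J332 k + s • Km δ κ) ^ 3) 2 3 = 0 + δ * s + (δ * κ 0 0) * s ^ 2 := by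
  rw [pow_succ, pow_two]
  simp [J332, Km, Matrix.mul_apply, Fin.sum_univ_eight]
  ring

theorem raise [CharZero k] {ρ : ℕ → ℕ} (h3 : ρ 3 = 0)
    {x y z x' y' z' : k} {M M' : Matrix (Fin 2) (Fin 2) k} {c d c' d' : Fin 2 → k} {nu nu' : k}
    (hT : MaxR ρ ![J332 k, B332 !![0, x; 0, y] M ![0, z] c 0 d nu,
      B332 !![0, x'; 0, y'] M' ![0, z'] c' 0 d' nu'])
    {δ : k} (hδ : δ ≠ 0) (κ : Matrix (Fin 3) (Fin 3) k)
    (h0 : κ 0 0 * x + κ 0 1 * y + κ 0 2 * z = δ * M 0 0)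
    (h1 : κ 1 0 * x + κ 1 1 * y + κ 1 2 * z = δ * M 1 0)
    (h2 : κ 2 0 * x + κ 2 1 * y + κ 2 2 * z = δ * c 0)
    (h0' : κ 0 0 * x' + κ 0 1 * y' + κ 0 2 * z' = δ * M' 0 0)
    (h1' : κ 1 0 * x' + κ 1 1 * y' + κ 1 2 * z' = δ * M' 1 0)
    (h2' : κ 2 0 * x' + κ 2 1 * y' + κ 2 2 * z' = δ * c' 0) : False := by
  have : Infinite k := Module.Free.infinite ℚ k
  refine Pool.Agent.Lib.D8.MaxR.raise0 hT (Km δ κ) 0 0 (fun s => ?_) 3 h3 1 0 0 ?_
  · have e1 : (J332 k + s • Km δ κ) * B332 !![0, x; 0, y] M ![0, z] c 0 d nu =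
        B332 !![0, x; 0, y] M ![0, z] c 0 d nu * (J332 k + s • Km δ κ) := by
      rw [add_mul, mul_add, smul_mul_assoc, mul_smul_comm, J332_comm, Km_comm h0 h1 h2]
    have e2 : (J332 k + s • Km δ κ) * B332 !![0, x'; 0, y'] M' ![0, z'] c' 0 d' nu' =
        B332 !![0, x'; 0, y'] M' ![0, z'] c' 0 d' nu' * (J332 k + s • Km δ κ) := by
      rw [add_mul, mul_add, smul_mul_assoc, mul_smul_comm, J332_comm, Km_comm h0' h1' h2']
    have e3 := hT.cn.1 1 2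
    simp only [smul_zero, add_zero]
    exact cn3 e1 e2 e3 (Km_nil δ κ s) (B332_nil _ _ _ _ _ _ _) (B332_nil _ _ _ _ _ _ _)
  · have hf : {s : k | 0 + δ * s + (δ * κ 0 0) * s ^ 2 = 0}.Finite :=
      finite_quad (Or.inr (Or.inl hδ))
    refine Set.Infinite.mono ?_ hf.infinite_compl
    intro s hs hs'
    apply hs
    simp only [one_smul, smul_zero, add_zero, zero_smul] at hs'
    have := congrFun (congrFun hs' 2) 3
    rw [Km_cube] at this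
    exact this

end R332AAux

open R332AAux

theorem no_332A {k : Type*} [Field k] [CharZero k] {ρ : ℕ → ℕ} (h3 : ρ 3 = 0)
    {x y z x' y' z' : k} {M M' : Matrix (Fin 2) (Fin 2) k} {c d c' d' : Fin 2 → k} {nu nu' : k}
    (hT : MaxR ρ ![J332 k, B332 !![0, x; 0, y] M ![0, z] c 0 d nu,
      B332 !![0, x'; 0, y'] M' ![0, z'] c' 0 d' nu'])
    (h : x * y' - x' * y ≠ 0 ∨ x * z' - x' * z ≠ 0 ∨ y * z' - y' * z ≠ 0) : False := by
  rcases h with h | h | h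
  · refine raise h3 hT h !![M 0 0 * y' - M' 0 0 * y, M' 0 0 * x - M 0 0 * x', 0;
      M 1 0 * y' - M' 1 0 * y, M' 1 0 * x - M 1 0 * x', 0;
      c 0 * y' - c' 0 * y, c' 0 * x - c 0 * x', 0] ?_ ?_ ?_ ?_ ?_ ?_ <;> simp <;> ring
  · refine raise h3 hT h !![M 0 0 * z' - M' 0 0 * z, 0, M' 0 0 * x - M 0 0 * x';
      M 1 0 * z' - M' 1 0 * z, 0, M' 1 0 * x - M 1 0 * x';
      c 0 * z' - c' 0 * z, 0, c' 0 * x - c 0 * x'] ?_ ?_ ?_ ?_ ?_ ?_ <;> simp <;> ring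
  · refine raise h3 hT h !![0, M 0 0 * z' - M' 0 0 * z, M' 0 0 * y - M 0 0 * y';
      0, M 1 0 * z' - M' 1 0 * z, M' 1 0 * y - M 1 0 * y';
      0, c 0 * z' - c' 0 * z, c' 0 * y - c 0 * y'] ?_ ?_ ?_ ?_ ?_ ?_ <;> simp <;> ring

end Pool.Agent.Lib.D8
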