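import Pool.Agent.Lib.D8.UtilB8

/-!
Module R332G (0.8h). Raise lemma 332-G. Checked numerically.
PROOF. al := c 0 + c' 0, be := d 0 + d' 0. K: v0 -> al u0 + (al d' 0 - be c' 0) v1 + al (d 1 + d' 1) w1; w0 -> be c 1 v1; v1 -> al d 1 w2; w1 -> be (c 1 + c' 1) v2; u1 -> be v2; rest 0.
K commutes with J - C and with B, so T_s = (J + s K, B, C + s K) is commuting; nilpotent by weights (J, B, C, K all raise the weights v0, w0 : 0; u0 : 1; v1, w1 : 2; u1 : 3; v2, w2 : 4).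
(C + s K)^3 v0 = s^2 al be v2: MaxR.raise0 (i = 3, a = b = 0, c = 1).
-/

namespace Pool.Agent.Lib.D8

open Matrix Pool.Agent.Lib.Q5dc Pool.Agent.Lib.D7

namespace R332GAux

variable {k : Type*} [Field k]

/-- the direction of the deformation -/
def Km (c d c' d' : Fin 2 → k) : Matrix (Fin 8) (Fin 8) k :=
  !![0, 0, 0, 0, 0, 0, 0, 0;
     (c 0 + c' 0) * d' 0 - (d 0 + d' 0) * c' 0, 0, 0, (d 0 + d' 0) * c 1, 0, 0, 0, 0;
     0, 0, 0, 0, (d 0 + d' 0) * (c 1 + c' 1), 0, 0, d 0 + d' 0;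
     0, 0, 0, 0, 0, 0, 0, 0;
     (c 0 + c' 0) * (d 1 + d' 1), 0, 0, 0, 0, 0, 0, 0;
     0, (c 0 + c' 0) * d 1, 0, 0, 0, 0, 0, 0;
     c 0 + c' 0, 0, 0, 0, 0, 0, 0, 0;
     0, 0, 0, 0, 0, 0, 0, 0]

theorem Km_B (M : Matrix (Fin 2) (Fin 2) k) (c d c' d' : Fin 2 → k) :
    Km c d c' d' * B332 !![1, 0; 0, 0] M 0 c 0 d 0 =
      B332 !![1, 0; 0, 0] M 0 c 0 d 0 * Km c d c' d' := by
  ext i j
  fin_cases i <;> fin_cases j <;>
    simp [Km, B332, Matrix.mul_apply, Fin.sum_univ_eight] <;> ring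

theorem Km_C (M' : Matrix (Fin 2) (Fin 2) k) (c d c' d' : Fin 2 → k) :
    Km c d c' d' * (B332 0 M' 0 c' 0 d' 1 - J332 k) =
      (B332 0 M' 0 c' 0 d' 1 - J332 k) * Km c d c' d' := by
  ext i j
  fin_cases i <;> fin_cases j <;>
    simp [Km, B332, J332, Matrix.mul_apply, Fin.sum_univ_eight] <;> ring

theorem J_nil (c d c' d' : Fin 2 → k) (s : k) :
    IsNilpotent (J332 k + s • Km c d c' d') := by
  refine isNilpotent_of_weight _ ![0, 2, 4, 0, 2, 4, 1, 3] ?_
  intro i j h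
  fin_cases i <;> fin_cases j <;> simp [J332, Km] at h ⊢

theorem C_nil (M' : Matrix (Fin 2) (Fin 2) k) (c d c' d' : Fin 2 → k) (s : k) :
    IsNilpotent (B332 0 M' 0 c' 0 d' 1 + s • Km c d c' d') := by
  refine isNilpotent_of_weight _ ![0, 2, 4, 0, 2, 4, 1, 3] ?_
  intro i j h
  fin_cases i <;> fin_cases j <;> simp [B332, Km] at h ⊢

theorem C_cube (M' : Matrix (Fin 2) (Fin 2) k) (c d c' d' : Fin 2 → k) (s : k) :
    ((B332 0 M' 0 c' 0 d' 1 + s • Km c d c' d') ^ 3) 2 0 =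
      0 + 0 * s + ((c 0 + c' 0) * (d 0 + d' 0)) * s ^ 2 := by
  rw [pow_succ, pow_two]
  simp [B332, Km, Matrix.mul_apply, Fin.sum_univ_eight]
  ring

end R332GAux

open R332GAux

theorem no_332Gn {k : Type*} [Field k] [CharZero k] {ρ : ℕ → ℕ} (h3 : ρ 3 = 0)
    {M M' : Matrix (Fin 2) (Fin 2) k} {c d c' d' : Fin 2 → k}
    (hT : MaxR ρ ![J332 k, B332 !![1, 0; 0, 0] M 0 c 0 d 0, B332 0 M' 0 c' 0 d' 1])
    (hc : c 0 + c' 0 ≠ 0) (hd : d 0 + d' 0 ≠ 0) : False := by
  have : Infinite k := Module.Free.infinite ℚ k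
  set K := Km c d c' d' with hK
  set B := B332 !![1, 0; 0, 0] M 0 c 0 d 0 with hB
  set C := B332 0 M' 0 c' 0 d' 1 with hC
  have hKB : K * B = B * K := Km_B M c d c' d'
  have hKC : K * (C - J332 k) = (C - J332 k) * K := Km_C M' c d c' d'
  refine Pool.Agent.Lib.D8.MaxR.raise0 hT K 0 K (fun s => ?_) 3 h3 0 0 1 ?_
  · have hJB : J332 k * B = B * J332 k := J332_comm _ _ _ _ _ _ _
    have hJC : J332 k * C = C * J332 k := J332_comm _ _ _ _ _ _ _
    have hBC : B * C = C * B := hT.cn.1 1 2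
    have e1 : (J332 k + s • K) * B = B * (J332 k + s • K) := by
      rw [add_mul, mul_add, smul_mul_assoc, mul_smul_comm, hJB, hKB]
    have e2 : (J332 k + s • K) * (C + s • K) = (C + s • K) * (J332 k + s • K) := by
      rw [mul_sub, sub_mul] at hKC
      have h1 : K * C + J332 k * K = C * K + K * J332 k := by
        have h2 : K * C = C * K - J332 k * K + K * J332 k := by
          rw [← hKC]
          abel
        rw [h2]
        abel
      rw [add_mul, mul_add, mul_add, add_mul, mul_add, mul_add, smul_mul_assoc, mul_smul_comm,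
        mul_smul_comm, smul_mul_assoc, smul_mul_assoc, mul_smul_comm, hJC]
      have h3 : J332 k * K = C * K + K * J332 k - K * C := by
        rw [← h1]
        abel
      rw [h3, smul_sub, smul_add]
      abel
    have e3 : B * (C + s • K) = (C + s • K) * B := by
      rw [add_mul, mul_add, smul_mul_assoc, mul_smul_comm, hBC, hKB]
    simp only [smul_zero, add_zero]
    exact cn3 e1 e2 e3 (J_nil c d c' d' s) (B332_nil _ _ _ _ _ _ _) (C_nil M' c d c' d' s)
  · have hf : {s : k | 0 + 0 * s + ((c 0 + c' 0) * (d 0 + d' 0)) * s ^ 2 = 0}.Finite :=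
      finite_quad (Or.inr (Or.inr (mul_ne_zero hc hd)))
    refine Set.Infinite.mono ?_ hf.infinite_compl
    intro s hs hs'
    apply hs
    simp only [one_smul, zero_smul, zero_add] at hs'
    have := congrFun (congrFun hs' 2) 0
    rw [C_cube] at this
    exact this

end Pool.Agent.Lib.D8
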