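import Pool.Agent.Lib.D8.UtilB8

/-!
# MP_5dcbc3_ag: the raise lemma 332-L
-/

namespace Pool.Agent.Lib.D8

open Matrix Pool.Agent.Lib.Q5dc Pool.Agent.Lib.D7

namespace R332LAux

variable {k : Type*} [Field k]

/-- the direction of the deformation -/
def Km (b kv kw k2 : k) : Matrix (Fin 8) (Fin 8) k :=
  !![0, 0, 0, 0, 0, 0, 0, 0;
     kv * b, 0, 0, kw * b, 0, 0, 0, 0;
     0, 0, 0, 0, -(k2 * b), -b, 0, b;
     0, 0, 0, 0, 0, 0, 0, 0;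
     kv, 0, 0, kw, 0, 0, 0, 0;
     0, 0, 0, 0, -k2, -1, 0, 1;
     kv, 0, 0, kw, 0, 0, 0, 0;
     0, 0, 0, 0, -k2, -1, 0, 1]

/-- the deformed matrix -/
def Mm (s b kv kw k2 : k) : Matrix (Fin 8) (Fin 8) k :=
  !![0, 0, 0, 0, 0, 0, 0, 0;
     1 + s * (kv * b), 0, 0, s * (kw * b), 0, 0, 0, 0;
     0, 1, 0, 0, -(s * (k2 * b)), -(s * b), 0, s * b;
     0, 0, 0, 0, 0, 0, 0, 0;
     s * kv, 0, 0, 1 + s * kw, 0, 0, 0, 0;
     0, 0, 0, 0, 1 - s * k2, -s, 0, s;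
     s * kv, 0, 0, s * kw, 0, 0, 0, 0;
     0, 0, 0, 0, -(s * k2), -s, 1, s]

/-- its square -/
def M2 (s b kv kw k2 : k) : Matrix (Fin 8) (Fin 8) k :=
  !![0, 0, 0, 0, 0, 0, 0, 0;
     0, 0, 0, 0, 0, 0, 0, 0;
     1 - b * k2 * kv * s ^ 2 + b * kv * s, 0, 0, -b * k2 * kw * s ^ 2 - b * k2 * s + b * kw * s, -b * s, 0, b * s, 0;
     0, 0, 0, 0, 0, 0, 0, 0;
     0, 0, 0, 0, 0, 0, 0, 0;
     -k2 * kv * s ^ 2 + kv * s, 0, 0, 1 - k2 * kw * s ^ 2 - k2 * s + kw * s, -s, 0, s, 0;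
     0, 0, 0, 0, 0, 0, 0, 0;
     -k2 * kv * s ^ 2 + kv * s, 0, 0, -k2 * kw * s ^ 2 - k2 * s + kw * s, -s, 0, s, 0]

/-- its cube -/
def M3 (s b : k) : Matrix (Fin 8) (Fin 8) k :=
  !![0, 0, 0, 0, 0, 0, 0, 0;
     0, 0, 0, 0, 0, 0, 0, 0;
     0, 0, 0, -b * s, 0, 0, 0, 0;
     0, 0, 0, 0, 0, 0, 0, 0;
     0, 0, 0, 0, 0, 0, 0, 0;
     0, 0, 0, -s, 0, 0, 0, 0;
     0, 0, 0, 0, 0, 0, 0, 0;
     0, 0, 0, -s, 0, 0, 0, 0]

theorem add_eq (s b kv kw k2 : k) : J332 k + s • Km b kv kw k2 = Mm s b kv kw k2 := by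
  ext i j
  fin_cases i <;> fin_cases j <;> simp [J332, Km, Mm, sub_eq_add_neg]

theorem sq_eq (s b kv kw k2 : k) : Mm s b kv kw k2 * Mm s b kv kw k2 = M2 s b kv kw k2 := by
  ext i j
  fin_cases i <;> fin_cases j <;> simp [Mm, M2, Matrix.mul_apply, Fin.sum_univ_eight] <;> ring

theorem cube_eq (s b kv kw k2 : k) : M2 s b kv kw k2 * Mm s b kv kw k2 = M3 s b := by
  ext i j
  fin_cases i <;> fin_cases j <;> simp [Mm, M2, M3, Matrix.mul_apply, Fin.sum_univ_eight] <;> ring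

theorem four_eq (s b kv kw k2 : k) : M3 s b * Mm s b kv kw k2 = 0 := by
  ext i j
  fin_cases i <;> fin_cases j <;> simp [Mm, M3, Matrix.mul_apply, Fin.sum_univ_eight]

theorem pow3 (s b kv kw k2 : k) : Mm s b kv kw k2 ^ 3 = M3 s b := by
  rw [pow_succ, pow_two, sq_eq, cube_eq]

theorem pow4 (s b kv kw k2 : k) : Mm s b kv kw k2 ^ 4 = 0 := by
  rw [pow_succ, pow3, four_eq]

theorem comm1 (b b' : k) (M : Matrix (Fin 2) (Fin 2) k) (c : Fin 2 → k) (kv kw : k)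
    (hg : b * (c 0 - M 1 0) + (c 1 - M 1 1) = 0) :
    Km b kv kw (c 0 - M 1 0) * B332 !![b', -(b * b'); 1, -b] M ![1, -b] c 0 0 0 =
      B332 !![b', -(b * b'); 1, -b] M ![1, -b] c 0 0 0 * Km b kv kw (c 0 - M 1 0) := by
  have h1 : c 1 = M 1 1 - b * (c 0 - M 1 0) := by linear_combination hg
  ext i j
  fin_cases i <;> fin_cases j <;>
    simp [Km, B332, Matrix.mul_apply, Fin.sum_univ_eight, h1] <;> ring

theorem comm2 (b k2 : k) (M' : Matrix (Fin 2) (Fin 2) k) (c' : Fin 2 → k) :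
    Km b (c' 0 - M' 1 0) (c' 1 - M' 1 1 - k2) k2 * B332 1 M' ![0, 1] c' 0 0 0 =
      B332 1 M' ![0, 1] c' 0 0 0 * Km b (c' 0 - M' 1 0) (c' 1 - M' 1 1 - k2) k2 := by
  ext i j
  fin_cases i <;> fin_cases j <;>
    simp [Km, B332, Matrix.mul_apply, Fin.sum_univ_eight] <;> ring

end R332LAux

open R332LAux in
/-- raise lemma 332-L -/
theorem no_332Ln {k : Type*} [Field k] [CharZero k] {ρ : ℕ → ℕ} (h3 : ρ 3 = 0)
    {β β' : k} {M M' : Matrix (Fin 2) (Fin 2) k} {c c' : Fin 2 → k}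
    (hT : MaxR ρ ![J332 k, B332 !![β', -(β * β'); 1, -β] M ![1, -β] c 0 0 0,
      B332 1 M' ![0, 1] c' 0 0 0])
    (hg : β * (c 0 - M 1 0) + (c 1 - M 1 1) = 0) : False := by
  have hinf : Infinite k := inferInstance
  have hBC : B332 !![β', -(β * β'); 1, -β] M ![1, -β] c 0 0 0 * B332 1 M' ![0, 1] c' 0 0 0 =
      B332 1 M' ![0, 1] c' 0 0 0 * B332 !![β', -(β * β'); 1, -β] M ![1, -β] c 0 0 0 :=
    hT.cn.1 1 2
  set B := B332 !![β', -(β * β'); 1, -β] M ![1, -β] c 0 0 0 with hB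
  set C := B332 1 M' ![0, 1] c' 0 0 0 with hC
  set k2 : k := c 0 - M 1 0 with hk2
  set K := Km β (c' 0 - M' 1 0) (c' 1 - M' 1 1 - k2) k2 with hK
  have hKB : K * B = B * K := comm1 β β' M c _ _ hg
  have hKC : K * C = C * K := comm2 β k2 M' c'
  have hJB : J332 k * B = B * J332 k := J332_comm _ _ _ _ _ _ _
  have hJC : J332 k * C = C * J332 k := J332_comm _ _ _ _ _ _ _
  have key : ∀ s : k, J332 k + s • K = Mm s β (c' 0 - M' 1 0) (c' 1 - M' 1 1 - k2) k2 :=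
    fun s => add_eq s _ _ _ _
  refine MaxR.raise0 hT K 0 0 (fun s => ?_) 3 h3 1 0 0 ?_
  · rw [smul_zero, add_zero, add_zero]
    refine cn3 ?_ ?_ hBC ?_ (B332_nil _ _ _ _ _ _ _) (B332_nil _ _ _ _ _ _ _)
    · rw [Matrix.add_mul, Matrix.mul_add, Matrix.smul_mul, Matrix.mul_smul, hJB, hKB]
    · rw [Matrix.add_mul, Matrix.mul_add, Matrix.smul_mul, Matrix.mul_smul, hJC, hKC]
    · exact ⟨4, by rw [key, pow4]⟩
  · refine (Set.finite_singleton (0 : k)).infinite_compl.mono ?_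
    intro s hs h0
    rw [smul_zero, add_zero, zero_smul, zero_smul, add_zero, add_zero, one_smul, key, pow3] at h0
    have h1 := congrFun (congrFun h0 5) 3
    simp [M3] at h1
    exact hs h1

end Pool.Agent.Lib.D8
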