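import Pool.Agent.Lib.D8.UtilB8

/-!
Module S3221 (1.5h). Type (3,2,2,1): shape and rank conditions.
PROOF of shape3221. X := T 1 (and T 2) commutes with A = J3221, A^2 X = 0 and X^3 = 0 (mul3 with ρ 3 = 0). Entrywise X = x1 A + x2 A^2 + B3221 .. + Z, where Z: u0 -> z00 u0 + z10 w0, w0 -> z01 u0 + z11 w0, the same on u1, w1, and p -> κ p (A^2 X = 0 kills v0 -> v0; A X p = 0 so X p in <v2, u1, w1, p>; A^2 X u0 = 0 so u0 has no v0-part).
κ = 0 (X^3 p has p-coordinate κ^3). z = 0: rank (A + s X)^2 <= ρ 2 <= 1 (hT.rank_le; J3221_rank_sq), minor_zero with rows v2, y (y = u1, w1) and columns v0, x (x = u0, w0): the coefficient of s is 2 z_yx (char 0; evaluate at enough values of s, or as polynomials). Finally B := T 1 - x1 A - x2 A^2 (MaxR.lin).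
PROOF of r1_3221. (A + s X)^2 has rank <= 1 for all s; minor rows v2, y, columns v0, x: coefficient of s^2 is e_y p_x + a_y b_x - 4 a_y b_x (the coefficients of 1, s vanish); it vanishes since the minor vanishes for all s (e.g. s = 1, -1, 2).
PROOF of r2_3221. rank (A + s X) <= 4: the 5 x 5 minor rows v1, v2, u1, w1, p, columns v0, v1, u0, w0, p is - s^2 (p 0 e 0 + p 1 e 1) + terms of order >= s^3.
-/

namespace Pool.Agent.Lib.D8

open Matrix Pool.Agent.Lib.Q5dc Pool.Agent.Lib.D7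

variable {k : Type*} [Field k] [CharZero k] {ρ : ℕ → ℕ} {T : Fin 3 → Matrix (Fin 8) (Fin 8) k}

namespace S3221Aux

section Plain

variable {K : Type*} [Field K] {X : Matrix (Fin 8) (Fin 8) K}

theorem JX (X : Matrix (Fin 8) (Fin 8) K) (i j : Fin 8) :
    (J3221 K * X) i j = ![0, X 0 j, X 1 j, 0, X 3 j, 0, X 5 j, 0] i := by
  fin_cases i <;> simp [J3221, Matrix.mul_apply, Fin.sum_univ_eight]

theorem XJ (X : Matrix (Fin 8) (Fin 8) K) (i j : Fin 8) :
    (X * J3221 K) i j = ![X i 1, X i 2, 0, X i 4, 0, X i 6, 0, 0] j := by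
  fin_cases j <;> simp [J3221, Matrix.mul_apply, Fin.sum_univ_eight]

theorem JJ (i j : Fin 8) :
    (J3221 K * J3221 K) i j = if i = 2 ∧ j = 0 then 1 else 0 := by
  rw [JX]
  fin_cases i <;> fin_cases j <;> simp [J3221]

/-- the commutant of `J3221`, with the entry `0 0` zero -/
theorem comm_shape (h : J3221 K * X = X * J3221 K) (h00 : X 0 0 = 0) :
    X = !![0, 0, 0, 0, 0, 0, 0, 0;
      X 1 0, 0, 0, X 1 3, 0, X 1 5, 0, 0;
      X 2 0, X 1 0, 0, X 2 3, X 1 3, X 2 5, X 1 5, X 2 7;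
      X 3 0, 0, 0, X 3 3, 0, X 3 5, 0, 0;
      X 4 0, X 3 0, 0, X 4 3, X 3 3, X 4 5, X 3 5, X 4 7;
      X 5 0, 0, 0, X 5 3, 0, X 5 5, 0, 0;
      X 6 0, X 5 0, 0, X 6 3, X 5 3, X 6 5, X 5 5, X 6 7;
      X 7 0, 0, 0, X 7 3, 0, X 7 5, 0, X 7 7] := by
  have H : ∀ i j, ![0, X 0 j, X 1 j, 0, X 3 j, 0, X 5 j, 0] i =
      ![X i 1, X i 2, 0, X i 4, 0, X i 6, 0, 0] j := by
    intro i j
    rw [← JX, ← XJ, h]
  have x01 : X 0 1 = 0 := (H 0 0).symm
  have x11 : X 1 1 = 0 := ((H 1 0).symm).trans h00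
  have x21 : X 2 1 = X 1 0 := (H 2 0).symm
  have x31 : X 3 1 = 0 := (H 3 0).symm
  have x41 : X 4 1 = X 3 0 := (H 4 0).symm
  have x51 : X 5 1 = 0 := (H 5 0).symm
  have x61 : X 6 1 = X 5 0 := (H 6 0).symm
  have x71 : X 7 1 = 0 := (H 7 0).symm
  have x02 : X 0 2 = 0 := (H 0 1).symm
  have x12 : X 1 2 = 0 := ((H 1 1).symm).trans x01
  have x22 : X 2 2 = 0 := ((H 2 1).symm).trans x11
  have x32 : X 3 2 = 0 := (H 3 1).symm
  have x42 : X 4 2 = 0 := ((H 4 1).symm).trans x31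
  have x52 : X 5 2 = 0 := (H 5 1).symm
  have x62 : X 6 2 = 0 := ((H 6 1).symm).trans x51
  have x72 : X 7 2 = 0 := (H 7 1).symm
  have x04 : X 0 4 = 0 := (H 0 3).symm
  have x14 : X 1 4 = 0 := H 2 4
  have x24 : X 2 4 = X 1 3 := (H 2 3).symm
  have x34 : X 3 4 = 0 := (H 3 3).symm
  have x44 : X 4 4 = X 3 3 := (H 4 3).symm
  have x54 : X 5 4 = 0 := (H 5 3).symm
  have x64 : X 6 4 = X 5 3 := (H 6 3).symm
  have x74 : X 7 4 = 0 := (H 7 3).symm
  have x03 : X 0 3 = 0 := (H 1 3).trans x14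
  have x06 : X 0 6 = 0 := (H 0 5).symm
  have x16 : X 1 6 = 0 := H 2 6
  have x26 : X 2 6 = X 1 5 := (H 2 5).symm
  have x36 : X 3 6 = 0 := (H 3 5).symm
  have x46 : X 4 6 = X 3 5 := (H 4 5).symm
  have x56 : X 5 6 = 0 := (H 5 5).symm
  have x66 : X 6 6 = X 5 5 := (H 6 5).symm
  have x76 : X 7 6 = 0 := (H 7 5).symm
  have x05 : X 0 5 = 0 := (H 1 5).trans x16
  have x07 : X 0 7 = 0 := H 1 7
  have x17 : X 1 7 = 0 := H 2 7
  have x37 : X 3 7 = 0 := H 4 7
  have x57 : X 5 7 = 0 := H 6 7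
  ext i j
  fin_cases i <;> fin_cases j <;>
    simp [h00, x01, x11, x21, x31, x41, x51, x61, x71, x02, x12, x22, x32, x42, x52, x62, x72,
      x04, x14, x24, x34, x44, x54, x64, x74, x03, x06, x16, x26, x36, x46, x56, x66, x76, x05,
      x07, x17, x37, x57]

/-- the elements of the commutant of the form required -/
theorem B_eq (h : J3221 K * X = X * J3221 K) (h00 : X 0 0 = 0) (h33 : X 3 3 = 0)
    (h35 : X 3 5 = 0) (h53 : X 5 3 = 0) (h55 : X 5 5 = 0) (h77 : X 7 7 = 0) :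
    X + (-(X 1 0)) • J3221 K + (-(X 2 0)) • (J3221 K * J3221 K) =
      B3221 ![X 3 0, X 5 0] ![X 4 0, X 6 0] (X 7 0) ![X 1 3, X 1 5] ![X 2 3, X 2 5]
        !![X 4 3 - X 1 0, X 4 5; X 6 3, X 6 5 - X 1 0] ![X 7 3, X 7 5] (X 2 7)
        ![X 4 7, X 6 7] := by
  have hX := comm_shape h h00
  rw [h33, h35, h53, h55, h77] at hX
  have H : ∀ i j, X i j = !![0, 0, 0, 0, 0, 0, 0, 0;
      X 1 0, 0, 0, X 1 3, 0, X 1 5, 0, 0;
      X 2 0, X 1 0, 0, X 2 3, X 1 3, X 2 5, X 1 5, X 2 7;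
      X 3 0, 0, 0, 0, 0, 0, 0, 0;
      X 4 0, X 3 0, 0, X 4 3, 0, X 4 5, 0, X 4 7;
      X 5 0, 0, 0, 0, 0, 0, 0, 0;
      X 6 0, X 5 0, 0, X 6 3, 0, X 6 5, 0, X 6 7;
      X 7 0, 0, 0, X 7 3, 0, X 7 5, 0, 0] i j := fun i j => congrFun (congrFun hX i) j
  ext i j
  rw [Matrix.add_apply, Matrix.add_apply, Matrix.smul_apply, Matrix.smul_apply, JJ, H]
  fin_cases i <;> fin_cases j <;> simp [J3221, B3221] <;> ring

/-- the last diagonal entry of the cube -/
theorem cube77 (h : J3221 K * X = X * J3221 K) (h00 : X 0 0 = 0) :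
    (X * X * X) 7 7 = X 7 7 ^ 3 := by
  have hX := comm_shape h h00
  have H : ∀ i j, X i j = !![0, 0, 0, 0, 0, 0, 0, 0;
      X 1 0, 0, 0, X 1 3, 0, X 1 5, 0, 0;
      X 2 0, X 1 0, 0, X 2 3, X 1 3, X 2 5, X 1 5, X 2 7;
      X 3 0, 0, 0, X 3 3, 0, X 3 5, 0, 0;
      X 4 0, X 3 0, 0, X 4 3, X 3 3, X 4 5, X 3 5, X 4 7;
      X 5 0, 0, 0, X 5 3, 0, X 5 5, 0, 0;
      X 6 0, X 5 0, 0, X 6 3, X 5 3, X 6 5, X 5 5, X 6 7;
      X 7 0, 0, 0, X 7 3, 0, X 7 5, 0, X 7 7] i j := fun i j => congrFun (congrFun hX i) j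
  have x07 : X 0 7 = 0 := H 0 7
  have x17 : X 1 7 = 0 := H 1 7
  have x37 : X 3 7 = 0 := H 3 7
  have x57 : X 5 7 = 0 := H 5 7
  have x71 : X 7 1 = 0 := H 7 1
  have x72 : X 7 2 = 0 := H 7 2
  have x74 : X 7 4 = 0 := H 7 4
  have x76 : X 7 6 = 0 := H 7 6
  have x02 : X 0 2 = 0 := H 0 2
  have x32 : X 3 2 = 0 := H 3 2
  have x52 : X 5 2 = 0 := H 5 2
  have x04 : X 0 4 = 0 := H 0 4
  have x34 : X 3 4 = 0 := H 3 4
  have x54 : X 5 4 = 0 := H 5 4
  have x06 : X 0 6 = 0 := H 0 6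
  have x36 : X 3 6 = 0 := H 3 6
  have x56 : X 5 6 = 0 := H 5 6
  rw [Matrix.mul_apply, Fin.sum_univ_eight]
  simp only [x07, x17, x37, x57, mul_zero, zero_add, add_zero]
  have e2 : (X * X) 7 2 = 0 := by
    rw [Matrix.mul_apply, Fin.sum_univ_eight]
    simp [x02, x32, x52, x71, x72, x74, x76]
  have e4 : (X * X) 7 4 = 0 := by
    rw [Matrix.mul_apply, Fin.sum_univ_eight]
    simp [x04, x34, x54, x71, x72, x74, x76]
  have e6 : (X * X) 7 6 = 0 := by
    rw [Matrix.mul_apply, Fin.sum_univ_eight]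
    simp [x06, x36, x56, x71, x72, x74, x76]
  have e7 : (X * X) 7 7 = X 7 7 * X 7 7 := by
    rw [Matrix.mul_apply, Fin.sum_univ_eight]
    simp [x07, x17, x37, x57, x71, x72, x74, x76]
  rw [e2, e4, e6, e7]
  ring

theorem sq_line (s : K) (A X : Matrix (Fin 8) (Fin 8) K) (h : A * X = X * A) :
    (A + s • X) ^ 2 = A * A + (2 * s) • (A * X) + (s * s) • (X * X) := by
  rw [pow_two, mul_add, add_mul, add_mul, Matrix.smul_mul, Matrix.mul_smul, Matrix.mul_smul,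
    Matrix.smul_mul, ← h]
  module

end Plain

/-- a polynomial identity of degree 4 -/
theorem quart {K : Type*} [Field K] [CharZero K] {q r q' r' q1 r1 q2 r2 : K}
    (h : ∀ s : K, (1 + 2 * s * q + s * s * r) * (2 * s * q' + s * s * r') =
      (2 * s * q1 + s * s * r1) * (2 * s * q2 + s * s * r2)) :
    q' = 0 ∧ r' = 4 * (q1 * q2) := by
  have e1 := h 1
  have e2 := h (-1)
  have e3 := h 2
  have e4 := h (-2)
  have hq : (24 : K) * q' = 0 := by
    linear_combination 8 * (e1 - e2) - (e3 - e4)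
  have hq' : q' = 0 := (mul_eq_zero.mp hq).resolve_left (by norm_num)
  refine ⟨hq', ?_⟩
  have hr : (24 : K) * (r' + 4 * q * q' - 4 * (q1 * q2)) = 0 := by
    linear_combination 16 * (e1 + e2) - (e3 + e4)
  have hr' := (mul_eq_zero.mp hr).resolve_left (by norm_num)
  rw [hq'] at hr'
  linear_combination hr'

theorem minor_key (hT : MaxR ρ T) (h2 : ρ 2 ≤ 1) (hA : J3221 k ∈ adj T)
    {X : Matrix (Fin 8) (Fin 8) k} (hX : X ∈ adj T) {i j : Fin 8} (hi : i ≠ 2) (hj : j ≠ 0) :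
    (J3221 k * X) i j = 0 ∧ (X * X) i j = 4 * ((J3221 k * X) 2 j * (J3221 k * X) i 0) := by
  have hc : J3221 k * X = X * J3221 k := hT.cn.comm hA hX
  refine quart (q := (J3221 k * X) 2 0) (r := (X * X) 2 0) (r1 := (X * X) 2 j)
    (r2 := (X * X) i 0) fun s => ?_
  have h1 : ((J3221 k + s • X) ^ 2).rank ≤ 1 :=
    (hT.rank_le (add_mem hA (SMulMemClass.smul_mem s hX)) 2).trans h2
  have h3 := minor_zero h1 2 i 0 j
  rw [sq_line s _ _ hc] at h3
  simpa [JJ, hi, hj] using h3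

theorem det5 {K : Type*} [Field K] (u v u' v' t c a c' a' e e' o p q A B C D : K) :
    (!![1, 0, u, v, 0;
      0, 1, u', v', t;
      c, a, A, B, e;
      c', a', C, D, e';
      o, 0, p, q, 0] : Matrix (Fin 5) (Fin 5) K).det =
      -(A - c * u - a * u') * (e' - a' * t) * (q - o * v) +
        (B - c * v - a * v') * (e' - a' * t) * (p - o * u) +
        (e - a * t) * ((C - c' * u - a' * u') * (q - o * v) -
          (D - c' * v - a' * v') * (p - o * u)) := by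
  simp [Matrix.det_succ_row_zero, Fin.sum_univ_succ, Fin.succAbove]
  ring

end S3221Aux

theorem shape3221 (hT : MaxR ρ T) (hρ : ∀ i, ρ i = (J3221 k ^ i).rank) (h0 : T 0 = J3221 k) :
    ∃ (a c : Fin 2 → k) (om : k) (b d : Fin 2 → k) (N : Matrix (Fin 2) (Fin 2) k)
      (p : Fin 2 → k) (th : k) (e : Fin 2 → k)
      (a' c' : Fin 2 → k) (om' : k) (b' d' : Fin 2 → k) (N' : Matrix (Fin 2) (Fin 2) k)
      (p' : Fin 2 → k) (th' : k) (e' : Fin 2 → k),
      MaxR ρ ![J3221 k, B3221 a c om b d N p th e, B3221 a' c' om' b' d' N' p' th' e'] := by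
  have h3 : ρ 3 = 0 := by rw [hρ, J3221_cube, Matrix.rank_zero]
  have h2 : ρ 2 ≤ 1 := by rw [hρ]; exact J3221_rank_sq
  have hA : J3221 k ∈ adj T := by rw [← h0]; exact mem_adj T 0
  have key : ∀ X ∈ adj T, J3221 k * X = X * J3221 k ∧ X 0 0 = 0 ∧ X 3 3 = 0 ∧ X 3 5 = 0 ∧
      X 5 3 = 0 ∧ X 5 5 = 0 ∧ X 7 7 = 0 := by
    intro X hX
    have hc : J3221 k * X = X * J3221 k := hT.cn.comm hA hX
    have h00 : X 0 0 = 0 := by
      have h := congrFun (congrFun (mul3 hT h3 hA hA hX) 2) 0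
      rw [Matrix.mul_assoc, S3221Aux.JX] at h
      have h' : (J3221 k * X) 1 0 = 0 := h
      rw [S3221Aux.JX] at h'
      exact h'
    refine ⟨hc, h00, ?_, ?_, ?_, ?_, ?_⟩
    · have h := (S3221Aux.minor_key hT h2 hA hX (i := 4) (j := 3) (by decide) (by decide)).1
      rw [S3221Aux.JX] at h
      exact h
    · have h := (S3221Aux.minor_key hT h2 hA hX (i := 4) (j := 5) (by decide) (by decide)).1
      rw [S3221Aux.JX] at h
      exact h
    · have h := (S3221Aux.minor_key hT h2 hA hX (i := 6) (j := 3) (by decide) (by decide)).1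
      rw [S3221Aux.JX] at h
      exact h
    · have h := (S3221Aux.minor_key hT h2 hA hX (i := 6) (j := 5) (by decide) (by decide)).1
      rw [S3221Aux.JX] at h
      exact h
    · have h := S3221Aux.cube77 hc h00
      rw [mul3 hT h3 hX hX hX] at h
      exact pow_eq_zero_iff (three_ne_zero) |>.1 h.symm
  obtain ⟨c1, a1, a2, a3, a4, a5, a6⟩ := key (T 1) (mem_adj T 1)
  obtain ⟨c2, b1, b2, b3, b4, b5, b6⟩ := key (T 2) (mem_adj T 2)
  have hT' : MaxR ρ ![J3221 k, T 1, T 2] := by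
    have e : (![J3221 k, T 1, T 2] : Fin 3 → Matrix (Fin 8) (Fin 8) k) = T := by
      funext i
      fin_cases i
      · exact h0.symm
      · rfl
      · rfl
    rw [e]
    exact hT
  have h := Pool.Agent.Lib.D8.MaxR.lin hT' 1 0 0 1 (-(T 1 1 0)) (-(T 1 2 0)) (-(T 2 1 0))
    (-(T 2 2 0)) (by norm_num)
  have e1 := S3221Aux.B_eq c1 a1 a2 a3 a4 a5 a6
  have e2 := S3221Aux.B_eq c2 b1 b2 b3 b4 b5 b6
  rw [one_smul, one_smul, zero_smul, zero_smul, add_zero, zero_add, e1, e2] at h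
  exact ⟨_, _, _, _, _, _, _, _, _, _, _, _, _, _, _, _, _, _, h⟩

theorem r1_3221 (hT : MaxR ρ T) (h2 : ρ 2 ≤ 1) (hA : J3221 k ∈ adj T)
    {a c : Fin 2 → k} {om : k} {b d : Fin 2 → k} {N : Matrix (Fin 2) (Fin 2) k}
    {p : Fin 2 → k} {th : k} {e : Fin 2 → k} (hX : B3221 a c om b d N p th e ∈ adj T)
    (i j : Fin 2) : e i * p j = 3 * (a i * b j) := by
  have H : ∀ i' j' : Fin 8, i' ≠ 2 → j' ≠ 0 → _ := fun i' j' hi hj =>
    (S3221Aux.minor_key hT h2 hA hX (i := i') (j := j') hi hj).2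
  have h43 := H 4 3 (by decide) (by decide)
  have h45 := H 4 5 (by decide) (by decide)
  have h63 := H 6 3 (by decide) (by decide)
  have h65 := H 6 5 (by decide) (by decide)
  rw [S3221Aux.JX, S3221Aux.JX, Matrix.mul_apply, Fin.sum_univ_eight] at h43 h45 h63 h65
  simp [B3221] at h43 h45 h63 h65
  fin_cases i <;> fin_cases j <;> simp
  · linear_combination h43
  · linear_combination h45
  · linear_combination h63
  · linear_combination h65

theorem r2_3221 (hT : MaxR ρ T) (h1 : ρ 1 ≤ 4) (hA : J3221 k ∈ adj T)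
    {a c : Fin 2 → k} {om : k} {b d : Fin 2 → k} {N : Matrix (Fin 2) (Fin 2) k}
    {p : Fin 2 → k} {th : k} {e : Fin 2 → k} (hX : B3221 a c om b d N p th e ∈ adj T) :
    p 0 * e 0 + p 1 * e 1 = 0 := by
  have H : ∀ s : k, -((1 + s * N 0 0) - (s * c 0) * (s * b 0) - (s * a 0) * (s * d 0)) *
      ((s * e 1) - (s * a 1) * (s * th)) * ((s * p 1) - (s * om) * (s * b 1)) +
      ((s * N 0 1) - (s * c 0) * (s * b 1) - (s * a 0) * (s * d 1)) *
        ((s * e 1) - (s * a 1) * (s * th)) * ((s * p 0) - (s * om) * (s * b 0)) +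
      ((s * e 0) - (s * a 0) * (s * th)) *
        (((s * N 1 0) - (s * c 1) * (s * b 0) - (s * a 1) * (s * d 0)) *
          ((s * p 1) - (s * om) * (s * b 1)) -
        ((1 + s * N 1 1) - (s * c 1) * (s * b 1) - (s * a 1) * (s * d 1)) *
          ((s * p 0) - (s * om) * (s * b 0))) = 0 := by
    intro s
    by_contra hne
    have h4 : (J3221 k + s • B3221 a c om b d N p th e).rank ≤ 4 := by
      have h := (hT.rank_le (add_mem hA (SMulMemClass.smul_mem s hX)) 1).trans h1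
      rwa [pow_one] at h
    have h5 : 5 ≤ (J3221 k + s • B3221 a c om b d N p th e).rank := by
      refine le_rank_of_minor _ ![1, 2, 4, 6, 7] ![0, 1, 3, 5, 7] ?_
      have hM : (J3221 k + s • B3221 a c om b d N p th e).submatrix
          ![1, 2, 4, 6, 7] ![0, 1, 3, 5, 7] =
          !![1, 0, s * b 0, s * b 1, 0;
            0, 1, s * d 0, s * d 1, s * th;
            s * c 0, s * a 0, 1 + s * N 0 0, s * N 0 1, s * e 0;
            s * c 1, s * a 1, s * N 1 0, 1 + s * N 1 1, s * e 1;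
            s * om, 0, s * p 0, s * p 1, 0] := by
        ext i j
        fin_cases i <;> fin_cases j <;> simp [J3221, B3221]
      rw [hM, S3221Aux.det5]
      exact hne
    omega
  have e1 := H 1
  have e2 := H (-1)
  have e3 := H 2
  have e4 := H (-2)
  have h24 : (24 : k) * (p 0 * e 0 + p 1 * e 1) = 0 := by
    linear_combination -16 * (e1 + e2) + (e3 + e4)
  exact (mul_eq_zero.mp h24).resolve_left (by norm_num)

end Pool.Agent.Lib.D8
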