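import Pool.Agent.Lib.D8.UtilB8
import Pool.Agent.Lib.D7.T3211

/-!
# MP_5dcbc3_ag: type (3, 2, 1, 1, 1), shape of the matrices and ranks
-/

namespace Pool.Agent.Lib.D8

open Matrix Pool.Agent.Lib.Q5dc Pool.Agent.Lib.D7

namespace T32111Aux

variable {k : Type*} [Field k]

theorem shape {M : Matrix (Fin 8) (Fin 8) k} (hc : J32111 k * M = M * J32111 k)
    (hM : IsNilpotent M) :
    M = B32111 (M 3 0) (M 4 0) ![M 5 0, M 6 0, M 7 0] (M 1 3) (M 2 3) (M 4 3 - M 1 0)
      ![M 5 3, M 6 3, M 7 3] ![M 2 5, M 2 6, M 2 7] ![M 4 5, M 4 6, M 4 7]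
      !![M 5 5, M 5 6, M 5 7; M 6 5, M 6 6, M 6 7; M 7 5, M 7 6, M 7 7] +
      M 1 0 • J32111 k + M 2 0 • (J32111 k * J32111 k) := by
  have e (i j : Fin 8) : (J32111 k * M) i j = (M * J32111 k) i j := by rw [hc]
  have e00 := e 0 0; have e01 := e 0 1; have e03 := e 0 3
  have e10 := e 1 0; have e11 := e 1 1; have e12 := e 1 2; have e13 := e 1 3; have e14 := e 1 4
  have e15 := e 1 5; have e16 := e 1 6; have e17 := e 1 7
  have e20 := e 2 0; have e21 := e 2 1; have e22 := e 2 2; have e23 := e 2 3; have e24 := e 2 4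
  have e25 := e 2 5; have e26 := e 2 6; have e27 := e 2 7
  have e30 := e 3 0; have e31 := e 3 1; have e33 := e 3 3
  have e40 := e 4 0; have e41 := e 4 1; have e42 := e 4 2; have e43 := e 4 3; have e44 := e 4 4
  have e45 := e 4 5; have e46 := e 4 6; have e47 := e 4 7
  have e50 := e 5 0; have e51 := e 5 1; have e53 := e 5 3
  have e60 := e 6 0; have e61 := e 6 1; have e63 := e 6 3
  have e70 := e 7 0; have e71 := e 7 1; have e73 := e 7 3
  clear e
  simp [J32111, Matrix.mul_apply, Fin.sum_univ_succ] at e00 e01 e03 e10 e11 e12 e13 e14 e15 e16 e17 e20 e21 e22 e23 e24 e25 e26 e27 e30 e31 e33 e40 e41 e42 e43 e44 e45 e46 e47 e50 e51 e53 e60 e61 e63 e70 e71 e73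
  have h03 : M 0 3 = 0 := e13.trans e24
  have h00 : M 0 0 = 0 := by
    refine T3211Aux.nilp_row hM (w := fun j => if j = 0 then 1 else 0) (c := M 0 0) ?_ ?_
    · funext j
      fin_cases j <;> simp [Matrix.vecMul, dotProduct, ← e00, ← e01, ← e03, e15, e16, e17, h03]
    · intro h
      simpa using congrFun h 0
  have h33 : M 3 3 = 0 := by
    by_contra h
    refine h (T3211Aux.nilp_row hM
      (w := fun j => if j = 0 then M 3 0 else if j = 3 then M 3 3 else 0)
      (c := M 3 3) ?_ ?_)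
    · funext j
      fin_cases j <;> simp [Matrix.vecMul, dotProduct, Fin.sum_univ_succ, ← e00, ← e01, ← e03,
        e15, e16, e17, h03, h00, ← e30, ← e31, ← e33, e45, e46, e47, mul_comm]
    · intro h2
      exact h (by simpa using congrFun h2 3)
  have h11 : M 1 1 = 0 := e10.symm.trans h00
  have h22 : M 2 2 = 0 := e21.symm.trans h11
  have h42 : M 4 2 = 0 := e41.symm.trans e30.symm
  have h44 : M 4 4 = 0 := e43.symm.trans h33
  have h12 : M 1 2 = 0 := e22
  have h14 : M 1 4 = 0 := e24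
  ext i j
  fin_cases i <;> fin_cases j <;> simp [B32111, J32111] <;>
    first
    | assumption
    | (first | exact e00.symm | exact e01.symm | exact e03.symm | exact e30.symm | exact e31.symm
             | exact e33.symm | exact e50.symm | exact e51.symm | exact e53.symm | exact e60.symm
             | exact e61.symm | exact e63.symm | exact e70.symm | exact e71.symm | exact e73.symm
             | exact e20.symm | exact e23.symm | exact e40.symm)

theorem rank4 {M : Matrix (Fin 8) (Fin 8) k} (i j : Fin 8) (h10 : M 1 0 = 1) (h11 : M 1 1 = 0)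
    (h1j : M 1 j = 0) (h20 : M 2 0 = 0) (h21 : M 2 1 = 1) (hi1 : M i 1 = 0)
    (h : (M 4 3 - M 4 0 * M 1 3 - M 2 3 * M 4 1) * M i j -
      (M 4 j - M 2 j * M 4 1) * (M i 3 - M i 0 * M 1 3) ≠ 0) : 4 ≤ M.rank := by
  refine le_rank_of_minor M ![1, 2, 4, i] ![0, 1, 3, j] ?_
  have : M.submatrix ![1, 2, 4, i] ![0, 1, 3, j] = !![1, 0, M 1 3, 0; 0, 1, M 2 3, M 2 j;
      M 4 0, M 4 1, M 4 3, M 4 j; M i 0, 0, M i 3, M i j] := by
    ext a b
    fin_cases a <;> fin_cases b <;> simp [h10, h11, h1j, h20, h21, hi1]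
  rw [this, T3211Aux.det4]
  exact h

/-- the indices of `P` -/
def P (i : Fin 3) : Fin 8 := ![5, 6, 7] i

section entries

variable (al al1 : k) (w : Fin 3 → k) (be be1 ga : k) (pi th e : Fin 3 → k)
  (N : Matrix (Fin 3) (Fin 3) k)

theorem B_w (i : Fin 3) : B32111 al al1 w be be1 ga pi th e N (P i) 0 = w i := by
  fin_cases i <;> rfl

theorem B_pi (i : Fin 3) : B32111 al al1 w be be1 ga pi th e N (P i) 3 = pi i := by
  fin_cases i <;> rfl

theorem B_th (i : Fin 3) : B32111 al al1 w be be1 ga pi th e N 2 (P i) = th i := by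
  fin_cases i <;> rfl

theorem B_e (i : Fin 3) : B32111 al al1 w be be1 ga pi th e N 4 (P i) = e i := by
  fin_cases i <;> rfl

theorem B_N (i j : Fin 3) : B32111 al al1 w be be1 ga pi th e N (P i) (P j) = N i j := by
  fin_cases i <;> fin_cases j <;> rfl

theorem B_1P (i : Fin 3) : B32111 al al1 w be be1 ga pi th e N 1 (P i) = 0 := by
  fin_cases i <;> rfl

theorem B_P1 (i : Fin 3) : B32111 al al1 w be be1 ga pi th e N (P i) 1 = 0 := by
  fin_cases i <;> rfl

theorem J_1P (i : Fin 3) : J32111 k 1 (P i) = 0 := by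
  fin_cases i <;> rfl

theorem J_2P (i : Fin 3) : J32111 k 2 (P i) = 0 := by
  fin_cases i <;> rfl

theorem J_4P (i : Fin 3) : J32111 k 4 (P i) = 0 := by
  fin_cases i <;> rfl

theorem J_P (i : Fin 3) (j : Fin 8) : J32111 k (P i) j = 0 := by
  fin_cases i <;> fin_cases j <;> rfl

end entries

theorem comm_J (al al1 : k) (w : Fin 3 → k) (be be1 ga : k) (pi th e : Fin 3 → k)
    (N : Matrix (Fin 3) (Fin 3) k) :
    J32111 k * B32111 al al1 w be be1 ga pi th e N =
      B32111 al al1 w be be1 ga pi th e N * J32111 k := by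
  ext i j
  fin_cases i <;> fin_cases j <;> simp [J32111, B32111, Matrix.mul_apply, Fin.sum_univ_succ]

theorem B_lin (c d : k) (al al1 : k) (w : Fin 3 → k) (be be1 ga : k) (pi th e : Fin 3 → k)
    (N : Matrix (Fin 3) (Fin 3) k) (al' al1' : k) (w' : Fin 3 → k) (be' be1' ga' : k)
    (pi' th' e' : Fin 3 → k) (N' : Matrix (Fin 3) (Fin 3) k) :
    c • B32111 al al1 w be be1 ga pi th e N +
      d • B32111 al' al1' w' be' be1' ga' pi' th' e' N' =
    B32111 (c * al + d * al') (c * al1 + d * al1') (c • w + d • w')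
      (c * be + d * be') (c * be1 + d * be1') (c * ga + d * ga') (c • pi + d • pi')
      (c • th + d • th') (c • e + d • e') (c • N + d • N') := by
  ext i j
  fin_cases i <;> fin_cases j <;> simp [B32111]

theorem comm_BI {al al1 : k} {w : Fin 3 → k} {be1 ga : k} {th e : Fin 3 → k}
    {al' al1' : k} {w' : Fin 3 → k} {be1' ga' : k} {th' e' : Fin 3 → k}
    (h1 : al' * be1 + th ⬝ᵥ w' = al * be1' + th' ⬝ᵥ w)
    (h2 : al' * ga + e ⬝ᵥ w' = al * ga' + e' ⬝ᵥ w) :
    B32111 al al1 w 0 be1 ga 0 th e 0 * B32111 al' al1' w' 0 be1' ga' 0 th' e' 0 =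
    B32111 al' al1' w' 0 be1' ga' 0 th' e' 0 * B32111 al al1 w 0 be1 ga 0 th e 0 := by
  simp only [dotProduct, Fin.sum_univ_three] at h1 h2
  ext i j
  fin_cases i <;> fin_cases j <;> simp [B32111, Matrix.mul_apply, Fin.sum_univ_succ]
  · linear_combination h1
  · linear_combination h2

theorem comm_BI' {al al1 : k} {w : Fin 3 → k} {be1 ga : k} {th e : Fin 3 → k}
    {al' al1' : k} {w' : Fin 3 → k} {be1' ga' : k} {th' e' : Fin 3 → k}
    (h : B32111 al al1 w 0 be1 ga 0 th e 0 * B32111 al' al1' w' 0 be1' ga' 0 th' e' 0 =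
    B32111 al' al1' w' 0 be1' ga' 0 th' e' 0 * B32111 al al1 w 0 be1 ga 0 th e 0) :
    al' * be1 + th ⬝ᵥ w' = al * be1' + th' ⬝ᵥ w ∧
    al' * ga + e ⬝ᵥ w' = al * ga' + e' ⬝ᵥ w := by
  have h20 := congrFun (congrFun h 2) 0
  have h40 := congrFun (congrFun h 4) 0
  simp [B32111, Matrix.mul_apply, Fin.sum_univ_succ] at h20 h40
  simp only [dotProduct, Fin.sum_univ_three]
  constructor
  · linear_combination h20
  · linear_combination h40

end T32111Aux

end Pool.Agent.Lib.D8
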