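import Pool.Agent.Lib.D8.S3221

/-!
Module T3221m (1h; black boxes r1_3221, r2_3221). Type (3,2,2,1), mixed case: a ≠ 0, b ≠ 0 and C has a' = b' = p' = e' = 0.
PROOF. r1: e (x) p = 3 a (x) b ≠ 0, so e, p ≠ 0, e is parallel to a and p to b; r2: p · e = 0, so b · a = 0. Relations (B3221_comm): d · 0 + b · c' + om' th = d' · a + om th' ; om' e = N' a ; b N' = th' p (the others are trivial).
(1) om' = 0: e is free: T_s = (A, B with e replaced by (1 + s) e, C) is CN for all s (B3221_cn), MaxR for some s ≠ 0 (MaxR.line2); r1_3221 for T_s: (1 + s) e (x) p = 3 a (x) b = e (x) p, contradiction.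
(2) om' ≠ 0: choose x in k^2 with b · x ≠ 0. Family: a -> a + s x, e -> e + s om'^-1 N' x, th -> th + s om'^-1 (d' · x), the rest unchanged: CN for all s (B3221_cn: N' (a + s x) = om' e_s; the second relation by the choice of th; the relations with b, p do not change).
Take s ≠ 0 with T_s MaxR: r1: e_s (x) p = 3 (a + s x) (x) b, so (choose j with b j ≠ 0, then p j ≠ 0) e_s = (3 b j / p j) (a + s x); r2: p · e_s = 0 and p parallel to b: b · (a + s x) = 0, i.e. s (b · x) = 0, contradiction.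
-/

namespace Pool.Agent.Lib.D8

open Matrix Pool.Agent.Lib.Q5dc Pool.Agent.Lib.D7

theorem no_3221m {k : Type*} [Field k] [CharZero k] {ρ : ℕ → ℕ} (h1 : ρ 1 ≤ 4) (h2 : ρ 2 ≤ 1)
    {a c : Fin 2 → k} {om : k} {b d : Fin 2 → k} {N : Matrix (Fin 2) (Fin 2) k}
    {p : Fin 2 → k} {th : k} {e : Fin 2 → k}
    {c' : Fin 2 → k} {om' : k} {d' : Fin 2 → k} {N' : Matrix (Fin 2) (Fin 2) k} {th' : k}
    (hT : MaxR ρ ![J3221 k, B3221 a c om b d N p th e, B3221 0 c' om' 0 d' N' 0 th' 0])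
    (ha : a ≠ 0) (hb : b ≠ 0) : False := by
  obtain ⟨i₀, hi₀⟩ : ∃ i, a i ≠ 0 := by
    by_contra hc
    push Not at hc
    exact ha (funext hc)
  obtain ⟨j₀, hj₀⟩ : ∃ j, b j ≠ 0 := by
    by_contra hc
    push Not at hc
    exact hb (funext hc)
  have hcomm : B3221 a c om b d N p th e * B3221 0 c' om' 0 d' N' 0 th' 0 =
      B3221 0 c' om' 0 d' N' 0 th' 0 * B3221 a c om b d N p th e := hT.cn.1 1 2
  obtain ⟨-, g2, g3, -, -, g6, -⟩ :=
    (B3221_comm _ _ _ _ _ _ _ _ _ _ _ _ _ _ _ _ _ _).1 hcomm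
  have g2' : b ⬝ᵥ c' + om' * th = d' ⬝ᵥ a + om * th' := by
    simpa using g2
  have g3' : om' • e = N' *ᵥ a := by
    simpa using g3
  have g6' : b ᵥ* N' = th' • p := by
    simpa using g6
  have r1 := r1_3221 hT h2 (mem0 _ _ _) (mem1 _ _ _)
  have r2 := r2_3221 hT h1 (mem0 _ _ _) (mem1 _ _ _)
  by_cases hom : om' = 0
  · -- `e` is free
    have hNa : N' *ᵥ a = 0 := by rw [← g3', hom, zero_smul]
    have hfam : ∀ s : k, B3221 a c om b d N p th e + s • B3221 0 0 0 0 0 0 0 0 e =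
        B3221 a c om b d N p th (e + s • e) := by
      intro s
      rw [B3221_smul, B3221_add]
      simp only [smul_zero, mul_zero, add_zero]
    obtain ⟨s, hs, hTs⟩ := MaxR.line2 hT (B3221 0 0 0 0 0 0 0 0 e) 0 (fun s => by
      rw [hfam, smul_zero, add_zero]
      refine B3221_cn ?_ ?_ ?_ ?_ ?_ ?_ ?_
      · simp
      · rw [hom] at g2' ⊢
        simpa using g2'
      · rw [hom]
        simp [hNa]
      · simp
      · simp
      · simpa using g6'
      · simp) (Set.finite_singleton (0 : k))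
    rw [Set.mem_singleton_iff] at hs
    rw [hfam, smul_zero, add_zero] at hTs
    have r1' := r1_3221 hTs h2 (mem0 _ _ _) (mem1 _ _ _) i₀ j₀
    have r1'' := r1 i₀ j₀
    simp only [Pi.add_apply, Pi.smul_apply, smul_eq_mul] at r1'
    have h3 : s * (3 * (a i₀ * b j₀)) = 0 := by linear_combination r1' - (1 + s) * r1''
    exact mul_ne_zero hs (mul_ne_zero three_ne_zero (mul_ne_zero hi₀ hj₀)) h3
  · obtain ⟨x, hx⟩ : ∃ x : Fin 2 → k, b ⬝ᵥ x ≠ 0 :=
      ⟨Pi.single j₀ 1, by rw [dotProduct_single, mul_one]; exact hj₀⟩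
    have hfam : ∀ s : k, B3221 a c om b d N p th e +
        s • B3221 x 0 0 0 0 0 0 (om'⁻¹ * (d' ⬝ᵥ x)) (om'⁻¹ • (N' *ᵥ x)) =
        B3221 (a + s • x) c om b d N p (th + s * (om'⁻¹ * (d' ⬝ᵥ x)))
          (e + s • om'⁻¹ • (N' *ᵥ x)) := by
      intro s
      rw [B3221_smul, B3221_add]
      simp only [smul_zero, mul_zero, add_zero]
    obtain ⟨s, hs, hTs⟩ := MaxR.line2 hT
      (B3221 x 0 0 0 0 0 0 (om'⁻¹ * (d' ⬝ᵥ x)) (om'⁻¹ • (N' *ᵥ x))) 0 (fun s => by
      rw [hfam, smul_zero, add_zero]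
      refine B3221_cn ?_ ?_ ?_ ?_ ?_ ?_ ?_
      · simp
      · have h3 : om' * (s * (om'⁻¹ * (d' ⬝ᵥ x))) = s * (d' ⬝ᵥ x) := by
          field_simp
        have h4 : om' * (th + s * (om'⁻¹ * (d' ⬝ᵥ x))) = om' * th + s * (d' ⬝ᵥ x) := by
          rw [mul_add, h3]
        have h5 : d' ⬝ᵥ (a + s • x) = d' ⬝ᵥ a + s * (d' ⬝ᵥ x) := by
          rw [dotProduct_add, dotProduct_smul, smul_eq_mul]
        rw [h4, h5]
        simp only [dotProduct_zero, zero_dotProduct, zero_add]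
        linear_combination g2'
      · have h4 : om' • (e + s • om'⁻¹ • (N' *ᵥ x)) = om' • e + s • (N' *ᵥ x) := by
          rw [smul_add, smul_comm om' s, smul_smul om', mul_inv_cancel₀ hom, one_smul]
        have h5 : N' *ᵥ (a + s • x) = N' *ᵥ a + s • (N' *ᵥ x) := by
          rw [mulVec_add, mulVec_smul]
        rw [h4, h5, g3']
        simp
      · simp
      · simp
      · simpa using g6'
      · simp) (Set.finite_singleton (0 : k))
    rw [Set.mem_singleton_iff] at hs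
    rw [hfam, smul_zero, add_zero] at hTs
    have q1 := r1_3221 hTs h2 (mem0 _ _ _) (mem1 _ _ _)
    have q2 := r2_3221 hTs h1 (mem0 _ _ _) (mem1 _ _ _)
    have q00 := q1 0 0
    have q11 := q1 1 1
    have r00 := r1 0 0
    have r11 := r1 1 1
    simp only [Pi.add_apply, Pi.smul_apply, smul_eq_mul] at q00 q11 q2
    have h3 : s * (b 0 * x 0 + b 1 * x 1) = 0 := by
      have h4 : (3 : k) * (s * (b 0 * x 0 + b 1 * x 1)) = 0 := by
        linear_combination q2 - q00 - q11 - r2 + r00 + r11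
      exact (mul_eq_zero.1 h4).resolve_left three_ne_zero
    have h5 : b ⬝ᵥ x = b 0 * x 0 + b 1 * x 1 := by
      rw [dotProduct, Fin.sum_univ_two]
    rw [← h5] at h3
    exact mul_ne_zero hs hx h3

end Pool.Agent.Lib.D8
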