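import Pool.Agent.Lib.D8.C3311

/-!
Module T3311I (2h; black box cl_3311N). Type (3,3,1,1) with W = 1. Relation (B3311_comm): N N' + T S = N' N + T', i.e. T' = [N, N'] + T S; N, N', S, T, M, M' are free.
PROOF. (1) Family S -> S + s D, T' -> T' + s T D with D = !![1, 1; 0, 0] (MaxR.line2): discriminant (s + S00 - S11)^2 + 4 (S01 + s) S10 ≠ 0 and S01 + s ≠ 0 for almost all s. So WLOG S has different eigenvalues; conj by G3311 g g (W = 1 stays): S = diag(x, y), x ≠ y.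
(2) X := (x - y)^-1 (C - y B), Z := (y - x)^-1 (C - x B) (MaxR.lin): W_X = !![1, 0; 0, 0], W_Z = !![0, 0; 0, 1]. Subtract multiples of A (= B3311 1 0 0 0): N_X 1 1 = 0, N_Z 0 0 = 0. Relation: N_X N_Z + T_X !![0,0;0,1] = N_Z N_X + T_Z !![1,0;0,0]: it determines column 1 of T_X and column 0 of T_Z, the rest is free.
(3) Deform N_X 0 1 ≠ 0: family N_X + s E01, column 1 of T_X changes by - s column 1 of [E01, N_Z], column 0 of T_Z by + s column 0 of [E01, N_Z]. Same for N_Z 1 0 ≠ 0 (family N_Z + s E10).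
(4) Scale X by (N_X 0 1)^-1 and Z by (N_Z 1 0)^-1; conj by G3311 1 diag(..) to restore W_X = !![1,0;0,0], W_Z = !![0,0;0,1]. Now N_X = !![n00, 1; n10, 0], N_Z = !![0, n01; 1, n11].
(5) X -> X - M_X 1 1 A^2 - M_X 0 1 A X (A^2 = B3311 0 1 0 0, A X = B3311 0 N_X 0 0): column 1 of M_X becomes 0; Z -> Z - M_Z 0 0 A^2 - M_Z 1 0 A Z: column 0 of M_Z becomes 0 (MaxR.change3; inverse change: X = X' + M11 A^2 + M01 A X',
because A X = A X'). Now cl_3311N contradicts hT.ncl.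
-/

set_option autoImplicit false

namespace Pool.Agent.Lib.D8

open Matrix Pool.Agent.Lib.Q5dc Pool.Agent.Lib.D7

namespace T3311IAux

theorem conj3 {k n : Type*} [Field k] [Fintype n] [DecidableEq n] {ρ : ℕ → ℕ}
    {A B C A' B' C' g h : Matrix n n k} (hT : MaxR ρ ![A, B, C]) (hg : g * h = 1)
    (hh : h * g = 1) (hA : g * A * h = A') (hB : g * B * h = B') (hC : g * C * h = C') :
    MaxR ρ ![A', B', C'] := by
  have h1 := hT.conj g h hg hh
  have h2 : (fun i => g * (![A, B, C] : Fin 3 → Matrix n n k) i * h) = ![A', B', C'] := by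
    funext i
    fin_cases i
    · exact hA
    · exact hB
    · exact hC
  rwa [h2] at h1

theorem rel {k : Type*} [Field k] {ρ : ℕ → ℕ} {N M W T N' M' W' T' : Matrix (Fin 2) (Fin 2) k}
    (hT : MaxR ρ ![J3311 k, B3311 N M W T, B3311 N' M' W' T']) :
    N * N' + T * W' = N' * N + T' * W :=
  (B3311_comm _ _ _ _ _ _ _ _).1 (hT.cn.1 1 2)

variable {k : Type*} [Field k] [IsAlgClosed k] [CharZero k] {ρ : ℕ → ℕ}

theorem J_mul (N M W T : Matrix (Fin 2) (Fin 2) k) :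
    J3311 k * B3311 N M W T = B3311 0 N 0 0 := by
  rw [J3311_eq, B3311_mul]
  simp

theorem J_sq : J3311 k * J3311 k = B3311 0 1 0 0 := by
  rw [J3311_eq, B3311_mul]
  simp

/-- step (5) -/
theorem step5 (hcl : ∀ G : Fin 6 × Fin 2 → k, Cl (TG G))
    {n00 n10 n01 n11 a b c d a' b' c' d' : k} {T1 T2 : Matrix (Fin 2) (Fin 2) k}
    (hT : MaxR ρ ![J3311 k, B3311 !![n00, 1; n10, 0] !![a, b; c, d] !![1, 0; 0, 0] T1,
      B3311 !![0, n01; 1, n11] !![a', b'; c', d'] !![0, 0; 0, 1] T2]) : False := by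
  have hr := rel hT
  set X := B3311 !![n00, 1; n10, 0] !![a, b; c, d] !![1, 0; 0, 0] T1 with hX
  set Z := B3311 !![0, n01; 1, n11] !![a', b'; c', d'] !![0, 0; 0, 1] T2 with hZ
  set X' := B3311 !![n00, 1; n10, 0] !![a - d - b * n00, 0; c - b * n10, 0] !![1, 0; 0, 0] T1
    with hX'
  set Z' := B3311 !![0, n01; 1, n11] !![0, b' - c' * n01; 0, d' - a' - c' * n11]
    !![0, 0; 0, 1] T2 with hZ'
  have sm : ∀ {T : Fin 3 → Matrix (Fin 8) (Fin 8) k} {M : Matrix (Fin 8) (Fin 8) k} (s : k),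
      M ∈ adj T → s • M ∈ adj T := fun s hM => SMulMemClass.smul_mem s hM
  have e1 : X' = X + (-d) • (J3311 k * J3311 k) + (-b) • (J3311 k * X) := by
    rw [hX, hX', J_sq, J_mul, B3311_smul, B3311_smul, B3311_add, B3311_add, B3311_inj]
    refine ⟨?_, ?_, ?_, ?_⟩
    · simp
    · ext i j
      fin_cases i <;> fin_cases j <;> simp <;> ring
    · simp
    · simp
  have e2 : Z' = Z + (-a') • (J3311 k * J3311 k) + (-c') • (J3311 k * Z) := by
    rw [hZ, hZ', J_sq, J_mul, B3311_smul, B3311_smul, B3311_add, B3311_add, B3311_inj]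
    refine ⟨?_, ?_, ?_, ?_⟩
    · simp
    · ext i j
      fin_cases i <;> fin_cases j <;> simp <;> ring
    · simp
    · simp
  have e3 : X = X' + d • (J3311 k * J3311 k) + b • (J3311 k * X') := by
    have h1 : J3311 k * X' = J3311 k * X := by rw [hX, hX', J_mul, J_mul]
    rw [h1, e1]
    module
  have e4 : Z = Z' + a' • (J3311 k * J3311 k) + c' • (J3311 k * Z') := by
    have h1 : J3311 k * Z' = J3311 k * Z := by rw [hZ, hZ', J_mul, J_mul]
    rw [h1, e2]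
    module
  have m0 := mem0 (J3311 k) X Z
  have m1 := mem1 (J3311 k) X Z
  have m2 := mem2 (J3311 k) X Z
  have n0 := mem0 (J3311 k) X' Z'
  have n1 := mem1 (J3311 k) X' Z'
  have n2 := mem2 (J3311 k) X' Z'
  have hT' : MaxR ρ ![J3311 k, X', Z'] := by
    refine MaxR.change3 hT ?_ ?_ ?_ ?_
    · rw [e1]
      exact add_mem (add_mem m1 (sm _ (mul_mem m0 m0))) (sm _ (mul_mem m0 m1))
    · rw [e2]
      exact add_mem (add_mem m2 (sm _ (mul_mem m0 m0))) (sm _ (mul_mem m0 m2))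
    · rw [e3]
      exact add_mem (add_mem n1 (sm _ (mul_mem n0 n0))) (sm _ (mul_mem n0 n1))
    · rw [e4]
      exact add_mem (add_mem n2 (sm _ (mul_mem n0 n0))) (sm _ (mul_mem n0 n2))
  exact hT'.ncl (cl_3311N hcl hr)

/-- a diagonal matrix -/
def dg (x y : k) : Matrix (Fin 2) (Fin 2) k := !![x, 0; 0, y]

omit [IsAlgClosed k] [CharZero k] in
theorem dg_mul (x y z w : k) : dg x y * dg z w = dg (x * z) (y * w) := by
  ext i j
  fin_cases i <;> fin_cases j <;> simp [dg, Matrix.mul_apply, Fin.sum_univ_two]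

omit [IsAlgClosed k] [CharZero k] in
theorem dg_one : dg (1 : k) 1 = 1 := by
  ext i j
  fin_cases i <;> fin_cases j <;> simp [dg]

/-- step (4) -/
theorem step4 (hcl : ∀ G : Fin 6 × Fin 2 → k, Cl (TG G))
    {n00 p n10 n01 q n11 : k} {M M' T1 T2 : Matrix (Fin 2) (Fin 2) k} (hp : p ≠ 0) (hq : q ≠ 0)
    (hT : MaxR ρ ![J3311 k, B3311 !![n00, p; n10, 0] M !![1, 0; 0, 0] T1,
      B3311 !![0, n01; q, n11] M' !![0, 0; 0, 1] T2]) : False := by
  have h1 := MaxR.lin hT p⁻¹ 0 0 q⁻¹ 0 0 0 0 (by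
    rw [mul_zero, sub_zero]
    exact mul_ne_zero (inv_ne_zero hp) (inv_ne_zero hq))
  have hg : G3311 (1 : Matrix (Fin 2) (Fin 2) k) (dg p q) * G3311 1 (dg p⁻¹ q⁻¹) = 1 := by
    rw [G3311_mul, dg_mul, mul_inv_cancel₀ hp, mul_inv_cancel₀ hq, dg_one, Matrix.one_mul,
      G3311_one]
  have hh := mul_eq_one_comm.1 hg
  have h2 := conj3 h1 hg hh (G3311_J _ _ _ _ (Matrix.one_mul 1)) rfl rfl
  refine step5 hcl (n00 := p⁻¹ * n00) (n10 := p⁻¹ * n10) (n01 := q⁻¹ * n01) (n11 := q⁻¹ * n11)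
    (a := p⁻¹ * M 0 0) (b := p⁻¹ * M 0 1) (c := p⁻¹ * M 1 0) (d := p⁻¹ * M 1 1)
    (a' := q⁻¹ * M' 0 0) (b' := q⁻¹ * M' 0 1) (c' := q⁻¹ * M' 1 0) (d' := q⁻¹ * M' 1 1)
    (T1 := p⁻¹ • T1 * dg p⁻¹ q⁻¹) (T2 := q⁻¹ • T2 * dg p⁻¹ q⁻¹) (ρ := ρ) ?_
  convert h2 using 4
  · simp only [zero_smul, add_zero]
    rw [B3311_smul, G3311_conj, B3311_inj]
    refine ⟨?_, ?_, ?_, ?_⟩
    · ext i j
      fin_cases i <;> fin_cases j <;> simp [hp]
    · ext i j
      fin_cases i <;> fin_cases j <;> simp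
    · ext i j
      fin_cases i <;> fin_cases j <;>
        simp [dg, Matrix.mul_apply, Fin.sum_univ_two, hp]
    · simp
  · simp only [zero_smul, add_zero, zero_add]
    rw [B3311_smul, G3311_conj, B3311_inj]
    refine ⟨?_, ?_, ?_, ?_⟩
    · ext i j
      fin_cases i <;> fin_cases j <;> simp [hq]
    · ext i j
      fin_cases i <;> fin_cases j <;> simp
    · ext i j
      fin_cases i <;> fin_cases j <;>
        simp [dg, Matrix.mul_apply, Fin.sum_univ_two, hq]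
    · simp

/-- deformation of `N_X`, `N_Z` -/
theorem def_N {N M T1 N' M' T2 : Matrix (Fin 2) (Fin 2) k} (E E' : Matrix (Fin 2) (Fin 2) k)
    (hE : E * E' = E' * E)
    (hT : MaxR ρ ![J3311 k, B3311 N M (dg 1 0) T1, B3311 N' M' (dg 0 1) T2]) {F : Set k}
    (hF : F.Finite) :
    ∃ s ∉ F, ∃ T1' T2', MaxR ρ ![J3311 k, B3311 (N + s • E) M (dg 1 0) T1',
      B3311 (N' + s • E') M' (dg 0 1) T2'] := by
  have hk : Infinite k := IsAlgClosed.instInfinite
  have hr := rel hT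
  set K := E * N' - N' * E + (N * E' - E' * N) with hK
  have hd : dg (0 : k) 1 * dg 0 1 + dg 1 0 * dg 1 0 = 1 := by
    rw [dg_mul, dg_mul]
    ext i j
    fin_cases i <;> fin_cases j <;> simp [dg]
  have hfam : ∀ s : k, B3311 N M (dg 1 0) T1 + s • B3311 E 0 0 (-(K * dg 0 1)) =
      B3311 (N + s • E) M (dg 1 0) (T1 + s • -(K * dg 0 1)) := by
    intro s
    rw [B3311_smul, B3311_add]
    simp
  have hfam' : ∀ s : k, B3311 N' M' (dg 0 1) T2 + s • B3311 E' 0 0 (K * dg 1 0) =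
      B3311 (N' + s • E') M' (dg 0 1) (T2 + s • (K * dg 1 0)) := by
    intro s
    rw [B3311_smul, B3311_add]
    simp
  obtain ⟨s, hs, h1⟩ := MaxR.line2 hT (B3311 E 0 0 (-(K * dg 0 1))) (B3311 E' 0 0 (K * dg 1 0))
    (by
      intro s
      rw [hfam, hfam']
      refine B3311_cn ?_
      have e1 : (N + s • E) * (N' + s • E') + (T1 + s • -(K * dg 0 1)) * dg 0 1 -
          ((N' + s • E') * (N + s • E) + (T2 + s • (K * dg 1 0)) * dg 1 0) =
          (N * N' + T1 * dg 0 1 - (N' * N + T2 * dg 1 0)) + s • (K -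
            K * (dg 0 1 * dg 0 1 + dg 1 0 * dg 1 0)) + (s * s) • (E * E' - E' * E) := by
        rw [hK]
        simp only [add_mul, mul_add, smul_mul_assoc, mul_smul_comm, smul_add, neg_mul, smul_neg,
          sub_mul, smul_sub, smul_smul, mul_assoc]
        abel
      rw [hd, mul_one, sub_self, smul_zero, add_zero, hE, sub_self, smul_zero, add_zero, hr,
        sub_self] at e1
      exact sub_eq_zero.1 e1) hF
  rw [hfam, hfam'] at h1
  exact ⟨s, hs, _, _, h1⟩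

/-- step (3) -/
theorem step3 (hcl : ∀ G : Fin 6 × Fin 2 → k, Cl (TG G))
    {N M T1 N' M' T2 : Matrix (Fin 2) (Fin 2) k} (h11 : N 1 1 = 0) (h00 : N' 0 0 = 0)
    (hT : MaxR ρ ![J3311 k, B3311 N M (dg 1 0) T1, B3311 N' M' (dg 0 1) T2]) : False := by
  obtain ⟨s, hs, S1, S2, hT1⟩ := def_N !![0, 1; 0, 0] 0 (by simp) hT
    (Set.finite_singleton (-(N 0 1)))
  obtain ⟨t, ht, R1, R2, hT2⟩ := def_N 0 !![0, 0; 1, 0] (by simp) hT1
    (Set.finite_singleton (-(N' 1 0)))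
  have hp : N 0 1 + s ≠ 0 := fun h => hs (eq_neg_of_add_eq_zero_right h)
  have hq : N' 1 0 + t ≠ 0 := fun h => ht (eq_neg_of_add_eq_zero_right h)
  refine step4 hcl (n00 := N 0 0) (p := N 0 1 + s) (n10 := N 1 0) (n01 := N' 0 1)
    (q := N' 1 0 + t) (n11 := N' 1 1) (M := M) (M' := M') (T1 := R1) (T2 := R2) hp hq (ρ := ρ) ?_
  have e1 : N + s • !![0, 1; 0, 0] + t • (0 : Matrix (Fin 2) (Fin 2) k) =
      !![N 0 0, N 0 1 + s; N 1 0, 0] := by
    ext i j
    fin_cases i <;> fin_cases j <;> simp [h11]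
  have e2 : N' + s • (0 : Matrix (Fin 2) (Fin 2) k) + t • !![0, 0; 1, 0] =
      !![0, N' 0 1; N' 1 0 + t, N' 1 1] := by
    ext i j
    fin_cases i <;> fin_cases j <;> simp [h00]
  rw [e1, e2] at hT2
  exact hT2

/-- step (2) -/
theorem step2 (hcl : ∀ G : Fin 6 × Fin 2 → k, Cl (TG G))
    {N M T N' M' T' : Matrix (Fin 2) (Fin 2) k} {x y : k} (hxy : x - y ≠ 0)
    (hT : MaxR ρ ![J3311 k, B3311 N M 1 T, B3311 N' M' (dg x y) T']) : False := by
  obtain ⟨r, hr⟩ : ∃ r, r = (x - y)⁻¹ := ⟨_, rfl⟩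
  have hr1 : r * (x - y) = 1 := by rw [hr, inv_mul_cancel₀ hxy]
  have hr0 : r ≠ 0 := by rw [hr]; exact inv_ne_zero hxy
  have h1 := MaxR.lin hT (-(r * y)) r (r * x) (-r) (-(-(r * y) * N 1 1 + r * N' 1 1)) 0
    (-(r * x * N 0 0 + -r * N' 0 0)) 0 (by
      have : -(r * y) * -r - r * (r * x) = -r * (r * (x - y)) := by ring
      rw [this, hr1, mul_one]
      exact neg_ne_zero.2 hr0)
  refine step3 hcl (N := (-(r * y)) • N + r • N' + (-(-(r * y) * N 1 1 + r * N' 1 1)) • 1)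
    (M := (-(r * y)) • M + r • M') (T1 := (-(r * y)) • T + r • T')
    (N' := (r * x) • N + (-r) • N' + (-(r * x * N 0 0 + -r * N' 0 0)) • 1)
    (M' := (r * x) • M + (-r) • M') (T2 := (r * x) • T + (-r) • T') (ρ := ρ) ?_ ?_ ?_
  · simp
  · simp
  · convert h1 using 4
    · rw [J3311_eq, zero_smul, add_zero, B3311_smul, B3311_smul, B3311_smul, B3311_add, B3311_add,
        B3311_inj]
      refine ⟨rfl, by simp, ?_, by simp⟩
      ext i j
      fin_cases i <;> fin_cases j <;> simp [dg]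
      linear_combination -hr1
    · rw [J3311_eq, zero_smul, add_zero, B3311_smul, B3311_smul, B3311_smul, B3311_add, B3311_add,
        B3311_inj]
      refine ⟨rfl, by simp, ?_, by simp⟩
      ext i j
      fin_cases i <;> fin_cases j <;> simp [dg]
      linear_combination -hr1

/-- step (1), `S` with different eigenvalues -/
theorem step1 (hcl : ∀ G : Fin 6 × Fin 2 → k, Cl (TG G))
    {N M T N' M' S T' : Matrix (Fin 2) (Fin 2) k} (h01 : S 0 1 ≠ 0)
    (hd : (S 0 0 - S 1 1) ^ 2 + 4 * (S 0 1 * S 1 0) ≠ 0)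
    (hT : MaxR ρ ![J3311 k, B3311 N M 1 T, B3311 N' M' S T']) : False := by
  obtain ⟨r, hr⟩ := IsAlgClosed.exists_pow_nat_eq ((S 0 0 - S 1 1) ^ 2 + 4 * (S 0 1 * S 1 0))
    (n := 2) two_pos
  have hr0 : r ≠ 0 := by
    rintro rfl
    rw [zero_pow two_ne_zero] at hr
    exact hd hr.symm
  obtain ⟨x, hx⟩ : ∃ x, x = (S 0 0 + S 1 1 + r) / 2 := ⟨_, rfl⟩
  obtain ⟨y, hy⟩ : ∃ y, y = (S 0 0 + S 1 1 - r) / 2 := ⟨_, rfl⟩
  have hxy : x - y = r := by rw [hx, hy]; ring
  have hxs : x + y = S 0 0 + S 1 1 := by rw [hx, hy]; ring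
  have hxp : x * y = S 0 0 * S 1 1 - S 0 1 * S 1 0 := by
    rw [hx, hy]
    linear_combination -(1 / 4 : k) * hr
  obtain ⟨w, hw⟩ : ∃ w, w = (S 0 1 * (y - x))⁻¹ := ⟨_, rfl⟩
  have hw1 : w * (S 0 1 * (y - x)) = 1 := by
    rw [hw]
    refine inv_mul_cancel₀ (mul_ne_zero h01 ?_)
    rw [← neg_sub, hxy]
    exact neg_ne_zero.2 hr0
  set h : Matrix (Fin 2) (Fin 2) k := !![S 0 1, S 0 1; x - S 0 0, y - S 0 0] with hh
  set g : Matrix (Fin 2) (Fin 2) k :=
    !![w * (y - S 0 0), -(w * S 0 1); -(w * (x - S 0 0)), w * S 0 1] with hg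
  have hgh : g * h = 1 := by
    ext i j
    fin_cases i <;> fin_cases j <;> simp [hg, hh, Matrix.mul_apply, Fin.sum_univ_two]
    · linear_combination hw1
    · ring
    · ring
    · linear_combination hw1
  have hhg := mul_eq_one_comm.1 hgh
  have hSg : g * S * h = dg x y := by
    have e1 : S * h = h * dg x y := by
      ext i j
      fin_cases i <;> fin_cases j <;> simp [hh, dg, Matrix.mul_apply, Fin.sum_univ_two]
      · ring
      · ring
      · linear_combination -x * hxs + hxp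
      · linear_combination -y * hxs + hxp
    rw [Matrix.mul_assoc, e1, ← Matrix.mul_assoc, hgh, Matrix.one_mul]
  have hG : G3311 g g * G3311 h h = 1 := by rw [G3311_mul, hgh, G3311_one]
  have hG' := mul_eq_one_comm.1 hG
  have h1 := conj3 hT hG hG' (G3311_J _ _ _ _ hgh) (G3311_conj g h g h N M 1 T)
    (G3311_conj g h g h N' M' S T')
  rw [Matrix.mul_one, hgh, hSg] at h1
  exact step2 hcl (by rw [hxy]; exact hr0) h1

end T3311IAux

open T3311IAux

theorem no_3311I {k : Type*} [Field k] [IsAlgClosed k] [CharZero k] {ρ : ℕ → ℕ}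
    (hcl : ∀ G : Fin 6 × Fin 2 → k, Cl (TG G))
    {N M T N' M' S T' : Matrix (Fin 2) (Fin 2) k}
    (hT : MaxR ρ ![J3311 k, B3311 N M 1 T, B3311 N' M' S T']) : False := by
  have hk : Infinite k := IsAlgClosed.instInfinite
  have hr := rel hT
  obtain ⟨D, hD⟩ : ∃ D : Matrix (Fin 2) (Fin 2) k, D = !![1, 1; 0, 0] := ⟨_, rfl⟩
  have hfam : ∀ s : k, B3311 N M 1 T + s • (0 : Matrix (Fin 8) (Fin 8) k) = B3311 N M 1 T := by
    intro s
    rw [smul_zero, add_zero]
  have hfam' : ∀ s : k, B3311 N' M' S T' + s • B3311 0 0 D (T * D) =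
      B3311 N' M' (S + s • D) (T' + s • (T * D)) := by
    intro s
    rw [B3311_smul, B3311_add]
    simp
  have hfin : ({-(S 0 1)} ∪ {s : k | ((S 0 0 - S 1 1) ^ 2 + 4 * (S 0 1 * S 1 0)) +
      (2 * (S 0 0 - S 1 1) + 4 * S 1 0) * s + 1 * s ^ 2 = 0}).Finite :=
    (Set.finite_singleton _).union (finite_quad (Or.inr (Or.inr one_ne_zero)))
  obtain ⟨s, hs, h1⟩ := MaxR.line2 hT 0 (B3311 0 0 D (T * D)) (by
    intro s
    rw [hfam, hfam']
    refine B3311_cn ?_
    rw [mul_add, mul_one, ← add_assoc, mul_smul_comm]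
    have h2 : N * N' + T * S + s • (T * D) = N' * N + T' * 1 + s • (T * D) := by rw [hr]
    rw [h2, mul_one]
    abel) hfin
  rw [hfam, hfam'] at h1
  refine step1 hcl ?_ ?_ h1
  · intro h
    apply hs
    left
    have : S 0 1 + s = 0 := by simpa [hD] using h
    exact eq_neg_of_add_eq_zero_right this
  · intro h
    apply hs
    right
    show ((S 0 0 - S 1 1) ^ 2 + 4 * (S 0 1 * S 1 0)) +
      (2 * (S 0 0 - S 1 1) + 4 * S 1 0) * s + 1 * s ^ 2 = 0
    simp [hD] at h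
    linear_combination h

end Pool.Agent.Lib.D8
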