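import Pool.Agent.Lib.D8.UtilB8
import Pool.Agent.Lib.D7.T3211b

/-!
# MP_5dcbc3_ag: type (4,2,1,1), tools and the last step of the script A case
-/

namespace Pool.Agent.Lib.D8

open Matrix Pool.Agent.Lib.Q5dc Pool.Agent.Lib.D7

namespace T4211Aux

variable {k : Type*} [Field k]

/-- `B4211` with scalar parameters -/
def Q (al al1 w0 w1 be be1 ga p0 p1 t0 t1 e0 e1 n00 n01 n10 n11 : k) :
    Matrix (Fin 8) (Fin 8) k :=
  !![0, 0, 0, 0, 0, 0, 0, 0;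
     0, 0, 0, 0, 0, 0, 0, 0;
     0, 0, 0, 0, be, 0, 0, 0;
     0, 0, 0, 0, be1, be, t0, t1;
     al, 0, 0, 0, 0, 0, 0, 0;
     al1, al, 0, 0, ga, 0, e0, e1;
     w0, 0, 0, 0, p0, 0, n00, n01;
     w1, 0, 0, 0, p1, 0, n10, n11]

theorem J2 : J4211 k * J4211 k =
    !![0, 0, 0, 0, 0, 0, 0, 0;
     0, 0, 0, 0, 0, 0, 0, 0;
     1, 0, 0, 0, 0, 0, 0, 0;
     0, 1, 0, 0, 0, 0, 0, 0;
     0, 0, 0, 0, 0, 0, 0, 0;
     0, 0, 0, 0, 0, 0, 0, 0;
     0, 0, 0, 0, 0, 0, 0, 0;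
     0, 0, 0, 0, 0, 0, 0, 0] := by
  ext i j
  fin_cases i <;> fin_cases j <;> simp [J4211, Matrix.mul_apply, Fin.sum_univ_succ]

theorem J3 : J4211 k * (J4211 k * J4211 k) =
    !![0, 0, 0, 0, 0, 0, 0, 0;
     0, 0, 0, 0, 0, 0, 0, 0;
     0, 0, 0, 0, 0, 0, 0, 0;
     1, 0, 0, 0, 0, 0, 0, 0;
     0, 0, 0, 0, 0, 0, 0, 0;
     0, 0, 0, 0, 0, 0, 0, 0;
     0, 0, 0, 0, 0, 0, 0, 0;
     0, 0, 0, 0, 0, 0, 0, 0] := by
  rw [J2]
  ext i j
  fin_cases i <;> fin_cases j <;> simp [J4211, Matrix.mul_apply, Fin.sum_univ_succ]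

theorem shape {M : Matrix (Fin 8) (Fin 8) k} (hc : J4211 k * M = M * J4211 k)
    (hM : IsNilpotent M) :
    M = Q (M 4 0) (M 5 0) (M 6 0) (M 7 0) (M 2 4) (M 3 4) (M 5 4 - M 1 0) (M 6 4) (M 7 4)
      (M 3 6) (M 3 7) (M 5 6) (M 5 7) (M 6 6) (M 6 7) (M 7 6) (M 7 7) +
      M 1 0 • J4211 k + M 2 0 • (J4211 k * J4211 k) + M 3 0 • (J4211 k * (J4211 k * J4211 k)) := by
  have e (i j : Fin 8) : (J4211 k * M) i j = (M * J4211 k) i j := by rw [hc]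
  have e00 := e 0 0; have e01 := e 0 1; have e02 := e 0 2; have e04 := e 0 4
  have e10 := e 1 0; have e11 := e 1 1; have e12 := e 1 2; have e13 := e 1 3; have e14 := e 1 4
  have e15 := e 1 5; have e16 := e 1 6; have e17 := e 1 7
  have e20 := e 2 0; have e21 := e 2 1; have e22 := e 2 2; have e23 := e 2 3; have e24 := e 2 4
  have e25 := e 2 5; have e26 := e 2 6; have e27 := e 2 7
  have e30 := e 3 0; have e31 := e 3 1; have e32 := e 3 2; have e33 := e 3 3; have e34 := e 3 4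
  have e35 := e 3 5; have e36 := e 3 6; have e37 := e 3 7
  have e40 := e 4 0; have e41 := e 4 1; have e42 := e 4 2; have e44 := e 4 4
  have e50 := e 5 0; have e51 := e 5 1; have e52 := e 5 2; have e53 := e 5 3; have e54 := e 5 4
  have e55 := e 5 5; have e56 := e 5 6; have e57 := e 5 7
  have e60 := e 6 0; have e61 := e 6 1; have e62 := e 6 2; have e64 := e 6 4
  have e70 := e 7 0; have e71 := e 7 1; have e72 := e 7 2; have e74 := e 7 4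
  clear e
  simp [J4211, Matrix.mul_apply, Fin.sum_univ_succ] at e00 e01 e02 e04 e10 e11 e12 e13 e14 e15 e16 e17 e20 e21 e22 e23 e24 e25 e26 e27 e30 e31 e32 e33 e34 e35 e36 e37 e40 e41 e42 e44 e50 e51 e52 e53 e54 e55 e56 e57 e60 e61 e62 e64 e70 e71 e72 e74
  have h04 : M 0 4 = 0 := e14.trans e25
  have h14 : M 1 4 = 0 := e24.trans e35
  have h00 : M 0 0 = 0 := by
    refine T3211Aux.nilp_row hM (w := fun j => if j = 0 then 1 else 0) (c := M 0 0) ?_ ?_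
    · funext j
      fin_cases j <;> simp [Matrix.vecMul, dotProduct, ← e00, ← e01, ← e02, ← e04, e16, e17, h04]
    · intro h
      simpa using congrFun h 0
  have h44 : M 4 4 = 0 := by
    by_contra h
    refine h (T3211Aux.nilp_row hM (w := fun j => if j = 0 then M 4 0 else if j = 4 then M 4 4 else 0)
      (c := M 4 4) ?_ ?_)
    · funext j
      fin_cases j <;> simp [Matrix.vecMul, dotProduct, Fin.sum_univ_succ, ← e00, ← e01, ← e02,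
        ← e04, e16, e17, h04, h00, ← e40, ← e41, ← e42, ← e44, e56, e57, mul_comm]
    · intro h2
      exact h (by simpa using congrFun h2 4)
  have h11 : M 1 1 = 0 := e10.symm.trans h00
  have h22 : M 2 2 = 0 := e21.symm.trans h11
  have h33 : M 3 3 = 0 := e32.symm.trans h22
  have h55 : M 5 5 = 0 := e54.symm.trans h44
  have h12 : M 1 2 = 0 := e11.symm.trans e00.symm
  have h32 : M 3 2 = M 1 0 := e31.symm.trans e20.symm
  have h52 : M 5 2 = 0 := e51.symm.trans e40.symm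
  have h53 : M 5 3 = 0 := e52.symm.trans e41.symm
  rw [J3, J2]
  ext i j
  fin_cases i <;> fin_cases j <;> simp [Q, J4211]
  all_goals first | assumption | (symm; assumption)

theorem Q_lin (c d al al1 w0 w1 be be1 ga p0 p1 t0 t1 e0 e1 n00 n01 n10 n11
    al' al1' w0' w1' be' be1' ga' p0' p1' t0' t1' e0' e1' n00' n01' n10' n11' : k) :
    c • Q al al1 w0 w1 be be1 ga p0 p1 t0 t1 e0 e1 n00 n01 n10 n11 +
      d • Q al' al1' w0' w1' be' be1' ga' p0' p1' t0' t1' e0' e1' n00' n01' n10' n11' =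
    Q (c * al + d * al') (c * al1 + d * al1') (c * w0 + d * w0') (c * w1 + d * w1')
      (c * be + d * be') (c * be1 + d * be1') (c * ga + d * ga') (c * p0 + d * p0')
      (c * p1 + d * p1') (c * t0 + d * t0') (c * t1 + d * t1') (c * e0 + d * e0')
      (c * e1 + d * e1') (c * n00 + d * n00') (c * n01 + d * n01') (c * n10 + d * n10')
      (c * n11 + d * n11') := by
  ext i j
  fin_cases i <;> fin_cases j <;> simp [Q]

theorem Q_congr {al al1 w0 w1 be be1 ga p0 p1 t0 t1 e0 e1 n00 n01 n10 n11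
    al' al1' w0' w1' be' be1' ga' p0' p1' t0' t1' e0' e1' n00' n01' n10' n11' : k}
    (h1 : al = al') (h2 : al1 = al1') (h3 : w0 = w0') (h4 : w1 = w1') (h5 : be = be')
    (h6 : be1 = be1') (h7 : ga = ga') (h8 : p0 = p0') (h9 : p1 = p1') (h10 : t0 = t0')
    (h11 : t1 = t1') (h12 : e0 = e0') (h13 : e1 = e1') (h14 : n00 = n00') (h15 : n01 = n01')
    (h16 : n10 = n10') (h17 : n11 = n11') :
    Q al al1 w0 w1 be be1 ga p0 p1 t0 t1 e0 e1 n00 n01 n10 n11 =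
      Q al' al1' w0' w1' be' be1' ga' p0' p1' t0' t1' e0' e1' n00' n01' n10' n11' := by
  subst h1 h2 h3 h4 h5 h6 h7 h8 h9 h10 h11 h12 h13 h14 h15 h16 h17
  rfl

theorem comm_J (al al1 w0 w1 be be1 ga p0 p1 t0 t1 e0 e1 n00 n01 n10 n11 : k) :
    J4211 k * Q al al1 w0 w1 be be1 ga p0 p1 t0 t1 e0 e1 n00 n01 n10 n11 =
      Q al al1 w0 w1 be be1 ga p0 p1 t0 t1 e0 e1 n00 n01 n10 n11 * J4211 k := by
  ext i j
  fin_cases i <;> fin_cases j <;> simp [J4211, Q, Matrix.mul_apply, Fin.sum_univ_succ]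

theorem nilQ (al al1 w0 w1 be be1 ga p0 p1 t0 t1 e0 e1 : k) :
    IsNilpotent (Q al al1 w0 w1 be be1 ga p0 p1 t0 t1 e0 e1 0 0 0 0) := by
  refine isNilpotent_of_weight _ ![0, 1, 5, 6, 1, 3, 2, 2] ?_
  intro i j h
  fin_cases i <;> fin_cases j <;> simp [Q] at h ⊢

theorem mulQ (al al1 w0 w1 be be1 ga p0 p1 t0 t1 e0 e1
    al' al1' w0' w1' be' be1' ga' p0' p1' t0' t1' e0' e1' : k) :
    Q al al1 w0 w1 be be1 ga p0 p1 t0 t1 e0 e1 0 0 0 0 *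
      Q al' al1' w0' w1' be' be1' ga' p0' p1' t0' t1' e0' e1' 0 0 0 0 =
    !![0, 0, 0, 0, 0, 0, 0, 0;
     0, 0, 0, 0, 0, 0, 0, 0;
     al' * be, 0, 0, 0, 0, 0, 0, 0;
     al' * be1 + al1' * be + (w0' * t0 + w1' * t1), al' * be, 0, 0,
       ga' * be + (p0' * t0 + p1' * t1), 0, e0' * be, e1' * be;
     0, 0, 0, 0, 0, 0, 0, 0;
     al' * ga + (w0' * e0 + w1' * e1), 0, 0, 0, p0' * e0 + p1' * e1, 0, 0, 0;
     al' * p0, 0, 0, 0, 0, 0, 0, 0;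
     al' * p1, 0, 0, 0, 0, 0, 0, 0] := by
  ext i j
  fin_cases i <;> fin_cases j <;>
    simp [Q, Matrix.mul_apply, Fin.sum_univ_succ] <;> ring

/-- the relations for commuting matrices -/
def Rel (al al1 w0 w1 be be1 ga p0 p1 t0 t1 e0 e1
    al' al1' w0' w1' be' be1' ga' p0' p1' t0' t1' e0' e1' : k) : Prop :=
  al' * be = al * be' ∧
  al' * be1 + al1' * be + (w0' * t0 + w1' * t1) =
    al * be1' + al1 * be' + (w0 * t0' + w1 * t1') ∧
  al' * ga + (w0' * e0 + w1' * e1) = al * ga' + (w0 * e0' + w1 * e1') ∧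
  al' * p0 = al * p0' ∧ al' * p1 = al * p1' ∧
  ga' * be + (p0' * t0 + p1' * t1) = ga * be' + (p0 * t0' + p1 * t1') ∧
  p0' * e0 + p1' * e1 = p0 * e0' + p1 * e1' ∧ e0' * be = e0 * be' ∧ e1' * be = e1 * be'

theorem comm_of_rel {al al1 w0 w1 be be1 ga p0 p1 t0 t1 e0 e1
    al' al1' w0' w1' be' be1' ga' p0' p1' t0' t1' e0' e1' : k}
    (h : Rel al al1 w0 w1 be be1 ga p0 p1 t0 t1 e0 e1
      al' al1' w0' w1' be' be1' ga' p0' p1' t0' t1' e0' e1') :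
    Q al al1 w0 w1 be be1 ga p0 p1 t0 t1 e0 e1 0 0 0 0 *
      Q al' al1' w0' w1' be' be1' ga' p0' p1' t0' t1' e0' e1' 0 0 0 0 =
    Q al' al1' w0' w1' be' be1' ga' p0' p1' t0' t1' e0' e1' 0 0 0 0 *
      Q al al1 w0 w1 be be1 ga p0 p1 t0 t1 e0 e1 0 0 0 0 := by
  obtain ⟨h1, h2, h3, h4, h5, h6, h7, h8, h9⟩ := h
  rw [mulQ, mulQ, h1, h2, h3, h4, h5, h6, h7, h8, h9]

theorem rel_of_comm {al al1 w0 w1 be be1 ga p0 p1 t0 t1 e0 e1
    al' al1' w0' w1' be' be1' ga' p0' p1' t0' t1' e0' e1' : k}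
    (h : Q al al1 w0 w1 be be1 ga p0 p1 t0 t1 e0 e1 0 0 0 0 *
      Q al' al1' w0' w1' be' be1' ga' p0' p1' t0' t1' e0' e1' 0 0 0 0 =
    Q al' al1' w0' w1' be' be1' ga' p0' p1' t0' t1' e0' e1' 0 0 0 0 *
      Q al al1 w0 w1 be be1 ga p0 p1 t0 t1 e0 e1 0 0 0 0) :
    Rel al al1 w0 w1 be be1 ga p0 p1 t0 t1 e0 e1
      al' al1' w0' w1' be' be1' ga' p0' p1' t0' t1' e0' e1' := by
  rw [mulQ, mulQ] at h
  have e := fun i j => congrFun (congrFun h i) j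
  exact ⟨e 2 0, e 3 0, e 5 0, e 6 0, e 7 0, e 3 4, e 5 4, e 3 6, e 3 7⟩

theorem cnQ {al al1 w0 w1 be be1 ga p0 p1 t0 t1 e0 e1
    al' al1' w0' w1' be' be1' ga' p0' p1' t0' t1' e0' e1' : k}
    (h : Rel al al1 w0 w1 be be1 ga p0 p1 t0 t1 e0 e1
      al' al1' w0' w1' be' be1' ga' p0' p1' t0' t1' e0' e1') :
    CN ![J4211 k, Q al al1 w0 w1 be be1 ga p0 p1 t0 t1 e0 e1 0 0 0 0,
      Q al' al1' w0' w1' be' be1' ga' p0' p1' t0' t1' e0' e1' 0 0 0 0] :=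
  Pool.Agent.Lib.D8.cn3 (comm_J ..) (comm_J ..) (comm_of_rel h) J4211_nil (nilQ ..) (nilQ ..)

theorem det5 (b c d e f g h l m x y : k) :
    (!![1, 0, 0, 0, 0; 0, 1, 0, b, c; 0, 0, 1, d, e; f, g, 0, h, l; m, 0, 0, x, y] :
      Matrix (Fin 5) (Fin 5) k).det = (h - g * b) * y - (l - g * c) * x := by
  simp [Matrix.det_succ_row_zero, Fin.sum_univ_succ, Fin.succAbove]
  ring

theorem rank5 {M : Matrix (Fin 8) (Fin 8) k} (i j : Fin 8) (h10 : M 1 0 = 1) (h11 : M 1 1 = 0)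
    (h12 : M 1 2 = 0) (h14 : M 1 4 = 0) (h1j : M 1 j = 0) (h20 : M 2 0 = 0) (h21 : M 2 1 = 1)
    (h22 : M 2 2 = 0) (h30 : M 3 0 = 0) (h31 : M 3 1 = 0) (h32 : M 3 2 = 1) (h52 : M 5 2 = 0)
    (hi1 : M i 1 = 0) (hi2 : M i 2 = 0)
    (h : (M 5 4 - M 5 1 * M 2 4) * M i j - (M 5 j - M 5 1 * M 2 j) * M i 4 ≠ 0) :
    5 ≤ M.rank := by
  refine le_rank_of_minor M ![1, 2, 3, 5, i] ![0, 1, 2, 4, j] ?_
  have : M.submatrix ![1, 2, 3, 5, i] ![0, 1, 2, 4, j] = !![1, 0, 0, 0, 0;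
      0, 1, 0, M 2 4, M 2 j; 0, 0, 1, M 3 4, M 3 j; M 5 0, M 5 1, 0, M 5 4, M 5 j;
      M i 0, 0, 0, M i 4, M i j] := by
    ext a b
    fin_cases a <;> fin_cases b <;>
      simp [h10, h11, h12, h14, h1j, h20, h21, h22, h30, h31, h32, h52, hi1, hi2]
  rw [this, det5]
  exact h

end T4211Aux
end Pool.Agent.Lib.D8
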