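import Pool.Agent.Lib.D8.T4211X

/-!
# MP_5dcbc3_ag: type (4,2,1,1), the script A case
-/

namespace Pool.Agent.Lib.D8

open Matrix Pool.Agent.Lib.Q5dc Pool.Agent.Lib.D7

namespace T4211Aux

variable {k : Type*} [Field k]

/-- script A, last step -/
theorem caseI_fin [CharZero k] {ρ : ℕ → ℕ} (hρ : ρ 1 ≤ 4)
    {al1 w0 w1 be1 ga t0 t1 e0 e1 al1' w0' w1' be1' ga' t0' t1' e0' e1' : k}
    (hT : MaxR ρ ![J4211 k, Q 1 al1 w0 w1 0 be1 ga 0 0 t0 t1 e0 e1 0 0 0 0,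
      Q 0 al1' w0' w1' 0 be1' ga' 0 0 t0' t1' e0' e1' 0 0 0 0])
    (hw : w0' ≠ 0 ∨ w1' ≠ 0) : False := by
  have : Infinite k := CharZero.infinite k
  -- the linear system
  obtain ⟨x1, x2, y2, hne, hE5, hE6⟩ : ∃ x1 x2 y2 : k, (x1 ≠ 0 ∨ x2 ≠ 0 ∨ y2 ≠ 0) ∧
      (be1 + t0 * w0 + t1 * w1) * (ga' * x1 + e0' * (x1 * w0 + x2 * w0') + e1' * (x1 * w1 + x2 * w1')) -
      (be1' + t0' * w0 + t1' * w1) * (ga * x1 + e0 * (x1 * w0 + x2 * w0') + e1 * (x1 * w1 + x2 * w1')) -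
      (t0' * w0' + t1' * w1') * y2 = 0 ∧
      (ga + e0 * w0 + e1 * w1) * (ga' * x1 + e0' * (x1 * w0 + x2 * w0') + e1' * (x1 * w1 + x2 * w1')) -
      (ga' + e0' * w0 + e1' * w1) * (ga * x1 + e0 * (x1 * w0 + x2 * w0') + e1 * (x1 * w1 + x2 * w1')) -
      (e0' * w0' + e1' * w1') * y2 = 0 := by
    obtain ⟨x1, x2, y2, h0, h1, h2⟩ := T3211Aux.ker23
      ((be1 + t0 * w0 + t1 * w1) * (ga' + e0' * w0 + e1' * w1) -
        (be1' + t0' * w0 + t1' * w1) * (ga + e0 * w0 + e1 * w1))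
      ((be1 + t0 * w0 + t1 * w1) * (e0' * w0' + e1' * w1') -
        (be1' + t0' * w0 + t1' * w1) * (e0 * w0' + e1 * w1'))
      (-(t0' * w0' + t1' * w1'))
      ((ga + e0 * w0 + e1 * w1) * (ga' + e0' * w0 + e1' * w1) -
        (ga' + e0' * w0 + e1' * w1) * (ga + e0 * w0 + e1 * w1))
      ((ga + e0 * w0 + e1 * w1) * (e0' * w0' + e1' * w1') -
        (ga' + e0' * w0 + e1' * w1) * (e0 * w0' + e1 * w1'))
      (-(e0' * w0' + e1' * w1'))
    refine ⟨x1, x2, y2, h0, ?_, ?_⟩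
    · linear_combination h1
    · linear_combination h2
  obtain ⟨y0, hy0⟩ : ∃ y0, y0 = be1 * x1 + t0 * (x1 * w0 + x2 * w0') + t1 * (x1 * w1 + x2 * w1') :=
    ⟨_, rfl⟩
  obtain ⟨y1, hy1⟩ : ∃ y1, y1 = ga * x1 + e0 * (x1 * w0 + x2 * w0') + e1 * (x1 * w1 + x2 * w1') :=
    ⟨_, rfl⟩
  obtain ⟨z0, hz0⟩ : ∃ z0, z0 = be1' * x1 + t0' * (x1 * w0 + x2 * w0') + t1' * (x1 * w1 + x2 * w1') :=
    ⟨_, rfl⟩
  obtain ⟨z1, hz1⟩ : ∃ z1, z1 = ga' * x1 + e0' * (x1 * w0 + x2 * w0') + e1' * (x1 * w1 + x2 * w1') :=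
    ⟨_, rfl⟩
  rw [← hy1, ← hz1] at hE5 hE6
  obtain ⟨B, hB⟩ : ∃ B, B = Q 1 al1 w0 w1 0 be1 ga 0 0 t0 t1 e0 e1 0 0 0 0 := ⟨_, rfl⟩
  obtain ⟨C, hC⟩ : ∃ C, C = Q 0 al1' w0' w1' 0 be1' ga' 0 0 t0' t1' e0' e1' 0 0 0 0 := ⟨_, rfl⟩
  rw [← hB, ← hC] at hT
  let ψ : Fin 8 → k := ![0, 0, 0, 0, w0 * w1' - w1 * w0', 0, -w1', w0']
  let f : Fin 3 → Fin 8 → k :=
    ![![0, 0, 0, 0, x1, 0, x1 * w0 + x2 * w0', x1 * w1 + x2 * w1'],
      ![0, 0, y0, 0, y1, 0, y1 * w0 + y2 * w0', y1 * w1 + y2 * w1'],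
      ![0, 0, z0, 0, z1, 0, z1 * w0, z1 * w1]]
  have h1A : ψ ᵥ* J4211 k = 0 := by
    funext j
    fin_cases j <;> simp [ψ, Matrix.vecMul, dotProduct, Fin.sum_univ_succ, J4211]
  have h1B : ψ ᵥ* B = 0 := by
    rw [hB]
    funext j
    fin_cases j <;>
      simp [ψ, Matrix.vecMul, dotProduct, Fin.sum_univ_succ, Q] <;> ring
  have h1C : ψ ᵥ* C = 0 := by
    rw [hC]
    funext j
    fin_cases j <;>
      simp [ψ, Matrix.vecMul, dotProduct, Fin.sum_univ_succ, Q] <;> ring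
  have h1 : ∀ i, ψ ᵥ* ((![J4211 k, B, C] : Fin 3 → Matrix (Fin 8) (Fin 8) k) i) = 0 := by
    intro i
    fin_cases i
    exacts [h1A, h1B, h1C]
  have h2 : ∀ i, ψ ⬝ᵥ f i = 0 := by
    intro i
    fin_cases i <;> simp [ψ, f, dotProduct, Fin.sum_univ_succ] <;> ring
  have h3 : ∀ i j, ((![J4211 k, B, C] : Fin 3 → Matrix (Fin 8) (Fin 8) k) i) *ᵥ f j =
      ((![J4211 k, B, C] : Fin 3 → Matrix (Fin 8) (Fin 8) k) j) *ᵥ f i := by
    have a01 : J4211 k *ᵥ f 1 = B *ᵥ f 0 := by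
      rw [hB]
      funext l
      fin_cases l <;> simp [f, Matrix.mulVec, dotProduct, Fin.sum_univ_succ, J4211, Q]
      · rw [hy0]; ring
      · rw [hy1]; ring
    have a02 : J4211 k *ᵥ f 2 = C *ᵥ f 0 := by
      rw [hC]
      funext l
      fin_cases l <;> simp [f, Matrix.mulVec, dotProduct, Fin.sum_univ_succ, J4211, Q]
      · rw [hz0]; ring
      · rw [hz1]; ring
    have a12 : B *ᵥ f 2 = C *ᵥ f 1 := by
      rw [hB, hC]
      funext l
      fin_cases l <;> simp [f, Matrix.mulVec, dotProduct, Fin.sum_univ_succ, Q]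
      · linear_combination hE5
      · linear_combination hE6
    intro i j
    fin_cases i <;> fin_cases j <;> simp [a01, a02, a12]
  have hcn := T3211Aux.cn_rankone hT.cn ψ f h1 h2 h3
  have hψ : ψ 6 ≠ 0 ∨ ψ 7 ≠ 0 := by
    simp only [ψ]
    rcases hw with h | h
    · right; simpa using h
    · left; simpa using h
  obtain ⟨j, hj, hj'⟩ : ∃ j : Fin 8, (j = 6 ∨ j = 7) ∧ ψ j ≠ 0 := by
    rcases hψ with h | h
    · exact ⟨6, Or.inl rfl, h⟩
    · exact ⟨7, Or.inr rfl, h⟩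
  have hent : ∀ (s : k) (l : Fin 3) (a b : Fin 8),
      ((![J4211 k, B, C] + s • fun i => vecMulVec (f i) ψ) l) a b =
      (![J4211 k, B, C] : Fin 3 → Matrix (Fin 8) (Fin 8) k) l a b + s * (f l a * ψ b) :=
    fun _ _ _ _ => rfl
  by_cases hf : f 0 = 0
  · have hx1 : x1 = 0 := by simpa [f] using congrFun hf 4
    subst hx1
    have hx2 : x2 = 0 := by
      have h5 := congrFun hf 6
      have h6 := congrFun hf 7
      simp [f] at h5 h6
      rcases hw with h | h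
      · exact h5.resolve_right h
      · exact h6.resolve_right h
    subst hx2
    have hy2 : y2 ≠ 0 := by simpa using hne
    have hy0' : y0 = 0 := by rw [hy0]; ring
    have hy1' : y1 = 0 := by rw [hy1]; ring
    subst hy0' hy1'
    obtain ⟨i, hi, hi'⟩ : ∃ i : Fin 8, (i = 6 ∨ i = 7) ∧ f 1 i ≠ 0 := by
      rcases hw with h | h
      · refine ⟨6, Or.inl rfl, ?_⟩
        simp [f, h, hy2]
      · refine ⟨7, Or.inr rfl, ?_⟩
        simp [f, h, hy2]
    refine hT.raise (fun s => ![J4211 k, B, C] + s • fun i => vecMulVec (f i) ψ)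
      (PolyFam.line _ _) (by simp) Set.finite_empty
      (fun s _ => hcn s) 1 (fun s => (![J4211 k, B, C] + s • fun i => vecMulVec (f i) ψ) 0 +
        s • (![J4211 k, B, C] + s • fun i => vecMulVec (f i) ψ) 1)
      (fun s => (adj _).add_mem (mem_adj _ 0) (SMulMemClass.smul_mem s (mem_adj _ 1))) ?_
    obtain ⟨ej, hej⟩ : ∃ ej, ej = B 5 j := ⟨_, rfl⟩
    have hfin : {s : k | (1 + s * ga) * ψ j - (s * ej) * ψ 4 = 0}.Finite := by
      refine (finite_quad (a := ψ j) (b := ga * ψ j - ej * ψ 4) (c := 0)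
        (Or.inl hj')).subset fun s hs => ?_
      rw [Set.mem_ofPred_eq] at hs ⊢
      linear_combination hs
    refine Set.Infinite.mono ?_ ((Set.finite_singleton (0 : k)).union hfin).infinite_compl
    intro s hs
    have hs0 : s ≠ 0 := by
      intro h
      exact hs (Or.inl h)
    have hs1 : (1 + s * ga) * ψ j - (s * ej) * ψ 4 ≠ 0 := by
      intro h
      exact hs (Or.inr h)
    rw [Set.mem_ofPred_eq, pow_one]
    refine lt_of_le_of_lt hρ ?_
    have hi6 : i ≠ 1 ∧ i ≠ 2 := by rcases hi with rfl | rfl <;> decide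
    refine Nat.lt_of_succ_le (rank5 i j ?_ ?_ ?_ ?_ ?_ ?_ ?_ ?_ ?_ ?_ ?_ ?_ ?_ ?_ ?_)
    · simp only [Matrix.add_apply, Matrix.smul_apply, hent]
      simp [J4211, hB, Q, f]
    · simp only [Matrix.add_apply, Matrix.smul_apply, hent]
      simp [J4211, hB, Q, f]
    · simp only [Matrix.add_apply, Matrix.smul_apply, hent]
      simp [J4211, hB, Q, f]
    · simp only [Matrix.add_apply, Matrix.smul_apply, hent]
      simp [J4211, hB, Q, f]
    · simp only [Matrix.add_apply, Matrix.smul_apply, hent]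
      rcases hj with rfl | rfl <;> simp [J4211, hB, Q, f]
    · simp only [Matrix.add_apply, Matrix.smul_apply, hent]
      simp [J4211, hB, Q, f]
    · simp only [Matrix.add_apply, Matrix.smul_apply, hent]
      simp [J4211, hB, Q, f]
    · simp only [Matrix.add_apply, Matrix.smul_apply, hent]
      simp [J4211, hB, Q, f]
    · simp only [Matrix.add_apply, Matrix.smul_apply, hent]
      simp [J4211, hB, Q, f]
    · simp only [Matrix.add_apply, Matrix.smul_apply, hent]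
      simp [J4211, hB, Q, f]
    · simp only [Matrix.add_apply, Matrix.smul_apply, hent]
      simp [J4211, hB, Q, f]
    · simp only [Matrix.add_apply, Matrix.smul_apply, hent]
      simp [J4211, hB, Q, f]
    · simp only [Matrix.add_apply, Matrix.smul_apply, hent]
      rcases hi with rfl | rfl <;> simp [J4211, hB, Q, ψ]
    · simp only [Matrix.add_apply, Matrix.smul_apply, hent]
      rcases hi with rfl | rfl <;> simp [J4211, hB, Q, ψ]
    · have h4 : s * s * (f 1 i * ((1 + s * ga) * ψ j - (s * ej) * ψ 4)) ≠ 0 :=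
        mul_ne_zero (mul_ne_zero hs0 hs0) (mul_ne_zero hi' hs1)
      intro h5
      apply h4
      rw [← h5]
      simp only [Matrix.add_apply, Matrix.smul_apply, hent]
      rcases hi with rfl | rfl <;> rcases hj with rfl | rfl <;>
        simp [J4211, hB, Q, f, ψ, hej] <;> ring
  · obtain ⟨i, hi⟩ : ∃ i, f 0 i ≠ 0 := by
      by_contra h
      push Not at h
      exact hf (funext h)
    have hi' : i = 4 ∨ i = 6 ∨ i = 7 := by
      fin_cases i <;> simp [f] at hi ⊢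
    refine hT.raise (fun s => ![J4211 k, B, C] + s • fun i => vecMulVec (f i) ψ)
      (PolyFam.line _ _) (by simp) Set.finite_empty
      (fun s _ => hcn s) 1 (fun s => (![J4211 k, B, C] + s • fun i => vecMulVec (f i) ψ) 0)
      (fun s => mem_adj _ 0) ?_
    refine Set.Infinite.mono ?_ (Set.finite_singleton (0 : k)).infinite_compl
    intro s hs
    have hs : s ≠ 0 := by simpa using hs
    rw [Set.mem_ofPred_eq, pow_one]
    refine lt_of_le_of_lt hρ ?_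
    refine Nat.lt_of_succ_le (rank5 i j ?_ ?_ ?_ ?_ ?_ ?_ ?_ ?_ ?_ ?_ ?_ ?_ ?_ ?_ ?_)
    · simp only [hent]
      simp [J4211, f]
    · simp only [hent]
      simp [J4211, f]
    · simp only [hent]
      simp [J4211, f]
    · simp only [hent]
      simp [J4211, f]
    · simp only [hent]
      rcases hj with rfl | rfl <;> simp [J4211, f]
    · simp only [hent]
      simp [J4211, f]
    · simp only [hent]
      simp [J4211, f]
    · simp only [hent]
      simp [J4211, f]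
    · simp only [hent]
      simp [J4211, f]
    · simp only [hent]
      simp [J4211, f]
    · simp only [hent]
      simp [J4211, f]
    · simp only [hent]
      simp [J4211, f]
    · simp only [hent]
      rcases hi' with rfl | rfl | rfl <;> simp [J4211, ψ]
    · simp only [hent]
      rcases hi' with rfl | rfl | rfl <;> simp [J4211, ψ]
    · have h4 : s * (f 0 i * ψ j) ≠ 0 := mul_ne_zero hs (mul_ne_zero hi hj')
      intro h5
      apply h4
      simp only [hent] at h5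
      rcases hi' with rfl | rfl | rfl <;> rcases hj with rfl | rfl <;>
        simpa [J4211, f, ψ] using h5

theorem linQ {ρ : ℕ → ℕ}
    {al al1 w0 w1 be be1 ga p0 p1 t0 t1 e0 e1 n00 n01 n10 n11
    al' al1' w0' w1' be' be1' ga' p0' p1' t0' t1' e0' e1' n00' n01' n10' n11' : k}
    (hT : MaxR ρ ![J4211 k, Q al al1 w0 w1 be be1 ga p0 p1 t0 t1 e0 e1 n00 n01 n10 n11,
      Q al' al1' w0' w1' be' be1' ga' p0' p1' t0' t1' e0' e1' n00' n01' n10' n11'])
    (a b c d : k) (h : a * d - b * c ≠ 0) :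
    MaxR ρ ![J4211 k, Q (a * al + b * al') (a * al1 + b * al1') (a * w0 + b * w0')
      (a * w1 + b * w1') (a * be + b * be') (a * be1 + b * be1') (a * ga + b * ga')
      (a * p0 + b * p0') (a * p1 + b * p1') (a * t0 + b * t0') (a * t1 + b * t1')
      (a * e0 + b * e0') (a * e1 + b * e1') (a * n00 + b * n00') (a * n01 + b * n01')
      (a * n10 + b * n10') (a * n11 + b * n11'),
      Q (c * al + d * al') (c * al1 + d * al1') (c * w0 + d * w0')
      (c * w1 + d * w1') (c * be + d * be') (c * be1 + d * be1') (c * ga + d * ga')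
      (c * p0 + d * p0') (c * p1 + d * p1') (c * t0 + d * t0') (c * t1 + d * t1')
      (c * e0 + d * e0') (c * e1 + d * e1') (c * n00 + d * n00') (c * n01 + d * n01')
      (c * n10 + d * n10') (c * n11 + d * n11')] := by
  have h1 := Pool.Agent.Lib.D8.MaxR.lin hT a b c d 0 0 0 0 h
  simp only [zero_smul, add_zero] at h1
  rw [Q_lin, Q_lin] at h1
  exact h1

theorem relI {al al1 w0 w1 be1 ga t0 t1 e0 e1 al' al1' w0' w1' be1' ga' t0' t1' e0' e1' : k} :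
    Rel al al1 w0 w1 0 be1 ga 0 0 t0 t1 e0 e1 al' al1' w0' w1' 0 be1' ga' 0 0 t0' t1' e0' e1' ↔
    al' * be1 + w0' * t0 + w1' * t1 = al * be1' + w0 * t0' + w1 * t1' ∧
    al' * ga + w0' * e0 + w1' * e1 = al * ga' + w0 * e0' + w1 * e1' := by
  unfold Rel
  constructor
  · rintro ⟨h1, h2, h3, -⟩
    constructor
    · linear_combination h2
    · linear_combination h3
  · rintro ⟨h2, h3⟩
    refine ⟨by ring, by linear_combination h2, by linear_combination h3, by ring, by ring,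
      by ring, by ring, by ring, by ring⟩

/-- script A, normalization -/
theorem caseI_c [CharZero k] {ρ : ℕ → ℕ} (hρ : ρ 1 ≤ 4)
    {al al1 w0 w1 be1 ga t0 t1 e0 e1 al' al1' w0' w1' be1' ga' t0' t1' e0' e1' : k}
    (hT : MaxR ρ ![J4211 k, Q al al1 w0 w1 0 be1 ga 0 0 t0 t1 e0 e1 0 0 0 0,
      Q al' al1' w0' w1' 0 be1' ga' 0 0 t0' t1' e0' e1' 0 0 0 0])
    (hal : al ≠ 0) (hw : w0' - al' / al * w0 ≠ 0 ∨ w1' - al' / al * w1 ≠ 0) : False := by
  have h1 := linQ hT al⁻¹ 0 (-(al' / al)) 1 (by simp [hal])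
  refine caseI_fin (al1 := al⁻¹ * al1) (w0 := al⁻¹ * w0) (w1 := al⁻¹ * w1) (be1 := al⁻¹ * be1)
    (ga := al⁻¹ * ga) (t0 := al⁻¹ * t0) (t1 := al⁻¹ * t1) (e0 := al⁻¹ * e0) (e1 := al⁻¹ * e1)
    (al1' := al1' - al' / al * al1) (w0' := w0' - al' / al * w0) (w1' := w1' - al' / al * w1)
    (be1' := be1' - al' / al * be1) (ga' := ga' - al' / al * ga) (t0' := t0' - al' / al * t0)
    (t1' := t1' - al' / al * t1) (e0' := e0' - al' / al * e0) (e1' := e1' - al' / al * e1) hρ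
    ?_ hw
  convert h1 using 3
  · apply Q_congr <;> simp [hal]
  · congr 1
    apply Q_congr <;> simp [hal] <;> ring

/-- script A, moving `a_B` -/
theorem caseI_move [CharZero k] {ρ : ℕ → ℕ}
    {al al1 w0 w1 be1 ga t0 t1 e0 e1 al' al1' w0' w1' be1' ga' t0' t1' e0' e1' : k}
    (hT : MaxR ρ ![J4211 k, Q al al1 w0 w1 0 be1 ga 0 0 t0 t1 e0 e1 0 0 0 0,
      Q al' al1' w0' w1' 0 be1' ga' 0 0 t0' t1' e0' e1' 0 0 0 0])
    {f3 f5 f6 : k} (hf : f3 * al' + f5 * w0' + f6 * w1' = 1) (x x0 x1 c : k) :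
    ∃ s : k, c + s ≠ 0 ∧ ∃ be1s gas t0s t1s e0s e1s : k,
      MaxR ρ ![J4211 k, Q (al + s * x) al1 (w0 + s * x0) (w1 + s * x1) 0 be1s gas 0 0
        t0s t1s e0s e1s 0 0 0 0,
      Q al' al1' w0' w1' 0 be1' ga' 0 0 t0' t1' e0' e1' 0 0 0 0] := by
  have : Infinite k := CharZero.infinite k
  obtain ⟨h1, h2⟩ := relI.1 (rel_of_comm (hT.cn.1 1 2))
  obtain ⟨gv, hgv⟩ : ∃ gv, gv = x * be1' + x0 * t0' + x1 * t1' := ⟨_, rfl⟩
  obtain ⟨gu, hgu⟩ : ∃ gu, gu = x * ga' + x0 * e0' + x1 * e1' := ⟨_, rfl⟩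
  have key : ∀ s : k, Q al al1 w0 w1 0 be1 ga 0 0 t0 t1 e0 e1 0 0 0 0 +
      s • Q x 0 x0 x1 0 (f3 * gv) (f3 * gu) 0 0 (f5 * gv) (f6 * gv) (f5 * gu) (f6 * gu)
        0 0 0 0 =
      Q (al + s * x) al1 (w0 + s * x0) (w1 + s * x1) 0 (be1 + s * (f3 * gv))
        (ga + s * (f3 * gu)) 0 0 (t0 + s * (f5 * gv)) (t1 + s * (f6 * gv)) (e0 + s * (f5 * gu))
        (e1 + s * (f6 * gu)) 0 0 0 0 := by
    intro s
    have h := Q_lin 1 s al al1 w0 w1 0 be1 ga 0 0 t0 t1 e0 e1 0 0 0 0 x 0 x0 x1 0 (f3 * gv)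
      (f3 * gu) 0 0 (f5 * gv) (f6 * gv) (f5 * gu) (f6 * gu) 0 0 0 0
    rw [one_smul] at h
    rw [h]
    apply Q_congr <;> ring
  obtain ⟨s, hs, h3⟩ := Pool.Agent.Lib.D8.MaxR.line2 hT
    (Q x 0 x0 x1 0 (f3 * gv) (f3 * gu) 0 0 (f5 * gv) (f6 * gv) (f5 * gu) (f6 * gu) 0 0 0 0) 0
    (by
      intro s
      rw [key, smul_zero, add_zero]
      refine cnQ (relI.2 ⟨?_, ?_⟩)
      · rw [hgv]
        linear_combination h1 + s * (x * be1' + x0 * t0' + x1 * t1') * hf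
      · rw [hgu]
        linear_combination h2 + s * (x * ga' + x0 * e0' + x1 * e1') * hf)
    (Set.finite_singleton (-c))
  rw [key, smul_zero, add_zero] at h3
  refine ⟨s, ?_, _, _, _, _, _, _, h3⟩
  intro h
  apply hs
  rw [Set.mem_singleton_iff]
  linear_combination h

theorem caseI_b [CharZero k] {ρ : ℕ → ℕ} (hρ : ρ 1 ≤ 4)
    {al al1 w0 w1 be1 ga t0 t1 e0 e1 al' al1' w0' w1' be1' ga' t0' t1' e0' e1' : k}
    (hT : MaxR ρ ![J4211 k, Q al al1 w0 w1 0 be1 ga 0 0 t0 t1 e0 e1 0 0 0 0,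
      Q al' al1' w0' w1' 0 be1' ga' 0 0 t0' t1' e0' e1' 0 0 0 0])
    (hw : al' ≠ 0 ∨ w0' ≠ 0 ∨ w1' ≠ 0) : False := by
  by_cases hal : al' = 0
  · subst hal
    obtain ⟨f5, f6, hf⟩ : ∃ f5 f6 : k, (0 : k) * 0 + f5 * w0' + f6 * w1' = 1 := by
      rcases hw with h | h | h
      · exact absurd rfl h
      · exact ⟨w0'⁻¹, 0, by simp [h]⟩
      · exact ⟨0, w1'⁻¹, by simp [h]⟩
    obtain ⟨s, hs1, be1s, gas, t0s, t1s, e0s, e1s, h2⟩ := caseI_move hT hf 1 0 0 al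
    refine caseI_c hρ h2 (by simpa using hs1) ?_
    rcases hw with h | h | h
    · exact absurd rfl h
    · left; simpa using h
    · right; simpa using h
  · obtain ⟨s, hs1, be1s, gas, t0s, t1s, e0s, e1s, h2⟩ := caseI_move hT (f3 := al'⁻¹) (f5 := 0)
      (f6 := 0) (by simp [hal]) 0 1 0 (w0 - al / al' * w0')
    refine caseI_c hρ (Pool.Agent.Lib.D8.MaxR.swap h2) hal (Or.inl ?_)
    intro h3
    apply hs1
    rw [← h3]
    ring

theorem caseI [CharZero k] {ρ : ℕ → ℕ} (hρ : ρ 1 ≤ 4)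
    {al al1 w0 w1 be1 ga t0 t1 e0 e1 al' al1' w0' w1' be1' ga' t0' t1' e0' e1' : k}
    (hT : MaxR ρ ![J4211 k, Q al al1 w0 w1 0 be1 ga 0 0 t0 t1 e0 e1 0 0 0 0,
      Q al' al1' w0' w1' 0 be1' ga' 0 0 t0' t1' e0' e1' 0 0 0 0]) : False := by
  have : Infinite k := CharZero.infinite k
  by_cases hC : al' ≠ 0 ∨ w0' ≠ 0 ∨ w1' ≠ 0
  · exact caseI_b hρ hT hC
  by_cases hB : al ≠ 0 ∨ w0 ≠ 0 ∨ w1 ≠ 0
  · exact caseI_b hρ (Pool.Agent.Lib.D8.MaxR.swap hT) hB
  push Not at hB hC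
  obtain ⟨rfl, rfl, rfl⟩ := hB
  obtain ⟨rfl, rfl, rfl⟩ := hC
  obtain ⟨x, y, z, hxyz, h1, h2⟩ := T3211Aux.ker23 be1 t0 t1 ga e0 e1
  have key : ∀ s : k, Q 0 al1' 0 0 0 be1' ga' 0 0 t0' t1' e0' e1' 0 0 0 0 +
      s • Q x 0 y z 0 0 0 0 0 0 0 0 0 0 0 0 0 =
      Q (s * x) al1' (s * y) (s * z) 0 be1' ga' 0 0 t0' t1' e0' e1' 0 0 0 0 := by
    intro s
    have h := Q_lin 1 s 0 al1' 0 0 0 be1' ga' 0 0 t0' t1' e0' e1' 0 0 0 0 x 0 y z 0 0 0 0 0 0
      0 0 0 0 0 0 0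
    rw [one_smul] at h
    rw [h]
    apply Q_congr <;> ring
  obtain ⟨s, hs, h3⟩ := Pool.Agent.Lib.D8.MaxR.line2 hT 0
    (Q x 0 y z 0 0 0 0 0 0 0 0 0 0 0 0 0)
    (by
      intro s
      rw [key, smul_zero, add_zero]
      refine cnQ (relI.2 ⟨?_, ?_⟩)
      · linear_combination s * h1
      · linear_combination s * h2)
    (Set.finite_singleton 0)
  rw [key, smul_zero, add_zero] at h3
  have hs1 : s ≠ 0 := hs
  refine caseI_b hρ h3 ?_
  rcases hxyz with h | h | h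
  · exact Or.inl (mul_ne_zero hs1 h)
  · exact Or.inr (Or.inl (mul_ne_zero hs1 h))
  · exact Or.inr (Or.inr (mul_ne_zero hs1 h))

end T4211Aux
end Pool.Agent.Lib.D8
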