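import Pool.Agent.Lib.D7.T322
import Pool.Agent.Lib.D8.T422aA

/-!
# MP_5dcbc3_ag: Jordan type `(4, 2, 2)`: the reduction to the two special cases
-/

namespace Pool.Agent.Lib.D8

open Matrix Pool.Agent.Lib.Q5dc Pool.Agent.Lib.D7

variable {k : Type*} [Field k]

namespace T422aAux

/-- the case of linearly independent `a`, `a'` -/
def Ind (k : Type*) [Field k] : Prop :=
  ∀ a0 a1 c0 c1 b0 b1 d0 d1 n00 n01 n10 n11
    a0' a1' c0' c1' b0' b1' d0' d1' n00' n01' n10' n11' : k,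
    Rel a0 a1 c0 c1 b0 b1 d0 d1 n00 n01 n10 n11
      a0' a1' c0' c1' b0' b1' d0' d1' n00' n01' n10' n11' →
    a0 * a1' - a1 * a0' ≠ 0 →
    Cl ![J422 k, E422 a0 a1 c0 c1 b0 b1 d0 d1 n00 n01 n10 n11,
      E422 a0' a1' c0' c1' b0' b1' d0' d1' n00' n01' n10' n11']

/-- the case `a = b = 0`, `a'`, `b'` not zero -/
def Spc (k : Type*) [Field k] : Prop :=
  ∀ c0 c1 d0 d1 n00 n01 n10 n11
    a0' a1' c0' c1' b0' b1' d0' d1' n00' n01' n10' n11' : k,
    Rel 0 0 c0 c1 0 0 d0 d1 n00 n01 n10 n11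
      a0' a1' c0' c1' b0' b1' d0' d1' n00' n01' n10' n11' →
    (a0' ≠ 0 ∨ a1' ≠ 0) → (b0' ≠ 0 ∨ b1' ≠ 0) →
    Cl ![J422 k, E422 0 0 c0 c1 0 0 d0 d1 n00 n01 n10 n11,
      E422 a0' a1' c0' c1' b0' b1' d0' d1' n00' n01' n10' n11']

/-- the permutation `v_i <-> v_(3-i)`, `u0 <-> u1`, `w0 <-> w1` -/
def pe : Fin 8 ≃ Fin 8 where
  toFun := ![3, 2, 1, 0, 5, 4, 7, 6]
  invFun := ![3, 2, 1, 0, 5, 4, 7, 6]
  left_inv := by intro i; fin_cases i <;> rfl
  right_inv := by intro i; fin_cases i <;> rfl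

section

variable {a0 a1 c0 c1 b0 b1 d0 d1 n00 n01 n10 n11
  a0' a1' c0' c1' b0' b1' d0' d1' n00' n01' n10' n11' : k}

/-- duality -/
theorem cl_dual (h : Cl ![J422 k, E422 b0 b1 d0 d1 a0 a1 c0 c1 n00 n10 n01 n11,
      E422 b0' b1' d0' d1' a0' a1' c0' c1' n00' n10' n01' n11']) :
    Cl ![J422 k, E422 a0 a1 c0 c1 b0 b1 d0 d1 n00 n01 n10 n11,
      E422 a0' a1' c0' c1' b0' b1' d0' d1' n00' n01' n10' n11'] := by
  have h5 := Cl.transpose (Cl.mapEquiv (Matrix.reindexAlgEquiv k k pe) rfl h)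
  have h6 : ∀ M : Matrix (Fin 8) (Fin 8) k, ∀ x y,
      (Matrix.reindexAlgEquiv k k pe M).transpose x y =
        M (![3, 2, 1, 0, 5, 4, 7, 6] y) (![3, 2, 1, 0, 5, 4, 7, 6] x) := fun M x y => rfl
  convert h5 using 1
  funext i
  fin_cases i
  · ext x y
    rw [h6]
    change J422 k x y = J422 k _ _
    fin_cases x <;> fin_cases y <;> simp [J422]
  · ext x y
    rw [h6]
    change E422 a0 a1 c0 c1 b0 b1 d0 d1 n00 n01 n10 n11 x y =
      E422 b0 b1 d0 d1 a0 a1 c0 c1 n00 n10 n01 n11 _ _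
    fin_cases x <;> fin_cases y <;> simp [E422]
  · ext x y
    rw [h6]
    change E422 a0' a1' c0' c1' b0' b1' d0' d1' n00' n01' n10' n11' x y =
      E422 b0' b1' d0' d1' a0' a1' c0' c1' n00' n10' n01' n11' _ _
    fin_cases x <;> fin_cases y <;> simp [E422]

theorem cl_bindep (hI : Ind k) (h : Rel a0 a1 c0 c1 b0 b1 d0 d1 n00 n01 n10 n11
      a0' a1' c0' c1' b0' b1' d0' d1' n00' n01' n10' n11') (hb : b0 * b1' - b1 * b0' ≠ 0) :
    Cl ![J422 k, E422 a0 a1 c0 c1 b0 b1 d0 d1 n00 n01 n10 n11,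
      E422 a0' a1' c0' c1' b0' b1' d0' d1' n00' n01' n10' n11'] :=
  cl_dual (hI _ _ _ _ _ _ _ _ _ _ _ _ _ _ _ _ _ _ _ _ _ _ _ _ h.dual hb)

theorem exists_mul (h : a0' ≠ 0 ∨ a1' ≠ 0) (hd : a0 * a1' - a1 * a0' = 0) :
    ∃ la : k, a0 = la * a0' ∧ a1 = la * a1' := by
  rcases h with h | h
  · refine ⟨a0 / a0', by field_simp, ?_⟩
    field_simp
    linear_combination -hd
  · refine ⟨a1 / a1', ?_, by field_simp⟩
    field_simp
    linear_combination hd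

variable [IsAlgClosed k] [CharZero k]

/-- `a = 0`, `b' = 0`, `a'` not zero -/
theorem cl_A (hI : Ind k) (h : Rel a0 a1 c0 c1 b0 b1 d0 d1 n00 n01 n10 n11
      a0' a1' c0' c1' b0' b1' d0' d1' n00' n01' n10' n11')
    (ha0 : a0 = 0) (ha1 : a1 = 0) (hb0 : b0' = 0) (hb1 : b1' = 0) (ha : a0' ≠ 0 ∨ a1' ≠ 0) :
    Cl ![J422 k, E422 a0 a1 c0 c1 b0 b1 d0 d1 n00 n01 n10 n11,
      E422 a0' a1' c0' c1' b0' b1' d0' d1' n00' n01' n10' n11'] := by
  subst ha0 ha1 hb0 hb1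
  obtain ⟨f0, f1, hf⟩ := D7.T322Aux.exists_f ha
  refine D7.T322Aux.cl_line (A' := 0) (B' := E422 f1 (-f0) 0 0 0 0 ((d0' * f1 - d1' * f0) * f0)
    ((d0' * f1 - d1' * f0) * f1) ((n00' * f1 - n01' * f0) * f0) ((n00' * f1 - n01' * f0) * f1)
    ((n10' * f1 - n11' * f0) * f0) ((n10' * f1 - n11' * f0) * f1)) (C' := 0)
    (E := {0}) (Set.finite_singleton _) ?_
  intro s hs
  have hs0 : s ≠ 0 := hs
  rw [smul_zero, add_zero, add_zero, E_add_smul]
  refine hI _ _ _ _ _ _ _ _ _ _ _ _ _ _ _ _ _ _ _ _ _ _ _ _ ?_ ?_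
  · refine ⟨?_, ?_, ?_, ?_, ?_, ?_⟩
    · linear_combination h.h1
    · linear_combination h.h2 + s * (d0' * f1 - d1' * f0) * hf
    · linear_combination h.h3 + s * (n00' * f1 - n01' * f0) * hf
    · linear_combination h.h3' + s * (n10' * f1 - n11' * f0) * hf
    · linear_combination h.h4
    · linear_combination h.h4'
  · have h1 : (0 + s * f1) * a1' - (0 + s * -f0) * a0' = s := by
      linear_combination s * hf
    rw [h1]
    exact hs0

omit [IsAlgClosed k] [CharZero k] in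
/-- the pair `(B, B - mu C)` -/
theorem Rel.sub' (mu : k) (h : Rel a0 a1 c0 c1 b0 b1 d0 d1 n00 n01 n10 n11
      a0' a1' c0' c1' b0' b1' d0' d1' n00' n01' n10' n11') :
    Rel a0 a1 c0 c1 b0 b1 d0 d1 n00 n01 n10 n11
      (a0 - mu * a0') (a1 - mu * a1') (c0 - mu * c0') (c1 - mu * c1')
      (b0 - mu * b0') (b1 - mu * b1') (d0 - mu * d0') (d1 - mu * d1')
      (n00 - mu * n00') (n01 - mu * n01') (n10 - mu * n10') (n11 - mu * n11') :=
  ⟨by linear_combination -mu * h.h1, by linear_combination -mu * h.h2,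
    by linear_combination -mu * h.h3, by linear_combination -mu * h.h3',
    by linear_combination -mu * h.h4, by linear_combination -mu * h.h4'⟩

/-- `a = 0`, `a'` not zero, `b`, `b'` dependent -/
theorem cl_dep (hI : Ind k) (hS : Spc k) (h : Rel a0 a1 c0 c1 b0 b1 d0 d1 n00 n01 n10 n11
      a0' a1' c0' c1' b0' b1' d0' d1' n00' n01' n10' n11')
    (ha0 : a0 = 0) (ha1 : a1 = 0) (ha : a0' ≠ 0 ∨ a1' ≠ 0) (hb : b0 * b1' - b1 * b0' = 0) :
    Cl ![J422 k, E422 a0 a1 c0 c1 b0 b1 d0 d1 n00 n01 n10 n11,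
      E422 a0' a1' c0' c1' b0' b1' d0' d1' n00' n01' n10' n11'] := by
  by_cases hb' : b0' ≠ 0 ∨ b1' ≠ 0
  · obtain ⟨mu, h1, h2⟩ := exists_mul hb' hb
    by_cases hmu : mu = 0
    · rw [hmu, zero_mul] at h1 h2
      subst ha0 ha1 h1 h2
      exact hS _ _ _ _ _ _ _ _ _ _ _ _ _ _ _ _ _ _ _ _ h ha hb'
    · have h3 := cl_A hI (h.sub' mu) ha0 ha1 (by rw [h1]; ring) (by rw [h2]; ring) (by
        subst ha0 ha1
        rcases ha with ha | ha
        · left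
          rw [zero_sub, neg_ne_zero]
          exact mul_ne_zero hmu ha
        · right
          rw [zero_sub, neg_ne_zero]
          exact mul_ne_zero hmu ha)
      rw [← E_sub_smul] at h3
      refine cl_of_adj ?_ h3
      have m1 := mem_adj ![J422 k, E422 a0 a1 c0 c1 b0 b1 d0 d1 n00 n01 n10 n11,
        E422 a0 a1 c0 c1 b0 b1 d0 d1 n00 n01 n10 n11 -
          mu • E422 a0' a1' c0' c1' b0' b1' d0' d1' n00' n01' n10' n11'] 1
      have m2 := mem_adj ![J422 k, E422 a0 a1 c0 c1 b0 b1 d0 d1 n00 n01 n10 n11,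
        E422 a0 a1 c0 c1 b0 b1 d0 d1 n00 n01 n10 n11 -
          mu • E422 a0' a1' c0' c1' b0' b1' d0' d1' n00' n01' n10' n11'] 2
      intro i
      fin_cases i
      · exact mem_adj ![J422 k, E422 a0 a1 c0 c1 b0 b1 d0 d1 n00 n01 n10 n11,
          E422 a0 a1 c0 c1 b0 b1 d0 d1 n00 n01 n10 n11 -
            mu • E422 a0' a1' c0' c1' b0' b1' d0' d1' n00' n01' n10' n11'] 0
      · exact m1
      · have h4 := SMulMemClass.smul_mem (mu⁻¹) (sub_mem m1 m2)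
        have h5 : mu⁻¹ • ((![J422 k, E422 a0 a1 c0 c1 b0 b1 d0 d1 n00 n01 n10 n11,
            E422 a0 a1 c0 c1 b0 b1 d0 d1 n00 n01 n10 n11 -
              mu • E422 a0' a1' c0' c1' b0' b1' d0' d1' n00' n01' n10' n11'] :
              Fin 3 → Matrix (Fin 8) (Fin 8) k) 1 -
            (![J422 k, E422 a0 a1 c0 c1 b0 b1 d0 d1 n00 n01 n10 n11,
            E422 a0 a1 c0 c1 b0 b1 d0 d1 n00 n01 n10 n11 -
              mu • E422 a0' a1' c0' c1' b0' b1' d0' d1' n00' n01' n10' n11'] :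
              Fin 3 → Matrix (Fin 8) (Fin 8) k) 2) =
            E422 a0' a1' c0' c1' b0' b1' d0' d1' n00' n01' n10' n11' := by
          change mu⁻¹ • (E422 a0 a1 c0 c1 b0 b1 d0 d1 n00 n01 n10 n11 -
            (E422 a0 a1 c0 c1 b0 b1 d0 d1 n00 n01 n10 n11 -
              mu • E422 a0' a1' c0' c1' b0' b1' d0' d1' n00' n01' n10' n11')) = _
          rw [sub_sub_cancel, smul_smul, inv_mul_cancel₀ hmu, one_smul]
        rw [h5] at h4
        exact h4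
  · push Not at hb'
    exact cl_A hI h ha0 ha1 hb'.1 hb'.2 ha

/-- the case that `a'` is not zero -/
theorem cl_a' (hI : Ind k) (hS : Spc k) (h : Rel a0 a1 c0 c1 b0 b1 d0 d1 n00 n01 n10 n11
      a0' a1' c0' c1' b0' b1' d0' d1' n00' n01' n10' n11') (ha : a0' ≠ 0 ∨ a1' ≠ 0) :
    Cl ![J422 k, E422 a0 a1 c0 c1 b0 b1 d0 d1 n00 n01 n10 n11,
      E422 a0' a1' c0' c1' b0' b1' d0' d1' n00' n01' n10' n11'] := by
  by_cases h1 : a0 * a1' - a1 * a0' = 0
  · by_cases h2 : b0 * b1' - b1 * b0' = 0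
    · obtain ⟨la, h3, h4⟩ := exists_mul ha h1
      have h5 := cl_dep hI hS (h.sub la) (by rw [h3]; ring) (by rw [h4]; ring) ha
        (by linear_combination h2)
      rw [← E_sub_smul] at h5
      refine cl_of_adj ?_ h5
      have m1 := mem_adj ![J422 k, E422 a0 a1 c0 c1 b0 b1 d0 d1 n00 n01 n10 n11 -
        la • E422 a0' a1' c0' c1' b0' b1' d0' d1' n00' n01' n10' n11',
        E422 a0' a1' c0' c1' b0' b1' d0' d1' n00' n01' n10' n11'] 1
      have m2 := mem_adj ![J422 k, E422 a0 a1 c0 c1 b0 b1 d0 d1 n00 n01 n10 n11 -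
        la • E422 a0' a1' c0' c1' b0' b1' d0' d1' n00' n01' n10' n11',
        E422 a0' a1' c0' c1' b0' b1' d0' d1' n00' n01' n10' n11'] 2
      intro i
      fin_cases i
      · exact mem_adj ![J422 k, E422 a0 a1 c0 c1 b0 b1 d0 d1 n00 n01 n10 n11 -
          la • E422 a0' a1' c0' c1' b0' b1' d0' d1' n00' n01' n10' n11',
          E422 a0' a1' c0' c1' b0' b1' d0' d1' n00' n01' n10' n11'] 0
      · have h6 := add_mem m1 (SMulMemClass.smul_mem la m2)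
        change E422 a0 a1 c0 c1 b0 b1 d0 d1 n00 n01 n10 n11 -
          la • E422 a0' a1' c0' c1' b0' b1' d0' d1' n00' n01' n10' n11' +
          la • E422 a0' a1' c0' c1' b0' b1' d0' d1' n00' n01' n10' n11' ∈ _ at h6
        rw [sub_add_cancel] at h6
        exact h6
      · exact m2
    · exact cl_bindep hI h h2
  · exact hI _ _ _ _ _ _ _ _ _ _ _ _ _ _ _ _ _ _ _ _ _ _ _ _ h h1

/-- the case that `a` or `a'` is not zero -/
theorem cl_a (hI : Ind k) (hS : Spc k) (h : Rel a0 a1 c0 c1 b0 b1 d0 d1 n00 n01 n10 n11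
      a0' a1' c0' c1' b0' b1' d0' d1' n00' n01' n10' n11')
    (ha : (a0' ≠ 0 ∨ a1' ≠ 0) ∨ (a0 ≠ 0 ∨ a1 ≠ 0)) :
    Cl ![J422 k, E422 a0 a1 c0 c1 b0 b1 d0 d1 n00 n01 n10 n11,
      E422 a0' a1' c0' c1' b0' b1' d0' d1' n00' n01' n10' n11'] := by
  rcases ha with ha | ha
  · exact cl_a' hI hS h ha
  · exact D7.T322Aux.cl_swap (cl_a' hI hS h.symm ha)

omit [IsAlgClosed k] [CharZero k] in
/-- a nonzero solution of three linear equations in four unknowns -/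
theorem exists_sol (p q r : Fin 4 → k) : ∃ e0 e1 e0' e1' : k,
    ((e0' ≠ 0 ∨ e1' ≠ 0) ∨ (e0 ≠ 0 ∨ e1 ≠ 0)) ∧
    p 0 * e0' + p 1 * e1' = p 2 * e0 + p 3 * e1 ∧
    q 0 * e0' + q 1 * e1' = q 2 * e0 + q 3 * e1 ∧
    r 0 * e0' + r 1 * e1' = r 2 * e0 + r 3 * e1 := by
  obtain ⟨v, hv0, hv⟩ := Matrix.exists_mulVec_eq_zero_iff.2
    (show (!![p 0, p 1, -p 2, -p 3; q 0, q 1, -q 2, -q 3; r 0, r 1, -r 2, -r 3; 0, 0, 0, 0] :
      Matrix (Fin 4) (Fin 4) k).det = 0 from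
      Matrix.det_eq_zero_of_row_eq_zero 3 (fun j => by fin_cases j <;> rfl))
  have e1 := congrFun hv 0
  have e2 := congrFun hv 1
  have e3 := congrFun hv 2
  simp [Matrix.mulVec, dotProduct, Fin.sum_univ_succ] at e1 e2 e3
  refine ⟨v 2, v 3, v 0, v 1, ?_, by linear_combination e1, by linear_combination e2,
    by linear_combination e3⟩
  by_contra hcon
  push Not at hcon
  apply hv0
  funext i
  fin_cases i
  · exact hcon.1.1
  · exact hcon.1.2
  · exact hcon.2.1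
  · exact hcon.2.2

omit [IsAlgClosed k] [CharZero k] in
theorem exists_dir (b0 b1 d0 d1 n00 n01 n10 n11 b0' b1' d0' d1' n00' n01' n10' n11' : k) :
    ∃ e0 e1 e0' e1' x0 x1 x0' x1' : k, ((e0' ≠ 0 ∨ e1' ≠ 0) ∨ (e0 ≠ 0 ∨ e1 ≠ 0)) ∧
    b0 * e0' + b1 * e1' = b0' * e0 + b1' * e1 ∧
    d0 * e0' + d1 * e1' + b0 * x0' + b1 * x1' = d0' * e0 + d1' * e1 + b0' * x0 + b1' * x1 ∧
    n00 * e0' + n01 * e1' = n00' * e0 + n01' * e1 ∧
    n10 * e0' + n11 * e1' = n10' * e0 + n11' * e1 := by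
  by_cases hb : (b0 ≠ 0 ∨ b1 ≠ 0) ∨ (b0' ≠ 0 ∨ b1' ≠ 0)
  · obtain ⟨e0, e1, e0', e1', h0, h1, h2, h3⟩ := exists_sol ![b0, b1, b0', b1']
      ![n00, n01, n00', n01'] ![n10, n11, n10', n11']
    simp only [Matrix.cons_val] at h1 h2 h3
    obtain ⟨x0, x1, x0', x1', hx⟩ : ∃ x0 x1 x0' x1' : k,
        d0 * e0' + d1 * e1' + b0 * x0' + b1 * x1' =
          d0' * e0 + d1' * e1 + b0' * x0 + b1' * x1 := by
      rcases hb with (hb | hb) | (hb | hb)
      · exact ⟨0, 0, (d0' * e0 + d1' * e1 - (d0 * e0' + d1 * e1')) / b0, 0, by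
          field_simp; ring⟩
      · exact ⟨0, 0, 0, (d0' * e0 + d1' * e1 - (d0 * e0' + d1 * e1')) / b1, by
          field_simp; ring⟩
      · exact ⟨(d0 * e0' + d1 * e1' - (d0' * e0 + d1' * e1)) / b0', 0, 0, 0, by
          field_simp; ring⟩
      · exact ⟨0, (d0 * e0' + d1 * e1' - (d0' * e0 + d1' * e1)) / b1', 0, 0, by
          field_simp; ring⟩
    exact ⟨e0, e1, e0', e1', x0, x1, x0', x1', h0, h1, hx, h2, h3⟩
  · push Not at hb
    obtain ⟨⟨rfl, rfl⟩, rfl, rfl⟩ := hb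
    obtain ⟨e0, e1, e0', e1', h0, h1, h2, h3⟩ := exists_sol ![d0, d1, d0', d1']
      ![n00, n01, n00', n01'] ![n10, n11, n10', n11']
    simp only [Matrix.cons_val] at h1 h2 h3
    exact ⟨e0, e1, e0', e1', 0, 0, 0, 0, h0, by ring, by linear_combination h1, h2, h3⟩

/-- all commuting triples with `z = 0` are limits of curvilinear ones -/
theorem cl_rel (hI : Ind k) (hS : Spc k) (h : Rel a0 a1 c0 c1 b0 b1 d0 d1 n00 n01 n10 n11
      a0' a1' c0' c1' b0' b1' d0' d1' n00' n01' n10' n11') :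
    Cl ![J422 k, E422 a0 a1 c0 c1 b0 b1 d0 d1 n00 n01 n10 n11,
      E422 a0' a1' c0' c1' b0' b1' d0' d1' n00' n01' n10' n11'] := by
  by_cases ha : (a0' ≠ 0 ∨ a1' ≠ 0) ∨ (a0 ≠ 0 ∨ a1 ≠ 0)
  · exact cl_a hI hS h ha
  push Not at ha
  obtain ⟨⟨rfl, rfl⟩, rfl, rfl⟩ := ha
  obtain ⟨e0, e1, e0', e1', x0, x1, x0', x1', g0, g1, g2, g3, g4⟩ :=
    exists_dir b0 b1 d0 d1 n00 n01 n10 n11 b0' b1' d0' d1' n00' n01' n10' n11'
  refine D7.T322Aux.cl_line (A' := 0) (B' := E422 e0 e1 x0 x1 0 0 0 0 0 0 0 0)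
    (C' := E422 e0' e1' x0' x1' 0 0 0 0 0 0 0 0) (E := {0}) (Set.finite_singleton _) ?_
  intro s hs
  have hs0 : s ≠ 0 := hs
  rw [smul_zero, add_zero, E_add_smul, E_add_smul]
  refine cl_a hI hS ?_ ?_
  · refine ⟨?_, ?_, ?_, ?_, ?_, ?_⟩
    · linear_combination s * g1
    · linear_combination h.h2 + s * g2
    · linear_combination s * g3
    · linear_combination s * g4
    · linear_combination h.h4
    · linear_combination h.h4'
  · simp only [zero_add]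
    rcases g0 with (g | g) | (g | g)
    · exact Or.inl (Or.inl (mul_ne_zero hs0 g))
    · exact Or.inl (Or.inr (mul_ne_zero hs0 g))
    · exact Or.inr (Or.inl (mul_ne_zero hs0 g))
    · exact Or.inr (Or.inr (mul_ne_zero hs0 g))

end

/-- the final step, with the two special cases as hypotheses -/
theorem no_of [IsAlgClosed k] [CharZero k] (hI : Ind k) (hS : Spc k) {ρ : ℕ → ℕ}
    {T : Fin 3 → Matrix (Fin 8) (Fin 8) k}
    (hT : MaxR ρ T) (hρ : ∀ i, ρ i = (J422 k ^ i).rank) (h0 : T 0 = J422 k) : False := by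
  have : Infinite k := IsAlgClosed.instInfinite
  have c01 := hT.cn.1 0 1
  have c02 := hT.cn.1 0 2
  rw [h0] at c01 c02
  obtain ⟨p1, p2, p3, a0, a1, c0, c1, b0, b1, d0, d1, n00, n01, n10, n11, z00, z01, z10, z11,
    hB⟩ := shape c01 (hT.cn.2 1)
  obtain ⟨q1, q2, q3, a0', a1', c0', c1', b0', b1', d0', d1', n00', n01', n10', n11', z00', z01',
    z10', z11', hC⟩ := shape c02 (hT.cn.2 2)
  have mJ : J422 k ∈ adj T := h0 ▸ mem_adj T 0
  have mK : K422 k ∈ adj T := by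
    rw [K_eq]
    exact mul_mem mJ mJ
  have mL : L422 k ∈ adj T := by
    rw [L_eq]
    exact mul_mem mK mJ
  have mB : B422 a0 a1 c0 c1 b0 b1 d0 d1 n00 n01 n10 n11 z00 z01 z10 z11 ∈ adj T := by
    have h1 : B422 a0 a1 c0 c1 b0 b1 d0 d1 n00 n01 n10 n11 z00 z01 z10 z11 =
        T 1 - (p1 • J422 k + p2 • K422 k + p3 • L422 k) := by
      rw [hB]
      abel
    rw [h1]
    exact sub_mem (mem_adj T 1) (add_mem (add_mem (SMulMemClass.smul_mem _ mJ)
      (SMulMemClass.smul_mem _ mK)) (SMulMemClass.smul_mem _ mL))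
  have mC : B422 a0' a1' c0' c1' b0' b1' d0' d1' n00' n01' n10' n11' z00' z01' z10' z11' ∈
      adj T := by
    have h1 : B422 a0' a1' c0' c1' b0' b1' d0' d1' n00' n01' n10' n11' z00' z01' z10' z11' =
        T 2 - (q1 • J422 k + q2 • K422 k + q3 • L422 k) := by
      rw [hC]
      abel
    rw [h1]
    exact sub_mem (mem_adj T 2) (add_mem (add_mem (SMulMemClass.smul_mem _ mJ)
      (SMulMemClass.smul_mem _ mK)) (SMulMemClass.smul_mem _ mL))
  have key : ∀ M ∈ adj T, ∀ s : k, ((J422 k + s • M) ^ 2).rank ≤ 2 := by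
    intro M hM s
    refine (hT.rank_le (add_mem mJ (SMulMemClass.smul_mem _ hM)) 2).trans ?_
    rw [hρ]
    exact rank_J_sq
  obtain ⟨rfl, rfl, rfl, rfl⟩ := z_zero (key _ mB)
  obtain ⟨rfl, rfl, rfl, rfl⟩ := z_zero (key _ mC)
  have hcomm := hT.cn.comm mB mC
  rw [E_eq] at hB mB hcomm
  rw [E_eq] at hC mC hcomm
  refine hT.ncl (cl_of_adj ?_ (cl_rel hI hS (rel hcomm)))
  have nJ := mem_adj ![J422 k, E422 a0 a1 c0 c1 b0 b1 d0 d1 n00 n01 n10 n11,
    E422 a0' a1' c0' c1' b0' b1' d0' d1' n00' n01' n10' n11'] 0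
  have nB := mem_adj ![J422 k, E422 a0 a1 c0 c1 b0 b1 d0 d1 n00 n01 n10 n11,
    E422 a0' a1' c0' c1' b0' b1' d0' d1' n00' n01' n10' n11'] 1
  have nC := mem_adj ![J422 k, E422 a0 a1 c0 c1 b0 b1 d0 d1 n00 n01 n10 n11,
    E422 a0' a1' c0' c1' b0' b1' d0' d1' n00' n01' n10' n11'] 2
  have nK := mul_mem nJ nJ
  change J422 k * J422 k ∈ _ at nK
  rw [← K_eq] at nK
  have nL := mul_mem nK nJ
  change K422 k * J422 k ∈ _ at nL
  rw [← L_eq] at nL
  intro i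
  fin_cases i
  · exact h0 ▸ nJ
  · exact hB ▸ add_mem (add_mem (add_mem (SMulMemClass.smul_mem _ nJ)
      (SMulMemClass.smul_mem _ nK)) (SMulMemClass.smul_mem _ nL)) nB
  · exact hC ▸ add_mem (add_mem (add_mem (SMulMemClass.smul_mem _ nJ)
      (SMulMemClass.smul_mem _ nK)) (SMulMemClass.smul_mem _ nL)) nC

end T422aAux

end Pool.Agent.Lib.D8
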