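import Pool.Agent.Lib.D7.Api
import Pool.Agent.Lib.D8.Defs

/-!
# MP_5dcbc3_ag: matrices commuting with the Jordan matrix of type `(4, 3, 1)`
-/

namespace Pool.Agent.Lib.D8

open Matrix Pool.Agent.Lib.Q5dc Pool.Agent.Lib.D7

variable {k : Type*} [Field k]

namespace T431aAux

/-! ### explicit matrices -/

theorem mulB (b0 b1 b2 c0 c1 c2 q1 q2 om pi th et b0' b1' b2' c0' c1' c2' q1' q2' om' pi' th' et' : k) :
    B431 b0 b1 b2 c0 c1 c2 q1 q2 om pi th et * B431 b0' b1' b2' c0' c1' c2' q1' q2' om' pi' th' et' =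
    !![0, 0, 0, 0, 0, 0, 0, 0;
     c0' * b0, 0, 0, 0, 0, 0, 0, 0;
     c0' * b1 + c1' * b0, c0' * b0, 0, 0, q1' * b0, 0, 0, 0;
     c0' * b2 + c1' * b1 + c2' * b0 + om' * th, c0' * b1 + c1' * b0, c0' * b0, 0,
       q1' * b1 + q2' * b0 + pi' * th, q1' * b0, 0, et' * b0;
     0, 0, 0, 0, 0, 0, 0, 0;
     c0' * q1, 0, 0, 0, b0' * c0, 0, 0, 0;
     c0' * q2 + c1' * q1 + om' * et, c0' * q1, 0, 0,
       b0' * c1 + b1' * c0 + q1' * q1 + pi' * et, b0' * c0, 0, 0;
     c0' * pi, 0, 0, 0, 0, 0, 0, 0] := by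
  ext i j
  fin_cases i <;> fin_cases j <;>
    simp [B431, Matrix.mul_apply, Fin.sum_univ_succ] <;> ring

theorem JB (b0 b1 b2 c0 c1 c2 q1 q2 om pi th et : k) :
    J431 k * B431 b0 b1 b2 c0 c1 c2 q1 q2 om pi th et = B431 0 b0 b1 0 c0 c1 0 q1 0 0 0 0 := by
  ext i j
  fin_cases i <;> fin_cases j <;>
    simp [B431, J431, Matrix.mul_apply, Fin.sum_univ_succ]

theorem BJ (b0 b1 b2 c0 c1 c2 q1 q2 om pi th et : k) :
    B431 b0 b1 b2 c0 c1 c2 q1 q2 om pi th et * J431 k = B431 0 b0 b1 0 c0 c1 0 q1 0 0 0 0 := by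
  ext i j
  fin_cases i <;> fin_cases j <;>
    simp [B431, J431, Matrix.mul_apply, Fin.sum_univ_succ]

theorem addB (b0 b1 b2 c0 c1 c2 q1 q2 om pi th et
    b0' b1' b2' c0' c1' c2' q1' q2' om' pi' th' et' : k) :
    B431 b0 b1 b2 c0 c1 c2 q1 q2 om pi th et + B431 b0' b1' b2' c0' c1' c2' q1' q2' om' pi' th' et' =
    B431 (b0 + b0') (b1 + b1') (b2 + b2') (c0 + c0') (c1 + c1') (c2 + c2') (q1 + q1') (q2 + q2') (om + om') (pi + pi') (th + th') (et + et') := by
  ext i j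
  fin_cases i <;> fin_cases j <;> simp [B431]

theorem subB (b0 b1 b2 c0 c1 c2 q1 q2 om pi th et
    b0' b1' b2' c0' c1' c2' q1' q2' om' pi' th' et' : k) :
    B431 b0 b1 b2 c0 c1 c2 q1 q2 om pi th et - B431 b0' b1' b2' c0' c1' c2' q1' q2' om' pi' th' et' =
    B431 (b0 - b0') (b1 - b1') (b2 - b2') (c0 - c0') (c1 - c1') (c2 - c2') (q1 - q1') (q2 - q2') (om - om') (pi - pi') (th - th') (et - et') := by
  ext i j
  fin_cases i <;> fin_cases j <;> simp [B431]

theorem smulB (c b0 b1 b2 c0 c1 c2 q1 q2 om pi th et : k) :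
    c • B431 b0 b1 b2 c0 c1 c2 q1 q2 om pi th et =
    B431 (c * b0) (c * b1) (c * b2) (c * c0) (c * c1) (c * c2) (c * q1) (c * q2) (c * om) (c * pi) (c * th) (c * et) := by
  ext i j
  fin_cases i <;> fin_cases j <;> simp [B431]

theorem zeroB : B431 (0 : k) 0 0 0 0 0 0 0 0 0 0 0 = 0 := by
  ext i j
  fin_cases i <;> fin_cases j <;> simp [B431]

theorem J2 : J431 k * J431 k =
    !![0, 0, 0, 0, 0, 0, 0, 0;
     0, 0, 0, 0, 0, 0, 0, 0;
     1, 0, 0, 0, 0, 0, 0, 0;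
     0, 1, 0, 0, 0, 0, 0, 0;
     0, 0, 0, 0, 0, 0, 0, 0;
     0, 0, 0, 0, 0, 0, 0, 0;
     0, 0, 0, 0, 1, 0, 0, 0;
     0, 0, 0, 0, 0, 0, 0, 0] := by
  ext i j
  fin_cases i <;> fin_cases j <;>
    simp [J431, Matrix.mul_apply, Fin.sum_univ_succ]

theorem mulJ2 :
    !![0, 0, 0, 0, 0, 0, 0, 0;
     0, 0, 0, 0, 0, 0, 0, 0;
     1, 0, 0, 0, 0, 0, 0, 0;
     0, 1, 0, 0, 0, 0, 0, 0;
     0, 0, 0, 0, 0, 0, 0, 0;
     0, 0, 0, 0, 0, 0, 0, 0;
     0, 0, 0, 0, 1, 0, 0, 0;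
     0, 0, 0, 0, 0, 0, 0, 0] * J431 k =
    !![0, 0, 0, 0, 0, 0, 0, 0;
     0, 0, 0, 0, 0, 0, 0, 0;
     0, 0, 0, 0, 0, 0, 0, 0;
     1, 0, 0, 0, 0, 0, 0, 0;
     0, 0, 0, 0, 0, 0, 0, 0;
     0, 0, 0, 0, 0, 0, 0, 0;
     0, 0, 0, 0, 0, 0, 0, 0;
     0, 0, 0, 0, 0, 0, 0, 0] := by
  ext i j
  fin_cases i <;> fin_cases j <;>
    simp [J431, Matrix.mul_apply, Fin.sum_univ_succ]

theorem J4 : J431 k ^ 4 = 0 := by
  have e : J431 k ^ 4 = (J431 k * J431 k) * (J431 k * J431 k) := by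
    rw [pow_succ, pow_succ, pow_succ, pow_one]
    simp only [Matrix.mul_assoc]
  rw [e, J2]
  ext i j
  fin_cases i <;> fin_cases j <;>
    simp [Matrix.mul_apply, Fin.sum_univ_succ]

/-! ### nilpotency and commutation -/

theorem nilJ : IsNilpotent (J431 k) := ⟨4, J4⟩

theorem nilB (b0 b1 b2 c0 c1 c2 q1 q2 om pi th et : k) :
    IsNilpotent (B431 b0 b1 b2 c0 c1 c2 q1 q2 om pi th et) := by
  refine isNilpotent_of_weight _ ![0, 2, 4, 6, 1, 3, 5, 2] fun i j h => ?_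
  fin_cases i <;> fin_cases j <;> first | rfl | (exfalso; revert h; decide)

/-- the relations for commuting matrices -/
def Rel (b0 b1 b2 c0 c1 c2 q1 q2 om pi th et b0' b1' b2' c0' c1' c2' q1' q2' om' pi' th' et' : k) : Prop :=
  c0' * b0 = c0 * b0' ∧ c0' * b1 + c1' * b0 = c0 * b1' + c1 * b0' ∧
  c0' * b2 + c1' * b1 + c2' * b0 + om' * th = c0 * b2' + c1 * b1' + c2 * b0' + om * th' ∧
  c0' * q1 = c0 * q1' ∧ c0' * q2 + c1' * q1 + om' * et = c0 * q2' + c1 * q1' + om * et' ∧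
  c0' * pi = c0 * pi' ∧ pi' * et = pi * et' ∧ q1' * b0 = q1 * b0' ∧
  q1' * b1 + q2' * b0 + pi' * th = q1 * b1' + q2 * b0' + pi * th' ∧ et' * b0 = et * b0'

theorem comm_of_rel {b0 b1 b2 c0 c1 c2 q1 q2 om pi th et
    b0' b1' b2' c0' c1' c2' q1' q2' om' pi' th' et' : k}
    (h : Rel b0 b1 b2 c0 c1 c2 q1 q2 om pi th et
      b0' b1' b2' c0' c1' c2' q1' q2' om' pi' th' et') :
    B431 b0 b1 b2 c0 c1 c2 q1 q2 om pi th et * B431 b0' b1' b2' c0' c1' c2' q1' q2' om' pi' th' et' =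
      B431 b0' b1' b2' c0' c1' c2' q1' q2' om' pi' th' et' * B431 b0 b1 b2 c0 c1 c2 q1 q2 om pi th et := by
  obtain ⟨h1, h2, h3, h4, h5, h6, h7, h8, h9, h10⟩ := h
  have h11 : b0' * c0 = b0 * c0' := by linear_combination -h1
  have h12 : b0' * c1 + b1' * c0 + q1' * q1 + pi' * et =
      b0 * c1' + b1 * c0' + q1 * q1' + pi * et' := by linear_combination h7 - h2
  rw [mulB, mulB, h1, h2, h3, h4, h5, h6, h8, h9, h10, h11, h12]

theorem rel_of_comm {b0 b1 b2 c0 c1 c2 q1 q2 om pi th et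
    b0' b1' b2' c0' c1' c2' q1' q2' om' pi' th' et' : k}
    (h : B431 b0 b1 b2 c0 c1 c2 q1 q2 om pi th et * B431 b0' b1' b2' c0' c1' c2' q1' q2' om' pi' th' et' =
      B431 b0' b1' b2' c0' c1' c2' q1' q2' om' pi' th' et' * B431 b0 b1 b2 c0 c1 c2 q1 q2 om pi th et) :
    Rel b0 b1 b2 c0 c1 c2 q1 q2 om pi th et
      b0' b1' b2' c0' c1' c2' q1' q2' om' pi' th' et' := by
  rw [mulB, mulB] at h
  have e := fun i j => congrFun (congrFun h i) j
  have e1 : c0' * b1 + c1' * b0 = c0 * b1' + c1 * b0' := e 2 0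
  have e2 : b0' * c1 + b1' * c0 + q1' * q1 + pi' * et =
      b0 * c1' + b1 * c0' + q1 * q1' + pi * et' := e 6 4
  refine ⟨?_, ?_, ?_, ?_, ?_, ?_, ?_, ?_, ?_, ?_⟩
  · exact e 1 0
  · exact e1
  · exact e 3 0
  · exact e 5 0
  · exact e 6 0
  · exact e 7 0
  · linear_combination e2 + e1
  · exact e 2 4
  · exact e 3 4
  · exact e 3 7

theorem cnB {b0 b1 b2 c0 c1 c2 q1 q2 om pi th et
    b0' b1' b2' c0' c1' c2' q1' q2' om' pi' th' et' : k}
    (h : Rel b0 b1 b2 c0 c1 c2 q1 q2 om pi th et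
      b0' b1' b2' c0' c1' c2' q1' q2' om' pi' th' et') :
    CN ![J431 k, B431 b0 b1 b2 c0 c1 c2 q1 q2 om pi th et,
      B431 b0' b1' b2' c0' c1' c2' q1' q2' om' pi' th' et'] := by
  have h1 := comm_of_rel h
  constructor
  · intro i j
    fin_cases i <;> fin_cases j
    · rfl
    · exact (JB ..).trans (BJ ..).symm
    · exact (JB ..).trans (BJ ..).symm
    · exact (BJ ..).trans (JB ..).symm
    · rfl
    · exact h1
    · exact (BJ ..).trans (JB ..).symm
    · exact h1.symm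
    · rfl
  · intro i
    fin_cases i
    · exact nilJ
    · exact nilB ..
    · exact nilB ..


/-! ### the shape of matrices commuting with `J431` -/

theorem eig {M : Matrix (Fin 8) (Fin 8) k} (hM : IsNilpotent M) {w : Fin 8 → k} {c : k}
    (h : w ᵥ* M = c • w) (hc : c ≠ 0) : w = 0 := by
  obtain ⟨N, hN⟩ := hM
  have key : ∀ N : ℕ, w ᵥ* M ^ N = c ^ N • w := by
    intro N
    induction N with
    | zero => simp
    | succ N ih =>
      rw [pow_succ, ← Matrix.vecMul_vecMul, ih, Matrix.smul_vecMul, h, smul_smul, pow_succ]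
  have h1 := key N
  rw [hN, Matrix.vecMul_zero] at h1
  exact (smul_eq_zero.1 h1.symm).resolve_left (pow_ne_zero _ hc)

theorem shape {B : Matrix (Fin 8) (Fin 8) k} (hc : J431 k * B = B * J431 k)
    (hn : IsNilpotent B) : ∃ x1 x2 x3 b0 b1 b2 c0 c1 c2 q1 q2 om pi th et : k,
      B = x1 • J431 k + x2 • (J431 k * J431 k) + x3 • (J431 k * J431 k * J431 k) +
        B431 b0 b1 b2 c0 c1 c2 q1 q2 om pi th et := by
  have e : ∀ i j, (J431 k * B) i j = (B * J431 k) i j := fun i j => by rw [hc]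
  have e00 : B 0 1 = 0 := by simpa [J431, Matrix.mul_apply, Fin.sum_univ_succ] using (e 0 0).symm
  have e01 : B 0 2 = 0 := by simpa [J431, Matrix.mul_apply, Fin.sum_univ_succ] using (e 0 1).symm
  have e02 : B 0 3 = 0 := by simpa [J431, Matrix.mul_apply, Fin.sum_univ_succ] using (e 0 2).symm
  have e04 : B 0 5 = 0 := by simpa [J431, Matrix.mul_apply, Fin.sum_univ_succ] using (e 0 4).symm
  have e05 : B 0 6 = 0 := by simpa [J431, Matrix.mul_apply, Fin.sum_univ_succ] using (e 0 5).symm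
  have e10 : B 0 0 = B 1 1 := by simpa [J431, Matrix.mul_apply, Fin.sum_univ_succ] using e 1 0
  have e11 : B 0 1 = B 1 2 := by simpa [J431, Matrix.mul_apply, Fin.sum_univ_succ] using e 1 1
  have e12 : B 0 2 = B 1 3 := by simpa [J431, Matrix.mul_apply, Fin.sum_univ_succ] using e 1 2
  have e13 : B 0 3 = 0 := by simpa [J431, Matrix.mul_apply, Fin.sum_univ_succ] using e 1 3
  have e14 : B 0 4 = B 1 5 := by simpa [J431, Matrix.mul_apply, Fin.sum_univ_succ] using e 1 4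
  have e15 : B 0 5 = B 1 6 := by simpa [J431, Matrix.mul_apply, Fin.sum_univ_succ] using e 1 5
  have e16 : B 0 6 = 0 := by simpa [J431, Matrix.mul_apply, Fin.sum_univ_succ] using e 1 6
  have e17 : B 0 7 = 0 := by simpa [J431, Matrix.mul_apply, Fin.sum_univ_succ] using e 1 7
  have e20 : B 1 0 = B 2 1 := by simpa [J431, Matrix.mul_apply, Fin.sum_univ_succ] using e 2 0
  have e21 : B 1 1 = B 2 2 := by simpa [J431, Matrix.mul_apply, Fin.sum_univ_succ] using e 2 1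
  have e22 : B 1 2 = B 2 3 := by simpa [J431, Matrix.mul_apply, Fin.sum_univ_succ] using e 2 2
  have e23 : B 1 3 = 0 := by simpa [J431, Matrix.mul_apply, Fin.sum_univ_succ] using e 2 3
  have e24 : B 1 4 = B 2 5 := by simpa [J431, Matrix.mul_apply, Fin.sum_univ_succ] using e 2 4
  have e25 : B 1 5 = B 2 6 := by simpa [J431, Matrix.mul_apply, Fin.sum_univ_succ] using e 2 5
  have e26 : B 1 6 = 0 := by simpa [J431, Matrix.mul_apply, Fin.sum_univ_succ] using e 2 6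
  have e27 : B 1 7 = 0 := by simpa [J431, Matrix.mul_apply, Fin.sum_univ_succ] using e 2 7
  have e30 : B 2 0 = B 3 1 := by simpa [J431, Matrix.mul_apply, Fin.sum_univ_succ] using e 3 0
  have e31 : B 2 1 = B 3 2 := by simpa [J431, Matrix.mul_apply, Fin.sum_univ_succ] using e 3 1
  have e32 : B 2 2 = B 3 3 := by simpa [J431, Matrix.mul_apply, Fin.sum_univ_succ] using e 3 2
  have e33 : B 2 3 = 0 := by simpa [J431, Matrix.mul_apply, Fin.sum_univ_succ] using e 3 3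
  have e34 : B 2 4 = B 3 5 := by simpa [J431, Matrix.mul_apply, Fin.sum_univ_succ] using e 3 4
  have e35 : B 2 5 = B 3 6 := by simpa [J431, Matrix.mul_apply, Fin.sum_univ_succ] using e 3 5
  have e36 : B 2 6 = 0 := by simpa [J431, Matrix.mul_apply, Fin.sum_univ_succ] using e 3 6
  have e37 : B 2 7 = 0 := by simpa [J431, Matrix.mul_apply, Fin.sum_univ_succ] using e 3 7
  have e40 : B 4 1 = 0 := by simpa [J431, Matrix.mul_apply, Fin.sum_univ_succ] using (e 4 0).symm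
  have e41 : B 4 2 = 0 := by simpa [J431, Matrix.mul_apply, Fin.sum_univ_succ] using (e 4 1).symm
  have e42 : B 4 3 = 0 := by simpa [J431, Matrix.mul_apply, Fin.sum_univ_succ] using (e 4 2).symm
  have e44 : B 4 5 = 0 := by simpa [J431, Matrix.mul_apply, Fin.sum_univ_succ] using (e 4 4).symm
  have e45 : B 4 6 = 0 := by simpa [J431, Matrix.mul_apply, Fin.sum_univ_succ] using (e 4 5).symm
  have e50 : B 4 0 = B 5 1 := by simpa [J431, Matrix.mul_apply, Fin.sum_univ_succ] using e 5 0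
  have e51 : B 4 1 = B 5 2 := by simpa [J431, Matrix.mul_apply, Fin.sum_univ_succ] using e 5 1
  have e52 : B 4 2 = B 5 3 := by simpa [J431, Matrix.mul_apply, Fin.sum_univ_succ] using e 5 2
  have e53 : B 4 3 = 0 := by simpa [J431, Matrix.mul_apply, Fin.sum_univ_succ] using e 5 3
  have e54 : B 4 4 = B 5 5 := by simpa [J431, Matrix.mul_apply, Fin.sum_univ_succ] using e 5 4
  have e55 : B 4 5 = B 5 6 := by simpa [J431, Matrix.mul_apply, Fin.sum_univ_succ] using e 5 5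
  have e56 : B 4 6 = 0 := by simpa [J431, Matrix.mul_apply, Fin.sum_univ_succ] using e 5 6
  have e57 : B 4 7 = 0 := by simpa [J431, Matrix.mul_apply, Fin.sum_univ_succ] using e 5 7
  have e60 : B 5 0 = B 6 1 := by simpa [J431, Matrix.mul_apply, Fin.sum_univ_succ] using e 6 0
  have e61 : B 5 1 = B 6 2 := by simpa [J431, Matrix.mul_apply, Fin.sum_univ_succ] using e 6 1
  have e62 : B 5 2 = B 6 3 := by simpa [J431, Matrix.mul_apply, Fin.sum_univ_succ] using e 6 2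
  have e63 : B 5 3 = 0 := by simpa [J431, Matrix.mul_apply, Fin.sum_univ_succ] using e 6 3
  have e64 : B 5 4 = B 6 5 := by simpa [J431, Matrix.mul_apply, Fin.sum_univ_succ] using e 6 4
  have e65 : B 5 5 = B 6 6 := by simpa [J431, Matrix.mul_apply, Fin.sum_univ_succ] using e 6 5
  have e66 : B 5 6 = 0 := by simpa [J431, Matrix.mul_apply, Fin.sum_univ_succ] using e 6 6
  have e67 : B 5 7 = 0 := by simpa [J431, Matrix.mul_apply, Fin.sum_univ_succ] using e 6 7
  have e70 : B 7 1 = 0 := by simpa [J431, Matrix.mul_apply, Fin.sum_univ_succ] using (e 7 0).symm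
  have e71 : B 7 2 = 0 := by simpa [J431, Matrix.mul_apply, Fin.sum_univ_succ] using (e 7 1).symm
  have e72 : B 7 3 = 0 := by simpa [J431, Matrix.mul_apply, Fin.sum_univ_succ] using (e 7 2).symm
  have e74 : B 7 5 = 0 := by simpa [J431, Matrix.mul_apply, Fin.sum_univ_succ] using (e 7 4).symm
  have e75 : B 7 6 = 0 := by simpa [J431, Matrix.mul_apply, Fin.sum_univ_succ] using (e 7 5).symm
  have f01 : B 0 1 = 0 := e00
  have f02 : B 0 2 = 0 := e01
  have f03 : B 0 3 = 0 := e02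
  have f04 : B 0 4 = 0 := ((e14).trans (e25)).trans (e36)
  have f05 : B 0 5 = 0 := e04
  have f06 : B 0 6 = 0 := e05
  have f07 : B 0 7 = 0 := e17
  have f11 : B 1 1 = B 0 0 := e10.symm
  have f12 : B 1 2 = 0 := (e11.symm).trans (e00)
  have f13 : B 1 3 = 0 := e23
  have f15 : B 1 5 = 0 := (e25).trans (e36)
  have f16 : B 1 6 = 0 := e26
  have f17 : B 1 7 = 0 := e27
  have f21 : B 2 1 = B 1 0 := e20.symm
  have f22 : B 2 2 = B 0 0 := (e21.symm).trans (e10.symm)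
  have f23 : B 2 3 = 0 := e33
  have f25 : B 2 5 = B 1 4 := e24.symm
  have f26 : B 2 6 = 0 := e36
  have f27 : B 2 7 = 0 := e37
  have f31 : B 3 1 = B 2 0 := e30.symm
  have f32 : B 3 2 = B 1 0 := (e31.symm).trans (e20.symm)
  have f33 : B 3 3 = B 0 0 := ((e32.symm).trans (e21.symm)).trans (e10.symm)
  have f35 : B 3 5 = B 2 4 := e34.symm
  have f36 : B 3 6 = B 1 4 := (e35.symm).trans (e24.symm)
  have f41 : B 4 1 = 0 := e40
  have f42 : B 4 2 = 0 := e41
  have f43 : B 4 3 = 0 := e42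
  have f45 : B 4 5 = 0 := e44
  have f46 : B 4 6 = 0 := e45
  have f47 : B 4 7 = 0 := e57
  have f51 : B 5 1 = B 4 0 := e50.symm
  have f52 : B 5 2 = 0 := (e51.symm).trans (e40)
  have f53 : B 5 3 = 0 := e63
  have f55 : B 5 5 = B 4 4 := e54.symm
  have f56 : B 5 6 = 0 := e66
  have f57 : B 5 7 = 0 := e67
  have f61 : B 6 1 = B 5 0 := e60.symm
  have f62 : B 6 2 = B 4 0 := (e61.symm).trans (e50.symm)
  have f63 : B 6 3 = 0 := ((e62.symm).trans (e51.symm)).trans (e40)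
  have f65 : B 6 5 = B 5 4 := e64.symm
  have f66 : B 6 6 = B 4 4 := (e65.symm).trans (e54.symm)
  have f71 : B 7 1 = 0 := e70
  have f72 : B 7 2 = 0 := e71
  have f73 : B 7 3 = 0 := e72
  have f75 : B 7 5 = 0 := e74
  have f76 : B 7 6 = 0 := e75
  have d0 : B 0 0 = 0 := by
    by_contra h0
    have h1 := eig (w := ![1, 0, 0, 0, 0, 0, 0, 0]) hn (c := B 0 0) (by
      ext j
      fin_cases j <;>
        simp [Matrix.vecMul, dotProduct, Fin.sum_univ_succ, f01, f02, f03, f04, f05, f06, f07, f12, f13, f15, f16, f17, f23, f26, f27, f41, f42, f43, f45, f46, f47, f52, f53, f56, f57, f63, f11, f21, f22, f25, f31, f32, f33, f35, f36, f51, f55, f61, f62, f65, f66]) h0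
    have h2 := congrFun h1 0
    simp at h2
  have d4 : B 4 4 = 0 := by
    by_contra h0
    have h1 := eig (w := ![B 4 0, 0, 0, 0, B 4 4, 0, 0, 0]) hn (c := B 4 4) (by
      ext j
      fin_cases j <;>
        simp [Matrix.vecMul, dotProduct, Fin.sum_univ_succ, d0, f01, f02, f03, f04, f05, f06, f07, f12, f13, f15, f16, f17, f23, f26, f27, f41, f42, f43, f45, f46, f47, f52, f53, f56, f57, f63, f11, f21, f22, f25, f31, f32, f33, f35, f36, f51, f55, f61, f62, f65, f66]) h0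
    have h2 := congrFun h1 4
    exact h0 (by simpa using h2)
  have d7 : B 7 7 = 0 := by
    by_contra h0
    have h1 := eig (w := ![B 7 7 * B 7 0 + B 7 4 * B 4 0, 0, 0, 0, B 7 7 * B 7 4, 0, 0,
        B 7 7 * B 7 7]) hn (c := B 7 7) (by
      ext j
      fin_cases j <;>
        simp [Matrix.vecMul, dotProduct, Fin.sum_univ_succ, d0, d4, f01, f02, f03, f04, f05, f06, f07, f12, f13, f15, f16, f17, f23, f26, f27, f41, f42, f43, f45, f46, f47, f52, f53, f56, f57, f63, f71, f72, f73, f75, f76, f11, f21, f22, f25, f31, f32, f33, f35, f36, f51, f55, f61, f62, f65, f66] <;> ring) h0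
    have h2 := congrFun h1 7
    exact h0 (by simpa using h2)
  refine ⟨B 1 0, B 2 0, B 3 0, B 1 4, B 2 4, B 3 4, B 4 0, B 5 0, B 6 0, B 5 4 - B 1 0,
    B 6 4 - B 2 0, B 7 0, B 7 4, B 3 7, B 6 7, ?_⟩
  rw [J2, mulJ2]
  ext i j
  fin_cases i <;> fin_cases j <;>
    simp [J431, B431, d0, d4, d7, f01, f02, f03, f04, f05, f06, f07, f12, f13, f15, f16, f17, f23, f26, f27, f41, f42, f43, f45, f46, f47, f52, f53, f56, f57, f63, f71, f72, f73, f75, f76, f11, f21, f22, f25, f31, f32, f33, f35, f36, f51, f55, f61, f62, f65, f66]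

end T431aAux

end Pool.Agent.Lib.D8
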