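import Pool.Agent.Lib.D8.Axes
import Pool.Agent.Lib.D8.Defs

/-!
# MP_5dcbc3_ag: type (4, 3, 1), the generic algebra with three axes: algebra

`U = B - f1 A - g1 A^2`, `V = B - f2 A - g2 A^2`, `U V = 0`, and `C`; the relations between them give three
matrices `X`, `Y`, `Z` with `X Y = X Z = Y Z = 0`, `Z^2 = z1 X^3 + z2 Y^3`.
-/

namespace Pool.Agent.Lib.D8

open Matrix Pool.Agent.Lib.Q5dc Pool.Agent.Lib.D7

variable {k : Type*} [Field k]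

namespace T431bAux

/-- the relations -/
structure Rel {R : Type*} [Ring R] [Algebra k R] (w1 w2 z1 z2 : k) (U V C U2 V2 U3 V3 : R) :
    Prop where
  uu : U * U = U2
  uu2 : U * U2 = U3
  u2u : U2 * U = U3
  uu3 : U * U3 = 0
  u3u : U3 * U = 0
  vv : V * V = V2
  vv2 : V * V2 = V3
  v2v : V2 * V = V3
  vv3 : V * V3 = 0
  v3v : V3 * V = 0
  uv : U * V = 0
  vu : V * U = 0
  uc : U * C = w1 • U3 + w2 • V3
  cu : C * U = w1 • U3 + w2 • V3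
  vc : V * C = w1 • U3 + w2 • V3
  cv : C * V = w1 • U3 + w2 • V3
  cc : C * C = z1 • U3 + z2 • V3

section
variable {R : Type*} [Ring R] [Algebra k R] {w1 w2 z1 z2 : k} {U V C U2 V2 U3 V3 : R}

/-- exchange of the two branches -/
theorem Rel.symm (h : Rel w1 w2 z1 z2 U V C U2 V2 U3 V3) : Rel w2 w1 z2 z1 V U C V2 U2 V3 U3 where
  uu := h.vv
  uu2 := h.vv2
  u2u := h.v2v
  uu3 := h.vv3
  u3u := h.v3v
  vv := h.uu
  vv2 := h.uu2
  v2v := h.u2u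
  vv3 := h.uu3
  v3v := h.u3u
  uv := h.vu
  vu := h.uv
  uc := by rw [h.vc, add_comm]
  cu := by rw [h.cv, add_comm]
  vc := by rw [h.uc, add_comm]
  cv := by rw [h.cu, add_comm]
  cc := by rw [h.cc, add_comm]

theorem Rel.uv2 (h : Rel w1 w2 z1 z2 U V C U2 V2 U3 V3) : U * V2 = 0 := by
  rw [← h.vv, ← mul_assoc, h.uv, zero_mul]

theorem Rel.v2u (h : Rel w1 w2 z1 z2 U V C U2 V2 U3 V3) : V2 * U = 0 := by
  rw [← h.vv, mul_assoc, h.vu, mul_zero]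

theorem Rel.uv3 (h : Rel w1 w2 z1 z2 U V C U2 V2 U3 V3) : U * V3 = 0 := by
  rw [← h.vv2, ← mul_assoc, h.uv, zero_mul]

theorem Rel.v3u (h : Rel w1 w2 z1 z2 U V C U2 V2 U3 V3) : V3 * U = 0 := by
  rw [← h.v2v, mul_assoc, h.vu, mul_zero]

theorem Rel.u2u2 (h : Rel w1 w2 z1 z2 U V C U2 V2 U3 V3) : U2 * U2 = 0 := by
  nth_rewrite 1 [← h.uu]
  rw [mul_assoc, h.uu2, h.uu3]

theorem Rel.u2v2 (h : Rel w1 w2 z1 z2 U V C U2 V2 U3 V3) : U2 * V2 = 0 := by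
  rw [← h.uu, mul_assoc, h.uv2, mul_zero]

theorem Rel.u2u3 (h : Rel w1 w2 z1 z2 U V C U2 V2 U3 V3) : U2 * U3 = 0 := by
  rw [← h.uu, mul_assoc, h.uu3, mul_zero]

theorem Rel.u2v3 (h : Rel w1 w2 z1 z2 U V C U2 V2 U3 V3) : U2 * V3 = 0 := by
  rw [← h.uu, mul_assoc, h.uv3, mul_zero]

theorem Rel.cu2 (h : Rel w1 w2 z1 z2 U V C U2 V2 U3 V3) : C * U2 = 0 := by
  rw [← h.uu, ← mul_assoc, h.cu, add_mul, smul_mul_assoc, smul_mul_assoc, h.u3u, h.v3u, smul_zero,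
    smul_zero, add_zero]

theorem Rel.u2c (h : Rel w1 w2 z1 z2 U V C U2 V2 U3 V3) : U2 * C = 0 := by
  rw [← h.uu, mul_assoc, h.uc, mul_add, mul_smul_comm, mul_smul_comm, h.uu3, h.uv3, smul_zero,
    smul_zero, add_zero]

theorem Rel.cu3 (h : Rel w1 w2 z1 z2 U V C U2 V2 U3 V3) : C * U3 = 0 := by
  rw [← h.u2u, ← mul_assoc, h.cu2, zero_mul]

/-- the first axis -/
def XX (xi la : k) (U V2 C : R) : R := U + xi • C + la • V2

/-- the third axis -/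
def ZZ (al be : k) (C U2 V2 : R) : R := C - al • U2 - be • V2

theorem Rel.xy (h : Rel w1 w2 z1 z2 U V C U2 V2 U3 V3) {xi la ze mu : k}
    (e1 : (xi + ze) * w1 + xi * ze * z1 + mu = 0) (e2 : (xi + ze) * w2 + xi * ze * z2 + la = 0) :
    XX xi la U V2 C * XX ze mu V U2 C = 0 := by
  have e : XX xi la U V2 C * XX ze mu V U2 C = ((xi + ze) * w1 + xi * ze * z1 + mu) • U3 +
      ((xi + ze) * w2 + xi * ze * z2 + la) • V3 := by
    unfold XX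
    simp only [add_mul, mul_add, smul_mul_assoc, mul_smul_comm, h.uv, h.uc, h.cv, h.cc, h.uu2,
      h.v2v, h.cu2, h.symm.u2c, h.symm.u2v2]
    module
  rw [e, e1, e2, zero_smul, zero_smul, add_zero]

theorem Rel.xz (h : Rel w1 w2 z1 z2 U V C U2 V2 U3 V3) {xi la al be : k}
    (e3 : w1 - al + xi * z1 = 0) (e4 : w2 + xi * z2 = 0) :
    XX xi la U V2 C * ZZ al be C U2 V2 = 0 := by
  have e : XX xi la U V2 C * ZZ al be C U2 V2 = (w1 - al + xi * z1) • U3 +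
      (w2 + xi * z2) • V3 := by
    unfold XX ZZ
    simp only [add_mul, mul_sub, smul_mul_assoc, mul_smul_comm, h.uc, h.cc, h.uu2, h.uv2,
      h.cu2, h.symm.cu2, h.symm.u2c, h.symm.u2v2, h.symm.u2u2]
    module
  rw [e, e3, e4, zero_smul, zero_smul, add_zero]

theorem Rel.zx (h : Rel w1 w2 z1 z2 U V C U2 V2 U3 V3) {xi la al be : k}
    (e3 : w1 - al + xi * z1 = 0) (e4 : w2 + xi * z2 = 0) :
    ZZ al be C U2 V2 * XX xi la U V2 C = 0 := by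
  have e : ZZ al be C U2 V2 * XX xi la U V2 C = (w1 - al + xi * z1) • U3 +
      (w2 + xi * z2) • V3 := by
    unfold XX ZZ
    simp only [sub_mul, mul_add, smul_mul_assoc, mul_smul_comm, h.cu, h.cc, h.u2u, h.v2u,
      h.u2c, h.symm.cu2, h.symm.u2c, h.u2v2, h.symm.u2u2]
    module
  rw [e, e3, e4, zero_smul, zero_smul, add_zero]

theorem Rel.xsq (h : Rel w1 w2 z1 z2 U V C U2 V2 U3 V3) (xi la : k) :
    XX xi la U V2 C ^ 2 = U2 + (2 * xi * w1 + xi ^ 2 * z1) • U3 +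
      (2 * xi * w2 + xi ^ 2 * z2) • V3 := by
  rw [sq]
  unfold XX
  simp only [add_mul, mul_add, smul_mul_assoc, mul_smul_comm, h.uu, h.uc, h.uv2, h.cu, h.cc,
    h.symm.cu2, h.v2u, h.symm.u2c, h.symm.u2u2]
  module

theorem Rel.cube (h : Rel w1 w2 z1 z2 U V C U2 V2 U3 V3) (xi la : k) :
    XX xi la U V2 C ^ 3 = U3 := by
  rw [pow_succ', h.xsq]
  unfold XX
  simp only [add_mul, mul_add, smul_mul_assoc, mul_smul_comm, h.uu2, h.uu3, h.uv3, h.cu2, h.cu3,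
    h.symm.cu3, h.symm.u2v2, h.symm.u2v3, h.symm.u2u3]
  module

theorem Rel.zsq (h : Rel w1 w2 z1 z2 U V C U2 V2 U3 V3) (al be : k) :
    ZZ al be C U2 V2 ^ 2 = z1 • U3 + z2 • V3 := by
  rw [sq]
  unfold ZZ
  simp only [sub_mul, mul_sub, smul_mul_assoc, mul_smul_comm, h.cc, h.cu2, h.symm.cu2, h.u2c,
    h.symm.u2c, h.u2u2, h.symm.u2u2, h.u2v2, h.symm.u2v2]
  module

end

/-- first branch -/
def U (f1 f2 g1 g2 th et : k) : Matrix (Fin 8) (Fin 8) k :=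
  !![0, 0, 0, 0, 0, 0, 0, 0;
     -f1, 0, 0, 0, 0, 0, 0, 0;
     -g1, -f1, 0, 0, -(f1 * f2), 0, 0, 0;
     0, -g1, -f1, 0, -(f1 * g2 + f2 * g1), -(f1 * f2), 0, th;
     1, 0, 0, 0, 0, 0, 0, 0;
     0, 1, 0, 0, f2, 0, 0, 0;
     0, 0, 1, 0, g2, f2, 0, et;
     0, 0, 0, 0, 0, 0, 0, 0]

/-- its square -/
def U2 (f1 f2 g1 g2 : k) : Matrix (Fin 8) (Fin 8) k :=
  !![0, 0, 0, 0, 0, 0, 0, 0;
     0, 0, 0, 0, 0, 0, 0, 0;
     -(f1 * (f2 - f1)), 0, 0, 0, 0, 0, 0, 0;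
     -(g1 * (f2 - f1) + f1 * (g2 - g1)), -(f1 * (f2 - f1)), 0, 0, -(f1 * f2 * (f2 - f1)), 0, 0, 0;
     0, 0, 0, 0, 0, 0, 0, 0;
     f2 - f1, 0, 0, 0, 0, 0, 0, 0;
     g2 - g1, f2 - f1, 0, 0, f2 * (f2 - f1), 0, 0, 0;
     0, 0, 0, 0, 0, 0, 0, 0]

/-- `e0 -> r e3 + t e6` -/
def S (r t : k) : Matrix (Fin 8) (Fin 8) k :=
  !![0, 0, 0, 0, 0, 0, 0, 0;
     0, 0, 0, 0, 0, 0, 0, 0;
     0, 0, 0, 0, 0, 0, 0, 0;
     r, 0, 0, 0, 0, 0, 0, 0;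
     0, 0, 0, 0, 0, 0, 0, 0;
     0, 0, 0, 0, 0, 0, 0, 0;
     t, 0, 0, 0, 0, 0, 0, 0;
     0, 0, 0, 0, 0, 0, 0, 0]

/-- third generator -/
def C (w th et th' et' : k) : Matrix (Fin 8) (Fin 8) k :=
  !![0, 0, 0, 0, 0, 0, 0, 0;
     0, 0, 0, 0, 0, 0, 0, 0;
     0, 0, 0, 0, 0, 0, 0, 0;
     0, 0, 0, 0, w * th, 0, 0, th';
     0, 0, 0, 0, 0, 0, 0, 0;
     0, 0, 0, 0, 0, 0, 0, 0;
     0, 0, 0, 0, w * et, 0, 0, et';
     w, 0, 0, 0, 0, 0, 0, 0]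

theorem UU (f1 f2 g1 g2 th et : k) :
    U f1 f2 g1 g2 th et * U f1 f2 g1 g2 th et = U2 f1 f2 g1 g2 := by
  ext i j
  fin_cases i <;> fin_cases j <;>
    simp [U, U2, Matrix.mul_apply, Fin.sum_univ_succ] <;> ring

theorem UU2 (f1 f2 g1 g2 th et : k) : U f1 f2 g1 g2 th et * U2 f1 f2 g1 g2 =
    S (-(f1 * (f2 - f1) ^ 2)) ((f2 - f1) ^ 2) := by
  ext i j
  fin_cases i <;> fin_cases j <;>
    simp [U, U2, S, Matrix.mul_apply, Fin.sum_univ_succ] <;> ring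

theorem U2U (f1 f2 g1 g2 th et : k) : U2 f1 f2 g1 g2 * U f1 f2 g1 g2 th et =
    S (-(f1 * (f2 - f1) ^ 2)) ((f2 - f1) ^ 2) := by
  ext i j
  fin_cases i <;> fin_cases j <;>
    simp [U, U2, S, Matrix.mul_apply, Fin.sum_univ_succ] <;> ring

theorem US (f1 f2 g1 g2 th et r t : k) : U f1 f2 g1 g2 th et * S r t = 0 := by
  ext i j
  fin_cases i <;> fin_cases j <;>
    simp [U, S, Matrix.mul_apply, Fin.sum_univ_succ]

theorem SU (f1 f2 g1 g2 th et r t : k) : S r t * U f1 f2 g1 g2 th et = 0 := by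
  ext i j
  fin_cases i <;> fin_cases j <;>
    simp [U, S, Matrix.mul_apply, Fin.sum_univ_succ]

theorem UV (f1 f2 g1 g2 th et : k) : U f1 f2 g1 g2 th et * U f2 f1 g2 g1 th et = 0 := by
  ext i j
  fin_cases i <;> fin_cases j <;>
    simp [U, Matrix.mul_apply, Fin.sum_univ_succ] <;> ring

theorem UC (f1 f2 g1 g2 th et w th' et' : k) : U f1 f2 g1 g2 th et * C w th et th' et' =
    S (w * th) (w * et) := by
  ext i j
  fin_cases i <;> fin_cases j <;>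
    simp [U, C, S, Matrix.mul_apply, Fin.sum_univ_succ] <;> ring

theorem CU (f1 f2 g1 g2 th et w th' et' : k) : C w th et th' et' * U f1 f2 g1 g2 th et =
    S (w * th) (w * et) := by
  ext i j
  fin_cases i <;> fin_cases j <;>
    simp [U, C, S, Matrix.mul_apply, Fin.sum_univ_succ]

theorem CC (th et w th' et' : k) : C w th et th' et' * C w th et th' et' =
    S (w * th') (w * et') := by
  ext i j
  fin_cases i <;> fin_cases j <;>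
    simp [C, S, Matrix.mul_apply, Fin.sum_univ_succ] <;> ring

theorem S_comb (a b r t r' t' : k) :
    a • S r t + b • S r' t' = S (a * r + b * r') (a * t + b * t') := by
  ext i j
  fin_cases i <;> fin_cases j <;> simp [S]

/-- the relations hold -/
theorem rel {f1 f2 g1 g2 th et w th' et' w1 w2 z1 z2 : k}
    (h1 : w * th = w1 * (-(f1 * (f2 - f1) ^ 2)) + w2 * (-(f2 * (f1 - f2) ^ 2)))
    (h2 : w * et = w1 * (f2 - f1) ^ 2 + w2 * (f1 - f2) ^ 2)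
    (h3 : w * th' = z1 * (-(f1 * (f2 - f1) ^ 2)) + z2 * (-(f2 * (f1 - f2) ^ 2)))
    (h4 : w * et' = z1 * (f2 - f1) ^ 2 + z2 * (f1 - f2) ^ 2) :
    Rel w1 w2 z1 z2 (U f1 f2 g1 g2 th et) (U f2 f1 g2 g1 th et) (C w th et th' et')
      (U2 f1 f2 g1 g2) (U2 f2 f1 g2 g1)
      (S (-(f1 * (f2 - f1) ^ 2)) ((f2 - f1) ^ 2)) (S (-(f2 * (f1 - f2) ^ 2)) ((f1 - f2) ^ 2)) where
  uu := UU ..
  uu2 := UU2 ..
  u2u := U2U ..
  uu3 := US ..
  u3u := SU ..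
  vv := UU ..
  vv2 := UU2 ..
  v2v := U2U ..
  vv3 := US ..
  v3v := SU ..
  uv := UV ..
  vu := UV ..
  uc := by rw [UC, S_comb, h1, h2]
  cu := by rw [CU, S_comb, h1, h2]
  vc := by rw [UC, S_comb, h1, h2]
  cv := by rw [CU, S_comb, h1, h2]
  cc := by rw [CC, S_comb, h3, h4]

end T431bAux

end Pool.Agent.Lib.D8
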