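import Pool.Agent.Lib.D7.Api
import Pool.Agent.Lib.D8.Defs
import Pool.Agent.Lib.D8.Axes

/-!
# MP_5dcbc3_ag: triples on `J431` with `om = th = 0` for `B` and `pi = et = 0` for `C`

In the generic case the algebra is generated by three axes `X`, `Y₁`, `Y₂` and the module has the two
generators `v`, `u`.
-/

namespace Pool.Agent.Lib.D8

open Matrix Pool.Agent.Lib.Q5dc Pool.Agent.Lib.D7

variable {k : Type*} [Field k]

namespace T431cAux

/-- the first axis -/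
def XX (Om Th : k) : Matrix (Fin 8) (Fin 8) k :=
  !![0, 0, 0, 0, 0, 0, 0, 0;
     1, 0, 0, 0, 0, 0, 0, 0;
     0, 1, 0, 0, 0, 0, 0, 0;
     0, 0, 1, 0, 0, 0, 0, -Th;
     0, 0, 0, 0, 0, 0, 0, 0;
     0, 0, 0, 0, 0, 0, 0, 0;
     0, 0, 0, 0, 0, 0, 0, 0;
     -Om, 0, 0, 0, 0, 0, 0, 0]

/-- the other axes -/
def YY (l m p e Om Th s : k) : Matrix (Fin 8) (Fin 8) k :=
  !![0, 0, 0, 0, 0, 0, 0, 0;
     0, 0, 0, 0, 0, 0, 0, 0;
     -(l * Om * Th), 0, 0, 0, p * Th, 0, 0, 0;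
     s, -(l * Om * Th), 0, 0, 0, p * Th, 0, -(l * Th);
     0, 0, 0, 0, 0, 0, 0, 0;
     e * Om, 0, 0, 0, m, 0, 0, 0;
     0, e * Om, 0, 0, -(l * Om * Th), m, 0, e;
     -(l * Om), 0, 0, 0, p, 0, 0, 0]

/-- `e₀ -> e₂ + c e₃`, `e₁ -> e₃` -/
def X2 (c : k) : Matrix (Fin 8) (Fin 8) k :=
  !![0, 0, 0, 0, 0, 0, 0, 0;
     0, 0, 0, 0, 0, 0, 0, 0;
     1, 0, 0, 0, 0, 0, 0, 0;
     c, 1, 0, 0, 0, 0, 0, 0;
     0, 0, 0, 0, 0, 0, 0, 0;
     0, 0, 0, 0, 0, 0, 0, 0;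
     0, 0, 0, 0, 0, 0, 0, 0;
     0, 0, 0, 0, 0, 0, 0, 0]

/-- `e₀ -> a e₃ + b e₆`, `e₄ -> c e₃ + d e₆` -/
def E (a b c d : k) : Matrix (Fin 8) (Fin 8) k :=
  !![0, 0, 0, 0, 0, 0, 0, 0;
     0, 0, 0, 0, 0, 0, 0, 0;
     0, 0, 0, 0, 0, 0, 0, 0;
     a, 0, 0, 0, c, 0, 0, 0;
     0, 0, 0, 0, 0, 0, 0, 0;
     0, 0, 0, 0, 0, 0, 0, 0;
     b, 0, 0, 0, d, 0, 0, 0;
     0, 0, 0, 0, 0, 0, 0, 0]

theorem XX_mul_YY (l m p e Om Th s : k) : XX Om Th * YY l m p e Om Th s = 0 := by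
  ext i j
  fin_cases i <;> fin_cases j <;>
    simp [XX, YY, Matrix.mul_apply, Fin.sum_univ_succ] <;> ring

theorem YY_mul_XX (l m p e Om Th s : k) : YY l m p e Om Th s * XX Om Th = 0 := by
  ext i j
  fin_cases i <;> fin_cases j <;>
    simp [XX, YY, Matrix.mul_apply, Fin.sum_univ_succ] <;> ring

theorem YY_mul_YY {l m p e : k} (Om Th s s' : k) (h : p * e = -(l * m)) :
    YY l m p e Om Th s * YY m l p e Om Th s' = 0 := by
  ext i j
  fin_cases i <;> fin_cases j <;>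
    simp [YY, Matrix.mul_apply, Fin.sum_univ_succ]
  · linear_combination Om * Th * h
  · ring
  · ring
  · linear_combination h

theorem XX_sq (Om Th : k) : XX Om Th * XX Om Th = X2 (Om * Th) := by
  ext i j
  fin_cases i <;> fin_cases j <;>
    simp [XX, X2, Matrix.mul_apply, Fin.sum_univ_succ] <;> ring

theorem XX_cube (Om Th : k) : XX Om Th * X2 (Om * Th) = E 1 0 0 0 := by
  ext i j
  fin_cases i <;> fin_cases j <;>
    simp [XX, X2, E, Matrix.mul_apply, Fin.sum_univ_succ]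

theorem YY_sq {l m p e : k} (Om Th s : k) (h : p * e = -(l * m)) :
    YY l m p e Om Th s * YY l m p e Om Th s =
      E (-((m - l) * (Om * l * Th))) ((m - l) * (Om * e)) ((m - l) * (p * Th)) ((m - l) * m) := by
  ext i j
  fin_cases i <;> fin_cases j <;>
    simp [YY, E, Matrix.mul_apply, Fin.sum_univ_succ]
  · linear_combination Om * Th * h
  · ring
  · ring
  · linear_combination h

/-- `A²` -/
theorem J431_sq : J431 k * J431 k = X2 0 + E 0 0 0 1 := by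
  ext i j
  fin_cases i <;> fin_cases j <;>
    simp [J431, X2, E, Matrix.mul_apply, Fin.sum_univ_succ]

theorem DD_eq' (l m p e Om Th s s' : k) :
    (l - m) • B431 0 0 0 0 0 0 1 0 Om 0 Th 0 =
      (YY m l p e Om Th s' - YY l m p e Om Th s) -
        ((l - m) * (Om * Th)) • (X2 0 + E 0 0 0 1) - (s' - s) • E 1 0 0 0 := by
  ext i j
  fin_cases i <;> fin_cases j <;>
    simp [YY, X2, E, B431] <;> ring

/-- `C` in terms of the axes, `A²`, `A³` -/
theorem DD_eq {l m : k} (p e Om Th s s' : k) (hlm : l - m ≠ 0) :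
    B431 0 0 0 0 0 0 1 0 Om 0 Th 0 =
      (l - m)⁻¹ • ((YY m l p e Om Th s' - YY l m p e Om Th s) -
        ((l - m) * (Om * Th)) • (X2 0 + E 0 0 0 1) - (s' - s) • E 1 0 0 0) := by
  rw [← DD_eq', smul_smul, inv_mul_cancel₀ hlm, one_smul]

theorem BB_eq (l m p e Om Th s : k) :
    B431 0 (p * Th) 0 0 (e * Om) 0 (l + m) 0 0 p 0 e =
      YY l m p e Om Th s + l • B431 0 0 0 0 0 0 1 0 Om 0 Th 0 +
        (l * Om * Th) • (X2 0 + E 0 0 0 1) - s • E 1 0 0 0 := by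
  ext i j
  fin_cases i <;> fin_cases j <;>
    simp [YY, X2, E, B431] <;> ring

theorem AA_eq (Om Th : k) : J431 k = XX Om Th + B431 0 0 0 0 0 0 1 0 Om 0 Th 0 := by
  ext i j
  fin_cases i <;> fin_cases j <;>
    simp [XX, J431, B431]

theorem X2_eq (c : k) : X2 c = X2 0 + c • E 1 0 0 0 := by
  ext i j
  fin_cases i <;> fin_cases j <;>
    simp [X2, E]

theorem E_eq (a d : k) : E a 0 0 d = a • E 1 0 0 0 + d • E 0 0 0 1 := by
  ext i j
  fin_cases i <;> fin_cases j <;>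
    simp [E]

theorem YY_sq_add {l m p e : k} (Om Th s s' : k) (h : p * e = -(l * m)) :
    YY l m p e Om Th s * YY l m p e Om Th s + YY m l p e Om Th s' * YY m l p e Om Th s' =
      E ((l - m) ^ 2 * (Om * Th)) 0 0 ((l - m) ^ 2) := by
  rw [YY_sq Om Th s h, YY_sq Om Th s' (by rw [h]; ring)]
  ext i j
  fin_cases i <;> fin_cases j <;>
    simp [E] <;> ring

/-- the three axes are sufficient -/
theorem mem_adj3 {l m p e : k} (Om Th s s' : k) (h : p * e = -(l * m)) (hlm : l - m ≠ 0)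
    (i : Fin 3) :
    (![J431 k, B431 0 (p * Th) 0 0 (e * Om) 0 (l + m) 0 0 p 0 e,
      B431 0 0 0 0 0 0 1 0 Om 0 Th 0] : Fin 3 → Matrix (Fin 8) (Fin 8) k) i ∈
      adj ![XX Om Th, YY l m p e Om Th s, YY m l p e Om Th s'] := by
  have hX : XX Om Th ∈ adj ![XX Om Th, YY l m p e Om Th s, YY m l p e Om Th s'] :=
    mem_adj ![XX Om Th, YY l m p e Om Th s, YY m l p e Om Th s'] 0
  have hY : YY l m p e Om Th s ∈ adj ![XX Om Th, YY l m p e Om Th s, YY m l p e Om Th s'] :=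
    mem_adj ![XX Om Th, YY l m p e Om Th s, YY m l p e Om Th s'] 1
  have hZ : YY m l p e Om Th s' ∈ adj ![XX Om Th, YY l m p e Om Th s, YY m l p e Om Th s'] :=
    mem_adj ![XX Om Th, YY l m p e Om Th s, YY m l p e Om Th s'] 2
  have hE1 : E 1 0 0 0 ∈ adj ![XX Om Th, YY l m p e Om Th s, YY m l p e Om Th s'] := by
    rw [← XX_cube Om Th, ← XX_sq]
    exact mul_mem hX (mul_mem hX hX)
  have hX2 : X2 0 ∈ adj ![XX Om Th, YY l m p e Om Th s, YY m l p e Om Th s'] := by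
    have h1 : X2 0 = XX Om Th * XX Om Th - (Om * Th) • E 1 0 0 0 := by
      rw [XX_sq, X2_eq (Om * Th), add_sub_cancel_right]
    rw [h1]
    exact sub_mem (mul_mem hX hX) (SMulMemClass.smul_mem _ hE1)
  have hE4 : E 0 0 0 1 ∈ adj ![XX Om Th, YY l m p e Om Th s, YY m l p e Om Th s'] := by
    have h1 : (E 0 0 0 1 : Matrix (Fin 8) (Fin 8) k) = ((l - m) ^ 2)⁻¹ •
        (YY l m p e Om Th s * YY l m p e Om Th s + YY m l p e Om Th s' * YY m l p e Om Th s') -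
        (Om * Th) • E 1 0 0 0 := by
      rw [YY_sq_add Om Th s s' h, E_eq ((l - m) ^ 2 * (Om * Th)), smul_add, smul_smul, smul_smul,
        ← mul_assoc, inv_mul_cancel₀ (pow_ne_zero 2 hlm), one_mul, one_smul, add_sub_cancel_left]
    rw [h1]
    exact sub_mem (SMulMemClass.smul_mem _ (add_mem (mul_mem hY hY) (mul_mem hZ hZ)))
      (SMulMemClass.smul_mem _ hE1)
  have hD : B431 0 0 0 0 0 0 1 0 Om 0 Th 0 ∈
      adj ![XX Om Th, YY l m p e Om Th s, YY m l p e Om Th s'] := by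
    rw [DD_eq p e Om Th s s' hlm]
    exact SMulMemClass.smul_mem _ (sub_mem (sub_mem (sub_mem hZ hY)
      (SMulMemClass.smul_mem _ (add_mem hX2 hE4))) (SMulMemClass.smul_mem _ hE1))
  fin_cases i
  · change J431 k ∈ _
    rw [AA_eq Om Th]
    exact add_mem hX hD
  · change B431 0 (p * Th) 0 0 (e * Om) 0 (l + m) 0 0 p 0 e ∈ _
    rw [BB_eq l m p e Om Th s]
    exact sub_mem (add_mem (add_mem hY (SMulMemClass.smul_mem _ hD))
      (SMulMemClass.smul_mem _ (add_mem hX2 hE4))) (SMulMemClass.smul_mem _ hE1)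
  · exact hD

/-- the vector `v` -/
def vv : Fin 8 → k := ![1, 0, 0, 0, 0, 0, 0, 0]

/-- the vector `u` -/
def uu (q e Om Th : k) : Fin 8 → k :=
  ![0, 0, q * Om * Th ^ 2 / e, 0, 1, -(Om * Th), 0, q * Om * Th / e]

theorem XX_vv (Om Th : k) : XX Om Th *ᵥ vv = ![0, 1, 0, 0, 0, 0, 0, -Om] := by
  ext i
  fin_cases i <;> simp [XX, vv, Matrix.mulVec, dotProduct, Fin.sum_univ_succ]

theorem X2_vv (c : k) : X2 c *ᵥ vv = ![0, 0, 1, c, 0, 0, 0, 0] := by
  ext i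
  fin_cases i <;> simp [X2, vv, Matrix.mulVec, dotProduct, Fin.sum_univ_succ]

theorem E_vv (a b c d : k) : E a b c d *ᵥ vv = ![0, 0, 0, a, 0, 0, b, 0] := by
  ext i
  fin_cases i <;> simp [E, vv, Matrix.mulVec, dotProduct, Fin.sum_univ_succ]

theorem YY_vv (l m p e Om Th s : k) : YY l m p e Om Th s *ᵥ vv =
    ![0, 0, -(l * Om * Th), s, 0, e * Om, 0, -(l * Om)] := by
  ext i
  fin_cases i <;> simp [YY, vv, Matrix.mulVec, dotProduct, Fin.sum_univ_succ]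

theorem XX_uu {e : k} (q Om Th : k) : XX Om Th *ᵥ uu q e Om Th = 0 := by
  ext i
  fin_cases i <;> simp [XX, uu, Matrix.mulVec, dotProduct, Fin.sum_univ_succ] <;> ring

theorem YY_uu {l m p e Om : k} (Th s : k) (he : e ≠ 0) (hm : m ≠ 0) (hOm : Om ≠ 0)
    (h : p * e = -(l * m))
    (hs : s * m = -(l ^ 2 * Om ^ 2 * Th ^ 2)) :
    YY l m p e Om Th s *ᵥ uu (l + m) e Om Th = (m / (e * Om)) • (YY l m p e Om Th s *ᵥ vv) := by
  have hp : p = -(l * m) / e := by rw [eq_div_iff he, h]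
  have hs' : s = -(l ^ 2 * Om ^ 2 * Th ^ 2) / m := by rw [eq_div_iff hm, hs]
  subst hp hs'
  rw [YY_vv]
  ext i
  fin_cases i <;> simp [YY, uu, Matrix.mulVec, dotProduct, Fin.sum_univ_succ] <;> field_simp <;>
    ring

theorem span_top {l m p e Om Th s s' : k} (he : e ≠ 0) (hOm : Om ≠ 0) (hlm : l - m ≠ 0)
    (h : p * e = -(l * m)) :
    ⊤ ≤ Submodule.span k ({vv} ∪ {uu (l + m) e Om Th} ∪
      {x | ∃ i, x = XX Om Th ^ (i + 1) *ᵥ vv} ∪
      {x | ∃ i, x = YY l m p e Om Th s ^ (i + 1) *ᵥ vv} ∪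
      {x | ∃ i, x = YY m l p e Om Th s' ^ (i + 1) *ᵥ vv}) := by
  set S := Submodule.span k ({vv} ∪ {uu (l + m) e Om Th} ∪
      {x | ∃ i, x = XX Om Th ^ (i + 1) *ᵥ vv} ∪
      {x | ∃ i, x = YY l m p e Om Th s ^ (i + 1) *ᵥ vv} ∪
      {x | ∃ i, x = YY m l p e Om Th s' ^ (i + 1) *ᵥ vv}) with hS
  have hv : vv ∈ S := Submodule.subset_span (Or.inl (Or.inl (Or.inl (Or.inl rfl))))
  have hu : uu (l + m) e Om Th ∈ S :=
    Submodule.subset_span (Or.inl (Or.inl (Or.inl (Or.inr rfl))))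
  have hX1 : (![0, 1, 0, 0, 0, 0, 0, -Om] : Fin 8 → k) ∈ S := by
    rw [← XX_vv Om Th]
    exact Submodule.subset_span (Or.inl (Or.inl (Or.inr ⟨0, by rw [zero_add, pow_one]⟩)))
  have hX2 : (![0, 0, 1, Om * Th, 0, 0, 0, 0] : Fin 8 → k) ∈ S := by
    rw [← X2_vv, ← XX_sq, ← pow_two]
    exact Submodule.subset_span (Or.inl (Or.inl (Or.inr ⟨1, rfl⟩)))
  have hX3 : (![0, 0, 0, 1, 0, 0, 0, 0] : Fin 8 → k) ∈ S := by
    rw [← E_vv 1 0 0 0, ← XX_cube Om Th, ← XX_sq, ← pow_two, ← pow_succ']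
    exact Submodule.subset_span (Or.inl (Or.inl (Or.inr ⟨2, rfl⟩)))
  have hY1 : (![0, 0, -(l * Om * Th), s, 0, e * Om, 0, -(l * Om)] : Fin 8 → k) ∈ S := by
    rw [← YY_vv l m p e Om Th s]
    exact Submodule.subset_span (Or.inl (Or.inr ⟨0, by rw [zero_add, pow_one]⟩))
  have hY2 : (![0, 0, 0, -((m - l) * (Om * l * Th)), 0, 0, (m - l) * (Om * e), 0] :
      Fin 8 → k) ∈ S := by
    rw [← E_vv _ _ ((m - l) * (p * Th)) ((m - l) * m), ← YY_sq Om Th s h, ← pow_two]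
    exact Submodule.subset_span (Or.inl (Or.inr ⟨1, rfl⟩))
  have hZ1 : (![0, 0, -(m * Om * Th), s', 0, e * Om, 0, -(m * Om)] : Fin 8 → k) ∈ S := by
    rw [← YY_vv m l p e Om Th s']
    exact Submodule.subset_span (Or.inr ⟨0, by rw [zero_add, pow_one]⟩)
  have h2 : (![0, 0, 1, 0, 0, 0, 0, 0] : Fin 8 → k) ∈ S := by
    have e1 : (![0, 0, 1, 0, 0, 0, 0, 0] : Fin 8 → k) = ![0, 0, 1, Om * Th, 0, 0, 0, 0] -
        (Om * Th) • ![0, 0, 0, 1, 0, 0, 0, 0] := by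
      ext i
      fin_cases i <;> simp
    rw [e1]
    exact sub_mem hX2 (S.smul_mem _ hX3)
  have hml : m - l ≠ 0 := fun h => hlm (by linear_combination -h)
  have h6 : (![0, 0, 0, 0, 0, 0, 1, 0] : Fin 8 → k) ∈ S := by
    have e1 : (![0, 0, 0, 0, 0, 0, 1, 0] : Fin 8 → k) = ((m - l) * (Om * e))⁻¹ •
        (![0, 0, 0, -((m - l) * (Om * l * Th)), 0, 0, (m - l) * (Om * e), 0] +
          ((m - l) * (Om * l * Th)) • ![0, 0, 0, 1, 0, 0, 0, 0]) := by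
      ext i
      fin_cases i <;> simp
      field_simp
    rw [e1]
    exact S.smul_mem _ (add_mem hY2 (S.smul_mem _ hX3))
  have h7 : (![0, 0, 0, 0, 0, 0, 0, 1] : Fin 8 → k) ∈ S := by
    have e1 : (![0, 0, 0, 0, 0, 0, 0, 1] : Fin 8 → k) = ((m - l) * Om)⁻¹ •
        (![0, 0, -(l * Om * Th), s, 0, e * Om, 0, -(l * Om)] -
          ![0, 0, -(m * Om * Th), s', 0, e * Om, 0, -(m * Om)] -
          ((m - l) * (Om * Th)) • ![0, 0, 1, 0, 0, 0, 0, 0] -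
          (s - s') • ![0, 0, 0, 1, 0, 0, 0, 0]) := by
      ext i
      fin_cases i <;> simp
      · right; ring
      · field_simp
        ring
    rw [e1]
    exact S.smul_mem _ (sub_mem (sub_mem (sub_mem hY1 hZ1) (S.smul_mem _ h2)) (S.smul_mem _ hX3))
  have h5 : (![0, 0, 0, 0, 0, 1, 0, 0] : Fin 8 → k) ∈ S := by
    have e1 : (![0, 0, 0, 0, 0, 1, 0, 0] : Fin 8 → k) = (e * Om)⁻¹ •
        (![0, 0, -(l * Om * Th), s, 0, e * Om, 0, -(l * Om)] +
          (l * Om * Th) • ![0, 0, 1, 0, 0, 0, 0, 0] -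
          s • ![0, 0, 0, 1, 0, 0, 0, 0] + (l * Om) • ![0, 0, 0, 0, 0, 0, 0, 1]) := by
      ext i
      fin_cases i <;> simp
      field_simp
    rw [e1]
    exact S.smul_mem _ (add_mem (sub_mem (add_mem hY1 (S.smul_mem _ h2)) (S.smul_mem _ hX3))
      (S.smul_mem _ h7))
  have h1 : (![0, 1, 0, 0, 0, 0, 0, 0] : Fin 8 → k) ∈ S := by
    have e1 : (![0, 1, 0, 0, 0, 0, 0, 0] : Fin 8 → k) = ![0, 1, 0, 0, 0, 0, 0, -Om] +
        Om • ![0, 0, 0, 0, 0, 0, 0, 1] := by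
      ext i
      fin_cases i <;> simp
    rw [e1]
    exact add_mem hX1 (S.smul_mem _ h7)
  have h4 : (![0, 0, 0, 0, 1, 0, 0, 0] : Fin 8 → k) ∈ S := by
    have e1 : (![0, 0, 0, 0, 1, 0, 0, 0] : Fin 8 → k) = uu (l + m) e Om Th -
        ((l + m) * Om * Th ^ 2 / e) • ![0, 0, 1, 0, 0, 0, 0, 0] +
        (Om * Th) • ![0, 0, 0, 0, 0, 1, 0, 0] -
        ((l + m) * Om * Th / e) • ![0, 0, 0, 0, 0, 0, 0, 1] := by
      ext i
      fin_cases i <;> simp [uu]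
    rw [e1]
    exact sub_mem (add_mem (sub_mem hu (S.smul_mem _ h2)) (S.smul_mem _ h5)) (S.smul_mem _ h7)
  intro x _
  have e1 : x = x 0 • vv + x 1 • ![0, 1, 0, 0, 0, 0, 0, 0] + x 2 • ![0, 0, 1, 0, 0, 0, 0, 0] +
      x 3 • ![0, 0, 0, 1, 0, 0, 0, 0] + x 4 • ![0, 0, 0, 0, 1, 0, 0, 0] +
      x 5 • ![0, 0, 0, 0, 0, 1, 0, 0] + x 6 • ![0, 0, 0, 0, 0, 0, 1, 0] +
      x 7 • ![0, 0, 0, 0, 0, 0, 0, 1] := by
    ext i
    fin_cases i <;> simp [vv]
  rw [e1]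
  exact add_mem (add_mem (add_mem (add_mem (add_mem (add_mem (add_mem (S.smul_mem _ hv)
    (S.smul_mem _ h1)) (S.smul_mem _ h2)) (S.smul_mem _ hX3)) (S.smul_mem _ h4))
    (S.smul_mem _ h5)) (S.smul_mem _ h6)) (S.smul_mem _ h7)

/-- the generic case -/
theorem cl_gen [IsAlgClosed k] {l m p e Om Th : k} (hl : l ≠ 0) (hm : m ≠ 0)
    (hlm : l - m ≠ 0) (he : e ≠ 0) (hOm : Om ≠ 0) (hTh : Th ≠ 0) (h : p * e = -(l * m)) :
    Cl ![J431 k, B431 0 (p * Th) 0 0 (e * Om) 0 (l + m) 0 0 p 0 e,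
      B431 0 0 0 0 0 0 1 0 Om 0 Th 0] := by
  have h' : p * e = -(m * l) := by rw [h, mul_comm]
  have hml : l ≠ m := fun h1 => hlm (by rw [h1, sub_self])
  have hs : -(l ^ 2 * Om ^ 2 * Th ^ 2) / m * m = -(l ^ 2 * Om ^ 2 * Th ^ 2) :=
    div_mul_cancel₀ _ hm
  have hs' : -(m ^ 2 * Om ^ 2 * Th ^ 2) / l * l = -(m ^ 2 * Om ^ 2 * Th ^ 2) :=
    div_mul_cancel₀ _ hl
  refine cl_of_adj (mem_adj3 Om Th (-(l ^ 2 * Om ^ 2 * Th ^ 2) / m)
    (-(m ^ 2 * Om ^ 2 * Th ^ 2) / l) h hlm) ?_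
  have hu' : uu (l + m) e Om Th = uu (m + l) e Om Th := by rw [add_comm]
  have hd : (Om * Th * (l - m) ^ 2)⁻¹ ≠ 0 :=
    inv_ne_zero (mul_ne_zero (mul_ne_zero hOm hTh) (pow_ne_zero 2 hlm))
  have hX3 : XX Om Th ^ 3 = E 1 0 0 0 := by rw [pow_succ', pow_two, XX_sq, XX_cube]
  have hY2 : ∀ s, YY l m p e Om Th s ^ 2 = E (-((m - l) * (Om * l * Th))) ((m - l) * (Om * e))
      ((m - l) * (p * Th)) ((m - l) * m) := fun s => by rw [pow_two, YY_sq _ _ _ h]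
  have hZ2 : ∀ s, YY m l p e Om Th s ^ 2 = E (-((l - m) * (Om * m * Th))) ((l - m) * (Om * e))
      ((l - m) * (p * Th)) ((l - m) * l) := fun s => by rw [pow_two, YY_sq _ _ _ h']
  have h1 := cl_axes3_two (XX Om Th) (YY l m p e Om Th (-(l ^ 2 * Om ^ 2 * Th ^ 2) / m))
    (YY m l p e Om Th (-(m ^ 2 * Om ^ 2 * Th ^ 2) / l)) vv (uu (l + m) e Om Th)
    (p := 3) (q := 2) (r := 2) (by norm_num) (by norm_num) (by norm_num) (by simp)
    (XX_mul_YY _ _ _ _ _ _ _) (YY_mul_XX _ _ _ _ _ _ _) (XX_mul_YY _ _ _ _ _ _ _)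
    (YY_mul_XX _ _ _ _ _ _ _) (YY_mul_YY _ _ _ _ h) (YY_mul_YY _ _ _ _ h')
    hd hd (by
      rw [hX3, hY2, hZ2, E_vv, E_vv, E_vv]
      ext i
      fin_cases i <;> simp <;> field_simp <;> ring)
    (l₀ := 0) (l₁ := m / (e * Om)) (l₂ := l / (e * Om))
    (div_ne_zero hm (mul_ne_zero he hOm)) (div_ne_zero hl (mul_ne_zero he hOm))
    (fun h2 => hml (by
      have h3 : e * Om ≠ 0 := mul_ne_zero he hOm
      field_simp at h2
      exact h2.symm))
    (by rw [XX_uu, zero_smul]) (YY_uu _ _ he hm hOm h hs)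
    (by rw [hu']; exact YY_uu _ _ he hl hOm h' hs')
    (span_top he hOm hlm h) (fun i j => if i = j then 1 else 0)
  have h2 : (fun i : Fin 3 => (if i = 0 then (1 : k) else 0) • XX Om Th +
      (if i = 1 then (1 : k) else 0) • YY l m p e Om Th (-(l ^ 2 * Om ^ 2 * Th ^ 2) / m) +
      (if i = 2 then (1 : k) else 0) • YY m l p e Om Th (-(m ^ 2 * Om ^ 2 * Th ^ 2) / l)) =
      ![XX Om Th, YY l m p e Om Th (-(l ^ 2 * Om ^ 2 * Th ^ 2) / m),
        YY m l p e Om Th (-(m ^ 2 * Om ^ 2 * Th ^ 2) / l)] := by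
    funext i
    fin_cases i <;> simp
  rw [h2] at h1
  exact h1

/-- the generic case, in terms of the discriminant -/
theorem cl_gen' [IsAlgClosed k] [CharZero k] {p e Om Th q : k} (hp : p ≠ 0) (he : e ≠ 0)
    (hOm : Om ≠ 0) (hTh : Th ≠ 0) (hd : q ^ 2 + 4 * e * p ≠ 0) :
    Cl ![J431 k, B431 0 (p * Th) 0 0 (e * Om) 0 q 0 0 p 0 e,
      B431 0 0 0 0 0 0 1 0 Om 0 Th 0] := by
  obtain ⟨d, hd2⟩ := IsAlgClosed.exists_pow_nat_eq (q ^ 2 + 4 * e * p) (n := 2) (by norm_num)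
  have hd0 : d ≠ 0 := by
    rintro rfl
    apply hd
    rw [← hd2]
    ring
  have h2 : (2 : k) ≠ 0 := two_ne_zero
  have hlm : ((q + d) / 2) * ((q - d) / 2) = -(p * e) := by
    field_simp
    linear_combination -hd2
  have hpe : p * e ≠ 0 := mul_ne_zero hp he
  have hl : (q + d) / 2 ≠ 0 := by
    intro h0
    rw [h0, zero_mul] at hlm
    exact hpe (by linear_combination hlm)
  have hm : (q - d) / 2 ≠ 0 := by
    intro h0
    rw [h0, mul_zero] at hlm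
    exact hpe (by linear_combination hlm)
  have h1 := cl_gen (l := (q + d) / 2) (m := (q - d) / 2) (p := p) (e := e) (Om := Om) (Th := Th)
    hl hm (by
      have h3 : (q + d) / 2 - (q - d) / 2 = d := by field_simp; ring
      rw [h3]
      exact hd0) he hOm hTh (by rw [hlm, neg_neg])
  have h3 : (q + d) / 2 + (q - d) / 2 = q := by field_simp; ring
  rw [h3] at h1
  exact h1

end T431cAux

open T431cAux in
theorem cl_431h [IsAlgClosed k] [CharZero k] (pi et Om Th q : k) :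
    Cl ![J431 k, B431 0 (pi * Th) 0 0 (et * Om) 0 q 0 0 pi 0 et,
      B431 0 0 0 0 0 0 1 0 Om 0 Th 0] := by
  by_contra hn
  have hfin := finite_cl (fun s : k => ![J431 k,
    B431 0 ((pi + s) * (Th + s)) 0 0 ((et + s) * (Om + s)) 0 q 0 0 (pi + s) 0 (et + s),
      B431 0 0 0 0 0 0 1 0 (Om + s) 0 (Th + s) 0]) (by
    have hc : ∀ a : k, D7.IsPoly fun s : k => a + s :=
      fun a => (D7.IsPoly.const a).add D7.IsPoly.id
    intro i x y
    fin_cases i <;> fin_cases x <;> fin_cases y <;>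
      first
      | exact D7.IsPoly.const (0 : k)
      | exact D7.IsPoly.const (1 : k)
      | exact D7.IsPoly.const q
      | exact hc pi
      | exact hc et
      | exact hc Om
      | exact hc Th
      | exact (hc pi).mul (hc Th)
      | exact (hc et).mul (hc Om)) (by simpa using hn)
  have h0 : ∀ a : k, {s : k | a + s = 0}.Finite := fun a =>
    (Set.finite_singleton (-a)).subset fun s hs => by
      have h1 : a + s = 0 := hs
      exact Set.mem_singleton_iff.2 (by linear_combination h1)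
  have hdisc : {s : k | q ^ 2 + 4 * (et + s) * (pi + s) = 0}.Finite := by
    have hP : D7.IsPoly fun s : k => q ^ 2 + 4 * (et + s) * (pi + s) :=
      (D7.IsPoly.const (q ^ 2)).add (((D7.IsPoly.const 4).mul
        ((D7.IsPoly.const et).add D7.IsPoly.id)).mul ((D7.IsPoly.const pi).add D7.IsPoly.id))
    by_contra hinf
    have hz : ∀ s : k, q ^ 2 + 4 * (et + s) * (pi + s) = 0 := by
      intro s
      by_contra hs
      exact hinf (hP.finite hs)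
    have h1 := hz 1
    have h2 := hz 0
    have h3 := hz (-1)
    have h4 : (8 : k) = 0 := by linear_combination h1 - 2 * h2 + h3
    norm_num at h4
  obtain ⟨s, hs⟩ := ((((hfin.union (h0 pi)).union (h0 et)).union (h0 Om)).union
    ((h0 Th).union hdisc)).exists_notMem
  simp only [Set.mem_union, not_or, Set.mem_ofPred_eq] at hs
  obtain ⟨⟨⟨⟨h1, h2⟩, h3⟩, h4⟩, h5, h6⟩ := hs
  exact h1 (cl_gen' h2 h3 h4 h5 h6)

end Pool.Agent.Lib.D8
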