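import Pool.Agent.Lib.D7.Api
import Pool.Agent.Lib.D8.Defs
import Pool.Agent.Lib.D8.T431c

/-!
# D8.T431d: type (4, 3, 1), steps (S3) and (S2), changes of basis
-/

namespace Pool.Agent.Lib.D8

open Matrix Pool.Agent.Lib.Q5dc Pool.Agent.Lib.D7

namespace T431dAux

section gen

variable {k n : Type*} [Field k] [Fintype n] [DecidableEq n]

theorem cl_conj {T T' : Fin 3 → Matrix n n k} {P : Matrix n n k} (hP : IsUnit P)
    (h : ∀ i, T i * P = P * T' i) (hT : Cl T') : Cl T := by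
  obtain ⟨u, rfl⟩ := hP
  have h1 := hT.conj (u : Matrix n n k) (↑u⁻¹ : Matrix n n k) u.mul_inv u.inv_mul
  have h2 : (fun i => (u : Matrix n n k) * T' i * (↑u⁻¹ : Matrix n n k)) = T := by
    funext i
    rw [← h, Matrix.mul_assoc, u.mul_inv, Matrix.mul_one]
  rwa [h2] at h1

theorem cl_conj' {T T' : Fin 3 → Matrix n n k} {P : Matrix n n k} (hP : IsUnit P)
    (h : ∀ i, P * T i = T' i * P) (hT : Cl T') : Cl T := by
  obtain ⟨u, rfl⟩ := hP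
  have h1 := hT.conj (↑u⁻¹ : Matrix n n k) (u : Matrix n n k) u.inv_mul u.mul_inv
  have h2 : (fun i => (↑u⁻¹ : Matrix n n k) * T' i * (u : Matrix n n k)) = T := by
    funext i
    rw [Matrix.mul_assoc, ← h, ← Matrix.mul_assoc, u.inv_mul, Matrix.one_mul]
  rwa [h2] at h1

theorem cl_mod {A B D B' D' : Matrix n n k} (h : Cl ![A, B, D]) (hB : B' ∈ adj ![A, B, D])
    (hD : D' ∈ adj ![A, B, D]) : Cl ![A, B', D'] := by
  refine cl_of_adj (fun i => ?_) h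
  match i with
  | 0 => exact mem_adj ![A, B, D] 0
  | 1 => exact hB
  | 2 => exact hD

end gen

variable {k : Type*} [Field k]

/-- the square of `J431` -/
def A2 (k : Type*) [Field k] : Matrix (Fin 8) (Fin 8) k :=
  !![0, 0, 0, 0, 0, 0, 0, 0;
     0, 0, 0, 0, 0, 0, 0, 0;
     1, 0, 0, 0, 0, 0, 0, 0;
     0, 1, 0, 0, 0, 0, 0, 0;
     0, 0, 0, 0, 0, 0, 0, 0;
     0, 0, 0, 0, 0, 0, 0, 0;
     0, 0, 0, 0, 1, 0, 0, 0;
     0, 0, 0, 0, 0, 0, 0, 0]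

/-- the third power of `J431` -/
def A3 (k : Type*) [Field k] : Matrix (Fin 8) (Fin 8) k :=
  !![0, 0, 0, 0, 0, 0, 0, 0;
     0, 0, 0, 0, 0, 0, 0, 0;
     0, 0, 0, 0, 0, 0, 0, 0;
     1, 0, 0, 0, 0, 0, 0, 0;
     0, 0, 0, 0, 0, 0, 0, 0;
     0, 0, 0, 0, 0, 0, 0, 0;
     0, 0, 0, 0, 0, 0, 0, 0;
     0, 0, 0, 0, 0, 0, 0, 0]

/-- `u0 -> u2` -/
def U (k : Type*) [Field k] : Matrix (Fin 8) (Fin 8) k :=
  !![0, 0, 0, 0, 0, 0, 0, 0;
     0, 0, 0, 0, 0, 0, 0, 0;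
     0, 0, 0, 0, 0, 0, 0, 0;
     0, 0, 0, 0, 0, 0, 0, 0;
     0, 0, 0, 0, 0, 0, 0, 0;
     0, 0, 0, 0, 0, 0, 0, 0;
     0, 0, 0, 0, 1, 0, 0, 0;
     0, 0, 0, 0, 0, 0, 0, 0]

theorem JJ : J431 k * J431 k = A2 k := by
  ext i j
  fin_cases i <;> fin_cases j <;> simp [J431, A2, Matrix.mul_apply, Fin.sum_univ_eight]

theorem JJJ : J431 k * A2 k = A3 k := by
  ext i j
  fin_cases i <;> fin_cases j <;> simp [J431, A2, A3, Matrix.mul_apply, Fin.sum_univ_eight]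

theorem JD (b2 c2 q2 om th : k) : J431 k * B431 0 0 b2 0 0 c2 1 q2 om 0 th 0 = U k := by
  ext i j
  fin_cases i <;> fin_cases j <;> simp [J431, U, B431, Matrix.mul_apply, Fin.sum_univ_eight]

variable {B D : Matrix (Fin 8) (Fin 8) k}

theorem mem_A2 : A2 k ∈ adj ![J431 k, B, D] := by
  rw [← JJ]
  exact mul_mem (mem_adj ![J431 k, B, D] 0) (mem_adj ![J431 k, B, D] 0)

theorem mem_A3 : A3 k ∈ adj ![J431 k, B, D] := by
  rw [← JJJ]
  exact mul_mem (mem_adj ![J431 k, B, D] 0) mem_A2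

/-- `v_i -> - c u_i`, `u_i -> b v_(i+1)` -/
def N2 (b c : k) : Matrix (Fin 8) (Fin 8) k :=
  !![0, 0, 0, 0, 0, 0, 0, 0;
     0, 0, 0, 0, b, 0, 0, 0;
     0, 0, 0, 0, 0, b, 0, 0;
     0, 0, 0, 0, 0, 0, b, 0;
     -c, 0, 0, 0, 0, 0, 0, 0;
     0, -c, 0, 0, 0, 0, 0, 0;
     0, 0, -c, 0, 0, 0, 0, 0;
     0, 0, 0, 0, 0, 0, 0, 0]

theorem unit_N2 (b c : k) : IsUnit (1 + N2 b c) := by
  refine IsNilpotent.isUnit_one_add ?_
  refine isNilpotent_of_weight _ (![0, 2, 4, 6, 1, 3, 5, 0] : Fin 8 → ℕ) ?_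
  intro i j
  fin_cases i <;> fin_cases j <;> simp [N2]

/-- `v0 -> g u1 + e p`, `v1 -> g u2`, `u0 -> h v2`, `u1 -> h v3`, `p -> f v3` -/
def N3 (g e h f : k) : Matrix (Fin 8) (Fin 8) k :=
  !![0, 0, 0, 0, 0, 0, 0, 0;
     0, 0, 0, 0, 0, 0, 0, 0;
     0, 0, 0, 0, h, 0, 0, 0;
     0, 0, 0, 0, 0, h, 0, f;
     0, 0, 0, 0, 0, 0, 0, 0;
     g, 0, 0, 0, 0, 0, 0, 0;
     0, g, 0, 0, 0, 0, 0, 0;
     e, 0, 0, 0, 0, 0, 0, 0]

theorem unit_N3 (g e h f : k) : IsUnit (1 + N3 g e h f) := by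
  refine IsNilpotent.isUnit_one_add ?_
  refine isNilpotent_of_weight _ (![0, 0, 1, 2, 0, 1, 1, 1] : Fin 8 → ℕ) ?_
  intro i j
  fin_cases i <;> fin_cases j <;> simp [N3]

/-! ### step (S3) -/

theorem N3_A (g e h f : k) : N3 g e h f * J431 k = J431 k * N3 g e h f := by
  ext i j
  fin_cases i <;> fin_cases j <;> simp [J431, N3, Matrix.mul_apply, Fin.sum_univ_eight]

/-- `N3 * B` -/
def R3 (x y : k) : Matrix (Fin 8) (Fin 8) k :=
  !![0, 0, 0, 0, 0, 0, 0, 0;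
     0, 0, 0, 0, 0, 0, 0, 0;
     0, 0, 0, 0, 0, 0, 0, 0;
     x, 0, 0, 0, y, 0, 0, 0;
     0, 0, 0, 0, 0, 0, 0, 0;
     0, 0, 0, 0, 0, 0, 0, 0;
     0, 0, 0, 0, 0, 0, 0, 0;
     0, 0, 0, 0, 0, 0, 0, 0]

/-- `B * N3` -/
def L3 (x y : k) : Matrix (Fin 8) (Fin 8) k :=
  !![0, 0, 0, 0, 0, 0, 0, 0;
     0, 0, 0, 0, 0, 0, 0, 0;
     0, 0, 0, 0, 0, 0, 0, 0;
     x, 0, 0, 0, 0, 0, 0, 0;
     0, 0, 0, 0, 0, 0, 0, 0;
     0, 0, 0, 0, 0, 0, 0, 0;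
     y, 0, 0, 0, 0, 0, 0, 0;
     0, 0, 0, 0, 0, 0, 0, 0]

theorem N3_mul (g e h f x1 x2 y1 y2 q1 q2 om pi th et : k) :
    N3 g e h f * B431 0 x1 x2 0 y1 y2 q1 q2 om pi th et = R3 (h * y1 + f * om) (h * q1 + f * pi) := by
  ext i j
  fin_cases i <;> fin_cases j <;> simp [N3, B431, R3, Matrix.mul_apply, Fin.sum_univ_eight]

theorem mul_N3 (g e h f x1 x2 y1 y2 q1 q2 om pi th et : k) :
    B431 0 x1 x2 0 y1 y2 q1 q2 om pi th et * N3 g e h f = L3 (x1 * g + th * e) (q1 * g + et * e) := by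
  ext i j
  fin_cases i <;> fin_cases j <;> simp [N3, B431, L3, Matrix.mul_apply, Fin.sum_univ_eight]

theorem A3_N3 (g e h f : k) : A3 k * N3 g e h f = 0 := by
  ext i j
  fin_cases i <;> fin_cases j <;> simp [N3, A3, Matrix.mul_apply, Fin.sum_univ_eight]

theorem N3_B (pi et Om Th q b2 c2 g e h f : k) (h1 : g * q + e * et = c2)
    (h2 : h * q + f * pi = -b2) :
    (1 + N3 g e h f) * B431 0 (pi * Th) b2 0 (et * Om) c2 q 0 0 pi 0 et =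
      (B431 0 (pi * Th) 0 0 (et * Om) 0 q 0 0 pi 0 et + (Om * et * h - g * pi * Th) • A3 k) *
        (1 + N3 g e h f) := by
  rw [add_mul, one_mul, mul_add, mul_one, N3_mul, add_mul, mul_N3, smul_mul_assoc, A3_N3,
    smul_zero, add_zero]
  ext i j
  fin_cases i <;> fin_cases j <;> simp [R3, L3, B431, A3]
  · ring
  · linear_combination h2
  · linear_combination -h1

theorem N3_D (Om Th B2 C2 e f : k) :
    (1 + N3 C2 e (-B2) f) * B431 0 0 B2 0 0 C2 1 0 Om 0 Th 0 =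
      (B431 0 0 0 0 0 0 1 0 Om 0 Th 0 + (Om * f - e * Th) • A3 k) *
        (1 + N3 C2 e (-B2) f) := by
  rw [add_mul, one_mul, mul_add, mul_one, N3_mul, add_mul, mul_N3, smul_mul_assoc, A3_N3,
    smul_zero, add_zero]
  ext i j
  fin_cases i <;> fin_cases j <;> simp [R3, L3, B431, A3]
  ring

theorem addU (b1 b2 c1 c2 q1 q2 om pi th et : k) :
    B431 0 b1 b2 0 c1 c2 q1 q2 om pi th et =
      B431 0 b1 b2 0 c1 c2 q1 0 om pi th et + q2 • U k := by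
  ext i j
  fin_cases i <;> fin_cases j <;> simp [B431, U]

theorem caseS3 [IsAlgClosed k] [CharZero k] {pi et : k} (hpi : pi ≠ 0) (het : et ≠ 0)
    (Om Th q b2 c2 q2 B2 C2 Q2 : k) :
    Cl ![J431 k, B431 0 (pi * Th) b2 0 (et * Om) c2 q q2 0 pi 0 et,
      B431 0 0 B2 0 0 C2 1 Q2 Om 0 Th 0] := by
  have h0 := cl_431h pi et Om Th q
  set e := (c2 - q * C2) / et with he
  set f := -(b2 - q * B2) / pi with hf
  have h1 : Cl ![J431 k,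
      B431 0 (pi * Th) 0 0 (et * Om) 0 q 0 0 pi 0 et + (Om * et * (-B2) - C2 * pi * Th) • A3 k,
      B431 0 0 0 0 0 0 1 0 Om 0 Th 0 + (Om * f - e * Th) • A3 k] := by
    refine cl_mod h0 (add_mem (mem_adj ![J431 k, _, _] 1) (SMulMemClass.smul_mem _ mem_A3))
      (add_mem (mem_adj ![J431 k, _, _] 2) (SMulMemClass.smul_mem _ mem_A3))
  have h2 : Cl ![J431 k, B431 0 (pi * Th) b2 0 (et * Om) c2 q 0 0 pi 0 et,
      B431 0 0 B2 0 0 C2 1 0 Om 0 Th 0] := by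
    refine cl_conj' (unit_N3 C2 e (-B2) f) (fun i => ?_) h1
    match i with
    | 0 =>
      show (1 + N3 C2 e (-B2) f) * J431 k = J431 k * (1 + N3 C2 e (-B2) f)
      rw [add_mul, mul_add, one_mul, mul_one, N3_A]
    | 1 =>
      refine N3_B pi et Om Th q b2 c2 C2 e (-B2) f ?_ ?_
      · rw [he]; field_simp; ring
      · rw [hf]; field_simp; ring
    | 2 => exact N3_D Om Th B2 C2 e f
  have hU : U k ∈ adj ![J431 k, B431 0 (pi * Th) b2 0 (et * Om) c2 q 0 0 pi 0 et,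
      B431 0 0 B2 0 0 C2 1 0 Om 0 Th 0] := by
    rw [← JD B2 C2 0 Om Th]
    exact mul_mem (mem_adj ![J431 k, _, _] 0) (mem_adj ![J431 k, _, _] 2)
  rw [addU (pi * Th), addU 0 B2]
  exact cl_mod h2 (add_mem (mem_adj ![J431 k, _, _] 1) (SMulMemClass.smul_mem _ hU))
    (add_mem (mem_adj ![J431 k, _, _] 2) (SMulMemClass.smul_mem _ hU))

/-! ### step (S2) -/

theorem N2_A (b c : k) : J431 k * N2 b c = N2 b c * J431 k := by
  ext i j
  fin_cases i <;> fin_cases j <;> simp [J431, N2, Matrix.mul_apply, Fin.sum_univ_eight]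

/-- `B * N2` -/
def L2 (x1 x2 q1 q2 p y : k) : Matrix (Fin 8) (Fin 8) k :=
  !![0, 0, 0, 0, 0, 0, 0, 0;
     0, 0, 0, 0, 0, 0, 0, 0;
     x1, 0, 0, 0, 0, 0, 0, 0;
     x2, x1, 0, 0, 0, 0, 0, 0;
     0, 0, 0, 0, 0, 0, 0, 0;
     q1, 0, 0, 0, 0, 0, 0, 0;
     q2, q1, 0, 0, y, 0, 0, 0;
     p, 0, 0, 0, 0, 0, 0, 0]

/-- `N2 * B` -/
def R2 (y1 y2 q1 q2 x1 e : k) : Matrix (Fin 8) (Fin 8) k :=
  !![0, 0, 0, 0, 0, 0, 0, 0;
     0, 0, 0, 0, 0, 0, 0, 0;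
     y1, 0, 0, 0, q1, 0, 0, 0;
     y2, y1, 0, 0, q2, q1, 0, e;
     0, 0, 0, 0, 0, 0, 0, 0;
     0, 0, 0, 0, 0, 0, 0, 0;
     0, 0, 0, 0, x1, 0, 0, 0;
     0, 0, 0, 0, 0, 0, 0, 0]

/-- `N2 * A2` -/
def Q2' (b c : k) : Matrix (Fin 8) (Fin 8) k :=
  !![0, 0, 0, 0, 0, 0, 0, 0;
     0, 0, 0, 0, 0, 0, 0, 0;
     0, 0, 0, 0, 0, 0, 0, 0;
     0, 0, 0, 0, b, 0, 0, 0;
     0, 0, 0, 0, 0, 0, 0, 0;
     0, 0, 0, 0, 0, 0, 0, 0;
     -c, 0, 0, 0, 0, 0, 0, 0;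
     0, 0, 0, 0, 0, 0, 0, 0]

theorem mul_N2 (b c x1 x2 y1 y2 q1 q2 om pi th et : k) :
    B431 0 x1 x2 0 y1 y2 q1 q2 om pi th et * N2 b c =
      L2 (-(x1 * c)) (-(x2 * c)) (-(q1 * c)) (-(q2 * c)) (-(pi * c)) (y1 * b) := by
  ext i j
  fin_cases i <;> fin_cases j <;> simp [N2, B431, L2, Matrix.mul_apply, Fin.sum_univ_eight]

theorem N2_mul (b c x1 x2 y1 y2 q1 q2 om pi th et : k) :
    N2 b c * B431 0 x1 x2 0 y1 y2 q1 q2 om pi th et =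
      R2 (b * y1) (b * y2) (b * q1) (b * q2) (-(c * x1)) (b * et) := by
  ext i j
  fin_cases i <;> fin_cases j <;> simp [N2, B431, R2, Matrix.mul_apply, Fin.sum_univ_eight]

theorem N2_A2 (b c : k) : N2 b c * A2 k = Q2' b c := by
  ext i j
  fin_cases i <;> fin_cases j <;> simp [N2, A2, Q2', Matrix.mul_apply, Fin.sum_univ_eight]

theorem N2_A3 (b c : k) : N2 b c * A3 k = 0 := by
  ext i j
  fin_cases i <;> fin_cases j <;> simp [N2, A3, Matrix.mul_apply, Fin.sum_univ_eight]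

theorem N2_exp (b c x1 x2 y1 y2 q1 q2 om pi th et u v : k) :
    (1 + N2 b c) * (B431 0 x1 x2 0 y1 y2 q1 q2 om pi th et + u • A2 k + v • A3 k) =
      B431 0 x1 x2 0 y1 y2 q1 q2 om pi th et + u • A2 k + v • A3 k +
        (R2 (b * y1) (b * y2) (b * q1) (b * q2) (-(c * x1)) (b * et) + u • Q2' b c) := by
  rw [add_mul, one_mul, mul_add, mul_add, N2_mul, mul_smul_comm, N2_A2, mul_smul_comm, N2_A3,
    smul_zero, add_zero]

theorem N2_D (b c B2 C2 Q2 Om Th : k) :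
    B431 0 b B2 0 c C2 1 Q2 Om 0 Th 0 * (1 + N2 b c) =
      (1 + N2 b c) * (B431 0 0 (B2 - b * Q2 - b ^ 2 * c) 0 0 (C2 - c * Q2 - b * c ^ 2) 1
        (Q2 + 2 * b * c) Om 0 Th 0 + (-(b * c)) • A2 k +
        (-(b * C2) - c * B2 + b * c * Q2 + b ^ 2 * c ^ 2) • A3 k) := by
  rw [N2_exp, mul_add, mul_one, mul_N2]
  ext i j
  fin_cases i <;> fin_cases j <;> simp [B431, A2, A3, L2, R2, Q2'] <;> ring

theorem N2_B (pi et Om Th q b2 c2 q2 b c : k) :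
    B431 0 (pi * Th + b * q) b2 0 (et * Om + c * q) c2 q q2 (c * pi) pi (b * et) et *
        (1 + N2 b c) =
      (1 + N2 b c) * (B431 0 (pi * Th) (b2 - b * q2 - b ^ 2 * c * q - b ^ 2 * et * Om -
          b * c * pi * Th) 0 (et * Om)
        (c2 - c * q2 - b * c ^ 2 * q - b * c * et * Om - c ^ 2 * pi * Th) q
        (q2 + 2 * b * c * q + 2 * b * et * Om + 2 * c * pi * Th) 0 pi 0 et +
        (-(b * c * q + b * et * Om + c * pi * Th)) • A2 k +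
        (-(b * c2) - c * b2 + b * c * q2 + b ^ 2 * c ^ 2 * q + b ^ 2 * c * et * Om +
          b * c ^ 2 * pi * Th) • A3 k) := by
  rw [N2_exp, mul_add, mul_one, mul_N2]
  ext i j
  fin_cases i <;> fin_cases j <;> simp [B431, A2, A3, L2, R2, Q2'] <;> ring

theorem caseS2 [IsAlgClosed k] [CharZero k] {pi et : k} (hpi : pi ≠ 0) (het : et ≠ 0)
    (Om Th q b2 c2 q2 b c B2 C2 Q2 : k) :
    Cl ![J431 k,
      B431 0 (pi * Th + b * q) b2 0 (et * Om + c * q) c2 q q2 (c * pi) pi (b * et) et,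
      B431 0 b B2 0 c C2 1 Q2 Om 0 Th 0] := by
  have h0 := caseS3 hpi het Om Th q (b2 - b * q2 - b ^ 2 * c * q - b ^ 2 * et * Om -
          b * c * pi * Th) (c2 - c * q2 - b * c ^ 2 * q - b * c * et * Om - c ^ 2 * pi * Th)
    (q2 + 2 * b * c * q + 2 * b * et * Om + 2 * c * pi * Th) (B2 - b * Q2 - b ^ 2 * c)
    (C2 - c * Q2 - b * c ^ 2) (Q2 + 2 * b * c)
  have h1 := cl_mod h0 (add_mem (add_mem (mem_adj ![J431 k, _, _] 1)
      (SMulMemClass.smul_mem (-(b * c * q + b * et * Om + c * pi * Th)) mem_A2))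
      (SMulMemClass.smul_mem (-(b * c2) - c * b2 + b * c * q2 + b ^ 2 * c ^ 2 * q +
          b ^ 2 * c * et * Om + b * c ^ 2 * pi * Th) mem_A3))
    (add_mem (add_mem (mem_adj ![J431 k, _, _] 2) (SMulMemClass.smul_mem (-(b * c)) mem_A2))
      (SMulMemClass.smul_mem (-(b * C2) - c * B2 + b * c * Q2 + b ^ 2 * c ^ 2) mem_A3))
  refine cl_conj (unit_N2 b c) (fun i => ?_) h1
  match i with
  | 0 =>
    show J431 k * (1 + N2 b c) = (1 + N2 b c) * J431 k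
    rw [add_mul, mul_add, one_mul, mul_one, N2_A]
  | 1 => exact N2_B pi et Om Th q b2 c2 q2 b c
  | 2 => exact N2_D b c B2 C2 Q2 Om Th

end T431dAux

end Pool.Agent.Lib.D8
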