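import Pool.Agent.Lib.D8.Ta21A

/-!
# MP_5dcbc3_ag: Jordan type `(a, 2, 1)`, `a = m + 5`: shape, duality, the case `pi et ≠ 0`
-/

namespace Pool.Agent.Lib.D8

open Matrix Polynomial Pool.Agent.Lib.Q5dc Pool.Agent.Lib.D7

variable {k : Type*} [Field k]

/-- diagonal entries of nilpotent matrices -/
theorem diag_zero {n : Type*} [Fintype n] [DecidableEq n] {M : Matrix n n k} (hM : IsNilpotent M)
    (L : Set n) (i : n) (hi : i ∉ L) (hL : ∀ l ∈ L, ∀ j ∉ L, M l j = 0)
    (hrow : ∀ j, j ∉ L → j ≠ i → M i j = 0) : M i i = 0 := by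
  classical
  have h1 : ∀ n : ℕ, ∀ l ∈ L, ∀ j ∉ L, (M ^ n) l j = 0 := by
    intro n
    induction n with
    | zero =>
      intro l hl j hj
      rw [pow_zero, Matrix.one_apply_ne]
      rintro rfl
      exact hj hl
    | succ n ih =>
      intro l hl j hj
      rw [pow_succ', Matrix.mul_apply]
      refine Finset.sum_eq_zero fun t _ => ?_
      by_cases ht : t ∈ L
      · rw [ih t ht j hj, mul_zero]
      · rw [hL l hl t ht, zero_mul]
  have h2 : ∀ n : ℕ, (M ^ n) i i = (M i i) ^ n := by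
    intro n
    induction n with
    | zero => rw [pow_zero, pow_zero, Matrix.one_apply_eq]
    | succ n ih =>
      rw [pow_succ', Matrix.mul_apply, Finset.sum_eq_single i, ih, pow_succ']
      · intro j _ hj
        by_cases hjL : j ∈ L
        · rw [h1 n j hjL i hi, mul_zero]
        · rw [hrow j hjL hj, zero_mul]
      · intro h; exact absurd (Finset.mem_univ i) h
  obtain ⟨n, hn⟩ := hM
  have h3 := h2 n
  rw [hn] at h3
  rw [Matrix.zero_apply] at h3
  exact eq_zero_of_pow_eq_zero h3.symm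

namespace Ta21

variable {m : ℕ}

theorem vec_sum (w : Fin (m + 8) → k) : w = ∑ i : Fin (m + 8), w i • e (i : ℕ) := by
  funext j
  rw [Finset.sum_apply, Finset.sum_eq_single j]
  · simp [e]
  · intro i _ hij
    have : ¬ (j : ℕ) = (i : ℕ) := fun h => hij (Fin.ext h.symm)
    simp [e, this]
  · intro h; exact absurd (Finset.mem_univ j) h

theorem e_apply (i : ℕ) (j : Fin (m + 8)) : (e i : Fin (m + 8) → k) j = if (j : ℕ) = i then 1 else 0 :=
  rfl

/-- the diagonal part -/
def Dg (q r : k) : Matrix (Fin (m + 8)) (Fin (m + 8)) k :=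
  q • (E (m + 5) (m + 5) + E (m + 6) (m + 6)) + r • E (m + 7) (m + 7)

theorem Dg_e (q r : k) (l : ℕ) (hl : l < m + 8) : (Dg q r : Matrix (Fin (m + 8)) (Fin (m + 8)) k) *ᵥ
    e l = q • ((if m + 5 = l then e (m + 5) else 0) + (if m + 6 = l then e (m + 6) else 0)) +
      r • (if m + 7 = l then e (m + 7) else 0) := by
  simp only [Dg, Matrix.add_mulVec, Matrix.smul_mulVec, E_e _ _ l hl]

theorem J_Dg (q r : k) : (J : Matrix (Fin (m + 8)) (Fin (m + 8)) k) * Dg q r = Dg q r * J := by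
  refine ext_e fun l hl => ?_
  rw [← Matrix.mulVec_mulVec, ← Matrix.mulVec_mulVec, Dg_e _ _ _ hl]
  by_cases h1 : l ≤ m + 4
  · have h3 : ¬ m + 5 = l := by omega
    have h4 : ¬ m + 6 = l := by omega
    have h5 : ¬ m + 7 = l := by omega
    rw [if_neg h3, if_neg h4, if_neg h5]
    by_cases h2 : l = m + 4
    · rw [h2, J_a]; simp
    · rw [J_lt _ (by omega), Dg_e _ _ _ (by omega), if_neg (by omega), if_neg (by omega),
        if_neg (by omega)]
      simp
  · rcases (by omega : l = m + 5 ∨ l = m + 6 ∨ l = m + 7) with rfl | rfl | rfl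
    · rw [J_u, Dg_e _ _ _ (by omega)]
      simp [Matrix.mulVec_smul, J_u]
    · rw [J_w]
      simp [Matrix.mulVec_smul, J_w]
    · rw [J_p]
      simp [Matrix.mulVec_smul, J_p]

theorem J_row (M : Matrix (Fin (m + 8)) (Fin (m + 8)) k) {i : Fin (m + 8)}
    (hi : (i : ℕ) = 0 ∨ (i : ℕ) = m + 5 ∨ (i : ℕ) = m + 7) (j : Fin (m + 8)) :
    ((J : Matrix (Fin (m + 8)) (Fin (m + 8)) k) * M) i j = 0 := by
  rw [Matrix.mul_apply]
  refine Finset.sum_eq_zero fun t _ => ?_
  have : (J : Matrix (Fin (m + 8)) (Fin (m + 8)) k) i t = 0 := by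
    simp only [J, Matrix.of_apply]
    rw [if_neg]
    omega
  rw [this, zero_mul]

theorem aeval_row (g : k[X]) {i : Fin (m + 8)}
    (hi : (i : ℕ) = 0 ∨ (i : ℕ) = m + 5 ∨ (i : ℕ) = m + 7) (j : Fin (m + 8)) :
    (aeval (J : Matrix (Fin (m + 8)) (Fin (m + 8)) k) g) i j = if i = j then g.coeff 0 else 0 := by
  have h1 : g = X * g.divX + C (g.coeff 0) := (X_mul_divX_add g).symm
  conv_lhs => rw [h1]
  rw [map_add, map_mul, aeval_X, aeval_C, Matrix.add_apply, J_row _ hi, zero_add,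
    Matrix.algebraMap_matrix_apply]
  rfl

/-- shape of the nilpotent matrices commuting with `J` -/
theorem shape {M : Matrix (Fin (m + 8)) (Fin (m + 8)) k} (hM : J * M = M * J)
    (hn : IsNilpotent M) : ∃ (g : k[X]) (x : Fin 9 → k), X ∣ g ∧ M = aeval J g + mk x := by
  obtain ⟨g, hg⟩ : ∃ g : k[X], g = ∑ i ∈ Finset.range (m + 5),
    C (if h : i < m + 8 then (M *ᵥ e 0) ⟨i, h⟩ else 0) * X ^ i := ⟨_, rfl⟩
  have hgJ : (J : Matrix (Fin (m + 8)) (Fin (m + 8)) k) * aeval J g = aeval J g * J := by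
    have : Commute (J : Matrix (Fin (m + 8)) (Fin (m + 8)) k) (aeval J g) := by
      have h1 : (J : Matrix (Fin (m + 8)) (Fin (m + 8)) k) * aeval J g = aeval J (X * g) := by
        rw [map_mul, aeval_X]
      have h2 : aeval J g * (J : Matrix (Fin (m + 8)) (Fin (m + 8)) k) = aeval J (X * g) := by
        rw [mul_comm X g, map_mul, aeval_X]
      show _ = _
      rw [h1, h2]
    exact this
  set M' := M - aeval J g with hM'
  have hM'J : J * M' = M' * J := by
    rw [hM', mul_sub, sub_mul, hM, hgJ]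
  -- the generator `v`
  have h0 : ∀ j : Fin (m + 8), (j : ℕ) ≤ m + 4 → (M' *ᵥ e 0) j = 0 := by
    intro j hj
    have h1 : (aeval (J : Matrix (Fin (m + 8)) (Fin (m + 8)) k) g *ᵥ e 0) j = (M *ᵥ e 0) j := by
      rw [hg, map_sum, Matrix.sum_mulVec, Finset.sum_apply, Finset.sum_eq_single (j : ℕ)]
      · rw [map_mul, map_pow, aeval_X, aeval_C, ← Matrix.mulVec_mulVec, Jpow_0 _ hj,
          dif_pos j.isLt, Algebra.algebraMap_eq_smul_one, Matrix.smul_mulVec, Matrix.one_mulVec,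
          Pi.smul_apply, e_apply, if_pos rfl, smul_eq_mul, mul_one]
      · intro i hi hij
        rw [Finset.mem_range] at hi
        rw [map_mul, map_pow, aeval_X, aeval_C, ← Matrix.mulVec_mulVec, Jpow_0 _ (by omega),
          Algebra.algebraMap_eq_smul_one, Matrix.smul_mulVec, Matrix.one_mulVec,
          Pi.smul_apply, e_apply, if_neg (fun h => hij h.symm), smul_zero]
      · intro h
        exact absurd (Finset.mem_range.2 (by omega)) h
    rw [hM', Matrix.sub_mulVec, Pi.sub_apply, h1, sub_self]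
  -- the generator `u`
  have hJc : ∀ (w : Fin (m + 8) → k) (i : ℕ) (hi : i + 1 < m + 8), i + 1 ≠ m + 5 → i + 1 ≠ m + 7 →
      (J *ᵥ w) ⟨i + 1, hi⟩ = w ⟨i, by omega⟩ := by
    intro w i hi h1 h2
    rw [Matrix.mulVec, dotProduct, Finset.sum_eq_single ⟨i, by omega⟩]
    · simp only [J, Matrix.of_apply]
      rw [if_pos ⟨trivial, h1, h2⟩, one_mul]
    · intro b _ hb
      simp only [J, Matrix.of_apply]
      rw [if_neg, zero_mul]
      rintro ⟨h3, -, -⟩
      apply hb
      exact Fin.ext (by simpa using h3.symm)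
    · intro h; exact absurd (Finset.mem_univ _) h
  have hu : ∀ j : Fin (m + 8), (j : ℕ) ≤ m + 2 → (M' *ᵥ e (m + 5)) j = 0 := by
    intro j hj
    have hJM : ∀ w, J *ᵥ (M' *ᵥ w) = M' *ᵥ (J *ᵥ w) := fun w => by
      rw [Matrix.mulVec_mulVec, hM'J, ← Matrix.mulVec_mulVec]
    have h1 : J *ᵥ (J *ᵥ (M' *ᵥ e (m + 5))) = 0 := by
      rw [hJM, J_u, hJM, J_w, Matrix.mulVec_zero]
    have h2 := congrFun h1 ⟨(j : ℕ) + 1 + 1, by omega⟩
    rw [hJc _ _ _ (by omega) (by omega), hJc _ _ _ (by omega) (by omega)] at h2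
    exact h2
  have hp : ∀ j : Fin (m + 8), (j : ℕ) ≤ m + 3 ∨ (j : ℕ) = m + 5 → (M' *ᵥ e (m + 7)) j = 0 := by
    intro j hj
    have h1 : J *ᵥ (M' *ᵥ e (m + 7)) = 0 := by
      rw [Matrix.mulVec_mulVec, hM'J, ← Matrix.mulVec_mulVec, J_p, Matrix.mulVec_zero]
    have h2 := congrFun h1 ⟨(j : ℕ) + 1, by omega⟩
    rw [hJc _ _ _ (by omega) (by omega)] at h2
    exact h2
  obtain ⟨x, q, r, hx⟩ : ∃ (x : Fin 9 → k) (q r : k), M' = mk x + Dg q r := by
    refine ⟨![(M' *ᵥ e 0) ⟨m + 5, by omega⟩, (M' *ᵥ e 0) ⟨m + 6, by omega⟩,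
      (M' *ᵥ e 0) ⟨m + 7, by omega⟩, (M' *ᵥ e (m + 5)) ⟨m + 3, by omega⟩,
      (M' *ᵥ e (m + 5)) ⟨m + 4, by omega⟩, (M' *ᵥ e (m + 5)) ⟨m + 6, by omega⟩,
      (M' *ᵥ e (m + 5)) ⟨m + 7, by omega⟩, (M' *ᵥ e (m + 7)) ⟨m + 4, by omega⟩,
      (M' *ᵥ e (m + 7)) ⟨m + 6, by omega⟩], (M' *ᵥ e (m + 5)) ⟨m + 5, by omega⟩,
      (M' *ᵥ e (m + 7)) ⟨m + 7, by omega⟩, ?_⟩
    have hJ2 : ∀ x q r, (J : Matrix (Fin (m + 8)) (Fin (m + 8)) k) * (mk x + Dg q r) =
        (mk x + Dg q r) * J := by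
      intro x q r
      rw [mul_add, add_mul, J_mk, J_Dg]
    refine ext_gen hM'J (hJ2 _ _ _) ?_ ?_ ?_
    · rw [Matrix.add_mulVec, mk_0, Dg_e _ _ _ (by omega)]
      funext j
      have hj := j.isLt
      rcases (by omega : (j : ℕ) ≤ m + 4 ∨ (j : ℕ) = m + 5 ∨ (j : ℕ) = m + 6 ∨ (j : ℕ) = m + 7) with
        h | h | h | h
      · rw [h0 j h]
        have h3 : ¬ (j : ℕ) = m + 5 := by omega
        have h4 : ¬ (j : ℕ) = m + 6 := by omega
        have h5 : ¬ (j : ℕ) = m + 7 := by omega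
        simp [e_apply, h3, h4, h5]
      · have : j = ⟨m + 5, by omega⟩ := Fin.ext h
        rw [this]
        simp [e_apply]
      · have : j = ⟨m + 6, by omega⟩ := Fin.ext h
        rw [this]
        simp [e_apply]
      · have : j = ⟨m + 7, by omega⟩ := Fin.ext h
        rw [this]
        simp [e_apply]
    · rw [Matrix.add_mulVec, mk_u, Dg_e _ _ _ (by omega)]
      funext j
      have hj := j.isLt
      rcases (by omega : (j : ℕ) ≤ m + 2 ∨ (j : ℕ) = m + 3 ∨ (j : ℕ) = m + 4 ∨ (j : ℕ) = m + 5 ∨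
        (j : ℕ) = m + 6 ∨ (j : ℕ) = m + 7) with h | h | h | h | h | h
      · rw [hu j h]
        have h1 : ¬ (j : ℕ) = m + 3 := by omega
        have h2 : ¬ (j : ℕ) = m + 4 := by omega
        have h3 : ¬ (j : ℕ) = m + 5 := by omega
        have h4 : ¬ (j : ℕ) = m + 6 := by omega
        have h5 : ¬ (j : ℕ) = m + 7 := by omega
        simp [e_apply, h1, h2, h3, h4, h5]
      · have : j = ⟨m + 3, by omega⟩ := Fin.ext h
        rw [this]
        simp [e_apply]
      · have : j = ⟨m + 4, by omega⟩ := Fin.ext h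
        rw [this]
        simp [e_apply]
      · have : j = ⟨m + 5, by omega⟩ := Fin.ext h
        rw [this]
        simp [e_apply]
      · have : j = ⟨m + 6, by omega⟩ := Fin.ext h
        rw [this]
        simp [e_apply]
      · have : j = ⟨m + 7, by omega⟩ := Fin.ext h
        rw [this]
        simp [e_apply]
    · rw [Matrix.add_mulVec, mk_p, Dg_e _ _ _ (by omega)]
      funext j
      have hj := j.isLt
      rcases (by omega : ((j : ℕ) ≤ m + 3 ∨ (j : ℕ) = m + 5) ∨ (j : ℕ) = m + 4 ∨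
        (j : ℕ) = m + 6 ∨ (j : ℕ) = m + 7) with h | h | h | h
      · rw [hp j h]
        have h2 : ¬ (j : ℕ) = m + 4 := by omega
        have h4 : ¬ (j : ℕ) = m + 6 := by omega
        have h5 : ¬ (j : ℕ) = m + 7 := by omega
        simp [e_apply, h2, h4, h5]
      · have : j = ⟨m + 4, by omega⟩ := Fin.ext h
        rw [this]
        simp [e_apply]
      · have : j = ⟨m + 6, by omega⟩ := Fin.ext h
        rw [this]
        simp [e_apply]
      · have : j = ⟨m + 7, by omega⟩ := Fin.ext h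
        rw [this]
        simp [e_apply]
  have hMeq : M = aeval J g + mk x + Dg q r := by
    rw [add_assoc, ← hx, hM']
    abel
  -- nilpotency
  have hent : ∀ i j : Fin (m + 8), ((i : ℕ) = 0 ∨ (i : ℕ) = m + 5 ∨ (i : ℕ) = m + 7) →
      M i j = (if i = j then g.coeff 0 else 0) + (mk x i j + (Dg q r : Matrix _ _ k) i j) := by
    intro i j hi
    rw [hMeq, Matrix.add_apply, Matrix.add_apply, aeval_row g hi, add_assoc]
  have hc0 : g.coeff 0 = 0 := by
    have h1 := diag_zero hn ∅ ⟨0, by omega⟩ (by simp) (by simp) (by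
      intro j _ hj
      have hj' : ¬ (⟨0, by omega⟩ : Fin (m + 8)) = j := fun h => hj h.symm
      rw [hent _ _ (Or.inl rfl), if_neg hj']
      simp [mk, Dg, E_apply])
    rw [hent _ _ (Or.inl rfl), if_pos rfl] at h1
    simpa [mk, Dg, E_apply] using h1
  have hq0 : q = 0 := by
    have h1 := diag_zero hn {⟨0, by omega⟩} ⟨m + 5, by omega⟩ (by simp) (by
      intro l hl j hj
      rw [Set.mem_singleton_iff] at hl hj
      subst hl
      rw [hent _ _ (Or.inl rfl), if_neg (fun h => hj h.symm)]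
      simp [mk, Dg, E_apply]) (by
      intro j hj hj2
      rw [Set.mem_singleton_iff] at hj
      have hj' : ¬ (⟨m + 5, by omega⟩ : Fin (m + 8)) = j := fun h => hj2 h.symm
      rw [hent _ _ (Or.inr (Or.inl rfl)), if_neg hj']
      have hj0 : ¬ j = 0 := fun h => hj (by rw [h]; rfl)
      have h4 : ¬ (j : ℕ) = m + 5 := fun h => hj2 (Fin.ext h)
      simp [mk, Dg, E_apply, h4]
      intro h; exact absurd h hj0)
    rw [hent _ _ (Or.inr (Or.inl rfl)), if_pos rfl, hc0] at h1
    simpa [mk, Dg, E_apply] using h1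
  have hr0 : r = 0 := by
    have h1 := diag_zero hn {⟨0, by omega⟩, ⟨m + 5, by omega⟩} ⟨m + 7, by omega⟩ (by simp) (by
      intro l hl j hj
      simp only [Set.mem_insert_iff, Set.mem_singleton_iff, not_or] at hl hj
      obtain ⟨hj1, hj2⟩ := hj
      have hj0 : ¬ j = 0 := fun h => hj1 (by rw [h]; rfl)
      have h4 : ¬ (j : ℕ) = m + 5 := fun h => hj2 (Fin.ext h)
      rcases hl with rfl | rfl
      · rw [hent _ _ (Or.inl rfl), if_neg (fun h => hj1 h.symm)]
        simp [mk, Dg, E_apply]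
      · rw [hent _ _ (Or.inr (Or.inl rfl)), if_neg (fun h => hj2 h.symm)]
        simp [mk, Dg, E_apply, h4]
        intro h; exact absurd h hj0) (by
      intro j hj hj3
      simp only [Set.mem_insert_iff, Set.mem_singleton_iff, not_or] at hj
      obtain ⟨hj1, hj2⟩ := hj
      have hj0 : ¬ j = 0 := fun h => hj1 (by rw [h]; rfl)
      have h4 : ¬ (j : ℕ) = m + 5 := fun h => hj2 (Fin.ext h)
      have h5 : ¬ (j : ℕ) = m + 7 := fun h => hj3 (Fin.ext h)
      rw [hent _ _ (Or.inr (Or.inr rfl)), if_neg (fun h => hj3 h.symm)]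
      simp [mk, Dg, E_apply, h4, h5]
      intro h; exact absurd h hj0)
    rw [hent _ _ (Or.inr (Or.inr rfl)), if_pos rfl, hc0] at h1
    simpa [mk, Dg, E_apply] using h1
  refine ⟨g, x, X_dvd_iff.2 hc0, ?_⟩
  rw [hMeq, hq0, hr0]
  simp [Dg]

/-! ### duality -/

/-- the involution of the basis -/
def sg (m i : ℕ) : ℕ :=
  if i ≤ m + 4 then m + 4 - i else if i = m + 5 then m + 6 else if i = m + 6 then m + 5 else i

theorem sg_lt {i : ℕ} (_ : i < m + 8) : sg m i < m + 8 := by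
  unfold sg
  split_ifs <;> omega

theorem sg_sg {i : ℕ} (hi : i < m + 8) : sg m (sg m i) = i := by
  unfold sg
  split_ifs <;> omega

/-- the involution of the basis as an equivalence -/
def sgE (m : ℕ) : Fin (m + 8) ≃ Fin (m + 8) where
  toFun := fun i => ⟨sg m i, sg_lt i.isLt⟩
  invFun := fun i => ⟨sg m i, sg_lt i.isLt⟩
  left_inv := fun i => Fin.ext (sg_sg i.isLt)
  right_inv := fun i => Fin.ext (sg_sg i.isLt)

theorem E_sg {i j : ℕ} (hi : i < m + 8) (hj : j < m + 8) (r c : Fin (m + 8)) :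
    (E i j : Matrix (Fin (m + 8)) (Fin (m + 8)) k) (sgE m c) (sgE m r) =
      E (sg m j) (sg m i) r c := by
  rw [E_apply, E_apply]
  have h1 : ((sgE m c : Fin (m + 8)) : ℕ) = i ↔ (c : ℕ) = sg m i := by
    show sg m c = i ↔ _
    constructor
    · rintro rfl; exact (sg_sg c.isLt).symm
    · intro h; rw [h]; exact sg_sg hi
  have h2 : ((sgE m r : Fin (m + 8)) : ℕ) = j ↔ (r : ℕ) = sg m j := by
    show sg m r = j ↔ _
    constructor
    · rintro rfl; exact (sg_sg r.isLt).symm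
    · intro h; rw [h]; exact sg_sg hj
  simp only [h1, h2, and_comm]

theorem J_sg (r c : Fin (m + 8)) :
    (J : Matrix (Fin (m + 8)) (Fin (m + 8)) k) (sgE m c) (sgE m r) = J r c := by
  simp only [J, Matrix.of_apply]
  have hr := r.isLt
  have hc := c.isLt
  have h1 : ((sgE m c : Fin (m + 8)) : ℕ) = sg m c := rfl
  have h2 : ((sgE m r : Fin (m + 8)) : ℕ) = sg m r := rfl
  rw [h1, h2]
  congr 1
  unfold sg
  split_ifs <;> simp <;> omega

/-- dual parameters -/
def du (x : Fin 9 → k) : Fin 9 → k := ![x 3, x 4, x 7, x 0, x 1, x 5, x 8, x 2, x 6]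

omit [Field k] in
theorem du_du (x : Fin 9 → k) : du (du x) = x := by
  funext i
  fin_cases i <;> rfl

theorem mk_sg (x : Fin 9 → k) (r c : Fin (m + 8)) :
    (mk x : Matrix (Fin (m + 8)) (Fin (m + 8)) k) (sgE m c) (sgE m r) = mk (du x) r c := by
  have s0 : sg m 0 = m + 4 := by simp [sg]
  have s1 : sg m 1 = m + 3 := by simp [sg]
  have s2 : sg m (m + 3) = 1 := by simp [sg]
  have s3 : sg m (m + 4) = 0 := by simp [sg]
  have s4 : sg m (m + 5) = m + 6 := by simp [sg]
  have s5 : sg m (m + 6) = m + 5 := by simp [sg]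
  have s6 : sg m (m + 7) = m + 7 := by simp [sg]
  simp only [mk, Matrix.add_apply, Matrix.smul_apply, smul_eq_mul]
  rw [E_sg (by omega) (by omega), E_sg (by omega) (by omega), E_sg (by omega) (by omega),
    E_sg (by omega) (by omega), E_sg (by omega) (by omega), E_sg (by omega) (by omega),
    E_sg (by omega) (by omega), E_sg (by omega) (by omega), E_sg (by omega) (by omega),
    E_sg (by omega) (by omega), E_sg (by omega) (by omega), s0, s1, s2, s3, s4, s5, s6]
  simp only [du, Matrix.cons_val]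
  ring

theorem cl_dual {x y : Fin 9 → k}
    (h : Cl ![(J : Matrix (Fin (m + 8)) (Fin (m + 8)) k), mk (du x), mk (du y)]) :
    Cl ![(J : Matrix (Fin (m + 8)) (Fin (m + 8)) k), mk x, mk y] := by
  have h5 := Cl.transpose (Cl.mapEquiv (Matrix.reindexAlgEquiv k k (sgE m)) rfl h)
  have h6 : ∀ M : Matrix (Fin (m + 8)) (Fin (m + 8)) k, ∀ r c,
      (Matrix.reindexAlgEquiv k k (sgE m) M).transpose r c = M (sgE m c) (sgE m r) :=
    fun M r c => rfl
  convert h5 using 1
  funext i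
  fin_cases i
  · ext r c
    show _ = (Matrix.reindexAlgEquiv k k (sgE m) (J : Matrix (Fin (m + 8)) (Fin (m + 8)) k)).transpose r c
    rw [h6, J_sg]
    rfl
  · ext r c
    show _ = (Matrix.reindexAlgEquiv k k (sgE m) (mk (du x) : Matrix (Fin (m + 8)) (Fin (m + 8)) k)).transpose r c
    rw [h6, mk_sg, du_du]
    rfl
  · ext r c
    show _ = (Matrix.reindexAlgEquiv k k (sgE m) (mk (du y) : Matrix (Fin (m + 8)) (Fin (m + 8)) k)).transpose r c
    rw [h6, mk_sg, du_du]
    rfl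

theorem rel_dual {x y : Fin 9 → k} (h : Rel x y) : Rel (du x) (du y) := by
  obtain ⟨h1, h2, h3, h4, h5, h6, h7⟩ := h
  refine ⟨?_, ?_, ?_, ?_, ?_, ?_, ?_⟩
  · show y 3 * x 0 = x 3 * y 0
    linear_combination -h1
  · show y 3 * x 8 = x 3 * y 8
    linear_combination -h7
  · show y 3 * x 5 + y 7 * x 6 = x 3 * y 5 + x 7 * y 6
    linear_combination -h6
  · show y 3 * x 1 + y 4 * x 0 + y 7 * x 2 = x 3 * y 1 + x 4 * y 0 + x 7 * y 2
    linear_combination -h4
  · show y 8 * x 6 = x 8 * y 6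
    linear_combination -h5
  · show y 5 * x 0 + y 8 * x 2 = x 5 * y 0 + x 8 * y 2
    linear_combination -h3
  · show y 6 * x 0 = x 6 * y 0
    linear_combination -h2

/-! ### linear changes and limits -/

theorem Rel.swap {x y : Fin 9 → k} (h : Rel x y) : Rel y x := by
  obtain ⟨h1, h2, h3, h4, h5, h6, h7⟩ := h
  exact ⟨by linear_combination -h1, by linear_combination -h2, by linear_combination -h3,
    by linear_combination -h4, by linear_combination -h5, by linear_combination -h6,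
    by linear_combination -h7⟩

theorem Rel.sub {x y : Fin 9 → k} (h : Rel x y) (s : k) : Rel x (y - s • x) := by
  obtain ⟨h1, h2, h3, h4, h5, h6, h7⟩ := h
  refine ⟨?_, ?_, ?_, ?_, ?_, ?_, ?_⟩
  all_goals simp only [Pi.sub_apply, Pi.smul_apply, smul_eq_mul]
  · linear_combination h1
  · linear_combination h2
  · linear_combination h3
  · linear_combination h4
  · linear_combination h5
  · linear_combination h6
  · linear_combination h7

theorem Rel.smul {x y : Fin 9 → k} (h : Rel x y) (s : k) : Rel x (s • y) := by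
  obtain ⟨h1, h2, h3, h4, h5, h6, h7⟩ := h
  refine ⟨?_, ?_, ?_, ?_, ?_, ?_, ?_⟩
  all_goals simp only [Pi.smul_apply, smul_eq_mul]
  · linear_combination s * h1
  · linear_combination s * h2
  · linear_combination s * h3
  · linear_combination s * h4
  · linear_combination s * h5
  · linear_combination s * h6
  · linear_combination s * h7

/-- the statement -/
def G (m : ℕ) (x y : Fin 9 → k) : Prop :=
  Cl ![(J : Matrix (Fin (m + 8)) (Fin (m + 8)) k), mk x, mk y]

theorem G.swap {x y : Fin 9 → k} (h : G m x y) : G m y x := Two.cl_swap h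

theorem G.sub {x y : Fin 9 → k} {s : k} (h : G m x (y - s • x)) : G m x y := by
  refine cl_of_adj (T' := ![J, mk x, mk (y - s • x)]) (fun i => ?_) h
  have h1 : mk x ∈ adj ![(J : Matrix (Fin (m + 8)) (Fin (m + 8)) k), mk x, mk (y - s • x)] :=
    mem_adj ![(J : Matrix (Fin (m + 8)) (Fin (m + 8)) k), mk x, mk (y - s • x)] 1
  fin_cases i
  · exact mem_adj ![(J : Matrix (Fin (m + 8)) (Fin (m + 8)) k), mk x, mk (y - s • x)] 0
  · exact h1
  · show mk y ∈ _
    have h2 : (mk y : Matrix (Fin (m + 8)) (Fin (m + 8)) k) = mk (y - s • x) + s • mk x := by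
      rw [mk_sub, mk_smul]; abel
    rw [h2]
    exact add_mem (mem_adj ![(J : Matrix (Fin (m + 8)) (Fin (m + 8)) k), mk x, mk (y - s • x)] 2)
      (SMulMemClass.smul_mem s h1)

theorem G.smul {x y : Fin 9 → k} {s : k} (hs : s ≠ 0) (h : G m x (s • y)) : G m x y := by
  refine cl_of_adj (T' := ![J, mk x, mk (s • y)]) (fun i => ?_) h
  fin_cases i
  · exact mem_adj ![(J : Matrix (Fin (m + 8)) (Fin (m + 8)) k), mk x, mk (s • y)] 0
  · exact mem_adj ![(J : Matrix (Fin (m + 8)) (Fin (m + 8)) k), mk x, mk (s • y)] 1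
  · show mk y ∈ _
    have h2 : (mk y : Matrix (Fin (m + 8)) (Fin (m + 8)) k) = s⁻¹ • mk (s • y) := by
      rw [mk_smul, smul_smul, inv_mul_cancel₀ hs, one_smul]
    rw [h2]
    exact SMulMemClass.smul_mem _
      (mem_adj ![(J : Matrix (Fin (m + 8)) (Fin (m + 8)) k), mk x, mk (s • y)] 2)

theorem G.dual {x y : Fin 9 → k} (h : G m (du x) (du y)) : G m x y := cl_dual h

theorem G.line [Infinite k] {x y : Fin 9 → k} (d d' : Fin 9 → k) {F : Set k} (hF : F.Finite)
    (h : ∀ s ∉ F, G m (x + s • d) (y + s • d')) : G m x y := by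
  refine cl_of_line (D := mk d) (E := mk d') hF fun s hs => ?_
  have := h s hs
  unfold G at this
  rwa [mk_add, mk_add, mk_smul, mk_smul] at this

/-- elements of the algebra can be removed -/
theorem G.of_mem {x y : Fin 9 → k} (h : G m x 0)
    (hy : mk y ∈ adj ![(J : Matrix (Fin (m + 8)) (Fin (m + 8)) k), mk x, 0]) : G m x y := by
  unfold G at h
  rw [mk_zero] at h
  refine cl_of_adj (T' := ![J, mk x, 0]) (fun i => ?_) h
  fin_cases i
  · exact mem_adj ![(J : Matrix (Fin (m + 8)) (Fin (m + 8)) k), mk x, 0] 0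
  · exact mem_adj ![(J : Matrix (Fin (m + 8)) (Fin (m + 8)) k), mk x, 0] 1
  · exact hy

/-! ### the case `pi et ≠ 0` -/

theorem rank_ge {M : Matrix (Fin (m + 8)) (Fin (m + 8)) k}
    (h : ∀ l, l < m + 8 → (e l : Fin (m + 8) → k) ∈
      LinearMap.range M.mulVecLin ⊔ Submodule.span k {e 0, e (m + 5)}) : m + 8 ≤ M.rank + 2 := by
  classical
  have h1 : LinearMap.range M.mulVecLin ⊔ Submodule.span k {e 0, e (m + 5)} = ⊤ := by
    rw [eq_top_iff]
    intro w _
    rw [vec_sum w]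
    exact Submodule.sum_mem _ fun i _ => Submodule.smul_mem _ _ (h i i.isLt)
  have h2 := Submodule.finrank_add_le_finrank_add_finrank (LinearMap.range M.mulVecLin)
    (Submodule.span k {(e 0 : Fin (m + 8) → k), e (m + 5)})
  rw [h1, finrank_top, Module.finrank_fin_fun] at h2
  have h3 : Module.finrank k (Submodule.span k {(e 0 : Fin (m + 8) → k), e (m + 5)}) ≤ 2 := by
    have h4 := finrank_span_le_card (R := k) ({(e 0 : Fin (m + 8) → k), e (m + 5)} : Set (Fin (m + 8) → k))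
    refine h4.trans ?_
    rw [Set.toFinset_insert, Set.toFinset_singleton]
    exact Finset.card_le_two
  have h5 : M.rank = Module.finrank k (LinearMap.range M.mulVecLin) := rfl
  omega

theorem rank_pe {x : Fin 9 → k} (hpi : x 6 ≠ 0) (het : x 8 ≠ 0) :
    m + 8 ≤ (J + mk x : Matrix (Fin (m + 8)) (Fin (m + 8)) k).rank + 2 := by
  refine rank_ge ?_
  set M : Matrix (Fin (m + 8)) (Fin (m + 8)) k := J + mk x with hM
  set S := LinearMap.range M.mulVecLin ⊔ Submodule.span k {(e 0 : Fin (m + 8) → k), e (m + 5)} with hS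
  have hr : ∀ w, M *ᵥ w ∈ S := fun w => Submodule.mem_sup_left ⟨w, rfl⟩
  have h0 : (e 0 : Fin (m + 8) → k) ∈ S :=
    Submodule.mem_sup_right (Submodule.subset_span (by simp))
  have hu : (e (m + 5) : Fin (m + 8) → k) ∈ S :=
    Submodule.mem_sup_right (Submodule.subset_span (by simp))
  have hJ : ∀ w, J *ᵥ w = M *ᵥ w - mk x *ᵥ w := by
    intro w
    rw [hM, Matrix.add_mulVec, add_sub_cancel_right]
  -- `x^i v`, `i ≥ 3`
  have h3 : ∀ i, 3 ≤ i → i ≤ m + 4 → (e i : Fin (m + 8) → k) ∈ S := by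
    intro i hi hi'
    obtain ⟨j, rfl⟩ : ∃ j, i = j + 1 := ⟨i - 1, by omega⟩
    rw [← J_lt j (by omega), hJ, mk_mid x (by omega) (by omega), sub_zero]
    exact hr _
  have ha1 := h3 (m + 3) (by omega) (by omega)
  have ha := h3 (m + 4) (by omega) (by omega)
  -- `x u`
  have hw : (e (m + 6) : Fin (m + 8) → k) ∈ S := by
    have h1 := hr (e (m + 7))
    rw [hM, Matrix.add_mulVec, J_p, zero_add, mk_p] at h1
    have h2 := sub_mem h1 (Submodule.smul_mem _ (x 7) ha)
    rw [add_sub_cancel_left] at h2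
    have h4 := Submodule.smul_mem _ (x 8)⁻¹ h2
    rwa [smul_smul, inv_mul_cancel₀ het, one_smul] at h4
  have hp : (e (m + 7) : Fin (m + 8) → k) ∈ S := by
    have h1 := hr (e (m + 5))
    rw [hM, Matrix.add_mulVec, J_u, mk_u] at h1
    have h2 := sub_mem (sub_mem (sub_mem (sub_mem h1 hw) (Submodule.smul_mem _ (x 3) ha1))
      (Submodule.smul_mem _ (x 4) ha)) (Submodule.smul_mem _ (x 5) hw)
    have h5 : (e (m + 6) + (x 3 • e (m + 3) + x 4 • e (m + 4) + x 5 • e (m + 6) +
        x 6 • e (m + 7)) - e (m + 6) - x 3 • e (m + 3) - x 4 • e (m + 4) - x 5 • e (m + 6) :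
        Fin (m + 8) → k) = x 6 • e (m + 7) := by abel
    rw [h5] at h2
    have h4 := Submodule.smul_mem _ (x 6)⁻¹ h2
    rwa [smul_smul, inv_mul_cancel₀ hpi, one_smul] at h4
  have h1 : (e 1 : Fin (m + 8) → k) ∈ S := by
    rw [← J_0, hJ, mk_0]
    exact sub_mem (hr _) (add_mem (add_mem (Submodule.smul_mem _ _ hu) (Submodule.smul_mem _ _ hw))
      (Submodule.smul_mem _ _ hp))
  have h2 : (e 2 : Fin (m + 8) → k) ∈ S := by
    rw [← J_1, hJ, mk_1]
    exact sub_mem (hr _) (Submodule.smul_mem _ _ hw)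
  intro l hl
  rcases (by omega : l = 0 ∨ l = 1 ∨ l = 2 ∨ (3 ≤ l ∧ l ≤ m + 4) ∨ l = m + 5 ∨ l = m + 6 ∨
    l = m + 7) with rfl | rfl | rfl | ⟨h4, h5⟩ | rfl | rfl | rfl
  · exact h0
  · exact h1
  · exact h2
  · exact h3 l h4 h5
  · exact hu
  · exact hw
  · exact hp

theorem g_pe [IsAlgClosed k] [CharZero k] {x y : Fin 9 → k} (h : Rel x y) (hpi : x 6 ≠ 0)
    (het : x 8 ≠ 0) : G m x y := by
  refine cl_corank (by omega) (cn_of_rel h) (M := J + mk x) (add_mem ?_ ?_) (rank_pe hpi het)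
  · exact mem_adj ![(J : Matrix (Fin (m + 8)) (Fin (m + 8)) k), mk x, mk y] 0
  · exact mem_adj ![(J : Matrix (Fin (m + 8)) (Fin (m + 8)) k), mk x, mk y] 1

end Ta21

end Pool.Agent.Lib.D8
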