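import Pool.Agent.Lib.D8.Ta21B

/-!
# MP_5dcbc3_ag: Jordan type `(a, 2, 1)`, `a = m + 5`: the case `be = pi = 0`, three axes
-/

namespace Pool.Agent.Lib.D8

open Matrix Polynomial Pool.Agent.Lib.Q5dc Pool.Agent.Lib.D7

variable {k : Type*} [Field k]

namespace Ta21

variable {m : ℕ}

/-- discriminants -/
def P0 (ga g et : k) : k := ga * et - g ^ 2
def P1 (b g th et : k) : k := g * th - et * b
def P2 (be1 ga th et : k) : k := et * be1 - ga * th
def P3 (be1 ga b g : k) : k := ga * b - g * be1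
def Pd (k1 k2 k3 : k) : k := k2 ^ 2 - 4 * (k1 * k3)
def Pr (k1 k2 k3 ga g et : k) : k :=
  (k1 * ga - k3 * et) ^ 2 + (2 * g * k1 + k2 * et) * (k2 * ga + 2 * g * k3)

/-- a matrix commuting with the cyclic triple and killing the cyclic vector vanishes -/
theorem eq_of_cyc {x y : Fin 9 → k} (h0 : x 0 = 1) (h2 : x 2 = 0) (h0' : y 0 = 0) (h2' : y 2 = 1)
    {M M' : Matrix (Fin (m + 8)) (Fin (m + 8)) k} (hJ : J * M = M * J) (hJ' : J * M' = M' * J)
    (hx : mk x * M = M * mk x) (hx' : mk x * M' = M' * mk x)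
    (hy : mk y * M = M * mk y) (hy' : mk y * M' = M' * mk y) (hv : M *ᵥ e 0 = M' *ᵥ e 0) :
    M = M' := by
  have key : ∀ N N' : Matrix (Fin (m + 8)) (Fin (m + 8)) k, ∀ w, N * N' = N' * N →
      N' *ᵥ (N *ᵥ w) = N *ᵥ (N' *ᵥ w) := by
    intro N N' w h
    rw [Matrix.mulVec_mulVec, Matrix.mulVec_mulVec, h]
  have hBv : (mk x : Matrix (Fin (m + 8)) (Fin (m + 8)) k) *ᵥ e 0 =
      e (m + 5) + x 1 • e (m + 6) := by
    rw [mk_0, h0, h2, one_smul, zero_smul, add_zero]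
  have hCv : (mk y : Matrix (Fin (m + 8)) (Fin (m + 8)) k) *ᵥ e 0 =
      y 1 • e (m + 6) + e (m + 7) := by
    rw [mk_0, h0', h2', one_smul, zero_smul, zero_add]
  have hJBv : (J : Matrix (Fin (m + 8)) (Fin (m + 8)) k) *ᵥ (mk x *ᵥ e 0) = e (m + 6) := by
    rw [hBv, Matrix.mulVec_add, Matrix.mulVec_smul, J_u, J_w, smul_zero, add_zero]
  have hB : M *ᵥ (mk x *ᵥ e 0) = M' *ᵥ (mk x *ᵥ e 0) := by
    rw [key _ _ _ hx, key _ _ _ hx', hv]
  have hC : M *ᵥ (mk y *ᵥ e 0) = M' *ᵥ (mk y *ᵥ e 0) := by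
    rw [key _ _ _ hy, key _ _ _ hy', hv]
  have hw : M *ᵥ e (m + 6) = M' *ᵥ e (m + 6) := by
    rw [← hJBv, key _ _ _ hJ, key _ _ _ hJ', hB]
  refine ext_gen hJ hJ' hv ?_ ?_
  · have h1 : (e (m + 5) : Fin (m + 8) → k) = mk x *ᵥ e 0 - x 1 • e (m + 6) := by
      rw [hBv]; abel
    rw [h1, Matrix.mulVec_sub, Matrix.mulVec_sub, Matrix.mulVec_smul, Matrix.mulVec_smul, hB, hw]
  · have h1 : (e (m + 7) : Fin (m + 8) → k) = mk y *ᵥ e 0 - y 1 • e (m + 6) := by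
      rw [hCv]; abel
    rw [h1, Matrix.mulVec_sub, Matrix.mulVec_sub, Matrix.mulVec_smul, Matrix.mulVec_smul, hC, hw]

/-- the generic case -/
theorem g_gen [IsAlgClosed k] [CharZero k] {al1 al1' be1 ga b g th et k1 k2 k3 : k}
    (hk1 : k1 = P1 b g th et) (hk2 : k2 = P2 be1 ga th et) (hk3 : k3 = P3 be1 ga b g)
    (h0 : P0 ga g et ≠ 0) (h1 : k1 ≠ 0) (hd : Pd k1 k2 k3 ≠ 0) (hr : Pr k1 k2 k3 ga g et ≠ 0) :
    G m ![1, al1, 0, 0, be1, ga, 0, b, g] ![0, al1', 1, 0, b, g, 0, th, et] := by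
  -- the roots
  obtain ⟨r₁, r₂, hs, hp, hne⟩ : ∃ r₁ r₂ : k, k1 * (r₁ + r₂) = -k2 ∧ k1 * (r₁ * r₂) = k3 ∧
      r₁ ≠ r₂ := by
    obtain ⟨r₁, hr1⟩ := IsAlgClosed.exists_root (C k1 * X ^ 2 + C k2 * X + C k3 : k[X]) (by
      rw [degree_quadratic h1]
      norm_num)
    have hr1' : k1 * r₁ ^ 2 + k2 * r₁ + k3 = 0 := by
      have := hr1
      simpa only [IsRoot.def, eval_add, eval_mul, eval_C, eval_pow, eval_X] using this
    refine ⟨r₁, -k2 / k1 - r₁, ?_, ?_, ?_⟩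
    · field_simp
      ring
    · have : k1 * (r₁ * (-k2 / k1 - r₁)) = -(k2 * r₁) - k1 * r₁ ^ 2 := by
        field_simp
      rw [this]
      linear_combination -hr1'
    · intro h
      apply hd
      have h2 : 2 * k1 * r₁ = -k2 := by
        have : k1 * r₁ = k1 * (-k2 / k1 - r₁) := by rw [← h]
        have h3 : k1 * (-k2 / k1 - r₁) = -k2 - k1 * r₁ := by
          field_simp
        rw [h3] at this
        linear_combination this
      unfold Pd
      linear_combination (k2 + 2 * k1 * r₁) * h2 - 4 * k1 * hr1'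
  obtain ⟨xB, hxB⟩ : ∃ xB : Fin 9 → k, xB = ![1, al1, 0, 0, be1, ga, 0, b, g] := ⟨_, rfl⟩
  obtain ⟨xC, hxC⟩ : ∃ xC : Fin 9 → k, xC = ![0, al1', 1, 0, b, g, 0, th, et] := ⟨_, rfl⟩
  rw [← hxB, ← hxC]
  have hrel : Rel xB xC := by
    rw [hxB, hxC]
    refine ⟨?_, ?_, ?_, ?_, ?_, ?_, ?_⟩ <;> simp
  have hT := cn_of_rel (m := m) hrel
  set T : Fin 3 → Matrix (Fin (m + 8)) (Fin (m + 8)) k := ![J, mk xB, mk xC] with hTdef
  set B : Matrix (Fin (m + 8)) (Fin (m + 8)) k := mk xB with hB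
  set Cm : Matrix (Fin (m + 8)) (Fin (m + 8)) k := mk xC with hCm
  have mJ : J ∈ adj T := mem_adj T 0
  have mB : B ∈ adj T := mem_adj T 1
  have mC : Cm ∈ adj T := mem_adj T 2
  obtain ⟨α, hα⟩ : ∃ α, α = -et / P0 ga g et := ⟨_, rfl⟩
  obtain ⟨β, hβ⟩ : ∃ β, β = g / P0 ga g et := ⟨_, rfl⟩
  have ab1 : 1 + α * ga + β * g = 0 := by
    rw [hα, hβ]
    field_simp
    unfold P0
    ring
  have ab2 : α * g + β * et = 0 := by
    rw [hα, hβ]
    field_simp
    ring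
  -- vectors
  have vB : B *ᵥ e 0 = e (m + 5) + al1 • e (m + 6) := by
    rw [hB, mk_0, hxB]; simp
  have vC : Cm *ᵥ e 0 = al1' • e (m + 6) + e (m + 7) := by
    rw [hCm, mk_0, hxC]; simp
  have vBB : B *ᵥ (B *ᵥ e 0) = be1 • e (m + 4) + ga • e (m + 6) := by
    rw [hB, mk_mk_0, hxB]; simp
  have vBC : B *ᵥ (Cm *ᵥ e 0) = b • e (m + 4) + g • e (m + 6) := by
    rw [hB, hCm, mk_mk_0, hxB, hxC]; simp
  have vCB : Cm *ᵥ (B *ᵥ e 0) = b • e (m + 4) + g • e (m + 6) := by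
    rw [hB, hCm, mk_mk_0, hxB, hxC]; simp
  have vCC : Cm *ᵥ (Cm *ᵥ e 0) = th • e (m + 4) + et • e (m + 6) := by
    rw [hCm, mk_mk_0, hxC]; simp
  have vBw : B *ᵥ e (m + 6) = 0 := by rw [hB, mk_w, hxB]; simp
  have vCw : Cm *ᵥ e (m + 6) = 0 := by rw [hCm, mk_w, hxC]; simp
  have vBm : ∀ l, 2 ≤ l → l ≤ m + 4 → B *ᵥ e l = 0 := fun l h2 h3 => mk_mid _ h2 h3
  have vCm : ∀ l, 2 ≤ l → l ≤ m + 4 → Cm *ᵥ e l = 0 := fun l h2 h3 => mk_mid _ h2 h3
  have vB1 : B *ᵥ e 1 = e (m + 6) := by rw [hB, mk_1, hxB]; simp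
  have vC1 : Cm *ᵥ e 1 = 0 := by rw [hCm, mk_1, hxC]; simp
  have vJB : J *ᵥ (B *ᵥ e 0) = e (m + 6) := by
    rw [vB, Matrix.mulVec_add, Matrix.mulVec_smul, J_u, J_w, smul_zero, add_zero]
  have vJC : J *ᵥ (Cm *ᵥ e 0) = 0 := by
    rw [vC, Matrix.mulVec_add, Matrix.mulVec_smul, J_p, J_w, smul_zero, add_zero]
  -- the matrices
  set Xm : Matrix (Fin (m + 8)) (Fin (m + 8)) k := J + α • B + β • Cm with hX
  obtain ⟨ρ, hρ⟩ : ∃ ρ : k → k, ρ = fun r => α * be1 + β * b - r * (α * b + β * th) := ⟨_, rfl⟩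
  obtain ⟨Y, hY⟩ : ∃ Y : k → Matrix (Fin (m + 8)) (Fin (m + 8)) k,
    Y = fun r => B - r • Cm - ρ r • J ^ (m + 3) := ⟨_, rfl⟩
  have mX : Xm ∈ adj T := add_mem (add_mem mJ (SMulMemClass.smul_mem _ mB))
    (SMulMemClass.smul_mem _ mC)
  have mJp : ∀ i, J ^ (i + 1) ∈ adj T := by
    intro i
    induction i with
    | zero => rw [zero_add, pow_one]; exact mJ
    | succ i ih => rw [pow_succ]; exact mul_mem ih mJ
  have mY : ∀ r, Y r ∈ adj T := by
    intro r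
    rw [hY]
    exact sub_mem (sub_mem mB (SMulMemClass.smul_mem _ mC)) (SMulMemClass.smul_mem _ (mJp (m + 2)))
  have vY : ∀ r, Y r *ᵥ e 0 = B *ᵥ e 0 - r • (Cm *ᵥ e 0) - ρ r • e (m + 3) := by
    intro r
    rw [hY]
    simp only [Matrix.sub_mulVec, Matrix.smul_mulVec, Jpow_0 (m := m) (m + 3) (by omega)]
  have vX : ∀ w, Xm *ᵥ w = J *ᵥ w + α • (B *ᵥ w) + β • (Cm *ᵥ w) := by
    intro w
    rw [hX]
    simp only [Matrix.add_mulVec, Matrix.smul_mulVec]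
  have cyc : ∀ M ∈ adj T, ∀ M' ∈ adj T, M *ᵥ e 0 = M' *ᵥ e 0 → M = M' := by
    intro M hM M' hM' hv
    have c0 : xB 0 = 1 := by rw [hxB]; rfl
    have c2 : xB 2 = 0 := by rw [hxB]; rfl
    have c0' : xC 0 = 0 := by rw [hxC]; rfl
    have c2' : xC 2 = 1 := by rw [hxC]; rfl
    exact eq_of_cyc c0 c2 c0' c2' (hT.comm mJ hM) (hT.comm mJ hM') (hT.comm mB hM)
      (hT.comm mB hM') (hT.comm mC hM) (hT.comm mC hM') hv
  have hXY : ∀ r, Xm * Y r = 0 := by
    intro r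
    refine cyc _ (mul_mem mX (mY r)) _ (zero_mem _) ?_
    rw [← Matrix.mulVec_mulVec, vY, Matrix.zero_mulVec, vX]
    simp only [Matrix.mulVec_sub, Matrix.mulVec_smul, vBB, vBC, vCB, vCC, vJB, vJC, J_a1,
      vBm (m + 3) (by omega) (by omega), vCm (m + 3) (by omega) (by omega)]
    rw [hρ]
    have e1 : (1 + α * ga + β * g) - r * (α * g + β * et) = 0 := by rw [ab1, ab2]; ring
    have : ∀ (t w : Fin (m + 8) → k), w - r • (0 : Fin (m + 8) → k) -
        (α * be1 + β * b - r * (α * b + β * th)) • t +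
        α • (be1 • t + ga • w - r • (b • t + g • w) -
          (α * be1 + β * b - r * (α * b + β * th)) • (0 : Fin (m + 8) → k)) +
        β • (b • t + g • w - r • (th • t + et • w) -
          (α * be1 + β * b - r * (α * b + β * th)) • (0 : Fin (m + 8) → k)) =
        ((1 + α * ga + β * g) - r * (α * g + β * et)) • w := by
      intro t w; module
    rw [this, e1, zero_smul]
  have hYX : ∀ r, Y r * Xm = 0 := fun r => by rw [hT.comm (mY r) mX, hXY]
  -- products of the `Y`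
  have vYY : ∀ r r', Y r *ᵥ (Y r' *ᵥ e 0) = (be1 - (r + r') * b + r * r' * th) • e (m + 4) +
      (ga - (r + r') * g + r * r' * et) • e (m + 6) := by
    intro r r'
    have hJY : J ^ (m + 3) *ᵥ (B *ᵥ e 0 - r' • (Cm *ᵥ e 0) - ρ r' • e (m + 3)) = 0 := by
      have h1 : ∀ w : Fin (m + 8) → k, J ^ (m + 3) *ᵥ w = J ^ (m + 1) *ᵥ (J *ᵥ (J *ᵥ w)) := by
        intro w
        rw [Matrix.mulVec_mulVec, Matrix.mulVec_mulVec, pow_succ, pow_succ]
      rw [h1]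
      simp only [Matrix.mulVec_sub, Matrix.mulVec_smul, vJB, vJC, J_a1, J_w, J_a, Matrix.mulVec_zero,
        smul_zero, sub_zero]
    rw [vY, hY]
    simp only [Matrix.sub_mulVec, Matrix.smul_mulVec]
    rw [hJY]
    simp only [Matrix.mulVec_sub, Matrix.mulVec_smul, vBB, vBC, vCB, vCC,
      vBm (m + 3) (by omega) (by omega), vCm (m + 3) (by omega) (by omega)]
    module
  have hprod : (be1 - (r₁ + r₂) * b + r₁ * r₂ * th = 0) ∧ (ga - (r₁ + r₂) * g + r₁ * r₂ * et = 0) := by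
    constructor
    · have : k1 * (be1 - (r₁ + r₂) * b + r₁ * r₂ * th) = 0 := by
        have : k1 * (be1 - (r₁ + r₂) * b + r₁ * r₂ * th) = k1 * be1 + k2 * b + k3 * th := by
          linear_combination (-b) * hs + th * hp
        rw [this, hk1, hk2, hk3]
        unfold P1 P2 P3
        ring
      exact (mul_eq_zero.1 this).resolve_left h1
    · have : k1 * (ga - (r₁ + r₂) * g + r₁ * r₂ * et) = 0 := by
        have : k1 * (ga - (r₁ + r₂) * g + r₁ * r₂ * et) = k1 * ga + k2 * g + k3 * et := by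
          linear_combination (-g) * hs + et * hp
        rw [this, hk1, hk2, hk3]
        unfold P1 P2 P3
        ring
      exact (mul_eq_zero.1 this).resolve_left h1
  have hYZ : Y r₁ * Y r₂ = 0 := by
    refine cyc _ (mul_mem (mY _) (mY _)) _ (zero_mem _) ?_
    rw [← Matrix.mulVec_mulVec, vYY, hprod.1, hprod.2, zero_smul, zero_smul, add_zero,
      Matrix.zero_mulVec]
  have hZY : Y r₂ * Y r₁ = 0 := by rw [hT.comm (mY r₂) (mY r₁), hYZ]
  -- squares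
  obtain ⟨y2, hy2⟩ : ∃ y2, y2 = fun r : k => be1 - (r + r) * b + r * r * th := ⟨_, rfl⟩
  obtain ⟨y1, hy1⟩ : ∃ y1, y1 = fun r : k => ga - (r + r) * g + r * r * et := ⟨_, rfl⟩
  have vY2 : ∀ r, Y r ^ 2 *ᵥ e 0 = y2 r • e (m + 4) + y1 r • e (m + 6) := by
    intro r
    rw [pow_two, ← Matrix.mulVec_mulVec, vYY, hy1, hy2]
  have hyz : y1 r₁ * y1 r₂ ≠ 0 := by
    intro h
    apply hr
    have : Pr k1 k2 k3 ga g et = k1 ^ 2 * (y1 r₁ * y1 r₂) := by
      simp only [hy1]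
      unfold Pr
      have e2 : k2 = -(k1 * (r₁ + r₂)) := by linear_combination hs
      rw [e2, ← hp]
      ring
    rw [this, h, mul_zero]
  have hΔ : y1 r₁ * y2 r₂ - y1 r₂ * y2 r₁ ≠ 0 := by
    -- the squares span
    intro h
    have hrr : (r₁ - r₂) ≠ 0 := sub_ne_zero.2 hne
    have e1 : y1 r₁ = (r₁ - r₂) * (r₁ * et - g) := by
      simp only [hy1]
      linear_combination hprod.2
    have e2 : y1 r₂ = (r₂ - r₁) * (r₂ * et - g) := by
      simp only [hy1]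
      linear_combination hprod.2
    have e3 : y2 r₁ = (r₁ - r₂) * (r₁ * th - b) := by
      simp only [hy2]
      linear_combination hprod.1
    have e4 : y2 r₂ = (r₂ - r₁) * (r₂ * th - b) := by
      simp only [hy2]
      linear_combination hprod.1
    have e5 : y1 r₁ * y2 r₂ - y1 r₂ * y2 r₁ = -((r₁ - r₂) ^ 3 * P1 b g th et) := by
      rw [e1, e2, e3, e4]
      unfold P1
      ring
    rw [e5, ← hk1] at h
    exact h1 ((mul_eq_zero.1 (neg_eq_zero.1 h)).resolve_left (pow_ne_zero 3 hrr))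
  -- powers of `X`
  have vXt : Xm *ᵥ e (m + 4) = 0 := by
    rw [vX, J_a, vBm _ (by omega) (by omega), vCm _ (by omega) (by omega)]
    simp
  have vXw : Xm *ᵥ e (m + 6) = 0 := by
    rw [vX, J_w, vBw, vCw]
    simp
  have vX1 : Xm *ᵥ e 0 = e 1 + α • (B *ᵥ e 0) + β • (Cm *ᵥ e 0) := by rw [vX, J_0]
  have vX2 : ∃ c d : k, Xm ^ 2 *ᵥ e 0 = e 2 + c • e (m + 4) + d • e (m + 6) := by
    refine ⟨α * (α * be1 + β * b) + β * (α * b + β * th),
      α + α + (α * (α * ga + β * g) + β * (α * g + β * et)), ?_⟩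
    rw [pow_two, ← Matrix.mulVec_mulVec, vX1, vX]
    simp only [Matrix.mulVec_add, Matrix.mulVec_smul, J_1, vJB, vJC, vB1, vC1, vBB, vBC, vCB, vCC]
    module
  have vXi : ∀ i, i + 3 ≤ m + 4 → Xm ^ (i + 3) *ᵥ e 0 = e (i + 3) := by
    intro i
    induction i with
    | zero =>
      intro _
      obtain ⟨c, d, h⟩ := vX2
      have : Xm ^ (0 + 3) *ᵥ e 0 = Xm *ᵥ (Xm ^ 2 *ᵥ e 0) := by
        rw [Matrix.mulVec_mulVec, ← pow_succ']
      rw [this, h, Matrix.mulVec_add, Matrix.mulVec_add, Matrix.mulVec_smul, Matrix.mulVec_smul,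
        vXt, vXw, vX, J_lt 2 (by omega), vBm 2 (by omega) (by omega), vCm 2 (by omega) (by omega)]
      simp
    | succ i ih =>
      intro hi
      have : Xm ^ (i + 1 + 3) *ᵥ e 0 = Xm *ᵥ (Xm ^ (i + 3) *ᵥ e 0) := by
        rw [Matrix.mulVec_mulVec, ← pow_succ']
      rw [this, ih (by omega), vX, J_lt (i + 3) (by omega), vBm (i + 3) (by omega) (by omega),
        vCm (i + 3) (by omega) (by omega)]
      simp
  have hXtop : Xm ^ (m + 4) *ᵥ e 0 = e (m + 4) := by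
    have := vXi (m + 1) (by omega)
    have e1 : m + 1 + 3 = m + 4 := by omega
    rwa [e1] at this
  have hXJ : Xm ^ (m + 3) = J ^ (m + 3) := by
    refine cyc _ ?_ _ (mJp (m + 2)) ?_
    · have : ∀ i, Xm ^ (i + 1) ∈ adj T := by
        intro i
        induction i with
        | zero => rw [zero_add, pow_one]; exact mX
        | succ i ih => rw [pow_succ]; exact mul_mem ih mX
      exact this (m + 2)
    · rw [vXi m (by omega), Jpow_0 _ (by omega)]
  -- three axes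
  obtain ⟨c₁, hc₁⟩ : ∃ c, c = -(y1 r₂) / (y1 r₁ * y2 r₂ - y1 r₂ * y2 r₁) := ⟨_, rfl⟩
  obtain ⟨c₂, hc₂⟩ : ∃ c, c = y1 r₁ / (y1 r₁ * y2 r₂ - y1 r₂ * y2 r₁) := ⟨_, rfl⟩
  have hy1' : y1 r₁ ≠ 0 := left_ne_zero_of_mul hyz
  have hy2' : y1 r₂ ≠ 0 := right_ne_zero_of_mul hyz
  have hc1' : c₁ ≠ 0 := by
    rw [hc₁]
    exact div_ne_zero (neg_ne_zero.2 hy2') hΔ
  have hc2' : c₂ ≠ 0 := by
    rw [hc₂]
    exact div_ne_zero hy1' hΔ
  have hrelt : Xm ^ (m + 4) *ᵥ e 0 = c₁ • (Y r₁ ^ 2 *ᵥ e 0) + c₂ • (Y r₂ ^ 2 *ᵥ e 0) := by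
    rw [hXtop, vY2, vY2]
    have e1 : c₁ * y2 r₁ + c₂ * y2 r₂ = 1 := by
      rw [hc₁, hc₂]
      field_simp
      ring
    have e2 : c₁ * y1 r₁ + c₂ * y1 r₂ = 0 := by
      rw [hc₁, hc₂]
      field_simp
      ring
    have : ∀ t w : Fin (m + 8) → k, c₁ • (y2 r₁ • t + y1 r₁ • w) + c₂ • (y2 r₂ • t + y1 r₂ • w) =
        (c₁ * y2 r₁ + c₂ * y2 r₂) • t + (c₁ * y1 r₁ + c₂ * y1 r₂) • w := by
      intro t w; module
    rw [this, e1, e2, one_smul, zero_smul, add_zero]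
  have hax := cl_axes3 Xm (Y r₁) (Y r₂) (e 0) (p := m + 4) (q := 2) (r := 2) (by omega) (by omega)
    (by omega) (by rw [Fintype.card_fin]) (hXY _) (hYX _) (hXY _) (hYX _) hYZ hZY hc1' hc2' hrelt
    (by
      set S := Submodule.span k (({e 0} : Set (Fin (m + 8) → k)) ∪
        {x | ∃ i, x = Xm ^ (i + 1) *ᵥ e 0} ∪ {x | ∃ i, x = Y r₁ ^ (i + 1) *ᵥ e 0} ∪
        {x | ∃ i, x = Y r₂ ^ (i + 1) *ᵥ e 0}) with hS
      have s0 : e 0 ∈ S := Submodule.subset_span (Or.inl (Or.inl (Or.inl rfl)))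
      have sX : ∀ i, Xm ^ (i + 1) *ᵥ e 0 ∈ S := fun i =>
        Submodule.subset_span (Or.inl (Or.inl (Or.inr ⟨i, rfl⟩)))
      have sY : ∀ i, Y r₁ ^ (i + 1) *ᵥ e 0 ∈ S := fun i =>
        Submodule.subset_span (Or.inl (Or.inr ⟨i, rfl⟩))
      have sZ : ∀ i, Y r₂ ^ (i + 1) *ᵥ e 0 ∈ S := fun i =>
        Submodule.subset_span (Or.inr ⟨i, rfl⟩)
      have st : e (m + 4) ∈ S := by rw [← hXtop]; exact sX (m + 3)
      have sw : e (m + 6) ∈ S := by
        have h3 := sY 1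
        rw [vY2] at h3
        have h4 := sub_mem h3 (Submodule.smul_mem _ (y2 r₁) st)
        rw [add_sub_cancel_left] at h4
        have h5 := Submodule.smul_mem _ (y1 r₁)⁻¹ h4
        rwa [smul_smul, inv_mul_cancel₀ hy1', one_smul] at h5
      have s3 : ∀ l, 3 ≤ l → l ≤ m + 4 → e l ∈ S := by
        intro l h3 h4
        obtain ⟨j, rfl⟩ : ∃ j, l = j + 3 := ⟨l - 3, by omega⟩
        rw [← vXi j (by omega)]
        exact sX (j + 2)
      have s2 : e 2 ∈ S := by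
        obtain ⟨c, d, h⟩ := vX2
        have h3 := sX 1
        rw [h] at h3
        have h4 := sub_mem (sub_mem h3 (Submodule.smul_mem _ d sw)) (Submodule.smul_mem _ c st)
        rwa [add_sub_cancel_right, add_sub_cancel_right] at h4
      have sBC : ∀ r, Y r *ᵥ e 0 ∈ S → B *ᵥ e 0 - r • (Cm *ᵥ e 0) ∈ S := by
        intro r h3
        rw [vY] at h3
        have h4 := add_mem h3 (Submodule.smul_mem _ (ρ r) (s3 (m + 3) (by omega) (by omega)))
        rwa [sub_add_cancel] at h4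
      have hs1 := sBC r₁ (by have := sY 0; rwa [zero_add, pow_one] at this)
      have hs2 := sBC r₂ (by have := sZ 0; rwa [zero_add, pow_one] at this)
      have sC : Cm *ᵥ e 0 ∈ S := by
        have h3 := sub_mem hs2 hs1
        have h4 : B *ᵥ e 0 - r₂ • (Cm *ᵥ e 0) - (B *ᵥ e 0 - r₁ • (Cm *ᵥ e 0)) =
            (r₁ - r₂) • (Cm *ᵥ e 0) := by module
        rw [h4] at h3
        have h5 := Submodule.smul_mem _ (r₁ - r₂)⁻¹ h3
        rwa [smul_smul, inv_mul_cancel₀ (sub_ne_zero.2 hne), one_smul] at h5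
      have sB : B *ᵥ e 0 ∈ S := by
        have h3 := add_mem hs1 (Submodule.smul_mem _ r₁ sC)
        rwa [sub_add_cancel] at h3
      have s1 : e 1 ∈ S := by
        have h3 := sX 0
        rw [zero_add, pow_one, vX1] at h3
        have h4 := sub_mem (sub_mem h3 (Submodule.smul_mem _ β sC)) (Submodule.smul_mem _ α sB)
        rwa [add_sub_cancel_right, add_sub_cancel_right] at h4
      have su : e (m + 5) ∈ S := by
        have h3 := sub_mem sB (Submodule.smul_mem _ al1 sw)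
        rwa [vB, add_sub_cancel_right] at h3
      have sp : e (m + 7) ∈ S := by
        have h3 := sub_mem sC (Submodule.smul_mem _ al1' sw)
        rwa [vC, add_sub_cancel_left] at h3
      intro w _
      rw [vec_sum w]
      refine Submodule.sum_mem _ fun i _ => Submodule.smul_mem _ _ ?_
      have hi := i.isLt
      rcases (by omega : (i : ℕ) = 0 ∨ (i : ℕ) = 1 ∨ (i : ℕ) = 2 ∨ (3 ≤ (i : ℕ) ∧ (i : ℕ) ≤ m + 4) ∨
        (i : ℕ) = m + 5 ∨ (i : ℕ) = m + 6 ∨ (i : ℕ) = m + 7) with h | h | h | ⟨h, h'⟩ | h | h | h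
      · rw [h]; exact s0
      · rw [h]; exact s1
      · rw [h]; exact s2
      · exact s3 _ h h'
      · rw [h]; exact su
      · rw [h]; exact sw
      · rw [h]; exact sp)
    ![![1, 0, 0], ![0, 1, 0], ![0, 0, 1]]
  set T' : Fin 3 → Matrix (Fin (m + 8)) (Fin (m + 8)) k := fun i =>
    (![![1, 0, 0], ![0, 1, 0], ![0, 0, 1]] : Fin 3 → Fin 3 → k) i 0 • Xm +
      (![![1, 0, 0], ![0, 1, 0], ![0, 0, 1]] : Fin 3 → Fin 3 → k) i 1 • Y r₁ +
      (![![1, 0, 0], ![0, 1, 0], ![0, 0, 1]] : Fin 3 → Fin 3 → k) i 2 • Y r₂ with hT'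
  have tX : Xm ∈ adj T' := by
    have h2 := mem_adj T' 0
    have h3 : T' 0 = Xm := by simp [hT']
    rwa [h3] at h2
  have tY : Y r₁ ∈ adj T' := by
    have h2 := mem_adj T' 1
    have h3 : T' 1 = Y r₁ := by simp [hT']
    rwa [h3] at h2
  have tZ : Y r₂ ∈ adj T' := by
    have h2 := mem_adj T' 2
    have h3 : T' 2 = Y r₂ := by simp [hT']
    rwa [h3] at h2
  have tJ : J ^ (m + 3) ∈ adj T' := by
    rw [← hXJ]
    have : ∀ i, Xm ^ (i + 1) ∈ adj T' := by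
      intro i
      induction i with
      | zero => rw [zero_add, pow_one]; exact tX
      | succ i ih => rw [pow_succ]; exact mul_mem ih tX
    exact this (m + 2)
  have t1 : ∀ r, Y r ∈ adj T' → B - r • Cm ∈ adj T' := by
    intro r h
    have h3 : B - r • Cm = Y r + ρ r • J ^ (m + 3) := by
      simp only [hY, sub_add_cancel]
    rw [h3]
    exact add_mem h (SMulMemClass.smul_mem _ tJ)
  have tC : Cm ∈ adj T' := by
    have h3 : Cm = (r₁ - r₂)⁻¹ • ((B - r₂ • Cm) - (B - r₁ • Cm)) := by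
      have h4 : (B - r₂ • Cm) - (B - r₁ • Cm) = (r₁ - r₂) • Cm := by module
      rw [h4, smul_smul, inv_mul_cancel₀ (sub_ne_zero.2 hne), one_smul]
    rw [h3]
    exact SMulMemClass.smul_mem _ (sub_mem (t1 _ tZ) (t1 _ tY))
  have tB : B ∈ adj T' := by
    have h3 : B = (B - r₁ • Cm) + r₁ • Cm := by rw [sub_add_cancel]
    rw [h3]
    exact add_mem (t1 _ tY) (SMulMemClass.smul_mem _ tC)
  refine cl_of_adj (T' := T') (fun i => ?_) hax
  fin_cases i
  · show J ∈ adj T'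
    have h3 : J = Xm - α • B - β • Cm := by rw [hX]; abel
    rw [h3]
    exact sub_mem (sub_mem tX (SMulMemClass.smul_mem _ tB)) (SMulMemClass.smul_mem _ tC)
  · exact tB
  · exact tC

end Ta21

end Pool.Agent.Lib.D8
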