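import Pool.Agent.Lib.D8.Axes

/-!
# MP_5dcbc3_ag: nilpotent matrices with two Jordan blocks: the matrices commuting with them as
2 x 2 matrices of polynomials
-/

namespace Pool.Agent.Lib.D8

open Matrix Polynomial Pool.Agent.Lib.Q5dc Pool.Agent.Lib.D7

variable {k : Type*} [Field k] {N : ℕ}

namespace Two

/-- `(z 0)(A) v + (z 1)(A) u` -/
noncomputable def pi (A : Matrix (Fin N) (Fin N) k) (v u : Fin N → k) (z : Fin 2 → k[X]) :
    Fin N → k :=
  aeval A (z 0) *ᵥ v + aeval A (z 1) *ᵥ u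

/-- `A` has two Jordan blocks, of sizes `a = b + δ ≥ b`, generated by `v`, `u` -/
structure TwoB (A : Matrix (Fin N) (Fin N) k) (v u : Fin N → k) (b δ : ℕ) : Prop where
  hb : 1 ≤ b
  card : N = (b + δ) + b
  hv : A ^ (b + δ) *ᵥ v = 0
  hu : A ^ b *ᵥ u = 0
  span : ∀ w, ∃ z, w = pi A v u z

variable {A : Matrix (Fin N) (Fin N) k} {v u : Fin N → k} {b δ : ℕ}

theorem pi_add (z z' : Fin 2 → k[X]) : pi A v u (z + z') = pi A v u z + pi A v u z' := by
  simp only [pi, Pi.add_apply, map_add, Matrix.add_mulVec]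
  abel

theorem pi_smul (p : k[X]) (z : Fin 2 → k[X]) : pi A v u (p • z) = aeval A p *ᵥ pi A v u z := by
  simp only [pi, Pi.smul_apply, smul_eq_mul, map_mul, ← Matrix.mulVec_mulVec, Matrix.mulVec_add]

theorem pi_csmul (r : k) (z : Fin 2 → k[X]) : pi A v u (r • z) = r • pi A v u z := by
  simp only [pi, Pi.smul_apply, map_smul, Matrix.smul_mulVec, smul_add]

theorem pi_zero : pi A v u 0 = 0 := by
  simp [pi]

theorem pi_neg (z : Fin 2 → k[X]) : pi A v u (-z) = -pi A v u z := by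
  have := pi_csmul (A := A) (v := v) (u := u) (-1) z
  rwa [neg_one_smul, neg_one_smul] at this

theorem pi_sub (z z' : Fin 2 → k[X]) : pi A v u (z - z') = pi A v u z - pi A v u z' := by
  rw [sub_eq_add_neg, pi_add, pi_neg, ← sub_eq_add_neg]

theorem act_of_dvd {e : ℕ} {w : Fin N → k} (hw : A ^ e *ᵥ w = 0) {p : k[X]} (hp : X ^ e ∣ p) :
    aeval A p *ᵥ w = 0 := by
  obtain ⟨q, rfl⟩ := hp
  rw [mul_comm, map_mul, map_pow, aeval_X, ← Matrix.mulVec_mulVec, hw, Matrix.mulVec_zero]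

theorem pi_eq_zero (h : TwoB A v u b δ) (z : Fin 2 → k[X]) :
    pi A v u z = 0 ↔ X ^ (b + δ) ∣ z 0 ∧ X ^ b ∣ z 1 := by
  constructor
  · intro hz
    -- the map from pairs of polynomials of small degree
    let f : (degreeLT k (b + δ) × degreeLT k b) →ₗ[k] (Fin N → k) :=
      { toFun := fun p => pi A v u ![(p.1 : k[X]), (p.2 : k[X])]
        map_add' := by
          intro p q
          rw [← pi_add]
          congr 1
          funext i
          fin_cases i <;> rfl
        map_smul' := by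
          intro r p
          rw [RingHom.id_apply, ← pi_csmul]
          congr 1
          funext i
          fin_cases i <;> rfl }
    have hmod : ∀ z : Fin 2 → k[X], ∃ p : degreeLT k (b + δ) × degreeLT k b,
        X ^ (b + δ) ∣ z 0 - (p.1 : k[X]) ∧ X ^ b ∣ z 1 - (p.2 : k[X]) := by
      intro z
      have hm1 : (X ^ (b + δ) : k[X]).Monic := monic_X_pow _
      have hm2 : (X ^ b : k[X]).Monic := monic_X_pow _
      refine ⟨⟨⟨z 0 %ₘ X ^ (b + δ), ?_⟩, ⟨z 1 %ₘ X ^ b, ?_⟩⟩, ?_, ?_⟩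
      · rw [mem_degreeLT]
        have := degree_modByMonic_lt (z 0) hm1
        rwa [degree_X_pow] at this
      · rw [mem_degreeLT]
        have := degree_modByMonic_lt (z 1) hm2
        rwa [degree_X_pow] at this
      · refine ⟨z 0 /ₘ X ^ (b + δ), ?_⟩
        have := modByMonic_add_div (z 0) (X ^ (b + δ) : k[X])
        show z 0 - z 0 %ₘ X ^ (b + δ) = _
        linear_combination -this
      · refine ⟨z 1 /ₘ X ^ b, ?_⟩
        have := modByMonic_add_div (z 1) (X ^ b : k[X])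
        show z 1 - z 1 %ₘ X ^ b = _
        linear_combination -this
    have hpi : ∀ (z : Fin 2 → k[X]) (p : degreeLT k (b + δ) × degreeLT k b),
        X ^ (b + δ) ∣ z 0 - (p.1 : k[X]) → X ^ b ∣ z 1 - (p.2 : k[X]) → pi A v u z = f p := by
      intro z p h0 h1
      have h2 : pi A v u (z - ![(p.1 : k[X]), (p.2 : k[X])]) = 0 := by
        unfold pi
        rw [act_of_dvd h.hv (p := (z - ![(p.1 : k[X]), (p.2 : k[X])]) 0) h0,
          act_of_dvd h.hu (p := (z - ![(p.1 : k[X]), (p.2 : k[X])]) 1) h1, add_zero]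
      rw [pi_sub, sub_eq_zero] at h2
      exact h2
    have hsurj : Function.Surjective f := by
      intro w
      obtain ⟨z, rfl⟩ := h.span w
      obtain ⟨p, h0, h1⟩ := hmod z
      exact ⟨p, (hpi z p h0 h1).symm⟩
    have hfd1 : Module.finrank k (degreeLT k (b + δ)) = b + δ := by
      rw [(degreeLTEquiv k (b + δ)).finrank_eq, Module.finrank_fin_fun]
    have hfd2 : Module.finrank k (degreeLT k b) = b := by
      rw [(degreeLTEquiv k b).finrank_eq, Module.finrank_fin_fun]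
    have : Module.Finite k (degreeLT k (b + δ)) := Module.Finite.equiv (degreeLTEquiv k (b + δ)).symm
    have : Module.Finite k (degreeLT k b) := Module.Finite.equiv (degreeLTEquiv k b).symm
    have hinj : Function.Injective f := by
      refine (LinearMap.injective_iff_surjective_of_finrank_eq_finrank ?_).2 hsurj
      rw [Module.finrank_prod, hfd1, hfd2, Module.finrank_fin_fun, ← h.card]
    obtain ⟨p, h0, h1⟩ := hmod z
    have h2 : f p = 0 := by rw [← hpi z p h0 h1, hz]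
    have h3 : p = 0 := hinj (by rw [h2, map_zero])
    rw [h3] at h0 h1
    constructor
    · simpa using h0
    · simpa using h1
  · rintro ⟨h0, h1⟩
    unfold pi
    rw [act_of_dvd h.hv h0, act_of_dvd h.hu h1, add_zero]

/-- `B` acts as the 2 x 2 matrix `P` of polynomials -/
def Rep (A : Matrix (Fin N) (Fin N) k) (v u : Fin N → k) (B : Matrix (Fin N) (Fin N) k)
    (P : Matrix (Fin 2) (Fin 2) k[X]) : Prop :=
  ∀ z, B *ᵥ pi A v u z = pi A v u (P *ᵥ z)

theorem Rep.mul {B C : Matrix (Fin N) (Fin N) k} {P Q : Matrix (Fin 2) (Fin 2) k[X]}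
    (hB : Rep A v u B P) (hC : Rep A v u C Q) : Rep A v u (B * C) (P * Q) := by
  intro z
  rw [← Matrix.mulVec_mulVec, hC z, hB, Matrix.mulVec_mulVec]

theorem Rep.add {B C : Matrix (Fin N) (Fin N) k} {P Q : Matrix (Fin 2) (Fin 2) k[X]}
    (hB : Rep A v u B P) (hC : Rep A v u C Q) : Rep A v u (B + C) (P + Q) := by
  intro z
  rw [Matrix.add_mulVec, hC z, hB, Matrix.add_mulVec, pi_add]

theorem Rep.sub {B C : Matrix (Fin N) (Fin N) k} {P Q : Matrix (Fin 2) (Fin 2) k[X]}
    (hB : Rep A v u B P) (hC : Rep A v u C Q) : Rep A v u (B - C) (P - Q) := by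
  intro z
  rw [Matrix.sub_mulVec, hC z, hB, Matrix.sub_mulVec, pi_sub]

theorem Rep.smul {B : Matrix (Fin N) (Fin N) k} {P : Matrix (Fin 2) (Fin 2) k[X]}
    (hB : Rep A v u B P) (r : k) : Rep A v u (r • B) (r • P) := by
  intro z
  rw [Matrix.smul_mulVec, hB, Matrix.smul_mulVec, pi_csmul]

theorem Rep.one : Rep A v u 1 1 := by
  intro z
  rw [Matrix.one_mulVec, Matrix.one_mulVec]

theorem Rep.zero : Rep A v u 0 0 := by
  intro z
  rw [Matrix.zero_mulVec, Matrix.zero_mulVec, pi_zero]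

theorem Rep.pow {B : Matrix (Fin N) (Fin N) k} {P : Matrix (Fin 2) (Fin 2) k[X]}
    (hB : Rep A v u B P) (i : ℕ) : Rep A v u (B ^ i) (P ^ i) := by
  induction i with
  | zero => rw [pow_zero, pow_zero]; exact Rep.one
  | succ i ih => rw [pow_succ, pow_succ]; exact ih.mul hB

/-- polynomials in `A` -/
theorem Rep.aeval (p : k[X]) : Rep A v u (aeval A p) (p • (1 : Matrix (Fin 2) (Fin 2) k[X])) := by
  intro z
  rw [Matrix.smul_mulVec, Matrix.one_mulVec, pi_smul]

theorem Rep.polysmul {B : Matrix (Fin N) (Fin N) k} {P : Matrix (Fin 2) (Fin 2) k[X]}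
    (hB : Rep A v u B P) (p : k[X]) : Rep A v u (Polynomial.aeval A p * B) (p • P) := by
  have := (Rep.aeval (A := A) (v := v) (u := u) p).mul hB
  rwa [smul_mul_assoc, one_mul] at this

/-- divisibility of all entries by the kernel -/
def Ker (b δ : ℕ) (P : Matrix (Fin 2) (Fin 2) k[X]) : Prop :=
  X ^ (b + δ) ∣ P 0 0 ∧ X ^ (b + δ) ∣ P 0 1 ∧ X ^ b ∣ P 1 0 ∧ X ^ b ∣ P 1 1

theorem Rep.eq_zero_iff (h : TwoB A v u b δ) {B : Matrix (Fin N) (Fin N) k}
    {P : Matrix (Fin 2) (Fin 2) k[X]} (hB : Rep A v u B P) : B = 0 ↔ Ker b δ P := by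
  have e0 : P *ᵥ ![1, 0] = ![P 0 0, P 1 0] := by
    funext i
    fin_cases i <;> simp [Matrix.mulVec, dotProduct, Fin.sum_univ_two]
  have e1 : P *ᵥ ![0, 1] = ![P 0 1, P 1 1] := by
    funext i
    fin_cases i <;> simp [Matrix.mulVec, dotProduct, Fin.sum_univ_two]
  constructor
  · rintro rfl
    have h0 := hB ![1, 0]
    have h1 := hB ![0, 1]
    rw [Matrix.zero_mulVec, e0] at h0
    rw [Matrix.zero_mulVec, e1] at h1
    obtain ⟨h2, h3⟩ := (pi_eq_zero h _).1 h0.symm
    obtain ⟨h4, h5⟩ := (pi_eq_zero h _).1 h1.symm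
    exact ⟨h2, h4, h3, h5⟩
  · rintro ⟨h2, h4, h3, h5⟩
    have h6 : ∀ w, B *ᵥ w = 0 := by
      intro w
      obtain ⟨z, rfl⟩ := h.span w
      rw [hB, pi_eq_zero h]
      constructor
      · have : (P *ᵥ z) 0 = P 0 0 * z 0 + P 0 1 * z 1 := by
          simp [Matrix.mulVec, dotProduct, Fin.sum_univ_two]
        rw [this]
        exact dvd_add (h2.mul_right _) (h4.mul_right _)
      · have : (P *ᵥ z) 1 = P 1 0 * z 0 + P 1 1 * z 1 := by
          simp [Matrix.mulVec, dotProduct, Fin.sum_univ_two]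
        rw [this]
        exact dvd_add (h3.mul_right _) (h5.mul_right _)
    have h8 : Matrix.toLin' B = Matrix.toLin' 0 := by
      rw [map_zero]
      exact LinearMap.ext h6
    exact Matrix.toLin'.injective h8

theorem Rep.eq_iff (h : TwoB A v u b δ) {B C : Matrix (Fin N) (Fin N) k}
    {P Q : Matrix (Fin 2) (Fin 2) k[X]} (hB : Rep A v u B P) (hC : Rep A v u C Q) :
    B = C ↔ Ker b δ (P - Q) := by
  rw [← sub_eq_zero, (hB.sub hC).eq_zero_iff h]

theorem Rep.eq (h : TwoB A v u b δ) {B C : Matrix (Fin N) (Fin N) k}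
    {P : Matrix (Fin 2) (Fin 2) k[X]} (hB : Rep A v u B P) (hC : Rep A v u C P) : B = C := by
  rw [hB.eq_iff h hC, sub_self]
  exact ⟨dvd_zero _, dvd_zero _, dvd_zero _, dvd_zero _⟩

/-- existence of the matrix -/
theorem exists_of_rep (h : TwoB A v u b δ) (P : Matrix (Fin 2) (Fin 2) k[X]) (hP : X ^ δ ∣ P 0 1) :
    ∃ B, Rep A v u B P := by
  let f : (Fin 2 → k[X]) →ₗ[k] (Fin N → k) :=
    { toFun := pi A v u
      map_add' := pi_add
      map_smul' := pi_csmul }
  have hf : Function.Surjective f := fun w => by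
    obtain ⟨z, hz⟩ := h.span w
    exact ⟨z, hz.symm⟩
  obtain ⟨g, hg⟩ := f.exists_rightInverse_of_surjective (LinearMap.range_eq_top.2 hf)
  let M : (Fin N → k) →ₗ[k] (Fin N → k) :=
    { toFun := fun w => f (P *ᵥ g w)
      map_add' := by
        intro w w'
        rw [map_add, Matrix.mulVec_add, map_add]
      map_smul' := by
        intro r w
        rw [map_smul, RingHom.id_apply, ← map_smul f]
        congr 1
        rw [Matrix.mulVec_smul] }
  refine ⟨LinearMap.toMatrix' M, fun z => ?_⟩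
  have h1 : LinearMap.toMatrix' M *ᵥ pi A v u z = M (pi A v u z) := by
    rw [← Matrix.toLin'_apply, Matrix.toLin'_toMatrix']
  rw [h1]
  show f (P *ᵥ g (f z)) = f (P *ᵥ z)
  rw [← sub_eq_zero, ← map_sub, ← Matrix.mulVec_sub]
  have h2 : f (g (f z) - z) = 0 := by
    rw [map_sub]
    have : f (g (f z)) = f z := by
      have := LinearMap.congr_fun hg (f z)
      exact this
    rw [this, sub_self]
  set z' := g (f z) - z with hz'
  have h3 : pi A v u z' = 0 := h2
  show pi A v u (P *ᵥ z') = 0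
  rw [pi_eq_zero h] at h3 ⊢
  obtain ⟨h4, h5⟩ := h3
  constructor
  · have : (P *ᵥ z') 0 = P 0 0 * z' 0 + P 0 1 * z' 1 := by
      simp [Matrix.mulVec, dotProduct, Fin.sum_univ_two]
    rw [this]
    refine dvd_add (h4.mul_left _) ?_
    rw [pow_add, mul_comm (X ^ b)]
    exact mul_dvd_mul hP h5
  · have : (P *ᵥ z') 1 = P 1 0 * z' 0 + P 1 1 * z' 1 := by
      simp [Matrix.mulVec, dotProduct, Fin.sum_univ_two]
    rw [this]
    exact dvd_add (((pow_dvd_pow X (by omega)).trans h4).mul_left _) (h5.mul_left _)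

/-- the matrices commuting with `A` -/
theorem rep_of_comm (h : TwoB A v u b δ) {B : Matrix (Fin N) (Fin N) k} (hB : A * B = B * A) :
    ∃ P, Rep A v u B P ∧ X ^ δ ∣ P 0 1 := by
  obtain ⟨z₀, h0⟩ := h.span (B *ᵥ v)
  obtain ⟨z₁, h1⟩ := h.span (B *ᵥ u)
  have hcomm : ∀ p : k[X], B * Polynomial.aeval A p = Polynomial.aeval A p * B := by
    intro p
    rw [Polynomial.aeval_eq_sum_range, Finset.mul_sum, Finset.sum_mul]
    refine Finset.sum_congr rfl fun i _ => ?_
    rw [mul_smul_comm, smul_mul_assoc, (Commute.pow_right (show Commute B A from hB.symm) i).eq]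
  have hrep : Rep A v u B (Matrix.of ![![z₀ 0, z₁ 0], ![z₀ 1, z₁ 1]]) := by
    intro z
    have e : (Matrix.of ![![z₀ 0, z₁ 0], ![z₀ 1, z₁ 1]]) *ᵥ z = z 0 • z₀ + z 1 • z₁ := by
      funext i
      fin_cases i
      · simp [Matrix.mulVec, dotProduct, Fin.sum_univ_two]; ring
      · simp [Matrix.mulVec, dotProduct, Fin.sum_univ_two]; ring
    rw [e, pi_add, pi_smul, pi_smul, ← h0, ← h1]
    show B *ᵥ (Polynomial.aeval A (z 0) *ᵥ v + Polynomial.aeval A (z 1) *ᵥ u) = _
    rw [Matrix.mulVec_add, Matrix.mulVec_mulVec, Matrix.mulVec_mulVec, hcomm, hcomm,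
      ← Matrix.mulVec_mulVec, ← Matrix.mulVec_mulVec]
  refine ⟨_, hrep, ?_⟩
  show X ^ δ ∣ z₁ 0
  have h2 : pi A v u ((X : k[X]) ^ b • z₁) = 0 := by
    rw [pi_smul, ← h1, map_pow, aeval_X, Matrix.mulVec_mulVec]
    have h3 : A ^ b * B = B * A ^ b := (Commute.pow_left (show Commute A B from hB) b)
    rw [h3, ← Matrix.mulVec_mulVec, h.hu, Matrix.mulVec_zero]
  have h3 := ((pi_eq_zero h _).1 h2).1
  rw [Pi.smul_apply, smul_eq_mul, pow_add] at h3
  exact (mul_dvd_mul_iff_left (pow_ne_zero b (X_ne_zero : (X : k[X]) ≠ 0))).1 h3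

end Two

end Pool.Agent.Lib.D8
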