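import Pool.Agent.Lib.D8.TwoB

/-!
# MP_5dcbc3_ag: commuting nilpotent pairs, one matrix having two Jordan blocks: the planar case
-/

namespace Pool.Agent.Lib.D8

open Matrix Polynomial Pool.Agent.Lib.Q5dc Pool.Agent.Lib.D7

variable {k : Type*} [Field k] {N : ℕ}

namespace Two

variable {A : Matrix (Fin N) (Fin N) k} {v u : Fin N → k} {b δ : ℕ}

theorem nilp_shape (h : TwoB A v u b δ) {B : Matrix (Fin N) (Fin N) k}
    {M : Matrix (Fin 2) (Fin 2) k[X]} (hB : Rep A v u B M) (h00 : M 0 0 = 0) (h01 : X ∣ M 0 1)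
    (h11 : X ∣ M 1 1) : IsNilpotent B := by
  obtain ⟨g, hg⟩ := h01
  obtain ⟨q, hq⟩ := h11
  refine nilp h hB (P' := !![g * M 1 0, X * g * q; q * M 1 0, g * M 1 0 + X * q ^ 2]) ?_
  refine Matrix.ext fun i j => ?_
  fin_cases i <;> fin_cases j
  · simp [Matrix.mul_apply, Fin.sum_univ_two, h00, hg]
    ring
  · simp [Matrix.mul_apply, Fin.sum_univ_two, h00, hg, hq]
    ring
  · simp [Matrix.mul_apply, Fin.sum_univ_two, h00, hq]
    ring
  · simp [Matrix.mul_apply, Fin.sum_univ_two, hg, hq]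
    ring

theorem finite_pow {B B₁ : Matrix (Fin N) (Fin N) k} {e : ℕ} (h : B₁ ^ e ≠ 0) :
    {s : k | (B + s • (B₁ - B)) ^ e = 0}.Finite := by
  obtain ⟨x, y, hxy⟩ : ∃ x y, (B₁ ^ e) x y ≠ 0 := by
    by_contra hc
    push Not at hc
    exact h (Matrix.ext hc)
  have h1 := isPoly_pow (isPoly_line B (B₁ - B)) e x y
  have h2 := h1.finite (s₁ := 1) (by
    show ((B + (1 : k) • (B₁ - B)) ^ e) x y ≠ 0
    rw [one_smul, add_sub_cancel]
    exact hxy)
  refine h2.subset ?_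
  intro s hs
  have h3 : (B + s • (B₁ - B)) ^ e = 0 := hs
  show ((B + s • (B₁ - B)) ^ e) x y = 0
  rw [h3]
  rfl

theorem planar_low [Infinite k] (h : TwoB A v u b δ) (hδ : δ ≤ 1) {B : Matrix (Fin N) (Fin N) k}
    {M : Matrix (Fin 2) (Fin 2) k[X]} (hB : Rep A v u B M) (h00 : M 0 0 = 0) (h01 : X ∣ M 0 1)
    (h11 : X ∣ M 1 1) : Cl ![A, B, 0] := by
  obtain ⟨B₁, hB1⟩ := exists_of_rep h !![0, X; 1, 0] (by
    show X ^ δ ∣ X
    calc X ^ δ ∣ X ^ 1 := pow_dvd_pow X hδ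
      _ = X := pow_one X)
  have hsq : (!![0, X; 1, 0] : Matrix (Fin 2) (Fin 2) k[X]) * !![0, X; 1, 0] = (X : k[X]) • 1 := by
    ext i j
    fin_cases i <;> fin_cases j <;> simp [Matrix.mul_apply, Fin.sum_univ_two]
  have hpow : ∀ i : ℕ, (!![0, X; 1, 0] : Matrix (Fin 2) (Fin 2) k[X]) ^ (2 * i) =
      (X : k[X]) ^ i • 1 := by
    intro i
    rw [pow_mul, pow_two, hsq, _root_.smul_pow, one_pow]
  have hnd : ∀ i j : ℕ, i < j → ¬ (X : k[X]) ^ j ∣ X ^ i := by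
    intro i j hij hd
    have h1 := Polynomial.degree_le_of_dvd hd (pow_ne_zero _ X_ne_zero)
    rw [degree_X_pow, degree_X_pow] at h1
    have h2 : j ≤ i := by exact_mod_cast h1
    omega
  have hne : B₁ ^ (N - 1) ≠ 0 := by
    intro h0
    have h1 := ((hB1.pow (N - 1)).eq_zero_iff h).1 h0
    have hb := h.hb
    have hc := h.card
    rcases Nat.lt_or_ge δ 1 with h2 | h2
    · have h3 : N - 1 = 2 * (b - 1) + 1 := by omega
      rw [h3, pow_succ, hpow, smul_mul_assoc, one_mul] at h1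
      obtain ⟨-, -, h4, -⟩ := h1
      have h5 : ((X : k[X]) ^ (b - 1) • (!![0, X; 1, 0] : Matrix (Fin 2) (Fin 2) k[X])) 1 0 =
          X ^ (b - 1) := by simp
      rw [h5] at h4
      exact hnd _ _ (by omega) h4
    · have h3 : N - 1 = 2 * b := by omega
      rw [h3, hpow] at h1
      obtain ⟨h4, -, -, -⟩ := h1
      have h5 : ((X : k[X]) ^ b • (1 : Matrix (Fin 2) (Fin 2) k[X])) 0 0 = X ^ b := by simp
      rw [h5] at h4
      exact hnd _ _ (by omega) h4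
  refine cl_of_line (D := B₁ - B) (E := 0) (finite_pow (B := B) hne) ?_
  intro s hs
  rw [smul_zero, add_zero]
  have hrep := hB.add ((hB1.sub hB).smul s)
  have hM : ∀ i j, (M + s • ((!![0, X; 1, 0] : Matrix (Fin 2) (Fin 2) k[X]) - M)) i j =
      M i j + C s * ((!![0, X; 1, 0] : Matrix (Fin 2) (Fin 2) k[X]) i j - M i j) := by
    intro i j
    rw [← smul_eq_C_mul]
    rfl
  have hnil : IsNilpotent (B + s • (B₁ - B)) := by
    refine nilp_shape h hrep ?_ ?_ ?_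
    · rw [hM, h00]
      simp
    · rw [hM]
      exact dvd_add h01 ((dvd_sub (dvd_refl X) h01).mul_left _)
    · rw [hM]
      exact dvd_add h11 ((dvd_sub (dvd_zero X) h11).mul_left _)
  have hcn : CN ![A, B + s • (B₁ - B), 0] := cn3 h (comm_A h hrep) (by simp) (by simp) hnil
    IsNilpotent.zero
  refine cl_of_pow (pos h) hcn (M := B + s • (B₁ - B)) ?_ hs
  exact mem_adj ![A, B + s • (B₁ - B), 0] 1

/-- the planar case -/
theorem cl_planar [IsAlgClosed k] [CharZero k] (h : TwoB A v u b δ)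
    {B : Matrix (Fin N) (Fin N) k} {M : Matrix (Fin 2) (Fin 2) k[X]} (hB : Rep A v u B M)
    (hd : X ^ δ ∣ M 0 1) (h00 : M 0 0 = 0) (h01 : X ∣ M 0 1) (h11 : X ∣ M 1 1) :
    Cl ![A, B, 0] := by
  rcases Nat.lt_or_ge δ 2 with hδ | hδ
  · exact planar_low h (by omega) hB h00 h01 h11
  obtain ⟨d, rfl⟩ : ∃ d, δ = d + 2 := ⟨δ - 2, by omega⟩
  obtain ⟨f, hf⟩ := hd
  obtain ⟨Q, hQ⟩ := h11
  obtain ⟨c, hc⟩ : ∃ c, M 1 0 = c := ⟨_, rfl⟩
  obtain ⟨B₁, hB1⟩ := exists_of_rep h !![0, X ^ (d + 2); 1, X] (by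
    show X ^ (d + 2) ∣ X ^ (d + 2)
    exact dvd_refl _)
  -- exceptional parameters
  have hfin : ∀ g : k → k, D7.IsPoly g → g 1 ≠ 0 → {s | g s = 0}.Finite := fun g hg h1 => hg.finite h1
  have hlin : ∀ a b : k, D7.IsPoly fun s => a + s * (b - a) := fun a b =>
    (D7.IsPoly.const _).add (D7.IsPoly.id.mul (D7.IsPoly.const _))
  have F1 := hfin _ (hlin (c.coeff 0) 1) (by simp)
  have F2 := hfin _ (hlin (f.coeff 0) 1) (by simp)
  have F3 := hfin _ (hlin (Q.coeff 0) 1) (by simp)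
  have F4 := hfin (fun s => (Q.coeff 0 + s * (1 - Q.coeff 0)) ^ 2 +
      4 * ((f.coeff 0 + s * (1 - f.coeff 0)) * (c.coeff 0 + s * (1 - c.coeff 0))))
    (((hlin _ _).pow 2).add ((D7.IsPoly.const _).mul ((hlin _ _).mul (hlin _ _)))) (by
      show (Q.coeff 0 + 1 * (1 - Q.coeff 0)) ^ 2 +
        4 * ((f.coeff 0 + 1 * (1 - f.coeff 0)) * (c.coeff 0 + 1 * (1 - c.coeff 0))) ≠ 0
      have : (Q.coeff 0 + 1 * (1 - Q.coeff 0)) ^ 2 +
        4 * ((f.coeff 0 + 1 * (1 - f.coeff 0)) * (c.coeff 0 + 1 * (1 - c.coeff 0))) = 5 := by ring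
      rw [this]
      norm_num)
  refine cl_of_line (D := B₁ - B) (E := 0) (((F1.union F2).union F3).union F4) ?_
  intro s hs
  simp only [Set.mem_union, not_or, Set.mem_ofPred_eq] at hs
  obtain ⟨⟨⟨hs1, hs2⟩, hs3⟩, hs4⟩ := hs
  rw [smul_zero, add_zero]
  have hrep := hB.add ((hB1.sub hB).smul s)
  have hM : M + s • ((!![0, X ^ (d + 2); 1, X] : Matrix (Fin 2) (Fin 2) k[X]) - M) =
      !![0, X ^ (d + 2) * (f + C s * (1 - f)); c + C s * (1 - c), X * (Q + C s * (1 - Q))] := by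
    ext1 i j
    have e : (M + s • ((!![0, X ^ (d + 2); 1, X] : Matrix (Fin 2) (Fin 2) k[X]) - M)) i j = M i j + C s *
        ((!![0, X ^ (d + 2); 1, X] : Matrix (Fin 2) (Fin 2) k[X]) i j - M i j) := by
      rw [← smul_eq_C_mul]
      rfl
    rw [e]
    fin_cases i <;> fin_cases j
    · show M 0 0 + C s * (0 - M 0 0) = 0
      rw [h00]; ring
    · show M 0 1 + C s * (X ^ (d + 2) - M 0 1) = X ^ (d + 2) * (f + C s * (1 - f))
      rw [hf]; ring
    · show M 1 0 + C s * (1 - M 1 0) = c + C s * (1 - c)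
      rw [hc]
    · show M 1 1 + C s * (X - M 1 1) = X * (Q + C s * (1 - Q))
      rw [hQ]; ring
  rw [hM] at hrep
  have hco : ∀ g : k[X], (g + C s * (1 - g)).coeff 0 = g.coeff 0 + s * (1 - g.coeff 0) := by
    intro g
    rw [coeff_add, coeff_C_mul, coeff_sub, coeff_one_zero]
  refine node h hrep ?_ ?_ ?_ ?_
  · rw [hco]; exact hs1
  · rw [hco]; exact hs2
  · rw [hco]; exact hs3
  · intro _
    rw [hco, hco, hco]; exact hs4

end Two

end Pool.Agent.Lib.D8
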