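import Pool.Agent.Lib.D8.TwoD

/-!
# MP_5dcbc3_ag: commuting nilpotent triples, one matrix having two Jordan blocks: reduction to pairs
-/

namespace Pool.Agent.Lib.D8

open Matrix Polynomial Pool.Agent.Lib.Q5dc Pool.Agent.Lib.D7

variable {k : Type*} [Field k] {N : ℕ}

namespace Two

variable {A : Matrix (Fin N) (Fin N) k} {v u : Fin N → k} {b δ : ℕ}

theorem ev_smul (r : k) (P : Matrix (Fin 2) (Fin 2) k[X]) : ev k (r • P) = r • ev k P := by
  refine Matrix.ext fun i j => ?_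
  rw [ev_apply]
  show (r • P i j).coeff 0 = r * ev k P i j
  rw [ev_apply, coeff_smul, smul_eq_mul]

theorem nilp_ev (h : TwoB A v u b δ) {B : Matrix (Fin N) (Fin N) k}
    {P : Matrix (Fin 2) (Fin 2) k[X]} (hB : Rep A v u B P) (hP : ev k P * ev k P = 0) :
    IsNilpotent B := by
  rw [← map_mul] at hP
  have h1 : ∀ i j, X ∣ (P * P) i j := fun i j => by
    rw [← ev_zero_iff, hP]
    rfl
  choose P' hP' using h1
  refine nilp h hB (P' := Matrix.of P') ?_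
  refine Matrix.ext fun i j => ?_
  rw [hP']
  rfl

/-- both data in special position: planar deformation -/
theorem cl_F2 [IsAlgClosed k] [CharZero k] (h : TwoB A v u b δ) {m : ℕ} (hm1 : 1 ≤ m)
    (hm : 2 * m ≤ b) {B C : Matrix (Fin N) (Fin N) k} {c f q c' f' q' : k[X]}
    (hB : Rep A v u B !![0, X ^ δ * (X ^ m * f); X ^ m * c, X ^ m * q])
    (hC : Rep A v u C !![0, X ^ δ * (X ^ (b - m) * f'); X ^ (b - m) * c', X ^ (b - m) * q'])
    (hZ : q'.coeff 0 ^ 2 + 4 * ((X ^ δ : k[X]).coeff 0 * (f'.coeff 0 * c'.coeff 0)) = 0) :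
    Cl ![A, B, C] := by
  have hbm : b - m + m = b := by omega
  obtain ⟨d, hd⟩ : ∃ d, d = q'.coeff 0 / 2 := ⟨_, rfl⟩
  have hd2 : q'.coeff 0 = 2 * d := by rw [hd]; ring
  obtain ⟨Z, hZr⟩ := exists_of_rep h !![-Polynomial.C d, X ^ δ * f'; c', q' - Polynomial.C d] (by
    show X ^ δ ∣ X ^ δ * f'
    exact dvd_mul_right _ _)
  obtain ⟨MB, hMB⟩ : ∃ M : Matrix (Fin 2) (Fin 2) k[X],
    M = !![0, X ^ δ * (X ^ m * f); X ^ m * c, X ^ m * q] := ⟨_, rfl⟩
  obtain ⟨MZ, hMZ⟩ : ∃ M : Matrix (Fin 2) (Fin 2) k[X],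
    M = !![-Polynomial.C d, X ^ δ * f'; c', q' - Polynomial.C d] := ⟨_, rfl⟩
  rw [← hMB] at hB
  rw [← hMZ] at hZr
  -- nilpotency of `Z`
  have hevZ : ev k MZ * ev k MZ = 0 := by
    have e00 : ev k MZ 0 0 = -d := by rw [ev_apply, hMZ]; simp
    have e01 : ev k MZ 0 1 = (X ^ δ : k[X]).coeff 0 * f'.coeff 0 := by
      rw [ev_apply, hMZ]
      show (X ^ δ * f').coeff 0 = _
      rw [mul_coeff_zero]
    have e10 : ev k MZ 1 0 = c'.coeff 0 := by rw [ev_apply, hMZ]; rfl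
    have e11 : ev k MZ 1 1 = d := by
      rw [ev_apply, hMZ]
      show (q' - Polynomial.C d).coeff 0 = _
      rw [coeff_sub, coeff_C_zero, hd2]
      ring
    have hZ' : d ^ 2 + (X ^ δ : k[X]).coeff 0 * (f'.coeff 0 * c'.coeff 0) = 0 := by
      rw [hd2] at hZ
      have h4 : (4 : k) ≠ 0 := by norm_num
      refine (mul_eq_zero.1 (?_ : (4 : k) * _ = 0)).resolve_left h4
      linear_combination hZ
    refine Matrix.ext fun i j => ?_
    rw [Matrix.mul_apply, Fin.sum_univ_two]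
    fin_cases i <;> fin_cases j
    · show ev k MZ 0 0 * ev k MZ 0 0 + ev k MZ 0 1 * ev k MZ 1 0 = 0
      rw [e00, e01, e10]
      linear_combination hZ'
    · show ev k MZ 0 0 * ev k MZ 0 1 + ev k MZ 0 1 * ev k MZ 1 1 = 0
      rw [e00, e01, e11]
      ring
    · show ev k MZ 1 0 * ev k MZ 0 0 + ev k MZ 1 1 * ev k MZ 1 0 = 0
      rw [e00, e10, e11]
      ring
    · show ev k MZ 1 0 * ev k MZ 0 1 + ev k MZ 1 1 * ev k MZ 1 1 = 0
      rw [e01, e10, e11]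
      linear_combination hZ'
  have hevB : ev k MB = 0 := by
    refine Matrix.ext fun i j => ?_
    show ev k MB i j = 0
    rw [ev_zero_iff, hMB]
    have hx : ∀ p : k[X], X ∣ X ^ m * p := fun p =>
      (dvd_pow_self X (by omega)).trans (dvd_mul_right _ _)
    fin_cases i <;> fin_cases j
    · exact dvd_zero _
    · exact (hx f).mul_left _
    · exact hx c
    · exact hx q
  refine cl_of_line (D := Z) (E := 0) (Set.finite_singleton (0 : k)) ?_
  intro s hs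
  have hs0 : s ≠ 0 := hs
  rw [smul_zero, add_zero]
  have hrep := hB.add (hZr.smul s)
  have hnil : IsNilpotent (B + s • Z) := by
    refine nilp_ev h hrep ?_
    rw [map_add, hevB, zero_add, ev_smul, smul_mul_smul_comm, hevZ, smul_zero]
  have hpl := cl_pair h (comm_A h hrep) hnil
  -- `C` is a polynomial in `A` and `B + s Z`
  have hCeq : C = s⁻¹ • (aeval A ((X : k[X]) ^ (b - m)) * (B + s • Z)) +
      d • aeval A ((X : k[X]) ^ (b - m)) := by
    have h1 := ((hrep.polysmul (X ^ (b - m))).smul s⁻¹).add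
      ((Rep.aeval (A := A) (v := v) (u := u) (X ^ (b - m))).smul d)
    refine (hC.eq_iff h h1).2 ?_
    have hMC : (!![0, X ^ δ * (X ^ (b - m) * f'); X ^ (b - m) * c', X ^ (b - m) * q'] :
        Matrix (Fin 2) (Fin 2) k[X]) - (s⁻¹ • ((X : k[X]) ^ (b - m) • (MB + s • MZ)) +
          d • ((X : k[X]) ^ (b - m) • (1 : Matrix (Fin 2) (Fin 2) k[X]))) =
        -(s⁻¹ • ((X : k[X]) ^ (b - m) • MB)) := by
      have e1 : s⁻¹ • ((X : k[X]) ^ (b - m) • (MB + s • MZ)) =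
          s⁻¹ • ((X : k[X]) ^ (b - m) • MB) + (X : k[X]) ^ (b - m) • MZ := by
        rw [smul_add, smul_add, smul_comm ((X : k[X]) ^ (b - m)) s MZ, smul_smul,
          inv_mul_cancel₀ hs0, one_smul]
      have e2 : (!![0, X ^ δ * (X ^ (b - m) * f'); X ^ (b - m) * c', X ^ (b - m) * q'] :
          Matrix (Fin 2) (Fin 2) k[X]) = (X : k[X]) ^ (b - m) • MZ +
          d • ((X : k[X]) ^ (b - m) • (1 : Matrix (Fin 2) (Fin 2) k[X])) := by
        refine Matrix.ext fun i j => ?_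
        rw [hMZ]
        fin_cases i <;> fin_cases j
        · simp [smul_eq_C_mul]
        · simp
          ring
        · simp
        · simp [smul_eq_C_mul]
          ring
      rw [e1, e2]
      abel
    rw [hMC]
    have hent : ∀ i j, (-(s⁻¹ • ((X : k[X]) ^ (b - m) • MB))) i j =
        -(Polynomial.C s⁻¹ * (X ^ (b - m) * MB i j)) := by
      intro i j
      rw [← smul_eq_C_mul]
      rfl
    have hpw : ∀ p : k[X], X ^ b ∣ X ^ (b - m) * (X ^ m * p) := by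
      intro p
      rw [← mul_assoc, ← pow_add, hbm]
      exact dvd_mul_right _ _
    refine ⟨?_, ?_, ?_, ?_⟩
    · rw [hent, hMB]
      show X ^ (b + δ) ∣ -(Polynomial.C s⁻¹ * (X ^ (b - m) * 0))
      simp
    · rw [hent, hMB]
      show X ^ (b + δ) ∣ -(Polynomial.C s⁻¹ * (X ^ (b - m) * (X ^ δ * (X ^ m * f))))
      have : Polynomial.C s⁻¹ * (X ^ (b - m) * (X ^ δ * (X ^ m * f))) =
          (X ^ (b - m) * (X ^ m * (Polynomial.C s⁻¹ * f))) * X ^ δ := by ring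
      rw [this, pow_add]
      exact (mul_dvd_mul (hpw _) (dvd_refl _)).neg_right
    · rw [hent, hMB]
      show X ^ b ∣ -(Polynomial.C s⁻¹ * (X ^ (b - m) * (X ^ m * c)))
      exact ((hpw c).mul_left _).neg_right
    · rw [hent, hMB]
      show X ^ b ∣ -(Polynomial.C s⁻¹ * (X ^ (b - m) * (X ^ m * q)))
      exact ((hpw q).mul_left _).neg_right
  have m0 : A ∈ adj ![A, B + s • Z, 0] := mem_adj ![A, B + s • Z, 0] 0
  have m1 : B + s • Z ∈ adj ![A, B + s • Z, 0] := mem_adj ![A, B + s • Z, 0] 1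
  have m2 : C ∈ adj ![A, B + s • Z, 0] := by
    rw [hCeq]
    refine add_mem (SMulMemClass.smul_mem _ (aeval_mul_mem m0 m1 _))
      (SMulMemClass.smul_mem _ (aeval_mem m0 _ ?_))
    exact dvd_pow_self X (by omega)
  refine cl_of_adj (fun i => ?_) hpl
  fin_cases i
  · exact m0
  · exact m1
  · exact m2

theorem cl_F1 [IsAlgClosed k] [CharZero k] (h : TwoB A v u b δ) {m : ℕ} (hm1 : 1 ≤ m)
    (hm : 2 * m ≤ b) {B C : Matrix (Fin N) (Fin N) k} {c f q c' f' q' : k[X]}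
    (hB : Rep A v u B !![0, X ^ δ * (X ^ m * f); X ^ m * c, X ^ m * q])
    (hC : Rep A v u C !![0, X ^ δ * (X ^ (b - m) * f'); X ^ (b - m) * c', X ^ (b - m) * q'])
    (hW : q.coeff 0 ^ 2 + 4 * ((X ^ δ : k[X]).coeff 0 * (f.coeff 0 * c.coeff 0)) ≠ 0) :
    Cl ![A, B, C] := by
  obtain ⟨ε, hε⟩ : ∃ ε, ε = (X ^ δ : k[X]).coeff 0 := ⟨_, rfl⟩
  rw [← hε] at hW
  obtain ⟨κ, hκ⟩ := IsAlgClosed.exists_root
    (Polynomial.C (q.coeff 0 ^ 2 + 4 * (ε * (f.coeff 0 * c.coeff 0))) * X ^ 2 +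
      Polynomial.C (-2 * q.coeff 0 * q'.coeff 0 - 4 * ε * (f.coeff 0 * c'.coeff 0 + f'.coeff 0 * c.coeff 0)) * X +
      Polynomial.C (q'.coeff 0 ^ 2 + 4 * (ε * (f'.coeff 0 * c'.coeff 0))) : k[X]) (by
        rw [degree_quadratic hW]
        norm_num)
  simp only [IsRoot.def, eval_add, eval_mul, eval_C, eval_pow, eval_X] at hκ
  refine cl_sub_mul (Polynomial.C κ * X ^ (b - 2 * m)) ?_
  have h1 := hC.sub (hB.polysmul (Polynomial.C κ * X ^ (b - 2 * m)))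
  have hpw : (X : k[X]) ^ (b - 2 * m) * X ^ m = X ^ (b - m) := by
    rw [← pow_add]
    congr 1
    omega
  have h2 : (!![0, X ^ δ * (X ^ (b - m) * f'); X ^ (b - m) * c', X ^ (b - m) * q'] :
      Matrix (Fin 2) (Fin 2) k[X]) - (Polynomial.C κ * X ^ (b - 2 * m)) •
        !![0, X ^ δ * (X ^ m * f); X ^ m * c, X ^ m * q] =
      !![0, X ^ δ * (X ^ (b - m) * (f' - Polynomial.C κ * f)); X ^ (b - m) * (c' - Polynomial.C κ * c),
        X ^ (b - m) * (q' - Polynomial.C κ * q)] := by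
    refine Matrix.ext fun i j => ?_
    fin_cases i <;> fin_cases j
    · simp
    · show X ^ δ * (X ^ (b - m) * f') - (Polynomial.C κ * X ^ (b - 2 * m)) * (X ^ δ * (X ^ m * f)) =
        X ^ δ * (X ^ (b - m) * (f' - Polynomial.C κ * f))
      rw [← hpw]; ring
    · show X ^ (b - m) * c' - (Polynomial.C κ * X ^ (b - 2 * m)) * (X ^ m * c) =
        X ^ (b - m) * (c' - Polynomial.C κ * c)
      rw [← hpw]; ring
    · show X ^ (b - m) * q' - (Polynomial.C κ * X ^ (b - 2 * m)) * (X ^ m * q) =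
        X ^ (b - m) * (q' - Polynomial.C κ * q)
      rw [← hpw]; ring
  rw [h2] at h1
  refine cl_F2 h hm1 hm hB h1 ?_
  rw [← hε]
  simp only [coeff_sub, coeff_C_mul]
  linear_combination hκ

theorem cl_F [IsAlgClosed k] [CharZero k] (h : TwoB A v u b δ) {m : ℕ}
    (hm : 2 * m ≤ b) {B C : Matrix (Fin N) (Fin N) k} {c f q c' f' q' : k[X]}
    (hB : Rep A v u B !![0, X ^ δ * (X ^ m * f); X ^ m * c, X ^ m * q])
    (hC : Rep A v u C !![0, X ^ δ * (X ^ (b - m) * f'); X ^ (b - m) * c', X ^ (b - m) * q'])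
    (hf : X ∣ X ^ δ * (X ^ m * f)) (hq : X ∣ X ^ m * q) :
    Cl ![A, B, C] := by
  rcases Nat.eq_zero_or_pos m with rfl | hm1
  · -- `C = 0`
    have hC0 : C = 0 := by
      refine (hC.eq_zero_iff h).2 ⟨?_, ?_, ?_, ?_⟩
      · exact dvd_zero _
      · show X ^ (b + δ) ∣ X ^ δ * (X ^ (b - 0) * f')
        rw [Nat.sub_zero, ← mul_assoc, ← pow_add, Nat.add_comm]
        exact dvd_mul_right _ _
      · exact dvd_mul_right _ _
      · exact dvd_mul_right _ _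
    rw [hC0]
    exact cl_planar h hB (dvd_mul_right _ _) rfl hf hq
  obtain ⟨B₁, hB1⟩ := exists_of_rep h !![0, 0; 0, X ^ m] (dvd_zero _)
  have hfin : {s : k | (q.coeff 0 + s * (1 - q.coeff 0)) ^ 2 + 4 * ((X ^ δ : k[X]).coeff 0 *
      ((f.coeff 0 + s * (0 - f.coeff 0)) * (c.coeff 0 + s * (0 - c.coeff 0)))) = 0}.Finite := by
    have hlin : ∀ a b : k, D7.IsPoly fun s => a + s * (b - a) := fun a b =>
      (D7.IsPoly.const _).add (D7.IsPoly.id.mul (D7.IsPoly.const _))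
    refine D7.IsPoly.finite (((hlin _ _).pow 2).add ((D7.IsPoly.const _).mul
      ((D7.IsPoly.const _).mul ((hlin _ _).mul (hlin _ _))))) (s₁ := 1) ?_
    show (q.coeff 0 + 1 * (1 - q.coeff 0)) ^ 2 + 4 * ((X ^ δ : k[X]).coeff 0 *
      ((f.coeff 0 + 1 * (0 - f.coeff 0)) * (c.coeff 0 + 1 * (0 - c.coeff 0)))) ≠ 0
    have : (q.coeff 0 + 1 * (1 - q.coeff 0)) ^ 2 + 4 * ((X ^ δ : k[X]).coeff 0 *
      ((f.coeff 0 + 1 * (0 - f.coeff 0)) * (c.coeff 0 + 1 * (0 - c.coeff 0)))) = 1 := by ring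
    rw [this]
    exact one_ne_zero
  refine cl_of_line (D := B₁ - B) (E := 0) hfin ?_
  intro s hs
  rw [smul_zero, add_zero]
  have hrep := hB.add ((hB1.sub hB).smul s)
  have h2 : (!![0, X ^ δ * (X ^ m * f); X ^ m * c, X ^ m * q] : Matrix (Fin 2) (Fin 2) k[X]) +
      s • (!![0, 0; 0, X ^ m] - !![0, X ^ δ * (X ^ m * f); X ^ m * c, X ^ m * q]) =
      !![0, X ^ δ * (X ^ m * (f + Polynomial.C s * (0 - f))); X ^ m * (c + Polynomial.C s * (0 - c)),
        X ^ m * (q + Polynomial.C s * (1 - q))] := by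
    refine Matrix.ext fun i j => ?_
    fin_cases i <;> fin_cases j
    · show (0 : k[X]) + s • ((0 : k[X]) - 0) = 0
      simp
    · show X ^ δ * (X ^ m * f) + s • ((0 : k[X]) - X ^ δ * (X ^ m * f)) =
        X ^ δ * (X ^ m * (f + Polynomial.C s * (0 - f)))
      rw [smul_eq_C_mul]; ring
    · show X ^ m * c + s • ((0 : k[X]) - X ^ m * c) = X ^ m * (c + Polynomial.C s * (0 - c))
      rw [smul_eq_C_mul]; ring
    · show X ^ m * q + s • (X ^ m - X ^ m * q) = X ^ m * (q + Polynomial.C s * (1 - q))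
      rw [smul_eq_C_mul]; ring
  rw [h2] at hrep
  refine cl_F1 h hm1 hm hrep hC ?_
  simp only [coeff_add, coeff_C_mul, coeff_sub, coeff_one_zero, coeff_zero]
  exact hs

/-- proportionality modulo a power of `X` -/
theorem exists_lam {b m : ℕ} (hmb : m < b) {r₁ r₂ r₃ s₁ s₂ s₃ : k[X]}
    (hr1 : X ^ m ∣ r₁) (hr2 : X ^ m ∣ r₂) (hr3 : X ^ m ∣ r₃)
    (hs1 : X ^ m ∣ s₁)
    (h12 : X ^ b ∣ r₁ * s₂ - s₁ * r₂) (h13 : X ^ b ∣ r₁ * s₃ - s₁ * r₃)
    (hne : ¬ X ^ (m + 1) ∣ r₁) :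
    ∃ l : k[X], X ^ (b - m) ∣ s₁ - l * r₁ ∧ X ^ (b - m) ∣ s₂ - l * r₂ ∧
      X ^ (b - m) ∣ s₃ - l * r₃ := by
  obtain ⟨p, rfl⟩ := hr1
  obtain ⟨p', rfl⟩ := hs1
  have hp : ¬ X ∣ p := by
    intro hd
    apply hne
    rw [pow_succ]
    exact mul_dvd_mul_left _ hd
  have hcop : IsCoprime p (X ^ b) := by
    refine IsCoprime.pow_right ?_
    exact ((Polynomial.irreducible_X.coprime_iff_not_dvd).2 hp).symm
  obtain ⟨ι, σ, hι⟩ := hcop
  have hX : (X : k[X]) ^ m ≠ 0 := pow_ne_zero _ X_ne_zero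
  have hbm : (X : k[X]) ^ b = X ^ m * X ^ (b - m) := by
    rw [← pow_add]
    congr 1
    omega
  have key : ∀ r s : k[X], X ^ m ∣ r → X ^ b ∣ X ^ m * p * s - X ^ m * p' * r →
      X ^ (b - m) ∣ s - (p' * ι) * r := by
    intro r s _ hd
    have h1 : X ^ (b - m) ∣ p * s - p' * r := by
      have h2 : X ^ m * p * s - X ^ m * p' * r = X ^ m * (p * s - p' * r) := by ring
      rw [h2, hbm] at hd
      exact (mul_dvd_mul_iff_left hX).1 hd
    have h3 : s - (p' * ι) * r = ι * (p * s - p' * r) + X ^ b * (σ * s) := by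
      linear_combination -s * hι
    rw [h3]
    refine dvd_add (h1.mul_left _) ?_
    rw [hbm]
    exact ((dvd_mul_left _ _).mul_right _)
  refine ⟨p' * ι, ?_, key _ _ hr2 h12, key _ _ hr3 h13⟩
  refine key _ _ (dvd_mul_right _ _) ?_
  have : X ^ m * p * (X ^ m * p') - X ^ m * p' * (X ^ m * p) = 0 := by ring
  rw [this]
  exact dvd_zero _

theorem cl_swap {n : Type*} [Fintype n] [DecidableEq n] {A B C : Matrix n n k}
    (h : Cl ![A, C, B]) : Cl ![A, B, C] := by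
  refine cl_of_adj (fun i => ?_) h
  fin_cases i
  · exact mem_adj ![A, C, B] 0
  · exact mem_adj ![A, C, B] 2
  · exact mem_adj ![A, C, B] 1

/-- reduced data, first step -/
theorem cl_red [IsAlgClosed k] [CharZero k] (h : TwoB A v u b δ)
    {B C : Matrix (Fin N) (Fin N) k} {c f q c' f' q' : k[X]}
    (hB : Rep A v u B !![0, X ^ δ * f; c, q]) (hC : Rep A v u C !![0, X ^ δ * f'; c', q'])
    (hf : X ∣ X ^ δ * f) (hq : X ∣ q) {m : ℕ} (hmb : m ≤ b)
    (hc1 : X ^ m ∣ c) (hf1 : X ^ m ∣ f) (hq1 : X ^ m ∣ q)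
    (hc2 : X ^ m ∣ c') (hf2 : X ^ m ∣ f') (hq2 : X ^ m ∣ q') (l : k[X])
    (hc3 : X ^ (b - m) ∣ c' - l * c) (hf3 : X ^ (b - m) ∣ f' - l * f)
    (hq3 : X ^ (b - m) ∣ q' - l * q) : Cl ![A, B, C] := by
  refine cl_sub_mul l ?_
  have h1 := hC.sub (hB.polysmul l)
  have h2 : (!![0, X ^ δ * f'; c', q'] : Matrix (Fin 2) (Fin 2) k[X]) -
      l • !![0, X ^ δ * f; c, q] = !![0, X ^ δ * (f' - l * f); c' - l * c, q' - l * q] := by
    refine Matrix.ext fun i j => ?_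
    fin_cases i <;> fin_cases j
    · simp
    · show X ^ δ * f' - l * (X ^ δ * f) = X ^ δ * (f' - l * f)
      ring
    · rfl
    · rfl
  rw [h2] at h1
  obtain ⟨m', hm'⟩ : ∃ m', m' = min m (b / 2) := ⟨_, rfl⟩
  have ha : ∀ p : k[X], X ^ m ∣ p → X ^ m' ∣ p := fun p hp =>
    (pow_dvd_pow X (by omega)).trans hp
  have hb' : ∀ p p' : k[X], X ^ m ∣ p → X ^ m ∣ p' → X ^ (b - m) ∣ p' - l * p →
      X ^ (b - m') ∣ p' - l * p := by
    intro p p' h3 h4 h5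
    rcases Nat.lt_or_ge (b / 2) m with h6 | h6
    · exact (pow_dvd_pow X (by omega)).trans (dvd_sub h4 (h3.mul_left _))
    · exact (pow_dvd_pow X (by omega)).trans h5
  obtain ⟨c1, rfl⟩ := ha _ hc1
  obtain ⟨f1, rfl⟩ := ha _ hf1
  obtain ⟨q1, rfl⟩ := ha _ hq1
  obtain ⟨c2, hc2'⟩ := hb' _ _ hc1 hc2 hc3
  obtain ⟨f2, hf2'⟩ := hb' _ _ hf1 hf2 hf3
  obtain ⟨q2, hq2'⟩ := hb' _ _ hq1 hq2 hq3
  rw [hc2', hf2', hq2'] at h1
  exact cl_F h (m := m') (by omega) hB h1 hf hq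

theorem cl_red' [IsAlgClosed k] [CharZero k] (h : TwoB A v u b δ)
    {B C : Matrix (Fin N) (Fin N) k} {c f q c' f' q' : k[X]}
    (hB : Rep A v u B !![0, X ^ δ * f; c, q]) (hC : Rep A v u C !![0, X ^ δ * f'; c', q'])
    (hf : X ∣ X ^ δ * f) (hq : X ∣ q) {m : ℕ} (hmb : m < b)
    (hcf : X ^ b ∣ c * f' - c' * f) (hcq : X ^ b ∣ c * q' - c' * q)
    (hfq : X ^ b ∣ f * q' - f' * q)
    (hc1 : X ^ m ∣ c) (hf1 : X ^ m ∣ f) (hq1 : X ^ m ∣ q)
    (hc2 : X ^ m ∣ c') (hf2 : X ^ m ∣ f') (hq2 : X ^ m ∣ q')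
    (hne : ¬ (X ^ (m + 1) ∣ c ∧ X ^ (m + 1) ∣ f ∧ X ^ (m + 1) ∣ q)) : Cl ![A, B, C] := by
  by_cases h1 : X ^ (m + 1) ∣ c
  · by_cases h2 : X ^ (m + 1) ∣ f
    · have h3 : ¬ X ^ (m + 1) ∣ q := fun h3 => hne ⟨h1, h2, h3⟩
      obtain ⟨l, e1, e2, e3⟩ := exists_lam hmb hq1 hc1 hf1 hq2 (s₂ := c') (s₃ := f')
        (by
          have : q * c' - q' * c = -(c * q' - c' * q) := by ring
          rw [this]; exact hcq.neg_right)
        (by
          have : q * f' - q' * f = -(f * q' - f' * q) := by ring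
          rw [this]; exact hfq.neg_right) h3
      exact cl_red h hB hC hf hq hmb.le hc1 hf1 hq1 hc2 hf2 hq2 l e2 e3 e1
    · obtain ⟨l, e1, e2, e3⟩ := exists_lam hmb hf1 hc1 hq1 hf2 (s₂ := c') (s₃ := q')
        (by
          have : f * c' - f' * c = -(c * f' - c' * f) := by ring
          rw [this]; exact hcf.neg_right) hfq h2
      exact cl_red h hB hC hf hq hmb.le hc1 hf1 hq1 hc2 hf2 hq2 l e2 e1 e3
  · obtain ⟨l, e1, e2, e3⟩ := exists_lam hmb hc1 hf1 hq1 hc2 (s₂ := f') (s₃ := q') hcf hcq h1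
    exact cl_red h hB hC hf hq hmb.le hc1 hf1 hq1 hc2 hf2 hq2 l e1 e2 e3

/-- commuting nilpotent triples, one of the matrices having (at most) two Jordan blocks, are limits
of curvilinear triples -/
theorem cl_two [IsAlgClosed k] [CharZero k] (h : TwoB A v u b δ)
    {B C : Matrix (Fin N) (Fin N) k} (hAB : A * B = B * A) (hAC : A * C = C * A)
    (hBC : B * C = C * B) (hB : IsNilpotent B) (hC : IsNilpotent C) : Cl ![A, B, C] := by
  classical
  obtain ⟨v', u', P, Q, h', hP, hQ, hPd, hQd, p00, p01, p11, q00, q01, q11⟩ :=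
    exists_gen h hAB hAC hBC hB hC
  refine cl_sub (f := P 0 0) (g := Q 0 0) p00 q00 ?_
  have hB' := hP.sub (Rep.aeval (P 0 0))
  have hC' := hQ.sub (Rep.aeval (Q 0 0))
  obtain ⟨f, hf⟩ := hPd
  obtain ⟨f', hf'⟩ := hQd
  have eP : P - P 0 0 • (1 : Matrix (Fin 2) (Fin 2) k[X]) =
      !![0, X ^ δ * f; P 1 0, P 1 1 - P 0 0] := by
    refine Matrix.ext fun i j => ?_
    fin_cases i <;> fin_cases j
    · simp
    · simp [hf]
    · simp
    · simp
  have eQ : Q - Q 0 0 • (1 : Matrix (Fin 2) (Fin 2) k[X]) =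
      !![0, X ^ δ * f'; Q 1 0, Q 1 1 - Q 0 0] := by
    refine Matrix.ext fun i j => ?_
    fin_cases i <;> fin_cases j
    · simp
    · simp [hf']
    · simp
    · simp
  rw [eP] at hB'
  rw [eQ] at hC'
  obtain ⟨c, hc⟩ : ∃ c, c = P 1 0 := ⟨_, rfl⟩
  obtain ⟨q, hq⟩ : ∃ q, q = P 1 1 - P 0 0 := ⟨_, rfl⟩
  obtain ⟨c', hc'⟩ : ∃ c, c = Q 1 0 := ⟨_, rfl⟩
  obtain ⟨q', hq'⟩ : ∃ q, q = Q 1 1 - Q 0 0 := ⟨_, rfl⟩
  have hqX : X ∣ q := by rw [hq]; exact dvd_sub p11 p00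
  have hqX' : X ∣ q' := by rw [hq']; exact dvd_sub q11 q00
  have hfX : X ∣ X ^ δ * f := by rw [← hf]; exact p01
  have hfX' : X ∣ X ^ δ * f' := by rw [← hf']; exact q01
  rw [← hc, ← hq] at hB'
  rw [← hc', ← hq'] at hC'
  -- minors
  have hcomm : (B - aeval A (P 0 0)) * (C - aeval A (Q 0 0)) =
      (C - aeval A (Q 0 0)) * (B - aeval A (P 0 0)) := by
    have e1 : B * aeval A (Q 0 0) = aeval A (Q 0 0) * B := by
      refine Rep.eq h' (P := (Q 0 0) • P) ?_ (hP.polysmul _)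
      have := hP.mul (Rep.aeval (A := A) (v := v') (u := u') (Q 0 0))
      rwa [mul_smul_comm, mul_one] at this
    have e2 : C * aeval A (P 0 0) = aeval A (P 0 0) * C := by
      refine Rep.eq h' (P := (P 0 0) • Q) ?_ (hQ.polysmul _)
      have := hQ.mul (Rep.aeval (A := A) (v := v') (u := u') (P 0 0))
      rwa [mul_smul_comm, mul_one] at this
    have e3 : (aeval A (P 0 0) : Matrix (Fin N) (Fin N) k) * aeval A (Q 0 0) =
        aeval A (Q 0 0) * aeval A (P 0 0) := by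
      rw [← map_mul, mul_comm, map_mul]
    rw [sub_mul, mul_sub, mul_sub, sub_mul, mul_sub, mul_sub, e1, e2, e3, hBC]
    abel
  have hker := ((hB'.mul hC').eq_iff h' (hC'.mul hB')).1 hcomm
  obtain ⟨k1, k2, k3, -⟩ := hker
  have x1 : ((!![0, X ^ δ * f; c, q] : Matrix (Fin 2) (Fin 2) k[X]) * !![0, X ^ δ * f'; c', q'] -
      !![0, X ^ δ * f'; c', q'] * !![0, X ^ δ * f; c, q]) 0 0 = -(X ^ δ * (c * f' - c' * f)) := by
    simp; ring
  have x2 : ((!![0, X ^ δ * f; c, q] : Matrix (Fin 2) (Fin 2) k[X]) * !![0, X ^ δ * f'; c', q'] -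
      !![0, X ^ δ * f'; c', q'] * !![0, X ^ δ * f; c, q]) 0 1 = X ^ δ * (f * q' - f' * q) := by
    simp; ring
  have x3 : ((!![0, X ^ δ * f; c, q] : Matrix (Fin 2) (Fin 2) k[X]) * !![0, X ^ δ * f'; c', q'] -
      !![0, X ^ δ * f'; c', q'] * !![0, X ^ δ * f; c, q]) 1 0 = -(c * q' - c' * q) := by
    simp; ring
  rw [x1] at k1
  rw [x2] at k2
  rw [x3] at k3
  have hXδ : (X : k[X]) ^ δ ≠ 0 := pow_ne_zero _ X_ne_zero
  have hcf : X ^ b ∣ c * f' - c' * f := by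
    rw [Nat.add_comm, pow_add] at k1
    exact (mul_dvd_mul_iff_left hXδ).1 ((dvd_neg).1 k1)
  have hfq : X ^ b ∣ f * q' - f' * q := by
    rw [Nat.add_comm, pow_add] at k2
    exact (mul_dvd_mul_iff_left hXδ).1 k2
  have hcq : X ^ b ∣ c * q' - c' * q := (dvd_neg).1 k3
  -- the order
  let D : ℕ → Prop := fun m => (X ^ m ∣ c ∧ X ^ m ∣ f ∧ X ^ m ∣ q) ∧
    (X ^ m ∣ c' ∧ X ^ m ∣ f' ∧ X ^ m ∣ q')
  obtain ⟨m, hmb, hD, hD'⟩ : ∃ m, m ≤ b ∧ D m ∧ (m < b → ¬ D (m + 1)) := by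
    have hD0 : D 0 := by
      simp [D]
    refine ⟨Nat.findGreatest D b, Nat.findGreatest_le b, ?_, ?_⟩
    · exact Nat.findGreatest_spec (P := D) (Nat.zero_le b) hD0
    · intro hlt hD1
      have := Nat.le_findGreatest (P := D) (n := b) (m := Nat.findGreatest D b + 1) (by omega) hD1
      omega
  obtain ⟨⟨hc1, hf1, hq1⟩, ⟨hc2, hf2, hq2⟩⟩ := hD
  rcases Nat.lt_or_ge m b with hlt | hge
  · by_cases hne : X ^ (m + 1) ∣ c ∧ X ^ (m + 1) ∣ f ∧ X ^ (m + 1) ∣ q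
    · have hne' : ¬ (X ^ (m + 1) ∣ c' ∧ X ^ (m + 1) ∣ f' ∧ X ^ (m + 1) ∣ q') :=
        fun h1 => hD' hlt ⟨hne, h1⟩
      refine cl_swap (cl_red' h' hC' hB' hfX' hqX' hlt ?_ ?_ ?_ hc2 hf2 hq2 hc1 hf1 hq1 hne')
      · have : c' * f - c * f' = -(c * f' - c' * f) := by ring
        rw [this]; exact hcf.neg_right
      · have : c' * q - c * q' = -(c * q' - c' * q) := by ring
        rw [this]; exact hcq.neg_right
      · have : f' * q - f * q' = -(f * q' - f' * q) := by ring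
        rw [this]; exact hfq.neg_right
    · exact cl_red' h' hB' hC' hfX hqX hlt hcf hcq hfq hc1 hf1 hq1 hc2 hf2 hq2 hne
  · have hbm : b - m = 0 := by omega
    refine cl_red h' hB' hC' hfX hqX hmb hc1 hf1 hq1 hc2 hf2 hq2 0 ?_ ?_ ?_ <;>
    · rw [hbm, pow_zero]
      exact one_dvd _

end Two

end Pool.Agent.Lib.D8
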