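import Pool.Agent.Lib.D8.ConjB
import Pool.Agent.Lib.D8.UtilB

/-!
# MP_5dcbc3_ag: tools for the 8 x 8 reductions
-/

namespace Pool.Agent.Lib.D8

open Matrix Pool.Agent.Lib.Q5dc Pool.Agent.Lib.D7

/-! ### ranks and nilpotency -/

section Ranks

variable {k : Type*} [Field k]

theorem J332_cube : J332 k ^ 3 = 0 := by
  rw [pow_succ, pow_two]
  ext i j
  fin_cases i <;> fin_cases j <;> simp [J332, Matrix.mul_apply, Fin.sum_univ_succ]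

theorem J3311_cube : J3311 k ^ 3 = 0 := by
  rw [pow_succ, pow_two]
  ext i j
  fin_cases i <;> fin_cases j <;> simp [J3311, Matrix.mul_apply, Fin.sum_univ_succ]

theorem J3221_cube : J3221 k ^ 3 = 0 := by
  rw [pow_succ, pow_two]
  ext i j
  fin_cases i <;> fin_cases j <;> simp [J3221, Matrix.mul_apply, Fin.sum_univ_succ]

theorem J32111_cube : J32111 k ^ 3 = 0 := by
  rw [pow_succ, pow_two]
  ext i j
  fin_cases i <;> fin_cases j <;> simp [J32111, Matrix.mul_apply, Fin.sum_univ_succ]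

theorem J3221_rank : (J3221 k).rank ≤ 4 := by
  refine rank_le_of_factor _ !![0, 0, 0, 0; 1, 0, 0, 0; 0, 1, 0, 0; 0, 0, 0, 0; 0, 0, 1, 0;
    0, 0, 0, 0; 0, 0, 0, 1; 0, 0, 0, 0]
    !![1, 0, 0, 0, 0, 0, 0, 0; 0, 1, 0, 0, 0, 0, 0, 0; 0, 0, 0, 1, 0, 0, 0, 0;
      0, 0, 0, 0, 0, 1, 0, 0] ?_
  ext i j
  fin_cases i <;> fin_cases j <;> simp [J3221, Matrix.mul_apply, Fin.sum_univ_succ]

theorem J3221_rank_sq : (J3221 k ^ 2).rank ≤ 1 := by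
  refine rank_le_of_factor _ !![0; 0; 1; 0; 0; 0; 0; 0]
    !![1, 0, 0, 0, 0, 0, 0, 0] ?_
  rw [pow_two]
  ext i j
  fin_cases i <;> fin_cases j <;> simp [J3221, Matrix.mul_apply, Fin.sum_univ_succ]

theorem J3311_rank : (J3311 k).rank ≤ 4 := by
  refine rank_le_of_factor _ !![0, 0, 0, 0; 1, 0, 0, 0; 0, 1, 0, 0; 0, 0, 0, 0; 0, 0, 1, 0;
    0, 0, 0, 1; 0, 0, 0, 0; 0, 0, 0, 0]
    !![1, 0, 0, 0, 0, 0, 0, 0; 0, 1, 0, 0, 0, 0, 0, 0; 0, 0, 0, 1, 0, 0, 0, 0;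
      0, 0, 0, 0, 1, 0, 0, 0] ?_
  ext i j
  fin_cases i <;> fin_cases j <;> simp [J3311, Matrix.mul_apply, Fin.sum_univ_succ]

theorem J4211_rank : (J4211 k).rank ≤ 4 := by
  refine rank_le_of_factor _ !![0, 0, 0, 0; 1, 0, 0, 0; 0, 1, 0, 0; 0, 0, 1, 0; 0, 0, 0, 0;
    0, 0, 0, 1; 0, 0, 0, 0; 0, 0, 0, 0]
    !![1, 0, 0, 0, 0, 0, 0, 0; 0, 1, 0, 0, 0, 0, 0, 0; 0, 0, 1, 0, 0, 0, 0, 0;
      0, 0, 0, 0, 1, 0, 0, 0] ?_
  ext i j
  fin_cases i <;> fin_cases j <;> simp [J4211, Matrix.mul_apply, Fin.sum_univ_succ]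

theorem J32111_rank : (J32111 k).rank ≤ 3 := by
  refine rank_le_of_factor _ !![0, 0, 0; 1, 0, 0; 0, 1, 0; 0, 0, 0; 0, 0, 1;
    0, 0, 0; 0, 0, 0; 0, 0, 0]
    !![1, 0, 0, 0, 0, 0, 0, 0; 0, 1, 0, 0, 0, 0, 0, 0; 0, 0, 0, 1, 0, 0, 0, 0] ?_
  ext i j
  fin_cases i <;> fin_cases j <;> simp [J32111, Matrix.mul_apply, Fin.sum_univ_succ]

theorem J332_nil : IsNilpotent (J332 k) := ⟨3, J332_cube⟩

theorem J3311_nil : IsNilpotent (J3311 k) := ⟨3, J3311_cube⟩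

theorem J3221_nil : IsNilpotent (J3221 k) := ⟨3, J3221_cube⟩

theorem J32111_nil : IsNilpotent (J32111 k) := ⟨3, J32111_cube⟩

theorem J4211_nil : IsNilpotent (J4211 k) := by
  refine isNilpotent_of_weight _ ![0, 1, 2, 3, 0, 1, 0, 0] ?_
  intro i j h
  fin_cases i <;> fin_cases j <;> simp [J4211] at h ⊢

theorem B332_nil (N M : Matrix (Fin 2) (Fin 2) k) (a c b d : Fin 2 → k) (nu : k) :
    IsNilpotent (B332 N M a c b d nu) := by
  refine isNilpotent_of_weight _ ![0, 2, 4, 0, 2, 4, 1, 3] ?_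
  intro i j h
  fin_cases i <;> fin_cases j <;> simp [B332] at h ⊢

theorem B3311_nil (N M W T : Matrix (Fin 2) (Fin 2) k) : IsNilpotent (B3311 N M W T) := by
  refine isNilpotent_of_weight _ ![0, 1, 2, 0, 1, 2, 1, 1] ?_
  intro i j h
  fin_cases i <;> fin_cases j <;> simp [B3311] at h ⊢

theorem B3221_nil (a c : Fin 2 → k) (om : k) (b d : Fin 2 → k)
    (N : Matrix (Fin 2) (Fin 2) k) (p : Fin 2 → k) (th : k) (e : Fin 2 → k) :
    IsNilpotent (B3221 a c om b d N p th e) := by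
  refine isNilpotent_of_weight _ ![0, 2, 4, 1, 3, 1, 3, 2] ?_
  intro i j h
  fin_cases i <;> fin_cases j <;> simp [B3221] at h ⊢

theorem B4211_nil (al al1 : k) (w : Fin 2 → k) (be be1 ga : k) (pi th e : Fin 2 → k) :
    IsNilpotent (B4211 al al1 w be be1 ga pi th e 0) := by
  refine isNilpotent_of_weight _ ![0, 1, 5, 6, 1, 3, 2, 2] ?_
  intro i j h
  fin_cases i <;> fin_cases j <;> simp [B4211] at h ⊢

theorem B32111_nil (al al1 : k) (w : Fin 3 → k) (be be1 ga : k) (pi th e : Fin 3 → k) :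
    IsNilpotent (B32111 al al1 w be be1 ga pi th e 0) := by
  refine isNilpotent_of_weight _ ![0, 2, 4, 1, 3, 2, 2, 2] ?_
  intro i j h
  fin_cases i <;> fin_cases j <;> simp [B32111] at h ⊢

/-- the triples of type (3, 3, 2) -/
theorem B332_cn {N M : Matrix (Fin 2) (Fin 2) k} {a c b d : Fin 2 → k} {nu : k}
    {N' M' : Matrix (Fin 2) (Fin 2) k} {a' c' b' d' : Fin 2 → k} {nu' : k}
    (h : B332 N M a c b d nu * B332 N' M' a' c' b' d' nu' =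
      B332 N' M' a' c' b' d' nu' * B332 N M a c b d nu) :
    CN ![J332 k, B332 N M a c b d nu, B332 N' M' a' c' b' d' nu'] :=
  cn3 (J332_comm _ _ _ _ _ _ _) (J332_comm _ _ _ _ _ _ _) h J332_nil (B332_nil _ _ _ _ _ _ _)
    (B332_nil _ _ _ _ _ _ _)

/-- the commutation relations in type (3, 3, 2) with `b = b' = 0` -/
theorem B332_comm0 (N M : Matrix (Fin 2) (Fin 2) k) (a c d : Fin 2 → k) (nu : k)
    (N' M' : Matrix (Fin 2) (Fin 2) k) (a' c' d' : Fin 2 → k) (nu' : k) :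
    B332 N M a c 0 d nu * B332 N' M' a' c' 0 d' nu' =
      B332 N' M' a' c' 0 d' nu' * B332 N M a c 0 d nu ↔
      N * N' + vecMulVec d a' = N' * N + vecMulVec d' a ∧
      a ᵥ* N' + nu • a' = a' ᵥ* N + nu' • a := by
  rw [B332_mul, B332_mul, B332_inj]
  simp

theorem J3311_comm (N M W T : Matrix (Fin 2) (Fin 2) k) :
    J3311 k * B3311 N M W T = B3311 N M W T * J3311 k := by
  rw [J3311_eq, B3311_comm]
  simp

theorem B3311_cn {N M W T N' M' W' T' : Matrix (Fin 2) (Fin 2) k}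
    (h : N * N' + T * W' = N' * N + T' * W) :
    CN ![J3311 k, B3311 N M W T, B3311 N' M' W' T'] :=
  cn3 (J3311_comm _ _ _ _) (J3311_comm _ _ _ _) ((B3311_comm _ _ _ _ _ _ _ _).2 h) J3311_nil
    (B3311_nil _ _ _ _) (B3311_nil _ _ _ _)

theorem B3221_cn {a c : Fin 2 → k} {om : k} {b d : Fin 2 → k}
    {N : Matrix (Fin 2) (Fin 2) k} {p : Fin 2 → k} {th : k} {e : Fin 2 → k}
    {a' c' : Fin 2 → k} {om' : k} {b' d' : Fin 2 → k} {N' : Matrix (Fin 2) (Fin 2) k}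
    {p' : Fin 2 → k} {th' : k} {e' : Fin 2 → k}
    (h1 : b ⬝ᵥ a' = b' ⬝ᵥ a)
    (h2 : d ⬝ᵥ a' + b ⬝ᵥ c' + om' * th = d' ⬝ᵥ a + b' ⬝ᵥ c + om * th')
    (h3 : N *ᵥ a' + om' • e = N' *ᵥ a + om • e')
    (h4 : p ⬝ᵥ a' = p' ⬝ᵥ a)
    (h5 : vecMulVec a b' + vecMulVec e p' = vecMulVec a' b + vecMulVec e' p)
    (h6 : b ᵥ* N' + th • p' = b' ᵥ* N + th' • p)
    (h7 : b ⬝ᵥ e' = b' ⬝ᵥ e) :
    CN ![J3221 k, B3221 a c om b d N p th e, B3221 a' c' om' b' d' N' p' th' e'] :=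
  cn3 (J3221_comm _ _ _ _ _ _ _ _ _) (J3221_comm _ _ _ _ _ _ _ _ _)
    ((B3221_comm _ _ _ _ _ _ _ _ _ _ _ _ _ _ _ _ _ _).2 ⟨h1, h2, h3, h4, h5, h6, h7⟩)
    J3221_nil (B3221_nil _ _ _ _ _ _ _ _ _) (B3221_nil _ _ _ _ _ _ _ _ _)

end Ranks

end Pool.Agent.Lib.D8
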